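import Pool.Agent.LibFM89.CD

/-! # FM89 A0: the Dirichlet integral (MEDIUM)

PLAN.  One variable: `∫ cellρ β (s-y) cellρ a y dy = cellρ (β+a) s` for all real `s`: for `s ≤ 0` the integrand vanishes (`cellρ` lives on
`(0,∞)`); for `s > 0` it is the Beta integral `∫_0^s (s-y)^(β-1) y^(a-1) dy = s^(a+β-1) Γ(a)Γ(β)/Γ(a+β)` (Mathlib: `Real.betaIntegral`
/`Complex.betaIntegral_scaled`, `Complex.Gamma_mul_Gamma_eq_betaIntegral`; or the convolution uniqueness; grep `betaIntegral` in
Mathlib and in `Pool/Agent/Lib*`; template for the Laplace argument: LibM3/H3.lean `h3_dir`).  Then induction on `n`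
(`volume_preserving_piFinSuccAbove`, `Fin.sum_univ_succ`, `Fin.prod_univ_succ`): integrate `y_1, …` first with `s - y_0` in the place of
`s`.  Nonnegative integrand: integrability from `integrable_prod_iff` or with `lintegral` and `ENNReal.ofReal`. -/

set_option autoImplicit false

namespace Pool.Agent.LibFM89

open MeasureTheory Set Filter Topology Complex ProbabilityTheory
open scoped NNReal ComplexConjugate
open Pool.Agent.LibZM
open Pool.Agent.LibSM47 (gam ch idx)

private theorem A0_meas (w : ℝ) : Measurable (cellρ w) := by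
  unfold cellρ
  refine Measurable.indicator ?_ measurableSet_Ioi
  fun_prop

private theorem A0_of_nonpos (w t : ℝ) (ht : t ≤ 0) : cellρ w t = 0 := by
  unfold cellρ
  exact Set.indicator_of_notMem (fun h => absurd (Set.mem_Ioi.1 h) (not_lt.2 ht)) _

private theorem A0_of_pos (w t : ℝ) (ht : 0 < t) : cellρ w t = t ^ (w - 1) / Real.Gamma w := by
  unfold cellρ
  exact Set.indicator_of_mem (Set.mem_Ioi.2 ht) _

private theorem A0_point (β a s u : ℝ) (hβ : 0 < β) (ha : 0 < a) (hs : 0 < s) :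
    cellρ β (s - s * u) * cellρ a (s * u) =
      s ^ (β + a - 2) / Real.Gamma (β + a) * betaPDFReal a β u := by
  unfold betaPDFReal
  by_cases hu : 0 < u ∧ u < 1
  · obtain ⟨h0, h1⟩ := hu
    rw [if_pos ⟨h0, h1⟩]
    have h2 : 0 < 1 - u := by linarith
    have h3 : s - s * u = s * (1 - u) := by ring
    rw [h3, A0_of_pos _ _ (mul_pos hs h2), A0_of_pos _ _ (mul_pos hs h0),
      Real.mul_rpow hs.le h2.le, Real.mul_rpow hs.le h0.le]
    have h4 : s ^ (β + a - 2) = s ^ (β - 1) * s ^ (a - 1) := by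
      rw [← Real.rpow_add hs]
      congr 1
      ring
    have h5 := (Real.Gamma_pos_of_pos hβ).ne'
    have h6 := (Real.Gamma_pos_of_pos ha).ne'
    have h7 := (Real.Gamma_pos_of_pos (add_pos hβ ha)).ne'
    rw [h4]
    unfold beta
    rw [add_comm a β]
    field_simp
  · rw [if_neg hu, mul_zero]
    by_cases h0 : 0 < u
    · have h1 : 1 ≤ u := by
        by_contra h
        exact hu ⟨h0, not_le.1 h⟩
      rw [A0_of_nonpos β (s - s * u) (by nlinarith), zero_mul]
    · rw [A0_of_nonpos a (s * u) (by nlinarith [not_lt.1 h0]), mul_zero]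

private theorem A0_one (β a s : ℝ) (hβ : 0 < β) (ha : 0 < a) :
    ∫⁻ y : ℝ, ENNReal.ofReal (cellρ β (s - y)) * ENNReal.ofReal (cellρ a y) =
      ENNReal.ofReal (cellρ (β + a) s) := by
  rcases le_or_gt s 0 with hs | hs
  · rw [A0_of_nonpos _ _ hs, ENNReal.ofReal_zero]
    have h : ∀ y : ℝ, ENNReal.ofReal (cellρ β (s - y)) * ENNReal.ofReal (cellρ a y) = 0 := by
      intro y
      rcases le_or_gt y 0 with hy | hy
      · rw [A0_of_nonpos a y hy, ENNReal.ofReal_zero, mul_zero]
      · rw [A0_of_nonpos β (s - y) (by linarith), ENNReal.ofReal_zero, zero_mul]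
    simp_rw [h]
    exact lintegral_zero
  · have hm : Measurable fun y : ℝ => ENNReal.ofReal (cellρ β (s - y)) * ENNReal.ofReal (cellρ a y) :=
      (((A0_meas β).comp (measurable_const.sub measurable_id)).ennreal_ofReal).mul
        (A0_meas a).ennreal_ofReal
    have h1 : ∫⁻ y : ℝ, ENNReal.ofReal (cellρ β (s - y)) * ENNReal.ofReal (cellρ a y) =
        ENNReal.ofReal s * ∫⁻ u : ℝ, ENNReal.ofReal (cellρ β (s - s * u)) *
          ENNReal.ofReal (cellρ a (s * u)) := by
      conv_lhs => rw [← Real.smul_map_volume_mul_left hs.ne']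
      rw [lintegral_smul_measure, lintegral_map hm (measurable_const_mul s), abs_of_pos hs]
      rfl
    rw [h1]
    have h2 : ∀ u : ℝ, ENNReal.ofReal (cellρ β (s - s * u)) * ENNReal.ofReal (cellρ a (s * u)) =
        ENNReal.ofReal (s ^ (β + a - 2) / Real.Gamma (β + a)) * betaPDF a β u := by
      intro u
      rw [← ENNReal.ofReal_mul (cellρ_nonneg hβ _), A0_point β a s u hβ ha hs,
        ENNReal.ofReal_mul (div_nonneg (Real.rpow_nonneg hs.le _)
          (Real.Gamma_pos_of_pos (add_pos hβ ha)).le)]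
      rfl
    simp_rw [h2]
    rw [lintegral_const_mul' _ _ ENNReal.ofReal_ne_top, lintegral_betaPDF_eq_one ha hβ, mul_one,
      ← ENNReal.ofReal_mul hs.le, A0_of_pos _ _ hs]
    congr 1
    have h3 : s ^ (β + a - 1) = s * s ^ (β + a - 2) := by
      have : β + a - 1 = 1 + (β + a - 2) := by ring
      rw [this, Real.rpow_add hs, Real.rpow_one]
    rw [h3, mul_div_assoc]

private theorem A0_lint (n : ℕ) (β : ℝ) (hβ : 0 < β) : ∀ (α : Fin n → ℝ), (∀ j, 0 < α j) → ∀ s : ℝ,
    ∫⁻ y : Fin n → ℝ, ENNReal.ofReal (cellρ β (s - ∑ j, y j)) * ∏ j, ENNReal.ofReal (cellρ (α j) (y j)) =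
      ENNReal.ofReal (cellρ (β + ∑ j, α j) s) := by
  induction n with
  | zero =>
    intro α _ s
    have h : (volume : Measure (Fin 0 → ℝ)) Set.univ = 1 := by
      rw [volume_pi, Measure.pi_univ]
      simp
    simp [h]
  | succ n ih =>
    intro α hα s
    set G : ℝ × (Fin n → ℝ) → ENNReal := fun z =>
      ENNReal.ofReal (cellρ β (s - (z.1 + ∑ j, z.2 j))) *
        (ENNReal.ofReal (cellρ (α 0) z.1) * ∏ j : Fin n, ENNReal.ofReal (cellρ (α j.succ) (z.2 j))) with hG
    have hGm : Measurable G := by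
      refine Measurable.mul ?_ (Measurable.mul ?_ ?_)
      · refine ((A0_meas β).comp ?_).ennreal_ofReal
        fun_prop
      · exact ((A0_meas _).comp measurable_fst).ennreal_ofReal
      · refine Finset.measurable_fun_prod _ fun j _ => ?_
        exact ((A0_meas _).comp ((measurable_pi_apply j).comp measurable_snd)).ennreal_ofReal
    have h1 : ∫⁻ y : Fin (n + 1) → ℝ, ENNReal.ofReal (cellρ β (s - ∑ j, y j)) *
        ∏ j, ENNReal.ofReal (cellρ (α j) (y j)) =
        ∫⁻ y : Fin (n + 1) → ℝ, G (MeasurableEquiv.piFinSuccAbove (fun _ => ℝ) 0 y) := by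
      refine lintegral_congr fun y => ?_
      rw [Fin.sum_univ_succ, Fin.prod_univ_succ]
      rfl
    rw [h1, (volume_preserving_piFinSuccAbove (fun _ : Fin (n + 1) => ℝ) 0).lintegral_comp hGm]
    have h2 : ∫⁻ z : ℝ × (Fin n → ℝ), G z = ∫⁻ y0 : ℝ, ∫⁻ y' : Fin n → ℝ, G (y0, y') :=
      lintegral_prod _ hGm.aemeasurable
    have h3 : ∀ y0 : ℝ, ∫⁻ y' : Fin n → ℝ, G (y0, y') =
        ENNReal.ofReal (cellρ (β + ∑ j : Fin n, α j.succ) (s - y0)) * ENNReal.ofReal (cellρ (α 0) y0) := by
      intro y0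
      have h4 := ih (fun j => α j.succ) (fun j => hα _) (s - y0)
      rw [← h4, ← lintegral_mul_const' _ _ ENNReal.ofReal_ne_top]
      refine lintegral_congr fun y' => ?_
      rw [hG]
      have h5 : s - (y0 + ∑ j, y' j) = s - y0 - ∑ j, y' j := by ring
      show ENNReal.ofReal (cellρ β (s - (y0 + ∑ j, y' j))) *
        (ENNReal.ofReal (cellρ (α 0) y0) * ∏ j : Fin n, ENNReal.ofReal (cellρ (α j.succ) (y' j))) = _
      rw [h5]
      ring
    have h6 : ∫⁻ z : ℝ × (Fin n → ℝ), G z = ENNReal.ofReal (cellρ (β + ∑ j, α j) s) := by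
      rw [h2]
      simp_rw [h3]
      rw [A0_one _ _ _ (add_pos_of_pos_of_nonneg hβ (Finset.sum_nonneg fun j _ => (hα _).le)) (hα 0),
        Fin.sum_univ_succ]
      congr 2
      ring
    exact h6

theorem dirichlet (n : ℕ) (β : ℝ) (hβ : 0 < β) (α : Fin n → ℝ) (hα : ∀ j, 0 < α j) (s : ℝ) :
    Integrable (fun y : Fin n → ℝ => cellρ β (s - ∑ j, y j) * ∏ j, cellρ (α j) (y j)) ∧
      ∫ y : Fin n → ℝ, cellρ β (s - ∑ j, y j) * ∏ j, cellρ (α j) (y j) = cellρ (β + ∑ j, α j) s := by
  have hm : Measurable fun y : Fin n → ℝ => cellρ β (s - ∑ j, y j) * ∏ j, cellρ (α j) (y j) := by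
    refine Measurable.mul ?_ ?_
    · refine (A0_meas β).comp ?_
      fun_prop
    · exact Finset.measurable_fun_prod _ fun j _ => (A0_meas _).comp (measurable_pi_apply j)
  have h0 : ∀ y : Fin n → ℝ, 0 ≤ cellρ β (s - ∑ j, y j) * ∏ j, cellρ (α j) (y j) := fun y =>
    mul_nonneg (cellρ_nonneg hβ _) (Finset.prod_nonneg fun j _ => cellρ_nonneg (hα j) _)
  have h1 : ∫⁻ y : Fin n → ℝ, ENNReal.ofReal (cellρ β (s - ∑ j, y j) * ∏ j, cellρ (α j) (y j)) =
      ENNReal.ofReal (cellρ (β + ∑ j, α j) s) := by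
    rw [← A0_lint n β hβ α hα s]
    refine lintegral_congr fun y => ?_
    rw [ENNReal.ofReal_mul (cellρ_nonneg hβ _),
      ENNReal.ofReal_prod_of_nonneg fun j _ => cellρ_nonneg (hα j) _]
  constructor
  · rw [← lintegral_ofReal_ne_top_iff_integrable hm.aestronglyMeasurable
      (Filter.Eventually.of_forall h0), h1]
    exact ENNReal.ofReal_ne_top
  · rw [integral_eq_lintegral_of_nonneg_ae (Filter.Eventually.of_forall h0) hm.aestronglyMeasurable,
      h1, ENNReal.toReal_ofReal
        (cellρ_nonneg (add_pos_of_pos_of_nonneg hβ (Finset.sum_nonneg fun j _ => (hα _).le)) _)]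

/-- Powers: `x^k cellρ w x = (w)_k cellρ (w+k) x`. -/
theorem cell_pow (w : ℝ) (hw : 0 < w) (k : ℕ) (x : ℝ) :
    x ^ k * cellρ w x = (∏ i ∈ Finset.range k, (w + i)) * cellρ (w + k) x := by
  rcases le_or_gt x 0 with hx | hx
  · rw [A0_of_nonpos _ _ hx, A0_of_nonpos _ _ hx, mul_zero, mul_zero]
  · induction k with
    | zero => simp
    | succ k ih =>
      rw [pow_succ', mul_assoc, ih, Finset.prod_range_succ, A0_of_pos _ _ hx, A0_of_pos _ _ hx]
      have hwk : 0 < w + k := by positivity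
      have h1 : w + ((k + 1 : ℕ) : ℝ) = (w + k) + 1 := by
        push_cast
        ring
      have h2 : x ^ (w + k + 1 - 1) = x * x ^ (w + k - 1) := by
        have : w + k + 1 - 1 = 1 + (w + k - 1) := by ring
        rw [this, Real.rpow_add hx, Real.rpow_one]
      rw [h1, Real.Gamma_add_one hwk.ne', h2]
      have h3 := (Real.Gamma_pos_of_pos hwk).ne'
      field_simp

end Pool.Agent.LibFM89
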