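import Pool.Agent.LibFM89.A0

/-! # FM89 A1: the function gC and the masses (SHORT/MEDIUM)

PLAN.  `gC S` for `0 ≤ S < 1` is `(1-S)^(1/2) (1+S/6)/Γ(3/2)`, `0` for `S ≥ 1`, constant `1/Γ(3/2)` for `S ≤ 0`.  Antitone: for
`0 ≤ S ≤ S' < 1`, `((1-S')^(1/2)(1+S'/6))² ≤ ((1-S)^(1/2)(1+S/6))²`: `(1-x)(1+x/6)²` is decreasing on `[0,1]` (nlinarith).
`1/Γ(3/2) = 2/√π ≤ 2`.
Masses: `dirichlet` with `n = 3`, `β = 3/2`, `s = 1`: `∫ aF = cellρ (9/4) 1 = 1/Γ(9/4)`; `n = 2`: `∫ ag = cellρ 2 1 = 1`;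
`aphi z = cellρ (1/4) z · cellρ 2 (1-z)` (`cellρ 2 t = t` for `t > 0`, `Γ(2) = 1`), `n = 1`: `∫ aphi = cellρ (9/4) 1`. -/

set_option autoImplicit false

namespace Pool.Agent.LibFM89

open MeasureTheory Set Filter Topology Complex ProbabilityTheory
open scoped NNReal ComplexConjugate
open Pool.Agent.LibZM
open Pool.Agent.LibSM47 (gam ch idx)

private noncomputable def a1_G (x : ℝ) : ℝ := cellρ (3 / 2) (1 - x) * (1 + x / 6)

private theorem a1_cell_pos {w x : ℝ} (hx : 0 < x) : cellρ w x = x ^ (w - 1) / Real.Gamma w := by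
  unfold cellρ
  rw [Set.indicator_of_mem (show x ∈ Set.Ioi (0 : ℝ) from hx)]

private theorem a1_cell_neg {w x : ℝ} (hx : x ≤ 0) : cellρ w x = 0 := by
  unfold cellρ
  rw [Set.indicator_of_notMem (show x ∉ Set.Ioi (0 : ℝ) from not_lt.2 hx)]

private theorem a1_G_lt {x : ℝ} (hx : x < 1) :
    a1_G x = √(1 - x) * (1 + x / 6) / Real.Gamma (3 / 2) := by
  unfold a1_G
  rw [a1_cell_pos (by linarith), Real.sqrt_eq_rpow]
  norm_num
  ring

private theorem a1_G_ge {x : ℝ} (hx : 1 ≤ x) : a1_G x = 0 := by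
  unfold a1_G
  rw [a1_cell_neg (by linarith), zero_mul]

private theorem a1_G_nonneg {x : ℝ} (hx : 0 ≤ x) : 0 ≤ a1_G x := by
  unfold a1_G
  exact mul_nonneg (cellρ_nonneg (by norm_num) _) (by positivity)

private theorem a1_G_anti {x y : ℝ} (hx : 0 ≤ x) (hxy : x ≤ y) : a1_G y ≤ a1_G x := by
  rcases le_or_gt 1 y with h | h
  · rw [a1_G_ge h]
    exact a1_G_nonneg hx
  · have hy : 0 ≤ y := hx.trans hxy
    have hΓ : 0 < Real.Gamma (3 / 2) := Real.Gamma_pos_of_pos (by norm_num)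
    rw [a1_G_lt h, a1_G_lt (lt_of_le_of_lt hxy h)]
    refine div_le_div_of_nonneg_right ?_ hΓ.le
    refine le_of_sq_le_sq ?_ (by positivity)
    rw [mul_pow, mul_pow, Real.sq_sqrt (by linarith), Real.sq_sqrt (by linarith)]
    have h2 : x ^ 2 ≤ y ^ 2 := pow_le_pow_left₀ hx hxy 2
    have h3 : x ^ 3 ≤ y ^ 3 := pow_le_pow_left₀ hx hxy 3
    have e1 : (1 - y) * (1 + y / 6) ^ 2 = 1 - 2 / 3 * y - 11 / 36 * y ^ 2 - y ^ 3 / 36 := by ring
    have e2 : (1 - x) * (1 + x / 6) ^ 2 = 1 - 2 / 3 * x - 11 / 36 * x ^ 2 - x ^ 3 / 36 := by ring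
    rw [e1, e2]
    linarith

private theorem a1_gC (S : ℝ) : gC S = a1_G (max S 0) := rfl

private theorem a1_Gamma : Real.Gamma (3 / 2) = √Real.pi / 2 := by
  have h : Real.Gamma (1 / 2 + 1) = 1 / 2 * Real.Gamma (1 / 2) := Real.Gamma_add_one (by norm_num)
  rw [Real.Gamma_one_half_eq] at h
  rw [show (3 / 2 : ℝ) = 1 / 2 + 1 by norm_num, h]
  ring

private theorem a1_G_zero : a1_G 0 ≤ 2 := by
  rw [a1_G_lt (by norm_num : (0 : ℝ) < 1), a1_Gamma]
  have h1 : (1 : ℝ) ≤ √Real.pi := by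
    rw [Real.one_le_sqrt]
    linarith [Real.pi_gt_three]
  rw [div_le_iff₀ (by positivity)]
  norm_num
  linarith

theorem gC_props : Antitone gC ∧ Measurable gC ∧ ∀ S, 0 ≤ gC S ∧ gC S ≤ 2 := by
  have hanti : Antitone gC := by
    intro a b hab
    rw [a1_gC, a1_gC]
    exact a1_G_anti (le_max_right _ _) (max_le_max_right 0 hab)
  refine ⟨hanti, hanti.measurable, fun S => ?_⟩
  rw [a1_gC]
  exact ⟨a1_G_nonneg (le_max_right _ _), (a1_G_anti le_rfl (le_max_right _ _)).trans a1_G_zero⟩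

theorem gC_eq {S : ℝ} (hS : 0 ≤ S) : gC S = cellρ (3 / 2) (1 - S) * (1 + S / 6) := by
  unfold gC
  rw [max_eq_left hS]

theorem a_meas : Measurable aF ∧ Measurable aphi ∧ Measurable ag ∧ (∀ y, 0 ≤ aF y) ∧ (∀ z, 0 ≤ aphi z) ∧ ∀ w, 0 ≤ ag w := by
  have h1 : ∀ w, Measurable (cellρ w) := measurable_cellρ
  refine ⟨?_, ?_, ?_, fun y => ?_, fun z => ?_, fun w => ?_⟩
  · refine Measurable.mul ((h1 _).comp ?_) (Finset.measurable_fun_prod _ fun j _ => ?_)
    · exact measurable_const.sub (Finset.measurable_fun_sum _ fun j _ => measurable_pi_apply j)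
    · exact (h1 _).comp (measurable_pi_apply j)
  · refine Measurable.mul (h1 _) ?_
    exact (measurable_const.sub measurable_id).max measurable_const
  · refine Measurable.mul ((h1 _).comp ?_) (Finset.measurable_fun_prod _ fun j _ => ?_)
    · exact measurable_const.sub (Finset.measurable_fun_sum _ fun j _ => measurable_pi_apply j)
    · exact (h1 _).comp (measurable_pi_apply j)
  · exact mul_nonneg (cellρ_nonneg (by norm_num) _)
      (Finset.prod_nonneg fun j _ => cellρ_nonneg (by norm_num) _)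
  · exact mul_nonneg (cellρ_nonneg (by norm_num) _) (le_max_right _ _)
  · exact mul_nonneg (cellρ_nonneg (by norm_num) _)
      (Finset.prod_nonneg fun j _ => cellρ_nonneg (by norm_num) _)

theorem a_mass : Integrable aF ∧ Integrable aphi ∧ Integrable ag ∧ (∫ y, aF y) = 1 / Real.Gamma (9 / 4) ∧
    (∫ z, aphi z) = 1 / Real.Gamma (9 / 4) ∧ (∫ w, ag w) = 1 := by
  obtain ⟨F1, F2⟩ := dirichlet 3 (3 / 2) (by norm_num) (fun _ => 1 / 4) (fun _ => by norm_num) 1
  obtain ⟨G1, G2⟩ := dirichlet 2 (3 / 2) (by norm_num) (fun _ => 1 / 4) (fun _ => by norm_num) 1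
  obtain ⟨P1, P2⟩ := dirichlet 1 2 (by norm_num) (fun _ => 1 / 4) (fun _ => by norm_num) 1
  have e9 : cellρ (9 / 4) 1 = 1 / Real.Gamma (9 / 4) := by
    rw [a1_cell_pos one_pos, Real.one_rpow]
  have hphi : (fun y : Fin 1 → ℝ => cellρ 2 (1 - ∑ j, y j) * ∏ j, cellρ (1 / 4) (y j)) =
      fun y => aphi (MeasurableEquiv.funUnique (Fin 1) ℝ y) := by
    funext y
    have e0 : MeasurableEquiv.funUnique (Fin 1) ℝ y = y 0 := rfl
    rw [e0, Fin.sum_univ_one, Fin.prod_univ_one]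
    unfold aphi
    rw [mul_comm]
    congr 1
    rcases le_or_gt (1 - y 0) 0 with h | h
    · rw [a1_cell_neg h, max_eq_right h]
    · rw [a1_cell_pos h, max_eq_left h.le, Real.Gamma_two, div_one]
      norm_num
  have hmp := MeasureTheory.volume_preserving_funUnique (Fin 1) ℝ
  rw [hphi] at P1 P2
  have P1' : Integrable aphi :=
    (hmp.integrable_comp_emb (MeasurableEquiv.funUnique (Fin 1) ℝ).measurableEmbedding).1 P1
  have P2' : ∫ z, aphi z = 1 / Real.Gamma (9 / 4) := by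
    rw [← hmp.integral_comp (MeasurableEquiv.funUnique (Fin 1) ℝ).measurableEmbedding aphi]
    refine P2.trans ?_
    rw [Fin.sum_univ_one, ← e9]
    norm_num
  refine ⟨F1, P1', G1, ?_, P2', ?_⟩
  · refine F2.trans ?_
    rw [← e9]
    norm_num
  · refine G2.trans ?_
    have e2 : (3 / 2 : ℝ) + ∑ _j : Fin 2, (1 / 4 : ℝ) = 2 := by
      norm_num
    rw [e2, a1_cell_pos one_pos, Real.one_rpow, Real.Gamma_two, div_one]

end Pool.Agent.LibFM89
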