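import Pool.Agent.LibFM89.A1

/-! # FM89 A2: disintegration of one row with respect to one entry (MEDIUM)

PLAN.  Copy of LibM3/H2.lean (`h2_inner`, `h2_map`, everything from `h2_T_meas` on) with `g6_F 1 → aF`, `h2_phi → aphi`, `h2_g → ag`,
`h2_T → aT`.  Identity: for `0 < z < 1`, `c = 1 - z`: `c² aF(z, c w) = aphi(z) ag(w)` because
`cellρ (3/2) (c (1-∑w)) = c^(1/2) cellρ (3/2) (1-∑w)`, `cellρ (1/4) (c w_l) = c^(-3/4) cellρ (1/4) (w_l)` (`cellρ_scale`) and
`2 + 1/2 - 3/2 = 1`.  For `z ≤ 0` or `z ≥ 1` both sides are `0`. -/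

set_option autoImplicit false

namespace Pool.Agent.LibFM89

open MeasureTheory Set Filter Topology Complex ProbabilityTheory
open scoped NNReal ComplexConjugate
open Pool.Agent.LibZM
open Pool.Agent.LibSM47 (gam ch idx)

private lemma a2_ins_meas (j : Fin 3) :
    Measurable fun p : ℝ × (Fin 2 → ℝ) => (j.insertNth (α := fun _ => ℝ) p.1 p.2 : Fin 3 → ℝ) :=
  (MeasurableEquiv.piFinSuccAbove (fun _ : Fin 3 => ℝ) j).symm.measurable

theorem aT_meas (j : Fin 3) : Measurable (aT j) := by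
  unfold aT
  have h : Measurable fun p : ℝ × (Fin 2 → ℝ) => (p.1, (1 - p.1) • p.2) := by fun_prop
  exact (a2_ins_meas j).comp h

private lemma a2_F_ins (j : Fin 3) (z : ℝ) (v : Fin 2 → ℝ) :
    aF (j.insertNth (α := fun _ => ℝ) z v) =
      cellρ (3 / 2) (1 - (z + ∑ l, v l)) * (cellρ (1 / 4) z * ∏ l, cellρ (1 / 4) (v l)) := by
  unfold aF
  rw [Fin.sum_univ_succAbove _ j, Fin.prod_univ_succAbove _ j]
  simp only [Fin.insertNth_apply_same, Fin.insertNth_apply_succAbove]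

private lemma a2_cell_zero {w x : ℝ} (hx : x ≤ 0) : cellρ w x = 0 := by
  unfold cellρ
  rw [indicator_of_notMem]
  exact not_lt.mpr hx

/-- The inner identity. -/
private lemma a2_inner (j : Fin 3) {f : (Fin 3 → ℝ) → ENNReal} (hf : Measurable f) (z : ℝ) :
    ENNReal.ofReal (aphi z) * ∫⁻ w, ENNReal.ofReal (ag w) * f (aT j (z, w)) =
      ∫⁻ v : Fin 2 → ℝ, ENNReal.ofReal (aF (j.insertNth (α := fun _ => ℝ) z v)) * f (j.insertNth (α := fun _ => ℝ) z v) := by
  obtain ⟨haFm, haphim, hagm, haF0, haphi0, hag0⟩ := a_meas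
  rcases le_or_gt z 0 with hz | hz
  · have e1 : aphi z = 0 := by unfold aphi; rw [a2_cell_zero hz, zero_mul]
    have e2 : ∀ v : Fin 2 → ℝ, aF (j.insertNth (α := fun _ => ℝ) z v) = 0 := fun v => by
      rw [a2_F_ins, a2_cell_zero hz, zero_mul, mul_zero]
    simp only [e1, e2, ENNReal.ofReal_zero, zero_mul, lintegral_zero]
  rcases le_or_gt 1 z with hz1 | hz1
  · have e1 : aphi z = 0 := by
      unfold aphi
      rw [max_eq_right (by linarith), mul_zero]
    have e2 : ∀ v : Fin 2 → ℝ, aF (j.insertNth (α := fun _ => ℝ) z v) = 0 := fun v => by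
      rw [a2_F_ins]
      by_cases hv : ∀ l, 0 < v l
      · have := Finset.sum_pos (fun l _ => hv l) (Finset.univ_nonempty (α := Fin 2))
        rw [a2_cell_zero (by linarith), zero_mul]
      · push Not at hv
        obtain ⟨l, hl⟩ := hv
        rw [Finset.prod_eq_zero (Finset.mem_univ l) (a2_cell_zero hl), mul_zero, mul_zero]
    simp only [e1, e2, ENNReal.ofReal_zero, zero_mul, lintegral_zero]
  obtain ⟨c, hc⟩ : ∃ c, c = 1 - z := ⟨_, rfl⟩
  have hc0 : 0 < c := by rw [hc]; linarith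
  obtain ⟨H, hH⟩ : ∃ H : (Fin 2 → ℝ) → ENNReal, H = fun v => ENNReal.ofReal (aF (j.insertNth (α := fun _ => ℝ) z v)) *
      f (j.insertNth (α := fun _ => ℝ) z v) := ⟨_, rfl⟩
  have hins : Measurable fun v : Fin 2 → ℝ => (j.insertNth (α := fun _ => ℝ) z v : Fin 3 → ℝ) :=
    (a2_ins_meas j).comp (measurable_const.prodMk measurable_id)
  have hHm : Measurable H := by
    rw [hH]
    exact (ENNReal.measurable_ofReal.comp (haFm.comp hins)).mul (hf.comp hins)
  have hmap := Measure.map_addHaar_smul (volume : Measure (Fin 2 → ℝ)) hc0.ne'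
  rw [Module.finrank_fintype_fun_eq_card ℝ, Fintype.card_fin] at hmap
  have hsub : ∫⁻ w, H (c • w) = ENNReal.ofReal |(c ^ 2)⁻¹| * ∫⁻ v, H v := by
    have h1 : ∫⁻ w, H (c • w) = ∫⁻ v, H v ∂(Measure.map (fun w : Fin 2 → ℝ => c • w) volume) := by
      rw [lintegral_map hHm (by fun_prop)]
    rw [h1, hmap, lintegral_smul_measure, smul_eq_mul]
  have hc2 : 0 < c ^ 2 := by positivity
  have hsub2 : ∫⁻ v, H v = ENNReal.ofReal (c ^ 2) * ∫⁻ w, H (c • w) := by
    rw [hsub, ← mul_assoc, ← ENNReal.ofReal_mul hc2.le, abs_of_pos (inv_pos.mpr hc2), mul_inv_cancel₀ hc2.ne',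
      ENNReal.ofReal_one, one_mul]
  have hR : (∫⁻ v : Fin 2 → ℝ, ENNReal.ofReal (aF (j.insertNth (α := fun _ => ℝ) z v)) *
      f (j.insertNth (α := fun _ => ℝ) z v)) = ∫⁻ v, H v := by rw [hH]
  rw [hR, hsub2]
  have hg : Measurable fun w => ENNReal.ofReal (ag w) * f (aT j (z, w)) :=
    (ENNReal.measurable_ofReal.comp hagm).mul (hf.comp ((aT_meas j).comp (measurable_const.prodMk measurable_id)))
  have hHc : Measurable fun w : Fin 2 → ℝ => H (c • w) := hHm.comp (by fun_prop)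
  rw [← lintegral_const_mul _ hg, ← lintegral_const_mul _ hHc]
  refine lintegral_congr fun w => ?_
  rw [hH]
  simp only
  have e1 : aT j (z, w) = j.insertNth (α := fun _ => ℝ) z (c • w) := by unfold aT; rw [hc]
  rw [e1, ← mul_assoc, ← mul_assoc, ← ENNReal.ofReal_mul (haphi0 z), ← ENNReal.ofReal_mul hc2.le]
  congr 2
  rw [a2_F_ins]
  unfold aphi ag
  have e2 : 1 - (z + ∑ l, (c • w) l) = c * (1 - ∑ l, w l) := by
    have e21 : ∑ l, (c • w) l = c * ∑ l, w l := by rw [Finset.mul_sum]; rfl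
    rw [e21, mul_sub, mul_one]
    nth_rewrite 2 [hc]
    ring
  have e3 : cellρ (3 / 2) (c * (1 - ∑ l, w l)) = c ^ ((3 / 2 : ℝ) - 1) * cellρ (3 / 2) (1 - ∑ l, w l) :=
    cellρ_scale hc0 _ _
  have e4 : ∀ l, cellρ (1 / 4) ((c • w) l) = c ^ ((1 / 4 : ℝ) - 1) * cellρ (1 / 4) (w l) := fun l => cellρ_scale hc0 _ _
  rw [e2, e3]
  simp_rw [e4]
  rw [Finset.prod_mul_distrib, Finset.prod_const, Finset.card_univ, Fintype.card_fin, max_eq_left (by linarith), ← hc]
  have e5 : (c ^ 2 : ℝ) * (c ^ ((3 / 2 : ℝ) - 1) * (c ^ ((1 / 4 : ℝ) - 1)) ^ 2) = c := by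
    rw [← Real.rpow_natCast c 2, ← Real.rpow_natCast _ 2, ← Real.rpow_mul hc0.le, ← Real.rpow_add hc0, ← Real.rpow_add hc0]
    norm_num
  have e6 : cellρ (1 / 4) z * c * (cellρ (3 / 2) (1 - ∑ l, w l) * ∏ l, cellρ (1 / 4) (w l)) =
      cellρ (1 / 4) z * ((c ^ 2 : ℝ) * (c ^ ((3 / 2 : ℝ) - 1) * (c ^ ((1 / 4 : ℝ) - 1)) ^ 2)) *
        (cellρ (3 / 2) (1 - ∑ l, w l) * ∏ l, cellρ (1 / 4) (w l)) := by rw [e5]
  rw [e6]
  ring

private instance a2_sf_nu : SFinite anu := by unfold anu; infer_instance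

private instance a2_sf_sig : SFinite asig := by unfold asig; infer_instance

private lemma a2_wd {α : Type*} [MeasurableSpace α] {μ : Measure α} {F : α → ℝ} (hF : Measurable F) {g : α → ENNReal}
    (hg : Measurable g) :
    ∫⁻ x, g x ∂(μ.withDensity fun x => ENNReal.ofReal (F x)) = ∫⁻ x, ENNReal.ofReal (F x) * g x ∂μ := by
  have hm : Measurable fun x => ENNReal.ofReal (F x) := ENNReal.measurable_ofReal.comp hF
  have := lintegral_withDensity_eq_lintegral_mul μ hm hg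
  rw [this]
  rfl

theorem a_map (j : Fin 3) : Measure.map (aT j) (anu.prod asig) = arho := by
  obtain ⟨haFm, haphim, hagm, haF0, haphi0, hag0⟩ := a_meas
  ext s hs
  have hf : Measurable (s.indicator (fun _ : Fin 3 → ℝ => (1 : ENNReal))) := measurable_const.indicator hs
  have hl : ∀ μ : Measure (Fin 3 → ℝ), μ s = ∫⁻ y, s.indicator (fun _ => (1 : ENNReal)) y ∂μ := fun μ => by
    rw [lintegral_indicator hs, lintegral_const, Measure.restrict_apply_univ, one_mul]
  rw [hl, hl]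
  obtain ⟨f, hfd⟩ : ∃ f, f = s.indicator (fun _ : Fin 3 → ℝ => (1 : ENNReal)) := ⟨_, rfl⟩
  rw [← hfd] at hf ⊢
  rw [lintegral_map hf (aT_meas j)]
  have hfT : Measurable fun p : ℝ × (Fin 2 → ℝ) => f (aT j p) := hf.comp (aT_meas j)
  rw [lintegral_prod _ hfT.aemeasurable]
  have e1 : ∀ z : ℝ, ∫⁻ w, f (aT j (z, w)) ∂asig = ∫⁻ w, ENNReal.ofReal (ag w) * f (aT j (z, w)) := by
    intro z
    have hm : Measurable fun w => f (aT j (z, w)) := hfT.comp (measurable_const.prodMk measurable_id)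
    exact a2_wd hagm hm
  simp_rw [e1]
  have hm1 : Measurable fun z : ℝ => ∫⁻ w, ENNReal.ofReal (ag w) * f (aT j (z, w)) := by
    have : Measurable (Function.uncurry fun (z : ℝ) (w : Fin 2 → ℝ) => ENNReal.ofReal (ag w) * f (aT j (z, w))) :=
      ((ENNReal.measurable_ofReal.comp hagm).comp measurable_snd).mul hfT
    exact this.lintegral_prod_right
  have e2 : ∫⁻ z, (∫⁻ w, ENNReal.ofReal (ag w) * f (aT j (z, w))) ∂anu =
      ∫⁻ z, ENNReal.ofReal (aphi z) * ∫⁻ w, ENNReal.ofReal (ag w) * f (aT j (z, w)) := by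
    exact a2_wd haphim hm1
  rw [e2]
  simp_rw [a2_inner j hf]
  have e3 : ∫⁻ y, f y ∂arho = ∫⁻ y, ENNReal.ofReal (aF y) * f y := by
    exact a2_wd haFm hf
  rw [e3]
  have hFm : Measurable fun y => ENNReal.ofReal (aF y) * f y := (ENNReal.measurable_ofReal.comp haFm).mul hf
  have hmp := (volume_preserving_piFinSuccAbove (fun _ : Fin 3 => ℝ) j).symm
  have e4 := hmp.lintegral_comp hFm
  rw [← e4]
  have hm2 : Measurable fun p : ℝ × (Fin 2 → ℝ) => ENNReal.ofReal (aF ((MeasurableEquiv.piFinSuccAbove (fun _ : Fin 3 => ℝ) j).symm p)) *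
      f ((MeasurableEquiv.piFinSuccAbove (fun _ : Fin 3 => ℝ) j).symm p) := hFm.comp hmp.measurable
  rw [Measure.volume_eq_prod, lintegral_prod _ hm2.aemeasurable]
  rfl

private lemma a2_mass {α : Type*} [MeasurableSpace α] {μ : Measure α} {F : α → ℝ} (hi : Integrable F μ) (h0 : ∀ x, 0 ≤ F x) :
    (μ.withDensity fun x => ENNReal.ofReal (F x)) univ = ENNReal.ofReal (∫ x, F x ∂μ) := by
  rw [withDensity_apply _ MeasurableSet.univ, Measure.restrict_univ,
    ofReal_integral_eq_lintegral_ofReal hi (Filter.Eventually.of_forall h0)]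

theorem a_univ : anu univ = ENNReal.ofReal (1 / Real.Gamma (9 / 4)) ∧ asig univ = 1 ∧
    arho univ = ENNReal.ofReal (1 / Real.Gamma (9 / 4)) := by
  obtain ⟨haFm, haphim, hagm, haF0, haphi0, hag0⟩ := a_meas
  obtain ⟨i1, i2, i3, m1, m2, m3⟩ := a_mass
  refine ⟨?_, ?_, ?_⟩
  · unfold anu
    rw [a2_mass i2 haphi0, m2]
  · unfold asig
    rw [a2_mass i3 hag0, m3, ENNReal.ofReal_one]
  · unfold arho
    rw [a2_mass i1 haF0, m1]

end Pool.Agent.LibFM89
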