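import Pool.Agent.LibFM89.A2

/-! # FM89 A3: negative association of the three column sums (MEDIUM)

PLAN.  Copy of LibM3/H4.lean (`h4_W_eq`, `h4_ae`, `h4_step`, `h4_chain`; the inequality of Harris `h1_harris` of LibM3/H1.lean needs only
Mathlib: copy `h1_int`, `h1_one`, `h1_harris` as private lemmas) with `boxI 1 → gC` (antitone, measurable, `0 ≤ gC ≤ 2`: the products
over `A` are bounded by `2^card A ≤ 8`), `h2_nu → anu`, `h2_sig → asig`, `h2_rho → arho`, `h2_T → aT`.  Monotone in `z`: the entry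
`(1 - z_i) w_{i l}` decreases in `z_i` (`w > 0` a.e.), so the column sums `l ≠ j` decrease and `gC` of them increases; `gC(∑ z_i)` is
antitone.  Masses: `anu.real univ = 1/Γ(9/4) = arho.real univ`.  `W3 = ∫ ∏_l gC(∑_i y_il) d(arho^3)`: LibM3/H5.lean `h5_pi`, `h5_int_wd`,
LibM3/H6.lean `h6_W_eq` (only Mathlib: copy). -/

set_option autoImplicit false

namespace Pool.Agent.LibFM89

open MeasureTheory Set Filter Topology Complex ProbabilityTheory
open scoped NNReal ComplexConjugate
open Pool.Agent.LibZM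
open Pool.Agent.LibSM47 (gam ch idx)

private lemma a3_int {α : Type*} [MeasurableSpace α] {μ : Measure α} [IsFiniteMeasure μ] {f : α → ℝ} (hf : Measurable f)
    {C : ℝ} (hC : ∀ x, |f x| ≤ C) : Integrable f μ :=
  Integrable.of_bound hf.aestronglyMeasurable C (Eventually.of_forall fun x => by rw [Real.norm_eq_abs]; exact hC x)

private theorem a3_one {μ : Measure ℝ} [IsFiniteMeasure μ] {f g : ℝ → ℝ} (hf : Measurable f) (hg : Measurable g)
    {C D : ℝ} (hC : ∀ x, |f x| ≤ C) (hD : ∀ x, |g x| ≤ D) (hfm : Monotone f) (hga : Antitone g) :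
    μ.real univ * ∫ x, f x * g x ∂μ ≤ (∫ x, f x ∂μ) * ∫ x, g x ∂μ := by
  have hfi : Integrable f μ := a3_int hf hC
  have hgi : Integrable g μ := a3_int hg hD
  have hfgi : Integrable (fun x => f x * g x) μ := by
    refine a3_int (hf.mul hg) (C := C * D) fun x => ?_
    rw [abs_mul]
    exact mul_le_mul (hC x) (hD x) (abs_nonneg _) ((abs_nonneg _).trans (hC x))
  have key : ∀ y, (∫ x, f x * g x ∂μ) - g y * (∫ x, f x ∂μ) - f y * (∫ x, g x ∂μ) + μ.real univ * (f y * g y) ≤ 0 := by
    intro y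
    have h1 : ∫ x, (f x - f y) * (g x - g y) ∂μ ≤ 0 := by
      refine integral_nonpos fun x => ?_
      rcases le_total x y with h | h
      · exact mul_nonpos_of_nonpos_of_nonneg (sub_nonpos.mpr (hfm h)) (sub_nonneg.mpr (hga h))
      · exact mul_nonpos_of_nonneg_of_nonpos (sub_nonneg.mpr (hfm h)) (sub_nonpos.mpr (hga h))
    have h2 : ∫ x, (f x - f y) * (g x - g y) ∂μ =
        (∫ x, f x * g x ∂μ) - g y * (∫ x, f x ∂μ) - f y * (∫ x, g x ∂μ) + μ.real univ * (f y * g y) := by
      have e : ∀ x, (f x - f y) * (g x - g y) = f x * g x - g y * f x - f y * g x + f y * g y := fun x => by ring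
      simp_rw [e]
      have i1 : Integrable (fun x => f x * g x - g y * f x) μ := hfgi.sub (hfi.const_mul _)
      have i2 : Integrable (fun x => f x * g x - g y * f x - f y * g x) μ := i1.sub (hgi.const_mul _)
      rw [integral_add i2 (integrable_const _), integral_sub i1 (hgi.const_mul _), integral_sub hfgi (hfi.const_mul _),
        integral_const_mul, integral_const_mul, integral_const, smul_eq_mul]
    rw [← h2]; exact h1
  have h3 : ∫ y, ((∫ x, f x * g x ∂μ) - g y * (∫ x, f x ∂μ) - f y * (∫ x, g x ∂μ) + μ.real univ * (f y * g y)) ∂μ ≤ 0 :=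
    integral_nonpos key
  have j1 : Integrable (fun y => (∫ x, f x * g x ∂μ) - g y * (∫ x, f x ∂μ)) μ := (integrable_const _).sub (hgi.mul_const _)
  have j2 : Integrable (fun y => (∫ x, f x * g x ∂μ) - g y * (∫ x, f x ∂μ) - f y * (∫ x, g x ∂μ)) μ := j1.sub (hfi.mul_const _)
  rw [integral_add j2 (hfgi.const_mul _), integral_sub j1 (hfi.mul_const _),
    integral_sub (integrable_const _) (hgi.mul_const _), integral_const, smul_eq_mul, integral_mul_const,
    integral_mul_const, integral_const_mul] at h3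
  nlinarith [h3]

private theorem a3_harris (μ : Measure ℝ) [IsFiniteMeasure μ] (n : ℕ) : ∀ f g : (Fin n → ℝ) → ℝ, Measurable f → Measurable g →
    ∀ C D : ℝ, (∀ x, |f x| ≤ C) → (∀ x, |g x| ≤ D) → Monotone f → Antitone g →
    μ.real univ ^ n * ∫ x, f x * g x ∂(Measure.pi fun _ => μ) ≤
      (∫ x, f x ∂(Measure.pi fun _ => μ)) * ∫ x, g x ∂(Measure.pi fun _ => μ) := by
  induction n with
  | zero =>
    intro f g _ _ _ _ _ _ _ _
    rw [Measure.pi_of_empty, integral_dirac, integral_dirac, integral_dirac, pow_zero, one_mul]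
  | succ n ih =>
    intro f g hf hg C D hC hD hfm hga
    obtain ⟨m, hm⟩ : ∃ m, m = μ.real univ := ⟨_, rfl⟩
    obtain ⟨P, hP⟩ : ∃ P : Measure (Fin n → ℝ), P = Measure.pi fun _ => μ := ⟨_, rfl⟩
    have hPf : IsFiniteMeasure P := by rw [hP]; infer_instance
    have hmp := measurePreserving_piFinSuccAbove (fun _ : Fin (n+1) => μ) 0
    have hcons : Measurable fun p : ℝ × (Fin n → ℝ) => (Fin.insertNth 0 p.1 p.2 : Fin (n+1) → ℝ) := by
      have := (MeasurableEquiv.piFinSuccAbove (fun _ : Fin (n+1) => ℝ) 0).symm.measurable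
      exact this
    have hint : ∀ F : (Fin (n+1) → ℝ) → ℝ, Measurable F → ∀ B : ℝ, (∀ x, |F x| ≤ B) →
        ∫ x, F x ∂(Measure.pi fun _ => μ) = ∫ a, ∫ v, F (Fin.insertNth 0 a v) ∂P ∂μ := by
      intro F hF B hB
      have h1 := hmp.symm.integral_comp' (g := F)
      rw [← h1, hP]
      have h2 : Integrable (fun p : ℝ × (Fin n → ℝ) => F (Fin.insertNth 0 p.1 p.2)) (μ.prod (Measure.pi fun _ => μ)) :=
        a3_int (hF.comp hcons) fun p => hB _
      exact integral_prod _ h2
    have hmono : ∀ a b : ℝ, ∀ v w : Fin n → ℝ, a ≤ b → v ≤ w →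
        (Fin.insertNth 0 a v : Fin (n+1) → ℝ) ≤ Fin.insertNth 0 b w := by
      intro a b v w hab hvw i
      refine Fin.cases ?_ (fun i => ?_) i
      · simpa using hab
      · simpa using hvw i
    obtain ⟨F, hF⟩ : ∃ F : ℝ → ℝ, F = fun a => ∫ v, f (Fin.insertNth 0 a v) ∂P := ⟨_, rfl⟩
    obtain ⟨G, hG⟩ : ∃ G : ℝ → ℝ, G = fun a => ∫ v, g (Fin.insertNth 0 a v) ∂P := ⟨_, rfl⟩
    have hsl : ∀ a : ℝ, Measurable fun v : Fin n → ℝ => (Fin.insertNth 0 a v : Fin (n+1) → ℝ) := fun a =>
      hcons.comp (measurable_const.prodMk measurable_id)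
    have hfi : ∀ a, Integrable (fun v => f (Fin.insertNth 0 a v)) P := fun a => a3_int (hf.comp (hsl a)) fun _ => hC _
    have hgi : ∀ a, Integrable (fun v => g (Fin.insertNth 0 a v)) P := fun a => a3_int (hg.comp (hsl a)) fun _ => hD _
    have hFm : Measurable F := by
      rw [hF]
      have h0 : StronglyMeasurable (Function.uncurry fun (a : ℝ) (v : Fin n → ℝ) => f (Fin.insertNth 0 a v)) :=
        (hf.comp hcons).stronglyMeasurable
      exact (h0.integral_prod_right (ν := P)).measurable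
    have hGm : Measurable G := by
      rw [hG]
      have h0 : StronglyMeasurable (Function.uncurry fun (a : ℝ) (v : Fin n → ℝ) => g (Fin.insertNth 0 a v)) :=
        (hg.comp hcons).stronglyMeasurable
      exact (h0.integral_prod_right (ν := P)).measurable
    have hFC : ∀ a, |F a| ≤ C * P.real univ := by
      intro a
      rw [hF, ← Real.norm_eq_abs]
      exact norm_integral_le_of_norm_le_const (Eventually.of_forall fun v => by rw [Real.norm_eq_abs]; exact hC _)
    have hGD : ∀ a, |G a| ≤ D * P.real univ := by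
      intro a
      rw [hG, ← Real.norm_eq_abs]
      exact norm_integral_le_of_norm_le_const (Eventually.of_forall fun v => by rw [Real.norm_eq_abs]; exact hD _)
    have hFmono : Monotone F := by
      intro a b hab
      rw [hF]
      exact integral_mono (hfi a) (hfi b) fun v => hfm (hmono a b v v hab le_rfl)
    have hGanti : Antitone G := by
      intro a b hab
      rw [hG]
      exact integral_mono (hgi b) (hgi a) fun v => hga (hmono a b v v hab le_rfl)
    have hfg : ∀ x, |f x * g x| ≤ C * D := fun x => by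
      rw [abs_mul]
      exact mul_le_mul (hC x) (hD x) (abs_nonneg _) ((abs_nonneg _).trans (hC x))
    rw [hint f hf C hC, hint g hg D hD, hint (fun x => f x * g x) (hf.mul hg) _ hfg, ← hm]
    have h1 : ∀ a, m ^ n * ∫ v, f (Fin.insertNth 0 a v) * g (Fin.insertNth 0 a v) ∂P ≤ F a * G a := by
      intro a
      have := ih (fun v => f (Fin.insertNth 0 a v)) (fun v => g (Fin.insertNth 0 a v)) (hf.comp (hsl a)) (hg.comp (hsl a))
        C D (fun _ => hC _) (fun _ => hD _) (fun v w hvw => hfm (hmono a a v w le_rfl hvw))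
        (fun v w hvw => hga (hmono a a v w le_rfl hvw))
      rw [hF, hG, hm, hP]
      exact this
    have h2 : Integrable (fun a => ∫ v, f (Fin.insertNth 0 a v) * g (Fin.insertNth 0 a v) ∂P) μ := by
      have h3 : Integrable (fun p : ℝ × (Fin n → ℝ) => f (Fin.insertNth 0 p.1 p.2) * g (Fin.insertNth 0 p.1 p.2)) (μ.prod P) :=
        a3_int ((hf.comp hcons).mul (hg.comp hcons)) fun p => hfg _
      exact h3.integral_prod_left
    have h4 : Integrable (fun a => F a * G a) μ := by
      refine a3_int (hFm.mul hGm) (C := (C * P.real univ) * (D * P.real univ)) fun a => ?_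
      rw [abs_mul]
      exact mul_le_mul (hFC a) (hGD a) (abs_nonneg _) ((abs_nonneg _).trans (hFC a))
    have h5 : m ^ n * ∫ a, (∫ v, f (Fin.insertNth 0 a v) * g (Fin.insertNth 0 a v) ∂P) ∂μ ≤ ∫ a, F a * G a ∂μ := by
      rw [← integral_const_mul]
      exact integral_mono (h2.const_mul _) h4 h1
    have h6 := a3_one (μ := μ) hFm hGm hFC hGD hFmono hGanti
    have hm0 : 0 ≤ m := by rw [hm]; exact measureReal_nonneg
    rw [← hm] at h6
    have e7 : ∀ a, (∫ v, f (Fin.insertNth 0 a v) ∂P) = F a := fun a => by rw [hF]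
    have e8 : ∀ a, (∫ v, g (Fin.insertNth 0 a v) ∂P) = G a := fun a => by rw [hG]
    simp_rw [e7, e8]
    calc m ^ (n+1) * ∫ a, (∫ v, f (Fin.insertNth 0 a v) * g (Fin.insertNth 0 a v) ∂P) ∂μ
        = m * (m ^ n * ∫ a, (∫ v, f (Fin.insertNth 0 a v) * g (Fin.insertNth 0 a v) ∂P) ∂μ) := by ring
      _ ≤ m * ∫ a, F a * G a ∂μ := mul_le_mul_of_nonneg_left h5 hm0
      _ ≤ _ := h6

private lemma a3_pi {E : Type} [MeasureSpace E] [SigmaFinite (volume : Measure E)] {F : E → ℝ}
    (hi : Integrable F) (h0 : ∀ x, 0 ≤ F x) :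
    Measure.pi (fun _ : Fin 3 => (volume : Measure E).withDensity fun x => ENNReal.ofReal (F x)) =
      (volume : Measure (Fin 3 → E)).withDensity fun y => ENNReal.ofReal (∏ i, F (y i)) := by
  have hfin : ∀ _ : Fin 3, IsFiniteMeasure ((volume : Measure E).withDensity fun x => ENNReal.ofReal (F x)) := fun _ =>
    isFiniteMeasure_withDensity_ofReal hi.hasFiniteIntegral
  apply Measure.pi_eq
  intro s hs
  rw [withDensity_apply _ (MeasurableSet.univ_pi hs)]
  have hint : Integrable (fun y : Fin 3 → E => ∏ i, F (y i)) :=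
    Integrable.fintype_prod (f := fun _ : Fin 3 => F) fun _ => hi
  have hint2 : ∀ i, Integrable ((s i).indicator F) := fun i => hi.indicator (hs i)
  rw [← ofReal_integral_eq_lintegral_ofReal hint.integrableOn (Eventually.of_forall fun y => Finset.prod_nonneg fun i _ => h0 _)]
  have e1 : ∫ y in univ.pi s, ∏ i, F (y i) = ∏ i, ∫ x in s i, F x := by
    rw [← integral_indicator (MeasurableSet.univ_pi hs)]
    have e2 : (univ.pi s).indicator (fun y : Fin 3 → E => ∏ i, F (y i)) = fun y => ∏ i, (s i).indicator F (y i) := by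
      funext y
      by_cases hy : y ∈ univ.pi s
      · rw [indicator_of_mem hy]
        refine Finset.prod_congr rfl fun i _ => ?_
        rw [indicator_of_mem (hy i (mem_univ i))]
      · rw [indicator_of_notMem hy]
        have : ∃ i, y i ∉ s i := by
          by_contra h
          push Not at h
          exact hy fun i _ => h i
        obtain ⟨i, hi⟩ := this
        rw [Finset.prod_eq_zero (Finset.mem_univ i) (indicator_of_notMem hi _)]
    rw [e2, integral_fintype_prod_volume_eq_prod (fun i => (s i).indicator F)]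
    refine Finset.prod_congr rfl fun i _ => ?_
    rw [integral_indicator (hs i)]
  rw [e1, ENNReal.ofReal_prod_of_nonneg (fun i _ => setIntegral_nonneg (hs i) fun x _ => h0 x)]
  refine Finset.prod_congr rfl fun i _ => ?_
  rw [withDensity_apply _ (hs i), ofReal_integral_eq_lintegral_ofReal hi.integrableOn (Eventually.of_forall h0)]

private lemma a3_int_wd {α : Type*} [MeasurableSpace α] {μ : Measure α} {F : α → ℝ} (hF : Measurable F) (h0 : ∀ x, 0 ≤ F x) (g : α → ℝ) :
    ∫ x, g x ∂(μ.withDensity fun x => ENNReal.ofReal (F x)) = ∫ x, F x * g x ∂μ := by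
  have h := integral_withDensity_eq_integral_smul (μ := μ) (f := fun x => Real.toNNReal (F x)) hF.real_toNNReal g
  refine Eq.trans h ?_
  refine integral_congr_ae (Eventually.of_forall fun x => ?_)
  show (Real.toNNReal (F x)) • g x = F x * g x
  rw [NNReal.smul_def, Real.coe_toNNReal _ (h0 x), smul_eq_mul]

private lemma a3_gpos : 0 < Real.Gamma (9 / 4) := Real.Gamma_pos_of_pos (by norm_num)

private lemma a3_nu_fin : IsFiniteMeasure anu := ⟨by rw [a_univ.1]; exact ENNReal.ofReal_lt_top⟩
private lemma a3_sig_fin : IsFiniteMeasure asig := ⟨by rw [a_univ.2.1]; exact ENNReal.one_lt_top⟩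
private lemma a3_rho_fin : IsFiniteMeasure arho := ⟨by rw [a_univ.2.2]; exact ENNReal.ofReal_lt_top⟩

attribute [local instance] a3_nu_fin a3_sig_fin a3_rho_fin

private lemma a3_nu_mass : anu.real univ = 1 / Real.Gamma (9 / 4) := by
  rw [measureReal_def, a_univ.1, ENNReal.toReal_ofReal]
  have := a3_gpos
  positivity

/-- The mass with column constraints in `A`. -/
private noncomputable def a3_W (A : Finset (Fin 3)) : ℝ :=
  ∫ y : Fin 3 → Fin 3 → ℝ, ∏ l ∈ A, gC (∑ i, y i l) ∂(Measure.pi fun _ => arho)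

private noncomputable def a3_Phi (j : Fin 3) (p : (Fin 3 → ℝ) × (Fin 3 → Fin 2 → ℝ)) : Fin 3 → Fin 3 → ℝ :=
  fun i => aT j (p.1 i, p.2 i)

private lemma a3_Phi_meas (j : Fin 3) : Measurable (a3_Phi j) := by
  unfold a3_Phi
  exact measurable_pi_lambda _ fun i => (aT_meas j).comp
    (((measurable_pi_apply i).comp measurable_fst).prodMk ((measurable_pi_apply i).comp measurable_snd))

private theorem a3_map (j : Fin 3) : Measure.map (a3_Phi j) ((Measure.pi fun _ => anu).prod (Measure.pi fun _ => asig)) =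
    Measure.pi fun _ : Fin 3 => arho := by
  have h1 := measurePreserving_arrowProdEquivProdArrow ℝ (Fin 2 → ℝ) (Fin 3) (fun _ => anu) (fun _ => asig)
  have h2 := h1.symm
  have hsf : ∀ _ : Fin 3, SigmaFinite (Measure.map (aT j) (anu.prod asig)) := by
    intro _
    rw [a_map]
    infer_instance
  have h3 : Measure.pi (fun _ : Fin 3 => arho) =
      Measure.map (fun (x : Fin 3 → ℝ × (Fin 2 → ℝ)) i => aT j (x i)) (Measure.pi fun _ => anu.prod asig) := by
    rw [Measure.pi_map_pi (f := fun _ : Fin 3 => aT j) (fun _ => (aT_meas j).aemeasurable)]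
    simp only [a_map]
  have hm : Measurable (fun (x : Fin 3 → ℝ × (Fin 2 → ℝ)) i => aT j (x i)) :=
    measurable_pi_lambda _ fun i => (aT_meas j).comp (measurable_pi_apply i)
  rw [h3, ← h2.map_eq, Measure.map_map hm h2.measurable]
  rfl

private lemma a3_prod_bound (A : Finset (Fin 3)) (x : Fin 3 → ℝ) : |∏ l ∈ A, gC (x l)| ≤ 8 := by
  rw [abs_of_nonneg (Finset.prod_nonneg fun i _ => (gC_props.2.2 _).1)]
  calc ∏ l ∈ A, gC (x l) ≤ ∏ l ∈ A, (2 : ℝ) :=
        Finset.prod_le_prod (fun i _ => (gC_props.2.2 _).1) fun i _ => (gC_props.2.2 _).2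
    _ = 2 ^ A.card := by rw [Finset.prod_const]
    _ ≤ 2 ^ 3 := pow_le_pow_right₀ (by norm_num) (by simpa using Finset.card_le_univ A)
    _ = 8 := by norm_num

private lemma a3_prod_meas (A : Finset (Fin 3)) : Measurable fun y : Fin 3 → Fin 3 → ℝ => ∏ l ∈ A, gC (∑ i, y i l) := by
  refine Finset.measurable_prod _ fun l _ => gC_props.2.1.comp ?_
  exact Finset.measurable_sum _ fun i _ => (measurable_pi_apply l).comp (measurable_pi_apply i)

private lemma a3_W_eq (A : Finset (Fin 3)) (j : Fin 3) : a3_W A = ∫ w, ∫ z, ∏ l ∈ A, gC (∑ i, a3_Phi j (z, w) i l)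
    ∂(Measure.pi fun _ => anu) ∂(Measure.pi fun _ => asig) := by
  unfold a3_W
  rw [← a3_map j, integral_map (a3_Phi_meas j).aemeasurable (a3_prod_meas A).aestronglyMeasurable]
  exact integral_prod_symm _ (a3_int ((a3_prod_meas A).comp (a3_Phi_meas j)) fun p => a3_prod_bound A _)

private lemma a3_cell_pos {w x : ℝ} (h : cellρ w x ≠ 0) : 0 < x := by
  by_contra hx
  apply h
  unfold cellρ
  exact indicator_of_notMem (by exact hx : x ∉ Ioi 0) _

private lemma a3_ae : ∀ᵐ w ∂(Measure.pi fun _ : Fin 3 => asig), ∀ i l, 0 < w i l := by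
  have h1 : ∀ᵐ v ∂asig, ∀ l, 0 < v l := by
    have hm : Measurable fun w => ENNReal.ofReal (ag w) := ENNReal.measurable_ofReal.comp a_meas.2.2.1
    unfold asig
    rw [ae_withDensity_iff hm]
    refine Eventually.of_forall fun v hv l => ?_
    have h2 : ag v ≠ 0 := by
      intro h
      apply hv
      rw [h, ENNReal.ofReal_zero]
    unfold ag at h2
    have h3 := right_ne_zero_of_mul h2
    exact a3_cell_pos (Finset.prod_ne_zero_iff.mp h3 l (Finset.mem_univ l))
  rw [ae_all_iff]
  intro i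
  exact (Measure.quasiMeasurePreserving_eval (fun _ : Fin 3 => asig) i).ae h1

/-- One step. -/
private theorem a3_step {A : Finset (Fin 3)} {j : Fin 3} (hj : j ∉ A) :
    anu.real univ ^ 3 * a3_W (insert j A) ≤ aN * a3_W A := by
  rw [a3_W_eq (insert j A) j, a3_W_eq A j, ← integral_const_mul, ← integral_const_mul]
  have hΦw : ∀ w : Fin 3 → Fin 2 → ℝ, Measurable fun z : Fin 3 → ℝ => a3_Phi j (z, w) := fun w =>
    (a3_Phi_meas j).comp (measurable_id.prodMk measurable_const)
  have hint : ∀ B : Finset (Fin 3), Integrable (fun w => ∫ z, ∏ l ∈ B, gC (∑ i, a3_Phi j (z, w) i l)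
      ∂(Measure.pi fun _ => anu)) (Measure.pi fun _ => asig) := by
    intro B
    have h1 : Integrable (fun p => ∏ l ∈ B, gC (∑ i, a3_Phi j p i l))
        ((Measure.pi fun _ => anu).prod (Measure.pi fun _ => asig)) :=
      a3_int ((a3_prod_meas B).comp (a3_Phi_meas j)) fun p => a3_prod_bound B _
    exact h1.integral_prod_right
  refine integral_mono_ae ((hint _).const_mul _) ((hint _).const_mul _) ?_
  filter_upwards [a3_ae] with w hw
  have hsum : ∀ z : Fin 3 → ℝ, ∑ i, a3_Phi j (z, w) i j = ∑ i, z i := by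
    intro z
    refine Finset.sum_congr rfl fun i _ => ?_
    unfold a3_Phi aT
    simp only [Fin.insertNth_apply_same]
  have e1 : ∀ z : Fin 3 → ℝ, ∏ l ∈ insert j A, gC (∑ i, a3_Phi j (z, w) i l) =
      (∏ l ∈ A, gC (∑ i, a3_Phi j (z, w) i l)) * gC (∑ i, z i) := by
    intro z
    rw [Finset.prod_insert hj, hsum, mul_comm]
  simp_rw [e1]
  have hmono : Monotone fun z : Fin 3 → ℝ => ∏ l ∈ A, gC (∑ i, a3_Phi j (z, w) i l) := by
    intro z z' hz
    refine Finset.prod_le_prod (fun _ _ => (gC_props.2.2 _).1) fun l hl => gC_props.1 ?_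
    refine Finset.sum_le_sum fun i _ => ?_
    have hlj : l ≠ j := fun h => hj (h ▸ hl)
    obtain ⟨l', hl'⟩ := Fin.exists_succAbove_eq hlj
    unfold a3_Phi aT
    rw [← hl']
    simp only [Fin.insertNth_apply_succAbove, Pi.smul_apply, smul_eq_mul]
    have h1 := hw i l'
    have h2 := hz i
    exact mul_le_mul_of_nonneg_right (by linarith) h1.le
  have hanti : Antitone fun z : Fin 3 → ℝ => gC (∑ i, z i) := by
    intro z z' hz
    exact gC_props.1 (Finset.sum_le_sum fun i _ => hz i)
  have hm1 : Measurable fun z : Fin 3 → ℝ => ∏ l ∈ A, gC (∑ i, a3_Phi j (z, w) i l) := (a3_prod_meas A).comp (hΦw w)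
  have hm2 : Measurable fun z : Fin 3 → ℝ => gC (∑ i, z i) := gC_props.2.1.comp (by fun_prop)
  have h := a3_harris anu 3 _ _ hm1 hm2 8 2 (fun z => a3_prod_bound A _) (fun z => by
    rw [abs_of_nonneg (gC_props.2.2 _).1]; exact (gC_props.2.2 _).2) hmono hanti
  refine h.trans (le_of_eq ?_)
  unfold aN
  ring

private lemma a3_N_nonneg : 0 ≤ aN := integral_nonneg fun _ => (gC_props.2.2 _).1

private lemma a3_W_empty : a3_W ∅ = (1 / Real.Gamma (9 / 4)) ^ 3 := by
  unfold a3_W
  simp only [Finset.prod_empty]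
  rw [integral_const, smul_eq_mul, mul_one, measureReal_def, Measure.pi_univ, Finset.prod_const, Finset.card_univ,
    Fintype.card_fin, a_univ.2.2, ENNReal.toReal_pow, ENNReal.toReal_ofReal]
  have := a3_gpos
  positivity

private lemma a3_W3 : W3 = a3_W Finset.univ := by
  have hF := a_meas
  have hI := a_mass
  unfold W3 a3_W arho
  rw [a3_pi hI.1 hF.2.2.2.1, a3_int_wd]
  · exact Finset.measurable_prod _ fun i _ => hF.1.comp (measurable_pi_apply i)
  · exact fun y => Finset.prod_nonneg fun i _ => hF.2.2.2.1 _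

theorem a_chain : (1 / Real.Gamma (9 / 4)) ^ 9 * W3 ≤ aN ^ 3 * (1 / Real.Gamma (9 / 4)) ^ 3 := by
  have hm : 0 ≤ anu.real univ ^ 3 := by positivity
  have hN := a3_N_nonneg
  have s1 := a3_step (A := ∅) (j := 0) (by decide)
  have s2 := a3_step (A := insert 0 ∅) (j := 1) (by decide)
  have s3 := a3_step (A := insert 1 (insert 0 ∅)) (j := 2) (by decide)
  have e : (insert 2 (insert 1 (insert 0 ∅)) : Finset (Fin 3)) = Finset.univ := by decide
  rw [e] at s3
  rw [a3_W_empty] at s1
  rw [a3_W3]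
  have e9 : (1 / Real.Gamma (9 / 4)) ^ 9 = (anu.real univ ^ 3) ^ 3 := by
    rw [a3_nu_mass]
    ring
  rw [e9]
  obtain ⟨m, hmd⟩ : ∃ m, m = anu.real univ ^ 3 := ⟨_, rfl⟩
  rw [← hmd] at hm s1 s2 s3 ⊢
  calc m ^ 3 * a3_W Finset.univ = m ^ 2 * (m * a3_W Finset.univ) := by ring
    _ ≤ m ^ 2 * (aN * a3_W (insert 1 (insert 0 ∅))) := by gcongr
    _ = m * aN * (m * a3_W (insert 1 (insert 0 ∅))) := by ring
    _ ≤ m * aN * (aN * a3_W (insert 0 ∅)) := by gcongr
    _ = aN ^ 2 * (m * a3_W (insert 0 ∅)) := by ring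
    _ ≤ aN ^ 2 * (aN * (1 / Real.Gamma (9 / 4)) ^ 3) := by gcongr
    _ = _ := by ring

end Pool.Agent.LibFM89
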