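import Pool.Agent.LibFM89.A1

/-! # FM89 A4: the value of the one column integral (MEDIUM)

PLAN.  `aN = ∫ gC(z0+z1+z2) ∏ aphi(z_i) dz` (LibM3/H5.lean: `h5_pi`, `h5_int_wd`, only Mathlib: copy).  If all `z_i > 0` and
`S = z0+z1+z2 < 1` the integrand is `cellρ (3/2) (1-S) (1+S/6) ∏ (1-z_i) ∏ cellρ (1/4) (z_i)`, otherwise `0` (on both sides: `cellρ`).
Expand `(1+S/6)(1-z0)(1-z1)(1-z2)` into monomials; `∫ cellρ (3/2) (1-S) ∏ z_i^(k_i) cellρ (1/4) (z_i) = ∏ (1/4)_{k_i} / Γ(9/4 + ∑ k_i)`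
(`cell_pow`, `dirichlet` with `s = 1`), `Γ(9/4+k) = (9/4)_k Γ(9/4)`.  With `e1, e2, e3` the elementary symmetric functions and
`E = Γ(9/4) ∫`: `E 1 = 1`, `E e1 = 1/3`, `E e1² = 7/39`, `E e2 = 1/39`, `E e3 = 1/1989`, `E e1 e2 = 33/1989`, `E e1 e3 = 15/41769`:
`1 - 1/3 + 1/39 - 1/1989 + (1/6)(1/3 - 7/39 + 33/1989 - 15/41769) = 30080/41769`. -/

set_option autoImplicit false

namespace Pool.Agent.LibFM89

open MeasureTheory Set Filter Topology Complex ProbabilityTheory
open scoped NNReal ComplexConjugate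
open Pool.Agent.LibZM
open Pool.Agent.LibSM47 (gam ch idx)

open scoped ENNReal in
private lemma A4_wd_mass {β : Type*} [MeasurableSpace β] {μ : Measure β} {F : β → ℝ} (hF : Integrable F μ) (h0 : ∀ x, 0 ≤ F x) :
    (μ.withDensity fun x => ENNReal.ofReal (F x)) univ = ENNReal.ofReal (∫ x, F x ∂μ) := by
  rw [withDensity_apply _ MeasurableSet.univ, Measure.restrict_univ, ofReal_integral_eq_lintegral_ofReal hF (Eventually.of_forall h0)]

private lemma A4_pi {E : Type} [MeasureSpace E] [SigmaFinite (volume : Measure E)] {F : E → ℝ} (hF : Measurable F)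
    (hi : Integrable F) (h0 : ∀ x, 0 ≤ F x) :
    Measure.pi (fun _ : Fin 3 => (volume : Measure E).withDensity fun x => ENNReal.ofReal (F x)) =
      (volume : Measure (Fin 3 → E)).withDensity fun y => ENNReal.ofReal (∏ i, F (y i)) := by
  have hfin : ∀ _ : Fin 3, IsFiniteMeasure ((volume : Measure E).withDensity fun x => ENNReal.ofReal (F x)) := fun _ =>
    ⟨by rw [A4_wd_mass hi h0]; exact ENNReal.ofReal_lt_top⟩
  apply Measure.pi_eq
  intro s hs
  rw [withDensity_apply _ (MeasurableSet.univ_pi hs)]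
  have hint : Integrable (fun y : Fin 3 → E => ∏ i, F (y i)) :=
    Integrable.fintype_prod (f := fun _ : Fin 3 => F) fun _ => hi
  have hint2 : ∀ i, Integrable ((s i).indicator F) := fun i => hi.indicator (hs i)
  rw [← ofReal_integral_eq_lintegral_ofReal hint.integrableOn (Eventually.of_forall fun y => Finset.prod_nonneg fun i _ => h0 _)]
  have e1 : ∫ y in univ.pi s, ∏ i, F (y i) = ∏ i, ∫ x in s i, F x := by
    rw [← integral_indicator (MeasurableSet.univ_pi hs)]
    have e2 : (univ.pi s).indicator (fun y : Fin 3 → E => ∏ i, F (y i)) = fun y => ∏ i, (s i).indicator F (y i) := by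
      funext y
      by_cases hy : y ∈ univ.pi s
      · rw [indicator_of_mem hy]
        refine Finset.prod_congr rfl fun i _ => ?_
        rw [indicator_of_mem (hy i (mem_univ i))]
      · rw [indicator_of_notMem hy]
        have : ∃ i, y i ∉ s i := by
          by_contra h
          push Not at h
          exact hy fun i _ => h i
        obtain ⟨i, hi⟩ := this
        rw [Finset.prod_eq_zero (Finset.mem_univ i) (indicator_of_notMem hi _)]
    rw [e2, integral_fintype_prod_volume_eq_prod (fun i => (s i).indicator F)]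
    refine Finset.prod_congr rfl fun i _ => ?_
    rw [integral_indicator (hs i)]
  rw [e1, ENNReal.ofReal_prod_of_nonneg (fun i _ => setIntegral_nonneg (hs i) fun x _ => h0 x)]
  refine Finset.prod_congr rfl fun i _ => ?_
  rw [withDensity_apply _ (hs i), ofReal_integral_eq_lintegral_ofReal hi.integrableOn (Eventually.of_forall h0)]

private lemma A4_int_wd {α : Type*} [MeasurableSpace α] {μ : Measure α} {F : α → ℝ} (hF : Measurable F) (h0 : ∀ x, 0 ≤ F x) (g : α → ℝ) :
    ∫ x, g x ∂(μ.withDensity fun x => ENNReal.ofReal (F x)) = ∫ x, F x * g x ∂μ := by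
  have h := integral_withDensity_eq_integral_smul (μ := μ) (f := fun x => Real.toNNReal (F x)) hF.real_toNNReal g
  refine Eq.trans h ?_
  refine integral_congr_ae (Eventually.of_forall fun x => ?_)
  show (Real.toNNReal (F x)) • g x = F x * g x
  rw [NNReal.smul_def, Real.coe_toNNReal _ (h0 x), smul_eq_mul]

private def A4_K : Fin 20 → Fin 3 → ℕ := ![![0,0,0], ![1,0,0], ![0,1,0], ![0,0,1], ![2,0,0], ![0,2,0], ![0,0,2], ![1,1,0], ![1,0,1], ![0,1,1],
  ![2,1,0], ![2,0,1], ![1,2,0], ![0,2,1], ![1,0,2], ![0,1,2], ![1,1,1], ![2,1,1], ![1,2,1], ![1,1,2]]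

private noncomputable def A4_c : Fin 20 → ℝ := ![1, -5/6, -5/6, -5/6, -1/6, -1/6, -1/6, 2/3, 2/3, 2/3, 1/6, 1/6, 1/6, 1/6, 1/6, 1/6,
  -1/2, -1/6, -1/6, -1/6]

private noncomputable def A4_f (k : Fin 3 → ℕ) (z : Fin 3 → ℝ) : ℝ := cellρ (3/2) (1 - ∑ j, z j) * ∏ j, (z j ^ k j * cellρ (1/4) (z j))

private lemma A4_Gamma (K : ℕ) : Real.Gamma (9/4 + K) = (∏ i ∈ Finset.range K, (9/4 + (i:ℝ))) * Real.Gamma (9/4) := by
  induction K with
  | zero => simp
  | succ K ih =>
    rw [Finset.prod_range_succ]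
    push_cast
    rw [← add_assoc, Real.Gamma_add_one (by positivity), ih]
    ring

private lemma A4_cell_one (w : ℝ) : cellρ w 1 = 1 / Real.Gamma w := by
  unfold cellρ
  rw [indicator_of_mem (mem_Ioi.mpr (zero_lt_one : (0:ℝ) < 1)), Real.one_rpow]

private lemma A4_dir (k : Fin 3 → ℕ) : Integrable (A4_f k) ∧ ∫ z, A4_f k z =
    (∏ j, ∏ i ∈ Finset.range (k j), ((1/4 : ℝ) + i)) / Real.Gamma (9/4 + (∑ j, k j : ℕ)) := by
  obtain ⟨h1, h2⟩ := dirichlet 3 (3/2) (by norm_num) (fun j => 1/4 + (k j : ℝ)) (fun j => by positivity) 1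
  have e : A4_f k = fun z => (∏ j, ∏ i ∈ Finset.range (k j), ((1/4 : ℝ) + i)) *
      (cellρ (3/2) (1 - ∑ j, z j) * ∏ j, cellρ (1/4 + (k j : ℝ)) (z j)) := by
    funext z
    unfold A4_f
    have : ∏ j, (z j ^ k j * cellρ (1/4) (z j)) = ∏ j, ((∏ i ∈ Finset.range (k j), ((1/4 : ℝ) + i)) * cellρ (1/4 + (k j : ℝ)) (z j)) :=
      Finset.prod_congr rfl fun j _ => cell_pow (1/4) (by norm_num) (k j) (z j)
    rw [this, Finset.prod_mul_distrib]
    ring
  rw [e]
  refine ⟨h1.const_mul _, ?_⟩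
  rw [integral_const_mul, h2, A4_cell_one]
  have e2 : (3/2 : ℝ) + ∑ j, (1/4 + (k j : ℝ)) = 9/4 + (∑ j, k j : ℕ) := by
    rw [Fin.sum_univ_three, Fin.sum_univ_three]
    push_cast
    ring
  rw [e2]
  ring

private lemma A4_poly (z : Fin 3 → ℝ) : ∑ m, A4_c m * ∏ j, z j ^ A4_K m j = (1 + (∑ j, z j) / 6) * ∏ j, (1 - z j) := by
  simp only [Fin.prod_univ_three, Fin.sum_univ_three]
  simp only [Fin.sum_univ_succ, A4_c, A4_K, Finset.univ_eq_empty, Finset.sum_empty, Matrix.cons_val_zero, Matrix.cons_val_succ,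
    Matrix.cons_val_one, Matrix.cons_val]
  ring

private lemma A4_point (z : Fin 3 → ℝ) : (∏ i, aphi (z i)) * gC (∑ i, z i) = ∑ m, A4_c m * A4_f (A4_K m) z := by
  have e1 : ∑ m, A4_c m * A4_f (A4_K m) z = cellρ (3/2) (1 - ∑ j, z j) * ((1 + (∑ j, z j) / 6) * ∏ j, (1 - z j)) * ∏ j, cellρ (1/4) (z j) := by
    rw [← A4_poly z, Finset.mul_sum, Finset.sum_mul]
    refine Finset.sum_congr rfl fun m _ => ?_
    unfold A4_f
    rw [Finset.prod_mul_distrib]
    ring
  rw [e1]
  by_cases hpos : ∀ i, 0 < z i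
  · have hS : 0 ≤ ∑ i, z i := Finset.sum_nonneg fun i _ => (hpos i).le
    rw [gC_eq hS]
    by_cases hS1 : ∑ i, z i < 1
    · have h3 : ∀ i, aphi (z i) = cellρ (1/4) (z i) * (1 - z i) := by
        intro i
        unfold aphi
        rw [max_eq_left]
        have : z i ≤ ∑ i, z i := Finset.single_le_sum (f := z) (fun j _ => (hpos j).le) (Finset.mem_univ i)
        linarith
      rw [Finset.prod_congr rfl fun i _ => h3 i, Finset.prod_mul_distrib]
      ring
    · have h0 : cellρ (3/2) (1 - ∑ i, z i) = 0 := by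
        unfold cellρ
        rw [indicator_of_notMem]
        simp only [mem_Ioi, not_lt]
        linarith
      rw [h0]
      ring
  · push Not at hpos
    obtain ⟨i, hi⟩ := hpos
    have h0 : cellρ (1/4) (z i) = 0 := by
      unfold cellρ
      rw [indicator_of_notMem]
      simpa using hi
    have h1 : ∏ i, aphi (z i) = 0 := Finset.prod_eq_zero (Finset.mem_univ i) (by unfold aphi; rw [h0, zero_mul])
    have h2 : ∏ j, cellρ (1/4) (z j) = 0 := Finset.prod_eq_zero (Finset.mem_univ i) h0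
    rw [h1, h2]
    ring

private lemma A4_num : ∑ m, A4_c m * ((∏ j, ∏ i ∈ Finset.range (A4_K m j), ((1/4 : ℝ) + i)) /
    (∏ i ∈ Finset.range (∑ j, A4_K m j), (9/4 + (i:ℝ)))) = 30080 / 41769 := by
  simp only [Fin.prod_univ_three, Fin.sum_univ_three]
  simp only [Fin.sum_univ_succ, A4_c, A4_K, Finset.univ_eq_empty, Finset.sum_empty, Matrix.cons_val_zero, Matrix.cons_val_succ,
    Matrix.cons_val_one, Matrix.cons_val]
  norm_num [Finset.prod_range_succ]

theorem aN_eq : aN = 30080 / 41769 / Real.Gamma (9 / 4) := by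
  obtain ⟨-, hm, -, -, h0, -⟩ := a_meas
  obtain ⟨-, hi, -, -, -, -⟩ := a_mass
  unfold aN anu
  rw [A4_pi hm hi h0, A4_int_wd (F := fun z : Fin 3 → ℝ => ∏ i, aphi (z i))
    (Finset.measurable_prod _ fun i _ => hm.comp (measurable_pi_apply i)) fun z => Finset.prod_nonneg fun i _ => h0 _]
  simp only [A4_point]
  rw [integral_finsetSum _ fun m _ => (A4_dir (A4_K m)).1.const_mul _]
  rw [← A4_num, Finset.sum_div]
  refine Finset.sum_congr rfl fun m _ => ?_
  rw [integral_const_mul, (A4_dir (A4_K m)).2, A4_Gamma]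
  ring

end Pool.Agent.LibFM89
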