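import Pool.Agent.LibFM89.C4a
import Pool.Agent.LibFM89.A1

/-! # FM89 C4b: integration of the six remainders (MEDIUM)

PLAN.  `∫ cellρ (1/2) r · boxI 1 (A + r) dr = cellρ (3/2) (1-A)` and `∫ c cellρ (1/2) c · boxI 1 (S + c) dc = (1-S)/3 · cellρ (3/2) (1-S)`
(both sides `0` if the argument is `≤ 0`; `Γ(3/2) = Γ(1/2)/2`, `Γ(5/2) = (3/2) Γ(3/2)`; `dirichlet` with `n = 1`, `β = 1`, `cellρ 1 t = 1` for
`t > 0`, and `cell_pow`; or directly).  Fubini on `C15` (`integral_prod`, `CB_int`): `CB = ∫_y ∏ cellρ (1/4) (y_ij) ·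
∏_i cellρ (3/2) (1 - ∑_j y_ij) · ∏_l cellρ (3/2) (1 - S_l) · (1 - (1/9) ∑_l (1 - S_l))`, `S_l = ∑_i y_il`
(`integral_fintype_prod_volume_eq_prod` for the integrals over `Fin 3 → ℝ`; for the weight write `1 - (1/3)∑c_j` as a sum of products).
`1 - (1/9)∑(1-S_l) = (2/3)(1 + ∑ S_l/6) ≤ (2/3) ∏ (1 + S_l/6)` for `S_l ≥ 0`; `gC_eq`.  Integrability of the integrand of `W3`:
`gC ≤ 2` and `a_mass` (`Integrable.fintype_prod`). -/

set_option autoImplicit false

namespace Pool.Agent.LibFM89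

open MeasureTheory Set Filter Topology Complex ProbabilityTheory
open scoped NNReal ComplexConjugate
open Pool.Agent.LibZM
open Pool.Agent.LibSM47 (gam ch idx)

private lemma c4b_cell_pos {w x : ℝ} (h : cellρ w x ≠ 0) : 0 < x := by
  by_contra hx
  apply h
  unfold cellρ
  exact indicator_of_notMem (by exact hx : x ∉ Ioi 0) _

private lemma c4b_int {w : ℝ} (hw : 0 < w) (s : ℝ) : Integrable (fun t => boxI s t * cellρ w t) := by
  refine Integrable.mono' ((integrable_cell hw one_pos).const_mul (Real.exp s))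
    ((measurable_boxI s).mul (measurable_cellρ w)).aestronglyMeasurable (Eventually.of_forall fun t => ?_)
  have h0 := cellρ_nonneg hw t
  rw [Real.norm_eq_abs, abs_of_nonneg (mul_nonneg (boxI_nonneg _ _) h0), ← mul_assoc, ← Real.exp_add]
  apply mul_le_mul_of_nonneg_right _ h0
  unfold boxI
  split_ifs with h
  · exact Real.one_le_exp (by linarith)
  · positivity

private lemma c4b_one {w : ℝ} (hw : 0 < w) (s : ℝ) : ∫ t, boxI s t * cellρ w t = cellρ (w + 1) s := by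
  rcases le_or_gt s 0 with hs | hs
  · have h1 : ∀ t, boxI s t * cellρ w t = 0 := by
      intro t
      by_cases ht : t ≤ s
      · have : cellρ w t = 0 := by
          by_contra hc
          have := c4b_cell_pos hc
          linarith
        rw [this, mul_zero]
      · unfold boxI
        rw [if_neg ht, zero_mul]
    simp_rw [h1]
    rw [integral_zero]
    by_contra hc
    have := c4b_cell_pos (fun h => hc h.symm)
    linarith
  · have e : (fun t => boxI s t * cellρ w t) = (Set.Ioc 0 s).indicator (fun t => t ^ (w - 1) / Real.Gamma w) := by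
      funext t
      by_cases ht : t ∈ Set.Ioc 0 s
      · rw [indicator_of_mem ht]
        unfold boxI cellρ
        rw [if_pos ht.2, indicator_of_mem (by exact ht.1 : t ∈ Ioi 0), one_mul]
      · rw [indicator_of_notMem ht]
        by_cases h1 : 0 < t
        · have h2 : ¬ t ≤ s := fun h => ht ⟨h1, h⟩
          unfold boxI
          rw [if_neg h2, zero_mul]
        · unfold cellρ
          rw [indicator_of_notMem (by exact h1 : t ∉ Ioi 0), mul_zero]
    rw [e, integral_indicator measurableSet_Ioc, ← intervalIntegral.integral_of_le hs.le,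
      intervalIntegral.integral_div, integral_rpow (Or.inl (by linarith : -1 < w - 1))]
    unfold cellρ
    rw [indicator_of_mem (by exact hs : s ∈ Ioi 0), Real.Gamma_add_one hw.ne',
      show w - 1 + 1 = w by ring, show w + 1 - 1 = w by ring, Real.zero_rpow hw.ne', sub_zero]
    rw [div_div]

private lemma c4b_box (S t : ℝ) : boxI 1 (S + t) = boxI (1 - S) t := by
  unfold boxI
  have : S + t ≤ 1 ↔ t ≤ 1 - S := by constructor <;> intro h <;> linarith
  simp only [this]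

private lemma c4b_b_int (S : ℝ) : Integrable (fun t => boxI 1 (S + t) * cellρ (1 / 2) t) := by
  simp_rw [c4b_box]
  exact c4b_int (by norm_num) _

private lemma c4b_b (S : ℝ) : ∫ t, boxI 1 (S + t) * cellρ (1 / 2) t = cellρ (3 / 2) (1 - S) := by
  simp_rw [c4b_box]
  rw [c4b_one (by norm_num)]
  norm_num

private lemma c4b_tcell (t : ℝ) : t * cellρ (1 / 2) t = 1 / 2 * cellρ (3 / 2) t := by
  have h := cell_pow (1 / 2) (by norm_num) 1 t
  simp only [pow_one, Finset.prod_range_one, Nat.cast_zero, add_zero, Nat.cast_one] at h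
  rw [h]
  norm_num

private lemma c4b_scell (s : ℝ) : s * cellρ (3 / 2) s = 3 / 2 * cellρ (5 / 2) s := by
  have h := cell_pow (3 / 2) (by norm_num) 1 s
  simp only [pow_one, Finset.prod_range_one, Nat.cast_zero, add_zero, Nat.cast_one] at h
  rw [h]
  norm_num

private lemma c4b_tb_eq (S : ℝ) : (fun t => t * (boxI 1 (S + t) * cellρ (1 / 2) t)) =
    fun t => 1 / 2 * (boxI (1 - S) t * cellρ (3 / 2) t) := by
  funext t
  rw [c4b_box]
  calc t * (boxI (1 - S) t * cellρ (1 / 2) t) = boxI (1 - S) t * (t * cellρ (1 / 2) t) := by ring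
    _ = boxI (1 - S) t * (1 / 2 * cellρ (3 / 2) t) := by rw [c4b_tcell]
    _ = _ := by ring

private lemma c4b_tb_int (S : ℝ) : Integrable (fun t => t * (boxI 1 (S + t) * cellρ (1 / 2) t)) := by
  rw [c4b_tb_eq]
  exact (c4b_int (by norm_num) _).const_mul _

private lemma c4b_tb (S : ℝ) : ∫ t, t * (boxI 1 (S + t) * cellρ (1 / 2) t) = (1 - S) / 3 * cellρ (3 / 2) (1 - S) := by
  rw [c4b_tb_eq, integral_const_mul, c4b_one (by norm_num)]
  have h := c4b_scell (1 - S)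
  have e : (3 : ℝ) / 2 + 1 = 5 / 2 := by norm_num
  rw [e]
  linarith

private lemma c4b_row (A : Fin 3 → ℝ) :
    ∫ r : Fin 3 → ℝ, ∏ i, (boxI 1 (A i + r i) * cellρ (1 / 2) (r i)) = ∏ i, cellρ (3 / 2) (1 - A i) := by
  rw [integral_fintype_prod_volume_eq_prod (fun (i : Fin 3) (t : ℝ) => boxI 1 (A i + t) * cellρ (1 / 2) t)]
  exact Finset.prod_congr rfl fun i _ => c4b_b (A i)

private lemma c4b_col (S : Fin 3 → ℝ) :
    ∫ c : Fin 3 → ℝ, (∏ j, (boxI 1 (S j + c j) * cellρ (1 / 2) (c j))) * (1 - 1 / 3 * ∑ j, c j) =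
      (∏ j, cellρ (3 / 2) (1 - S j)) * (1 - 1 / 9 * ∑ j, (1 - S j)) := by
  have hP : Integrable (fun c : Fin 3 → ℝ => ∏ j, (boxI 1 (S j + c j) * cellρ (1 / 2) (c j))) :=
    Integrable.fintype_prod (f := fun (j : Fin 3) (t : ℝ) => boxI 1 (S j + t) * cellρ (1 / 2) t) fun j => c4b_b_int (S j)
  have hm : ∀ m : Fin 3, (fun c : Fin 3 → ℝ => c m * ∏ j, (boxI 1 (S j + c j) * cellρ (1 / 2) (c j))) =
      fun c : Fin 3 → ℝ => ∏ j, ((if j = m then c j else 1) * (boxI 1 (S j + c j) * cellρ (1 / 2) (c j))) := by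
    intro m
    funext c
    rw [Finset.prod_mul_distrib (f := fun j : Fin 3 => if j = m then c j else 1), Finset.prod_ite_eq' Finset.univ m c,
      if_pos (Finset.mem_univ m)]
  have hmi : ∀ m j : Fin 3, Integrable (fun t : ℝ => (if j = m then t else 1) * (boxI 1 (S j + t) * cellρ (1 / 2) t)) := by
    intro m j
    by_cases h : j = m
    · simp only [if_pos h]
      exact c4b_tb_int (S j)
    · simp only [if_neg h, one_mul]
      exact c4b_b_int (S j)
  have hPm : ∀ m : Fin 3, Integrable (fun c : Fin 3 → ℝ => c m * ∏ j, (boxI 1 (S j + c j) * cellρ (1 / 2) (c j))) := by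
    intro m
    rw [hm]
    exact Integrable.fintype_prod (f := fun (j : Fin 3) (t : ℝ) => (if j = m then t else 1) *
      (boxI 1 (S j + t) * cellρ (1 / 2) t)) fun j => hmi m j
  have hIm : ∀ m : Fin 3, ∫ c : Fin 3 → ℝ, c m * ∏ j, (boxI 1 (S j + c j) * cellρ (1 / 2) (c j)) =
      (1 - S m) / 3 * ∏ j, cellρ (3 / 2) (1 - S j) := by
    intro m
    rw [hm, integral_fintype_prod_volume_eq_prod (fun (j : Fin 3) (t : ℝ) => (if j = m then t else 1) *
      (boxI 1 (S j + t) * cellρ (1 / 2) t))]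
    have h1 : ∀ j : Fin 3, ∫ t : ℝ, (if j = m then t else 1) * (boxI 1 (S j + t) * cellρ (1 / 2) t) =
        (if j = m then (1 - S j) / 3 else 1) * cellρ (3 / 2) (1 - S j) := by
      intro j
      by_cases h : j = m
      · simp only [if_pos h]
        exact c4b_tb (S j)
      · simp only [if_neg h, one_mul]
        exact c4b_b (S j)
    rw [Finset.prod_congr rfl fun j _ => h1 j, Finset.prod_mul_distrib,
      Finset.prod_ite_eq' Finset.univ m (fun j => (1 - S j) / 3), if_pos (Finset.mem_univ m)]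
  have hI0 := c4b_row S
  have e : (fun c : Fin 3 → ℝ => (∏ j, (boxI 1 (S j + c j) * cellρ (1 / 2) (c j))) * (1 - 1 / 3 * ∑ j, c j)) =
      fun c : Fin 3 → ℝ => (∏ j, (boxI 1 (S j + c j) * cellρ (1 / 2) (c j))) -
        1 / 3 * ∑ m, (c m * ∏ j, (boxI 1 (S j + c j) * cellρ (1 / 2) (c j))) := by
    funext c
    rw [← Finset.sum_mul]
    ring
  rw [e, integral_sub hP ((integrable_finsetSum _ fun m _ => hPm m).const_mul _), integral_const_mul,
    integral_finsetSum _ fun m _ => hPm m, hI0, Finset.sum_congr rfl fun m _ => hIm m, ← Finset.sum_mul,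
    ← Finset.sum_div]
  ring

/-- the integrand after the integration of the remainders -/
private noncomputable def c4b_H (y : Fin 3 → Fin 3 → ℝ) : ℝ :=
  (∏ i, ∏ j, cellρ (1 / 4) (y i j)) * ((∏ i, cellρ (3 / 2) (1 - ∑ j, y i j)) *
    ((∏ l, cellρ (3 / 2) (1 - ∑ i, y i l)) * (1 - 1 / 9 * ∑ l, (1 - ∑ i, y i l))))

private lemma c4b_fub : Integrable c4b_H ∧ CB = ∫ y, c4b_H y := by
  have hI := CB_int.2
  have e : ∀ y : Fin 3 → Fin 3 → ℝ, ∫ q : (Fin 3 → ℝ) × (Fin 3 → ℝ),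
      (∏ i, boxI 1 (∑ j, y i j + q.1 i)) * (∏ j, boxI 1 (∑ i, y i j + q.2 j)) *
        (1 - 1 / 3 * ∑ j, q.2 j) * cC (y, q) = c4b_H y := by
    intro y
    have e1 : ∀ q : (Fin 3 → ℝ) × (Fin 3 → ℝ), (∏ i, boxI 1 (∑ j, y i j + q.1 i)) * (∏ j, boxI 1 (∑ i, y i j + q.2 j)) *
        (1 - 1 / 3 * ∑ j, q.2 j) * cC (y, q) = (∏ i, ∏ j, cellρ (1 / 4) (y i j)) *
        ((∏ i, (boxI 1 ((fun i => ∑ j, y i j) i + q.1 i) * cellρ (1 / 2) (q.1 i))) *
          ((∏ j, (boxI 1 ((fun j => ∑ i, y i j) j + q.2 j) * cellρ (1 / 2) (q.2 j))) * (1 - 1 / 3 * ∑ j, q.2 j))) := by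
      intro q
      unfold cC
      simp only [Finset.prod_mul_distrib]
      ring
    simp_rw [e1]
    rw [integral_const_mul]
    have h2 := integral_prod_mul (μ := (volume : Measure (Fin 3 → ℝ))) (ν := (volume : Measure (Fin 3 → ℝ)))
      (fun r : Fin 3 → ℝ => ∏ i, (boxI 1 ((fun i => ∑ j, y i j) i + r i) * cellρ (1 / 2) (r i)))
      (fun c : Fin 3 → ℝ => (∏ j, (boxI 1 ((fun j => ∑ i, y i j) j + c j) * cellρ (1 / 2) (c j))) * (1 - 1 / 3 * ∑ j, c j))
    rw [c4b_row, c4b_col] at h2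
    unfold c4b_H
    rw [← h2]
    rfl
  have h1 := integral_prod _ hI
  have h2 := Integrable.integral_prod_left hI
  have e' : (fun y : Fin 3 → Fin 3 → ℝ => ∫ q : (Fin 3 → ℝ) × (Fin 3 → ℝ),
      (∏ i, boxI 1 (∑ j, y i j + q.1 i)) * (∏ j, boxI 1 (∑ i, y i j + q.2 j)) *
        (1 - 1 / 3 * ∑ j, q.2 j) * cC (y, q)) = c4b_H := funext e
  constructor
  · rw [← e']
    exact h2
  · rw [← e']
    exact h1

theorem CB_le : CB ≤ 2 / 3 * W3 := by
  obtain ⟨hHi, hCB⟩ := c4b_fub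
  rw [hCB]
  have hW : 2 / 3 * W3 = ∫ y : Fin 3 → Fin 3 → ℝ, 2 / 3 * ((∏ i, aF (y i)) * ∏ l, gC (∑ i, y i l)) := by
    rw [integral_const_mul]
    rfl
  rw [hW]
  have hFi : Integrable (fun y : Fin 3 → Fin 3 → ℝ => ∏ i, aF (y i)) :=
    Integrable.fintype_prod (f := fun _ : Fin 3 => aF) fun _ => a_mass.1
  have hgm : Measurable fun y : Fin 3 → Fin 3 → ℝ => ∏ l, gC (∑ i, y i l) := by
    refine Finset.measurable_prod _ fun l _ => gC_props.2.1.comp ?_
    exact Finset.measurable_sum _ fun i _ => (measurable_pi_apply l).comp (measurable_pi_apply i)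
  have hF0 : ∀ y : Fin 3 → Fin 3 → ℝ, 0 ≤ ∏ i, aF (y i) := fun y => Finset.prod_nonneg fun i _ => a_meas.2.2.2.1 _
  have hg0 : ∀ y : Fin 3 → Fin 3 → ℝ, 0 ≤ ∏ l, gC (∑ i, y i l) := fun y =>
    Finset.prod_nonneg fun i _ => (gC_props.2.2 _).1
  have hg8 : ∀ y : Fin 3 → Fin 3 → ℝ, ∏ l, gC (∑ i, y i l) ≤ 8 := by
    intro y
    calc ∏ l, gC (∑ i, y i l) ≤ ∏ l : Fin 3, (2 : ℝ) :=
          Finset.prod_le_prod (fun i _ => (gC_props.2.2 _).1) fun i _ => (gC_props.2.2 _).2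
      _ = 8 := by
        rw [Finset.prod_const, Finset.card_univ, Fintype.card_fin]
        norm_num
  have hWi : Integrable (fun y : Fin 3 → Fin 3 → ℝ => (∏ i, aF (y i)) * ∏ l, gC (∑ i, y i l)) := by
    refine Integrable.mono' (hFi.mul_const 8) (hFi.aestronglyMeasurable.mul hgm.aestronglyMeasurable)
      (Eventually.of_forall fun y => ?_)
    rw [Real.norm_eq_abs, abs_of_nonneg (mul_nonneg (hF0 y) (hg0 y))]
    exact mul_le_mul_of_nonneg_left (hg8 y) (hF0 y)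
  refine integral_mono hHi (hWi.const_mul _) fun y => ?_
  show c4b_H y ≤ 2 / 3 * ((∏ i, aF (y i)) * ∏ l, gC (∑ i, y i l))
  have hR0 : 0 ≤ 2 / 3 * ((∏ i, aF (y i)) * ∏ l, gC (∑ i, y i l)) := by
    have := mul_nonneg (hF0 y) (hg0 y)
    positivity
  by_cases hc : (∏ i, ∏ j, cellρ (1 / 4) (y i j)) = 0
  · unfold c4b_H
    rw [hc, zero_mul]
    exact hR0
  have hpos : ∀ i j, 0 < y i j := fun i j =>
    c4b_cell_pos (Finset.prod_ne_zero_iff.mp (Finset.prod_ne_zero_iff.mp hc i (Finset.mem_univ i)) j (Finset.mem_univ j))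
  have hS : ∀ l, 0 ≤ ∑ i, y i l := fun l => Finset.sum_nonneg fun i _ => (hpos i l).le
  have e1 : ∏ l, gC (∑ i, y i l) = (∏ l, cellρ (3 / 2) (1 - ∑ i, y i l)) * ∏ l, (1 + (∑ i, y i l) / 6) := by
    rw [← Finset.prod_mul_distrib]
    exact Finset.prod_congr rfl fun l _ => gC_eq (hS l)
  have e2 : ∏ i, aF (y i) = (∏ i, cellρ (3 / 2) (1 - ∑ j, y i j)) * ∏ i, ∏ j, cellρ (1 / 4) (y i j) := by
    rw [← Finset.prod_mul_distrib]
    rfl
  rw [e1, e2]
  unfold c4b_H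
  have x1 : 0 ≤ ∏ i, ∏ j, cellρ (1 / 4) (y i j) :=
    Finset.prod_nonneg fun i _ => Finset.prod_nonneg fun j _ => cellρ_nonneg (by norm_num) _
  have x2 : 0 ≤ ∏ i, cellρ (3 / 2) (1 - ∑ j, y i j) := Finset.prod_nonneg fun i _ => cellρ_nonneg (by norm_num) _
  have x3 : 0 ≤ ∏ l, cellρ (3 / 2) (1 - ∑ i, y i l) := Finset.prod_nonneg fun i _ => cellρ_nonneg (by norm_num) _
  have key : 1 - 1 / 9 * ∑ l, (1 - ∑ i, y i l) ≤ 2 / 3 * ∏ l, (1 + (∑ i, y i l) / 6) := by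
    obtain ⟨a, ha⟩ : ∃ a, a = ∑ i, y i 0 := ⟨_, rfl⟩
    obtain ⟨b, hb⟩ : ∃ b, b = ∑ i, y i 1 := ⟨_, rfl⟩
    obtain ⟨c, hcc⟩ : ∃ c, c = ∑ i, y i 2 := ⟨_, rfl⟩
    have ha0 : 0 ≤ a := ha ▸ hS 0
    have hb0 : 0 ≤ b := hb ▸ hS 1
    have hc0 : 0 ≤ c := hcc ▸ hS 2
    rw [Fin.sum_univ_three, Fin.prod_univ_three, ← ha, ← hb, ← hcc]
    have y1 := mul_nonneg ha0 hb0
    have y2 := mul_nonneg ha0 hc0
    have y3 := mul_nonneg hb0 hc0
    have y4 := mul_nonneg y1 hc0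
    nlinarith
  obtain ⟨X1, hX1⟩ : ∃ X, X = ∏ i, ∏ j, cellρ (1 / 4) (y i j) := ⟨_, rfl⟩
  obtain ⟨X2, hX2⟩ : ∃ X, X = ∏ i, cellρ (3 / 2) (1 - ∑ j, y i j) := ⟨_, rfl⟩
  obtain ⟨X3, hX3⟩ : ∃ X, X = ∏ l, cellρ (3 / 2) (1 - ∑ i, y i l) := ⟨_, rfl⟩
  rw [← hX1, ← hX2, ← hX3]
  rw [← hX1] at x1
  rw [← hX2] at x2
  rw [← hX3] at x3
  calc X1 * (X2 * (X3 * (1 - 1 / 9 * ∑ l, (1 - ∑ i, y i l))))
      = (X1 * X2 * X3) * (1 - 1 / 9 * ∑ l, (1 - ∑ i, y i l)) := by ring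
    _ ≤ (X1 * X2 * X3) * (2 / 3 * ∏ l, (1 + (∑ i, y i l) / 6)) :=
        mul_le_mul_of_nonneg_left key (mul_nonneg (mul_nonneg x1 x2) x3)
    _ = _ := by ring

theorem CC_le_W3 {f : ℝ → ℝ} (hf : Continuous f) (h01 : ∀ x, 0 ≤ f x ∧ f x ≤ 1) (h6 : ∀ x, f x ≠ 0 → x ≤ 1 / 6) :
    CC f ≤ (1 / 6) ^ (21 / 4 : ℝ) * (2 / 3 * W3) := by
  exact (CC_le_CB hf h01 h6).trans (mul_le_mul_of_nonneg_left CB_le (by positivity))

end Pool.Agent.LibFM89
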