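import Pool.Agent.LibFM89.A3
import Pool.Agent.LibFM89.A4
import Pool.Agent.LibFM89.C4b

/-! # FM89 A5: the upper constant (SHORT)

PLAN.  `a_chain`, `aN_eq`: `W3 ≤ ν³ Γ(9/4)³` (`Γ(9/4) > 0`), then `CC_le_W3` and `cval`. -/

set_option autoImplicit false

namespace Pool.Agent.LibFM89

open MeasureTheory Set Filter Topology Complex ProbabilityTheory
open scoped NNReal ComplexConjugate
open Pool.Agent.LibZM
open Pool.Agent.LibSM47 (gam ch idx)

theorem W3_le : W3 ≤ (30080 / 41769) ^ 3 * Real.Gamma (9 / 4) ^ 3 := by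
  have hG : 0 < Real.Gamma (9 / 4) := Real.Gamma_pos_of_pos (by norm_num)
  have h := a_chain
  rw [aN_eq] at h
  have h2 : (1 / Real.Gamma (9 / 4)) ^ 9 * W3 ≤
      (1 / Real.Gamma (9 / 4)) ^ 9 * ((30080 / 41769) ^ 3 * Real.Gamma (9 / 4) ^ 3) := by
    refine h.trans (le_of_eq ?_)
    field_simp
  exact le_of_mul_le_mul_left h2 (by positivity)

theorem CC_le {f : ℝ → ℝ} (hf : Continuous f) (h01 : ∀ x, 0 ≤ f x ∧ f x ≤ 1) (h6 : ∀ x, f x ≠ 0 → x ≤ 1 / 6) : CC f ≤ cval := by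
  refine (CC_le_W3 hf h01 h6).trans ?_
  unfold cval
  have h : (2 / 3 : ℝ) * W3 ≤ 2 / 3 * (30080 / 41769) ^ 3 * Real.Gamma (9 / 4) ^ 3 := by
    have := W3_le
    linarith
  exact mul_le_mul_of_nonneg_left h (by positivity)

end Pool.Agent.LibFM89
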