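import Pool.Agent.LibFM89.BD

/-! # FM89 B1: the local factors AA, kf (SHORT/MEDIUM)

PLAN.  `0 ≤ dcoef (1/2) j ≤ 1` (`dcoef_nonneg`, `dcoef_mono` + `dcoef_one_left`), `dcoef (1/2) 0 = 1`, `dcoef (1/2) 1 = 1/2`.
With `0 ≤ x ≤ u`, `0 ≤ y`, `x y ≤ 1`: `x^j y^(min j k) = (xy)^(min j k) x^(j - min j k) ≤ u^(j-k)` (natural subtraction), so the series
converges and `AA ≤ (k+1) + ∑_{i≥1} u^i ≤ k + 2` (`u ≤ 1/2`).  `AA x y 0 = ∑ dcoef (1/2) j x^j = (1-x)^(-1/2)`: from LibZM (Asymp: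
`partial_binomial_le`, or the identity `Gsum`/binomial series there; or Mathlib's binomial series; or square the series with `dcoef_add`
and `tsum_geometric`: both sides are positive and the square of the sum is `1/(1-x)`).
For `k = 1`: terms `j = 0`: `1`; `j = 1`: `x y/2`; `j ≥ 2`: `≤ x^(j-1) (x y) ≤ u^(j-1)`, sum `≤ 2u`. -/

set_option autoImplicit false

namespace Pool.Agent.LibFM89

open MeasureTheory Set Filter Topology Complex ProbabilityTheory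
open scoped NNReal ComplexConjugate
open Pool.Agent.LibZM
open Pool.Agent.LibSM47 (gam ch idx)

private lemma dc_le_one (j : ℕ) : dcoef (1 / 2) j ≤ 1 := by
  have h := dcoef_mono (by norm_num : (0:ℝ) ≤ 1 / 2) (by norm_num : (1 / 2 : ℝ) ≤ 1) j
  rwa [dcoef_one_left] at h

private lemma dc_nonneg (j : ℕ) : 0 ≤ dcoef (1 / 2) j := dcoef_nonneg (by norm_num) j

private lemma term_head {x y : ℝ} (hx : 0 ≤ x) (hy : 0 ≤ y) (hxy : x * y ≤ 1) {j k : ℕ} (hj : j ≤ k) :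
    dcoef (1 / 2) j * x ^ j * y ^ (min j k) ≤ 1 := by
  rw [min_eq_left hj, mul_assoc, ← mul_pow]
  have h1 : (x * y) ^ j ≤ 1 := pow_le_one₀ (mul_nonneg hx hy) hxy
  calc dcoef (1 / 2) j * (x * y) ^ j ≤ 1 * 1 :=
        mul_le_mul (dc_le_one j) h1 (pow_nonneg (mul_nonneg hx hy) j) zero_le_one
    _ = 1 := one_mul 1

private lemma term_tail {x y u : ℝ} (hx : 0 ≤ x) (hxu : x ≤ u) (hy : 0 ≤ y) (hxy : x * y ≤ 1) (i k : ℕ) :
    dcoef (1 / 2) (i + (k + 1)) * x ^ (i + (k + 1)) * y ^ (min (i + (k + 1)) k) ≤ u ^ (i + 1) := by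
  have hm : min (i + (k + 1)) k = k := min_eq_right (by omega)
  have e : x ^ (i + (k + 1)) * y ^ k = (x * y) ^ k * x ^ (i + 1) := by
    rw [show i + (k + 1) = k + (i + 1) by omega, pow_add, mul_pow]; ring
  rw [hm, mul_assoc, e]
  have h1 : (x * y) ^ k ≤ 1 := pow_le_one₀ (mul_nonneg hx hy) hxy
  have h2 : x ^ (i + 1) ≤ u ^ (i + 1) := pow_le_pow_left₀ hx hxu _
  have h3 : (x * y) ^ k * x ^ (i + 1) ≤ 1 * u ^ (i + 1) :=
    mul_le_mul h1 h2 (pow_nonneg hx _) zero_le_one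
  calc dcoef (1 / 2) (i + (k + 1)) * ((x * y) ^ k * x ^ (i + 1)) ≤ 1 * (1 * u ^ (i + 1)) :=
        mul_le_mul (dc_le_one _) h3 (mul_nonneg (pow_nonneg (mul_nonneg hx hy) _) (pow_nonneg hx _)) zero_le_one
    _ = u ^ (i + 1) := by ring

private lemma term_nonneg {x y : ℝ} (hx : 0 ≤ x) (hy : 0 ≤ y) (j k : ℕ) :
    0 ≤ dcoef (1 / 2) j * x ^ j * y ^ (min j k) :=
  mul_nonneg (mul_nonneg (dc_nonneg j) (pow_nonneg hx j)) (pow_nonneg hy _)

private lemma geo_summable {u : ℝ} (hu0 : 0 ≤ u) (hu : u ≤ 1 / 2) : Summable fun i : ℕ => u ^ (i + 1) := by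
  have h := (summable_geometric_of_lt_one hu0 (by linarith)).mul_left u
  refine h.congr fun i => ?_
  rw [pow_succ]; ring

private lemma geo_tsum_le {u : ℝ} (hu0 : 0 ≤ u) (hu : u ≤ 1 / 2) : ∑' i : ℕ, u ^ (i + 1) ≤ 2 * u := by
  have e : ∑' i : ℕ, u ^ (i + 1) = u * (1 - u)⁻¹ := by
    rw [← tsum_geometric_of_lt_one hu0 (by linarith), ← tsum_mul_left]
    exact tsum_congr fun i => by rw [pow_succ]; ring
  rw [e]
  have h1 : (1 - u)⁻¹ ≤ 2 := by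
    rw [inv_le_comm₀ (by linarith) (by norm_num)]
    linarith
  nlinarith

theorem AA_summable {x y u : ℝ} (hx : 0 ≤ x) (hxu : x ≤ u) (hu : u ≤ 1 / 2) (hy : 0 ≤ y) (hxy : x * y ≤ 1) (k : ℕ) :
    Summable fun j : ℕ => dcoef (1 / 2) j * x ^ j * y ^ (min j k) := by
  rw [← summable_nat_add_iff (k + 1)]
  exact Summable.of_nonneg_of_le (fun i => term_nonneg hx hy _ _) (fun i => term_tail hx hxu hy hxy i k)
    (geo_summable (hx.trans hxu) hu)

private lemma tail_bound {x y u : ℝ} (hx : 0 ≤ x) (hxu : x ≤ u) (hu : u ≤ 1 / 2) (hy : 0 ≤ y) (hxy : x * y ≤ 1) (k : ℕ) :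
    0 ≤ ∑' i : ℕ, dcoef (1 / 2) (i + (k + 1)) * x ^ (i + (k + 1)) * y ^ (min (i + (k + 1)) k) ∧
      ∑' i : ℕ, dcoef (1 / 2) (i + (k + 1)) * x ^ (i + (k + 1)) * y ^ (min (i + (k + 1)) k) ≤ 2 * u := by
  refine ⟨tsum_nonneg fun i => term_nonneg hx hy _ _, ?_⟩
  refine le_trans (Summable.tsum_le_tsum (fun i => term_tail hx hxu hy hxy i k) ?_ (geo_summable (hx.trans hxu) hu))
    (geo_tsum_le (hx.trans hxu) hu)
  exact (summable_nat_add_iff (k + 1)).mpr (AA_summable hx hxu hu hy hxy k)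

private lemma AA_split {x y u : ℝ} (hx : 0 ≤ x) (hxu : x ≤ u) (hu : u ≤ 1 / 2) (hy : 0 ≤ y) (hxy : x * y ≤ 1) (k : ℕ) :
    AA x y k = ∑ j ∈ Finset.range (k + 1), dcoef (1 / 2) j * x ^ j * y ^ (min j k) +
      ∑' i : ℕ, dcoef (1 / 2) (i + (k + 1)) * x ^ (i + (k + 1)) * y ^ (min (i + (k + 1)) k) :=
  ((AA_summable hx hxu hu hy hxy k).sum_add_tsum_nat_add (k + 1)).symm

theorem AA_zero {x y : ℝ} (hx : 0 ≤ x) (hx1 : x ≤ 1 / 2) : AA x y 0 = (1 - x) ^ (-(1 / 2) : ℝ) := by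
  have e0 : AA x y 0 = ∑' j : ℕ, dcoef (1 / 2) j * x ^ j := by
    unfold AA
    exact tsum_congr fun j => by simp
  have hs : Summable fun j : ℕ => dcoef (1 / 2) j * x ^ j := by
    refine Summable.of_nonneg_of_le (fun j => mul_nonneg (dc_nonneg j) (pow_nonneg hx j)) (fun j => ?_)
      (summable_geometric_of_lt_one hx (by linarith))
    calc dcoef (1 / 2) j * x ^ j ≤ 1 * x ^ j := mul_le_mul_of_nonneg_right (dc_le_one j) (pow_nonneg hx j)
      _ = x ^ j := one_mul _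
  have hsn : Summable fun j : ℕ => ‖dcoef (1 / 2) j * x ^ j‖ := hs.norm
  have hsq : (∑' j : ℕ, dcoef (1 / 2) j * x ^ j) * (∑' j : ℕ, dcoef (1 / 2) j * x ^ j) = (1 - x)⁻¹ := by
    rw [tsum_mul_tsum_eq_tsum_sum_range_of_summable_norm hsn hsn, ← tsum_geometric_of_lt_one hx (by linarith)]
    refine tsum_congr fun n => ?_
    have h1 : ∑ k ∈ Finset.range (n + 1), dcoef (1 / 2) k * x ^ k * (dcoef (1 / 2) (n - k) * x ^ (n - k)) =
        (∑ k ∈ Finset.range (n + 1), dcoef (1 / 2) k * dcoef (1 / 2) (n - k)) * x ^ n := by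
      rw [Finset.sum_mul]
      refine Finset.sum_congr rfl fun k hk => ?_
      have hk' : k ≤ n := by have := Finset.mem_range.mp hk; omega
      have e : x ^ n = x ^ k * x ^ (n - k) := by rw [← pow_add]; congr 1; omega
      rw [e]; ring
    rw [h1, dcoef_add, show (1 / 2 + 1 / 2 : ℝ) = 1 by norm_num, dcoef_one_left, one_mul]
  have hS0 : 0 ≤ ∑' j : ℕ, dcoef (1 / 2) j * x ^ j :=
    tsum_nonneg fun j => mul_nonneg (dc_nonneg j) (pow_nonneg hx j)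
  have hp : 0 < 1 - x := by linarith
  have hR0 : 0 ≤ (1 - x) ^ (-(1 / 2) : ℝ) := Real.rpow_nonneg hp.le _
  have hRR : (1 - x) ^ (-(1 / 2) : ℝ) * (1 - x) ^ (-(1 / 2) : ℝ) = (1 - x)⁻¹ := by
    rw [← Real.rpow_add hp, ← Real.rpow_neg_one]; norm_num
  rw [e0]
  have := hsq.trans hRR.symm
  exact (mul_self_inj hS0 hR0).mp this

theorem kf_zero {x y : ℝ} (hx : 0 ≤ x) (hx1 : x ≤ 1 / 2) : kf x y 0 = 1 := by
  unfold kf
  rw [AA_zero hx hx1, ← Real.rpow_add (by linarith)]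
  norm_num

theorem AA_bounds {x y u : ℝ} (hx : 0 ≤ x) (hxu : x ≤ u) (hu : u ≤ 1 / 2) (hy : 0 ≤ y) (hxy : x * y ≤ 1) (k : ℕ) :
    1 ≤ AA x y k ∧ AA x y k ≤ k + 2 := by
  have hb := tail_bound hx hxu hu hy hxy k
  constructor
  · have h := (AA_summable hx hxu hu hy hxy k).sum_le_tsum {0} (fun j _ => term_nonneg hx hy j k)
    simpa [AA] using h
  · rw [AA_split hx hxu hu hy hxy k]
    have h1 : ∑ j ∈ Finset.range (k + 1), dcoef (1 / 2) j * x ^ j * y ^ (min j k) ≤ ∑ j ∈ Finset.range (k + 1), (1:ℝ) :=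
      Finset.sum_le_sum fun j hj => term_head hx hy hxy (by have := Finset.mem_range.mp hj; omega)
    rw [Finset.sum_const, Finset.card_range, nsmul_eq_mul, mul_one] at h1
    push_cast at h1
    linarith [hb.2]

theorem AA_first {x y u : ℝ} (hx : 0 ≤ x) (hxu : x ≤ u) (hu : u ≤ 1 / 2) (hy : 0 ≤ y) (hxy : x * y ≤ 1) :
    |AA x y 1 - 1 - x * y / 2| ≤ 2 * u := by
  have hb := tail_bound hx hxu hu hy hxy 1
  have e := AA_split hx hxu hu hy hxy 1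
  have h2 : ∑ j ∈ Finset.range (1 + 1), dcoef (1 / 2) j * x ^ j * y ^ (min j 1) = 1 + x * y / 2 := by
    rw [Finset.sum_range_succ, Finset.sum_range_one]
    simp
    ring
  rw [h2] at e
  rw [e]
  rw [abs_le]
  constructor
  · linarith [hb.1, hx.trans hxu]
  · linarith [hb.2]

private lemma sqrt_bounds {x : ℝ} (hx : 0 ≤ x) (hx1 : x ≤ 1 / 2) :
    0 < (1 - x) ^ (1 / 2 : ℝ) ∧ (1 - x) ^ (1 / 2 : ℝ) ≤ 1 ∧ 1 - x ≤ (1 - x) ^ (1 / 2 : ℝ) := by
  have hp : 0 < 1 - x := by linarith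
  refine ⟨Real.rpow_pos_of_pos hp _, Real.rpow_le_one hp.le (by linarith) (by norm_num), ?_⟩
  have h := Real.rpow_le_rpow_of_exponent_ge hp (by linarith : 1 - x ≤ 1) (by norm_num : (1 / 2 : ℝ) ≤ 1)
  rwa [Real.rpow_one] at h

theorem kf_bounds {x y u : ℝ} (hx : 0 ≤ x) (hxu : x ≤ u) (hu : u ≤ 1 / 2) (hy : 0 ≤ y) (hxy : x * y ≤ 1) (k : ℕ) :
    0 < kf x y k ∧ kf x y k ≤ k + 2 := by
  have hA := AA_bounds hx hxu hu hy hxy k
  have hs := sqrt_bounds hx (hxu.trans hu)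
  unfold kf
  constructor
  · exact mul_pos hs.1 (by linarith [hA.1])
  · have h1 : (1 - x) ^ (1 / 2 : ℝ) * AA x y k ≤ 1 * AA x y k :=
      mul_le_mul_of_nonneg_right hs.2.1 (by linarith [hA.1])
    linarith [hA.2]

theorem kf_first {x y u : ℝ} (hx : 0 ≤ x) (hxu : x ≤ u) (hu : u ≤ 1 / 2) (hy : 0 ≤ y) (hxy : x * y ≤ 1) :
    |kf x y 1 - 1 - x * y / 2| ≤ 5 * u := by
  have hA := AA_bounds hx hxu hu hy hxy 1
  have hs := sqrt_bounds hx (hxu.trans hu)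
  have hF := AA_first hx hxu hu hy hxy
  have hA3 : AA x y 1 ≤ 3 := by have := hA.2; push_cast at this; linarith
  have e : kf x y 1 - 1 - x * y / 2 = (AA x y 1 - 1 - x * y / 2) - (1 - (1 - x) ^ (1 / 2 : ℝ)) * AA x y 1 := by
    unfold kf; ring
  have h1 : |(1 - (1 - x) ^ (1 / 2 : ℝ)) * AA x y 1| ≤ u * 3 := by
    rw [abs_of_nonneg (mul_nonneg (by linarith [hs.2.1]) (by linarith [hA.1]))]
    exact mul_le_mul (by linarith [hs.2.2]) hA3 (by linarith [hA.1]) (hx.trans hxu)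
  rw [e]
  calc |(AA x y 1 - 1 - x * y / 2) - (1 - (1 - x) ^ (1 / 2 : ℝ)) * AA x y 1|
      ≤ |AA x y 1 - 1 - x * y / 2| + |(1 - (1 - x) ^ (1 / 2 : ℝ)) * AA x y 1| := abs_sub _ _
    _ ≤ 2 * u + u * 3 := add_le_add hF h1
    _ = 5 * u := by ring

end Pool.Agent.LibFM89
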