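import Pool.Agent.LibFM89.B1

/-! # FM89 B2: the normalised local factor (MEDIUM, elementary)

PLAN.  (add `import Pool.Agent.LibZM.MK2` for the template `abs_log_Ef_le`.)  Put `w = x y`, `w' = x' y'` in `[0,1]`, `z ≤ u`.
`LS = 1 + (1-z) z kf(1) kf'(1) + (1-z) ∑_{k≥1} z^(k+1) kf(k+1) kf'(k+1)`; by B1 the tail is `≤ ∑_{k ≥ 1} u^(k+1) (k+3)² ≤ 100 u²` and
`|kf(1) kf'(1) - (1+w/2)(1+w'/2)| ≤ 40 u`; so `|LS - 1 - z(1 + w/2 + w'/2 + ww'/4)| ≤ C u²` and `LS ≥ 1`.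
`log (1-t) = -t + O(t²)` for `0 ≤ t ≤ 1/2`; `log LS = z(1+w/2+w'/2+ww'/4) + O(u²)` (`LS ≥ 1`, `t - t²/2 ≤ log(1+t) ≤ t` for `t ≥ 0`).
Sum: `log EG = log(1-z) + (1/2) log(1-zw) + (1/2) log(1-zw') + (1/4) log(1-zww') + log LS = O(u²)`. -/

set_option autoImplicit false

namespace Pool.Agent.LibFM89

open MeasureTheory Set Filter Topology Complex ProbabilityTheory
open scoped NNReal ComplexConjugate
open Pool.Agent.LibZM
open Pool.Agent.LibSM47 (gam ch idx)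

private theorem b2_geo : Summable fun k : ℕ => (1 / 2 : ℝ) ^ k * ((k : ℝ) + 4) ^ 2 := by
  have h0 := summable_pow_mul_geometric_of_norm_lt_one (R := ℝ) 0 (r := 1 / 2) (by norm_num)
  have h1 := summable_pow_mul_geometric_of_norm_lt_one (R := ℝ) 1 (r := 1 / 2) (by norm_num)
  have h2 := summable_pow_mul_geometric_of_norm_lt_one (R := ℝ) 2 (r := 1 / 2) (by norm_num)
  refine ((h2.add (h1.mul_left 8)).add (h0.mul_left 16)).congr fun k => ?_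
  simp only [pow_zero, pow_one]
  ring

private theorem b2_K {x y x' y' u : ℝ} (hx : 0 ≤ x) (hxu : x ≤ u) (hx' : 0 ≤ x') (hxu' : x' ≤ u)
    (hu : u ≤ 1 / 2) (hy : 0 ≤ y) (hy' : 0 ≤ y') (hxy : x * y ≤ 1) (hxy' : x' * y' ≤ 1) (k : ℕ) :
    0 ≤ kf x y k * kf x' y' k ∧ kf x y k * kf x' y' k ≤ ((k : ℝ) + 2) ^ 2 := by
  obtain ⟨a1, a2⟩ := kf_bounds hx hxu hu hy hxy k
  obtain ⟨b1, b2⟩ := kf_bounds hx' hxu' hu hy' hxy' k
  refine ⟨mul_nonneg a1.le b1.le, ?_⟩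
  rw [sq]
  exact mul_le_mul a2 b2 b1.le (by positivity)

private theorem b2_summable {z x y x' y' u : ℝ} (hz : 0 ≤ z) (hzu : z ≤ u) (hx : 0 ≤ x) (hxu : x ≤ u) (hx' : 0 ≤ x') (hxu' : x' ≤ u)
    (hu : u ≤ 1 / 2) (hy : 0 ≤ y) (hy' : 0 ≤ y') (hxy : x * y ≤ 1) (hxy' : x' * y' ≤ 1) :
    Summable (fun k : ℕ => z ^ (k + 1) * (kf x y (k + 1) * kf x' y' (k + 1))) := by
  have hz2 : z ≤ 1 / 2 := hzu.trans hu
  refine Summable.of_nonneg_of_le (fun k => ?_) (fun k => ?_) b2_geo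
  · exact mul_nonneg (pow_nonneg hz _) (b2_K hx hxu hx' hxu' hu hy hy' hxy hxy' _).1
  · have h1 := (b2_K hx hxu hx' hxu' hu hy hy' hxy hxy' (k + 1)).2
    have h0 := (b2_K hx hxu hx' hxu' hu hy hy' hxy hxy' (k + 1)).1
    have h2 : z ^ (k + 1) ≤ (1 / 2 : ℝ) ^ k := by
      calc z ^ (k + 1) ≤ (1 / 2 : ℝ) ^ (k + 1) := pow_le_pow_left₀ hz hz2 _
        _ ≤ (1 / 2 : ℝ) ^ k := pow_le_pow_of_le_one (by norm_num) (by norm_num) (Nat.le_succ k)
    refine mul_le_mul h2 (h1.trans ?_) h0 (by positivity)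
    push_cast
    have hk : (0 : ℝ) ≤ k := Nat.cast_nonneg k
    nlinarith

private theorem b2_log {t u : ℝ} (ht : 0 ≤ t) (htu : t ≤ u) (hu : u ≤ 1 / 2) :
    |Real.log (1 - t) + t| ≤ 2 * u ^ 2 := by
  have h1t : 0 < 1 - t := by linarith
  have h1 : Real.log (1 - t) ≤ (1 - t) - 1 := Real.log_le_sub_one_of_pos h1t
  have h2 : 1 - (1 - t)⁻¹ ≤ Real.log (1 - t) := Real.one_sub_inv_le_log_of_pos h1t
  have h3 : -t - 2 * t ^ 2 ≤ 1 - (1 - t)⁻¹ := by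
    have e : 1 - (1 - t)⁻¹ - (-t - 2 * t ^ 2) = t ^ 2 * (1 - 2 * t) * (1 - t)⁻¹ := by
      field_simp
      ring
    have : 0 ≤ t ^ 2 * (1 - 2 * t) * (1 - t)⁻¹ :=
      mul_nonneg (mul_nonneg (sq_nonneg t) (by linarith)) (inv_nonneg.mpr h1t.le)
    linarith
  have h4 : t ^ 2 ≤ u ^ 2 := pow_le_pow_left₀ ht htu 2
  rw [abs_le]
  constructor <;> nlinarith [sq_nonneg u]

private theorem b2_log1 {S : ℝ} (hS : 0 ≤ S) : S - S ^ 2 / 2 ≤ Real.log (1 + S) ∧ Real.log (1 + S) ≤ S := by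
  constructor
  · rcases le_or_gt S 1 with h | h
    · have h1 := Real.le_log_one_add_of_nonneg hS
      have h2 : S - S ^ 2 / 2 ≤ 2 * S / (S + 2) := by
        rw [le_div_iff₀ (by linarith)]
        nlinarith [mul_nonneg (sq_nonneg S) hS]
      exact h2.trans h1
    · have h1 := Real.le_log_one_add_of_nonneg hS
      have h2 : S - S ^ 2 / 2 ≤ 2 * S / (S + 2) := by
        rw [le_div_iff₀ (by linarith)]
        nlinarith [mul_nonneg (sq_nonneg S) hS]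
      exact h2.trans h1
  · have := Real.log_le_sub_one_of_pos (show 0 < 1 + S by linarith)
    linarith

private theorem b2_S : ∃ C : ℝ, 0 < C ∧ ∀ z x y x' y' u : ℝ, 0 ≤ z → z ≤ u → 0 ≤ x → x ≤ u → 0 ≤ x' → x' ≤ u → u ≤ 1 / 2 →
    0 ≤ y → 0 ≤ y' → x * y ≤ 1 → x' * y' ≤ 1 →
      1 ≤ LS z x y x' y' ∧
      |LS z x y x' y' - 1 - z * ((1 + x * y / 2) * (1 + x' * y' / 2))| ≤ C * u ^ 2 := by
  set D : ℝ := ∑' k : ℕ, (1 / 2 : ℝ) ^ k * ((k : ℝ) + 4) ^ 2 with hD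
  have hD0 : 0 ≤ D := tsum_nonneg fun k => by positivity
  refine ⟨32 + D, by linarith, ?_⟩
  intro z x y x' y' u hz hzu hx hxu hx' hxu' hu hy hy' hxy hxy'
  have hz2 : z ≤ 1 / 2 := hzu.trans hu
  have hu0 : 0 ≤ u := hz.trans hzu
  have hsum := b2_summable hz hzu hx hxu hx' hxu' hu hy hy' hxy hxy'
  have hK := b2_K hx hxu hx' hxu' hu hy hy' hxy hxy'
  have hT0 : 0 ≤ ∑' k : ℕ, z ^ (k + 1) * (kf x y (k + 1) * kf x' y' (k + 1)) :=
    tsum_nonneg fun k => mul_nonneg (pow_nonneg hz _) (hK _).1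
  have hLS : 1 ≤ LS z x y x' y' := by
    unfold LS
    have := mul_nonneg (show 0 ≤ 1 - z by linarith) hT0
    linarith
  refine ⟨hLS, ?_⟩
  set T : ℝ := ∑' k : ℕ, z ^ (k + 1 + 1) * (kf x y (k + 1 + 1) * kf x' y' (k + 1 + 1)) with hTdef
  have hT1 : 0 ≤ T := tsum_nonneg fun k => mul_nonneg (pow_nonneg hz _) (hK _).1
  have hsplit : ∑' k : ℕ, z ^ (k + 1) * (kf x y (k + 1) * kf x' y' (k + 1)) =
      z * (kf x y 1 * kf x' y' 1) + T := by
    rw [hsum.tsum_eq_zero_add]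
    simp only [zero_add, pow_one]
    rfl
  have hT2 : T ≤ u ^ 2 * D := by
    rw [hTdef, hD, ← tsum_mul_left]
    refine ((summable_nat_add_iff 1).mpr hsum).tsum_le_tsum (fun k => ?_) (b2_geo.mul_left _)
    have h1 := (hK (k + 1 + 1)).2
    have h0 := (hK (k + 1 + 1)).1
    have h2 : z ^ (k + 1 + 1) ≤ u ^ 2 * (1 / 2 : ℝ) ^ k := by
      have e : z ^ (k + 1 + 1) = z ^ 2 * z ^ k := by ring
      rw [e]
      exact mul_le_mul (pow_le_pow_left₀ hz hzu 2) (pow_le_pow_left₀ hz hz2 k) (pow_nonneg hz k) (sq_nonneg u)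
    calc z ^ (k + 1 + 1) * (kf x y (k + 1 + 1) * kf x' y' (k + 1 + 1)) ≤
        (u ^ 2 * (1 / 2 : ℝ) ^ k) * ((k : ℝ) + 4) ^ 2 := by
          refine mul_le_mul h2 (h1.trans (le_of_eq ?_)) h0 (by positivity)
          push_cast
          ring
      _ = _ := by ring
  obtain ⟨a1, a2⟩ := kf_bounds hx hxu hu hy hxy 1
  obtain ⟨b1, b2⟩ := kf_bounds hx' hxu' hu hy' hxy' 1
  have a3 := kf_first hx hxu hu hy hxy
  have b3 := kf_first hx' hxu' hu hy' hxy'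
  set A := kf x y 1 with hA
  set B := kf x' y' 1 with hB
  set w := x * y with hw
  set w' := x' * y' with hw'
  have hw0 : 0 ≤ w := mul_nonneg hx hy
  have hw0' : 0 ≤ w' := mul_nonneg hx' hy'
  push_cast at a2 b2
  have hAB : |A * B - (1 + w / 2) * (1 + w' / 2)| ≤ 23 * u := by
    have e : A * B - (1 + w / 2) * (1 + w' / 2) = (A - 1 - w / 2) * B + (1 + w / 2) * (B - 1 - w' / 2) := by ring
    rw [e]
    refine (abs_add_le _ _).trans ?_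
    rw [abs_mul, abs_mul, abs_of_pos b1, abs_of_pos (show 0 < 1 + w / 2 by linarith)]
    have c1 : |A - 1 - w / 2| * B ≤ 5 * u * 3 :=
      mul_le_mul a3 (by linarith) b1.le (by positivity)
    have c2 : (1 + w / 2) * |B - 1 - w' / 2| ≤ 3 / 2 * (5 * u) :=
      mul_le_mul (by linarith) b3 (abs_nonneg _) (by norm_num)
    linarith
  have hAB9 : A * B ≤ 9 := by
    calc A * B ≤ 3 * 3 := mul_le_mul (by linarith) (by linarith) b1.le (by norm_num)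
      _ = 9 := by norm_num
  have hAB0 : 0 ≤ A * B := mul_nonneg a1.le b1.le
  have e : LS z x y x' y' - 1 - z * ((1 + w / 2) * (1 + w' / 2)) =
      z * (A * B - (1 + w / 2) * (1 + w' / 2)) - z ^ 2 * (A * B) + (1 - z) * T := by
    unfold LS
    rw [hsplit]
    ring
  rw [e]
  have hz22 : z ^ 2 ≤ u ^ 2 := pow_le_pow_left₀ hz hzu 2
  have t1 : |z * (A * B - (1 + w / 2) * (1 + w' / 2))| ≤ 23 * u ^ 2 := by
    rw [abs_mul, abs_of_nonneg hz]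
    calc z * |A * B - (1 + w / 2) * (1 + w' / 2)| ≤ u * (23 * u) :=
          mul_le_mul hzu hAB (abs_nonneg _) hu0
      _ = 23 * u ^ 2 := by ring
  have t2 : 0 ≤ z ^ 2 * (A * B) ∧ z ^ 2 * (A * B) ≤ 9 * u ^ 2 := by
    refine ⟨mul_nonneg (sq_nonneg z) hAB0, ?_⟩
    calc z ^ 2 * (A * B) ≤ u ^ 2 * 9 := mul_le_mul hz22 hAB9 hAB0 (sq_nonneg u)
      _ = 9 * u ^ 2 := by ring
  have t3 : 0 ≤ (1 - z) * T ∧ (1 - z) * T ≤ u ^ 2 * D := by
    refine ⟨mul_nonneg (by linarith) hT1, ?_⟩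
    calc (1 - z) * T ≤ 1 * T := mul_le_mul_of_nonneg_right (by linarith) hT1
      _ = T := one_mul T
      _ ≤ _ := hT2
  have hu2 : 0 ≤ u ^ 2 := sq_nonneg u
  have hDu : 0 ≤ D * u ^ 2 := mul_nonneg hD0 hu2
  rw [abs_le] at t1 ⊢
  obtain ⟨t11, t12⟩ := t1
  obtain ⟨t21, t22⟩ := t2
  obtain ⟨t31, t32⟩ := t3
  constructor
  · linarith [mul_comm D (u ^ 2)]
  · linarith [mul_comm D (u ^ 2)]

theorem LS_summable {z x y x' y' u : ℝ} (hz : 0 ≤ z) (hzu : z ≤ u) (hx : 0 ≤ x) (hxu : x ≤ u) (hx' : 0 ≤ x') (hxu' : x' ≤ u)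
    (hu : u ≤ 1 / 2) (hy : 0 ≤ y) (hy' : 0 ≤ y') (hxy : x * y ≤ 1) (hxy' : x' * y' ≤ 1) :
    Summable (fun k : ℕ => z ^ (k + 1) * (kf x y (k + 1) * kf x' y' (k + 1))) ∧ 1 ≤ LS z x y x' y' := by
  have hsum := b2_summable hz hzu hx hxu hx' hxu' hu hy hy' hxy hxy'
  obtain ⟨C, _, hC⟩ := b2_S
  exact ⟨hsum, (hC z x y x' y' u hz hzu hx hxu hx' hxu' hu hy hy' hxy hxy').1⟩

theorem EG_log : ∃ C : ℝ, 0 < C ∧ ∀ z x y x' y' u : ℝ, 0 ≤ z → z ≤ u → 0 ≤ x → x ≤ u → 0 ≤ x' → x' ≤ u → u ≤ 1 / 2 →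
    0 ≤ y → 0 ≤ y' → x * y ≤ 1 → x' * y' ≤ 1 →
      0 < EG z x y x' y' ∧ |Real.log (EG z x y x' y')| ≤ C * u ^ 2 := by
  obtain ⟨C, hC, hS⟩ := b2_S
  set C2 : ℝ := 9 / 4 + C / 2 with hC2
  refine ⟨5 + (C + C2 ^ 2 / 2), by positivity, ?_⟩
  intro z x y x' y' u hz hzu hx hxu hx' hxu' hu hy hy' hxy hxy'
  obtain ⟨hLS, hmain⟩ := hS z x y x' y' u hz hzu hx hxu hx' hxu' hu hy hy' hxy hxy'
  have hu0 : 0 ≤ u := hz.trans hzu
  set w := x * y with hw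
  set w' := x' * y' with hw'
  have hw0 : 0 ≤ w := mul_nonneg hx hy
  have hw0' : 0 ≤ w' := mul_nonneg hx' hy'
  have hzw0 : 0 ≤ z * w := mul_nonneg hz hw0
  have hzw0' : 0 ≤ z * w' := mul_nonneg hz hw0'
  have hzww0 : 0 ≤ z * (w * w') := mul_nonneg hz (mul_nonneg hw0 hw0')
  have hzw : z * w ≤ u := (mul_le_of_le_one_right hz hxy).trans hzu
  have hzw' : z * w' ≤ u := (mul_le_of_le_one_right hz hxy').trans hzu
  have hww : w * w' ≤ 1 := mul_le_one₀ hxy hw0' hxy'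
  have hzww : z * (w * w') ≤ u := (mul_le_of_le_one_right hz hww).trans hzu
  have g1 := b2_log hz hzu hu
  have g2 := b2_log hzw0 hzw hu
  have g3 := b2_log hzw0' hzw' hu
  have g4 := b2_log hzww0 hzww hu
  have p1 : 0 < 1 - z := by linarith
  have p2 : 0 < 1 - z * w := by linarith
  have p3 : 0 < 1 - z * w' := by linarith
  have p4 : 0 < 1 - z * (w * w') := by linarith
  have q2 : 0 < (1 - z * w) ^ (1 / 2 : ℝ) := Real.rpow_pos_of_pos p2 _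
  have q3 : 0 < (1 - z * w') ^ (1 / 2 : ℝ) := Real.rpow_pos_of_pos p3 _
  have q4 : 0 < (1 - z * (w * w')) ^ (1 / 4 : ℝ) := Real.rpow_pos_of_pos p4 _
  have q5 : 0 < LS z x y x' y' := by linarith
  have hEG : EG z x y x' y' = (1 - z) * (1 - z * w) ^ (1 / 2 : ℝ) * (1 - z * w') ^ (1 / 2 : ℝ) *
    (1 - z * (w * w')) ^ (1 / 4 : ℝ) * LS z x y x' y' := rfl
  have hpos : 0 < EG z x y x' y' := by
    rw [hEG]
    positivity
  refine ⟨hpos, ?_⟩
  have hlog : Real.log (EG z x y x' y') = Real.log (1 - z) + 1 / 2 * Real.log (1 - z * w) +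
      1 / 2 * Real.log (1 - z * w') + 1 / 4 * Real.log (1 - z * (w * w')) + Real.log (LS z x y x' y') := by
    rw [hEG, Real.log_mul (by positivity) q5.ne', Real.log_mul (by positivity) q4.ne',
      Real.log_mul (by positivity) q3.ne', Real.log_mul p1.ne' q2.ne', Real.log_rpow p2, Real.log_rpow p3,
      Real.log_rpow p4]
  set S := LS z x y x' y' - 1 with hSdef
  have hS0 : 0 ≤ S := by linarith
  have hLS1 : LS z x y x' y' = 1 + S := by rw [hSdef]; ring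
  obtain ⟨l1, l2⟩ := b2_log1 hS0
  have hQ0 : 0 ≤ z * ((1 + w / 2) * (1 + w' / 2)) := by positivity
  have hQ1 : z * ((1 + w / 2) * (1 + w' / 2)) ≤ 9 / 4 * u := by
    calc z * ((1 + w / 2) * (1 + w' / 2)) ≤ u * ((3 / 2) * (3 / 2)) := by
          refine mul_le_mul hzu ?_ (by positivity) hu0
          exact mul_le_mul (by linarith) (by linarith) (by positivity) (by norm_num)
      _ = 9 / 4 * u := by ring
  rw [abs_le] at hmain
  have hS1 : S ≤ C2 * u := by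
    have h1 : C * u ^ 2 ≤ C / 2 * u := by
      have : u ^ 2 ≤ 1 / 2 * u := by nlinarith
      nlinarith
    rw [hC2]
    linarith [hmain.2]
  have hS2 : S ^ 2 ≤ C2 ^ 2 * u ^ 2 := by
    rw [← mul_pow]
    exact pow_le_pow_left₀ hS0 hS1 2
  rw [hlog, hLS1]
  have e : Real.log (1 - z) + 1 / 2 * Real.log (1 - z * w) +
      1 / 2 * Real.log (1 - z * w') + 1 / 4 * Real.log (1 - z * (w * w')) + Real.log (1 + S) =
      (Real.log (1 - z) + z) + 1 / 2 * (Real.log (1 - z * w) + z * w) +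
      1 / 2 * (Real.log (1 - z * w') + z * w') + 1 / 4 * (Real.log (1 - z * (w * w')) + z * (w * w')) +
      (Real.log (1 + S) - S) + (S - z * ((1 + w / 2) * (1 + w' / 2))) := by ring
  rw [e]
  have hu2 : 0 ≤ u ^ 2 := sq_nonneg u
  rw [abs_le] at g1 g2 g3 g4 ⊢
  constructor
  · linarith [g1.1, g2.1, g3.1, g4.1, hmain.1]
  · linarith [g1.2, g2.2, g3.2, g4.2, hmain.2, mul_nonneg (sq_nonneg C2) hu2]

end Pool.Agent.LibFM89
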