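import Pool.Agent.LibFM89.B1

/-! # FM89 B3: the arithmetic factor is that of d_{5/2} (MEDIUM, elementary series)

PLAN.  Put `h_j = dcoef (1/2) j ≥ 0`, `0 < u ≤ 1/2`.  `x = u`, `y = 1/u`: `x^j y^(min j k) = u^(j-k)` (natural subtraction), so
`AA u u⁻¹ k = A_k := ∑_j h_j u^(j-k)`, `A_0 = (1-u)^(-1/2)`.
With `LS = 1 + (1-u) ∑_{k≥1} u^k (1-u) A_k²` the claim is `(1-u)^(9/4) LS = (1-u)^(25/4) Gsum (5/2) u`
(note `(1-u)(1-u·1)^(1/2)(1-u·1)^(1/2)(1-u)^(1/4) = (1-u)^(9/4)` since `x y = 1`), i.e.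
(*) `(1-u)² ∑_k c_k² u^k = (1-u)^(-2) LS = A_0²/(1-u) + ∑_{k≥1} u^k A_k²`, `c_k = dcoef (5/2) k`.
Both sides of (*) are equal to `∑_{l,l'} h_l h_l' u^(max l l') ((1+u)/(1-u) + |l - l'|)`:
* left: `c_k = ∑_{l ≤ k} (k-l+1) h_l` (`dcoef_add (1/2) 2`, `dcoef 2 i = i+1`), so for `l ≤ l'`, `k = l' + j`:
  `∑_j u^(l'+j) (j+1)(j+1+l'-l) = u^l' ((1+u)/(1-u)^3 + (l'-l)/(1-u)^2)`.
* right: for `l ≤ l'`: `∑_{k≥0} u^k u^((l-k)) u^((l'-k))` (natural subtractions) `= u^l' (u + ... + u^l) + (l'-l) u^l' + u^l'/(1-u)`,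
  and `A_0²/(1-u) - A_0² = u/(1-u) ∑ h_l h_l' u^(l+l')`; the sum is `u^l' (u/(1-u) + (l'-l) + 1/(1-u))`.
All terms are nonnegative: interchange with `Summable.tsum_comm`/`ENNReal` or `HasSum` (all families are bounded by
`h_l h_l' u^(max l l') (k+1)² ...`; `h_l ≤ 1`). -/

set_option autoImplicit false

namespace Pool.Agent.LibFM89

open MeasureTheory Set Filter Topology Complex ProbabilityTheory
open scoped NNReal ComplexConjugate
open Pool.Agent.LibZM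
open Pool.Agent.LibSM47 (gam ch idx)

private lemma b3_xy {u : ℝ} (hu0 : 0 < u) : u * u⁻¹ = 1 := mul_inv_cancel₀ hu0.ne'

/-- `H_k = ∑_(j ≤ k) h_j`. -/
private lemma b3_H (k : ℕ) : ∑ j ∈ Finset.range (k + 1), dcoef (1 / 2) j = dcoef (3 / 2) k := by
  have h := dcoef_add (1 / 2) 1 k
  simp only [dcoef_one_left, mul_one] at h
  rw [h]
  norm_num

/-- `c_(k+1) = c_k + H_(k+1)`. -/
private lemma b3_c (k : ℕ) : dcoef (5 / 2) (k + 1) = dcoef (5 / 2) k + dcoef (3 / 2) (k + 1) := by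
  have h : ∀ k, ∑ j ∈ Finset.range (k + 1), dcoef (3 / 2) j = dcoef (5 / 2) k := by
    intro k
    have h := dcoef_add (3 / 2) 1 k
    simp only [dcoef_one_left, mul_one] at h
    rw [h]
    norm_num
  rw [← h (k + 1), ← h k, Finset.sum_range_succ _ (k + 1)]

/-- `A_k - u A_(k+1) = (1-u) H_k`. -/
private lemma b3_rec {u : ℝ} (hu0 : 0 < u) (hu : u ≤ 1 / 2) (k : ℕ) :
    AA u u⁻¹ k - u * AA u u⁻¹ (k + 1) = (1 - u) * dcoef (3 / 2) k := by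
  have hs := AA_summable hu0.le le_rfl hu (inv_nonneg.2 hu0.le) (b3_xy hu0).le
  unfold AA
  rw [← tsum_mul_left, ← (hs k).tsum_sub ((hs (k + 1)).mul_left u), ← b3_H, Finset.mul_sum]
  rw [tsum_eq_sum (s := Finset.range (k + 1))]
  · refine Finset.sum_congr rfl fun j hj => ?_
    have hj' : j ≤ k := by
      have := Finset.mem_range.1 hj
      omega
    rw [min_eq_left hj', min_eq_left (by omega)]
    have e : u ^ j * (u⁻¹) ^ j = 1 := by rw [← mul_pow, b3_xy hu0, one_pow]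
    linear_combination (dcoef (1 / 2) j * (1 - u)) * e
  · intro j hj
    have hj' : k + 1 ≤ j := by
      by_contra h
      exact hj (Finset.mem_range.2 (by omega))
    rw [min_eq_right (by omega), min_eq_right hj', pow_succ]
    have e := b3_xy hu0
    linear_combination (-(dcoef (1 / 2) j * u ^ j * u⁻¹ ^ k)) * e

/-- the telescoping quantity -/
private noncomputable def b3G (u : ℝ) (k : ℕ) : ℝ :=
  u ^ k * (-((1 - u) * (dcoef (5 / 2) k - dcoef (3 / 2) k) ^ 2) -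
    2 * (dcoef (5 / 2) k - dcoef (3 / 2) k) * AA u u⁻¹ k - u / (1 - u) * AA u u⁻¹ k ^ 2)

private lemma b3_tel {u : ℝ} (hu0 : 0 < u) (hu : u ≤ 1 / 2) (k : ℕ) :
    u ^ k * AA u u⁻¹ k ^ 2 - (1 - u) ^ 2 * (dcoef (5 / 2) k ^ 2 * u ^ k) = b3G u k - b3G u (k + 1) := by
  have h1 : (1 - u) ≠ 0 := by linarith
  have hr := b3_rec hu0 hu k
  unfold b3G
  rw [b3_c k, pow_succ]
  have hH : dcoef (3 / 2) k = (AA u u⁻¹ k - u * AA u u⁻¹ (k + 1)) / (1 - u) := by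
    rw [hr]
    field_simp
  rw [hH]
  field_simp
  ring

private lemma b3_sA {u : ℝ} (hu0 : 0 < u) (hu : u ≤ 1 / 2) :
    Summable fun k : ℕ => u ^ k * AA u u⁻¹ k ^ 2 := by
  have h1 : Summable fun k : ℕ => ((k : ℝ) ^ 2 * u ^ k) :=
    summable_pow_mul_geometric_of_norm_lt_one 2 (by rw [Real.norm_eq_abs, abs_of_pos hu0]; linarith)
  have h2 : Summable fun k : ℕ => u ^ k := summable_geometric_of_lt_one hu0.le (by linarith)
  refine Summable.of_nonneg_of_le (fun k => by positivity) (fun k => ?_)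
    ((h1.mul_left 2).add (h2.mul_left 8))
  obtain ⟨a1, a2⟩ := AA_bounds hu0.le le_rfl hu (inv_nonneg.2 hu0.le) (b3_xy hu0).le k
  have h3 : AA u u⁻¹ k ^ 2 ≤ 2 * (k : ℝ) ^ 2 + 8 := by nlinarith [sq_nonneg ((k : ℝ) - 2)]
  have h4 := mul_le_mul_of_nonneg_left h3 (pow_nonneg hu0.le k)
  nlinarith [h4]

private lemma b3_G0 {u : ℝ} (hu0 : 0 < u) (hu : u ≤ 1 / 2) :
    Tendsto (b3G u) atTop (𝓝 0) := by
  have h1 := (b3_sA hu0 hu).tendsto_atTop_zero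
  have h2 := (summable_G (κ := 5 / 2) (by norm_num) hu0.le (by linarith : u < 1)).tendsto_atTop_zero
  have hlt : ∀ k, 0 ≤ dcoef (5 / 2) k - dcoef (3 / 2) k ∧
      dcoef (5 / 2) k - dcoef (3 / 2) k ≤ dcoef (5 / 2) k := by
    intro k
    have a1 := dcoef_mono (α := 3 / 2) (β := 5 / 2) (by norm_num) (by norm_num) k
    have a2 := dcoef_nonneg (α := 3 / 2) (by norm_num) k
    constructor <;> linarith
  have h3 : Tendsto (fun k : ℕ => 3 * (dcoef (5 / 2) k ^ 2 * u ^ k) + 3 * (u ^ k * AA u u⁻¹ k ^ 2))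
      atTop (𝓝 0) := by
    simpa using (h2.const_mul 3).add (h1.const_mul 3)
  refine squeeze_zero_norm (fun k => ?_) h3
  obtain ⟨c0, c1⟩ := hlt k
  obtain ⟨a1, a2⟩ := AA_bounds hu0.le le_rfl hu (inv_nonneg.2 hu0.le) (b3_xy hu0).le k
  unfold b3G
  set p := dcoef (5 / 2) k - dcoef (3 / 2) k
  set A := AA u u⁻¹ k
  set c := dcoef (5 / 2) k
  have hd0 : 0 ≤ u / (1 - u) := div_nonneg hu0.le (by linarith)
  have hd1 : u / (1 - u) ≤ 1 := by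
    rw [div_le_one (by linarith)]
    linarith
  have hpc : p ^ 2 ≤ c ^ 2 := pow_le_pow_left₀ c0 c1 2
  have hA2 : 0 ≤ A ^ 2 := sq_nonneg A
  have hp2 : 0 ≤ p ^ 2 := sq_nonneg p
  have hpA : 0 ≤ p * A := mul_nonneg c0 (by linarith)
  have e1 : |-((1 - u) * p ^ 2) - 2 * p * A - u / (1 - u) * A ^ 2| ≤ 3 * c ^ 2 + 3 * A ^ 2 := by
    rw [abs_le]
    have b1 : 0 ≤ (1 - u) * p ^ 2 := mul_nonneg (by linarith) hp2
    have b2 : (1 - u) * p ^ 2 ≤ 1 * p ^ 2 := mul_le_mul_of_nonneg_right (by linarith) hp2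
    have b3 : 0 ≤ u / (1 - u) * A ^ 2 := mul_nonneg hd0 hA2
    have b4 : u / (1 - u) * A ^ 2 ≤ 1 * A ^ 2 := mul_le_mul_of_nonneg_right hd1 hA2
    have b5 : 2 * p * A ≤ p ^ 2 + A ^ 2 := two_mul_le_add_sq p A
    constructor <;> nlinarith
  rw [Real.norm_eq_abs, abs_mul, abs_of_nonneg (pow_nonneg hu0.le k)]
  have e2 := mul_le_mul_of_nonneg_left e1 (pow_nonneg hu0.le k)
  nlinarith [e2]

/-- the Parseval identity -/
private lemma b3_main {u : ℝ} (hu0 : 0 < u) (hu : u ≤ 1 / 2) :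
    ∑' k : ℕ, u ^ k * AA u u⁻¹ k ^ 2 + u / (1 - u) * AA u u⁻¹ 0 ^ 2 = (1 - u) ^ 2 * Gsum (5 / 2) u := by
  have h1 := (b3_sA hu0 hu).hasSum.tendsto_sum_nat
  have h2 := ((summable_G (κ := 5 / 2) (by norm_num) hu0.le (by linarith : u < 1)).mul_left
    ((1 - u) ^ 2)).hasSum.tendsto_sum_nat
  have h3 := h1.sub h2
  have h4 : ∀ N, ∑ k ∈ Finset.range N, u ^ k * AA u u⁻¹ k ^ 2 -
      ∑ k ∈ Finset.range N, (1 - u) ^ 2 * (dcoef (5 / 2) k ^ 2 * u ^ k) = b3G u 0 - b3G u N := by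
    intro N
    rw [← Finset.sum_sub_distrib, Finset.sum_congr rfl fun k _ => b3_tel hu0 hu k]
    exact Finset.sum_range_sub' (b3G u) N
  have h5 : Tendsto (fun N => b3G u 0 - b3G u N) atTop (𝓝 (b3G u 0 - 0)) :=
    (tendsto_const_nhds).sub (b3_G0 hu0 hu)
  have h6 := tendsto_nhds_unique (h3.congr h4) h5
  rw [tsum_mul_left] at h6
  have h7 : b3G u 0 = -(u / (1 - u) * AA u u⁻¹ 0 ^ 2) := by
    unfold b3G
    simp
  have h8 : Gsum (5 / 2) u = ∑' a : ℕ, dcoef (5 / 2) a ^ 2 * u ^ a := rfl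
  rw [h8]
  linarith

theorem Gsum_five_half {u : ℝ} (hu0 : 0 < u) (hu : u ≤ 1 / 2) :
    (1 - u) ^ 4 * Gsum (5 / 2) u = LS u u u⁻¹ u u⁻¹ := by
  have h1 : 0 < 1 - u := by linarith
  have hk : ∀ k, kf u u⁻¹ k * kf u u⁻¹ k = (1 - u) * AA u u⁻¹ k ^ 2 := by
    intro k
    unfold kf
    have e : (1 - u) ^ (1 / 2 : ℝ) * (1 - u) ^ (1 / 2 : ℝ) = 1 - u := by
      rw [← Real.rpow_add h1]
      norm_num
    linear_combination (AA u u⁻¹ k ^ 2) * e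
  have hA0 : AA u u⁻¹ 0 ^ 2 = (1 - u)⁻¹ := by
    rw [AA_zero hu0.le hu, ← Real.rpow_natCast, ← Real.rpow_mul h1.le, ← Real.rpow_neg_one]
    norm_num
  have hm := b3_main hu0 hu
  rw [(b3_sA hu0 hu).tsum_eq_zero_add] at hm
  unfold LS
  have e1 : ∀ k : ℕ, u ^ (k + 1) * (kf u u⁻¹ (k + 1) * kf u u⁻¹ (k + 1)) =
      (1 - u) * (u ^ (k + 1) * AA u u⁻¹ (k + 1) ^ 2) := by
    intro k
    rw [hk]
    ring
  rw [tsum_congr e1, tsum_mul_left]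
  simp only [pow_zero, one_mul, hA0] at hm
  set S := ∑' b : ℕ, u ^ (b + 1) * AA u u⁻¹ (b + 1) ^ 2
  have e2 : (1 - u) ^ 4 * Gsum (5 / 2) u = (1 - u) ^ 2 * ((1 - u) ^ 2 * Gsum (5 / 2) u) := by ring
  rw [e2, ← hm]
  field_simp
  ring

theorem EG_diag {u : ℝ} (hu0 : 0 < u) (hu : u ≤ 1 / 2) : EG u u u⁻¹ u u⁻¹ = Efac (5 / 2) u := by
  have h1 : 0 < 1 - u := by linarith
  unfold EG Efac
  rw [← Gsum_five_half hu0 hu, b3_xy hu0]
  simp only [mul_one]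
  have e : (1 - u) ^ ((5 / 2 : ℝ) ^ 2) =
      (1 - u) ^ (1 : ℝ) * (1 - u) ^ (1 / 2 : ℝ) * (1 - u) ^ (1 / 2 : ℝ) * (1 - u) ^ (1 / 4 : ℝ) *
        (1 - u) ^ (4 : ℝ) := by
    rw [← Real.rpow_add h1, ← Real.rpow_add h1, ← Real.rpow_add h1, ← Real.rpow_add h1]
    norm_num
  have e4 : (1 - u) ^ (4 : ℝ) = (1 - u) ^ 4 := by
    rw [← Real.rpow_natCast]
    norm_num
  rw [e, e4, Real.rpow_one]
  ring

end Pool.Agent.LibFM89
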