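import Pool.Agent.LibFM89.B1

/-! # FM89 B4: the sum over l for fixed m (MEDIUM/STRONG)

PLAN.  Template: `LibZM.hasProd_Lp` (MK3) and `LibZM.hasProd_Zt_rpow`.  For fixed `m ≥ 1` the function
`f(l) = tau (1/2) l (l,m)^(1-τ) l^(-1-σ)` (`l ≥ 1`, `f 0 = 0`) is multiplicative in `l`: `Nat.Coprime.gcd_mul` (`gcd (l l') m =
gcd l m * gcd l' m`), `tau_isMultiplicative`, `Real.mul_rpow`.  Summable: `(l,m) ≤ m` (for `τ ≥ 1`: `(l,m)^(1-τ) ≤ 1`), `0 ≤ tau (1/2) ≤ 1`, `1 + σ > 1`.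
`EulerProduct.eulerProduct_hasProd`: `∑ f = ∏_p ∑_j f(p^j)`; `gcd (p^j) m = p^(min j v)`, `v = m.factorization p` (`Nat.gcd` of a prime
power: `Nat.Prime`... e.g. `(Nat.factorization_gcd)` or write `m = p^v m'`), so the local factor is `AA x y v` with
`x = p^(-(1+σ))`, `y = p^(1-τ)`, and `AA x y v = (1-x)^(-1/2) kf x y v`, `kf x y 0 = 1` (B1).  `∏_p (1-x)^(-1/2) = Zt(1+σ)^(1/2)`
(`hasProd_Zt_rpow` with `w = -1/2`), and `∏_p kf = ∏_{p ∣ m} kf` (finite: `hasProd_prod_of_ne_finset_one`; primes `p ∣ m` as a finset of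
`Nat.Primes`), `HasProd.mul`, uniqueness.  The sum over `ℕ+`: `tsum_pnat_eq_tsum_of...`/`hasSum_pnat` as in LibSM47/F_03.lean. -/

set_option autoImplicit false

namespace Pool.Agent.LibFM89

open MeasureTheory Set Filter Topology Complex ProbabilityTheory
open scoped NNReal ComplexConjugate
open Pool.Agent.LibZM
open Pool.Agent.LibSM47 (gam ch idx)

private noncomputable def B4_f (σ τ : ℝ) (m : ℕ) (l : ℕ) : ℝ :=
  tau (1 / 2) l * (Nat.gcd l m : ℝ) ^ (1 - τ) * (l : ℝ) ^ (-(1 + σ))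

private lemma B4_tau_le (n : ℕ) : tau (1 / 2) n ≤ 1 := by
  rcases Nat.eq_zero_or_pos n with rfl | hn
  · simp
  · have h := tau_mono (α := 1 / 2) (β := 1) (by norm_num) (by norm_num) n
    rwa [tau_one_apply hn.ne'] at h

private lemma B4_f_zero (σ τ : ℝ) (m : ℕ) : B4_f σ τ m 0 = 0 := by
  simp [B4_f]

private lemma B4_f_nonneg (σ τ : ℝ) (m l : ℕ) : 0 ≤ B4_f σ τ m l := by
  have h := tau_nonneg (α := 1 / 2) (by norm_num) l
  unfold B4_f
  positivity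

private lemma B4_f_le (σ τ : ℝ) {m : ℕ} (hm : 1 ≤ m) (l : ℕ) :
    B4_f σ τ m l ≤ (m : ℝ) ^ |1 - τ| * (l : ℝ) ^ (-(1 + σ)) := by
  unfold B4_f
  have h := tau_nonneg (α := 1 / 2) (by norm_num) l
  have h1 := B4_tau_le l
  have hg0 : 1 ≤ Nat.gcd l m := Nat.gcd_pos_of_pos_right l hm
  have hg1 : (1 : ℝ) ≤ (Nat.gcd l m : ℝ) := by exact_mod_cast hg0
  have hg2 : (Nat.gcd l m : ℝ) ≤ m := by exact_mod_cast Nat.gcd_le_right l hm
  have h2 : (Nat.gcd l m : ℝ) ^ (1 - τ) ≤ (m : ℝ) ^ |1 - τ| :=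
    (Real.rpow_le_rpow_of_exponent_le hg1 (le_abs_self _)).trans
      (Real.rpow_le_rpow (by linarith) hg2 (abs_nonneg _))
  have h3 : (0 : ℝ) ≤ (Nat.gcd l m : ℝ) ^ (1 - τ) := by positivity
  refine mul_le_mul_of_nonneg_right ?_ (by positivity)
  calc tau (1 / 2) l * (Nat.gcd l m : ℝ) ^ (1 - τ) ≤ 1 * (Nat.gcd l m : ℝ) ^ (1 - τ) :=
        mul_le_mul_of_nonneg_right h1 h3
    _ ≤ _ := by rw [one_mul]; exact h2

private lemma B4_f_summable {σ τ : ℝ} (hσ : 0 < σ) {m : ℕ} (hm : 1 ≤ m) : Summable (B4_f σ τ m) := by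
  refine Summable.of_nonneg_of_le (B4_f_nonneg σ τ m) (B4_f_le σ τ hm) ?_
  exact (summable_nat_rpow_neg (by linarith : 1 < 1 + σ)).mul_left _

private lemma B4_f_mul (σ τ : ℝ) (m : ℕ) {a b : ℕ} (hab : Nat.Coprime a b) :
    B4_f σ τ m (a * b) = B4_f σ τ m a * B4_f σ τ m b := by
  unfold B4_f
  have hg : Nat.gcd (a * b) m = Nat.gcd a m * Nat.gcd b m := by
    rw [Nat.gcd_comm (a * b) m, hab.gcd_mul m, Nat.gcd_comm m a, Nat.gcd_comm m b]
  rw [(tau_isMultiplicative (1 / 2)).map_mul_of_coprime hab, hg]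
  push_cast
  rw [Real.mul_rpow (Nat.cast_nonneg _) (Nat.cast_nonneg _),
    Real.mul_rpow (Nat.cast_nonneg _) (Nat.cast_nonneg _)]
  ring

private lemma B4_gcd {p m : ℕ} (hp : p.Prime) (hm : 1 ≤ m) (j : ℕ) :
    Nat.gcd (p ^ j) m = p ^ (min j (m.factorization p)) := by
  obtain ⟨k, hk, hk2⟩ := (Nat.dvd_prime_pow hp).1 (Nat.gcd_dvd_left (p ^ j) m)
  rw [hk2]
  congr 1
  apply le_antisymm
  · refine le_min hk ?_
    have h1 : p ^ k ∣ m := hk2 ▸ Nat.gcd_dvd_right (p ^ j) m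
    exact (hp.pow_dvd_iff_le_factorization (by omega)).1 h1
  · have h1 : p ^ (min j (m.factorization p)) ∣ Nat.gcd (p ^ j) m := by
      refine Nat.dvd_gcd (pow_dvd_pow p (min_le_left _ _)) ?_
      exact (hp.pow_dvd_iff_le_factorization (by omega)).2 (min_le_right _ _)
    rw [hk2] at h1
    exact (Nat.pow_dvd_pow_iff_le_right hp.one_lt).1 h1

private lemma B4_local {σ τ : ℝ} {m : ℕ} (hm : 1 ≤ m) {p : ℕ} (hp : p.Prime) :
    ∑' j : ℕ, B4_f σ τ m (p ^ j) = AA ((p : ℝ) ^ (-(1 + σ))) ((p : ℝ) ^ (1 - τ)) (m.factorization p) := by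
  unfold AA B4_f
  refine tsum_congr fun j => ?_
  rw [tau_prime_pow _ hp, B4_gcd hp hm]
  push_cast
  have hp0 : (0 : ℝ) ≤ p := Nat.cast_nonneg p
  have e1 : ((p : ℝ) ^ (min j (m.factorization p))) ^ (1 - τ) = ((p : ℝ) ^ (1 - τ)) ^ (min j (m.factorization p)) := by
    rw [← Real.rpow_natCast, ← Real.rpow_natCast, ← Real.rpow_mul hp0, ← Real.rpow_mul hp0, mul_comm]
  have e2 : ((p : ℝ) ^ j) ^ (-(1 + σ)) = ((p : ℝ) ^ (-(1 + σ))) ^ j := by
    rw [← Real.rpow_natCast, ← Real.rpow_natCast, ← Real.rpow_mul hp0, ← Real.rpow_mul hp0, mul_comm]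
  rw [e1, e2]
  ring

theorem Kg_eq {σ τ : ℝ} (hσ : 0 < σ) (hτ : 0 < τ) {m : ℕ} (hm : 1 ≤ m) :
    Summable (fun l : ℕ+ => tau (1 / 2) l * (Nat.gcd l m : ℝ) ^ (1 - τ) * (l : ℝ) ^ (-(1 + σ))) ∧
    Kg σ τ m = Zt (1 + σ) ^ (1 / 2 : ℝ) *
      ∏ p ∈ m.primeFactors, kf ((p : ℝ) ^ (-(1 + σ))) ((p : ℝ) ^ (1 - τ)) (m.factorization p) := by
  have hS := B4_f_summable (τ := τ) hσ hm
  have hinj : Function.Injective ((↑) : ℕ+ → ℕ) := PNat.coe_injective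
  have hσ1 : 1 < 1 + σ := by linarith
  refine ⟨hS.comp_injective hinj, ?_⟩
  have hK : Kg σ τ m = ∑' n : ℕ, B4_f σ τ m n := by
    refine hinj.tsum_eq (f := B4_f σ τ m) ?_
    intro n hn
    rcases Nat.eq_zero_or_pos n with rfl | h
    · exact absurd (B4_f_zero σ τ m) hn
    · exact ⟨⟨n, h⟩, rfl⟩
  have hE : HasProd (fun p : Nat.Primes => ∑' j : ℕ, B4_f σ τ m ((p : ℕ) ^ j)) (∑' n : ℕ, B4_f σ τ m n) := by
    refine EulerProduct.eulerProduct_hasProd (R := ℝ) (f := B4_f σ τ m) ?_ ?_ hS.norm (B4_f_zero σ τ m)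
    · unfold B4_f
      rw [(tau_isMultiplicative (1 / 2)).map_one]
      simp
    · intro a b hab
      exact B4_f_mul σ τ m hab
  have hZ := hasProd_Zt_rpow hσ1 (-(1 / 2))
  rw [neg_neg] at hZ
  have hpi : Function.Injective (fun p : Nat.Primes => (p : ℕ)) := Nat.Primes.coe_nat_injective
  have hk : HasProd (fun p : Nat.Primes => kf ((p : ℝ) ^ (-(1 + σ))) ((p : ℝ) ^ (1 - τ)) (m.factorization p))
      (∏ p ∈ m.primeFactors.preimage (fun p : Nat.Primes => (p : ℕ)) hpi.injOn,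
        kf ((p : ℝ) ^ (-(1 + σ))) ((p : ℝ) ^ (1 - τ)) (m.factorization p)) := by
    refine hasProd_prod_of_ne_finset_one (fun p hp => ?_)
    have hv : m.factorization (p : ℕ) = 0 := by
      rw [Finset.mem_preimage] at hp
      rw [← Finsupp.notMem_support_iff, Nat.support_factorization]
      exact hp
    obtain ⟨h0, h1, _⟩ := prime_rpow_mem hσ1.le p
    rw [hv]
    exact kf_zero h0.le h1
  rw [Finset.prod_preimage (fun p : Nat.Primes => (p : ℕ)) m.primeFactors hpi.injOn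
    (fun p : ℕ => kf ((p : ℝ) ^ (-(1 + σ))) ((p : ℝ) ^ (1 - τ)) (m.factorization p))
    (fun p hp hp2 => absurd ⟨(⟨p, Nat.prime_of_mem_primeFactors hp⟩ : Nat.Primes), rfl⟩ hp2)] at hk
  have hP := hZ.mul hk
  have e : (fun p : Nat.Primes => (1 - (p : ℝ) ^ (-(1 + σ))) ^ (-(1 / 2) : ℝ) *
      kf ((p : ℝ) ^ (-(1 + σ))) ((p : ℝ) ^ (1 - τ)) (m.factorization p)) =
      fun p : Nat.Primes => ∑' j : ℕ, B4_f σ τ m ((p : ℕ) ^ j) := by
    funext p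
    obtain ⟨h0, h1, _⟩ := prime_rpow_mem hσ1.le p
    rw [B4_local hm p.prop]
    unfold kf
    rw [← mul_assoc, ← Real.rpow_add (by linarith)]
    simp
  rw [e] at hP
  rw [hK]
  exact hE.unique hP

end Pool.Agent.LibFM89
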