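import Pool.Agent.LibFM89.B2

/-! # FM89 B4b: limit of the local factors (MEDIUM)

PLAN.  Template: `LibZM.tendsto_Ef`, `LibZM.tendsto_pw` (MK3).  `u = 1/p ≤ 1/2`.  As `δ → 0+`: `z, x, x' → u`, `y, y' → p = u⁻¹`, with
`0 < z, x, x' ≤ u`, `x y ≤ 1`, `x' y' ≤ 1`.  `AA x y k → AA u u⁻¹ k` by `tendsto_tsum_of_dominated_convergence` with the bound
`dcoef (1/2) j x^j y^(min j k) ≤ u^(j-k)` (natural subtraction; B1), so `kf → kf`; then `LS → LS` by dominated convergence with the bound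
`u^(k+1) (k+3)²` (`kf_bounds`), and the powers `(1 - z w)^(1/2)` are continuous at positive values. -/

set_option autoImplicit false

namespace Pool.Agent.LibFM89

open MeasureTheory Set Filter Topology Complex ProbabilityTheory
open scoped NNReal ComplexConjugate
open Pool.Agent.LibZM
open Pool.Agent.LibSM47 (gam ch idx)

private theorem b4b_dcoef (j : ℕ) : 0 ≤ dcoef (1 / 2) j ∧ dcoef (1 / 2) j ≤ 1 := by
  refine ⟨dcoef_nonneg (by norm_num) j, ?_⟩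
  calc dcoef (1 / 2) j ≤ dcoef 1 j := dcoef_mono (by norm_num) (by norm_num) j
    _ = 1 := dcoef_one_left j

private theorem b4b_bound {x y u : ℝ} (hx : 0 ≤ x) (hxu : x ≤ u) (hy : 0 ≤ y) (hxy : x * y ≤ 1) (j k : ℕ) :
    ‖dcoef (1 / 2) j * x ^ j * y ^ (min j k)‖ ≤ u ^ (j - k) := by
  have hd := b4b_dcoef j
  have h1 : x ^ j * y ^ (min j k) = (x * y) ^ (min j k) * x ^ (j - k) := by
    have e : j = min j k + (j - k) := by omega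
    calc x ^ j * y ^ (min j k) = x ^ (min j k + (j - k)) * y ^ (min j k) := by rw [← e]
      _ = (x * y) ^ (min j k) * x ^ (j - k) := by
        rw [pow_add, mul_pow]
        ring
  have h0 : 0 ≤ x * y := mul_nonneg hx hy
  have h2 : (x * y) ^ (min j k) * x ^ (j - k) ≤ 1 * u ^ (j - k) :=
    mul_le_mul (pow_le_one₀ h0 hxy) (pow_le_pow_left₀ hx hxu _) (pow_nonneg hx _) zero_le_one
  have h3 : 0 ≤ (x * y) ^ (min j k) * x ^ (j - k) := by positivity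
  rw [mul_assoc, h1, Real.norm_eq_abs, abs_of_nonneg (mul_nonneg hd.1 h3)]
  calc dcoef (1 / 2) j * ((x * y) ^ (min j k) * x ^ (j - k)) ≤ 1 * ((x * y) ^ (min j k) * x ^ (j - k)) :=
        mul_le_mul_of_nonneg_right hd.2 h3
    _ = (x * y) ^ (min j k) * x ^ (j - k) := one_mul _
    _ ≤ 1 * u ^ (j - k) := h2
    _ = u ^ (j - k) := one_mul _

private theorem b4b_AA {l : Filter ℝ} {x y : ℝ → ℝ} {u v : ℝ} (hu0 : 0 ≤ u) (hu : u ≤ 1 / 2)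
    (hx : Tendsto x l (𝓝 u)) (hy : Tendsto y l (𝓝 v))
    (h : ∀ᶠ δ in l, 0 ≤ x δ ∧ x δ ≤ u ∧ 0 ≤ y δ ∧ x δ * y δ ≤ 1) (k : ℕ) :
    Tendsto (fun δ => AA (x δ) (y δ) k) l (𝓝 (AA u v k)) := by
  unfold AA
  have hsum : Summable (fun j : ℕ => u ^ (j - k)) := by
    rw [← summable_nat_add_iff k]
    simp only [Nat.add_sub_cancel]
    exact summable_geometric_of_lt_one hu0 (by linarith)
  apply tendsto_tsum_of_dominated_convergence hsum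
  · intro j
    exact ((hx.pow j).const_mul _).mul (hy.pow _)
  · filter_upwards [h] with δ hδ j
    exact b4b_bound hδ.1 hδ.2.1 hδ.2.2.1 hδ.2.2.2 j k

private theorem b4b_kf {l : Filter ℝ} {x y : ℝ → ℝ} {u v : ℝ} (hu0 : 0 ≤ u) (hu : u ≤ 1 / 2)
    (hx : Tendsto x l (𝓝 u)) (hy : Tendsto y l (𝓝 v))
    (h : ∀ᶠ δ in l, 0 ≤ x δ ∧ x δ ≤ u ∧ 0 ≤ y δ ∧ x δ * y δ ≤ 1) (k : ℕ) :
    Tendsto (fun δ => kf (x δ) (y δ) k) l (𝓝 (kf u v k)) := by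
  unfold kf
  refine Tendsto.mul ?_ (b4b_AA hu0 hu hx hy h k)
  exact (hx.const_sub 1).rpow_const (Or.inr (by norm_num))

private theorem b4b_summable {u : ℝ} (hu0 : 0 < u) (hu : u ≤ 1 / 2) :
    Summable (fun k : ℕ => u ^ (k + 1) * ((k : ℝ) + 3) ^ 2) := by
  have h1 : Summable (fun n : ℕ => (n : ℝ) ^ 2 * u ^ n) :=
    summable_pow_mul_geometric_of_norm_lt_one 2 (by rw [Real.norm_eq_abs, abs_of_pos hu0]; linarith)
  have h2 := (summable_nat_add_iff 3).2 h1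
  have h3 := h2.mul_left (u⁻¹ ^ 2)
  refine h3.congr fun k => ?_
  push_cast
  rw [pow_add u k 3, pow_add u k 1]
  field_simp

private theorem b4b_LS {l : Filter ℝ} {z x y x' y' : ℝ → ℝ} {u v v' : ℝ} (hu0 : 0 < u) (hu : u ≤ 1 / 2)
    (hz : Tendsto z l (𝓝 u)) (hzl : ∀ᶠ δ in l, 0 ≤ z δ ∧ z δ ≤ u)
    (hx : Tendsto x l (𝓝 u)) (hy : Tendsto y l (𝓝 v))
    (h : ∀ᶠ δ in l, 0 ≤ x δ ∧ x δ ≤ u ∧ 0 ≤ y δ ∧ x δ * y δ ≤ 1)
    (hx' : Tendsto x' l (𝓝 u)) (hy' : Tendsto y' l (𝓝 v'))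
    (h' : ∀ᶠ δ in l, 0 ≤ x' δ ∧ x' δ ≤ u ∧ 0 ≤ y' δ ∧ x' δ * y' δ ≤ 1) :
    Tendsto (fun δ => LS (z δ) (x δ) (y δ) (x' δ) (y' δ)) l (𝓝 (LS u u v u v')) := by
  unfold LS
  refine Tendsto.const_add 1 (Tendsto.mul (hz.const_sub 1) ?_)
  apply tendsto_tsum_of_dominated_convergence (b4b_summable hu0 hu)
  · intro k
    exact (hz.pow _).mul ((b4b_kf hu0.le hu hx hy h (k + 1)).mul (b4b_kf hu0.le hu hx' hy' h' (k + 1)))
  · filter_upwards [hzl, h, h'] with δ hzδ hδ hδ' k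
    have h1 := kf_bounds hδ.1 hδ.2.1 hu hδ.2.2.1 hδ.2.2.2 (k + 1)
    have h2 := kf_bounds hδ'.1 hδ'.2.1 hu hδ'.2.2.1 hδ'.2.2.2 (k + 1)
    push_cast at h1 h2
    have h3 : 0 ≤ z δ ^ (k + 1) * (kf (x δ) (y δ) (k + 1) * kf (x' δ) (y' δ) (k + 1)) :=
      mul_nonneg (pow_nonneg hzδ.1 _) (mul_nonneg h1.1.le h2.1.le)
    rw [Real.norm_eq_abs, abs_of_nonneg h3]
    have h4 : kf (x δ) (y δ) (k + 1) * kf (x' δ) (y' δ) (k + 1) ≤ ((k : ℝ) + 3) ^ 2 := by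
      have e : ((k : ℝ) + 3) ^ 2 = (((k : ℝ) + 1) + 2) * (((k : ℝ) + 1) + 2) := by ring
      rw [e]
      exact mul_le_mul h1.2 h2.2 h2.1.le (by positivity)
    exact mul_le_mul (pow_le_pow_left₀ hzδ.1 hzδ.2 _) h4 (mul_nonneg h1.1.le h2.1.le) (by positivity)

private theorem b4b_pw {p : ℕ} (hp : p.Prime) (a c : ℝ) :
    Tendsto (fun δ : ℝ => (p : ℝ) ^ (a + c * δ)) (𝓝[>] 0) (𝓝 ((p : ℝ) ^ a)) := by
  have hp0 : (0 : ℝ) < p := by exact_mod_cast hp.pos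
  have : Tendsto (fun δ : ℝ => (p : ℝ) ^ (a + c * δ)) (𝓝 0) (𝓝 ((p : ℝ) ^ (a + c * 0))) := by
    apply Continuous.tendsto
    exact Continuous.rpow continuous_const (by fun_prop) (fun _ => Or.inl hp0.ne')
  rw [mul_zero, add_zero] at this
  exact this.mono_left nhdsWithin_le_nhds

private theorem b4b_x {p : ℕ} (hp : p.Prime) (c : ℝ) :
    Tendsto (fun δ : ℝ => (p : ℝ) ^ (-(1 + c * δ))) (𝓝[>] 0) (𝓝 (p : ℝ)⁻¹) := by
  have h := b4b_pw hp (-1) (-c)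
  rw [Real.rpow_neg_one] at h
  refine h.congr fun δ => ?_
  congr 1
  ring

private theorem b4b_y {p : ℕ} (hp : p.Prime) (c : ℝ) :
    Tendsto (fun δ : ℝ => (p : ℝ) ^ (1 - c * δ)) (𝓝[>] 0) (𝓝 ((p : ℝ)⁻¹)⁻¹) := by
  have h := b4b_pw hp 1 (-c)
  rw [Real.rpow_one] at h
  rw [inv_inv]
  refine h.congr fun δ => ?_
  congr 1
  ring

private theorem b4b_ev {p : ℕ} (hp : p.Prime) {c d : ℝ} (hc : 0 < c) (hd : 0 < d) :
    ∀ᶠ δ in 𝓝[>] (0 : ℝ), 0 ≤ (p : ℝ) ^ (-(1 + c * δ)) ∧ (p : ℝ) ^ (-(1 + c * δ)) ≤ (p : ℝ)⁻¹ ∧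
      0 ≤ (p : ℝ) ^ (1 - d * δ) ∧ (p : ℝ) ^ (-(1 + c * δ)) * (p : ℝ) ^ (1 - d * δ) ≤ 1 := by
  filter_upwards [self_mem_nhdsWithin] with δ hδ
  have hδ' : (0 : ℝ) < δ := hδ
  have hp1 : (1 : ℝ) ≤ p := by exact_mod_cast hp.one_lt.le
  have hp0 : (0 : ℝ) < p := by linarith
  have hcδ := mul_pos hc hδ'
  have hdδ := mul_pos hd hδ'
  refine ⟨by positivity, ?_, by positivity, ?_⟩
  · rw [← Real.rpow_neg_one]
    exact Real.rpow_le_rpow_of_exponent_le hp1 (by linarith)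
  · rw [← Real.rpow_add hp0]
    calc (p : ℝ) ^ (-(1 + c * δ) + (1 - d * δ)) ≤ (p : ℝ) ^ (0 : ℝ) :=
          Real.rpow_le_rpow_of_exponent_le hp1 (by linarith)
      _ = 1 := Real.rpow_zero _

theorem EG_tendsto {p : ℕ} (hp : p.Prime) (s : Fin 5 → ℝ) (hs : ∀ i, 0 < s i) :
    Tendsto (fun δ : ℝ => EG ((p : ℝ) ^ (-(1 + s 0 * δ))) ((p : ℝ) ^ (-(1 + s 1 * δ))) ((p : ℝ) ^ (1 - s 3 * δ))
      ((p : ℝ) ^ (-(1 + s 2 * δ))) ((p : ℝ) ^ (1 - s 4 * δ))) (𝓝[>] 0)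
      (𝓝 (EG (p : ℝ)⁻¹ (p : ℝ)⁻¹ ((p : ℝ)⁻¹)⁻¹ (p : ℝ)⁻¹ ((p : ℝ)⁻¹)⁻¹)) := by
  have hp2 : (2 : ℝ) ≤ p := by exact_mod_cast hp.two_le
  have hp0 : (0 : ℝ) < p := by linarith
  have hu0 : (0 : ℝ) < (p : ℝ)⁻¹ := inv_pos.2 hp0
  have hu : (p : ℝ)⁻¹ ≤ 1 / 2 := by
    rw [one_div]
    exact inv_anti₀ (by norm_num) hp2
  have hz := b4b_x hp (s 0)
  have hx := b4b_x hp (s 1)
  have hx' := b4b_x hp (s 2)
  have hy := b4b_y hp (s 3)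
  have hy' := b4b_y hp (s 4)
  have hev := b4b_ev hp (hs 1) (hs 3)
  have hev' := b4b_ev hp (hs 2) (hs 4)
  have hevz : ∀ᶠ δ in 𝓝[>] (0 : ℝ), 0 ≤ (p : ℝ) ^ (-(1 + s 0 * δ)) ∧ (p : ℝ) ^ (-(1 + s 0 * δ)) ≤ (p : ℝ)⁻¹ := by
    filter_upwards [b4b_ev hp (hs 0) (hs 0)] with δ hδ
    exact ⟨hδ.1, hδ.2.1⟩
  unfold EG
  refine Tendsto.mul (Tendsto.mul (Tendsto.mul (Tendsto.mul (hz.const_sub 1) ?_) ?_) ?_) ?_
  · exact ((hz.mul (hx.mul hy)).const_sub 1).rpow_const (Or.inr (by norm_num))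
  · exact ((hz.mul (hx'.mul hy')).const_sub 1).rpow_const (Or.inr (by norm_num))
  · exact ((hz.mul ((hx.mul hy).mul (hx'.mul hy'))).const_sub 1).rpow_const (Or.inr (by norm_num))
  · exact b4b_LS hu0 hu hz hevz hx hy hev hx' hy' hev'

end Pool.Agent.LibFM89
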