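import Pool.Agent.LibFM89.B2

/-! # FM89 B5a: the multiplicative function of m (SHORT/MEDIUM)

PLAN.  Parameters `a, σ, τ, σ', τ' > 0`.  `fm 0 = 0` (`Real.zero_rpow`), `fm 1 = 1`, multiplicativity (`Nat.Coprime.primeFactors_mul`,
`Nat.factorization_mul_of_coprime`, disjoint union), prime powers, `fm ≥ 0`, and `fm m ≤ tau 9 m · m^(-(1+a))` because
`(1-z) kf kf' ≤ (k+2)² ≤ dcoef 9 k` for `k ≥ 1` (induction on `k`: `dcoef 9 (k+1) = dcoef 9 k (9+k)/(k+1)`); then `LibZM.summable_tau`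
(Asymp2 or where it is). -/

set_option autoImplicit false

namespace Pool.Agent.LibFM89

open MeasureTheory Set Filter Topology Complex ProbabilityTheory
open scoped NNReal ComplexConjugate
open Pool.Agent.LibZM
open Pool.Agent.LibSM47 (gam ch idx)

/-- the local factor -/
private noncomputable def b5a_L (a σ τ σ' τ' : ℝ) (p k : ℕ) : ℝ :=
  (1 - (p : ℝ) ^ (-(1 + a))) * (kf ((p : ℝ) ^ (-(1 + σ))) ((p : ℝ) ^ (1 - τ)) k *
      kf ((p : ℝ) ^ (-(1 + σ'))) ((p : ℝ) ^ (1 - τ')) k)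

private theorem b5a_fm (a σ τ σ' τ' : ℝ) (m : ℕ) :
    fm a σ τ σ' τ' m = (m : ℝ) ^ (-(1 + a)) * ∏ p ∈ m.primeFactors, b5a_L a σ τ σ' τ' p (m.factorization p) := rfl

private theorem b5a_xy {p : ℕ} (hp : p.Prime) {σ τ : ℝ} (hσ : 0 < σ) (hτ : 0 < τ) :
    0 ≤ (p : ℝ) ^ (-(1 + σ)) ∧ (p : ℝ) ^ (-(1 + σ)) ≤ 1 / 2 ∧ 0 ≤ (p : ℝ) ^ (1 - τ) ∧
      (p : ℝ) ^ (-(1 + σ)) * (p : ℝ) ^ (1 - τ) ≤ 1 := by
  have hp2 : (2 : ℝ) ≤ p := by exact_mod_cast hp.two_le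
  have hp1 : (1 : ℝ) ≤ p := by linarith
  have hp0 : (0 : ℝ) < p := by linarith
  refine ⟨by positivity, ?_, by positivity, ?_⟩
  · calc (p : ℝ) ^ (-(1 + σ)) ≤ (p : ℝ) ^ (-1 : ℝ) := Real.rpow_le_rpow_of_exponent_le hp1 (by linarith)
      _ = (p : ℝ)⁻¹ := Real.rpow_neg_one _
      _ ≤ 1 / 2 := by
        rw [one_div]
        exact inv_anti₀ (by norm_num) hp2
  · rw [← Real.rpow_add hp0]
    calc (p : ℝ) ^ (-(1 + σ) + (1 - τ)) ≤ (p : ℝ) ^ (0 : ℝ) :=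
          Real.rpow_le_rpow_of_exponent_le hp1 (by linarith)
      _ = 1 := Real.rpow_zero _

private theorem b5a_kf {p : ℕ} (hp : p.Prime) {σ τ : ℝ} (hσ : 0 < σ) (hτ : 0 < τ) (k : ℕ) :
    0 ≤ kf ((p : ℝ) ^ (-(1 + σ))) ((p : ℝ) ^ (1 - τ)) k ∧
      kf ((p : ℝ) ^ (-(1 + σ))) ((p : ℝ) ^ (1 - τ)) k ≤ (k : ℝ) + 2 := by
  obtain ⟨h1, h2, h3, h4⟩ := b5a_xy hp hσ hτ
  have h := kf_bounds h1 h2 le_rfl h3 h4 k
  exact ⟨h.1.le, h.2⟩

private theorem b5a_dcoef (k : ℕ) (hk : 1 ≤ k) : ((k : ℝ) + 2) ^ 2 ≤ dcoef 9 k := by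
  induction k, hk using Nat.le_induction with
  | base =>
    rw [dcoef_one_right]
    norm_num
  | succ k hk ih =>
    have h1 := dcoef_succ 9 k
    have hk0 : (0 : ℝ) ≤ k := Nat.cast_nonneg k
    have h2 : (9 + (k : ℝ)) * ((k : ℝ) + 2) ^ 2 ≤ dcoef 9 (k + 1) * ((k : ℝ) + 1) := by
      rw [h1]
      exact mul_le_mul_of_nonneg_left ih (by positivity)
    have h3 : (((k : ℝ) + 1) + 2) ^ 2 * ((k : ℝ) + 1) ≤ (9 + (k : ℝ)) * ((k : ℝ) + 2) ^ 2 := by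
      nlinarith [mul_nonneg hk0 hk0]
    push_cast
    exact le_of_mul_le_mul_right (h3.trans h2) (by positivity)

private theorem b5a_Lb {a σ τ σ' τ' : ℝ} (ha : 0 < a) (hσ : 0 < σ) (hτ : 0 < τ) (hσ' : 0 < σ') (hτ' : 0 < τ')
    {p : ℕ} (hp : p.Prime) (k : ℕ) :
    0 ≤ b5a_L a σ τ σ' τ' p k ∧ (1 ≤ k → b5a_L a σ τ σ' τ' p k ≤ dcoef 9 k) := by
  obtain ⟨h1, h2, -, -⟩ := b5a_xy hp ha ha
  have h3 := b5a_kf hp hσ hτ k
  have h4 := b5a_kf hp hσ' hτ' k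
  unfold b5a_L
  have h5 : 0 ≤ kf ((p : ℝ) ^ (-(1 + σ))) ((p : ℝ) ^ (1 - τ)) k * kf ((p : ℝ) ^ (-(1 + σ'))) ((p : ℝ) ^ (1 - τ')) k :=
    mul_nonneg h3.1 h4.1
  refine ⟨mul_nonneg (by linarith) h5, fun hk => ?_⟩
  have h6 : kf ((p : ℝ) ^ (-(1 + σ))) ((p : ℝ) ^ (1 - τ)) k * kf ((p : ℝ) ^ (-(1 + σ'))) ((p : ℝ) ^ (1 - τ')) k
      ≤ ((k : ℝ) + 2) ^ 2 := by
    rw [sq]
    exact mul_le_mul h3.2 h4.2 h4.1 (by positivity)
  calc (1 - (p : ℝ) ^ (-(1 + a))) * (kf ((p : ℝ) ^ (-(1 + σ))) ((p : ℝ) ^ (1 - τ)) k *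
        kf ((p : ℝ) ^ (-(1 + σ'))) ((p : ℝ) ^ (1 - τ')) k)
      ≤ 1 * (kf ((p : ℝ) ^ (-(1 + σ))) ((p : ℝ) ^ (1 - τ)) k *
        kf ((p : ℝ) ^ (-(1 + σ'))) ((p : ℝ) ^ (1 - τ')) k) := mul_le_mul_of_nonneg_right (by linarith) h5
    _ = kf ((p : ℝ) ^ (-(1 + σ))) ((p : ℝ) ^ (1 - τ)) k *
        kf ((p : ℝ) ^ (-(1 + σ'))) ((p : ℝ) ^ (1 - τ')) k := one_mul _
    _ ≤ ((k : ℝ) + 2) ^ 2 := h6
    _ ≤ dcoef 9 k := b5a_dcoef k hk

theorem fm_zero (a σ τ σ' τ' : ℝ) (ha : 0 < a) : fm a σ τ σ' τ' 0 = 0 := by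
  rw [b5a_fm]
  have h : ((0 : ℕ) : ℝ) ^ (-(1 + a)) = 0 := by
    rw [Nat.cast_zero]
    exact Real.zero_rpow (by linarith)
  rw [h, zero_mul]

theorem fm_one (a σ τ σ' τ' : ℝ) : fm a σ τ σ' τ' 1 = 1 := by
  rw [b5a_fm]
  simp

theorem fm_mul (a σ τ σ' τ' : ℝ) {m n : ℕ} (h : Nat.Coprime m n) : fm a σ τ σ' τ' (m * n) = fm a σ τ σ' τ' m * fm a σ τ σ' τ' n := by
  rcases Nat.eq_zero_or_pos m with hm | hm
  · have hn : n = 1 := by
      rw [hm] at h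
      exact (Nat.coprime_zero_left n).1 h
    rw [hn, fm_one, mul_one, mul_one]
  rcases Nat.eq_zero_or_pos n with hn | hn
  · have hm' : m = 1 := by
      rw [hn] at h
      exact (Nat.coprime_zero_right m).1 h
    rw [hm', fm_one, one_mul, one_mul]
  rw [b5a_fm, b5a_fm, b5a_fm, Nat.Coprime.primeFactors_mul h, Finset.prod_union h.disjoint_primeFactors]
  have h1 : ∏ p ∈ m.primeFactors, b5a_L a σ τ σ' τ' p ((m * n).factorization p) =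
      ∏ p ∈ m.primeFactors, b5a_L a σ τ σ' τ' p (m.factorization p) := by
    refine Finset.prod_congr rfl fun p hp => ?_
    have h2 : n.factorization p = 0 := by
      apply Nat.factorization_eq_zero_of_not_dvd
      intro h3
      have h4 := Finset.disjoint_left.1 h.disjoint_primeFactors hp
      exact h4 (Nat.mem_primeFactors.2 ⟨(Nat.mem_primeFactors.1 hp).1, h3, by omega⟩)
    rw [Nat.factorization_mul (by omega) (by omega), Finsupp.add_apply, h2, add_zero]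
  have h1' : ∏ p ∈ n.primeFactors, b5a_L a σ τ σ' τ' p ((m * n).factorization p) =
      ∏ p ∈ n.primeFactors, b5a_L a σ τ σ' τ' p (n.factorization p) := by
    refine Finset.prod_congr rfl fun p hp => ?_
    have h2 : m.factorization p = 0 := by
      apply Nat.factorization_eq_zero_of_not_dvd
      intro h3
      have h4 := Finset.disjoint_right.1 h.disjoint_primeFactors hp
      exact h4 (Nat.mem_primeFactors.2 ⟨(Nat.mem_primeFactors.1 hp).1, h3, by omega⟩)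
    rw [Nat.factorization_mul (by omega) (by omega), Finsupp.add_apply, h2, zero_add]
  rw [h1, h1', Nat.cast_mul, Real.mul_rpow (Nat.cast_nonneg m) (Nat.cast_nonneg n)]
  ring

theorem fm_prime_pow (a σ τ σ' τ' : ℝ) {p : ℕ} (hp : p.Prime) (k : ℕ) :
    fm a σ τ σ' τ' (p ^ (k + 1)) = ((p : ℝ) ^ (-(1 + a))) ^ (k + 1) * ((1 - (p : ℝ) ^ (-(1 + a))) *
      (kf ((p : ℝ) ^ (-(1 + σ))) ((p : ℝ) ^ (1 - τ)) (k + 1) * kf ((p : ℝ) ^ (-(1 + σ'))) ((p : ℝ) ^ (1 - τ')) (k + 1))) := by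
  rw [b5a_fm, Nat.primeFactors_prime_pow (Nat.succ_ne_zero k) hp, Finset.prod_singleton]
  have h1 : (p ^ (k + 1)).factorization p = k + 1 := by
    rw [Nat.Prime.factorization_pow hp, Finsupp.single_eq_same]
  have h2 : (((p ^ (k + 1) : ℕ)) : ℝ) ^ (-(1 + a)) = ((p : ℝ) ^ (-(1 + a))) ^ (k + 1) := by
    rw [Nat.cast_pow, ← Real.rpow_natCast, ← Real.rpow_natCast, ← Real.rpow_mul (Nat.cast_nonneg p),
      ← Real.rpow_mul (Nat.cast_nonneg p), mul_comm]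
  rw [h1, h2]
  rfl

theorem fm_summable {a σ τ σ' τ' : ℝ} (ha : 0 < a) (hσ : 0 < σ) (hτ : 0 < τ) (hσ' : 0 < σ') (hτ' : 0 < τ') :
    (∀ m, 0 ≤ fm a σ τ σ' τ' m) ∧ Summable (fm a σ τ σ' τ') := by
  have hnn : ∀ m, 0 ≤ fm a σ τ σ' τ' m := by
    intro m
    rw [b5a_fm]
    refine mul_nonneg (Real.rpow_nonneg (Nat.cast_nonneg m) _) (Finset.prod_nonneg fun p hp => ?_)
    exact (b5a_Lb ha hσ hτ hσ' hτ' (Nat.prime_of_mem_primeFactors hp) _).1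
  refine ⟨hnn, ?_⟩
  refine Summable.of_nonneg_of_le hnn (fun m => ?_) (summable_tau (α := 9) (by norm_num) (σ := 1 + a) (by linarith))
  rcases Nat.eq_zero_or_pos m with hm | hm
  · rw [hm, fm_zero a σ τ σ' τ' ha]
    exact mul_nonneg (tau_nonneg (by norm_num) _) (Real.rpow_nonneg (Nat.cast_nonneg _) _)
  rw [b5a_fm, mul_comm]
  apply mul_le_mul_of_nonneg_right _ (Real.rpow_nonneg (Nat.cast_nonneg m) _)
  rw [tau_apply (by omega)]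
  show _ ≤ ∏ p ∈ m.factorization.support, dcoef 9 (m.factorization p)
  rw [Nat.support_factorization]
  refine Finset.prod_le_prod (fun p hp => (b5a_Lb ha hσ hτ hσ' hτ' (Nat.prime_of_mem_primeFactors hp) _).1)
    fun p hp => ?_
  have hp' := Nat.mem_primeFactors.1 hp
  exact (b5a_Lb ha hσ hτ hσ' hτ' hp'.1 _).2 (hp'.1.factorization_pos_of_dvd (by omega) hp'.2.1)

/-- The local sum. -/
theorem fm_local {a σ τ σ' τ' : ℝ} (ha : 0 < a) (hσ : 0 < σ) (hτ : 0 < τ) (hσ' : 0 < σ') (hτ' : 0 < τ') {p : ℕ} (hp : p.Prime) :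
    ∑' k : ℕ, fm a σ τ σ' τ' (p ^ k) = LS ((p : ℝ) ^ (-(1 + a))) ((p : ℝ) ^ (-(1 + σ))) ((p : ℝ) ^ (1 - τ))
      ((p : ℝ) ^ (-(1 + σ'))) ((p : ℝ) ^ (1 - τ')) := by
  have hs : Summable (fun k : ℕ => fm a σ τ σ' τ' (p ^ k)) :=
    (fm_summable ha hσ hτ hσ' hτ').2.comp_injective (Nat.pow_right_injective hp.two_le)
  rw [hs.tsum_eq_zero_add, pow_zero, fm_one]
  unfold LS
  congr 1
  rw [← tsum_mul_left]
  refine tsum_congr fun k => ?_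
  rw [fm_prime_pow a σ τ σ' τ' hp k]
  ring

end Pool.Agent.LibFM89
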