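import Pool.Agent.LibFM89.B4
import Pool.Agent.LibFM89.B5a
import Pool.Agent.LibSM47.F_03

/-! # FM89 B5b: from quadruples to one variable (MEDIUM)

PLAN.  Template LibSM47/F_04.lean (`triple_eq`), LibSM47/F_03.lean (`n_sum`: the sum over `n` coprime to `m` is
`Zt (1+c) ∏_{p ∣ m} (1 - p^(-(1+c)))`, `rr c m` there).  For `q = (m,n,l₁,l₂)`
`wq q exp(-∑ s_i y_i(q)) = [(m,n)=1] m^(-1-s0) n^(-1-s0) · (tau l₁ (l₁,m)^(1-s3) l₁^(-1-s1)) · (tau l₂ (l₂,m)^(1-s4) l₂^(-1-s2))`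
(`exp(-s log l) = l^(-s)`).  All terms are `≥ 0`.  For fixed `m` the sum over `(n,l₁,l₂)` is the product of three sums
(`Summable.mul_of_nonneg`, `tsum_mul_tsum`...), equal to `m^(-1-s0) Zt(1+s0) ∏(1-p^(-1-s0)) · Kg s1 s3 m · Kg s2 s4 m =
Zt(1+s0) Zt(1+s1)^(1/2) Zt(1+s2)^(1/2) fm s0 s1 s3 s2 s4 m` (B4).  Summability over quadruples: `summable_prod_of_nonneg` with
`fm_summable`; then `Summable.tsum_prod`. -/

set_option autoImplicit false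

namespace Pool.Agent.LibFM89

open MeasureTheory Set Filter Topology Complex ProbabilityTheory
open scoped NNReal ComplexConjugate
open Pool.Agent.LibZM
open Pool.Agent.LibSM47 (gam ch idx)

private noncomputable def b5b_N (c : ℝ) (m : ℕ) (n : ℕ+) : ℝ :=
  if Nat.Coprime m n then (n : ℝ) ^ (-(1 + c)) else 0

private noncomputable def b5b_A (σ τ : ℝ) (m : ℕ) (l : ℕ+) : ℝ :=
  tau (1 / 2) l * (Nat.gcd l m : ℝ) ^ (1 - τ) * (l : ℝ) ^ (-(1 + σ))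

private theorem b5b_N_nonneg (c : ℝ) (m : ℕ) (n : ℕ+) : 0 ≤ b5b_N c m n := by
  unfold b5b_N
  split_ifs
  · exact Real.rpow_nonneg (Nat.cast_nonneg _) _
  · exact le_rfl

private theorem b5b_A_nonneg (σ τ : ℝ) (m : ℕ) (l : ℕ+) : 0 ≤ b5b_A σ τ m l := by
  unfold b5b_A
  exact mul_nonneg (mul_nonneg (tau_nonneg (by norm_num) _) (Real.rpow_nonneg (Nat.cast_nonneg _) _))
    (Real.rpow_nonneg (Nat.cast_nonneg _) _)

private theorem b5b_term (s : Fin 5 → ℝ) (m n l l' : ℕ+) :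
    wq (m, n, l, l') * Real.exp (-∑ i, s i * yq (m, n, l, l') i) =
      (m : ℝ) ^ (-(1 + s 0)) * (b5b_N (s 0) m n * (b5b_A (s 1) (s 3) m l * b5b_A (s 2) (s 4) m l')) := by
  have hm : (0 : ℝ) < m := by exact_mod_cast m.pos
  have hn : (0 : ℝ) < n := by exact_mod_cast n.pos
  have hl : (0 : ℝ) < l := by exact_mod_cast l.pos
  have hl' : (0 : ℝ) < l' := by exact_mod_cast l'.pos
  have hg : (0 : ℝ) < (Nat.gcd l m : ℝ) := by exact_mod_cast Nat.gcd_pos_of_pos_left m l.pos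
  have hg' : (0 : ℝ) < (Nat.gcd l' m : ℝ) := by exact_mod_cast Nat.gcd_pos_of_pos_left m l'.pos
  have hexp : Real.exp (-∑ i, s i * yq (m, n, l, l') i) =
      (m : ℝ) ^ (-(s 0)) * (n : ℝ) ^ (-(s 0)) * (l : ℝ) ^ (-(s 1)) * (l' : ℝ) ^ (-(s 2)) *
        (Nat.gcd l m : ℝ) ^ (-(s 3)) * (Nat.gcd l' m : ℝ) ^ (-(s 4)) := by
    rw [Real.rpow_def_of_pos hm, Real.rpow_def_of_pos hn, Real.rpow_def_of_pos hl, Real.rpow_def_of_pos hl',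
      Real.rpow_def_of_pos hg, Real.rpow_def_of_pos hg', ← Real.exp_add, ← Real.exp_add, ← Real.exp_add,
      ← Real.exp_add, ← Real.exp_add]
    congr 1
    rw [Fin.sum_univ_five]
    have e0 : yq (m, n, l, l') 0 = Real.log m + Real.log n := rfl
    have e1 : yq (m, n, l, l') 1 = Real.log l := rfl
    have e2 : yq (m, n, l, l') 2 = Real.log l' := rfl
    have e3 : yq (m, n, l, l') 3 = Real.log (Nat.gcd l m) := rfl
    have e4 : yq (m, n, l, l') 4 = Real.log (Nat.gcd l' m) := rfl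
    rw [e0, e1, e2, e3, e4]
    ring
  have f1 : ∀ (x : ℝ) (a : ℝ), 0 < x → x ^ (-(1 + a)) = x⁻¹ * x ^ (-a) := by
    intro x a hx
    rw [neg_add, Real.rpow_add hx, Real.rpow_neg_one]
  have f2 : ∀ (x : ℝ) (a : ℝ), 0 < x → x ^ (1 - a) = x * x ^ (-a) := by
    intro x a hx
    rw [sub_eq_add_neg, Real.rpow_add hx, Real.rpow_one]
  rw [hexp]
  unfold wq b5b_N b5b_A
  show (if Nat.Coprime m n then ((m : ℝ) * n)⁻¹ * (tau (1 / 2) l * ((Nat.gcd l m : ℝ) / l)) *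
      (tau (1 / 2) l' * ((Nat.gcd l' m : ℝ) / l')) else 0) * _ = _
  by_cases h : Nat.Coprime m n
  · rw [if_pos h, if_pos h, f1 m _ hm, f1 n _ hn, f1 l _ hl, f1 l' _ hl', f2 _ _ hg, f2 _ _ hg', mul_inv,
      div_eq_mul_inv, div_eq_mul_inv]
    ring
  · rw [if_neg h, if_neg h]
    ring

private theorem b5b_fib (s : Fin 5 → ℝ) (hs : ∀ i, 0 < s i) (m : ℕ+) :
    Summable (fun r : ℕ+ × ℕ+ × ℕ+ => (m : ℝ) ^ (-(1 + s 0)) *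
      (b5b_N (s 0) m r.1 * (b5b_A (s 1) (s 3) m r.2.1 * b5b_A (s 2) (s 4) m r.2.2))) ∧
    ∑' r : ℕ+ × ℕ+ × ℕ+, (m : ℝ) ^ (-(1 + s 0)) *
      (b5b_N (s 0) m r.1 * (b5b_A (s 1) (s 3) m r.2.1 * b5b_A (s 2) (s 4) m r.2.2)) =
      Zt (1 + s 0) * Zt (1 + s 1) ^ (1 / 2 : ℝ) * Zt (1 + s 2) ^ (1 / 2 : ℝ) *
        fm (s 0) (s 1) (s 3) (s 2) (s 4) m := by
  have hN := Pool.Agent.LibSM47.FL.n_sum (s 0) (hs 0) m m.pos
  have hA := Kg_eq (hs 1) (hs 3) (m := m) m.pos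
  have hB := Kg_eq (hs 2) (hs 4) (m := m) m.pos
  have hN1 : Summable (b5b_N (s 0) m) := hN.1
  have hN2 : ∑' n, b5b_N (s 0) m n = Zt (1 + s 0) * Pool.Agent.LibSM47.FL.rr (s 0) m := hN.2
  have hA1 : Summable (b5b_A (s 1) (s 3) m) := hA.1
  have hA2 : ∑' l, b5b_A (s 1) (s 3) m l = Kg (s 1) (s 3) m := rfl
  have hB1 : Summable (b5b_A (s 2) (s 4) m) := hB.1
  have hB2 : ∑' l, b5b_A (s 2) (s 4) m l = Kg (s 2) (s 4) m := rfl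
  have hAB : Summable (fun r : ℕ+ × ℕ+ => b5b_A (s 1) (s 3) m r.1 * b5b_A (s 2) (s 4) m r.2) :=
    hA1.mul_of_nonneg hB1 (fun l => b5b_A_nonneg _ _ _ _) (fun l => b5b_A_nonneg _ _ _ _)
  have hNAB : Summable (fun r : ℕ+ × ℕ+ × ℕ+ => b5b_N (s 0) m r.1 *
      (b5b_A (s 1) (s 3) m r.2.1 * b5b_A (s 2) (s 4) m r.2.2)) :=
    hN1.mul_of_nonneg (g := fun r : ℕ+ × ℕ+ => b5b_A (s 1) (s 3) m r.1 * b5b_A (s 2) (s 4) m r.2) hAB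
      (fun l => b5b_N_nonneg _ _ _) (fun r => mul_nonneg (b5b_A_nonneg _ _ _ _) (b5b_A_nonneg _ _ _ _))
  have t1 := hA1.tsum_mul_tsum hB1 hAB
  have t2 := hN1.tsum_mul_tsum (g := fun r : ℕ+ × ℕ+ => b5b_A (s 1) (s 3) m r.1 * b5b_A (s 2) (s 4) m r.2)
    hAB hNAB
  refine ⟨hNAB.mul_left _, ?_⟩
  rw [tsum_mul_left, ← t2, ← t1, hN2, hA2, hB2, hA.2, hB.2]
  unfold fm Pool.Agent.LibSM47.FL.rr
  rw [Finset.prod_mul_distrib, Finset.prod_mul_distrib]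
  ring

theorem quad_eq (s : Fin 5 → ℝ) (hs : ∀ i, 0 < s i) :
    Summable (fun q : ℕ+ × ℕ+ × ℕ+ × ℕ+ => wq q * Real.exp (-∑ i, s i * yq q i)) ∧
    ∑' q : ℕ+ × ℕ+ × ℕ+ × ℕ+, wq q * Real.exp (-∑ i, s i * yq q i) =
      Zt (1 + s 0) * Zt (1 + s 1) ^ (1 / 2 : ℝ) * Zt (1 + s 2) ^ (1 / 2 : ℝ) * ∑' m : ℕ, fm (s 0) (s 1) (s 3) (s 2) (s 4) m := by
  have hterm : (fun q : ℕ+ × ℕ+ × ℕ+ × ℕ+ => wq q * Real.exp (-∑ i, s i * yq q i)) =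
      fun q : ℕ+ × ℕ+ × ℕ+ × ℕ+ => (q.1 : ℝ) ^ (-(1 + s 0)) *
        (b5b_N (s 0) q.1 q.2.1 * (b5b_A (s 1) (s 3) q.1 q.2.2.1 * b5b_A (s 2) (s 4) q.1 q.2.2.2)) := by
    funext q
    exact b5b_term s q.1 q.2.1 q.2.2.1 q.2.2.2
  rw [hterm]
  set Z := Zt (1 + s 0) * Zt (1 + s 1) ^ (1 / 2 : ℝ) * Zt (1 + s 2) ^ (1 / 2 : ℝ) with hZ
  have hfm := fm_summable (hs 0) (hs 1) (hs 3) (hs 2) (hs 4)
  have hinj : Function.Injective (fun m : ℕ+ => (m : ℕ)) := PNat.coe_injective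
  have hout : ∀ x ∉ Set.range (fun m : ℕ+ => (m : ℕ)), fm (s 0) (s 1) (s 3) (s 2) (s 4) x = 0 := by
    intro x hx
    rcases Nat.eq_zero_or_pos x with rfl | h
    · exact fm_zero _ _ _ _ _ (hs 0)
    · exact absurd ⟨⟨x, h⟩, rfl⟩ hx
  have hfP : Summable (fun m : ℕ+ => fm (s 0) (s 1) (s 3) (s 2) (s 4) m) := hfm.2.comp_injective hinj
  have htP : ∑' m : ℕ+, fm (s 0) (s 1) (s 3) (s 2) (s 4) m = ∑' m : ℕ, fm (s 0) (s 1) (s 3) (s 2) (s 4) m := by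
    refine hinj.tsum_eq (f := fun m : ℕ => fm (s 0) (s 1) (s 3) (s 2) (s 4) m) ?_
    intro x hx
    by_contra h
    exact hx (hout x h)
  have hnn : (0 : ℕ+ × ℕ+ × ℕ+ × ℕ+ → ℝ) ≤ fun q : ℕ+ × ℕ+ × ℕ+ × ℕ+ => (q.1 : ℝ) ^ (-(1 + s 0)) *
        (b5b_N (s 0) q.1 q.2.1 * (b5b_A (s 1) (s 3) q.1 q.2.2.1 * b5b_A (s 2) (s 4) q.1 q.2.2.2)) := by
    intro q
    exact mul_nonneg (Real.rpow_nonneg (Nat.cast_nonneg _) _) (mul_nonneg (b5b_N_nonneg _ _ _)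
      (mul_nonneg (b5b_A_nonneg _ _ _ _) (b5b_A_nonneg _ _ _ _)))
  have hsum : Summable (fun q : ℕ+ × ℕ+ × ℕ+ × ℕ+ => (q.1 : ℝ) ^ (-(1 + s 0)) *
        (b5b_N (s 0) q.1 q.2.1 * (b5b_A (s 1) (s 3) q.1 q.2.2.1 * b5b_A (s 2) (s 4) q.1 q.2.2.2))) := by
    rw [summable_prod_of_nonneg hnn]
    refine ⟨fun m => (b5b_fib s hs m).1, ?_⟩
    refine (hfP.mul_left Z).congr fun m => ?_
    exact ((b5b_fib s hs m).2).symm
  refine ⟨hsum, ?_⟩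
  rw [hsum.tsum_prod]
  rw [tsum_congr (fun m : ℕ+ => (b5b_fib s hs m).2), tsum_mul_left, htP]

end Pool.Agent.LibFM89
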