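import Pool.Agent.LibFM89.B3
import Pool.Agent.LibFM89.B4b
import Pool.Agent.LibFM89.B5b

/-! # FM89 B6: Euler product and limit of the Laplace transform (MEDIUM)

PLAN.  (a) Template `LibZM.Lser_eq` (MK3) / LibSM47/F_10.lean: `EulerProduct.eulerProduct_hasProd` for `fm` (`fm_one`, `fm_mul`,
`fm_summable`, `fm_zero`), local sum `fm_local` = `LS`; `hasProd_Zt_rpow` with `w = 1, 1/2, 1/2, 1/4` for the exponents
`1+s0`, `1+(s0+s1+s3)`, `1+(s0+s2+s4)`, `1+(s0+s1+s2+s3+s4)` (`z x y = p^(-(1+s0+s1+s3))` etc., `Real.rpow_add`); `HasProd.mul`;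
`Real.hasProd_of_hasSum_log` with `EG_log` (`C p^(-2)`, `Nat.Primes.summable_rpow`), `0 < x, x', z ≤ 1/p`.
(b) Template `LibZM.tendsto_Lser` (MK3) / LibSM47/F_11.lean, F_12.lean: (a) with `s_i δ`; `δ Zt(1+cδ) → 1/c` (`tendsto_Zt`) to the powers
`2, 1/2, 1/2, 1/2, 1/2, 1/4`, total exponent `17/4`; logarithms by dominated convergence (`EG_log`, `EG_tendsto`, `EG_diag`),
`Aconst_eq` (`Aconst κ = exp ∑ log Efac κ (p^(-1))`). -/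

set_option autoImplicit false

namespace Pool.Agent.LibFM89

open MeasureTheory Set Filter Topology Complex ProbabilityTheory
open scoped NNReal ComplexConjugate
open Pool.Agent.LibZM
open Pool.Agent.LibSM47 (gam ch idx)

/-- The local factor at `p`. -/
private noncomputable def EP (s : Fin 5 → ℝ) (p : Nat.Primes) : ℝ :=
  EG ((p : ℝ) ^ (-(1 + s 0))) ((p : ℝ) ^ (-(1 + s 1))) ((p : ℝ) ^ (1 - s 3)) ((p : ℝ) ^ (-(1 + s 2))) ((p : ℝ) ^ (1 - s 4))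

private theorem prp (p : Nat.Primes) : (0:ℝ) < p ∧ (1:ℝ) < p := by
  have : (2:ℝ) ≤ p := by exact_mod_cast p.prop.two_le
  constructor <;> linarith

private theorem EP_bound : ∃ C : ℝ, 0 < C ∧ ∀ (s : Fin 5 → ℝ), (∀ i, 0 < s i) → ∀ p : Nat.Primes,
    0 < EP s p ∧ |Real.log (EP s p)| ≤ C * (p:ℝ) ^ (-2:ℝ) := by
  obtain ⟨C, hC, h⟩ := EG_log
  refine ⟨C, hC, fun s hs p => ?_⟩
  obtain ⟨hp0, hp1⟩ := prp p
  obtain ⟨hz0, -, hz2⟩ := prime_rpow_mem (σ := 1 + s 0) (by linarith [hs 0]) p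
  obtain ⟨hx0, -, hx2⟩ := prime_rpow_mem (σ := 1 + s 1) (by linarith [hs 1]) p
  obtain ⟨hx0', -, hx2'⟩ := prime_rpow_mem (σ := 1 + s 2) (by linarith [hs 2]) p
  obtain ⟨hu0, hu1, -⟩ := prime_rpow_mem (le_refl (1 : ℝ)) p
  have hy : ∀ t : ℝ, 0 ≤ (p:ℝ) ^ t := fun t => (Real.rpow_pos_of_pos hp0 t).le
  have hm : ∀ a b : ℝ, 0 < a → 0 < b → (p:ℝ) ^ (-(1 + a)) * (p:ℝ) ^ (1 - b) ≤ 1 := by
    intro a b ha hb
    rw [← Real.rpow_add hp0]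
    apply Real.rpow_le_one_of_one_le_of_nonpos hp1.le
    linarith
  have h1 := h _ _ ((p:ℝ) ^ (1 - s 3)) _ ((p:ℝ) ^ (1 - s 4)) ((p:ℝ) ^ (-(1:ℝ))) hz0.le hz2 hx0.le hx2 hx0'.le hx2' hu1
    (hy _) (hy _) (hm _ _ (hs 1) (hs 3)) (hm _ _ (hs 2) (hs 4))
  refine ⟨h1.1, h1.2.trans (le_of_eq ?_)⟩
  congr 1
  rw [← Real.rpow_natCast, ← Real.rpow_mul hp0.le]
  norm_num

private theorem sum2 (C : ℝ) : Summable fun p : Nat.Primes => C * (p:ℝ) ^ (-2:ℝ) :=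
  (Nat.Primes.summable_rpow.mpr (by norm_num)).mul_left _

private theorem fm_tsum (s : Fin 5 → ℝ) (hs : ∀ i, 0 < s i) :
    ∑' m : ℕ, fm (s 0) (s 1) (s 3) (s 2) (s 4) m =
      Zt (1 + s 0) * Zt (1 + (s 0 + s 1 + s 3)) ^ (1 / 2 : ℝ) * Zt (1 + (s 0 + s 2 + s 4)) ^ (1 / 2 : ℝ) *
        Zt (1 + (s 0 + s 1 + s 2 + s 3 + s 4)) ^ (1 / 4 : ℝ) *
        Real.exp (∑' p : Nat.Primes, Real.log (EP s p)) := by
  obtain ⟨h0, h1, h2, h3, h4⟩ : 0 < s 0 ∧ 0 < s 1 ∧ 0 < s 2 ∧ 0 < s 3 ∧ 0 < s 4 := ⟨hs 0, hs 1, hs 2, hs 3, hs 4⟩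
  obtain ⟨hnn, hsum⟩ := fm_summable (a := s 0) (σ := s 1) (τ := s 3) (σ' := s 2) (τ' := s 4) h0 h1 h3 h2 h4
  have hprod : HasProd (fun p : Nat.Primes => ∑' j : ℕ, fm (s 0) (s 1) (s 3) (s 2) (s 4) ((p : ℕ) ^ j))
      (∑' m : ℕ, fm (s 0) (s 1) (s 3) (s 2) (s 4) m) :=
    EulerProduct.eulerProduct_hasProd (R := ℝ) (f := fun m : ℕ => fm (s 0) (s 1) (s 3) (s 2) (s 4) m) (fm_one _ _ _ _ _)
      (fun {m n} h => fm_mul _ _ _ _ _ h) hsum.norm (fm_zero _ _ _ _ _ h0)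
  have hσ1 : (1:ℝ) < 1 + s 0 := by linarith
  have hσ2 : (1:ℝ) < 1 + (s 0 + s 1 + s 3) := by linarith
  have hσ3 : (1:ℝ) < 1 + (s 0 + s 2 + s 4) := by linarith
  have hσ4 : (1:ℝ) < 1 + (s 0 + s 1 + s 2 + s 3 + s 4) := by linarith
  have hA := ((((hasProd_Zt_rpow hσ1 1).mul (hasProd_Zt_rpow hσ2 (1/2))).mul (hasProd_Zt_rpow hσ3 (1/2))).mul
    (hasProd_Zt_rpow hσ4 (1/4))).mul hprod
  have e : (fun p : Nat.Primes => (1 - (p:ℝ) ^ (-(1 + s 0))) ^ (1:ℝ) * (1 - (p:ℝ) ^ (-(1 + (s 0 + s 1 + s 3)))) ^ (1/2:ℝ) *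
      (1 - (p:ℝ) ^ (-(1 + (s 0 + s 2 + s 4)))) ^ (1/2:ℝ) *
      (1 - (p:ℝ) ^ (-(1 + (s 0 + s 1 + s 2 + s 3 + s 4)))) ^ (1/4:ℝ) *
      ∑' j : ℕ, fm (s 0) (s 1) (s 3) (s 2) (s 4) ((p : ℕ) ^ j)) = EP s := by
    funext p
    obtain ⟨hp0, hp1⟩ := prp p
    rw [fm_local h0 h1 h3 h2 h4 p.prop]
    unfold EP EG
    have e1 : (p:ℝ) ^ (-(1 + s 0)) * ((p:ℝ) ^ (-(1 + s 1)) * (p:ℝ) ^ (1 - s 3)) = (p:ℝ) ^ (-(1 + (s 0 + s 1 + s 3))) := by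
      rw [← Real.rpow_add hp0, ← Real.rpow_add hp0]
      congr 1
      ring
    have e2 : (p:ℝ) ^ (-(1 + s 0)) * ((p:ℝ) ^ (-(1 + s 2)) * (p:ℝ) ^ (1 - s 4)) = (p:ℝ) ^ (-(1 + (s 0 + s 2 + s 4))) := by
      rw [← Real.rpow_add hp0, ← Real.rpow_add hp0]
      congr 1
      ring
    have e3 : (p:ℝ) ^ (-(1 + s 0)) * (((p:ℝ) ^ (-(1 + s 1)) * (p:ℝ) ^ (1 - s 3)) * ((p:ℝ) ^ (-(1 + s 2)) * (p:ℝ) ^ (1 - s 4))) =
        (p:ℝ) ^ (-(1 + (s 0 + s 1 + s 2 + s 3 + s 4))) := by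
      rw [← Real.rpow_add hp0, ← Real.rpow_add hp0, ← Real.rpow_add hp0, ← Real.rpow_add hp0]
      congr 1
      ring
    rw [e1, e2, e3, Real.rpow_one]
  rw [e] at hA
  have hB : HasProd (EP s) (Real.exp (∑' p : Nat.Primes, Real.log (EP s p))) := by
    obtain ⟨C, hC, hb⟩ := EP_bound
    apply Real.hasProd_of_hasSum_log
    · exact fun p => (hb s hs p).1
    · exact (Summable.of_norm_bounded (sum2 C) fun p => by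
        rw [Real.norm_eq_abs]
        exact (hb s hs p).2).hasSum
  rw [← hA.unique hB]
  have hz1 := Zt_pos hσ1
  have hz2 := Zt_pos hσ2
  have hz3 := Zt_pos hσ3
  have hz4 := Zt_pos hσ4
  rw [Real.rpow_neg hz1.le, Real.rpow_neg hz2.le, Real.rpow_neg hz3.le, Real.rpow_neg hz4.le, Real.rpow_one]
  have p2 := (Real.rpow_pos_of_pos hz2 (1/2)).ne'
  have p3 := (Real.rpow_pos_of_pos hz3 (1/2)).ne'
  have p4 := (Real.rpow_pos_of_pos hz4 (1/4)).ne'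
  field_simp

theorem MG_eq (s : Fin 5 → ℝ) (hs : ∀ i, 0 < s i) :
    ∑' q : ℕ+ × ℕ+ × ℕ+ × ℕ+, wq q * Real.exp (-∑ i, s i * yq q i) =
      Zt (1 + s 0) ^ (2 : ℝ) * Zt (1 + s 1) ^ (1 / 2 : ℝ) * Zt (1 + s 2) ^ (1 / 2 : ℝ) *
        Zt (1 + (s 0 + s 1 + s 3)) ^ (1 / 2 : ℝ) * Zt (1 + (s 0 + s 2 + s 4)) ^ (1 / 2 : ℝ) *
        Zt (1 + (s 0 + s 1 + s 2 + s 3 + s 4)) ^ (1 / 4 : ℝ) *
        Real.exp (∑' p : Nat.Primes, Real.log (EG ((p : ℝ) ^ (-(1 + s 0))) ((p : ℝ) ^ (-(1 + s 1))) ((p : ℝ) ^ (1 - s 3))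
          ((p : ℝ) ^ (-(1 + s 2))) ((p : ℝ) ^ (1 - s 4)))) := by
  rw [(quad_eq s hs).2, fm_tsum s hs]
  have h2 : Zt (1 + s 0) ^ (2:ℝ) = Zt (1 + s 0) * Zt (1 + s 0) := by
    rw [show (2:ℝ) = ((2:ℕ):ℝ) by norm_num, Real.rpow_natCast, pow_two]
  rw [h2]
  unfold EP
  ring

private theorem zlim {c : ℝ} (hc : 0 < c) (w : ℝ) :
    Tendsto (fun δ : ℝ => (δ * Zt (1 + c * δ)) ^ w) (𝓝[>] 0) (𝓝 (c ^ (-w))) := by
  have h := (tendsto_Zt hc).rpow_const (p := w) (Or.inl (inv_pos.mpr hc).ne')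
  rw [Real.inv_rpow hc.le, ← Real.rpow_neg hc.le] at h
  exact h

theorem MG_limit (s : Fin 5 → ℝ) (hs : ∀ i, 0 < s i) :
    Tendsto (fun δ : ℝ => δ ^ (17 / 4 : ℝ) * ∑' q : ℕ+ × ℕ+ × ℕ+ × ℕ+, wq q * Real.exp (-∑ i, s i * δ * yq q i)) (𝓝[>] 0)
      (𝓝 (Aconst (5 / 2) * LP s)) := by
  obtain ⟨h0, h1, h2, h3, h4⟩ : 0 < s 0 ∧ 0 < s 1 ∧ 0 < s 2 ∧ 0 < s 3 ∧ 0 < s 4 := ⟨hs 0, hs 1, hs 2, hs 3, hs 4⟩
  have hE : Tendsto (fun δ : ℝ => ∑' p : Nat.Primes, Real.log (EP (fun i => s i * δ) p)) (𝓝[>] 0)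
      (𝓝 (∑' p : Nat.Primes, Real.log (Efac (5 / 2) ((p:ℝ) ^ (-(1:ℝ)))))) := by
    obtain ⟨C, hC, hb⟩ := EP_bound
    apply tendsto_tsum_of_dominated_convergence (sum2 C)
    · intro p
      obtain ⟨hu0, hu1, -⟩ := prime_rpow_mem (le_refl (1 : ℝ)) p
      have ht := EG_tendsto p.prop s hs
      rw [EG_diag (by rw [← Real.rpow_neg_one]; exact hu0) (by rw [← Real.rpow_neg_one]; exact hu1),
        ← Real.rpow_neg_one] at ht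
      exact ht.log (Efac_pos (by norm_num) hu0.le (by linarith)).ne'
    · filter_upwards [self_mem_nhdsWithin] with δ hδ p
      have hδ' : (0:ℝ) < δ := hδ
      rw [Real.norm_eq_abs]
      exact (hb _ (fun i => mul_pos (hs i) hδ') p).2
  have hz := (((((zlim h0 2).mul (zlim h1 (1/2))).mul (zlim h2 (1/2))).mul
    (zlim (by linarith : 0 < s 0 + s 1 + s 3) (1/2))).mul (zlim (by linarith : 0 < s 0 + s 2 + s 4) (1/2))).mul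
    (zlim (by linarith : 0 < s 0 + s 1 + s 2 + s 3 + s 4) (1/4))
  have h := (Real.continuous_exp.tendsto _ |>.comp hE).mul hz
  rw [← Aconst_eq (by norm_num : (0:ℝ) ≤ 5 / 2)] at h
  have hlim : Aconst (5 / 2) * (s 0 ^ (-2 : ℝ) * s 1 ^ (-(1 / 2) : ℝ) * s 2 ^ (-(1 / 2) : ℝ) * (s 0 + s 1 + s 3) ^ (-(1 / 2) : ℝ) *
    (s 0 + s 2 + s 4) ^ (-(1 / 2) : ℝ) * (s 0 + s 1 + s 2 + s 3 + s 4) ^ (-(1 / 4) : ℝ)) = Aconst (5 / 2) * LP s := rfl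
  rw [hlim] at h
  refine h.congr' ?_
  filter_upwards [self_mem_nhdsWithin] with δ hδ
  have hδ' : (0:ℝ) < δ := hδ
  have hm := MG_eq (fun i => s i * δ) (fun i => mul_pos (hs i) hδ')
  rw [hm]
  simp only [Function.comp, EP]
  have z : ∀ {c : ℝ}, 0 < c → ∀ w : ℝ, (δ * Zt (1 + c * δ)) ^ w = δ ^ w * Zt (1 + c * δ) ^ w := by
    intro c hc w
    have : 0 < c * δ := mul_pos hc hδ'
    exact Real.mul_rpow hδ'.le (Zt_pos (by linarith)).le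
  rw [z h0, z h1, z h2, z (by linarith : 0 < s 0 + s 1 + s 3), z (by linarith : 0 < s 0 + s 2 + s 4),
    z (by linarith : 0 < s 0 + s 1 + s 2 + s 3 + s 4)]
  have e1 : s 0 * δ + s 1 * δ + s 3 * δ = (s 0 + s 1 + s 3) * δ := by ring
  have e2 : s 0 * δ + s 2 * δ + s 4 * δ = (s 0 + s 2 + s 4) * δ := by ring
  have e3 : s 0 * δ + s 1 * δ + s 2 * δ + s 3 * δ + s 4 * δ = (s 0 + s 1 + s 2 + s 3 + s 4) * δ := by ring
  rw [e1, e2, e3]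
  have e4 : δ ^ (17 / 4 : ℝ) = δ ^ (2:ℝ) * δ ^ (1/2:ℝ) * δ ^ (1/2:ℝ) * δ ^ (1/2:ℝ) * δ ^ (1/2:ℝ) * δ ^ (1/4:ℝ) := by
    rw [← Real.rpow_add hδ', ← Real.rpow_add hδ', ← Real.rpow_add hδ', ← Real.rpow_add hδ', ← Real.rpow_add hδ']
    congr 1
    norm_num
  rw [e4]
  ring

end Pool.Agent.LibFM89
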