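import Pool.Agent.LibFM89.BD

/-! # FM89 B7: Laplace transform of the six cells (SHORT/MEDIUM)

PLAN.  Template: `LibZM.integrable_exp_prod`, `LibZM.integral_exp_prod` (MK4), `integral_cell`, `integrable_cell`.
`∑ s_i Zc x i = (s0+s1+s2+s3+s4) x0 + (s0+s1+s3) x1 + (s0+s2+s4) x2 + s0 x3 + s1 x4 + s2 x5` (`Fin.sum_univ_five`, unfold), so the
integrand is `∏_i exp(-c_i x_i) cellρ (wB i) (x i)`; `Integrable.fintype_prod`, `integral_fintype_prod_volume_eq_prod`. -/

set_option autoImplicit false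

namespace Pool.Agent.LibFM89

open MeasureTheory Set Filter Topology Complex ProbabilityTheory
open scoped NNReal ComplexConjugate
open Pool.Agent.LibZM
open Pool.Agent.LibSM47 (gam ch idx)

private noncomputable def B7cc (s : Fin 5 → ℝ) : Fin 6 → ℝ :=
  ![s 0 + s 1 + s 2 + s 3 + s 4, s 0 + s 1 + s 3, s 0 + s 2 + s 4, s 0, s 1, s 2]

private theorem B7cc_pos (s : Fin 5 → ℝ) (hs : ∀ i, 0 < s i) (i : Fin 6) : 0 < B7cc s i := by
  have h0 := hs 0
  have h1 := hs 1
  have h2 := hs 2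
  have h3 := hs 3
  have h4 := hs 4
  fin_cases i
  · show 0 < s 0 + s 1 + s 2 + s 3 + s 4
    linarith
  · show 0 < s 0 + s 1 + s 3
    linarith
  · show 0 < s 0 + s 2 + s 4
    linarith
  · exact h0
  · exact h1
  · exact h2

private theorem B7wB_pos (i : Fin 6) : 0 < wB i := by
  unfold wB
  fin_cases i <;> simp

private theorem B7_exp_prod (s : Fin 5 → ℝ) (x : Fin 6 → ℝ) :
    Real.exp (-∑ i, s i * Zc x i) * cB x =
      ∏ i : Fin 6, (Real.exp (-(B7cc s i * x i)) * cellρ (wB i) (x i)) := by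
  rw [Finset.prod_mul_distrib, cB, ← Real.exp_sum]
  congr 2
  have e0 : Zc x 0 = sB x := rfl
  have e1 : Zc x 1 = l1 x := rfl
  have e2 : Zc x 2 = l2 x := rfl
  have e3 : Zc x 3 = g1 x := rfl
  have e4 : Zc x 4 = g2 x := rfl
  have f0 : B7cc s 0 = s 0 + s 1 + s 2 + s 3 + s 4 := rfl
  have f1 : B7cc s 1 = s 0 + s 1 + s 3 := rfl
  have f2 : B7cc s 2 = s 0 + s 2 + s 4 := rfl
  have f3 : B7cc s 3 = s 0 := rfl
  have f4 : B7cc s 4 = s 1 := rfl
  have f5 : B7cc s 5 = s 2 := rfl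
  rw [Fin.sum_univ_five, Fin.sum_univ_six, e0, e1, e2, e3, e4, f0, f1, f2, f3, f4, f5]
  unfold sB l1 l2 g1 g2
  ring

theorem cells_laplace (s : Fin 5 → ℝ) (hs : ∀ i, 0 < s i) :
    Integrable (fun x : Fin 6 → ℝ => Real.exp (-∑ i, s i * Zc x i) * cB x) ∧
      ∫ x : Fin 6 → ℝ, Real.exp (-∑ i, s i * Zc x i) * cB x = LP s := by
  simp_rw [B7_exp_prod]
  constructor
  · apply Integrable.fintype_prod
      (f := fun (i : Fin 6) (x : ℝ) => Real.exp (-(B7cc s i * x)) * cellρ (wB i) x)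
    intro i
    exact integrable_cell (B7wB_pos i) (B7cc_pos s hs i)
  · rw [integral_fintype_prod_volume_eq_prod
      (f := fun (i : Fin 6) (x : ℝ) => Real.exp (-(B7cc s i * x)) * cellρ (wB i) x)]
    rw [Finset.prod_congr rfl fun i _ => integral_cell (B7wB_pos i) (B7cc_pos s hs i)]
    have f0 : B7cc s 0 = s 0 + s 1 + s 2 + s 3 + s 4 := rfl
    have f1 : B7cc s 1 = s 0 + s 1 + s 3 := rfl
    have f2 : B7cc s 2 = s 0 + s 2 + s 4 := rfl
    have f3 : B7cc s 3 = s 0 := rfl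
    have f4 : B7cc s 4 = s 1 := rfl
    have f5 : B7cc s 5 = s 2 := rfl
    have g0 : wB 0 = 1 / 4 := rfl
    have g1 : wB 1 = 1 / 2 := rfl
    have g2 : wB 2 = 1 / 2 := rfl
    have g3 : wB 3 = 2 := rfl
    have g4 : wB 4 = 1 / 2 := rfl
    have g5 : wB 5 = 1 / 2 := rfl
    rw [Fin.prod_univ_six, f0, f1, f2, f3, f4, f5, g0, g1, g2, g3, g4, g5]
    unfold LP
    ring

private theorem B7_meas_cell (w : ℝ) : Measurable (cellρ w) := by
  unfold cellρ
  refine Measurable.indicator ?_ measurableSet_Ioi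
  fun_prop

/-- Positivity and measurability. -/
theorem cB_props : (∀ x, 0 ≤ cB x) ∧ Measurable cB ∧ Measurable Zc ∧ ∀ x, cB x ≠ 0 → (∀ i, 0 < x i) := by
  refine ⟨fun x => Finset.prod_nonneg fun i _ => cellρ_nonneg (B7wB_pos i) _, ?_, ?_, ?_⟩
  · unfold cB
    exact Finset.measurable_prod _ fun i _ => (B7_meas_cell _).comp (measurable_pi_apply i)
  · rw [measurable_pi_iff]
    intro i
    fin_cases i
    · show Measurable fun x : Fin 6 → ℝ => sB x
      unfold sB
      fun_prop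
    · show Measurable fun x : Fin 6 → ℝ => l1 x
      unfold l1
      fun_prop
    · show Measurable fun x : Fin 6 → ℝ => l2 x
      unfold l2
      fun_prop
    · show Measurable fun x : Fin 6 → ℝ => g1 x
      unfold g1
      fun_prop
    · show Measurable fun x : Fin 6 → ℝ => g2 x
      unfold g2
      fun_prop
  · intro x hx i
    unfold cB at hx
    rw [Finset.prod_ne_zero_iff] at hx
    have h := hx i (Finset.mem_univ i)
    by_contra hi
    apply h
    unfold cellρ
    exact Set.indicator_of_notMem (fun h' => hi h') _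

end Pool.Agent.LibFM89
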