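import Mathlib

/-! # FM89 B8a: Weierstrass in d variables and approximation of test functions (MEDIUM, ONLY MATHLIB)

PLAN.  Templates LibSM47/F_13.lean (`weier`, three variables; the same proof with the coordinates `c i x = x.1 i` of the compact set
`Set.pi univ (fun _ => Icc 0 1)` = `Icc 0 1` in `Fin d → ℝ`) and LibSM47/F_14.lean (`g_approx`).
Second: replace `G` by `G ∘ (fun y i => max 0 (y i))`, which vanishes if some `y i > R` (we may take `R ≥ 0`).
`H(z) = G(-log z_i) / ∏ z_i` if all `z_i > 0`, else `0`, is continuous (it is `0` near points with some `z_i ≤ 0`); apply the first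
part and multiply by `∏ z_i = exp(-∑ y_i)`, `z_i = exp(-y_i)`. -/

set_option autoImplicit false

namespace Pool.Agent.LibFM89

open Set Filter Topology

theorem weierD (d : ℕ) (H : (Fin d → ℝ) → ℝ) (hH : Continuous H) (ε : ℝ) (hε : 0 < ε) :
    ∃ p : MvPolynomial (Fin d) ℝ, ∀ x : Fin d → ℝ, (∀ i, 0 ≤ x i ∧ x i ≤ 1) → |H x - MvPolynomial.eval x p| ≤ ε := by
  classical
  have hK : IsCompact (Set.pi Set.univ (fun _ : Fin d => Icc (0 : ℝ) 1)) :=
    isCompact_univ_pi fun _ => isCompact_Icc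
  have : CompactSpace (Set.pi Set.univ (fun _ : Fin d => Icc (0 : ℝ) 1) : Set (Fin d → ℝ)) :=
    isCompact_iff_compactSpace.mp hK
  let c : Fin d → C((Set.pi Set.univ (fun _ : Fin d => Icc (0 : ℝ) 1) : Set (Fin d → ℝ)), ℝ) :=
    fun i => ⟨fun x => x.1 i, (continuous_apply i).comp continuous_subtype_val⟩
  have hsep : (Algebra.adjoin ℝ (Set.range c)).SeparatesPoints := by
    intro x y hxy
    by_contra hcon
    apply hxy
    apply Subtype.ext
    funext i
    by_contra hi
    exact hcon ⟨_, ⟨c i, Algebra.subset_adjoin ⟨i, rfl⟩, rfl⟩, hi⟩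
  obtain ⟨g, hg⟩ := ContinuousMap.exists_mem_subalgebra_near_continuous_of_separatesPoints
    (Algebra.adjoin ℝ (Set.range c)) hsep
    (fun x : (Set.pi Set.univ (fun _ : Fin d => Icc (0 : ℝ) 1) : Set (Fin d → ℝ)) => H x.1)
    (hH.comp continuous_subtype_val) ε hε
  have hmem : (g : C((Set.pi Set.univ (fun _ : Fin d => Icc (0 : ℝ) 1) : Set (Fin d → ℝ)), ℝ)) ∈
      (MvPolynomial.aeval c : MvPolynomial (Fin d) ℝ →ₐ[ℝ] _).range := by
    rw [← Algebra.adjoin_range_eq_range_aeval]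
    exact g.2
  obtain ⟨p, hp⟩ := hmem
  refine ⟨p, fun x hx => ?_⟩
  have hx' : x ∈ (Set.pi Set.univ (fun _ : Fin d => Icc (0 : ℝ) 1) : Set (Fin d → ℝ)) :=
    fun i _ => hx i
  have h1 := hg ⟨x, hx'⟩
  have h2 : (g : C((Set.pi Set.univ (fun _ : Fin d => Icc (0 : ℝ) 1) : Set (Fin d → ℝ)), ℝ)) ⟨x, hx'⟩ =
      MvPolynomial.eval x p := by
    rw [← hp]
    have h3 := MvPolynomial.comp_aeval_apply (R := ℝ) (f := c)
      (ContinuousMap.evalAlgHom ℝ ℝ (⟨x, hx'⟩ : (Set.pi Set.univ (fun _ : Fin d => Icc (0 : ℝ) 1) :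
        Set (Fin d → ℝ)))) p
    have h4 : (fun i => (ContinuousMap.evalAlgHom ℝ ℝ (⟨x, hx'⟩ :
        (Set.pi Set.univ (fun _ : Fin d => Icc (0 : ℝ) 1) : Set (Fin d → ℝ)))) (c i)) = x := by
      funext i
      rfl
    rw [h4] at h3
    rw [MvPolynomial.aeval_eq_eval] at h3
    exact h3
  rw [← h2, abs_sub_comm]
  exact h1.le

private theorem B8a_zero (d : ℕ) (g : (Fin d → ℝ) → ℝ) (R : ℝ)
    (hR : ∀ x : Fin d → ℝ, (∃ j, R < x j) → g x = 0) (y : Fin d → ℝ)
    (hy : ∃ j, y j < Real.exp (-R)) :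
    (if ∀ i, 0 < y i then g (fun i => -Real.log (y i)) / ∏ i, y i else 0) = 0 := by
  by_cases h : ∀ i, 0 < y i
  · rw [if_pos h]
    obtain ⟨j, hj⟩ := hy
    rw [hR, zero_div]
    refine ⟨j, ?_⟩
    have h2 := (Real.log_lt_iff_lt_exp (h j)).2 hj
    linarith
  · rw [if_neg h]

private theorem B8a_cont (d : ℕ) (g : (Fin d → ℝ) → ℝ) (hg : Continuous g) (R : ℝ)
    (hR : ∀ x : Fin d → ℝ, (∃ j, R < x j) → g x = 0) :
    Continuous fun y : Fin d → ℝ =>
      if ∀ i, 0 < y i then g (fun i => -Real.log (y i)) / ∏ i, y i else 0 := by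
  rw [continuous_iff_continuousAt]
  intro y
  by_cases hy : ∀ i, 0 < y i
  · have h1 : ContinuousAt (fun z : Fin d → ℝ => g (fun i => -Real.log (z i)) / ∏ i, z i) y := by
      refine ContinuousAt.div ?_ ?_ (Finset.prod_pos fun i _ => hy i).ne'
      · refine ContinuousAt.comp (g := g) (f := fun z : Fin d → ℝ => fun i => -Real.log (z i))
          hg.continuousAt ?_
        rw [continuousAt_pi]
        intro i
        have h3 : ContinuousAt (fun z : Fin d → ℝ => z i) y := (continuous_apply i).continuousAt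
        exact (h3.log (hy i).ne').neg
      · exact (continuous_finsetProd _ fun i _ => continuous_apply i).continuousAt
    refine h1.congr ?_
    have h2 : ∀ᶠ z : Fin d → ℝ in 𝓝 y, ∀ i, 0 < z i := by
      rw [eventually_all]
      intro i
      exact (continuous_apply i).continuousAt.eventually (lt_mem_nhds (hy i))
    filter_upwards [h2] with z hz
    rw [if_pos hz]
  · push Not at hy
    obtain ⟨j, hj⟩ := hy
    have hE : 0 < Real.exp (-R) := Real.exp_pos _
    have h2 : ∀ᶠ z : Fin d → ℝ in 𝓝 y, ∃ j, z j < Real.exp (-R) :=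
      ((continuous_apply j).continuousAt.eventually (gt_mem_nhds (hj.trans_lt hE))).mono
        fun z hz => ⟨j, hz⟩
    have h3 : (if ∀ i, 0 < y i then g (fun i => -Real.log (y i)) / ∏ i, y i else 0) = 0 :=
      B8a_zero d g R hR y ⟨j, hj.trans_lt hE⟩
    rw [ContinuousAt, h3]
    refine (tendsto_const_nhds (x := (0 : ℝ))).congr' ?_
    exact h2.mono fun z hz => (B8a_zero d g R hR z hz).symm

theorem approxD (d : ℕ) (G : (Fin d → ℝ) → ℝ) (hG : Continuous G) (R : ℝ)
    (hR : ∀ y : Fin d → ℝ, (∀ j, 0 ≤ y j) → (∃ j, R < y j) → G y = 0) (ε : ℝ) (hε : 0 < ε) :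
    ∃ p : MvPolynomial (Fin d) ℝ, ∀ y : Fin d → ℝ, (∀ j, 0 ≤ y j) →
      |G y - Real.exp (-∑ j, y j) * MvPolynomial.eval (fun j => Real.exp (-(y j))) p| ≤ ε * Real.exp (-∑ j, y j) := by
  set g : (Fin d → ℝ) → ℝ := fun y => G (fun i => max 0 (y i)) with hgdef
  have hg : Continuous g := hG.comp (continuous_pi fun i => continuous_const.max (continuous_apply i))
  have hR' : ∀ x : Fin d → ℝ, (∃ j, R < x j) → g x = 0 := by
    rintro x ⟨j, hj⟩
    refine hR _ (fun i => le_max_left _ _) ⟨j, lt_of_lt_of_le hj (le_max_right _ _)⟩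
  obtain ⟨p, hp⟩ := weierD d _ (B8a_cont d g hg R hR') ε hε
  refine ⟨p, fun y hy => ?_⟩
  have h4 := hp (fun i => Real.exp (-(y i))) fun i =>
    ⟨(Real.exp_pos _).le, Real.exp_le_one_iff.2 (by linarith [hy i])⟩
  have hpos : ∀ i : Fin d, 0 < Real.exp (-(y i)) := fun i => Real.exp_pos _
  rw [if_pos hpos] at h4
  have h5 : ∏ i, Real.exp (-(y i)) = Real.exp (-∑ j, y j) := by
    rw [← Real.exp_sum, Finset.sum_neg_distrib]
  have h6 : (fun i => -Real.log (Real.exp (-(y i)))) = y := by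
    funext i
    rw [Real.log_exp, neg_neg]
  have h7 : g y = G y := by
    have h7' : (fun i => max 0 (y i)) = y := by
      funext i
      exact max_eq_right (hy i)
    show G (fun i => max 0 (y i)) = G y
    rw [h7']
  rw [h5, h6, h7] at h4
  have h8 : 0 < Real.exp (-∑ j, y j) := Real.exp_pos _
  have h9 : G y - Real.exp (-∑ j, y j) * MvPolynomial.eval (fun j => Real.exp (-(y j))) p =
      (G y / Real.exp (-∑ j, y j) - MvPolynomial.eval (fun j => Real.exp (-(y j))) p) *
        Real.exp (-∑ j, y j) := by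
    field_simp
  rw [h9, abs_mul, abs_of_pos h8]
  exact mul_le_mul_of_nonneg_right h4 h8.le

end Pool.Agent.LibFM89
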