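import Pool.Agent.LibFM89.B8a

/-! # FM89 B8b: weak convergence from the Laplace transforms at integer points (MEDIUM, ONLY MATHLIB)

PLAN.  Template LibSM47/F_16.lean (`pe_eq`, `SL_pe`) and F_17.lean (`SL_sub_le`, `IL_sub_le`, `SL_limit`).
For `p : MvPolynomial (Fin d) ℝ` put `pe y = exp(-∑ y_j) · eval (exp(-y_j)) p = ∑_{s ∈ supp p} coeff_s exp(-∑ (s_j+1) y_j)`
(`MvPolynomial.eval_eq'`): `h1`, `h2`, `h3` with `s_j + 1` give summability, integrability and the limit for `pe`.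
`approxD` (B8a): `|G - pe| ≤ ε exp(-∑ y_j)` on the orthant, so the two sides for `G` and `pe` differ by at most `ε` times the ones for
`exp(-∑ y_j)` (`s = 1`), which converge: `ε/3` argument. -/

set_option autoImplicit false

namespace Pool.Agent.LibFM89

open MeasureTheory Set Filter Topology

private noncomputable def b8b_pe {d : ℕ} (p : MvPolynomial (Fin d) ℝ) (y : Fin d → ℝ) : ℝ :=
  Real.exp (-∑ j, y j) * MvPolynomial.eval (fun j => Real.exp (-(y j))) p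

private theorem b8b_pe_eq {d : ℕ} (p : MvPolynomial (Fin d) ℝ) (y : Fin d → ℝ) :
    b8b_pe p y = ∑ s ∈ p.support, p.coeff s * Real.exp (-∑ j, ((s j + 1 : ℕ) : ℝ) * y j) := by
  unfold b8b_pe
  rw [MvPolynomial.eval_eq', Finset.mul_sum]
  refine Finset.sum_congr rfl fun s _ => ?_
  have h : ∏ i : Fin d, Real.exp (-(y i)) ^ s i = Real.exp (∑ i : Fin d, -((s i : ℝ) * y i)) := by
    rw [Real.exp_sum]
    refine Finset.prod_congr rfl fun i _ => ?_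
    rw [← Real.exp_nat_mul]
    congr 1
    ring
  rw [h, mul_left_comm, ← Real.exp_add]
  congr 2
  rw [← Finset.sum_neg_distrib, ← Finset.sum_neg_distrib, ← Finset.sum_add_distrib]
  refine Finset.sum_congr rfl fun i _ => ?_
  push_cast
  ring

private theorem b8b_one {d : ℕ} (δ : ℝ) (y : Fin d → ℝ) :
    Real.exp (-∑ j, (((fun _ => 1 : Fin d → ℕ) j : ℕ) : ℝ) * δ * y j) = Real.exp (-∑ j, δ * y j) := by
  congr 2
  refine Finset.sum_congr rfl fun i _ => ?_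
  push_cast
  ring

private theorem b8b_one' {d : ℕ} (y : Fin d → ℝ) :
    Real.exp (-∑ j, (((fun _ => 1 : Fin d → ℕ) j : ℕ) : ℝ) * y j) = Real.exp (-∑ j, y j) := by
  congr 2
  refine Finset.sum_congr rfl fun i _ => ?_
  push_cast
  ring

private theorem b8b_pe_lim {I : Type} {d n : ℕ} (w : I → ℝ) (Y : I → Fin d → ℝ)
    (c : (Fin n → ℝ) → ℝ) (Z : (Fin n → ℝ) → Fin d → ℝ) (κ A : ℝ)
    (h1 : ∀ s : Fin d → ℕ, (∀ j, 1 ≤ s j) → ∀ δ : ℝ, 0 < δ →
      Summable fun i => w i * Real.exp (-∑ j, (s j : ℝ) * δ * Y i j))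
    (h2 : ∀ s : Fin d → ℕ, (∀ j, 1 ≤ s j) → Integrable fun x => Real.exp (-∑ j, (s j : ℝ) * Z x j) * c x)
    (h3 : ∀ s : Fin d → ℕ, (∀ j, 1 ≤ s j) →
      Tendsto (fun δ : ℝ => δ ^ κ * ∑' i, w i * Real.exp (-∑ j, (s j : ℝ) * δ * Y i j)) (𝓝[>] 0)
        (𝓝 (A * ∫ x, Real.exp (-∑ j, (s j : ℝ) * Z x j) * c x)))
    (p : MvPolynomial (Fin d) ℝ) :
    Integrable (fun x => b8b_pe p (Z x) * c x) ∧
    (∀ δ : ℝ, 0 < δ → Summable fun i => w i * b8b_pe p (fun j => δ * Y i j)) ∧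
    Tendsto (fun δ : ℝ => δ ^ κ * ∑' i, w i * b8b_pe p (fun j => δ * Y i j)) (𝓝[>] 0)
      (𝓝 (A * ∫ x, b8b_pe p (Z x) * c x)) := by
  have hs1 : ∀ s : Fin d →₀ ℕ, ∀ j : Fin d, 1 ≤ (fun j => s j + 1 : Fin d → ℕ) j := fun s j => by
    show 1 ≤ s j + 1
    omega
  have e1 : (fun x => b8b_pe p (Z x) * c x) = fun x => ∑ s ∈ p.support,
      p.coeff s * (Real.exp (-∑ j, (((fun j => s j + 1 : Fin d → ℕ) j : ℕ) : ℝ) * Z x j) * c x) := by
    funext x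
    rw [b8b_pe_eq, Finset.sum_mul]
    exact Finset.sum_congr rfl fun s _ => by ring
  have hI : ∀ s ∈ p.support, Integrable (fun x =>
      p.coeff s * (Real.exp (-∑ j, (((fun j => s j + 1 : Fin d → ℕ) j : ℕ) : ℝ) * Z x j) * c x)) :=
    fun s _ => (h2 _ (hs1 s)).const_mul _
  have i2 : ∫ x, b8b_pe p (Z x) * c x = ∑ s ∈ p.support,
      p.coeff s * ∫ x, Real.exp (-∑ j, (((fun j => s j + 1 : Fin d → ℕ) j : ℕ) : ℝ) * Z x j) * c x := by
    rw [e1, integral_finsetSum _ hI]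
    refine Finset.sum_congr rfl fun s _ => ?_
    rw [integral_const_mul]
  have e2 : ∀ δ : ℝ, (fun i => w i * b8b_pe p (fun j => δ * Y i j)) = fun i => ∑ s ∈ p.support,
      p.coeff s * (w i * Real.exp (-∑ j, (((fun j => s j + 1 : Fin d → ℕ) j : ℕ) : ℝ) * δ * Y i j)) := by
    intro δ
    funext i
    rw [b8b_pe_eq, Finset.mul_sum]
    refine Finset.sum_congr rfl fun s _ => ?_
    have : (∑ j, ((s j + 1 : ℕ) : ℝ) * (δ * Y i j)) =
        ∑ j, (((fun j => s j + 1 : Fin d → ℕ) j : ℕ) : ℝ) * δ * Y i j :=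
      Finset.sum_congr rfl fun j _ => by push_cast; ring
    rw [this]
    ring
  have s1 : ∀ δ : ℝ, 0 < δ → ∀ s ∈ p.support, Summable fun i =>
      p.coeff s * (w i * Real.exp (-∑ j, (((fun j => s j + 1 : Fin d → ℕ) j : ℕ) : ℝ) * δ * Y i j)) :=
    fun δ hδ s _ => (h1 _ (hs1 s) δ hδ).mul_left _
  refine ⟨?_, ?_, ?_⟩
  · rw [e1]
    exact integrable_finsetSum _ hI
  · intro δ hδ
    rw [e2 δ]
    exact summable_sum (s1 δ hδ)
  · have t1 : ∀ δ : ℝ, 0 < δ → δ ^ κ * ∑' i, w i * b8b_pe p (fun j => δ * Y i j) = ∑ s ∈ p.support,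
        p.coeff s * (δ ^ κ * ∑' i, w i *
          Real.exp (-∑ j, (((fun j => s j + 1 : Fin d → ℕ) j : ℕ) : ℝ) * δ * Y i j)) := by
      intro δ hδ
      rw [e2 δ, Summable.tsum_finsetSum (s1 δ hδ), Finset.mul_sum]
      refine Finset.sum_congr rfl fun s _ => ?_
      rw [tsum_mul_left]
      ring
    have t2 : Tendsto (fun δ : ℝ => ∑ s ∈ p.support,
        p.coeff s * (δ ^ κ * ∑' i, w i *
          Real.exp (-∑ j, (((fun j => s j + 1 : Fin d → ℕ) j : ℕ) : ℝ) * δ * Y i j))) (𝓝[>] 0)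
        (𝓝 (∑ s ∈ p.support, p.coeff s * (A *
          ∫ x, Real.exp (-∑ j, (((fun j => s j + 1 : Fin d → ℕ) j : ℕ) : ℝ) * Z x j) * c x))) :=
      tendsto_finsetSum _ fun s _ => (h3 _ (hs1 s)).const_mul _
    have t3 : A * ∫ x, b8b_pe p (Z x) * c x = ∑ s ∈ p.support, p.coeff s * (A *
          ∫ x, Real.exp (-∑ j, (((fun j => s j + 1 : Fin d → ℕ) j : ℕ) : ℝ) * Z x j) * c x) := by
      rw [i2, Finset.mul_sum]
      refine Finset.sum_congr rfl fun s _ => ?_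
      ring
    rw [t3]
    refine t2.congr' ?_
    filter_upwards [self_mem_nhdsWithin] with δ hδ
    exact (t1 δ hδ).symm

private theorem b8b_sum {I : Type} {d : ℕ} (w : I → ℝ) (Y : I → Fin d → ℝ) (hw : ∀ i, 0 ≤ w i) (hY : ∀ i j, 0 ≤ Y i j)
    (G P : (Fin d → ℝ) → ℝ) (ε : ℝ)
    (h : ∀ y : Fin d → ℝ, (∀ j, 0 ≤ y j) → |G y - P y| ≤ ε * Real.exp (-∑ j, y j)) (κ δ : ℝ) (hδ : 0 < δ)
    (hP : Summable fun i => w i * P (fun j => δ * Y i j))
    (hE : Summable fun i => w i * Real.exp (-∑ j, δ * Y i j)) :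
    |δ ^ κ * (∑' i, w i * G (fun j => δ * Y i j)) - δ ^ κ * ∑' i, w i * P (fun j => δ * Y i j)| ≤
      ε * (δ ^ κ * ∑' i, w i * Real.exp (-∑ j, δ * Y i j)) := by
  have hb : ∀ i, ‖w i * (G (fun j => δ * Y i j) - P (fun j => δ * Y i j))‖ ≤
      ε * (w i * Real.exp (-∑ j, δ * Y i j)) := by
    intro i
    rw [norm_mul, Real.norm_of_nonneg (hw i), Real.norm_eq_abs]
    have h1 := h (fun j => δ * Y i j) (fun j => mul_nonneg hδ.le (hY i j))
    calc w i * |G (fun j => δ * Y i j) - P (fun j => δ * Y i j)| ≤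
        w i * (ε * Real.exp (-∑ j, δ * Y i j)) := mul_le_mul_of_nonneg_left h1 (hw i)
      _ = _ := by ring
  have hD : Summable fun i => w i * (G (fun j => δ * Y i j) - P (fun j => δ * Y i j)) :=
    Summable.of_norm_bounded (hE.mul_left ε) hb
  have hG : Summable fun i => w i * G (fun j => δ * Y i j) := by
    have h1 := hD.add hP
    refine h1.congr fun i => ?_
    ring
  have h1 : δ ^ κ * (∑' i, w i * G (fun j => δ * Y i j)) - δ ^ κ * ∑' i, w i * P (fun j => δ * Y i j) =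
      δ ^ κ * ∑' i, w i * (G (fun j => δ * Y i j) - P (fun j => δ * Y i j)) := by
    rw [← mul_sub, ← hG.tsum_sub hP]
    congr 1
    apply tsum_congr
    intro i
    ring
  have h2 : |∑' i, w i * (G (fun j => δ * Y i j) - P (fun j => δ * Y i j))| ≤
      ε * ∑' i, w i * Real.exp (-∑ j, δ * Y i j) := by
    rw [← tsum_mul_left]
    exact tsum_of_norm_bounded ((hE.mul_left ε).hasSum) hb
  have hpos : 0 < δ ^ κ := Real.rpow_pos_of_pos hδ κ
  rw [h1, abs_mul, abs_of_pos hpos]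
  calc δ ^ κ * |∑' i, w i * (G (fun j => δ * Y i j) - P (fun j => δ * Y i j))| ≤
      δ ^ κ * (ε * ∑' i, w i * Real.exp (-∑ j, δ * Y i j)) := mul_le_mul_of_nonneg_left h2 hpos.le
    _ = _ := by ring

private theorem b8b_int {d n : ℕ} 
    (c : (Fin n → ℝ) → ℝ) (Z : (Fin n → ℝ) → Fin d → ℝ) (hc : ∀ x, 0 ≤ c x) (hcm : Measurable c) (hZm : Measurable Z)
    (hZ : ∀ x, c x ≠ 0 → ∀ j, 0 ≤ Z x j)
    (G P : (Fin d → ℝ) → ℝ) (hG : Continuous G) (ε : ℝ)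
    (h : ∀ y : Fin d → ℝ, (∀ j, 0 ≤ y j) → |G y - P y| ≤ ε * Real.exp (-∑ j, y j))
    (hP : Integrable fun x => P (Z x) * c x)
    (hE : Integrable fun x => Real.exp (-∑ j, Z x j) * c x) :
    |(∫ x, G (Z x) * c x) - ∫ x, P (Z x) * c x| ≤ ε * ∫ x, Real.exp (-∑ j, Z x j) * c x := by
  have hGm : AEStronglyMeasurable (fun x => G (Z x) * c x) volume :=
    ((hG.measurable.comp hZm).mul hcm).aestronglyMeasurable
  have hb : ∀ x, ‖G (Z x) * c x - P (Z x) * c x‖ ≤ ε * (Real.exp (-∑ j, Z x j) * c x) := by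
    intro x
    by_cases hx : c x = 0
    · rw [hx]; simp
    · rw [← sub_mul, norm_mul, Real.norm_eq_abs, Real.norm_of_nonneg (hc x)]
      calc |G (Z x) - P (Z x)| * c x ≤ (ε * Real.exp (-∑ j, Z x j)) * c x :=
            mul_le_mul_of_nonneg_right (h _ (hZ x hx)) (hc x)
        _ = _ := by ring
  have hD : Integrable (fun x => G (Z x) * c x - P (Z x) * c x) :=
    (hE.const_mul ε).mono' (hGm.sub hP.aestronglyMeasurable) (Filter.Eventually.of_forall hb)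
  have hGi : Integrable (fun x => G (Z x) * c x) := by
    have h1 := hD.add hP
    refine h1.congr (Filter.Eventually.of_forall fun x => ?_)
    simp
  rw [← integral_sub hGi hP, ← integral_const_mul, ← Real.norm_eq_abs]
  exact norm_integral_le_of_norm_le (hE.const_mul ε) (Filter.Eventually.of_forall hb)

theorem weak_limit {I : Type} {d n : ℕ} (w : I → ℝ) (Y : I → Fin d → ℝ) (hw : ∀ i, 0 ≤ w i) (hY : ∀ i j, 0 ≤ Y i j)
    (c : (Fin n → ℝ) → ℝ) (Z : (Fin n → ℝ) → Fin d → ℝ) (hc : ∀ x, 0 ≤ c x) (hcm : Measurable c) (hZm : Measurable Z)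
    (hZ : ∀ x, c x ≠ 0 → ∀ j, 0 ≤ Z x j) (κ A : ℝ)
    (h1 : ∀ s : Fin d → ℕ, (∀ j, 1 ≤ s j) → ∀ δ : ℝ, 0 < δ →
      Summable fun i => w i * Real.exp (-∑ j, (s j : ℝ) * δ * Y i j))
    (h2 : ∀ s : Fin d → ℕ, (∀ j, 1 ≤ s j) → Integrable fun x => Real.exp (-∑ j, (s j : ℝ) * Z x j) * c x)
    (h3 : ∀ s : Fin d → ℕ, (∀ j, 1 ≤ s j) →
      Tendsto (fun δ : ℝ => δ ^ κ * ∑' i, w i * Real.exp (-∑ j, (s j : ℝ) * δ * Y i j)) (𝓝[>] 0)
        (𝓝 (A * ∫ x, Real.exp (-∑ j, (s j : ℝ) * Z x j) * c x)))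
    (G : (Fin d → ℝ) → ℝ) (hG : Continuous G) (R : ℝ)
    (hR : ∀ y : Fin d → ℝ, (∀ j, 0 ≤ y j) → (∃ j, R < y j) → G y = 0) :
    Tendsto (fun δ : ℝ => δ ^ κ * ∑' i, w i * G (fun j => δ * Y i j)) (𝓝[>] 0) (𝓝 (A * ∫ x, G (Z x) * c x)) := by
  have k2 : Integrable fun x => Real.exp (-∑ j, Z x j) * c x := by
    have := h2 (fun _ => 1) (fun _ => le_rfl)
    refine this.congr (Filter.Eventually.of_forall fun x => ?_)
    show Real.exp (-∑ j, (((fun _ => 1 : Fin d → ℕ) j : ℕ) : ℝ) * Z x j) * c x = _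
    rw [b8b_one']
  have k1 : ∀ δ : ℝ, 0 < δ → Summable fun i => w i * Real.exp (-∑ j, δ * Y i j) := by
    intro δ hδ
    have := h1 (fun _ => 1) (fun _ => le_rfl) δ hδ
    refine this.congr fun i => ?_
    rw [b8b_one]
  obtain ⟨J, hJ⟩ : ∃ J : ℝ, J = ∫ x, Real.exp (-∑ j, Z x j) * c x := ⟨_, rfl⟩
  have hJ0 : 0 ≤ J := by
    rw [hJ]
    exact integral_nonneg fun x => mul_nonneg (Real.exp_pos _).le (hc x)
  have k3 : Tendsto (fun δ : ℝ => δ ^ κ * ∑' i, w i * Real.exp (-∑ j, δ * Y i j)) (𝓝[>] 0) (𝓝 (A * J)) := by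
    have := h3 (fun _ => 1) (fun _ => le_rfl)
    simp only [b8b_one, b8b_one'] at this
    rw [hJ]
    exact this
  rw [Metric.tendsto_nhds]
  intro η hη
  have hB : 0 < |A| * J + |A * J| + 1 := by positivity
  obtain ⟨ε, hεd⟩ : ∃ ε : ℝ, ε = η / (3 * (|A| * J + |A * J| + 1)) := ⟨_, rfl⟩
  have hε : 0 < ε := by rw [hεd]; positivity
  have he : ε * (|A| * J + |A * J| + 1) = η / 3 := by
    rw [hεd]
    field_simp
  obtain ⟨p, hp⟩ := approxD d G hG R hR ε hε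
  have hp' : ∀ y : Fin d → ℝ, (∀ j, 0 ≤ y j) → |G y - b8b_pe p y| ≤ ε * Real.exp (-∑ j, y j) := hp
  obtain ⟨q1, q2, q3⟩ := b8b_pe_lim w Y c Z κ A h1 h2 h3 p
  rw [Metric.tendsto_nhds] at q3 k3
  filter_upwards [q3 (η / 3) (by positivity), k3 1 one_pos, self_mem_nhdsWithin] with δ a1 a2 hδ
  have hδ0 : 0 < δ := hδ
  rw [Real.dist_eq] at a1 a2 ⊢
  have hb := b8b_sum w Y hw hY G (b8b_pe p) ε hp' κ δ hδ0 (q2 δ hδ0) (k1 δ hδ0)
  have hcI := b8b_int c Z hc hcm hZm hZ G (b8b_pe p) hG ε hp' q1 k2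
  rw [← hJ] at hcI
  have hd : δ ^ κ * ∑' i, w i * Real.exp (-∑ j, δ * Y i j) ≤ |A * J| + 1 := by
    have := (abs_lt.mp a2).2
    linarith [le_abs_self (A * J)]
  have hf : |A * (∫ x, b8b_pe p (Z x) * c x) - A * ∫ x, G (Z x) * c x| ≤ |A| * (ε * J) := by
    rw [← mul_sub, abs_mul, abs_sub_comm]
    exact mul_le_mul_of_nonneg_left hcI (abs_nonneg A)
  have hg1 : |δ ^ κ * (∑' i, w i * G (fun j => δ * Y i j)) - δ ^ κ * ∑' i, w i * b8b_pe p (fun j => δ * Y i j)| ≤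
      ε * (|A * J| + 1) := hb.trans (mul_le_mul_of_nonneg_left hd hε.le)
  have key := abs_sub_le (δ ^ κ * (∑' i, w i * G (fun j => δ * Y i j)))
    (δ ^ κ * ∑' i, w i * b8b_pe p (fun j => δ * Y i j)) (A * ∫ x, G (Z x) * c x)
  have key2 := abs_sub_le (δ ^ κ * ∑' i, w i * b8b_pe p (fun j => δ * Y i j))
    (A * ∫ x, b8b_pe p (Z x) * c x) (A * ∫ x, G (Z x) * c x)
  have h5 : |A| * (ε * J) + ε * (|A * J| + 1) = η / 3 := by
    rw [← he]; ring
  linarith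

end Pool.Agent.LibFM89
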