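import Pool.Agent.LibFM89.B6
import Pool.Agent.LibFM89.B7
import Pool.Agent.LibFM89.B8b

/-! # FM89 B9: the limit of SS (MEDIUM)

PLAN.  Put `δ = 1/log T`.  `SS f χ T = ∑' q, wq q G(δ yq q)` with
`G(y) = χ(y0) f(y1) f(y2) (1 - y0 - y1 + 2 y3)(1 - y0 - y2 + 2 y4) κ(y3) κ(y4)`, `κ(t) = max 0 (min 1 (2-t))`:
expand `V1²` over `l₁, l₂ ≤ T`; a quadruple with `wq q G ≠ 0` has `log m + log n ≤ (5/6-ε) log T`, `log l_i ≤ (1/6-ε) log T`, hence
`m, n, l₁, l₂ ≤ T` and `y3 ≤ y1 ≤ 1/6`, `y4 ≤ y2 ≤ 1/6` (gcd divides `l`), `κ = 1`; the finite sum is the `tsum` (finite support: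
`tsum_eq_sum` and a bijection of `idx T ×ˢ Icc ×ˢ Icc` with its image in `ℕ+ × ℕ+ × ℕ+ × ℕ+`; `idx T` = coprime pairs in `[1,T]`).
On the cells: `1 - sB x - l1 x + 2 g1 x = 1 - c - e - u`, `1 - sB x - l2 x + 2 g2 x = 1 - b - e - v` (ring), `g1 x ≤ l1 x ≤ 1/6` when
`f(l1 x) ≠ 0`, `κ = 1`: `∫ G(Zc x) cB x = BB f χ`.  `weak_limit` (B8b) with `w = wq`, `Y = yq`, `κ = 17/4`, `A = Aconst (5/2)`, `R = 2`,
`h1` = `quad_eq` (with `s_i δ`), `h2`, `cells_laplace`, `h3` = `MG_limit` + `cells_laplace`.  `δ = 1/log T → 0+` (`tendsto_inv_atTop_nhdsGT_zero`). -/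

set_option autoImplicit false

namespace Pool.Agent.LibFM89

open MeasureTheory Set Filter Topology Complex ProbabilityTheory
open scoped NNReal ComplexConjugate
open Pool.Agent.LibZM
open Pool.Agent.LibSM47 (gam ch idx)

/-- The cutoff `max 0 (min 1 (2 - t))`. -/
private noncomputable def B9_kap (t : ℝ) : ℝ := max 0 (min 1 (2 - t))

private theorem B9_kap_one {t : ℝ} (ht : t ≤ 1) : B9_kap t = 1 := by
  unfold B9_kap
  rw [min_eq_left (by linarith), max_eq_right (by norm_num)]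

private theorem B9_kap_zero {t : ℝ} (ht : 2 ≤ t) : B9_kap t = 0 := by
  unfold B9_kap
  exact max_eq_left ((min_le_right _ _).trans (by linarith))

private theorem B9_kap_cont : Continuous B9_kap := by
  unfold B9_kap
  fun_prop

/-- The test function. -/
private noncomputable def B9_G (f χ : ℝ → ℝ) (y : Fin 5 → ℝ) : ℝ :=
  χ (y 0) * f (y 1) * f (y 2) * (1 - y 0 - y 1 + 2 * y 3) * (1 - y 0 - y 2 + 2 * y 4) * B9_kap (y 3) * B9_kap (y 4)

private theorem B9_G_cont {ε : ℝ} {f χ : ℝ → ℝ} (hf : AdmF ε f) (hχ : AdmX ε χ) : Continuous (B9_G f χ) := by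
  unfold B9_G
  have h1 := hf.1
  have h2 := hχ.1
  have h3 := B9_kap_cont
  fun_prop

private theorem B9_G_zero {ε : ℝ} (hε : 0 < ε) {f χ : ℝ → ℝ} (hf : AdmF ε f) (hχ : AdmX ε χ) (y : Fin 5 → ℝ)
    (hj : ∃ j, (2:ℝ) < y j) : B9_G f χ y = 0 := by
  obtain ⟨j, hj⟩ := hj
  have hf0 : ∀ x : ℝ, 2 < x → f x = 0 := by
    intro x hx
    by_contra h
    have := hf.2.2 x h
    linarith
  have hχ0 : ∀ x : ℝ, 2 < x → χ x = 0 := by
    intro x hx
    by_contra h
    have := hχ.2.2 x h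
    linarith
  unfold B9_G
  fin_cases j
  · have h : χ (y 0) = 0 := hχ0 _ hj
    rw [h]; ring
  · have h : f (y 1) = 0 := hf0 _ hj
    rw [h]; ring
  · have h : f (y 2) = 0 := hf0 _ hj
    rw [h]; ring
  · have h : B9_kap (y 3) = 0 := B9_kap_zero (le_of_lt hj)
    rw [h]; ring
  · have h : B9_kap (y 4) = 0 := B9_kap_zero (le_of_lt hj)
    rw [h]; ring

private theorem B9_G_eq {ε : ℝ} (hε : 0 < ε) {f χ : ℝ → ℝ} (hf : AdmF ε f) (y : Fin 5 → ℝ)
    (h3 : y 3 ≤ y 1) (h4 : y 4 ≤ y 2) :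
    B9_G f χ y = χ (y 0) * f (y 1) * f (y 2) * (1 - y 0 - y 1 + 2 * y 3) * (1 - y 0 - y 2 + 2 * y 4) := by
  unfold B9_G
  by_cases h1 : f (y 1) = 0
  · rw [h1]; ring
  by_cases h2 : f (y 2) = 0
  · rw [h2]; ring
  have k1 := hf.2.2 _ h1
  have k2 := hf.2.2 _ h2
  rw [B9_kap_one (by linarith), B9_kap_one (by linarith)]
  ring

private theorem B9_G_ne {ε : ℝ} (hε : 0 < ε) {f χ : ℝ → ℝ} (hf : AdmF ε f) (hχ : AdmX ε χ) (y : Fin 5 → ℝ)
    (h : B9_G f χ y ≠ 0) : y 0 ≤ 1 ∧ y 1 ≤ 1 ∧ y 2 ≤ 1 := by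
  unfold B9_G at h
  have h1 := left_ne_zero_of_mul (left_ne_zero_of_mul (left_ne_zero_of_mul (left_ne_zero_of_mul h)))
  have h2 := right_ne_zero_of_mul h1
  have h3 := right_ne_zero_of_mul (left_ne_zero_of_mul h1)
  have h4 := left_ne_zero_of_mul (left_ne_zero_of_mul h1)
  have k1 := hf.2.2 _ h2
  have k2 := hf.2.2 _ h3
  have k3 := hχ.2.2 _ h4
  refine ⟨by linarith, by linarith, by linarith⟩

private theorem B9_int {ε : ℝ} (hε : 0 < ε) {f χ : ℝ → ℝ} (hf : AdmF ε f) :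
    ∫ x : Fin 6 → ℝ, B9_G f χ (Zc x) * cB x = BB f χ := by
  unfold BB
  congr 1
  funext x
  by_cases hx : cB x = 0
  · rw [hx, mul_zero, mul_zero]
  have hpos := cB_props.2.2.2 x hx
  have z0 : Zc x 0 = sB x := rfl
  have z1 : Zc x 1 = l1 x := rfl
  have z2 : Zc x 2 = l2 x := rfl
  have z3 : Zc x 3 = g1 x := rfl
  have z4 : Zc x 4 = g2 x := rfl
  rw [B9_G_eq hε hf (Zc x), z0, z1, z2, z3, z4]
  · have e1 : 1 - sB x - l1 x + 2 * g1 x = 1 - x 2 - x 3 - x 4 := by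
      unfold sB l1 g1; ring
    have e2 : 1 - sB x - l2 x + 2 * g2 x = 1 - x 1 - x 3 - x 5 := by
      unfold sB l2 g2; ring
    rw [e1, e2]
    unfold WB
    ring
  · rw [z3, z1]
    unfold g1 l1
    have := hpos 4
    linarith
  · rw [z4, z2]
    unfold g2 l2
    have := hpos 5
    linarith

private theorem B9_idx {T : ℝ} (hT : 1 < T) {p : ℕ × ℕ} :
    p ∈ idx T ↔ 1 ≤ p.1 ∧ (p.1 : ℝ) ≤ T ∧ 1 ≤ p.2 ∧ (p.2 : ℝ) ≤ T ∧ Nat.Coprime p.1 p.2 := by
  unfold idx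
  rw [Finset.mem_filter, Finset.mem_product, Finset.mem_Icc, Finset.mem_Icc,
    Nat.le_floor_iff (by linarith), Nat.le_floor_iff (by linarith)]
  tauto

private theorem B9_coe {n : ℕ} (h : 1 ≤ n) : ((n.toPNat' : ℕ+) : ℕ) = n := by
  rw [Nat.toPNat'_coe, if_pos (by omega)]

/-- the quadruple -/
private def B9_phi (x : (ℕ × ℕ) × ℕ × ℕ) : ℕ+ × ℕ+ × ℕ+ × ℕ+ :=
  (x.1.1.toPNat', x.1.2.toPNat', x.2.1.toPNat', x.2.2.toPNat')

private theorem B9_wq_nonneg (q : ℕ+ × ℕ+ × ℕ+ × ℕ+) : 0 ≤ wq q := by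
  unfold wq
  split_ifs
  · have h1 := tau_nonneg (by norm_num : (0:ℝ) ≤ 1 / 2) (q.2.2.1 : ℕ)
    have h2 := tau_nonneg (by norm_num : (0:ℝ) ≤ 1 / 2) (q.2.2.2 : ℕ)
    positivity
  · exact le_rfl

private theorem B9_yq_nonneg (q : ℕ+ × ℕ+ × ℕ+ × ℕ+) (j : Fin 5) : 0 ≤ yq q j := by
  have h1 : (1 : ℝ) ≤ ((q.1 : ℕ) : ℝ) := by exact_mod_cast q.1.pos
  have h2 : (1 : ℝ) ≤ ((q.2.1 : ℕ) : ℝ) := by exact_mod_cast q.2.1.pos
  have h3 : (1 : ℝ) ≤ ((q.2.2.1 : ℕ) : ℝ) := by exact_mod_cast q.2.2.1.pos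
  have h4 : (1 : ℝ) ≤ ((q.2.2.2 : ℕ) : ℝ) := by exact_mod_cast q.2.2.2.pos
  have h5 : (1 : ℝ) ≤ ((Nat.gcd q.2.2.1 q.1 : ℕ) : ℝ) := by
    exact_mod_cast Nat.gcd_pos_of_pos_left _ q.2.2.1.pos
  have h6 : (1 : ℝ) ≤ ((Nat.gcd q.2.2.2 q.1 : ℕ) : ℝ) := by
    exact_mod_cast Nat.gcd_pos_of_pos_left _ q.2.2.2.pos
  unfold yq
  fin_cases j
  · exact add_nonneg (Real.log_nonneg h1) (Real.log_nonneg h2)
  · exact Real.log_nonneg h3
  · exact Real.log_nonneg h4
  · exact Real.log_nonneg h5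
  · exact Real.log_nonneg h6

/-- The finite sum is the series. -/
private theorem B9_sum {ε : ℝ} (hε : 0 < ε) {f χ : ℝ → ℝ} (hf : AdmF ε f) (hχ : AdmX ε χ) {T : ℝ} (hT : 1 < T) :
    SS f χ T = ∑' q : ℕ+ × ℕ+ × ℕ+ × ℕ+, wq q * B9_G f χ (fun j => (Real.log T)⁻¹ * yq q j) := by
  classical
  have hL : 0 < Real.log T := Real.log_pos hT
  have hT0 : 0 < T := by linarith
  set N : Finset ℕ := Finset.Icc 1 ⌊T⌋₊ with hN
  have hNmem : ∀ l : ℕ, l ∈ N ↔ 1 ≤ l ∧ (l:ℝ) ≤ T := by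
    intro l
    rw [hN, Finset.mem_Icc, Nat.le_floor_iff hT0.le]
  set S : Finset ((ℕ × ℕ) × ℕ × ℕ) := idx T ×ˢ (N ×ˢ N) with hS
  rw [tsum_eq_sum (s := S.image B9_phi) (fun q hq => ?_)]
  · rw [Finset.sum_image (fun x hx y hy hxy => ?_)]
    · rw [hS, Finset.sum_product]
      unfold SS
      refine Finset.sum_congr rfl fun p hp => ?_
      obtain ⟨hp1, -, hp2, -, hpc⟩ := (B9_idx hT).1 hp
      unfold V1
      rw [sq, Finset.sum_mul_sum, Finset.mul_sum, Finset.sum_product]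
      refine Finset.sum_congr rfl fun l hl => ?_
      rw [Finset.mul_sum]
      refine Finset.sum_congr rfl fun l' hl' => ?_
      have hl1 := ((hNmem l).1 hl).1
      have hl2 := ((hNmem l').1 hl').1
      have c1 : (((B9_phi (p, l, l')).1 : ℕ+) : ℕ) = p.1 := B9_coe hp1
      have c2 : (((B9_phi (p, l, l')).2.1 : ℕ+) : ℕ) = p.2 := B9_coe hp2
      have c3 : (((B9_phi (p, l, l')).2.2.1 : ℕ+) : ℕ) = l := B9_coe hl1
      have c4 : (((B9_phi (p, l, l')).2.2.2 : ℕ+) : ℕ) = l' := B9_coe hl2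
      have hw : wq (B9_phi (p, l, l')) = ((p.1 : ℝ) * p.2)⁻¹ * (tau (1 / 2) l * ((Nat.gcd l p.1 : ℝ) / l)) *
          (tau (1 / 2) l' * ((Nat.gcd l' p.1 : ℝ) / l')) := by
        unfold wq
        rw [c1, c2, c3, c4, if_pos hpc]
      have hy : yq (B9_phi (p, l, l')) = ![Real.log p.1 + Real.log p.2, Real.log l, Real.log l',
          Real.log (Nat.gcd l p.1), Real.log (Nat.gcd l' p.1)] := by
        unfold yq
        rw [c1, c2, c3, c4]
      have hg1 : Real.log (Nat.gcd l p.1) ≤ Real.log l := by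
        apply Real.log_le_log
        · exact_mod_cast Nat.gcd_pos_of_pos_left _ hl1
        · exact_mod_cast Nat.gcd_le_left _ hl1
      have hg2 : Real.log (Nat.gcd l' p.1) ≤ Real.log l' := by
        apply Real.log_le_log
        · exact_mod_cast Nat.gcd_pos_of_pos_left _ hl2
        · exact_mod_cast Nat.gcd_le_left _ hl2
      rw [hw, hy, B9_G_eq hε hf]
      · have y0 : (![Real.log p.1 + Real.log p.2, Real.log l, Real.log l',
          Real.log (Nat.gcd l p.1), Real.log (Nat.gcd l' p.1)] : Fin 5 → ℝ) 0 = Real.log p.1 + Real.log p.2 := rfl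
        have y1 : (![Real.log p.1 + Real.log p.2, Real.log l, Real.log l',
          Real.log (Nat.gcd l p.1), Real.log (Nat.gcd l' p.1)] : Fin 5 → ℝ) 1 = Real.log l := rfl
        have y2 : (![Real.log p.1 + Real.log p.2, Real.log l, Real.log l',
          Real.log (Nat.gcd l p.1), Real.log (Nat.gcd l' p.1)] : Fin 5 → ℝ) 2 = Real.log l' := rfl
        have y3 : (![Real.log p.1 + Real.log p.2, Real.log l, Real.log l',
          Real.log (Nat.gcd l p.1), Real.log (Nat.gcd l' p.1)] : Fin 5 → ℝ) 3 = Real.log (Nat.gcd l p.1) := rfl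
        have y4 : (![Real.log p.1 + Real.log p.2, Real.log l, Real.log l',
          Real.log (Nat.gcd l p.1), Real.log (Nat.gcd l' p.1)] : Fin 5 → ℝ) 4 = Real.log (Nat.gcd l' p.1) := rfl
        rw [y0, y1, y2, y3, y4]
        unfold xq aP wl
        have d1 : (Real.log T)⁻¹ * (Real.log p.1 + Real.log p.2) = (Real.log p.1 + Real.log p.2) / Real.log T := by
          rw [div_eq_inv_mul]
        have d2 : (Real.log T)⁻¹ * Real.log l = Real.log l / Real.log T := by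
          rw [div_eq_inv_mul]
        have d3 : (Real.log T)⁻¹ * Real.log l' = Real.log l' / Real.log T := by
          rw [div_eq_inv_mul]
        rw [d1, d2, d3]
        have k1 : 1 - (Real.log p.1 + Real.log p.2 + Real.log l - 2 * Real.log (Nat.gcd l p.1)) / Real.log T =
            1 - (Real.log p.1 + Real.log p.2) / Real.log T - Real.log l / Real.log T +
              2 * ((Real.log T)⁻¹ * Real.log (Nat.gcd l p.1)) := by
          ring
        have k2 : 1 - (Real.log p.1 + Real.log p.2 + Real.log l' - 2 * Real.log (Nat.gcd l' p.1)) / Real.log T =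
            1 - (Real.log p.1 + Real.log p.2) / Real.log T - Real.log l' / Real.log T +
              2 * ((Real.log T)⁻¹ * Real.log (Nat.gcd l' p.1)) := by
          ring
        rw [k1, k2]
        ring
      · exact mul_le_mul_of_nonneg_left hg1 (inv_nonneg.2 hL.le)
      · exact mul_le_mul_of_nonneg_left hg2 (inv_nonneg.2 hL.le)
    · -- injectivity
      obtain ⟨⟨m, n⟩, l, l'⟩ := x
      obtain ⟨⟨m2, n2⟩, k, k'⟩ := y
      rw [hS, Finset.mem_coe, Finset.mem_product, Finset.mem_product] at hx hy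
      obtain ⟨hx1, hx2, hx3⟩ := hx
      obtain ⟨hy1, hy2, hy3⟩ := hy
      obtain ⟨a1, -, a2, -, -⟩ := (B9_idx hT).1 hx1
      obtain ⟨b1, -, b2, -, -⟩ := (B9_idx hT).1 hy1
      have a3 := ((hNmem _).1 hx2).1
      have a4 := ((hNmem _).1 hx3).1
      have b3 := ((hNmem _).1 hy2).1
      have b4 := ((hNmem _).1 hy3).1
      simp only at a1 a2 a3 a4 b1 b2 b3 b4
      have k1 := congrArg (fun q : ℕ+ × ℕ+ × ℕ+ × ℕ+ => (q.1 : ℕ)) hxy
      have k2 := congrArg (fun q : ℕ+ × ℕ+ × ℕ+ × ℕ+ => (q.2.1 : ℕ)) hxy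
      have k3 := congrArg (fun q : ℕ+ × ℕ+ × ℕ+ × ℕ+ => (q.2.2.1 : ℕ)) hxy
      have k4 := congrArg (fun q : ℕ+ × ℕ+ × ℕ+ × ℕ+ => (q.2.2.2 : ℕ)) hxy
      simp only [B9_phi] at k1 k2 k3 k4
      rw [B9_coe a1, B9_coe b1] at k1
      rw [B9_coe a2, B9_coe b2] at k2
      rw [B9_coe a3, B9_coe b3] at k3
      rw [B9_coe a4, B9_coe b4] at k4
      subst k1 k2 k3 k4
      rfl
  · -- zero outside
    obtain ⟨m, n, l, l'⟩ := q
    by_contra hne
    have hw := left_ne_zero_of_mul hne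
    have hG := right_ne_zero_of_mul hne
    have hc : Nat.Coprime (m : ℕ) n := by
      by_contra hc
      apply hw
      unfold wq
      exact if_neg hc
    obtain ⟨g0, g1, g2⟩ := B9_G_ne hε hf hχ _ hG
    have hmR : (1 : ℝ) ≤ (m : ℕ) := by exact_mod_cast m.pos
    have hnR : (1 : ℝ) ≤ (n : ℕ) := by exact_mod_cast n.pos
    have hlR : (1 : ℝ) ≤ (l : ℕ) := by exact_mod_cast l.pos
    have hlR' : (1 : ℝ) ≤ (l' : ℕ) := by exact_mod_cast l'.pos
    have y0 : yq (m, n, l, l') 0 = Real.log m + Real.log n := rfl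
    have y1 : yq (m, n, l, l') 1 = Real.log l := rfl
    have y2 : yq (m, n, l, l') 2 = Real.log l' := rfl
    rw [y0] at g0
    rw [y1] at g1
    rw [y2] at g2
    have key : ∀ t : ℝ, (Real.log T)⁻¹ * t ≤ 1 → t ≤ Real.log T := by
      intro t ht
      rw [inv_mul_le_iff₀ hL, mul_one] at ht
      exact ht
    have g0' := key _ g0
    have g1' := key _ g1
    have g2' := key _ g2
    have lm := Real.log_nonneg hmR
    have ln := Real.log_nonneg hnR
    have m1 : ((m : ℕ) : ℝ) ≤ T := (Real.log_le_log_iff (by positivity) hT0).1 (by linarith)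
    have n1 : ((n : ℕ) : ℝ) ≤ T := (Real.log_le_log_iff (by positivity) hT0).1 (by linarith)
    have l1 : ((l : ℕ) : ℝ) ≤ T := (Real.log_le_log_iff (by positivity) hT0).1 (by linarith)
    have l2 : ((l' : ℕ) : ℝ) ≤ T := (Real.log_le_log_iff (by positivity) hT0).1 (by linarith)
    apply hq
    rw [Finset.mem_image]
    refine ⟨(((m : ℕ), (n : ℕ)), (l : ℕ), (l' : ℕ)), ?_, ?_⟩
    · rw [hS, Finset.mem_product, Finset.mem_product]
      refine ⟨(B9_idx hT).2 ⟨m.pos, m1, n.pos, n1, hc⟩, (hNmem _).2 ⟨l.pos, l1⟩, (hNmem _).2 ⟨l'.pos, l2⟩⟩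
    · unfold B9_phi
      simp only
      refine Prod.ext ?_ (Prod.ext ?_ (Prod.ext ?_ ?_))
      · exact PNat.coe_injective (B9_coe m.pos)
      · exact PNat.coe_injective (B9_coe n.pos)
      · exact PNat.coe_injective (B9_coe l.pos)
      · exact PNat.coe_injective (B9_coe l'.pos)

theorem SS_limit {ε : ℝ} (hε : 0 < ε) {f χ : ℝ → ℝ} (hf : AdmF ε f) (hχ : AdmX ε χ) :
    Tendsto (fun T : ℝ => SS f χ T / (Real.log T) ^ (17 / 4 : ℝ)) atTop (𝓝 (Aconst (5 / 2) * BB f χ)) := by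
  have hlim := weak_limit (w := wq) (Y := yq) B9_wq_nonneg B9_yq_nonneg cB Zc cB_props.1 cB_props.2.1
    cB_props.2.2.1 ?_ (17 / 4) (Aconst (5 / 2)) ?_ ?_ ?_ (B9_G f χ) (B9_G_cont hf hχ) 2
    (fun y _ hj => B9_G_zero hε hf hχ y hj)
  · rw [B9_int hε hf] at hlim
    have hδ : Tendsto (fun T : ℝ => (Real.log T)⁻¹) atTop (𝓝[>] 0) :=
      tendsto_inv_atTop_nhdsGT_zero.comp Real.tendsto_log_atTop
    refine (hlim.comp hδ).congr' ?_
    filter_upwards [eventually_gt_atTop 1] with T hT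
    have hL : 0 < Real.log T := Real.log_pos hT
    simp only [Function.comp]
    rw [B9_sum hε hf hχ hT, Real.inv_rpow hL.le]
    exact (div_eq_inv_mul _ _).symm
  · intro x hx j
    have hpos := cB_props.2.2.2 x hx
    have h0 := hpos 0
    have h1 := hpos 1
    have h2 := hpos 2
    have h3 := hpos 3
    have h4 := hpos 4
    have h5 := hpos 5
    unfold Zc sB l1 l2 g1 g2
    fin_cases j
    · change 0 ≤ x 0 + x 1 + x 2 + x 3
      positivity
    · change 0 ≤ x 0 + x 1 + x 4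
      positivity
    · change 0 ≤ x 0 + x 2 + x 5
      positivity
    · change 0 ≤ x 0 + x 1
      positivity
    · change 0 ≤ x 0 + x 2
      positivity
  · intro s hs δ hδ
    have hs' : ∀ i, 0 < (s i : ℝ) * δ := by
      intro i
      have : (0:ℝ) < s i := by exact_mod_cast hs i
      positivity
    exact (quad_eq (fun i => (s i : ℝ) * δ) hs').1
  · intro s hs
    have hs' : ∀ i, (0:ℝ) < (s i : ℝ) := fun i => by exact_mod_cast hs i
    exact (cells_laplace (fun i => (s i : ℝ)) hs').1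
  · intro s hs
    have hs' : ∀ i, (0:ℝ) < (s i : ℝ) := fun i => by exact_mod_cast hs i
    rw [(cells_laplace (fun i => (s i : ℝ)) hs').2]
    exact MG_limit (fun i => (s i : ℝ)) hs'

end Pool.Agent.LibFM89
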