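import Pool.Agent.LibFM89.Defs

/-! # FM89: definitions for the arithmetic limit of `SS` (block B) -/

set_option autoImplicit false

namespace Pool.Agent.LibFM89

open MeasureTheory Set Filter Topology Complex ProbabilityTheory
open scoped NNReal ComplexConjugate
open Pool.Agent.LibZM
open Pool.Agent.LibSM47 (gam ch idx)

/-- `∑_j d_{1/2}(j) x^j y^(min j k)`: local factor at `p^k ∥ m` of `∑_l d_{1/2}(l) (l,m)^(1-τ) l^(-1-σ)`, `x = p^(-1-σ)`, `y = p^(1-τ)`. -/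
noncomputable def AA (x y : ℝ) (k : ℕ) : ℝ := ∑' j : ℕ, dcoef (1 / 2) j * x ^ j * y ^ (min j k)

/-- `(1-x)^(1/2) AA`. -/
noncomputable def kf (x y : ℝ) (k : ℕ) : ℝ := (1 - x) ^ (1 / 2 : ℝ) * AA x y k

/-- Local sum over the powers of `p` in `m` (`z = p^(-1-a)`). -/
noncomputable def LS (z x y x' y' : ℝ) : ℝ :=
  1 + (1 - z) * ∑' k : ℕ, z ^ (k + 1) * (kf x y (k + 1) * kf x' y' (k + 1))

/-- Normalised local factor. -/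
noncomputable def EG (z x y x' y' : ℝ) : ℝ :=
  (1 - z) * (1 - z * (x * y)) ^ (1 / 2 : ℝ) * (1 - z * (x' * y')) ^ (1 / 2 : ℝ) *
    (1 - z * ((x * y) * (x' * y'))) ^ (1 / 4 : ℝ) * LS z x y x' y'

/-- `K(m) = ∑_l d_{1/2}(l) (l,m)^(1-τ) l^(-1-σ)`. -/
noncomputable def Kg (σ τ : ℝ) (m : ℕ) : ℝ :=
  ∑' l : ℕ+, tau (1 / 2) l * (Nat.gcd l m : ℝ) ^ (1 - τ) * (l : ℝ) ^ (-(1 + σ))

/-- The multiplicative function of `m` left after the summations over `n, l₁, l₂`. -/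
noncomputable def fm (a σ τ σ' τ' : ℝ) (m : ℕ) : ℝ :=
  (m : ℝ) ^ (-(1 + a)) * ∏ p ∈ m.primeFactors, ((1 - (p : ℝ) ^ (-(1 + a))) *
    (kf ((p : ℝ) ^ (-(1 + σ))) ((p : ℝ) ^ (1 - τ)) (m.factorization p) *
      kf ((p : ℝ) ^ (-(1 + σ'))) ((p : ℝ) ^ (1 - τ')) (m.factorization p)))

/-- The weight of the quadruple `(m,n,l₁,l₂)`. -/
noncomputable def wq (q : ℕ+ × ℕ+ × ℕ+ × ℕ+) : ℝ :=
  if Nat.Coprime q.1 q.2.1 then
    ((q.1 : ℝ) * q.2.1)⁻¹ * (tau (1 / 2) q.2.2.1 * ((Nat.gcd q.2.2.1 q.1 : ℝ) / q.2.2.1)) *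
      (tau (1 / 2) q.2.2.2 * ((Nat.gcd q.2.2.2 q.1 : ℝ) / q.2.2.2)) else 0

/-- `(log mn, log l₁, log l₂, log (l₁,m), log (l₂,m))`. -/
noncomputable def yq (q : ℕ+ × ℕ+ × ℕ+ × ℕ+) : Fin 5 → ℝ :=
  ![Real.log q.1 + Real.log q.2.1, Real.log q.2.2.1, Real.log q.2.2.2,
    Real.log (Nat.gcd q.2.2.1 q.1), Real.log (Nat.gcd q.2.2.2 q.1)]

/-- The five linear forms in the six cells. -/
noncomputable def Zc (x : Fin 6 → ℝ) : Fin 5 → ℝ := ![sB x, l1 x, l2 x, g1 x, g2 x]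

/-- The product of powers in the Laplace transform. -/
noncomputable def LP (s : Fin 5 → ℝ) : ℝ :=
  s 0 ^ (-2 : ℝ) * s 1 ^ (-(1 / 2) : ℝ) * s 2 ^ (-(1 / 2) : ℝ) * (s 0 + s 1 + s 3) ^ (-(1 / 2) : ℝ) *
    (s 0 + s 2 + s 4) ^ (-(1 / 2) : ℝ) * (s 0 + s 1 + s 2 + s 3 + s 4) ^ (-(1 / 4) : ℝ)

end Pool.Agent.LibFM89
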