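import Pool.Agent.LibFM89.CD

/-! # FM89 C1a: the cube of P (SHORT/MEDIUM)

PLAN.  Template: LibZM/DPoly.lean (`sum_mul_reindex`, `dp_mul`...) and LibZM CS/MK files for `cfg`.  `aP f T l = tw (1/2) (fun n => f (δ log n)) l` with
`δ = 1/log T`; `b3` is the product of three of them (`Fin.prod_univ_three`, `cfg`).  `F(l) = l^(-1/2) ch l (-t)` is completely
multiplicative (`ch r t = exp(i t log r)`).  Support: `aP(l) ≠ 0 → log l ≤ (1/6-ε) log T`, so `b3(h) ≠ 0 → log h ≤ (1/2-3ε) log T`, `h ≤ T`.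
Sum of coefficients: take `F(l) = l^(-1/2)`. -/

set_option autoImplicit false

namespace Pool.Agent.LibFM89

open MeasureTheory Set Filter Topology Complex ProbabilityTheory
open scoped NNReal ComplexConjugate
open Pool.Agent.LibZM
open Pool.Agent.LibSM47 (gam ch idx)

/-- the coefficients of `P` as an arithmetic function -/
private noncomputable def c1aA (f : ℝ → ℝ) (T : ℝ) : ArithmeticFunction ℝ :=
  tw (1 / 2) (fun n => f (1 / Real.log T * Real.log n))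

private theorem c1a_b3 (f : ℝ → ℝ) (T : ℝ) : b3 (fun _ => f) (1 / Real.log T) = c1aA f T ^ 3 := by
  unfold b3 cfg c1aA
  rw [Finset.prod_const, Finset.card_univ, Fintype.card_fin]

private theorem c1a_aP (f : ℝ → ℝ) (T : ℝ) (n : ℕ) : c1aA f T n = aP f T n := by
  unfold c1aA aP
  rw [tw_apply]
  congr 2
  ring

private theorem c1a_supp {ε : ℝ} {f : ℝ → ℝ} (hf : AdmF ε f) {T : ℝ} (hT : 2 ≤ T) :
    SuppLe (c1aA f T) ⌊T ^ (1 / 6 - ε : ℝ)⌋₊ := by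
  intro n hn
  by_contra h
  rw [c1a_aP] at h
  unfold aP at h
  have h1 : f (Real.log n / Real.log T) ≠ 0 := right_ne_zero_of_mul h
  have h2 := hf.2.2 _ h1
  have hlog : 0 < Real.log T := Real.log_pos (by linarith)
  rw [div_le_iff₀ hlog] at h2
  have hn0 : 0 < n := lt_of_le_of_lt (Nat.zero_le _) hn
  have hn0' : (0 : ℝ) < n := by exact_mod_cast hn0
  have h3 : (n : ℝ) ≤ T ^ (1 / 6 - ε : ℝ) := by
    rw [← Real.log_le_log_iff hn0' (Real.rpow_pos_of_pos (by linarith) _), Real.log_rpow (by linarith)]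
    exact h2
  have h4 := Nat.le_floor h3
  omega

private theorem c1a_M {ε T : ℝ} (hε : 0 < ε) (hT : 2 ≤ T) :
    (((⌊T ^ (1 / 6 - ε : ℝ)⌋₊ ^ 3 : ℕ) : ℝ) ≤ T ^ (1 / 2 - 3 * ε : ℝ)) ∧
    ⌊T ^ (1 / 6 - ε : ℝ)⌋₊ ^ 3 ≤ ⌊T⌋₊ ∧ ⌊T ^ (1 / 6 - ε : ℝ)⌋₊ ≤ ⌊T⌋₊ := by
  have hT0 : 0 < T := by linarith
  have h1 : (⌊T ^ (1 / 6 - ε : ℝ)⌋₊ : ℝ) ≤ T ^ (1 / 6 - ε : ℝ) :=
    Nat.floor_le (Real.rpow_pos_of_pos hT0 _).le
  have h2 : (((⌊T ^ (1 / 6 - ε : ℝ)⌋₊ ^ 3 : ℕ) : ℝ) ≤ T ^ (1 / 2 - 3 * ε : ℝ)) := by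
    push_cast
    calc (⌊T ^ (1 / 6 - ε : ℝ)⌋₊ : ℝ) ^ 3 ≤ (T ^ (1 / 6 - ε : ℝ)) ^ 3 := pow_le_pow_left₀ (Nat.cast_nonneg _) h1 3
      _ = T ^ (1 / 2 - 3 * ε : ℝ) := by
        rw [← Real.rpow_natCast, ← Real.rpow_mul hT0.le]
        congr 1
        push_cast
        ring
  refine ⟨h2, ?_, ?_⟩
  · apply Nat.le_floor
    refine h2.trans ?_
    calc T ^ (1 / 2 - 3 * ε : ℝ) ≤ T ^ (1 : ℝ) := Real.rpow_le_rpow_of_exponent_le (by linarith) (by linarith)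
      _ = T := Real.rpow_one T
  · apply Nat.floor_le_floor
    calc T ^ (1 / 6 - ε : ℝ) ≤ T ^ (1 : ℝ) := Real.rpow_le_rpow_of_exponent_le (by linarith) (by linarith)
      _ = T := Real.rpow_one T

private theorem c1a_pow {f : ArithmeticFunction ℝ} {M : ℕ} (hf : SuppLe f M) (F : ℕ → ℂ)
    (hF : ∀ a b, F (a * b) = F a * F b) (hF1 : F 1 = 1) (j : ℕ) :
    ∑ n ∈ Finset.Icc 1 (M ^ j), (((f ^ j) n : ℝ) : ℂ) * F n = (∑ n ∈ Finset.Icc 1 M, ((f n : ℝ) : ℂ) * F n) ^ j := by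
  induction j with
  | zero => simp [hF1]
  | succ j ih =>
    rw [pow_succ, pow_succ, pow_succ, ← ih]
    rw [sum_mul_reindex (fun n => (((f ^ j) n : ℝ) : ℂ)) (fun n => ((f n : ℝ) : ℂ)) F
      (fun n hn => by simp [hf.pow j n hn]) (fun n hn => by simp [hf n hn]) hF]
    refine Finset.sum_congr rfl fun n _ => ?_
    rw [ArithmeticFunction.mul_apply]
    push_cast
    rfl

private theorem c1a_ext {f : ArithmeticFunction ℝ} {M K : ℕ} (hf : SuppLe f M) (hMK : M ≤ K) (F : ℕ → ℂ) :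
    ∑ n ∈ Finset.Icc 1 M, ((f n : ℝ) : ℂ) * F n = ∑ n ∈ Finset.Icc 1 K, ((f n : ℝ) : ℂ) * F n := by
  refine Finset.sum_subset (Finset.Icc_subset_Icc le_rfl hMK) fun n hn hn' => ?_
  rw [Finset.mem_Icc] at hn hn'
  rw [hf n (by omega)]
  simp

private theorem c1a_F (t : ℝ) (a b : ℕ) :
    (((a * b : ℕ) : ℝ) ^ (-(1 / 2) : ℝ) : ℝ) * ch ((a * b : ℕ) : ℝ) (-t) =
      ((((a : ℝ) ^ (-(1 / 2) : ℝ) : ℝ) : ℂ) * ch a (-t)) * ((((b : ℝ) ^ (-(1 / 2) : ℝ) : ℝ) : ℂ) * ch b (-t)) := by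
  rcases Nat.eq_zero_or_pos a with rfl | ha
  · simp only [Nat.zero_mul, Nat.cast_zero]
    rw [Real.zero_rpow (by norm_num)]
    simp
  rcases Nat.eq_zero_or_pos b with rfl | hb
  · simp only [Nat.mul_zero, Nat.cast_zero]
    rw [Real.zero_rpow (by norm_num)]
    simp
  have ha' : (0 : ℝ) < a := by exact_mod_cast ha
  have hb' : (0 : ℝ) < b := by exact_mod_cast hb
  have e : ch ((a * b : ℕ) : ℝ) (-t) = ch a (-t) * ch b (-t) := by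
    unfold ch
    rw [← Complex.exp_add]
    push_cast
    rw [Real.log_mul ha'.ne' hb'.ne']
    push_cast
    congr 1
    ring
  rw [e]
  push_cast
  rw [Real.mul_rpow ha'.le hb'.le]
  push_cast
  ring

theorem b3_props {ε : ℝ} (hε : 0 < ε) {f : ℝ → ℝ} (hf : AdmF ε f) {T : ℝ} (hT : 2 ≤ T) (h : ℕ) :
    0 ≤ b3 (fun _ => f) (1 / Real.log T) h ∧
      (b3 (fun _ => f) (1 / Real.log T) h ≠ 0 → 1 ≤ h ∧ (h : ℝ) ≤ T ^ (1 / 2 - 3 * ε : ℝ)) := by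
  rw [c1a_b3]
  have hS := (c1a_supp hf hT).pow 3
  refine ⟨pow_nonneg_af (fun n => ?_) 3 h, fun hne => ⟨?_, ?_⟩⟩
  · rw [c1a_aP]
    unfold aP
    exact mul_nonneg (tau_nonneg (by norm_num) n) (hf.2.1 _).1
  · rcases Nat.eq_zero_or_pos h with rfl | hh
    · exact absurd ArithmeticFunction.map_zero hne
    · exact hh
  · have h1 : h ≤ ⌊T ^ (1 / 6 - ε : ℝ)⌋₊ ^ 3 := by
      by_contra hcon
      exact hne (hS h (by omega))
    exact le_trans (by exact_mod_cast h1) (c1a_M hε hT).1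

theorem PP_cube {ε : ℝ} (hε : 0 < ε) {f : ℝ → ℝ} (hf : AdmF ε f) {T : ℝ} (hT : 2 ≤ T) (t : ℝ) :
    PP f T t ^ 3 = ∑ h ∈ Finset.Icc 1 ⌊T⌋₊, ((b3 (fun _ => f) (1 / Real.log T) h * (h : ℝ) ^ (-(1 / 2) : ℝ) : ℝ) : ℂ) * ch h (-t) := by
  obtain ⟨_, hM3, hM1⟩ := c1a_M hε hT
  have hS := c1a_supp hf hT
  have h1 := c1a_pow hS (fun n : ℕ => (((n : ℝ) ^ (-(1 / 2) : ℝ) : ℝ) : ℂ) * ch n (-t)) (c1a_F t)
    (by unfold ch; simp) 3
  rw [c1a_ext (hS.pow 3) hM3, c1a_ext hS hM1] at h1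
  have e1 : PP f T t = ∑ n ∈ Finset.Icc 1 ⌊T⌋₊, ((c1aA f T n : ℝ) : ℂ) * ((((n : ℝ) ^ (-(1 / 2) : ℝ) : ℝ) : ℂ) * ch n (-t)) := by
    unfold PP
    refine Finset.sum_congr rfl fun n _ => ?_
    rw [c1a_aP]
    push_cast
    ring
  rw [e1, ← h1, c1a_b3]
  refine Finset.sum_congr rfl fun n _ => ?_
  push_cast
  ring

theorem b3_sum {ε : ℝ} (hε : 0 < ε) {f : ℝ → ℝ} (hf : AdmF ε f) {T : ℝ} (hT : 2 ≤ T) :
    ∑ h ∈ Finset.Icc 1 ⌊T⌋₊, b3 (fun _ => f) (1 / Real.log T) h * (h : ℝ) ^ (-(1 / 2) : ℝ) =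
      (∑ l ∈ Finset.Icc 1 ⌊T⌋₊, aP f T l * (l : ℝ) ^ (-(1 / 2) : ℝ)) ^ 3 := by
  have h := PP_cube hε hf hT 0
  unfold PP at h
  have h1 : ∀ n : ℕ, ch (n : ℝ) (-0) = 1 := by
    intro n
    unfold ch
    simp
  simp only [h1, mul_one] at h
  exact_mod_cast h.symm

end Pool.Agent.LibFM89
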