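import Pool.Agent.LibFM89.N0
import Pool.Agent.LibSM47.M_B1

/-! (add the import of the template: `import Pool.Agent.LibSM47.M_B1`)
# FM89 N1: crude bound for the coefficient sums (SHORT/MEDIUM)

PLAN.  Template `LibSM47/M_B2.lean`.  `cD ≤ (mn)^(-1/2) d(m) (1+log T)` on `mn ≤ T^(5/6-ε)` (N0; `cD ≠ 0` forces `xq ≠ 0`, hence
`log m + log n ≤ (5/6-ε) log T`), `d(m) ≤ C m^η` (`LibSM47.card_div_le`), `1 + log T ≤ C T^η`:
`∑_{m ≤ Y} m^(-1/2+η) ∑_{n ≤ Y/m} n^(-1/2) ≤ 2 Y^(1/2) ∑_{m ≤ Y} m^(-1+η) ≤ C Y^(1/2+2η)`, `Y = T^(5/6-ε)`, `η = ε/16`.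
Second: `∑_{l ≤ T^(1/6-ε)} l^(-1/2) ≤ 2 T^(1/12-ε/2)`. -/

set_option autoImplicit false

namespace Pool.Agent.LibFM89

open MeasureTheory Set Filter Topology Complex ProbabilityTheory
open scoped NNReal ComplexConjugate
open Pool.Agent.LibZM
open Pool.Agent.LibSM47 (gam ch idx)

private theorem N1_half (N : ℕ) : ∑ n ∈ Finset.Icc 1 N, (n : ℝ) ^ (-(1 / 2) : ℝ) ≤
    2 * (N : ℝ) ^ (1 / 2 : ℝ) := by
  have key : ∀ n : ℕ, ((n : ℝ)) ^ (-(1 / 2) : ℝ) = 1 / √(n : ℝ) := by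
    intro n
    rw [Real.rpow_neg (Nat.cast_nonneg _), ← Real.sqrt_eq_rpow, one_div]
  simp only [key, ← Real.sqrt_eq_rpow]
  induction N with
  | zero => simp
  | succ N ih =>
    rw [Finset.sum_Icc_succ_top (by omega)]
    have h0 : (0 : ℝ) ≤ N := Nat.cast_nonneg _
    have h1 : √(N : ℝ) ^ 2 = N := Real.sq_sqrt h0
    have h2 : √((N + 1 : ℕ) : ℝ) ^ 2 = N + 1 := by
      rw [Real.sq_sqrt (Nat.cast_nonneg _)]
      push_cast
      ring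
    have h3 : 0 < √((N + 1 : ℕ) : ℝ) := Real.sqrt_pos.2 (by positivity)
    have h4 : 0 ≤ √(N : ℝ) := Real.sqrt_nonneg _
    have h5 : 1 / √((N + 1 : ℕ) : ℝ) ≤ 2 * √((N + 1 : ℕ) : ℝ) - 2 * √(N : ℝ) := by
      rw [div_le_iff₀ h3]
      nlinarith [sq_nonneg (√((N + 1 : ℕ) : ℝ) - √(N : ℝ))]
    linarith

private theorem N1_half' (s : Finset ℕ) (X : ℝ) (hX : 0 ≤ X) (hs : ∀ n ∈ s, 1 ≤ n ∧ (n : ℝ) ≤ X) :
    ∑ n ∈ s, (n : ℝ) ^ (-(1 / 2) : ℝ) ≤ 2 * X ^ (1 / 2 : ℝ) := by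
  have h1 : s ⊆ Finset.Icc 1 ⌊X⌋₊ := fun n hn =>
    Finset.mem_Icc.2 ⟨(hs n hn).1, Nat.le_floor (hs n hn).2⟩
  refine (Finset.sum_le_sum_of_subset_of_nonneg h1 fun n _ _ =>
    Real.rpow_nonneg (Nat.cast_nonneg _) _).trans ?_
  refine (N1_half _).trans ?_
  have h2 : ((⌊X⌋₊ : ℕ) : ℝ) ^ (1 / 2 : ℝ) ≤ X ^ (1 / 2 : ℝ) :=
    Real.rpow_le_rpow (Nat.cast_nonneg _) (Nat.floor_le hX) (by norm_num)
  linarith

private theorem N1_log {η : ℝ} (hη : 0 < η) {T : ℝ} (hT : 2 ≤ T) :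
    1 + Real.log T ≤ (1 + 1 / η) * T ^ η := by
  have h1 : Real.log T ≤ T ^ η / η := Real.log_le_rpow_div (by linarith) hη
  have h2 : 1 ≤ T ^ η := Real.one_le_rpow (by linarith) hη.le
  have h3 : (1 + 1 / η) * T ^ η = T ^ η + T ^ η / η := by ring
  linarith

private theorem N1_harm {T : ℝ} (hT : 2 ≤ T) :
    ∑ m ∈ Finset.Icc 1 ⌊T⌋₊, (m : ℝ)⁻¹ ≤ 1 + Real.log T := by
  have h1 := harmonic_floor_le_one_add_log T (by linarith)
  rw [harmonic_eq_sum_Icc] at h1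
  push_cast at h1
  exact h1

private theorem N1_reg {a b T x : ℝ} (hT : 2 ≤ T) (ha : 0 < a) (hb : 0 < b)
    (h : (Real.log a + Real.log b) / Real.log T ≤ x) : a * b ≤ T ^ x := by
  have hL : 0 < Real.log T := Real.log_pos (by linarith)
  rw [div_le_iff₀ hL] at h
  rw [← Real.log_mul ha.ne' hb.ne'] at h
  rw [Real.rpow_def_of_pos (by linarith), ← Real.log_le_iff_le_exp (mul_pos ha hb)]
  linarith

theorem cD_sum {ε : ℝ} (hε : 0 < ε) (hε' : ε ≤ 1 / 100) {f χ : ℝ → ℝ} (hf : AdmF ε f) (hχ : AdmX ε χ) :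
    ∃ C : ℝ, 0 < C ∧ ∀ T : ℝ, 2 ≤ T → ∑ q ∈ idx T, cD f χ T q ≤ C * T ^ (5 / 12 - ε / 4 : ℝ) := by
  set η : ℝ := ε / 16 with hη
  have hη0 : 0 < η := by positivity
  obtain ⟨C₁, hC₁, hdiv⟩ := Pool.Agent.LibSM47.card_div_le η hη0
  set C₂ : ℝ := 1 + 1 / η with hC₂
  have hC₂0 : 0 < C₂ := by positivity
  refine ⟨C₁ * C₂ * 2 * C₂, by positivity, fun T hT => ?_⟩
  have hT0 : 0 < T := by linarith
  have hT1 : 1 ≤ T := by linarith
  set Y : ℝ := T ^ (5 / 6 - ε) with hY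
  have hY0 : 0 < Y := Real.rpow_pos_of_pos hT0 _
  set D : ℝ := C₁ * T ^ η * (C₂ * T ^ η) with hD
  have hTη : 0 < T ^ η := Real.rpow_pos_of_pos hT0 _
  have hD0 : 0 < D := by positivity
  set F : ℕ × ℕ → ℝ := fun q => if (q.1 : ℝ) * q.2 ≤ Y then
    D * ((q.1 : ℝ) ^ (-(1 / 2) : ℝ) * (q.2 : ℝ) ^ (-(1 / 2) : ℝ)) else 0 with hF
  have hFn : ∀ q, 0 ≤ F q := by
    intro q
    simp only [hF]
    split_ifs
    · positivity
    · exact le_rfl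
  have hcF : ∀ q ∈ idx T, cD f χ T q ≤ F q := by
    intro q hq
    have hq' := Finset.mem_filter.1 hq
    have hqp := Finset.mem_product.1 hq'.1
    have hm1 := Finset.mem_Icc.1 hqp.1
    have hn1 := Finset.mem_Icc.1 hqp.2
    have hm : (0 : ℝ) < q.1 := by exact_mod_cast hm1.1
    have hn : (0 : ℝ) < q.2 := by exact_mod_cast hn1.1
    have hmT : (q.1 : ℝ) ≤ T := (Nat.cast_le.2 hm1.2).trans (Nat.floor_le hT0.le)
    by_cases hx : xq χ T q = 0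
    · have : cD f χ T q = 0 := by
        unfold cD
        rw [hx]
        ring
      rw [this]
      exact hFn q
    · have hreg : (q.1 : ℝ) * q.2 ≤ Y := N1_reg hT hm hn (hχ.2.2 _ hx)
      simp only [hF]
      rw [if_pos hreg]
      obtain ⟨hV0, -, hV1, hV⟩ := V_bounds hε hf hχ hT hq hx
      have hx1 : xq χ T q ≤ 1 := (hχ.2.1 _).2
      have hx0 : 0 ≤ xq χ T q := (hχ.2.1 _).1
      have hp : 0 ≤ ((q.1 : ℝ) * q.2) ^ (-(1 / 2) : ℝ) := by positivity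
      have h1 : V0 f T q.1 ≤ D := by
        refine hV.trans ?_
        have h2 : ((q.1.divisors.card : ℕ) : ℝ) ≤ C₁ * T ^ η := by
          refine (hdiv q.1 hm1.1).trans ?_
          exact mul_le_mul_of_nonneg_left (Real.rpow_le_rpow hm.le hmT hη0.le) hC₁.le
        have h3 := N1_log hη0 hT
        have h4 : 0 ≤ 1 + Real.log T := by
          have := Real.log_nonneg hT1
          linarith
        exact mul_le_mul h2 h3 h4 (by positivity)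
      calc cD f χ T q = ((q.1 : ℝ) * q.2) ^ (-(1 / 2) : ℝ) * (xq χ T q * V1 f T q.1 q.2) := by
            unfold cD
            ring
        _ ≤ ((q.1 : ℝ) * q.2) ^ (-(1 / 2) : ℝ) * D := by
            refine mul_le_mul_of_nonneg_left ?_ hp
            calc xq χ T q * V1 f T q.1 q.2 ≤ xq χ T q * D :=
                  mul_le_mul_of_nonneg_left (hV1.trans h1) hx0
              _ ≤ 1 * D := mul_le_mul_of_nonneg_right hx1 hD0.le
              _ = D := one_mul _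
        _ = _ := by
            rw [Real.mul_rpow hm.le hn.le]
            ring
  have hs1 : ∑ q ∈ idx T, cD f χ T q ≤
      ∑ m ∈ Finset.Icc 1 ⌊T⌋₊, ∑ n ∈ Finset.Icc 1 ⌊T⌋₊, F (m, n) := by
    refine (Finset.sum_le_sum hcF).trans ?_
    rw [← Finset.sum_product']
    exact Finset.sum_le_sum_of_subset_of_nonneg (Finset.filter_subset _ _) fun q _ _ => hFn q
  have hs2 : ∀ m ∈ Finset.Icc 1 ⌊T⌋₊, ∑ n ∈ Finset.Icc 1 ⌊T⌋₊, F (m, n) ≤
      2 * D * Y ^ (1 / 2 : ℝ) * (m : ℝ)⁻¹ := by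
    intro m hm
    have hm1 := Finset.mem_Icc.1 hm
    have hm0 : (0 : ℝ) < m := by exact_mod_cast hm1.1
    have h1 : ∑ n ∈ Finset.Icc 1 ⌊T⌋₊, F (m, n) =
        D * (m : ℝ) ^ (-(1 / 2) : ℝ) *
          ∑ n ∈ (Finset.Icc 1 ⌊T⌋₊).filter (fun n : ℕ => (m : ℝ) * n ≤ Y), (n : ℝ) ^ (-(1 / 2) : ℝ) := by
      rw [Finset.mul_sum, Finset.sum_filter]
      refine Finset.sum_congr rfl fun n _ => ?_
      simp only [hF]
      split_ifs
      · ring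
      · rfl
    have h2 := N1_half' ((Finset.Icc 1 ⌊T⌋₊).filter (fun n : ℕ => (m : ℝ) * n ≤ Y)) (Y / m)
      (by positivity) (by
        intro n hn
        rw [Finset.mem_filter, Finset.mem_Icc] at hn
        refine ⟨hn.1.1, ?_⟩
        rw [le_div_iff₀ hm0, mul_comm]
        exact hn.2)
    rw [h1]
    calc D * (m : ℝ) ^ (-(1 / 2) : ℝ) *
          ∑ n ∈ (Finset.Icc 1 ⌊T⌋₊).filter (fun n : ℕ => (m : ℝ) * n ≤ Y), (n : ℝ) ^ (-(1 / 2) : ℝ)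
        ≤ D * (m : ℝ) ^ (-(1 / 2) : ℝ) * (2 * (Y / m) ^ (1 / 2 : ℝ)) :=
          mul_le_mul_of_nonneg_left h2 (by positivity)
      _ = 2 * D * Y ^ (1 / 2 : ℝ) * ((m : ℝ) ^ (-(1 / 2) : ℝ) / (m : ℝ) ^ (1 / 2 : ℝ)) := by
          rw [Real.div_rpow hY0.le hm0.le]
          ring
      _ = _ := by
          rw [← Real.rpow_sub hm0, ← Real.rpow_neg_one]
          norm_num
  have hT2 : 0 ≤ 1 + Real.log T := by
    have := Real.log_nonneg hT1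
    linarith
  calc ∑ q ∈ idx T, cD f χ T q ≤ ∑ m ∈ Finset.Icc 1 ⌊T⌋₊, ∑ n ∈ Finset.Icc 1 ⌊T⌋₊, F (m, n) := hs1
    _ ≤ ∑ m ∈ Finset.Icc 1 ⌊T⌋₊, 2 * D * Y ^ (1 / 2 : ℝ) * (m : ℝ)⁻¹ := Finset.sum_le_sum hs2
    _ = 2 * D * Y ^ (1 / 2 : ℝ) * ∑ m ∈ Finset.Icc 1 ⌊T⌋₊, (m : ℝ)⁻¹ := by rw [Finset.mul_sum]
    _ ≤ 2 * D * Y ^ (1 / 2 : ℝ) * (C₂ * T ^ η) := by
        refine mul_le_mul_of_nonneg_left ((N1_harm hT).trans (N1_log hη0 hT)) (by positivity)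
    _ = C₁ * C₂ * 2 * C₂ * (T ^ η * T ^ η * T ^ η * Y ^ (1 / 2 : ℝ)) := by
        rw [hD]
        ring
    _ = C₁ * C₂ * 2 * C₂ * T ^ (η + η + η + (5 / 6 - ε) * (1 / 2)) := by
        rw [hY, ← Real.rpow_mul hT0.le, Real.rpow_add hT0, Real.rpow_add hT0, Real.rpow_add hT0]
    _ ≤ C₁ * C₂ * 2 * C₂ * T ^ (5 / 12 - ε / 4 : ℝ) := by
        refine mul_le_mul_of_nonneg_left ?_ (by positivity)
        apply Real.rpow_le_rpow_of_exponent_le hT1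
        rw [hη]
        linarith

theorem aP_sum {ε : ℝ} (hε : 0 < ε) (hε' : ε ≤ 1 / 100) {f : ℝ → ℝ} (hf : AdmF ε f) :
    ∃ C : ℝ, 0 < C ∧ ∀ T : ℝ, 2 ≤ T →
      ∑ l ∈ Finset.Icc 1 ⌊T⌋₊, aP f T l * (l : ℝ) ^ (-(1 / 2) : ℝ) ≤ C * T ^ (1 / 12 - ε / 2 : ℝ) := by
  refine ⟨2, by norm_num, fun T hT => ?_⟩
  have hT0 : 0 < T := by linarith
  have hL : 0 < Real.log T := Real.log_pos (by linarith)
  have hY0 : 0 < T ^ (1 / 6 - ε) := Real.rpow_pos_of_pos hT0 _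
  have h1 : ∑ l ∈ Finset.Icc 1 ⌊T⌋₊, aP f T l * (l : ℝ) ^ (-(1 / 2) : ℝ) ≤
      ∑ l ∈ (Finset.Icc 1 ⌊T⌋₊).filter (fun l : ℕ => (l : ℝ) ≤ T ^ (1 / 6 - ε)),
        (l : ℝ) ^ (-(1 / 2) : ℝ) := by
    rw [Finset.sum_filter]
    refine Finset.sum_le_sum fun l hl => ?_
    have hl1 := (Finset.mem_Icc.1 hl).1
    have hl0 : (0 : ℝ) < l := by exact_mod_cast hl1
    have hp : 0 ≤ (l : ℝ) ^ (-(1 / 2) : ℝ) := by positivity
    by_cases h0 : aP f T l = 0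
    · rw [h0, zero_mul]
      split_ifs
      · exact hp
      · exact le_rfl
    · have hf0 : f (Real.log l / Real.log T) ≠ 0 := by
        intro h
        apply h0
        unfold aP
        rw [h, mul_zero]
      have h2 := hf.2.2 _ hf0
      have h3 : (l : ℝ) ≤ T ^ (1 / 6 - ε) := by
        have := N1_reg (a := (l : ℝ)) (b := 1) (T := T) (x := 1 / 6 - ε) hT hl0 one_pos
          (by rw [Real.log_one, add_zero]; exact h2)
        linarith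
      rw [if_pos h3]
      calc aP f T l * (l : ℝ) ^ (-(1 / 2) : ℝ) ≤ 1 * (l : ℝ) ^ (-(1 / 2) : ℝ) :=
            mul_le_mul_of_nonneg_right (aP_nonneg hf T l).2 hp
        _ = _ := one_mul _
  refine h1.trans ?_
  refine (N1_half' _ (T ^ (1 / 6 - ε)) hY0.le fun n hn => ?_).trans ?_
  · rw [Finset.mem_filter, Finset.mem_Icc] at hn
    exact ⟨hn.1.1, hn.2⟩
  · rw [← Real.rpow_mul hT0.le]
    refine le_of_eq ?_
    congr 2
    ring

end Pool.Agent.LibFM89
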