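import Pool.Agent.LibFM89.Defs
import Pool.Agent.LibSM47.M_A1c

/-! # FM89 N2: expansions (SHORT/MEDIUM)

PLAN.  `ch r t = exp(i t log r)`.  `ch l (-t) * conj (ch (m/n) (-t)) = ch ((m/n)/l) t` (`LibSM47.conj_ch`, logs).  Finite sums commute with the
integral; integrability: `LibSM47.int_pow V u 2`, `norm_ch`, `cont_ch`.  Part 3 is Cauchy-Schwarz for the continuous functions
`|ζ|² |P|` and `|D|` (or `integral_mul_norm_le_Lp_mul_Lq`; or the discriminant argument; template `LibSM47.cs_abstract`): the integrands are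
continuous and dominated by `C |ζ|^k`. -/

set_option autoImplicit false

namespace Pool.Agent.LibFM89

open MeasureTheory Set Filter Topology Complex ProbabilityTheory
open scoped NNReal ComplexConjugate
open Pool.Agent.LibZM
open Pool.Agent.LibSM47 (gam ch idx)

private theorem cont_poly {ι : Type} (s : Finset ι) (c : ι → ℂ) (r : ι → ℝ) :
    Continuous (fun t : ℝ => ∑ i ∈ s, c i * ch (r i) (-t)) ∧
      ∃ B : ℝ, ∀ t : ℝ, ‖∑ i ∈ s, c i * ch (r i) (-t)‖ ≤ B := by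
  constructor
  · refine continuous_finsetSum s fun i _ => ?_
    exact continuous_const.mul ((LibSM47.cont_ch (r i)).comp continuous_neg)
  · refine ⟨∑ i ∈ s, ‖c i‖, fun t => ?_⟩
    refine (norm_sum_le _ _).trans (Finset.sum_le_sum fun i _ => ?_)
    rw [norm_mul, LibSM47.norm_ch, mul_one]

theorem cont_PP (f : ℝ → ℝ) (T : ℝ) : Continuous (PP f T) ∧ ∃ B : ℝ, ∀ t, ‖PP f T t‖ ≤ B :=
  cont_poly (Finset.Icc 1 ⌊T⌋₊) (fun l : ℕ => ((aP f T l * (l : ℝ) ^ (-(1 / 2) : ℝ) : ℝ) : ℂ))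
    (fun l : ℕ => (l : ℝ))

theorem cont_DD (f χ : ℝ → ℝ) (T : ℝ) : Continuous (DD f χ T) ∧ ∃ B : ℝ, ∀ t, ‖DD f χ T t‖ ≤ B :=
  cont_poly (idx T) (fun q : ℕ × ℕ => (cD f χ T q : ℂ)) (fun q : ℕ × ℕ => (q.1 : ℝ) / q.2)

private theorem ch_mul {r s : ℝ} (hr : 0 < r) (hs : 0 < s) (t : ℝ) :
    ch s (-t) * ch r t = ch (r / s) t := by
  unfold ch
  rw [← Complex.exp_add, Real.log_div hr.ne' hs.ne']
  congr 1
  push_cast
  ring

private theorem conj_DD (f χ : ℝ → ℝ) (T t : ℝ) :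
    conj (DD f χ T t) = ∑ q ∈ idx T, (cD f χ T q : ℂ) * ch ((q.1 : ℝ) / q.2) t := by
  unfold DD
  rw [map_sum]
  refine Finset.sum_congr rfl fun q _ => ?_
  rw [map_mul, Complex.conj_ofReal, LibSM47.conj_ch]

private theorem integrable_ch (V u r : ℝ) :
    Integrable (fun t => ((‖riemannZeta (crit t)‖ ^ 2 : ℝ) : ℂ) * ch r t) (gam V u) := by
  refine (LibSM47.int_pow V u 2).mono' ?_ (Eventually.of_forall fun t => ?_)
  · refine Continuous.aestronglyMeasurable ?_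
    exact (Complex.continuous_ofReal.comp (continuous_zeta_crit.norm.pow 2)).mul (LibSM47.cont_ch r)
  · rw [norm_mul, LibSM47.norm_ch, mul_one, Complex.norm_real, Real.norm_of_nonneg (by positivity)]

/-- Expansion of the numerator. -/
theorem N_expand (f χ : ℝ → ℝ) (T V u : ℝ) :
    ∫ t, ((‖riemannZeta (crit t)‖ ^ 2 : ℝ) : ℂ) * (PP f T t * conj (DD f χ T t)) ∂(gam V u) =
      ∑ q ∈ idx T, (cD f χ T q : ℂ) * ∑ l ∈ Finset.Icc 1 ⌊T⌋₊, ((aP f T l * (l : ℝ) ^ (-(1 / 2) : ℝ) : ℝ) : ℂ) *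
        I2 V u ((q.1 : ℝ) / q.2 / l) := by
  have hpt : ∀ t : ℝ, ((‖riemannZeta (crit t)‖ ^ 2 : ℝ) : ℂ) * (PP f T t * conj (DD f χ T t)) =
      ∑ q ∈ idx T, ∑ l ∈ Finset.Icc 1 ⌊T⌋₊,
        ((cD f χ T q : ℂ) * ((aP f T l * (l : ℝ) ^ (-(1 / 2) : ℝ) : ℝ) : ℂ)) *
          (((‖riemannZeta (crit t)‖ ^ 2 : ℝ) : ℂ) * ch ((q.1 : ℝ) / q.2 / l) t) := by
    intro t
    rw [conj_DD]
    unfold PP
    rw [mul_comm (∑ l ∈ Finset.Icc 1 ⌊T⌋₊, _) _, Finset.sum_mul, Finset.mul_sum]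
    refine Finset.sum_congr rfl fun q hq => ?_
    rw [Finset.mul_sum, Finset.mul_sum]
    refine Finset.sum_congr rfl fun l hl => ?_
    have hq1 : 1 ≤ q.1 := by
      unfold idx at hq
      simp only [Finset.mem_filter, Finset.mem_product, Finset.mem_Icc] at hq
      exact hq.1.1.1
    have hq2 : 1 ≤ q.2 := by
      unfold idx at hq
      simp only [Finset.mem_filter, Finset.mem_product, Finset.mem_Icc] at hq
      exact hq.1.2.1
    have hl1 : 1 ≤ l := (Finset.mem_Icc.mp hl).1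
    have h1 : (0 : ℝ) < (q.1 : ℝ) / q.2 := by
      have a1 : (0 : ℝ) < (q.1 : ℝ) := by exact_mod_cast hq1
      have a2 : (0 : ℝ) < (q.2 : ℝ) := by exact_mod_cast hq2
      exact div_pos a1 a2
    have h2 : (0 : ℝ) < (l : ℝ) := by exact_mod_cast hl1
    rw [← ch_mul h1 h2 t]
    ring
  simp_rw [hpt]
  rw [integral_finsetSum _ fun q _ => integrable_finsetSum _ fun l _ =>
    (integrable_ch V u _).const_mul _]
  refine Finset.sum_congr rfl fun q _ => ?_
  rw [integral_finsetSum _ fun l _ => (integrable_ch V u _).const_mul _, Finset.mul_sum]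
  refine Finset.sum_congr rfl fun l _ => ?_
  rw [integral_const_mul, mul_assoc]
  rfl

private theorem cs_real (μ : Measure ℝ) {a b : ℝ → ℝ} (ha : Integrable (fun t => a t ^ 2) μ)
    (hb : Integrable (fun t => b t ^ 2) μ) (hab : Integrable (fun t => a t * b t) μ) :
    (∫ t, a t * b t ∂μ) ^ 2 ≤ (∫ t, a t ^ 2 ∂μ) * ∫ t, b t ^ 2 ∂μ := by
  have key : ∀ c : ℝ, 0 ≤ (∫ t, b t ^ 2 ∂μ) * (c * c) + (-2 * ∫ t, a t * b t ∂μ) * c +
      ∫ t, a t ^ 2 ∂μ := by
    intro c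
    have h0 : 0 ≤ ∫ t, ((a t ^ 2 - 2 * c * (a t * b t)) + c ^ 2 * b t ^ 2) ∂μ := by
      refine integral_nonneg fun t => ?_
      show 0 ≤ (a t ^ 2 - 2 * c * (a t * b t)) + c ^ 2 * b t ^ 2
      nlinarith [sq_nonneg (a t - c * b t)]
    have e : ∫ t, ((a t ^ 2 - 2 * c * (a t * b t)) + c ^ 2 * b t ^ 2) ∂μ =
        (∫ t, a t ^ 2 ∂μ) - 2 * c * (∫ t, a t * b t ∂μ) + c ^ 2 * ∫ t, b t ^ 2 ∂μ := by
      have i1 : Integrable (fun t => 2 * c * (a t * b t)) μ := hab.const_mul (2 * c)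
      have i2 : Integrable (fun t => a t ^ 2 - 2 * c * (a t * b t)) μ := ha.sub i1
      have i3 : Integrable (fun t => c ^ 2 * b t ^ 2) μ := hb.const_mul (c ^ 2)
      rw [integral_add i2 i3, integral_sub ha i1, integral_const_mul, integral_const_mul]
    rw [e] at h0
    linarith [h0]
  have hd := discrim_le_zero key
  unfold discrim at hd
  nlinarith [hd]

/-- Cauchy-Schwarz. -/
theorem N_cs (f χ : ℝ → ℝ) (T V u : ℝ) :
    ‖∫ t, ((‖riemannZeta (crit t)‖ ^ 2 : ℝ) : ℂ) * (PP f T t * conj (DD f χ T t)) ∂(gam V u)‖ ^ 2 ≤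
      B4 f T V u * ∫ t, ‖DD f χ T t‖ ^ 2 ∂(gam V u) := by
  obtain ⟨cP, BP, hBP⟩ := cont_PP f T
  obtain ⟨cD', BD, hBD⟩ := cont_DD f χ T
  have hBP0 : 0 ≤ BP := (norm_nonneg _).trans (hBP 0)
  have hBD0 : 0 ≤ BD := (norm_nonneg _).trans (hBD 0)
  have cz : Continuous (fun t => ‖riemannZeta (crit t)‖) := continuous_zeta_crit.norm
  have i1 : Integrable (fun t => (‖riemannZeta (crit t)‖ ^ 2 * ‖PP f T t‖) ^ 2) (gam V u) := by
    refine ((LibSM47.int_pow V u 4).mul_const (BP ^ 2)).mono' ?_ (Eventually.of_forall fun t => ?_)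
    · exact (((cz.pow 2).mul cP.norm).pow 2).aestronglyMeasurable
    · rw [Real.norm_of_nonneg (by positivity), mul_pow, ← pow_mul]
      exact mul_le_mul_of_nonneg_left (pow_le_pow_left₀ (norm_nonneg _) (hBP t) 2) (by positivity)
  have i2 : Integrable (fun t => ‖DD f χ T t‖ ^ 2) (gam V u) := by
    refine Integrable.of_bound (C := BD ^ 2) (cD'.norm.pow 2).aestronglyMeasurable
      (Eventually.of_forall fun t => ?_)
    rw [Real.norm_of_nonneg (by positivity)]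
    exact pow_le_pow_left₀ (norm_nonneg _) (hBD t) 2
  have i3 : Integrable (fun t => (‖riemannZeta (crit t)‖ ^ 2 * ‖PP f T t‖) * ‖DD f χ T t‖)
      (gam V u) := by
    refine ((LibSM47.int_pow V u 2).mul_const (BP * BD)).mono' ?_ (Eventually.of_forall fun t => ?_)
    · exact (((cz.pow 2).mul cP.norm).mul cD'.norm).aestronglyMeasurable
    · rw [Real.norm_of_nonneg (by positivity), mul_assoc]
      exact mul_le_mul_of_nonneg_left
        (mul_le_mul (hBP t) (hBD t) (norm_nonneg _) hBP0) (by positivity)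
  have h1 : ‖∫ t, ((‖riemannZeta (crit t)‖ ^ 2 : ℝ) : ℂ) * (PP f T t * conj (DD f χ T t)) ∂(gam V u)‖ ≤
      ∫ t, (‖riemannZeta (crit t)‖ ^ 2 * ‖PP f T t‖) * ‖DD f χ T t‖ ∂(gam V u) := by
    refine (norm_integral_le_integral_norm _).trans (le_of_eq ?_)
    refine integral_congr_ae (Eventually.of_forall fun t => ?_)
    show ‖((‖riemannZeta (crit t)‖ ^ 2 : ℝ) : ℂ) * (PP f T t * conj (DD f χ T t))‖ =
      (‖riemannZeta (crit t)‖ ^ 2 * ‖PP f T t‖) * ‖DD f χ T t‖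
    rw [norm_mul, norm_mul, RCLike.norm_conj, Complex.norm_real, Real.norm_of_nonneg (by positivity),
      mul_assoc]
  have h2 := cs_real (gam V u) i1 i2 i3
  have h3 : ∫ t, (‖riemannZeta (crit t)‖ ^ 2 * ‖PP f T t‖) ^ 2 ∂(gam V u) = B4 f T V u := by
    unfold B4
    refine integral_congr_ae (Eventually.of_forall fun t => ?_)
    show (‖riemannZeta (crit t)‖ ^ 2 * ‖PP f T t‖) ^ 2 =
      ‖riemannZeta (crit t)‖ ^ 4 * ‖PP f T t‖ ^ 2
    ring
  rw [h3] at h2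
  exact (pow_le_pow_left₀ (norm_nonneg _) h1 2).trans h2

end Pool.Agent.LibFM89
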