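import Mathlib

/-! # FM89 T2: the off-diagonal lattice sum for one fraction (MEDIUM/STRONG, ONLY MATHLIB)

PLAN.  Write `m n` coprime, `q = (a,b)`, `a n ≠ b m`, `r = a n - b m ∈ ℤ`, `r ≠ 0`, `X = a b`.
* FAR terms, `a n ≥ 2 b m` or `b m ≥ 2 a n`: `|log (an/bm)| ≥ log 2`, so `1 + log^{-2} ≤ 4`, and
  `∑_{a,b ≥ 1} (ab)^(-1/2) min 1 ((T/ab)^4) ≤ C T^(1/2) (1 + log T)^2`: for `ab ≤ T` use `∑_{a ≤ T} a^(-1/2) ∑_{b ≤ T/a} b^(-1/2)
  ≤ ∑_a a^(-1/2) 2 (T/a)^(1/2) = 2 T^(1/2) ∑ 1/a`; for `ab > T` use `(ab)^(-1/2) (T/ab)^4 ≤ T^(1/2) (T/ab)^(3/2) (1/(ab))^(1/2) ...`,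
  e.g. `(ab)^(-1/2) min 1 ((T/ab)^4) ≤ T^(c-1/2) (ab)^(-c)`... with `c = 1 + 1/log T` (`X^(-1/2) min(1,(T/X)^4) ≤ X^(-1/2) (T/X)^(c-1/2) = T^(c-1/2) X^(-c)`
  for EVERY `X > 0` when `0 ≤ c - 1/2 ≤ 4`): then the whole sum is `≤ T^(c-1/2) ζ(c)² ≤ e T^(1/2) (1 + log T)^2`.  This also gives
  summability of the far part.
* NEAR terms, `an < 2bm` and `bm < 2an`: `|log (an/bm)| ≥ |r|/max(an,bm)/... ≥ |r|/(2 max(an,bm))`, so
  `1 + log^{-2} ≤ 1 + 4 max²/r² ≤ 5 max(an,bm)²/r² ≤ 10 (an)(bm)/r² = 10 mn X/r²` (as `|r| ≤ max`).  The term is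
  `≤ 10 mn X^(1/2) min 1 ((T/X)^4)/r²`.
  For fixed `r` the map `(a,b) ↦ k = (a-1)/m` (natural division) is injective on `{an - bm = r}` (`a` is fixed mod `m` because `(n,m)=1`,
  and `a` determines `b`), and `a > k m`, `b m > a n/2 > k m n/2`, so `X ≥ k² m n/2`.
  `X^(1/2) min 1 ((T/X)^4) ≤ T^(1/2)` always and `≤ T^(1/2) (T/X) ≤ 2 T^(1/2) T/(k² m n)` (since `X^(1/2) min(1,(T/X)^4) ≤ X^(1/2) (T/X)^(3/2)`).
  So `∑_k ≤ T^(1/2) (1 + ∑_{k≥1} min(1, 2T/(k² mn))) ≤ T^(1/2) (1 + 4 (T/(mn))^(1/2) )` up to a constant, times `10 mn ∑_{r≠0} 1/r²`: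
  `C (T^(1/2) m n + T (mn)^(1/2))`.
To get `Summable` and the bound at once: all terms are `≥ 0`; bound every finite sum (`summable_of_sum_le`). -/

set_option autoImplicit false

namespace Pool.Agent.LibFM89

open Filter Topology

/-- The weights of the off-diagonal terms for the fraction `m/n`. -/
noncomputable def tw2 (T : ℝ) (m n : ℕ) (q : ℕ × ℕ) : ℝ :=
  if q.1 = 0 ∨ q.2 = 0 ∨ q.1 * n = q.2 * m then 0 else
    ((q.1 : ℝ) * q.2) ^ (-(1 / 2) : ℝ) * min 1 ((T / ((q.1 : ℝ) * q.2)) ^ 4) *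
      (1 + ((Real.log (((q.1 : ℝ) * n) / ((q.2 : ℝ) * m))) ^ 2)⁻¹)

private theorem t2_zeta {s : ℝ} (hs : 0 < s) (N : ℕ) :
    ∑ n ∈ Finset.range (N + 2), (n:ℝ) ^ (-(1 + s)) ≤ 1 + (1 - ((N:ℝ) + 1) ^ (-s)) / s := by
  induction N with
  | zero =>
    have h0 : (0:ℝ) ^ (-(1 + s)) = 0 := Real.zero_rpow (by linarith)
    have e : ∑ n ∈ Finset.range (0 + 2), (n:ℝ) ^ (-(1 + s)) = 1 := by
      rw [Finset.sum_range_succ, Finset.sum_range_succ, Finset.sum_range_zero, Nat.cast_zero, h0]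
      simp
    rw [e]
    simp
  | succ N ih =>
    rw [Finset.sum_range_succ]
    have hy : (0:ℝ) < (N:ℝ) + 1 := by positivity
    have hx : (0:ℝ) < (N:ℝ) + 2 := by positivity
    have hlog : Real.log ((N:ℝ) + 1) ≤ Real.log ((N:ℝ) + 2) - 1 / ((N:ℝ) + 2) := by
      have h1 := Real.log_le_sub_one_of_pos (div_pos hy hx)
      rw [Real.log_div hy.ne' hx.ne'] at h1
      have h2 : ((N:ℝ) + 1) / ((N:ℝ) + 2) - 1 = -(1 / ((N:ℝ) + 2)) := by
        field_simp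
        ring
      linarith
    have key : s * (((N:ℝ) + 2) ^ (-(1 + s))) ≤ ((N:ℝ) + 1) ^ (-s) - ((N:ℝ) + 2) ^ (-s) := by
      have e1 : ((N:ℝ) + 2) ^ (-(1 + s)) = ((N:ℝ) + 2) ^ (-s) * (1 / ((N:ℝ) + 2)) := by
        rw [show -(1 + s) = -s + (-1) by ring, Real.rpow_add hx, Real.rpow_neg_one, one_div]
      have e2 : ((N:ℝ) + 2) ^ (-s) * (1 + s * (1 / ((N:ℝ) + 2))) ≤ ((N:ℝ) + 1) ^ (-s) := by
        rw [Real.rpow_def_of_pos hy, Real.rpow_def_of_pos hx]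
        have h3 : 1 + s * (1 / ((N:ℝ) + 2)) ≤ Real.exp (s * (1 / ((N:ℝ) + 2))) := by
          have := Real.add_one_le_exp (s * (1 / ((N:ℝ) + 2)))
          linarith
        calc Real.exp (Real.log ((N:ℝ) + 2) * -s) * (1 + s * (1 / ((N:ℝ) + 2)))
            ≤ Real.exp (Real.log ((N:ℝ) + 2) * -s) * Real.exp (s * (1 / ((N:ℝ) + 2))) :=
              mul_le_mul_of_nonneg_left h3 (Real.exp_pos _).le
          _ = Real.exp (Real.log ((N:ℝ) + 2) * -s + s * (1 / ((N:ℝ) + 2))) := (Real.exp_add _ _).symm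
          _ ≤ Real.exp (Real.log ((N:ℝ) + 1) * -s) := by
              apply Real.exp_le_exp.2
              nlinarith
      rw [e1]
      linarith
    have e3 : ((N + 2 : ℕ) : ℝ) = (N:ℝ) + 2 := by push_cast; ring
    have e4 : (((N + 1 : ℕ) : ℝ) + 1) = (N:ℝ) + 2 := by push_cast; ring
    rw [e3, e4]
    have h5 : ((N:ℝ) + 2) ^ (-(1 + s)) ≤ (((N:ℝ) + 1) ^ (-s) - ((N:ℝ) + 2) ^ (-s)) / s := by
      rw [le_div_iff₀ hs]
      linarith
    have h6 : 1 + (1 - ((N:ℝ) + 2) ^ (-s)) / s = 1 + (1 - ((N:ℝ) + 1) ^ (-s)) / s +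
        (((N:ℝ) + 1) ^ (-s) - ((N:ℝ) + 2) ^ (-s)) / s := by
      field_simp
      ring
    rw [h6]
    exact add_le_add ih h5

private theorem t2_zeta' {s : ℝ} (hs : 0 < s) (J : Finset ℕ) :
    ∑ n ∈ J, (n:ℝ) ^ (-(1 + s)) ≤ 1 + 1 / s := by
  have h1 : J ⊆ Finset.range (J.sup id + 2) := by
    intro n hn
    rw [Finset.mem_range]
    have := Finset.le_sup (f := id) hn
    simp only [id] at this
    omega
  have h2 := t2_zeta hs (J.sup id)
  have h3 : 0 ≤ (((J.sup id : ℕ) : ℝ) + 1) ^ (-s) := by positivity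
  have h4 : (1 - (((J.sup id : ℕ) : ℝ) + 1) ^ (-s)) / s ≤ 1 / s := by
    gcongr
    linarith
  have h5 : ∑ n ∈ J, (n:ℝ) ^ (-(1 + s)) ≤ ∑ n ∈ Finset.range (J.sup id + 2), (n:ℝ) ^ (-(1 + s)) :=
    Finset.sum_le_sum_of_subset_of_nonneg h1 fun i _ _ => by positivity
  linarith

/-- Products of sums dominate sums over finite sets of pairs. -/
private theorem t2_prod {α β : Type*} [DecidableEq α] [DecidableEq β] (S : Finset (α × β)) (f : α → ℝ) (g : β → ℝ)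
    (hf : ∀ a, 0 ≤ f a) (hg : ∀ b, 0 ≤ g b) :
    ∑ q ∈ S, f q.1 * g q.2 ≤ (∑ a ∈ S.image Prod.fst, f a) * ∑ b ∈ S.image Prod.snd, g b := by
  rw [Finset.sum_mul_sum, ← Finset.sum_product']
  refine Finset.sum_le_sum_of_subset_of_nonneg ?_ fun q _ _ => mul_nonneg (hf _) (hg _)
  intro q hq
  rw [Finset.mem_product]
  exact ⟨Finset.mem_image_of_mem _ hq, Finset.mem_image_of_mem _ hq⟩

private theorem t2_far {T : ℝ} (hT : 2 ≤ T) (S : Finset (ℕ × ℕ)) (hS : ∀ q ∈ S, 1 ≤ q.1 ∧ 1 ≤ q.2) :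
    ∑ q ∈ S, ((q.1 : ℝ) * q.2) ^ (-(1 / 2) : ℝ) * min 1 ((T / ((q.1 : ℝ) * q.2)) ^ 4) ≤
      3 * (T ^ (1 / 2 : ℝ) * (1 + Real.log T) ^ 2) := by
  have hT0 : 0 < T := by linarith
  have hL : (0.69:ℝ) ≤ Real.log T := by
    have h1 := Real.log_two_gt_d9
    have h2 := Real.log_le_log (by norm_num) hT
    linarith
  have hL0 : 0 < Real.log T := by linarith
  set s : ℝ := 1 / Real.log T with hs
  have hs0 : 0 < s := by positivity
  have hs2 : s ≤ 2 := by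
    rw [hs, div_le_iff₀ hL0]
    linarith
  have hTs : T ^ s ≤ 3 := by
    rw [Real.rpow_def_of_pos hT0, hs, mul_one_div_cancel hL0.ne']
    have := Real.exp_one_lt_d9
    linarith
  have hterm : ∀ q ∈ S, ((q.1 : ℝ) * q.2) ^ (-(1 / 2) : ℝ) * min 1 ((T / ((q.1 : ℝ) * q.2)) ^ 4) ≤
      (3 * T ^ (1 / 2 : ℝ)) * ((q.1:ℝ) ^ (-(1 + s)) * (q.2:ℝ) ^ (-(1 + s))) := by
    intro q hq
    obtain ⟨h1, h2⟩ := hS q hq
    have h1' : (0:ℝ) < q.1 := by exact_mod_cast h1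
    have h2' : (0:ℝ) < q.2 := by exact_mod_cast h2
    rw [← Real.mul_rpow h1'.le h2'.le]
    set X : ℝ := (q.1 : ℝ) * q.2 with hX
    have hX0 : 0 < X := by positivity
    have hy0 : 0 < T / X := by positivity
    have hmin : min 1 ((T / X) ^ 4) ≤ (T / X) ^ (1 / 2 + s) := by
      rcases le_total 1 (T / X) with h | h
      · exact (min_le_left _ _).trans (Real.one_le_rpow h (by positivity))
      · refine (min_le_right _ _).trans ?_
        rw [← Real.rpow_natCast]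
        exact Real.rpow_le_rpow_of_exponent_ge hy0 h (by push_cast; linarith)
    calc X ^ (-(1 / 2) : ℝ) * min 1 ((T / X) ^ 4) ≤ X ^ (-(1 / 2) : ℝ) * (T / X) ^ (1 / 2 + s) :=
          mul_le_mul_of_nonneg_left hmin (by positivity)
      _ = (T ^ s * T ^ (1 / 2 : ℝ)) * X ^ (-(1 + s)) := by
          have q1 : (T / X) ^ (1 / 2 + s) = T ^ (1 / 2 + s) * X ^ (-(1 / 2 + s)) := by
            rw [Real.div_rpow hT0.le hX0.le, Real.rpow_neg hX0.le, ← div_eq_mul_inv]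
          have q2 : T ^ s * T ^ (1 / 2 : ℝ) = T ^ (1 / 2 + s) := by
            rw [← Real.rpow_add hT0]
            congr 1
            ring
          have q3 : X ^ (-(1 / 2) : ℝ) * X ^ (-(1 / 2 + s)) = X ^ (-(1 + s)) := by
            rw [← Real.rpow_add hX0]
            congr 1
            ring
          rw [q1, q2, ← q3]
          ring
      _ ≤ (3 * T ^ (1 / 2 : ℝ)) * X ^ (-(1 + s)) := by gcongr
  refine (Finset.sum_le_sum hterm).trans ?_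
  rw [← Finset.mul_sum, mul_assoc]
  refine mul_le_mul_of_nonneg_left ?_ (by norm_num)
  refine mul_le_mul_of_nonneg_left ?_ (by positivity)
  refine (t2_prod S (fun a : ℕ => (a:ℝ) ^ (-(1 + s))) (fun b : ℕ => (b:ℝ) ^ (-(1 + s)))
    (fun a => by positivity) (fun b => by positivity)).trans ?_
  have e : 1 + 1 / s = 1 + Real.log T := by
    rw [hs, one_div_one_div]
  have h3 := t2_zeta' hs0 (S.image Prod.fst)
  have h4 := t2_zeta' hs0 (S.image Prod.snd)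
  rw [e] at h3 h4
  rw [sq]
  exact mul_le_mul h3 h4 (Finset.sum_nonneg fun i _ => by positivity) (by linarith)

private theorem t2_log {u v : ℝ} (hu : 0 < u) (huv : v < u) (hv : 0 < v) :
    ((Real.log (u / v)) ^ 2)⁻¹ ≤ u ^ 2 / (u - v) ^ 2 := by
  have h1 := Real.one_sub_inv_le_log_of_pos (div_pos hu hv)
  rw [inv_div] at h1
  have h2 : 1 - v / u = (u - v) / u := by field_simp
  rw [h2] at h1
  have h3 : 0 < (u - v) / u := div_pos (by linarith) hu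
  have h4 : ((u - v) / u) ^ 2 ≤ (Real.log (u / v)) ^ 2 := pow_le_pow_left₀ h3.le h1 2
  calc ((Real.log (u / v)) ^ 2)⁻¹ ≤ (((u - v) / u) ^ 2)⁻¹ := inv_anti₀ (by positivity) h4
    _ = u ^ 2 / (u - v) ^ 2 := by rw [div_pow, inv_div]

private theorem t2_near {u v : ℝ} (hu : 0 < u) (hv : 0 < v) (huv : u ≠ v) (h1 : u < 2 * v) (h2 : v < 2 * u) :
    1 + ((Real.log (u / v)) ^ 2)⁻¹ ≤ 4 * (u * v) / (u - v) ^ 2 := by
  have hr : 0 < (u - v) ^ 2 := by
    have : u - v ≠ 0 := sub_ne_zero.2 huv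
    positivity
  rcases lt_or_gt_of_ne huv with h | h
  · have h3 := t2_log hv h hu
    have e1 : Real.log (u / v) = -Real.log (v / u) := by
      rw [← Real.log_inv, inv_div]
    rw [e1, neg_sq]
    have e2 : (v - u) ^ 2 = (u - v) ^ 2 := by ring
    rw [e2] at h3
    refine (add_le_add_right h3 1).trans ?_
    rw [← sub_nonneg]
    have e3 : 4 * (u * v) / (u - v) ^ 2 - (1 + v ^ 2 / (u - v) ^ 2) = (4 * (u * v) - (u - v) ^ 2 - v ^ 2) / (u - v) ^ 2 := by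
      field_simp
      ring
    rw [e3]
    refine div_nonneg ?_ hr.le
    nlinarith
  · have h3 := t2_log hu h hv
    refine (add_le_add_right h3 1).trans ?_
    rw [← sub_nonneg]
    have e3 : 4 * (u * v) / (u - v) ^ 2 - (1 + u ^ 2 / (u - v) ^ 2) = (4 * (u * v) - (u - v) ^ 2 - u ^ 2) / (u - v) ^ 2 := by
      field_simp
      ring
    rw [e3]
    refine div_nonneg ?_ hr.le
    nlinarith

private theorem t2_logfar {u v : ℝ} (hu : 0 < u) (hv : 0 < v) (h : 2 * v ≤ u ∨ 2 * u ≤ v) :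
    1 + ((Real.log (u / v)) ^ 2)⁻¹ ≤ 4 := by
  have key : ∀ x : ℝ, 2 ≤ x → 1 + ((Real.log x) ^ 2)⁻¹ ≤ 4 := by
    intro x hx
    have h1 := Real.log_two_gt_d9
    have h2 := Real.log_le_log (by norm_num) hx
    have h3 : (0.69:ℝ) ≤ Real.log x := by linarith
    have h4 : (1/3:ℝ) ≤ (Real.log x) ^ 2 := by nlinarith
    have h5 : ((Real.log x) ^ 2)⁻¹ ≤ (1/3:ℝ)⁻¹ := inv_anti₀ (by norm_num) h4
    linarith [show (1/3:ℝ)⁻¹ = 3 by norm_num]
  rcases h with h | h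
  · exact key _ (by rw [le_div_iff₀ hv]; exact h)
  · have e1 : Real.log (u / v) = -Real.log (v / u) := by
      rw [← Real.log_inv, inv_div]
    rw [e1, neg_sq]
    exact key _ (by rw [le_div_iff₀ hu]; exact h)

private theorem t2_half {T X : ℝ} (hT : 0 < T) (hX : 0 < X) :
    X ^ (1 / 2 : ℝ) * min 1 ((T / X) ^ 4) ≤ T ^ (1 / 2 : ℝ) * min 1 (T / X) := by
  rcases le_total X T with h | h
  · have h1 : 1 ≤ T / X := by rwa [le_div_iff₀ hX, one_mul]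
    rw [min_eq_left h1]
    exact mul_le_mul (Real.rpow_le_rpow hX.le h (by norm_num)) (min_le_left _ _)
      (le_min zero_le_one (by positivity)) (by positivity)
  · have hy0 : 0 < T / X := by positivity
    have h1 : T / X ≤ 1 := by rwa [div_le_iff₀ hX, one_mul]
    rw [min_eq_right h1]
    have e1 : X ^ (1 / 2 : ℝ) * (T / X) ^ (1 / 2 : ℝ) = T ^ (1 / 2 : ℝ) := by
      rw [← Real.mul_rpow hX.le hy0.le, mul_div_cancel₀ _ hX.ne']
    have e2 : (T / X) ^ 4 ≤ (T / X) ^ (1 / 2 : ℝ) * (T / X) := by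
      have h3 : (T / X) ^ (1 / 2 : ℝ) * (T / X) = (T / X) ^ (3 / 2 : ℝ) := by
        nth_rewrite 2 [← Real.rpow_one (T / X)]
        rw [← Real.rpow_add hy0]
        norm_num
      rw [h3, ← Real.rpow_natCast]
      exact Real.rpow_le_rpow_of_exponent_ge hy0 h1 (by norm_num)
    calc X ^ (1 / 2 : ℝ) * min 1 ((T / X) ^ 4) ≤ X ^ (1 / 2 : ℝ) * ((T / X) ^ (1 / 2 : ℝ) * (T / X)) :=
          mul_le_mul_of_nonneg_left ((min_le_right _ _).trans e2) (by positivity)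
      _ = T ^ (1 / 2 : ℝ) * (T / X) := by rw [← mul_assoc, e1]

/-- The weights in `k`. -/
private noncomputable def t2_g (B : ℝ) (k : ℕ) : ℝ := if k = 0 then 1 else min 1 (B ^ 2 / (k:ℝ) ^ 2)

private theorem t2_g_nonneg (B : ℝ) (k : ℕ) : 0 ≤ t2_g B k := by
  unfold t2_g
  split_ifs
  · exact zero_le_one
  · exact le_min zero_le_one (by positivity)

private theorem t2_g_sum {B : ℝ} (hB : 0 < B) (N : ℕ) :
    ∑ k ∈ Finset.range (N + 1), t2_g B k ≤ 1 + 4 * B ^ 2 * (1 / B - 1 / ((N:ℝ) + B)) := by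
  induction N with
  | zero =>
    simp [t2_g]
  | succ N ih =>
    rw [Finset.sum_range_succ]
    have hy : (0:ℝ) < (N:ℝ) + B := by positivity
    have hx : (0:ℝ) < (N:ℝ) + 1 + B := by positivity
    have h1 : t2_g B (N + 1) ≤ 4 * B ^ 2 * (1 / ((N:ℝ) + B) - 1 / ((N:ℝ) + 1 + B)) := by
      have e1 : 4 * B ^ 2 * (1 / ((N:ℝ) + B) - 1 / ((N:ℝ) + 1 + B)) =
          4 * B ^ 2 / (((N:ℝ) + B) * ((N:ℝ) + 1 + B)) := by
        field_simp
        ring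
      rw [e1]
      unfold t2_g
      rw [if_neg (by omega)]
      push_cast
      rcases le_total B ((N:ℝ) + 1) with h | h
      · refine (min_le_right _ _).trans ?_
        rw [div_le_div_iff₀ (by positivity) (by positivity)]
        have h2 : ((N:ℝ) + B) * ((N:ℝ) + 1 + B) ≤ 4 * ((N:ℝ) + 1) ^ 2 := by
          have h0 : (0:ℝ) ≤ N := by positivity
          nlinarith
        calc B ^ 2 * (((N:ℝ) + B) * ((N:ℝ) + 1 + B)) ≤ B ^ 2 * (4 * ((N:ℝ) + 1) ^ 2) :=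
              mul_le_mul_of_nonneg_left h2 (by positivity)
          _ = 4 * B ^ 2 * ((N:ℝ) + 1) ^ 2 := by ring
      · refine (min_le_left _ _).trans ?_
        rw [le_div_iff₀ (by positivity), one_mul]
        have h0 : (0:ℝ) ≤ N := by positivity
        nlinarith
    have e2 : ((N + 1 : ℕ) : ℝ) + B = (N:ℝ) + 1 + B := by push_cast; ring
    rw [e2]
    linarith

private theorem t2_g_sum' {B : ℝ} (hB : 0 < B) (J : Finset ℕ) : ∑ k ∈ J, t2_g B k ≤ 1 + 4 * B := by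
  have h1 : J ⊆ Finset.range (J.sup id + 1) := by
    intro n hn
    rw [Finset.mem_range]
    have := Finset.le_sup (f := id) hn
    simp only [id] at this
    omega
  have h2 := t2_g_sum hB (J.sup id)
  have h5 : ∑ n ∈ J, t2_g B n ≤ ∑ n ∈ Finset.range (J.sup id + 1), t2_g B n :=
    Finset.sum_le_sum_of_subset_of_nonneg h1 fun i _ _ => t2_g_nonneg B i
  have h3 : 0 ≤ 1 / (((J.sup id : ℕ) : ℝ) + B) := by positivity
  have h4 : 4 * B ^ 2 * (1 / B - 1 / (((J.sup id : ℕ) : ℝ) + B)) ≤ 4 * B ^ 2 * (1 / B) :=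
    mul_le_mul_of_nonneg_left (by linarith) (by positivity)
  have h6 : 4 * B ^ 2 * (1 / B) = 4 * B := by field_simp
  linarith

/-- The map to `(r, k)`. -/
private def t2_phi (m n : ℕ) (q : ℕ × ℕ) : ℤ × ℕ := ((q.1:ℤ) * n - (q.2:ℤ) * m, (q.1 - 1) / m)

private theorem t2_phi_inj {m n : ℕ} (hm : 1 ≤ m) (hmn : Nat.Coprime m n) {a b a' b' : ℕ}
    (ha : 1 ≤ a) (ha' : 1 ≤ a') (h : t2_phi m n (a, b) = t2_phi m n (a', b')) : (a, b) = (a', b') := by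
  simp only [t2_phi, Prod.mk.injEq] at h
  obtain ⟨h1, h2⟩ := h
  have h3 : (m:ℤ) ∣ (a:ℤ) - a' := by
    have h4 : (m:ℤ) ∣ ((a:ℤ) - a') * n := ⟨(b:ℤ) - b', by linear_combination h1⟩
    exact (Nat.isCoprime_iff_coprime.2 hmn).dvd_of_dvd_mul_right h4
  have h5 : (a - 1) % m = (a' - 1) % m := by
    have h6 : ((a - 1 : ℕ) : ℤ) % m = ((a' - 1 : ℕ) : ℤ) % m := by
      rw [Int.emod_emod_of_dvd _ (dvd_refl _) |>.symm]
      apply Int.emod_emod_of_dvd _ (dvd_refl _) |>.trans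
      apply (Int.emod_emod_of_dvd _ (dvd_refl _)).symm.trans
      have h7 : (m:ℤ) ∣ ((a' - 1 : ℕ) : ℤ) - ((a - 1 : ℕ) : ℤ) := by
        obtain ⟨c, hc⟩ := h3
        refine ⟨-c, ?_⟩
        push_cast [Nat.cast_sub ha, Nat.cast_sub ha']
        linear_combination -hc
      have := (Int.emod_emod_of_dvd ((a - 1 : ℕ) : ℤ) (dvd_refl (m:ℤ)))
      rw [this]
      exact (Int.emod_emod_of_dvd _ (dvd_refl _)).symm.trans (by
        rw [Int.emod_emod_of_dvd _ (dvd_refl _)]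
        exact (Int.ModEq.symm (Int.modEq_iff_dvd.2 (by
          obtain ⟨c, hc⟩ := h7
          exact ⟨-c, by linear_combination -hc⟩))))
    exact_mod_cast h6
  have h8 : a - 1 = a' - 1 := by
    rw [← Nat.div_add_mod (a - 1) m, ← Nat.div_add_mod (a' - 1) m, h2, h5]
  have h9 : a = a' := by omega
  subst h9
  have h10 : (b:ℤ) * m = (b':ℤ) * m := by linarith
  have h11 : b * m = b' * m := by exact_mod_cast h10
  rw [Nat.eq_of_mul_eq_mul_right hm h11]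

private theorem t2_nearterm {T : ℝ} (hT : 0 < T) {m n : ℕ} (hm : 1 ≤ m) (hn : 1 ≤ n) {a b : ℕ} (ha : 1 ≤ a) (hb : 1 ≤ b)
    (hne : a * n ≠ b * m) (h1 : (a:ℝ) * n < 2 * ((b:ℝ) * m)) (h2 : (b:ℝ) * m < 2 * ((a:ℝ) * n)) :
    ((a : ℝ) * b) ^ (-(1 / 2) : ℝ) * min 1 ((T / ((a : ℝ) * b)) ^ 4) *
      (1 + ((Real.log (((a : ℝ) * n) / ((b : ℝ) * m))) ^ 2)⁻¹) ≤
    4 * ((m:ℝ) * n) * T ^ (1 / 2 : ℝ) *
      ((((t2_phi m n (a, b)).1 : ℝ) ^ 2)⁻¹ * t2_g (√(2 * T / ((m:ℝ) * n))) (t2_phi m n (a, b)).2) := by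
  have ha0 : (0:ℝ) < a := by exact_mod_cast ha
  have hb0 : (0:ℝ) < b := by exact_mod_cast hb
  have hm0 : (0:ℝ) < m := by exact_mod_cast hm
  have hn0 : (0:ℝ) < n := by exact_mod_cast hn
  have hne' : (a:ℝ) * n ≠ (b:ℝ) * m := by exact_mod_cast hne
  have h3 := t2_near (by positivity) (by positivity) hne' h1 h2
  have er : (((t2_phi m n (a, b)).1 : ℤ) : ℝ) = (a:ℝ) * n - (b:ℝ) * m := by
    simp [t2_phi]
  rw [er]
  set r : ℝ := (a:ℝ) * n - (b:ℝ) * m with hr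
  have hr0 : 0 < r ^ 2 := by
    have : r ≠ 0 := sub_ne_zero.2 hne'
    positivity
  set X : ℝ := (a:ℝ) * b with hX
  have hX0 : 0 < X := by positivity
  have hM0 : 0 ≤ min 1 ((T / X) ^ 4) := le_min zero_le_one (by positivity)
  have eX : X ^ (-(1 / 2) : ℝ) * X = X ^ (1 / 2 : ℝ) := by
    nth_rewrite 2 [← Real.rpow_one X]
    rw [← Real.rpow_add hX0]
    norm_num
  -- the weight
  have hk : min 1 (T / X) ≤ t2_g (√(2 * T / ((m:ℝ) * n))) (t2_phi m n (a, b)).2 := by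
    obtain ⟨k, hkd⟩ : ∃ k, k = (t2_phi m n (a, b)).2 := ⟨_, rfl⟩
    rw [← hkd]
    unfold t2_g
    split_ifs with hk0
    · exact min_le_left _ _
    · rw [Real.sq_sqrt (by positivity)]
      refine min_le_min le_rfl ?_
      have hk1 : (0:ℝ) < k := by exact_mod_cast Nat.pos_of_ne_zero hk0
      have h4 : k * m ≤ a - 1 := by
        rw [hkd]
        exact Nat.div_mul_le_self _ _
      have h5 : (k:ℝ) * m ≤ a := by
        have : k * m ≤ a := by omega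
        exact_mod_cast this
      have h6 : (k:ℝ) * n ≤ 2 * b := by
        have h7 : (k:ℝ) * n * m ≤ 2 * b * m := by
          calc (k:ℝ) * n * m = (k:ℝ) * m * n := by ring
            _ ≤ a * n := by gcongr
            _ ≤ 2 * (b * m) := h1.le
            _ = 2 * b * m := by ring
        exact le_of_mul_le_mul_right h7 hm0
      rw [div_div, div_le_div_iff₀ hX0 (by positivity)]
      have h8 : ((k:ℝ) * m) * ((k:ℝ) * n) ≤ a * (2 * b) := mul_le_mul h5 h6 (by positivity) (by positivity)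
      calc T * ((m:ℝ) * n * (k:ℝ) ^ 2) = T * (((k:ℝ) * m) * ((k:ℝ) * n)) := by ring
        _ ≤ T * (a * (2 * b)) := mul_le_mul_of_nonneg_left h8 hT.le
        _ = 2 * T * X := by rw [hX]; ring
  have hg0 := t2_g_nonneg (√(2 * T / ((m:ℝ) * n))) (t2_phi m n (a, b)).2
  calc X ^ (-(1 / 2) : ℝ) * min 1 ((T / X) ^ 4) * (1 + ((Real.log (((a : ℝ) * n) / ((b : ℝ) * m))) ^ 2)⁻¹)
      ≤ X ^ (-(1 / 2) : ℝ) * min 1 ((T / X) ^ 4) * (4 * (((a:ℝ) * n) * ((b:ℝ) * m)) / r ^ 2) :=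
        mul_le_mul_of_nonneg_left h3 (by positivity)
    _ = 4 * ((m:ℝ) * n) * (r ^ 2)⁻¹ * ((X ^ (-(1 / 2) : ℝ) * X) * min 1 ((T / X) ^ 4)) := by
        rw [hX]
        field_simp
    _ = 4 * ((m:ℝ) * n) * (r ^ 2)⁻¹ * (X ^ (1 / 2 : ℝ) * min 1 ((T / X) ^ 4)) := by rw [eX]
    _ ≤ 4 * ((m:ℝ) * n) * (r ^ 2)⁻¹ * (T ^ (1 / 2 : ℝ) * min 1 (T / X)) :=
        mul_le_mul_of_nonneg_left (t2_half hT hX0) (by positivity)
    _ ≤ 4 * ((m:ℝ) * n) * (r ^ 2)⁻¹ * (T ^ (1 / 2 : ℝ) * t2_g (√(2 * T / ((m:ℝ) * n))) (t2_phi m n (a, b)).2) := by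
        refine mul_le_mul_of_nonneg_left ?_ (by positivity)
        exact mul_le_mul_of_nonneg_left hk (by positivity)
    _ = _ := by ring

theorem lattice2 : ∃ C : ℝ, 0 < C ∧ ∀ T : ℝ, 2 ≤ T → ∀ m n : ℕ, 1 ≤ m → 1 ≤ n → Nat.Coprime m n →
    Summable (tw2 T m n) ∧ ∑' q, tw2 T m n q ≤
      C * (T ^ (1 / 2 : ℝ) * (1 + Real.log T) ^ 2 + T * ((m : ℝ) * n) ^ (1 / 2 : ℝ) + T ^ (1 / 2 : ℝ) * ((m : ℝ) * n)) := by
  have hsum : Summable fun r : ℤ => (((r:ℝ)) ^ 2)⁻¹ := by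
    have := (Real.summable_one_div_int_pow (p := 2)).2 (by norm_num)
    simpa [one_div] using this
  set C1 : ℝ := ∑' r : ℤ, (((r:ℝ)) ^ 2)⁻¹ with hC1
  have hC10 : 0 ≤ C1 := tsum_nonneg fun r => by positivity
  refine ⟨12 + 32 * C1, by positivity, ?_⟩
  intro T hT m n hm hn hmn
  have hT0 : 0 < T := by linarith
  have hm0 : (0:ℝ) < m := by exact_mod_cast hm
  have hn0 : (0:ℝ) < n := by exact_mod_cast hn
  have hnn : ∀ q, 0 ≤ tw2 T m n q := by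
    intro q
    unfold tw2
    split_ifs
    · exact le_rfl
    · have h1 : (0:ℝ) ≤ min 1 ((T / ((q.1 : ℝ) * q.2)) ^ 4) := le_min zero_le_one (by positivity)
      positivity
  have hlog0 : 0 ≤ Real.log T := Real.log_nonneg (by linarith)
  set B : ℝ := √(2 * T / ((m:ℝ) * n)) with hB
  have hB0 : 0 < B := Real.sqrt_pos.2 (by positivity)
  have key : ∀ S : Finset (ℕ × ℕ), ∑ q ∈ S, tw2 T m n q ≤
      (12 + 32 * C1) * (T ^ (1 / 2 : ℝ) * (1 + Real.log T) ^ 2 + T * ((m : ℝ) * n) ^ (1 / 2 : ℝ) + T ^ (1 / 2 : ℝ) * ((m : ℝ) * n)) := by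
    intro S
    classical
    set S0 := S.filter (fun q : ℕ × ℕ => ¬ (q.1 = 0 ∨ q.2 = 0 ∨ q.1 * n = q.2 * m)) with hS0
    have e0 : ∑ q ∈ S, tw2 T m n q = ∑ q ∈ S0, tw2 T m n q := by
      rw [hS0, Finset.sum_filter]
      refine Finset.sum_congr rfl fun q _ => ?_
      split_ifs with h
      · unfold tw2
        rw [if_pos h]
      · rfl
    have hmem : ∀ q ∈ S0, 1 ≤ q.1 ∧ 1 ≤ q.2 ∧ q.1 * n ≠ q.2 * m := by
      intro q hq
      rw [hS0, Finset.mem_filter] at hq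
      obtain ⟨-, h⟩ := hq
      push Not at h
      exact ⟨Nat.one_le_iff_ne_zero.2 h.1, Nat.one_le_iff_ne_zero.2 h.2.1, h.2.2⟩
    have hval : ∀ q ∈ S0, tw2 T m n q = ((q.1 : ℝ) * q.2) ^ (-(1 / 2) : ℝ) * min 1 ((T / ((q.1 : ℝ) * q.2)) ^ 4) *
      (1 + ((Real.log (((q.1 : ℝ) * n) / ((q.2 : ℝ) * m))) ^ 2)⁻¹) := by
      intro q hq
      rw [hS0, Finset.mem_filter] at hq
      unfold tw2
      rw [if_neg hq.2]
    set P : ℕ × ℕ → Prop := fun q => (q.1:ℝ) * n < 2 * ((q.2:ℝ) * m) ∧ (q.2:ℝ) * m < 2 * ((q.1:ℝ) * n) with hP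
    rw [e0, ← Finset.sum_filter_add_sum_filter_not S0 P]
    -- near
    have hnear : ∑ q ∈ S0.filter P, tw2 T m n q ≤
        4 * ((m:ℝ) * n) * T ^ (1 / 2 : ℝ) * (C1 * (1 + 4 * B)) := by
      have h1 : ∀ q ∈ S0.filter P, tw2 T m n q ≤ 4 * ((m:ℝ) * n) * T ^ (1 / 2 : ℝ) *
          ((((t2_phi m n q).1 : ℝ) ^ 2)⁻¹ * t2_g B (t2_phi m n q).2) := by
        intro q hq
        rw [Finset.mem_filter] at hq
        obtain ⟨hq1, hq2, hq3⟩ := hq
        obtain ⟨a1, a2, a3⟩ := hmem q hq1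
        rw [hval q hq1]
        exact t2_nearterm hT0 hm hn a1 a2 a3 hq2 hq3
      refine (Finset.sum_le_sum h1).trans ?_
      rw [← Finset.mul_sum]
      refine mul_le_mul_of_nonneg_left ?_ (by positivity)
      have h2 : ∑ q ∈ S0.filter P, ((((t2_phi m n q).1 : ℝ) ^ 2)⁻¹ * t2_g B (t2_phi m n q).2) =
          ∑ z ∈ (S0.filter P).image (t2_phi m n), ((((z.1 : ℤ) : ℝ) ^ 2)⁻¹ * t2_g B z.2) := by
        rw [Finset.sum_image]
        intro q hq q' hq' h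
        rw [Finset.mem_coe, Finset.mem_filter] at hq hq'
        exact t2_phi_inj hm hmn (hmem q hq.1).1 (hmem q' hq'.1).1 h
      rw [h2]
      refine (t2_prod _ (fun r : ℤ => (((r:ℝ)) ^ 2)⁻¹) (fun k : ℕ => t2_g B k)
        (fun r => by positivity) (fun k => t2_g_nonneg B k)).trans ?_
      refine mul_le_mul ?_ (t2_g_sum' hB0 _) (Finset.sum_nonneg fun k _ => t2_g_nonneg B k) hC10
      exact hsum.sum_le_tsum _ fun r _ => by positivity
    -- far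
    have hfar : ∑ q ∈ S0.filter (fun q => ¬ P q), tw2 T m n q ≤ 4 * (3 * (T ^ (1 / 2 : ℝ) * (1 + Real.log T) ^ 2)) := by
      have h1 : ∀ q ∈ S0.filter (fun q => ¬ P q), tw2 T m n q ≤
          4 * (((q.1 : ℝ) * q.2) ^ (-(1 / 2) : ℝ) * min 1 ((T / ((q.1 : ℝ) * q.2)) ^ 4)) := by
        intro q hq
        rw [Finset.mem_filter] at hq
        obtain ⟨hq1, hq2⟩ := hq
        obtain ⟨a1, a2, a3⟩ := hmem q hq1
        have a1' : (0:ℝ) < q.1 := by exact_mod_cast a1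
        have a2' : (0:ℝ) < q.2 := by exact_mod_cast a2
        rw [hval q hq1, mul_comm (4:ℝ)]
        refine mul_le_mul_of_nonneg_left ?_ (mul_nonneg (by positivity) (le_min zero_le_one (by positivity)))
        refine t2_logfar (by positivity) (by positivity) ?_
        rw [hP] at hq2
        simp only [not_and_or, not_lt] at hq2
        exact hq2
      refine (Finset.sum_le_sum h1).trans ?_
      rw [← Finset.mul_sum]
      refine mul_le_mul_of_nonneg_left (t2_far hT _ fun q hq => ?_) (by norm_num)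
      rw [Finset.mem_filter] at hq
      exact ⟨(hmem q hq.1).1, (hmem q hq.1).2.1⟩
    have eB : ((m:ℝ) * n) * T ^ (1 / 2 : ℝ) * B = √2 * (T * ((m : ℝ) * n) ^ (1 / 2 : ℝ)) := by
      have hM : (0:ℝ) < (m:ℝ) * n := by positivity
      rw [hB, Real.sqrt_div (by positivity), Real.sqrt_mul (by norm_num), ← Real.sqrt_eq_rpow, ← Real.sqrt_eq_rpow]
      have s1 : √T * √T = T := Real.mul_self_sqrt hT0.le
      have s2 : √((m:ℝ) * n) * √((m:ℝ) * n) = (m:ℝ) * n := Real.mul_self_sqrt hM.le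
      have s3 : 0 < √((m:ℝ) * n) := Real.sqrt_pos.2 hM
      rw [mul_div_assoc', div_eq_iff s3.ne']
      calc (m:ℝ) * n * √T * (√2 * √T) = √2 * ((√T * √T) * ((m:ℝ) * n)) := by ring
        _ = √2 * (T * (√((m:ℝ) * n) * √((m:ℝ) * n))) := by rw [s1, s2]
        _ = √2 * (T * √((m:ℝ) * n)) * √((m:ℝ) * n) := by ring
    have hsq2 : √2 ≤ 3/2 := by
      rw [Real.sqrt_le_left (by norm_num)]
      norm_num
    have x1 : 0 ≤ T ^ (1 / 2 : ℝ) * (1 + Real.log T) ^ 2 := by positivity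
    have x2 : 0 ≤ T * ((m : ℝ) * n) ^ (1 / 2 : ℝ) := by positivity
    have x3 : 0 ≤ T ^ (1 / 2 : ℝ) * ((m : ℝ) * n) := by positivity
    have x4 : 4 * ((m:ℝ) * n) * T ^ (1 / 2 : ℝ) * (C1 * (1 + 4 * B)) =
        4 * C1 * (T ^ (1 / 2 : ℝ) * ((m : ℝ) * n)) + 16 * C1 * (((m:ℝ) * n) * T ^ (1 / 2 : ℝ) * B) := by ring
    have x5 : ((m:ℝ) * n) * T ^ (1 / 2 : ℝ) * B ≤ 3/2 * (T * ((m : ℝ) * n) ^ (1 / 2 : ℝ)) := by
      rw [eB]
      exact mul_le_mul_of_nonneg_right hsq2 x2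
    have x6 : 16 * C1 * (((m:ℝ) * n) * T ^ (1 / 2 : ℝ) * B) ≤ 16 * C1 * (3/2 * (T * ((m : ℝ) * n) ^ (1 / 2 : ℝ))) :=
      mul_le_mul_of_nonneg_left x5 (by positivity)
    have y1 : 0 ≤ C1 * (T ^ (1 / 2 : ℝ) * (1 + Real.log T) ^ 2) := mul_nonneg hC10 x1
    have y2 : 0 ≤ C1 * (T * ((m : ℝ) * n) ^ (1 / 2 : ℝ)) := mul_nonneg hC10 x2
    have y3 : 0 ≤ C1 * (T ^ (1 / 2 : ℝ) * ((m : ℝ) * n)) := mul_nonneg hC10 x3
    rw [x4] at hnear
    nlinarith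
  exact ⟨summable_of_sum_le hnn key, Real.tsum_le_of_sum_le hnn key⟩

end Pool.Agent.LibFM89
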