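import Pool.Agent.LibFM89.Defs
import Pool.Agent.LibM3.Defs
import Pool.Agent.LibM3.Q3

/-! (add the import of the template: `import Pool.Agent.LibM3.Q3`)
# FM89 T3: the diagonal terms for one fraction (SHORT/MEDIUM)

PLAN.  Template: `LibM3.diag_sum` (LibM3/Q3.lean).  `LibM3.q3_point`: for `z > 0` the series `∑ (1/j) PhR(log z - 2 log j)` converges and
`|2 ∑ - max 0 (log z)| ≤ C`.  Take `z = t/(2πx)`, `t ∈ win u = [u/2, 2u]`, so `t ≥ ε₁ T/2`, `t ≤ 2T`: `|log z - (log T - log x)| ≤ C(ε₁)`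
and `log T - log x ≥ 0`, so `|max 0 (log z) - (log T - log x)| ≤ C`.  Interchange sum and integral (nonnegative terms, uniform bound by
`q3_PhR`: `PhR l ≤ C e^l`, so the `j`-th term is `≤ C t/(2πx) j^{-3}` on the window; `hasSum_integral_of_summable_integral_norm`).
Finally `1 - γ(win u) ≤ 2 exp(-u²/(8V²))`, times `log T`, is `≤ 1` (template `LibM3.q3_mass`; or Chebyshev: `γ(|t-u| > u/2) ≤ 4V²/u² ≤
4 T^{-2δ}/ε₁²`, which times `log T` tends to `0`). -/

set_option autoImplicit false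

namespace Pool.Agent.LibFM89

open MeasureTheory Set Filter Topology Complex ProbabilityTheory
open scoped NNReal ComplexConjugate
open Pool.Agent.LibZM
open Pool.Agent.LibSM47 (gam ch idx)

private theorem t3_gprob (V u : ℝ) : IsProbabilityMeasure (gam V u) := by
  unfold gam
  infer_instance

private theorem t3_mass {ε₁ δ : ℝ} (hε1 : 0 < ε₁) (hδ : 0 < δ) : ∀ᶠ T : ℝ in atTop, ∀ u : ℝ, ε₁ * T ≤ u →
    1 - ((gam (T ^ (1 - δ)) u) (LibM3.win u)).toReal ≤ 1 / Real.log T := by
  have hlog : Tendsto Real.log atTop atTop := Real.tendsto_log_atTop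
  have hlit := (isLittleO_log_rpow_atTop (r := 2 * δ) (by positivity)).bound (c := ε₁ ^ 2 / 4) (by positivity)
  filter_upwards [eventually_gt_atTop 1, hlog.eventually_ge_atTop 1, hlit] with T hT hL hl u hu1
  have hT0 : 0 < T := by linarith
  have hL0 : 0 < Real.log T := by linarith
  have hu0 : 0 < u := lt_of_lt_of_le (by positivity) hu1
  set v : ℝ≥0 := ⟨(T ^ (1 - δ)) ^ 2, sq_nonneg _⟩ with hv
  have hvr : (v:ℝ) = (T ^ (1 - δ)) ^ 2 := rfl
  change 1 - ((gaussianReal u v) (LibM3.win u)).toReal ≤ 1 / Real.log T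
  have hcheb := meas_ge_le_variance_div_sq (μ := gaussianReal u v) (X := id)
    (memLp_id_gaussianReal' 2 (by norm_num)) (c := u / 2) (by positivity)
  rw [variance_id_gaussianReal] at hcheb
  have hmean : ∫ x, id x ∂(gaussianReal u v) = u := by
    simp
  rw [hmean] at hcheb
  have hsub : (LibM3.win u)ᶜ ⊆ {ω | u / 2 ≤ |id ω - u|} := by
    intro ω hω
    rw [LibM3.win, mem_compl_iff, mem_Icc, not_and_or] at hω
    simp only [id, mem_ofPred_eq]
    rcases hω with h | h
    · push Not at h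
      rw [abs_of_neg (by linarith)]; linarith
    · push Not at h
      rw [abs_of_pos (by linarith)]; linarith
  have hm : MeasurableSet (LibM3.win u) := measurableSet_Icc
  have h1 : (gaussianReal u v) (LibM3.win u)ᶜ ≤ ENNReal.ofReal ((v:ℝ) / (u / 2) ^ 2) := (measure_mono hsub).trans hcheb
  have h2 : ((gaussianReal u v) (LibM3.win u)ᶜ).toReal ≤ (v:ℝ) / (u / 2) ^ 2 := by
    have := ENNReal.toReal_mono ENNReal.ofReal_ne_top h1
    rwa [ENNReal.toReal_ofReal (by positivity)] at this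
  have h3 : ((gaussianReal u v) (LibM3.win u)ᶜ).toReal = 1 - ((gaussianReal u v) (LibM3.win u)).toReal := by
    rw [measure_compl hm (measure_ne_top _ _), measure_univ, ENNReal.toReal_sub_of_le prob_le_one ENNReal.one_ne_top]
    simp
  rw [← h3]
  refine h2.trans ?_
  rw [hvr, div_le_div_iff₀ (by positivity) hL0, one_mul]
  rw [Real.norm_of_nonneg hL0.le, Real.norm_of_nonneg (by positivity)] at hl
  have h4 : (ε₁ * T / 2) ^ 2 ≤ (u / 2) ^ 2 := pow_le_pow_left₀ (by positivity) (by linarith) 2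
  have e1 : (T ^ (1 - δ)) ^ 2 * T ^ (2 * δ) = T ^ 2 := by
    rw [← Real.rpow_natCast, ← Real.rpow_natCast, ← Real.rpow_mul hT0.le, ← Real.rpow_add hT0]
    congr 1
    push_cast
    ring
  calc (T ^ (1 - δ)) ^ 2 * Real.log T ≤ (T ^ (1 - δ)) ^ 2 * (ε₁ ^ 2 / 4 * T ^ (2 * δ)) :=
        mul_le_mul_of_nonneg_left hl (by positivity)
    _ = ((T ^ (1 - δ)) ^ 2 * T ^ (2 * δ)) * (ε₁ ^ 2 / 4) := by ring
    _ = (ε₁ * T / 2) ^ 2 := by rw [e1]; ring
    _ ≤ (u / 2) ^ 2 := h4

open LibM3 in
theorem diag2 (ε₁ δ : ℝ) (hε1 : 0 < ε₁) (hδ : 0 < δ) (hδ1 : δ ≤ 1 / 10) :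
    ∃ C T₀ : ℝ, 0 < C ∧ ∀ T : ℝ, T₀ ≤ T → ∀ u : ℝ, ε₁ * T ≤ u → u ≤ T → ∀ x : ℝ, 1 ≤ x → x ≤ T →
      Summable (fun j : ℕ => (j : ℝ)⁻¹ * ∫ t in LibM3.win u,
        LibM3.PhR (Real.log (t / (2 * Real.pi)) - Real.log x - 2 * Real.log j) ∂(gam (T ^ (1 - δ)) u)) ∧
      |2 * (∑' j : ℕ, (j : ℝ)⁻¹ * ∫ t in LibM3.win u,
        LibM3.PhR (Real.log (t / (2 * Real.pi)) - Real.log x - 2 * Real.log j) ∂(gam (T ^ (1 - δ)) u)) -
        (Real.log T - Real.log x)| ≤ C := by
  obtain ⟨C₀, hC₀, hPh⟩ := q3_PhR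
  obtain ⟨C₁, hC₁, hpt⟩ := q3_point
  set K : ℝ := |Real.log (ε₁ / (4 * Real.pi))| + |Real.log (1 / Real.pi)| with hK
  have hK0 : 0 ≤ K := by positivity
  have hlog : Tendsto Real.log atTop atTop := Real.tendsto_log_atTop
  obtain ⟨T₀, hT₀⟩ := eventually_atTop.1 ((t3_mass hε1 hδ).and
    ((eventually_gt_atTop (1:ℝ)).and (hlog.eventually_ge_atTop 1)))
  refine ⟨C₁ + K + 1, T₀, by positivity, fun T hTT u hu1 hu2 x hx hxT => ?_⟩
  obtain ⟨hm, hT, hL⟩ := hT₀ T hTT
  have hm' := hm u hu1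
  clear hm hT₀
  have hT0 : 0 < T := by linarith
  have hL0 : 0 < Real.log T := by linarith
  have hu0 : 0 < u := lt_of_lt_of_le (by positivity) hu1
  have hx0 : 0 < x := by linarith
  set γ := gam (T ^ (1 - δ)) u with hγ
  have hγp : IsProbabilityMeasure γ := t3_gprob _ _
  set μ := γ.restrict (win u) with hμ
  have hwm : MeasurableSet (win u) := measurableSet_Icc
  have hwin : ∀ t ∈ win u, 0 < t := by
    intro t ht
    rw [win, mem_Icc] at ht
    linarith [ht.1]
  -- rewriting of the argument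
  set g : ℕ → ℝ → ℝ := fun j t => (j:ℝ)⁻¹ * PhR (Real.log (t / (2 * Real.pi)) - Real.log x - 2 * Real.log j) with hg
  have hpi : 0 < Real.pi := Real.pi_pos
  have hgz : ∀ j, ∀ t, 0 < t → g j t = (j:ℝ)⁻¹ * PhR (Real.log (t / (2 * Real.pi * x)) - 2 * Real.log j) := by
    intro j t ht
    rcases Nat.eq_zero_or_pos j with rfl | hj
    · simp [hg]
    have hj0 : (0:ℝ) < j := by exact_mod_cast hj
    simp only [hg]
    congr 2
    rw [Real.log_div ht.ne' (by positivity), Real.log_div ht.ne' (by positivity),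
      Real.log_mul (by positivity) hx0.ne']
    ring
  have hg0 : ∀ j t, 0 ≤ g j t := fun j t => mul_nonneg (by positivity) (PhR_mem _).1
  have hPm : Measurable PhR := PhR_mono.measurable
  have hgm : ∀ j, Measurable (g j) := by
    intro j
    refine Measurable.const_mul (hPm.comp ?_) _
    exact ((Real.measurable_log.comp (measurable_id.div_const _)).sub_const _).sub_const _
  have hgle : ∀ j, ∀ t ∈ win u, g j t ≤ C₀ * u * ((j:ℝ) ^ 2)⁻¹ := by
    intro j t ht
    rcases Nat.eq_zero_or_pos j with rfl | hj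
    · simp [hg]
    have hj0 : (0:ℝ) < j := by exact_mod_cast hj
    have hj1 : (1:ℝ) ≤ j := by exact_mod_cast hj
    have ht0 := hwin t ht
    rw [hgz j t ht0]
    have h1 := (hPh (Real.log (t / (2 * Real.pi * x)) - 2 * Real.log j)).1
    have e1 : Real.exp (Real.log (t / (2 * Real.pi * x)) - 2 * Real.log j) = (t / (2 * Real.pi * x)) * ((j:ℝ) ^ 2)⁻¹ := by
      have e0 : Real.exp (2 * Real.log j) = (j:ℝ) ^ 2 := by
        rw [mul_comm, Real.exp_mul, Real.exp_log hj0]; norm_num
      rw [Real.exp_sub, Real.exp_log (by positivity), e0, div_eq_mul_inv]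
    rw [e1] at h1
    have h2 : t / (2 * Real.pi * x) ≤ u := by
      rw [win, mem_Icc] at ht
      rw [div_le_iff₀ (by positivity)]
      have : 1 ≤ Real.pi := by linarith [Real.pi_gt_three]
      nlinarith [ht.2, mul_pos hu0 hpi, mul_le_mul this hx zero_le_one (by positivity)]
    calc (j:ℝ)⁻¹ * PhR _ ≤ 1 * PhR _ := mul_le_mul_of_nonneg_right (inv_le_one_of_one_le₀ hj1) (PhR_mem _).1
      _ ≤ C₀ * (t / (2 * Real.pi * x) * ((j:ℝ) ^ 2)⁻¹) := by rw [one_mul]; exact h1
      _ ≤ C₀ * (u * ((j:ℝ) ^ 2)⁻¹) := by gcongr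
      _ = _ := by ring
  have hμfin : IsFiniteMeasure μ := by rw [hμ]; infer_instance
  have hμle : (μ univ).toReal ≤ 1 := by
    rw [hμ, Measure.restrict_apply_univ]
    exact ENNReal.toReal_le_of_le_ofReal zero_le_one (by rw [ENNReal.ofReal_one]; exact prob_le_one)
  have hgint : ∀ j, Integrable (g j) μ := by
    intro j
    refine Integrable.of_bound (hgm j).aestronglyMeasurable (C₀ * u * ((j:ℝ) ^ 2)⁻¹) ?_
    rw [hμ, ae_restrict_iff' hwm]
    refine Filter.Eventually.of_forall fun t ht => ?_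
    rw [Real.norm_of_nonneg (hg0 j t)]
    exact hgle j t ht
  have hgis : Summable fun j => ∫ t, ‖g j t‖ ∂μ := by
    refine Summable.of_nonneg_of_le (fun j => integral_nonneg fun t => norm_nonneg _) (fun j => ?_)
      ((Real.summable_nat_pow_inv.2 (by norm_num : 1 < 2)).mul_left (C₀ * u))
    have h1 : ∫ t, ‖g j t‖ ∂μ ≤ ∫ t, C₀ * u * ((j:ℝ) ^ 2)⁻¹ ∂μ := by
      refine integral_mono_ae (hgint j).norm (integrable_const _) ?_
      rw [Filter.EventuallyLE, hμ, ae_restrict_iff' hwm]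
      refine Filter.Eventually.of_forall fun t ht => ?_
      rw [Real.norm_of_nonneg (hg0 j t)]
      exact hgle j t ht
    rw [integral_const, smul_eq_mul, Measure.real] at h1
    refine h1.trans ?_
    have : (0:ℝ) ≤ C₀ * u * ((j:ℝ) ^ 2)⁻¹ := by positivity
    nlinarith
  have hHS := hasSum_integral_of_summable_integral_norm hgint hgis
  have hconv : ∀ j : ℕ, (j:ℝ)⁻¹ * (∫ t in win u, PhR (Real.log (t / (2 * Real.pi)) - Real.log x - 2 * Real.log j) ∂γ) = ∫ t, g j t ∂μ := by
    intro j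
    rw [hg, integral_const_mul]
  have hconv' : (fun j : ℕ => (j:ℝ)⁻¹ * (∫ t in win u, PhR (Real.log (t / (2 * Real.pi)) - Real.log x - 2 * Real.log j) ∂γ)) =
      fun j => ∫ t, g j t ∂μ := funext hconv
  change Summable (fun j : ℕ => (j:ℝ)⁻¹ * (∫ t in win u, PhR (Real.log (t / (2 * Real.pi)) - Real.log x - 2 * Real.log j) ∂γ)) ∧
    |2 * (∑' j : ℕ, (j:ℝ)⁻¹ * (∫ t in win u, PhR (Real.log (t / (2 * Real.pi)) - Real.log x - 2 * Real.log j) ∂γ))
      - (Real.log T - Real.log x)| ≤ C₁ + K + 1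
  rw [hconv']
  refine ⟨hHS.summable, ?_⟩
  rw [hHS.tsum_eq]
  set S : ℝ → ℝ := fun t => ∑' j, g j t with hS
  have hMeq : Real.log T - Real.log x = max 0 (Real.log (T / x)) := by
    rw [max_eq_right (Real.log_nonneg ((one_le_div hx0).2 hxT)), Real.log_div hT0.ne' hx0.ne']
  rw [hMeq]
  set M := max 0 (Real.log (T / x)) with hM
  -- pointwise bound
  have hSsum : ∀ t ∈ win u, Summable fun j => g j t := by
    intro t ht
    have ht0 := hwin t ht
    have := (hpt (t / (2 * Real.pi * x)) (by positivity)).1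
    simpa only [hgz _ t ht0] using this
  have hSb : ∀ t ∈ win u, |2 * S t - M| ≤ C₁ + K := by
    intro t ht
    have ht0 := hwin t ht
    have h1 := (hpt (t / (2 * Real.pi * x)) (by positivity)).2
    have e1 : S t = ∑' j : ℕ, (j:ℝ)⁻¹ * PhR (Real.log (t / (2 * Real.pi * x)) - 2 * Real.log j) := by
      simp only [hS, hgz _ t ht0]
    rw [← e1] at h1
    have h2 : |max 0 (Real.log (t / (2 * Real.pi * x))) - M| ≤ K := by
      rw [hM]
      have h3 : |max 0 (Real.log (t / (2 * Real.pi * x))) - max 0 (Real.log (T / x))| ≤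
          |Real.log (t / (2 * Real.pi * x)) - Real.log (T / x)| := by
        have := abs_max_sub_max_le_abs (Real.log (t / (2 * Real.pi * x))) (Real.log (T / x)) 0
        rwa [max_comm _ 0, max_comm _ 0] at this
      refine h3.trans ?_
      have e2 : Real.log (t / (2 * Real.pi * x)) - Real.log (T / x) = Real.log (t / (2 * Real.pi * T)) := by
        rw [Real.log_div ht0.ne' (by positivity), Real.log_div hT0.ne' hx0.ne', Real.log_div ht0.ne' (by positivity),
          Real.log_mul (by positivity) hx0.ne', Real.log_mul (by positivity) hT0.ne']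
        ring
      rw [e2]
      rw [win, mem_Icc] at ht
      have l1 : ε₁ / (4 * Real.pi) ≤ t / (2 * Real.pi * T) := by
        rw [div_le_div_iff₀ (by positivity) (by positivity)]
        nlinarith [ht.1, mul_le_mul_of_nonneg_right (by linarith [ht.1] : ε₁ * T ≤ 2 * t) hpi.le]
      have l2 : t / (2 * Real.pi * T) ≤ 1 / Real.pi := by
        rw [div_le_div_iff₀ (by positivity) (by positivity)]
        nlinarith [ht.2, mul_le_mul_of_nonneg_right (by linarith [ht.2] : t ≤ 2 * T) hpi.le]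
      have m1 := Real.log_le_log (by positivity) l1
      have m2 := Real.log_le_log (by positivity) l2
      rw [hK, abs_le]
      have n1 := neg_abs_le (Real.log (ε₁ / (4 * Real.pi)))
      have n2 := le_abs_self (Real.log (1 / Real.pi))
      have n3 := abs_nonneg (Real.log (ε₁ / (4 * Real.pi)))
      have n4 := abs_nonneg (Real.log (1 / Real.pi))
      constructor <;> linarith
    calc |2 * S t - M| = |(2 * S t - max 0 (Real.log (t / (2 * Real.pi * x)))) + (max 0 (Real.log (t / (2 * Real.pi * x))) - M)| := by ring_nf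
      _ ≤ C₁ + K := (abs_add_le _ _).trans (add_le_add h1 h2)
  have hSm : AEStronglyMeasurable S μ := by
    refine aestronglyMeasurable_of_tendsto_ae atTop (f := fun (n : ℕ) t => ∑ j ∈ Finset.range n, g j t) (fun n => ?_) ?_
    · exact (Finset.measurable_fun_sum _ fun j _ => hgm j).aestronglyMeasurable
    · rw [hμ, ae_restrict_iff' hwm]
      refine Filter.Eventually.of_forall fun t ht => ?_
      exact (hSsum t ht).hasSum.tendsto_sum_nat
  have hSint : Integrable S μ := by
    refine Integrable.of_bound hSm ((C₁ + K + |M|) / 2) ?_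
    rw [hμ, ae_restrict_iff' hwm]
    refine Filter.Eventually.of_forall fun t ht => ?_
    have h1 := hSb t ht
    rw [Real.norm_eq_abs]
    have h2 : |2 * S t| ≤ C₁ + K + |M| := by
      calc |2 * S t| = |(2 * S t - M) + M| := by ring_nf
        _ ≤ _ := (abs_add_le _ _).trans (by linarith)
    rw [abs_mul, abs_two] at h2
    linarith
  have hI : |∫ t, (2 * S t - M) ∂μ| ≤ (C₁ + K) * (μ univ).toReal := by
    have := norm_integral_le_of_norm_le_const (μ := μ) (f := fun t => 2 * S t - M) (C := C₁ + K) (by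
      rw [hμ, ae_restrict_iff' hwm]
      exact Filter.Eventually.of_forall fun t ht => hSb t ht)
    exact this
  have hI2 : ∫ t, (2 * S t - M) ∂μ = 2 * ∫ t, S t ∂μ - M * (μ univ).toReal := by
    rw [integral_sub (hSint.const_mul 2) (integrable_const _), integral_const_mul, integral_const, smul_eq_mul, Measure.real]
    ring
  have hMle : 0 ≤ M ∧ M ≤ Real.log T := by
    refine ⟨le_max_left _ _, max_le hL0.le ?_⟩
    exact Real.log_le_log (by positivity) (div_le_self hT0.le hx)
  have hμuniv : (μ univ).toReal = (γ (win u)).toReal := by rw [hμ, Measure.restrict_apply_univ]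
  have h6 : M * (1 - (μ univ).toReal) ≤ 1 := by
    rw [hμuniv]
    calc M * (1 - (γ (win u)).toReal) ≤ M * (1 / Real.log T) := mul_le_mul_of_nonneg_left hm' hMle.1
      _ ≤ Real.log T * (1 / Real.log T) := mul_le_mul_of_nonneg_right hMle.2 (by positivity)
      _ = 1 := by field_simp
  have h7 : 0 ≤ M * (1 - (μ univ).toReal) := mul_nonneg hMle.1 (by linarith)
  have h8 : (C₁ + K) * (μ univ).toReal ≤ C₁ + K := by
    have : 0 ≤ C₁ + K := by positivity
    nlinarith
  have h9 := hI.trans h8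
  rw [hI2] at h9
  have e5 : 2 * ∫ t, S t ∂μ - M = (2 * ∫ t, S t ∂μ - M * (μ univ).toReal) - M * (1 - (μ univ).toReal) := by ring
  change |2 * ∫ t, S t ∂μ - M| ≤ C₁ + K + 1
  rw [e5]
  calc _ ≤ |2 * ∫ t, S t ∂μ - M * (μ univ).toReal| + |M * (1 - (μ univ).toReal)| := abs_sub _ _
    _ ≤ _ := by rw [abs_of_nonneg h7]; linarith

end Pool.Agent.LibFM89
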