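import Pool.Agent.LibFM89.Defs
import Pool.Agent.LibM3.Defs
import Pool.Agent.LibSM47.M_W4

/-! (add the import of the template: `import Pool.Agent.LibSM47.M_W4`)
# FM89 T4: outside the window (SHORT/MEDIUM)

PLAN.  Template: `LibSM47/M_W4.lean` (`tail_le`: the same for the sixth power; `W4_map`, `W4_pt` are private there: copy them).
`|ζ(1/2+it)| ≤ C(1+|t|)`; outside `win u = [u/2,2u]` we have `|t-u| ≥ u/2 ≥ ε₁ T/2`, and `|t-u| = V|x|` with `x` standard Gaussian, so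
`|x| ≥ ε₁ T^δ/2` and `1 ≤ (2|x|/(ε₁ T^δ))^k` for any `k`: `∫ ≤ C T² T^{-kδ} E(1+|x|)^{2+k}`; choose `k ≥ 4/δ`. -/

set_option autoImplicit false

namespace Pool.Agent.LibFM89

open MeasureTheory Set Filter Topology Complex ProbabilityTheory
open scoped NNReal ComplexConjugate
open Pool.Agent.LibZM
open Pool.Agent.LibSM47 (gam ch idx)

private theorem T4_map (V u : ℝ) : gam V u = (gam 1 0).map (fun x => V * x + u) := by
  have h1 : gam 1 0 = gaussianReal 0 1 := by
    rw [gam]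
    congr 1
    apply NNReal.coe_injective
    show (1 : ℝ) ^ 2 = 1
    norm_num
  have h2 : (fun x : ℝ => V * x + u) = (fun x => x + u) ∘ fun x => V * x := rfl
  rw [h1, h2, ← Measure.map_map (by fun_prop) (by fun_prop), gaussianReal_map_const_mul,
    gaussianReal_map_add_const, gam]
  congr 1
  · ring
  · rw [mul_one]
    rfl

private theorem T4_pt {ε₁ δ T V u x : ℝ} (hε1 : 0 < ε₁) (hδ : 0 < δ) (hδ1 : δ ≤ 1 / 10) (hT : 1 ≤ T)
    (hV : V = T ^ (1 - δ)) (hu : 0 ≤ u) (huT : u ≤ T) (hx : ε₁ * T ≤ 2 * (V * |x|))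
    (k : ℕ) (hk : 3 ≤ k * δ) :
    ‖riemannZeta (crit (V * x + u))‖ ^ 2 ≤ T ^ (-1 : ℝ) * ((2 / ε₁) ^ k * (2 * (36 * |x| ^ k + 4 * |x| ^ (k + 2)))) := by
  have hT0 : 0 < T := by linarith
  have hV0 : 0 < V := by
    rw [hV]
    positivity
  have hVT : V ≤ T := by
    rw [hV]
    calc T ^ (1 - δ) ≤ T ^ (1 : ℝ) := Real.rpow_le_rpow_of_exponent_le hT (by linarith)
      _ = T := Real.rpow_one T
  have h1 : T ^ δ ≤ 2 / ε₁ * |x| := by
    have h2 : V * T ^ δ = T := by
      rw [hV, ← Real.rpow_add hT0]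
      have : 1 - δ + δ = 1 := by ring
      rw [this, Real.rpow_one]
    have h3 : V * (ε₁ * T ^ δ) ≤ V * (2 * |x|) := by
      calc V * (ε₁ * T ^ δ) = ε₁ * (V * T ^ δ) := by ring
        _ = ε₁ * T := by rw [h2]
        _ ≤ 2 * (V * |x|) := hx
        _ = V * (2 * |x|) := by ring
    have h4 := le_of_mul_le_mul_left h3 hV0
    rw [div_mul_eq_mul_div, le_div_iff₀ hε1]
    linarith
  have h3 : T ^ 3 ≤ (2 / ε₁) ^ k * |x| ^ k := by
    calc T ^ 3 = T ^ (3 : ℝ) := by
          rw [← Real.rpow_natCast]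
          norm_num
      _ ≤ T ^ (δ * (k : ℝ)) := by
          apply Real.rpow_le_rpow_of_exponent_le hT
          linarith
      _ = (T ^ δ) ^ k := by
          rw [Real.rpow_mul hT0.le, Real.rpow_natCast]
      _ ≤ (2 / ε₁ * |x|) ^ k := pow_le_pow_left₀ (by positivity) h1 _
      _ = (2 / ε₁) ^ k * |x| ^ k := mul_pow _ _ _
  have h4 : |V * x + u| ≤ T * |x| + T := by
    calc |V * x + u| ≤ |V * x| + |u| := abs_add_le _ _
      _ = V * |x| + u := by rw [abs_mul, abs_of_pos hV0, abs_of_nonneg hu]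
      _ ≤ T * |x| + T := by
          have := mul_le_mul_of_nonneg_right hVT (abs_nonneg x)
          linarith
  have h5 : ‖riemannZeta (crit (V * x + u))‖ ≤ T * (6 + 2 * |x|) := by
    refine (norm_zeta_crit_le _).trans ?_
    nlinarith
  have h6 : (6 + 2 * |x|) ^ 2 ≤ 2 * (36 + 4 * |x| ^ 2) := by
    nlinarith [sq_nonneg (6 - 2 * |x|)]
  have h7 : T ^ (-1 : ℝ) * T ^ 3 = T ^ 2 := by
    rw [Real.rpow_neg_one]
    field_simp
  have hTi : 0 ≤ T ^ (-1 : ℝ) := by positivity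
  calc ‖riemannZeta (crit (V * x + u))‖ ^ 2 ≤ (T * (6 + 2 * |x|)) ^ 2 :=
        pow_le_pow_left₀ (norm_nonneg _) h5 2
    _ = T ^ 2 * (6 + 2 * |x|) ^ 2 := by rw [mul_pow]
    _ = T ^ (-1 : ℝ) * (T ^ 3 * (6 + 2 * |x|) ^ 2) := by rw [← h7]; ring
    _ ≤ T ^ (-1 : ℝ) * ((2 / ε₁) ^ k * |x| ^ k * (2 * (36 + 4 * |x| ^ 2))) := by
        apply mul_le_mul_of_nonneg_left _ hTi
        exact mul_le_mul h3 h6 (by positivity) (by positivity)
    _ = _ := by ring

theorem tail2 (ε₁ δ : ℝ) (hε1 : 0 < ε₁) (hδ : 0 < δ) (hδ1 : δ ≤ 1 / 10) :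
    ∃ C T₀ : ℝ, 0 < C ∧ ∀ T : ℝ, T₀ ≤ T → ∀ u : ℝ, ε₁ * T ≤ u → u ≤ T →
      ∫ t in (LibM3.win u)ᶜ, ‖riemannZeta (crit t)‖ ^ 2 ∂(gam (T ^ (1 - δ)) u) ≤ C * T ^ (-1 : ℝ) := by
  obtain ⟨k, hk⟩ := exists_nat_ge (3 / δ)
  have hkδ : 3 ≤ k * δ := by rwa [div_le_iff₀ hδ] at hk
  set G : ℝ → ℝ := fun x => (2 / ε₁) ^ k * (2 * (36 * |x| ^ k + 4 * |x| ^ (k + 2))) with hG
  have hGint : Integrable G (gam 1 0) := by
    apply Integrable.const_mul
    apply Integrable.const_mul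
    exact ((LibSM47.int_abs_pow 1 0 k).const_mul _).add ((LibSM47.int_abs_pow 1 0 (k + 2)).const_mul _)
  have hG0 : ∀ x, 0 ≤ G x := by
    intro x
    positivity
  have hGI : 0 ≤ ∫ x, G x ∂(gam 1 0) := integral_nonneg hG0
  refine ⟨(∫ x, G x ∂(gam 1 0)) + 1, 1, by linarith, ?_⟩
  intro T hT u huε huT
  have hT0 : 0 < T := by linarith
  have hu : 0 ≤ u := le_trans (by positivity) huε
  set V := T ^ (1 - δ) with hV
  have hV0 : 0 < V := by
    rw [hV]
    positivity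
  have hTi : 0 ≤ T ^ (-1 : ℝ) := by positivity
  suffices h : ∫ t in (LibM3.win u)ᶜ, ‖riemannZeta (crit t)‖ ^ 2 ∂(gam V u) ≤ ∫ x, T ^ (-1 : ℝ) * G x ∂(gam 1 0) by
    rw [integral_const_mul] at h
    refine h.trans ?_
    rw [mul_comm]
    apply mul_le_mul_of_nonneg_right _ hTi
    linarith
  have hcz : Continuous (fun t : ℝ => ‖riemannZeta (crit t)‖ ^ 2) := continuous_zeta_crit.norm.pow 2
  have hwin : MeasurableSet (LibM3.win u) := measurableSet_Icc
  have hae : AEStronglyMeasurable ((LibM3.win u)ᶜ.indicator (fun t : ℝ => ‖riemannZeta (crit t)‖ ^ 2))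
      ((gam 1 0).map (fun x => V * x + u)) :=
    (hcz.stronglyMeasurable.indicator hwin.compl).aestronglyMeasurable
  rw [← integral_indicator hwin.compl, T4_map V u, integral_map (by fun_prop) hae]
  apply integral_mono_of_nonneg
  · exact Eventually.of_forall fun x => indicator_nonneg (fun t _ => by positivity) _
  · exact hGint.const_mul _
  · refine Eventually.of_forall fun x => ?_
    by_cases hmem : V * x + u ∈ (LibM3.win u)ᶜ
    · simp only [indicator_of_mem hmem]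
      apply T4_pt hε1 hδ hδ1 hT hV hu huT _ k hkδ
      have h7 : V * x + u < u / 2 ∨ 2 * u < V * x + u := by
        by_contra hcon
        push Not at hcon
        exact hmem ⟨hcon.1, hcon.2⟩
      have h8 : V * |x| = |V * x| := by rw [abs_mul, abs_of_pos hV0]
      rw [h8]
      rcases h7 with h7 | h7
      · have := neg_le_abs (V * x)
        linarith
      · have := le_abs_self (V * x)
        linarith
    · simp only [indicator_of_notMem hmem]
      exact mul_nonneg hTi (hG0 x)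

end Pool.Agent.LibFM89
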