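import Pool.Agent.LibFM89.T1
import Pool.Agent.LibFM89.T2
import Pool.Agent.LibFM89.T3
import Pool.Agent.LibFM89.T4
import Pool.Agent.LibM3.Q4
import Pool.Agent.LibSM47.M_A1c

/-! (add the import of the template: `import Pool.Agent.LibM3.Q4`)
# FM89 T5: the twisted second moment for one fraction (MEDIUM)

PLAN.  Template: `LibM3.qform_mean` (LibM3/Q4.lean; lemmas `q4_*`, `summable_W2`, `zeta_sq_approx` of LibM3/A8).  `m n` coprime, `V = T^(1-δ)`.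
(1) `I2 V u (m/n) = ∫_{win u} |ζ|² ch(m/n) dγ + O(T^{-1})` (T4, `‖ch‖ = 1`: `LibSM47.norm_ch`).
(2) On `win u`: `|ζ(crit t)|² = 2 ∑' W2 t q + O(t^{c-1} (c-1/2)^{-2})`, `c = 1/2 + 1/log T`, i.e. error `≤ C T^{-1/2} (log T)²` (`LibM3.q4_err`).
(3) Interchange (`LibM3.q4_W2_le`, `q4_summable_maj`): the main part is `2 ∑'_{(a,b)} ∫_{win u} W2 t (a,b) ch(m/n) t dγ`, and for `a,b ≥ 1`
`W2 t (a,b) ch(m/n) t = (ab)^{-1/2} Ph 0 (log(t/2π) - log(ab)) exp(-i t l)`, `l = log(an/(bm))` (`Ph 0 = PhR` real: see q4).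
(4) `an ≠ bm`: T1 bounds the term by `C (V^{-1})² tw2 T m n (a,b)`; T2 sums: `T^{-2+2δ} (T^{1/2}(1+log T)² + T (mn)^{1/2} + T^{1/2} mn) ≤
3 T^{-1/2}` because `mn ≤ T^{1-ε}` and `2δ ≤ ε/8`.
(5) `an = bm`: `a = m j`, `b = n j` (coprimality), the sum is `(mn)^{-1/2} 2 ∑_j (1/j) ∫ PhR(log(t/2π) - log(mn) - 2 log j)`: T3 with `x = mn`. -/

set_option autoImplicit false

namespace Pool.Agent.LibFM89

open MeasureTheory Set Filter Topology Complex ProbabilityTheory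
open scoped NNReal ComplexConjugate
open Pool.Agent.LibZM
open Pool.Agent.LibSM47 (gam ch idx)

private noncomputable def t5J (V u x l : ℝ) : ℂ :=
  ∫ t in LibM3.win u, LibM3.Ph 0 (Real.log (t / (2 * Real.pi)) - Real.log x) *
    cexp (-(((l * t : ℝ) : ℂ) * I)) ∂(gam V u)

private noncomputable def t5Jr (V u x : ℝ) (j : ℕ) : ℝ :=
  ∫ t in LibM3.win u, LibM3.PhR (Real.log (t / (2 * Real.pi)) - Real.log x - 2 * Real.log j) ∂(gam V u)

private theorem t5_norm_int_le {E : Type*} [NormedAddCommGroup E] [NormedSpace ℝ E] {f : ℝ → E}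
    {B u V : ℝ} (hB : 0 ≤ B) (h : ∀ t ∈ LibM3.win u, ‖f t‖ ≤ B) :
    ‖∫ t in LibM3.win u, f t ∂(gam V u)‖ ≤ B := by
  have h1 := norm_setIntegral_le_of_norm_le_const (μ := gam V u) (s := LibM3.win u)
    (f := f) (C := B) (measure_lt_top _ _) h
  refine h1.trans ?_
  calc B * (gam V u).real (LibM3.win u) ≤ B * 1 :=
        mul_le_mul_of_nonneg_left measureReal_le_one hB
    _ = B := mul_one B

private theorem t5_intOn {E : Type*} [NormedAddCommGroup E] {f : ℝ → E} {u V : ℝ}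
    (h : ContinuousOn f (LibM3.win u)) : IntegrableOn f (LibM3.win u) (gam V u) :=
  h.integrableOn_compact isCompact_Icc

private theorem t5_phase {a b m n : ℕ} (ha : 1 ≤ a) (hb : 1 ≤ b) (hm : 1 ≤ m) (hn : 1 ≤ n) (t : ℝ) :
    ((a:ℂ) ^ (-crit t) * (b:ℂ) ^ (-(1 - crit t))) * ch ((m:ℝ) / n) t =
      ((((a:ℝ) * b) ^ (-(1/2) : ℝ) : ℝ) : ℂ) *
        cexp (-(((Real.log (((a:ℝ) * n) / ((b:ℝ) * m)) * t : ℝ) : ℂ) * I)) := by
  have ha' : (0:ℝ) < a := by exact_mod_cast ha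
  have hb' : (0:ℝ) < b := by exact_mod_cast hb
  have hm' : (0:ℝ) < m := by exact_mod_cast hm
  have hn' : (0:ℝ) < n := by exact_mod_cast hn
  have e1 : ((a:ℝ) * b) ^ (-(1/2) : ℝ) = Real.exp (-(1/2) * (Real.log a + Real.log b)) := by
    rw [Real.rpow_def_of_pos (by positivity), Real.log_mul ha'.ne' hb'.ne']
    congr 1; ring
  have e2 : Real.log (((a:ℝ) * n) / ((b:ℝ) * m)) = Real.log a + Real.log n - Real.log b -
      Real.log m := by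
    rw [Real.log_div (by positivity) (by positivity), Real.log_mul ha'.ne' hn'.ne',
      Real.log_mul hb'.ne' hm'.ne']
    ring
  unfold ch
  rw [natCast_cpow_crit ha, LibM3.q4_cpow' hb, e1, e2, Real.log_div hm'.ne' hn'.ne',
    Complex.ofReal_exp, ← Complex.exp_add, ← Complex.exp_add, ← Complex.exp_add]
  congr 1
  simp only [crit]
  push_cast
  ring

private theorem t5_term {V u : ℝ} (a b : ℕ) {m n : ℕ} (hm : 1 ≤ m) (hn : 1 ≤ n) :
    ∫ t in LibM3.win u, LibM3.W2 t (a, b) * ch ((m:ℝ) / n) t ∂(gam V u) =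
      ((((a:ℝ) * b) ^ (-(1/2) : ℝ) : ℝ) : ℂ) *
        t5J V u ((a:ℝ) * b) (Real.log (((a:ℝ) * n) / ((b:ℝ) * m))) := by
  by_cases hab : a = 0 ∨ b = 0
  · have h1 : ∀ t : ℝ, LibM3.W2 t (a, b) * ch ((m:ℝ) / n) t = 0 := fun t => by
      rw [LibM3.q4_W2_zero hab, zero_mul]
    simp_rw [h1]
    rw [integral_zero]
    have h3 : (a:ℝ) * b = 0 := by
      rcases hab with rfl | rfl <;> simp
    rw [h3, Real.zero_rpow (by norm_num), Complex.ofReal_zero, zero_mul]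
  · push Not at hab
    have ha : 1 ≤ a := Nat.one_le_iff_ne_zero.2 hab.1
    have hb : 1 ≤ b := Nat.one_le_iff_ne_zero.2 hab.2
    unfold t5J
    rw [← integral_const_mul]
    refine integral_congr_ae (Filter.Eventually.of_forall fun t => ?_)
    have h2 := t5_phase ha hb hm hn t
    simp only
    unfold LibM3.W2
    linear_combination (LibM3.Ph 0 (Real.log (t / (2 * Real.pi)) - Real.log ((a:ℝ) * b))) * h2

private theorem t5_hasSum {T V u : ℝ} (hu : 0 < u) (huT : u ≤ T) (r : ℝ) :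
    HasSum (fun p : ℕ × ℕ => ∫ t in LibM3.win u, LibM3.W2 t p * ch r t ∂(gam V u))
      (∫ t in LibM3.win u, (∑' p : ℕ × ℕ, LibM3.W2 t p) * ch r t ∂(gam V u)) := by
  have hT : 0 < T := hu.trans_le huT
  obtain ⟨C, hC, h⟩ := LibM3.q4_W2_le
  have hcont : ∀ p : ℕ × ℕ, ContinuousOn (fun t => LibM3.W2 t p * ch r t) (LibM3.win u) := fun p =>
    (LibM3.q4_contOn_W2 hu p.1 p.2).mul (LibSM47.cont_ch r).continuousOn
  suffices hmaj : Summable fun p : ℕ × ℕ => ∫ t in LibM3.win u, ‖LibM3.W2 t p * ch r t‖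
      ∂(gam V u) by
    have h1 := hasSum_integral_of_summable_integral_norm
      (μ := (gam V u).restrict (LibM3.win u))
      (F := fun (p : ℕ × ℕ) t => LibM3.W2 t p * ch r t) (fun p => t5_intOn (hcont p)) hmaj
    have h2 : (∫ t in LibM3.win u, (∑' p : ℕ × ℕ, LibM3.W2 t p) * ch r t ∂(gam V u)) =
        ∫ t in LibM3.win u, ∑' p : ℕ × ℕ, LibM3.W2 t p * ch r t ∂(gam V u) :=
      integral_congr_ae (Filter.Eventually.of_forall fun t => (tsum_mul_right).symm)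
    rw [h2]
    exact h1
  · refine Summable.of_nonneg_of_le (fun p => integral_nonneg fun t => norm_nonneg _)
      (fun p => ?_) (LibM3.q4_summable_maj.mul_left (C * T ^ 4))
    have hB : 0 ≤ C * T ^ 4 *
        ((p.1:ℝ) ^ (-(9/2) : ℝ) * (p.2:ℝ) ^ (-(9/2) : ℝ)) := by positivity
    have h2 := t5_norm_int_le (E := ℝ) (V := V) (u := u) (f := fun t => ‖LibM3.W2 t p * ch r t‖) hB
      (fun t ht => by
        rw [norm_norm, norm_mul, LibSM47.norm_ch, mul_one]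
        exact h T u hu huT t ht p.1 p.2)
    exact (le_abs_self _).trans h2

private theorem t5_J_zero (V u x : ℝ) : t5J V u x 0 =
    ((∫ t in LibM3.win u, LibM3.PhR (Real.log (t / (2 * Real.pi)) - Real.log x) ∂(gam V u) : ℝ) : ℂ) := by
  unfold t5J
  rw [← integral_complex_ofReal]
  refine integral_congr_ae (Filter.Eventually.of_forall fun t => ?_)
  simp only [zero_mul, Complex.ofReal_zero, neg_zero, Complex.exp_zero, mul_one]
  exact LibM3.Ph_zero _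

private theorem t5_diag {V u : ℝ} {m n : ℕ} (hm : 1 ≤ m) (hn : 1 ≤ n) (hcop : Nat.Coprime m n) {S : ℝ}
    (hS : HasSum (fun j : ℕ => (j:ℝ)⁻¹ * t5Jr V u ((m:ℝ) * n) j) S) :
    HasSum (fun p : ℕ × ℕ => if p.1 * n = p.2 * m then ((((p.1:ℝ) * p.2) ^ (-(1/2) : ℝ) : ℝ) : ℂ) *
      t5J V u ((p.1:ℝ) * p.2) (Real.log (((p.1:ℝ) * n) / ((p.2:ℝ) * m))) else 0)
      (((((m:ℝ) * n) ^ (-(1/2) : ℝ) * S : ℝ)) : ℂ) := by
  have hm' : (0:ℝ) < m := by exact_mod_cast hm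
  have hn' : (0:ℝ) < n := by exact_mod_cast hn
  set φ : ℕ → ℕ × ℕ := fun j => (m * j, n * j) with hφ
  have hinj : Function.Injective φ := by
    intro i j hij
    have := congrArg Prod.fst hij
    exact Nat.eq_of_mul_eq_mul_left hm this
  rw [← hinj.hasSum_iff]
  · have hS' := (Complex.hasSum_ofReal.2 hS).mul_left (((((m:ℝ) * n) ^ (-(1/2) : ℝ) : ℝ)) : ℂ)
    have hval : (((((m:ℝ) * n) ^ (-(1/2) : ℝ) * S : ℝ)) : ℂ) =
        (((((m:ℝ) * n) ^ (-(1/2) : ℝ) : ℝ)) : ℂ) * (S : ℂ) := by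
      push_cast
      ring
    rw [hval]
    have hfun : ((fun p : ℕ × ℕ => if p.1 * n = p.2 * m then ((((p.1:ℝ) * p.2) ^ (-(1/2) : ℝ) : ℝ) : ℂ) *
      t5J V u ((p.1:ℝ) * p.2) (Real.log (((p.1:ℝ) * n) / ((p.2:ℝ) * m))) else 0) ∘ φ) =
      fun j : ℕ => (((((m:ℝ) * n) ^ (-(1/2) : ℝ) : ℝ)) : ℂ) * (((j:ℝ)⁻¹ * t5Jr V u ((m:ℝ) * n) j : ℝ) : ℂ) := by
      funext j
      have e1 : (φ j).1 * n = (φ j).2 * m := by
        simp only [hφ]
        ring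
      have e2 : Real.log ((((φ j).1 : ℕ) : ℝ) * n / ((((φ j).2 : ℕ) : ℝ) * m)) = 0 := by
        have e3 : (((φ j).1 : ℕ) : ℝ) * n = (((φ j).2 : ℕ) : ℝ) * m := by exact_mod_cast e1
        rw [e3]
        rcases eq_or_ne ((((φ j).2 : ℕ) : ℝ) * m) 0 with h0 | h0
        · rw [h0]; simp
        · rw [div_self h0, Real.log_one]
      have e4 : (((φ j).1 : ℕ) : ℝ) * (((φ j).2 : ℕ) : ℝ) = (m:ℝ) * n * (j:ℝ) ^ 2 := by
        simp only [hφ]
        push_cast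
        ring
      simp only [Function.comp_apply]
      rw [if_pos e1, e2, t5_J_zero, e4]
      rcases Nat.eq_zero_or_pos j with hj | hj
      · subst hj
        simp only [Nat.cast_zero]
        rw [show (m:ℝ) * n * (0:ℝ) ^ 2 = 0 by ring, Real.zero_rpow (by norm_num)]
        simp
      · have hj' : (0:ℝ) < j := by exact_mod_cast hj
        have e5 : ((m:ℝ) * n * (j:ℝ) ^ 2) ^ (-(1/2) : ℝ) = ((m:ℝ) * n) ^ (-(1/2) : ℝ) * (j:ℝ)⁻¹ := by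
          rw [Real.mul_rpow (by positivity) (by positivity)]
          congr 1
          rw [Real.rpow_neg (by positivity), ← Real.sqrt_eq_rpow, Real.sqrt_sq hj'.le]
        have e6 : Real.log ((m:ℝ) * n * (j:ℝ) ^ 2) = Real.log ((m:ℝ) * n) + 2 * Real.log j := by
          rw [Real.log_mul (by positivity) (by positivity), Real.log_pow]
          push_cast
          ring
        rw [e5, e6]
        unfold t5Jr
        have e7 : (fun t : ℝ => LibM3.PhR (Real.log (t / (2 * Real.pi)) - (Real.log ((m:ℝ) * n) + 2 * Real.log j))) =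
            fun t : ℝ => LibM3.PhR (Real.log (t / (2 * Real.pi)) - Real.log ((m:ℝ) * n) - 2 * Real.log j) := by
          funext t
          congr 1
          ring
        rw [e7]
        push_cast
        ring
    rw [hfun]
    exact hS'
  · rintro ⟨a, b⟩ hab
    rw [if_neg]
    intro he
    apply hab
    simp only at he
    have h2 : m ∣ a := by
      have h3 : m ∣ a * n := ⟨b, by rw [he]; ring⟩
      exact hcop.dvd_of_dvd_mul_right h3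
    obtain ⟨j, rfl⟩ := h2
    refine ⟨j, ?_⟩
    have h3 : b = n * j := by
      apply Nat.eq_of_mul_eq_mul_left hm
      calc m * b = b * m := by ring
        _ = m * j * n := he.symm
        _ = m * (n * j) := by ring
    simp only [hφ, h3]

private theorem t5_off_le {T V u C1 : ℝ}
    (hosc : ∀ x : ℝ, 1 ≤ x → ∀ l : ℝ, l ≠ 0 → ‖t5J V u x l‖ ≤
      C1 * min 1 ((T / x) ^ 4) * ((V⁻¹) ^ 2 * (1 + (l ^ 2)⁻¹)))
    (a b : ℕ) {m n : ℕ} (hm : 1 ≤ m) (hn : 1 ≤ n) :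
    ‖(if a * n = b * m then 0 else ((((a:ℝ) * b) ^ (-(1/2) : ℝ) : ℝ) : ℂ) *
      t5J V u ((a:ℝ) * b) (Real.log (((a:ℝ) * n) / ((b:ℝ) * m))) : ℂ)‖ ≤
      C1 * (V⁻¹) ^ 2 * tw2 T m n (a, b) := by
  by_cases he : a * n = b * m
  · rw [if_pos he, norm_zero]
    unfold tw2
    rw [if_pos (Or.inr (Or.inr he)), mul_zero]
  rw [if_neg he]
  by_cases hab : a = 0 ∨ b = 0
  · have h3 : (a:ℝ) * b = 0 := by
      rcases hab with rfl | rfl <;> simp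
    rw [h3, Real.zero_rpow (by norm_num), Complex.ofReal_zero, zero_mul, norm_zero]
    unfold tw2
    rw [if_pos (by tauto), mul_zero]
  · have hne : ¬ (a = 0 ∨ b = 0 ∨ a * n = b * m) := by tauto
    push Not at hab
    have ha : 1 ≤ a := Nat.one_le_iff_ne_zero.2 hab.1
    have hb : 1 ≤ b := Nat.one_le_iff_ne_zero.2 hab.2
    have ha' : (0:ℝ) < a := by exact_mod_cast ha
    have hb' : (0:ℝ) < b := by exact_mod_cast hb
    have hm' : (0:ℝ) < m := by exact_mod_cast hm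
    have hn' : (0:ℝ) < n := by exact_mod_cast hn
    have hx : (1:ℝ) ≤ (a:ℝ) * b := by exact_mod_cast Nat.mul_pos ha hb
    have hl : Real.log (((a:ℝ) * n) / ((b:ℝ) * m)) ≠ 0 := by
      apply Real.log_ne_zero_of_pos_of_ne_one (by positivity)
      intro h1
      rw [div_eq_one_iff_eq (by positivity)] at h1
      exact he (by exact_mod_cast h1)
    have h1 := hosc _ hx _ hl
    unfold tw2
    rw [if_neg hne, norm_mul, Complex.norm_real, Real.norm_eq_abs,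
      abs_of_nonneg (by positivity : (0:ℝ) ≤ ((a:ℝ) * b) ^ (-(1/2) : ℝ))]
    calc ((a:ℝ) * b) ^ (-(1/2) : ℝ) * ‖t5J V u ((a:ℝ) * b) (Real.log (((a:ℝ) * n) / ((b:ℝ) * m)))‖
        ≤ ((a:ℝ) * b) ^ (-(1/2) : ℝ) * (C1 * min 1 ((T / ((a:ℝ) * b)) ^ 4) * ((V⁻¹) ^ 2 *
            (1 + ((Real.log (((a:ℝ) * n) / ((b:ℝ) * m))) ^ 2)⁻¹))) :=
          mul_le_mul_of_nonneg_left h1 (by positivity)
      _ = _ := by ring

/-- Sizes. -/
private theorem t5_size {T δ ε x : ℝ} (hT : Real.exp 2 ≤ T) (hε : 0 < ε) (hε' : ε ≤ 1) (hδ1 : δ ≤ ε / 16)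
    (hx0 : 0 ≤ x) (hx : x ≤ T ^ (1 - ε)) :
    ((T ^ (1 - δ))⁻¹) ^ 2 * (T ^ (1 / 2 : ℝ) * (1 + Real.log T) ^ 2 + T * x ^ (1 / 2 : ℝ) +
      T ^ (1 / 2 : ℝ) * x) ≤ 6 * (T ^ (-(1 / 2) : ℝ) * Real.log T ^ 2) := by
  have hT0 : 0 < T := (Real.exp_pos 2).trans_le hT
  have hT1 : 1 ≤ T := (Real.one_le_exp (by norm_num)).trans hT
  have hL : 2 ≤ Real.log T := by
    rw [Real.le_log_iff_exp_le hT0]
    exact hT
  have hV : ((T ^ (1 - δ))⁻¹) ^ 2 = T ^ (-2 + 2 * δ) := by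
    rw [← Real.rpow_neg hT0.le, ← Real.rpow_natCast, ← Real.rpow_mul hT0.le]
    congr 1
    push_cast
    ring
  have hlog : (1 + Real.log T) ^ 2 ≤ 4 * Real.log T ^ 2 := by nlinarith
  have hlog1 : 1 ≤ Real.log T ^ 2 := by nlinarith
  have h1 : T ^ (-2 + 2 * δ) * T ^ (1 / 2 : ℝ) ≤ T ^ (-(1 / 2) : ℝ) := by
    rw [← Real.rpow_add hT0]
    exact Real.rpow_le_rpow_of_exponent_le hT1 (by linarith)
  have h2 : T ^ (-2 + 2 * δ) * (T * x ^ (1 / 2 : ℝ)) ≤ T ^ (-(1 / 2) : ℝ) := by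
    have e1 : x ^ (1 / 2 : ℝ) ≤ T ^ ((1 - ε) * (1 / 2)) := by
      rw [Real.rpow_mul hT0.le]
      exact Real.rpow_le_rpow hx0 hx (by norm_num)
    calc T ^ (-2 + 2 * δ) * (T * x ^ (1 / 2 : ℝ)) ≤ T ^ (-2 + 2 * δ) * (T ^ (1:ℝ) * T ^ ((1 - ε) * (1 / 2))) := by
          rw [Real.rpow_one]
          gcongr
      _ = T ^ (-2 + 2 * δ + (1 + (1 - ε) * (1 / 2))) := by
          rw [← Real.rpow_add hT0, ← Real.rpow_add hT0]
      _ ≤ T ^ (-(1 / 2) : ℝ) := Real.rpow_le_rpow_of_exponent_le hT1 (by linarith)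
  have h3 : T ^ (-2 + 2 * δ) * (T ^ (1 / 2 : ℝ) * x) ≤ T ^ (-(1 / 2) : ℝ) := by
    calc T ^ (-2 + 2 * δ) * (T ^ (1 / 2 : ℝ) * x) ≤ T ^ (-2 + 2 * δ) * (T ^ (1 / 2 : ℝ) * T ^ (1 - ε)) := by
          gcongr
      _ = T ^ (-2 + 2 * δ + (1 / 2 + (1 - ε))) := by
          rw [← Real.rpow_add hT0, ← Real.rpow_add hT0]
      _ ≤ T ^ (-(1 / 2) : ℝ) := Real.rpow_le_rpow_of_exponent_le hT1 (by linarith)
  rw [hV]
  have hp : 0 ≤ T ^ (-(1 / 2) : ℝ) := by positivity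
  have h4 : T ^ (-2 + 2 * δ) * T ^ (1 / 2 : ℝ) * (1 + Real.log T) ^ 2 ≤
      T ^ (-(1 / 2) : ℝ) * (4 * Real.log T ^ 2) :=
    mul_le_mul h1 hlog (by positivity) hp
  have h5 : T ^ (-(1 / 2) : ℝ) ≤ T ^ (-(1 / 2) : ℝ) * Real.log T ^ 2 := le_mul_of_one_le_right hp hlog1
  calc T ^ (-2 + 2 * δ) * (T ^ (1 / 2 : ℝ) * (1 + Real.log T) ^ 2 + T * x ^ (1 / 2 : ℝ) +
      T ^ (1 / 2 : ℝ) * x) = T ^ (-2 + 2 * δ) * T ^ (1 / 2 : ℝ) * (1 + Real.log T) ^ 2 +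
        T ^ (-2 + 2 * δ) * (T * x ^ (1 / 2 : ℝ)) + T ^ (-2 + 2 * δ) * (T ^ (1 / 2 : ℝ) * x) := by ring
    _ ≤ 6 * (T ^ (-(1 / 2) : ℝ) * Real.log T ^ 2) := by linarith

theorem second_fraction (ε ε₁ δ : ℝ) (hε : 0 < ε) (hε' : ε ≤ 1) (hε1 : 0 < ε₁) (hδ : 0 < δ) (hδ1 : δ ≤ ε / 16) :
    ∃ C T₀ : ℝ, 0 < C ∧ ∀ T : ℝ, T₀ ≤ T → ∀ u : ℝ, ε₁ * T ≤ u → u ≤ T → ∀ m n : ℕ, 1 ≤ m → 1 ≤ n →
      Nat.Coprime m n → (m : ℝ) * n ≤ T ^ (1 - ε) →
      ‖I2 (T ^ (1 - δ)) u ((m : ℝ) / n) -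
          ((((m : ℝ) * n) ^ (-(1 / 2) : ℝ) * (Real.log T - Real.log ((m : ℝ) * n)) : ℝ) : ℂ)‖ ≤
        C * ((m : ℝ) * n) ^ (-(1 / 2) : ℝ) + C * (T ^ (-(1 / 2) : ℝ) * Real.log T ^ 2) := by
  have hδ' : δ ≤ 1 / 10 := by linarith
  obtain ⟨C0, t0, hC0, -, hzeta⟩ := LibM3.zeta_sq_approx
  obtain ⟨C1, T1, hC1, hosc⟩ := osc2 ε₁ δ hε1 hδ hδ'
  obtain ⟨C2, hC2, hlat⟩ := lattice2
  obtain ⟨C3, T3, hC3, hdiag⟩ := diag2 ε₁ δ hε1 hδ hδ'
  obtain ⟨C4, T4, hC4, htail⟩ := tail2 ε₁ δ hε1 hδ hδ'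
  set B1 : ℝ := C0 * (Real.exp 1 * (ε₁ / 2) ^ (-(1/2) : ℝ)) with hB1
  have hB10 : 0 < B1 := by positivity
  refine ⟨C4 + B1 + C3 + 12 * (C1 * C2), max (Real.exp 2) (max (2 * t0 / ε₁) (max T1 (max T3 T4))),
    by positivity, ?_⟩
  intro T hT u hu1 hu2 m n hm hn hcop hmn
  simp only [max_le_iff] at hT
  obtain ⟨hTe, hTt, hTT1, hTT3, hTT4⟩ := hT
  have hT0 : 0 < T := (Real.exp_pos 2).trans_le hTe
  have hT1 : 1 ≤ T := (Real.one_le_exp (by norm_num)).trans hTe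
  have hu : 0 < u := (mul_pos hε1 hT0).trans_le hu1
  have hL : 2 ≤ Real.log T := by
    rw [Real.le_log_iff_exp_le hT0]
    exact hTe
  have ht0' : t0 ≤ ε₁ * T / 2 := by
    rw [div_le_iff₀ hε1] at hTt
    linarith
  have hm' : (0:ℝ) < m := by exact_mod_cast hm
  have hn' : (0:ℝ) < n := by exact_mod_cast hn
  have hmn1 : (1:ℝ) ≤ (m:ℝ) * n := by exact_mod_cast Nat.mul_pos hm hn
  have hmnT : (m:ℝ) * n ≤ T := hmn.trans (by
    calc T ^ (1 - ε) ≤ T ^ (1:ℝ) := Real.rpow_le_rpow_of_exponent_le hT1 (by linarith)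
      _ = T := Real.rpow_one T)
  set V : ℝ := T ^ (1 - δ) with hV
  set r : ℝ := (m:ℝ) / n with hr
  set E0 : ℝ := T ^ (-(1 / 2) : ℝ) * Real.log T ^ 2 with hE0
  have hE0pos : 0 ≤ E0 := by positivity
  -- integrability
  have hint : Integrable (fun t => ((‖riemannZeta (crit t)‖ ^ 2 : ℝ) : ℂ) * ch r t) (gam V u) := by
    refine (LibSM47.int_pow V u 2).mono' ?_ (ae_of_all _ fun t => ?_)
    · exact ((Complex.continuous_ofReal.comp (continuous_zeta_crit.norm.pow 2)).mul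
        (LibSM47.cont_ch r)).aestronglyMeasurable
    · rw [norm_mul, LibSM47.norm_ch, mul_one, Complex.norm_real, Real.norm_eq_abs,
        abs_of_nonneg (by positivity)]
  have hwin : MeasurableSet (LibM3.win u) := measurableSet_Icc
  -- (1) the tail
  have hsplit := integral_add_compl hwin hint
  have htl : ‖∫ t in (LibM3.win u)ᶜ, ((‖riemannZeta (crit t)‖ ^ 2 : ℝ) : ℂ) * ch r t ∂(gam V u)‖ ≤
      C4 * E0 := by
    have h1 := htail T hTT4 u hu1 hu2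
    have h2 : ‖∫ t in (LibM3.win u)ᶜ, ((‖riemannZeta (crit t)‖ ^ 2 : ℝ) : ℂ) * ch r t ∂(gam V u)‖ ≤
        ∫ t in (LibM3.win u)ᶜ, ‖riemannZeta (crit t)‖ ^ 2 ∂(gam V u) := by
      refine (norm_integral_le_integral_norm _).trans (le_of_eq ?_)
      refine integral_congr_ae (Filter.Eventually.of_forall fun t => ?_)
      simp only
      rw [norm_mul, LibSM47.norm_ch, mul_one, Complex.norm_real, Real.norm_eq_abs,
        abs_of_nonneg (by positivity)]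
    refine h2.trans (h1.trans ?_)
    refine mul_le_mul_of_nonneg_left ?_ hC4.le
    have h3 : T ^ (-1 : ℝ) ≤ T ^ (-(1 / 2) : ℝ) := Real.rpow_le_rpow_of_exponent_le hT1 (by norm_num)
    have h4 : T ^ (-(1 / 2) : ℝ) ≤ E0 := by
      rw [hE0]
      exact le_mul_of_one_le_right (by positivity) (by nlinarith)
    exact h3.trans h4
  -- (2) the approximate functional equation
  have hi1 : IntegrableOn (fun t => ((‖riemannZeta (crit t)‖ ^ 2 : ℝ) : ℂ) * ch r t)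
      (LibM3.win u) (gam V u) := hint.integrableOn
  have hi2 : IntegrableOn (fun t => (∑' p : ℕ × ℕ, LibM3.W2 t p) * ch r t) (LibM3.win u) (gam V u) :=
    t5_intOn ((LibM3.q4_contOn_tsum hu hu2).mul (LibSM47.cont_ch r).continuousOn)
  have hE : ‖(∫ t in LibM3.win u, ((‖riemannZeta (crit t)‖ ^ 2 : ℝ) : ℂ) * ch r t ∂(gam V u)) -
      2 * ∫ t in LibM3.win u, (∑' p : ℕ × ℕ, LibM3.W2 t p) * ch r t ∂(gam V u)‖ ≤ B1 * E0 := by
    rw [← integral_const_mul, ← integral_sub hi1 (hi2.const_mul 2)]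
    have hB : 0 ≤ B1 * E0 := by positivity
    exact t5_norm_int_le (V := V) (u := u)
      (f := fun t => ((‖riemannZeta (crit t)‖ ^ 2 : ℝ) : ℂ) * ch r t -
        2 * ((∑' p : ℕ × ℕ, LibM3.W2 t p) * ch r t)) hB (fun t ht => by
        have e : ((‖riemannZeta (crit t)‖ ^ 2 : ℝ) : ℂ) * ch r t -
            2 * ((∑' p : ℕ × ℕ, LibM3.W2 t p) * ch r t) =
            (((‖riemannZeta (crit t)‖ ^ 2 : ℝ) : ℂ) - 2 * ∑' p : ℕ × ℕ, LibM3.W2 t p) *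
              ch r t := by ring
        rw [e, norm_mul, LibSM47.norm_ch, mul_one]
        exact LibM3.q4_err hε1 hC0 hzeta hTe ht0' hu1 hu2 ht)
  -- (3) the sum
  have hsum := t5_hasSum (V := V) hu hu2 r
  have hosc' : ∀ x : ℝ, 1 ≤ x → ∀ l : ℝ, l ≠ 0 → ‖t5J V u x l‖ ≤
      C1 * min 1 ((T / x) ^ 4) * ((V⁻¹) ^ 2 * (1 + (l ^ 2)⁻¹)) := hosc T hTT1 u hu1 hu2
  set fd : ℕ × ℕ → ℂ := fun p => if p.1 * n = p.2 * m then ((((p.1:ℝ) * p.2) ^ (-(1/2) : ℝ) : ℝ) : ℂ) *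
      t5J V u ((p.1:ℝ) * p.2) (Real.log (((p.1:ℝ) * n) / ((p.2:ℝ) * m))) else 0 with hfd
  set fo : ℕ × ℕ → ℂ := fun p => if p.1 * n = p.2 * m then 0 else ((((p.1:ℝ) * p.2) ^ (-(1/2) : ℝ) : ℝ) : ℂ) *
      t5J V u ((p.1:ℝ) * p.2) (Real.log (((p.1:ℝ) * n) / ((p.2:ℝ) * m))) with hfo
  have hsplit2 : ∀ p : ℕ × ℕ, ∫ t in LibM3.win u, LibM3.W2 t p * ch r t ∂(gam V u) = fd p + fo p := by
    rintro ⟨a, b⟩
    rw [hr, t5_term a b hm hn, hfd, hfo]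
    simp only
    split_ifs
    · rw [add_zero]
    · rw [zero_add]
  -- the diagonal
  obtain ⟨hS1, hS2⟩ := hdiag T hTT3 u hu1 hu2 ((m:ℝ) * n) hmn1 hmnT
  set S : ℝ := ∑' j : ℕ, (j : ℝ)⁻¹ * ∫ t in LibM3.win u,
        LibM3.PhR (Real.log (t / (2 * Real.pi)) - Real.log ((m:ℝ) * n) - 2 * Real.log j) ∂(gam V u) with hS
  have hDsum : HasSum fd (((((m:ℝ) * n) ^ (-(1/2) : ℝ) * S : ℝ)) : ℂ) :=
    t5_diag hm hn hcop hS1.hasSum
  -- the off-diagonal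
  obtain ⟨hl1, hl2⟩ := hlat T (by
    have h1 : (2:ℝ) ≤ Real.exp 2 := by
      have := Real.add_one_le_exp (2:ℝ)
      linarith
    exact h1.trans hTe) m n hm hn hcop
  have hfo_le : ∀ p : ℕ × ℕ, ‖fo p‖ ≤ C1 * (V⁻¹) ^ 2 * tw2 T m n p := by
    rintro ⟨a, b⟩
    exact t5_off_le hosc' a b hm hn
  have hoffs := hl1.hasSum.mul_left (C1 * (V⁻¹) ^ 2)
  have hfos : Summable fo := Summable.of_norm_bounded hoffs.summable hfo_le
  have hfo_norm : ‖∑' p, fo p‖ ≤ 6 * (C1 * C2) * E0 := by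
    refine (tsum_of_norm_bounded hoffs hfo_le).trans ?_
    have h1 := t5_size hTe hε hε' hδ1 (by positivity : (0:ℝ) ≤ (m:ℝ) * n) hmn
    calc C1 * (V⁻¹) ^ 2 * ∑' p, tw2 T m n p ≤ C1 * (V⁻¹) ^ 2 *
          (C2 * (T ^ (1 / 2 : ℝ) * (1 + Real.log T) ^ 2 + T * ((m : ℝ) * n) ^ (1 / 2 : ℝ) +
            T ^ (1 / 2 : ℝ) * ((m : ℝ) * n))) := by
          refine mul_le_mul_of_nonneg_left hl2 (by positivity)
      _ = (C1 * C2) * ((V⁻¹) ^ 2 * (T ^ (1 / 2 : ℝ) * (1 + Real.log T) ^ 2 + T * ((m : ℝ) * n) ^ (1 / 2 : ℝ) +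
            T ^ (1 / 2 : ℝ) * ((m : ℝ) * n))) := by ring
      _ ≤ (C1 * C2) * (6 * E0) := mul_le_mul_of_nonneg_left h1 (by positivity)
      _ = 6 * (C1 * C2) * E0 := by ring
  have htot : (∫ t in LibM3.win u, (∑' p : ℕ × ℕ, LibM3.W2 t p) * ch r t ∂(gam V u)) =
      (((((m:ℝ) * n) ^ (-(1/2) : ℝ) * S : ℝ)) : ℂ) + ∑' p, fo p := by
    have h1 := hDsum.add hfos.hasSum
    have h2 : (fun p : ℕ × ℕ => ∫ t in LibM3.win u, LibM3.W2 t p * ch r t ∂(gam V u)) =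
        fun p => fd p + fo p := funext hsplit2
    rw [h2] at hsum
    exact hsum.unique h1
  rw [htot] at hE
  have hD : ‖2 * ((((((m:ℝ) * n) ^ (-(1/2) : ℝ) * S : ℝ)) : ℂ)) -
      ((((m : ℝ) * n) ^ (-(1 / 2) : ℝ) * (Real.log T - Real.log ((m : ℝ) * n)) : ℝ) : ℂ)‖ ≤
      C3 * ((m : ℝ) * n) ^ (-(1 / 2) : ℝ) := by
    have e1 : 2 * ((((((m:ℝ) * n) ^ (-(1/2) : ℝ) * S : ℝ)) : ℂ)) -
      ((((m : ℝ) * n) ^ (-(1 / 2) : ℝ) * (Real.log T - Real.log ((m : ℝ) * n)) : ℝ) : ℂ) =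
      ((((m : ℝ) * n) ^ (-(1 / 2) : ℝ) * (2 * S - (Real.log T - Real.log ((m : ℝ) * n))) : ℝ) : ℂ) := by
      push_cast
      ring
    rw [e1, Complex.norm_real, Real.norm_eq_abs, abs_mul,
      abs_of_nonneg (by positivity : (0:ℝ) ≤ ((m : ℝ) * n) ^ (-(1 / 2) : ℝ)), mul_comm]
    exact mul_le_mul_of_nonneg_right hS2 (by positivity)
  -- conclusion
  have hI2 : I2 V u r = (∫ t in LibM3.win u, ((‖riemannZeta (crit t)‖ ^ 2 : ℝ) : ℂ) * ch r t ∂(gam V u)) +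
      ∫ t in (LibM3.win u)ᶜ, ((‖riemannZeta (crit t)‖ ^ 2 : ℝ) : ℂ) * ch r t ∂(gam V u) := hsplit.symm
  rw [hI2]
  set E := (∫ t in LibM3.win u, ((‖riemannZeta (crit t)‖ ^ 2 : ℝ) : ℂ) * ch r t ∂(gam V u))
  set Ec := ∫ t in (LibM3.win u)ᶜ, ((‖riemannZeta (crit t)‖ ^ 2 : ℝ) : ℂ) * ch r t ∂(gam V u)
  set D : ℂ := (((((m:ℝ) * n) ^ (-(1/2) : ℝ) * S : ℝ)) : ℂ)
  set F : ℂ := ((((m : ℝ) * n) ^ (-(1 / 2) : ℝ) * (Real.log T - Real.log ((m : ℝ) * n)) : ℝ) : ℂ)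
  have e5 : E + Ec - F = Ec + ((E - 2 * (D + ∑' p, fo p)) + (2 * (∑' p, fo p) + (2 * D - F))) := by ring
  rw [e5]
  have n1 := norm_add_le Ec ((E - 2 * (D + ∑' p, fo p)) + (2 * (∑' p, fo p) + (2 * D - F)))
  have n2 := norm_add_le (E - 2 * (D + ∑' p, fo p)) (2 * (∑' p, fo p) + (2 * D - F))
  have n3 := norm_add_le (2 * (∑' p, fo p)) (2 * D - F)
  have e7 : ‖2 * (∑' p, fo p)‖ = 2 * ‖∑' p, fo p‖ := by
    rw [norm_mul]
    norm_num
  rw [e7] at n3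
  have hmnp : 0 ≤ ((m : ℝ) * n) ^ (-(1 / 2) : ℝ) := by positivity
  have hC12 : 0 ≤ C1 * C2 := by positivity
  have f1 : (C4 + B1 + C3 + 12 * (C1 * C2)) * ((m : ℝ) * n) ^ (-(1 / 2) : ℝ) ≥
      C3 * ((m : ℝ) * n) ^ (-(1 / 2) : ℝ) :=
    mul_le_mul_of_nonneg_right (by linarith) hmnp
  have f2 : (C4 + B1 + C3 + 12 * (C1 * C2)) * E0 ≥ (C4 + B1 + 12 * (C1 * C2)) * E0 :=
    mul_le_mul_of_nonneg_right (by linarith) hE0pos
  have f3 : (C4 + B1 + 12 * (C1 * C2)) * E0 = C4 * E0 + B1 * E0 + 2 * (6 * (C1 * C2) * E0) := by ring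
  linarith

end Pool.Agent.LibFM89
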