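import Pool.Agent.LibFM89.C1a
import Pool.Agent.LibFM89.N1
import Pool.Agent.LibFM89.N2
import Pool.Agent.LibFM89.T5

/-! # FM89 C1b: the sixth power of P against |ζ|² (MEDIUM)

PLAN.  `‖PP‖^6 = ‖PP^3‖²`; expand (`PP_cube`): `C2 = ∑_{h,k} B(h) B(k) (hk)^(-1/2) I2 V u (k/h)` (real part; `conj`), where `k/h` is the reduced
fraction `a/b`, `g = (h,k)`, `a = k/g`, `b = h/g`, `ab = hk/g² ≤ T^(1-6ε)` for nonzero terms (`b3_props`).  `second_fraction` (T5) with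
`ε' = 6ε`, `δ ≤ ε/16`: `Re I2 ≤ (ab)^(-1/2)(log T - log ab) + C (ab)^(-1/2) + C T^(-1/2) log² T`, `(hk)^(-1/2)(ab)^(-1/2) = g/(hk)`,
`log T - log ab = log T · (1 - (log h + log k - 2 log g)/log T)`.  The last error: `C T^(-1/2) log² T (∑ B(h) h^(-1/2))² ≤
C T^(-1/2) log² T (C T^(1/12-ε/2))^6 ≤ 1` (`b3_sum`, `aP_sum`). -/

set_option autoImplicit false

namespace Pool.Agent.LibFM89

open MeasureTheory Set Filter Topology Complex ProbabilityTheory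
open scoped NNReal ComplexConjugate
open Pool.Agent.LibZM
open Pool.Agent.LibSM47 (gam ch idx)

private theorem c1b_frac {m n l : ℕ} (hm : 1 ≤ m) (hn : 1 ≤ n) (hl : 1 ≤ l) (hc : Nat.Coprime m n) :
    ∃ a b : ℕ, 1 ≤ a ∧ 1 ≤ b ∧ Nat.Coprime a b ∧ (m : ℝ) / n / l = (a : ℝ) / b ∧
      (a : ℝ) * b ≤ (m : ℝ) * n * l ∧
      ((a : ℝ) * b) ^ (-(1 / 2) : ℝ) =
        (Nat.gcd l m : ℝ) * ((m : ℝ) * n) ^ (-(1 / 2) : ℝ) * (l : ℝ) ^ (-(1 / 2) : ℝ) ∧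
      Real.log ((a : ℝ) * b) =
        Real.log m + Real.log n + Real.log l - 2 * Real.log (Nat.gcd l m) := by
  have hg : 0 < Nat.gcd l m := Nat.gcd_pos_of_pos_left _ (by omega)
  have hcop := Nat.coprime_div_gcd_div_gcd hg
  obtain ⟨l', hl'⟩ := Nat.gcd_dvd_left l m
  obtain ⟨a, ha⟩ := Nat.gcd_dvd_right l m
  have e1 : l / Nat.gcd l m = l' := Nat.div_eq_of_eq_mul_right hg hl'
  have e2 : m / Nat.gcd l m = a := Nat.div_eq_of_eq_mul_right hg ha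
  rw [e1, e2] at hcop
  have ha1 : 1 ≤ a := by
    rcases Nat.eq_zero_or_pos a with h | h
    · rw [h, mul_zero] at ha
      omega
    · exact h
  have hl1 : 1 ≤ l' := by
    rcases Nat.eq_zero_or_pos l' with h | h
    · rw [h, mul_zero] at hl'
      omega
    · exact h
  have hgR : (1 : ℝ) ≤ (Nat.gcd l m : ℝ) := by exact_mod_cast hg
  have hmR : (m : ℝ) = (Nat.gcd l m : ℝ) * a := by exact_mod_cast ha
  have hlR : (l : ℝ) = (Nat.gcd l m : ℝ) * l' := by exact_mod_cast hl'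
  have haR : (1 : ℝ) ≤ a := by exact_mod_cast ha1
  have hlR1 : (1 : ℝ) ≤ l' := by exact_mod_cast hl1
  have hnR : (1 : ℝ) ≤ n := by exact_mod_cast hn
  generalize (Nat.gcd l m : ℝ) = G at hgR hmR hlR
  have hG0 : 0 < G := by linarith
  have ha0 : (0 : ℝ) < a := by linarith
  have hn0 : (0 : ℝ) < n := by linarith
  have hl0 : (0 : ℝ) < l' := by linarith
  refine ⟨a, n * l', ha1, Nat.mul_pos (by omega) hl1, ?_, ?_, ?_, ?_, ?_⟩
  · exact Nat.Coprime.mul_right (Nat.Coprime.coprime_dvd_left ⟨_, by rw [mul_comm]; exact ha⟩ hc) hcop.symm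
  · rw [hmR, hlR]
    push_cast
    field_simp
  · rw [hmR, hlR]
    push_cast
    have h1 : (a : ℝ) * (n * l') * 1 ≤ (a : ℝ) * (n * l') * (G * G) :=
      mul_le_mul_of_nonneg_left (by nlinarith) (by positivity)
    calc (a : ℝ) * (n * l') = (a : ℝ) * (n * l') * 1 := (mul_one _).symm
      _ ≤ (a : ℝ) * (n * l') * (G * G) := h1
      _ = G * a * n * (G * l') := by ring
  · have h1 : ((m : ℝ) * n) ^ (-(1 / 2) : ℝ) * (l : ℝ) ^ (-(1 / 2) : ℝ) =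
        G⁻¹ * ((a : ℝ) * (n * l')) ^ (-(1 / 2) : ℝ) := by
      rw [hmR, hlR, ← Real.mul_rpow (by positivity) (by positivity),
        show G * (a : ℝ) * n * (G * l') = G ^ 2 * (a * (n * l')) by ring,
        Real.mul_rpow (by positivity) (by positivity), ← Real.rpow_natCast G 2,
        ← Real.rpow_mul hG0.le, show ((2 : ℕ) : ℝ) * (-(1 / 2)) = -1 by norm_num,
        Real.rpow_neg_one]
    push_cast
    rw [mul_assoc, h1, ← mul_assoc G, mul_inv_cancel₀ hG0.ne', one_mul]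
  · rw [hmR, hlR, Real.log_mul hG0.ne' ha0.ne', Real.log_mul hG0.ne' hl0.ne']
    push_cast
    rw [Real.log_mul ha0.ne' (by positivity), Real.log_mul hn0.ne' hl0.ne']
    ring


private theorem c1b_ch {h k : ℕ} (hh : 1 ≤ h) (hk : 1 ≤ k) (t : ℝ) :
    ch h (-t) * conj (ch k (-t)) = ch ((k : ℝ) / h) t := by
  have h1 : (0 : ℝ) < h := by exact_mod_cast hh
  have k1 : (0 : ℝ) < k := by exact_mod_cast hk
  rw [LibSM47.conj_ch]
  unfold ch
  rw [← Complex.exp_add, Real.log_div k1.ne' h1.ne']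
  congr 1
  push_cast
  ring

private theorem c1b_int (V u r : ℝ) :
    Integrable (fun t => ((‖riemannZeta (crit t)‖ ^ 2 : ℝ) : ℂ) * ch r t) (gam V u) := by
  refine (LibSM47.int_pow V u 2).mono' ?_ (Eventually.of_forall fun t => ?_)
  · refine Continuous.aestronglyMeasurable ?_
    exact (Complex.continuous_ofReal.comp (continuous_zeta_crit.norm.pow 2)).mul (LibSM47.cont_ch r)
  · rw [norm_mul, LibSM47.norm_ch, mul_one, Complex.norm_real, Real.norm_of_nonneg (by positivity)]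

/-- the expansion -/
private theorem c1b_expand {ε : ℝ} (hε : 0 < ε) {f : ℝ → ℝ} (hf : AdmF ε f) {T : ℝ} (hT : 2 ≤ T) (V u : ℝ) :
    ((C2 f T V u : ℝ) : ℂ) = ∑ h ∈ Finset.Icc 1 ⌊T⌋₊, ∑ k ∈ Finset.Icc 1 ⌊T⌋₊,
      (((b3 (fun _ => f) (1 / Real.log T) h * (h : ℝ) ^ (-(1 / 2) : ℝ)) *
        (b3 (fun _ => f) (1 / Real.log T) k * (k : ℝ) ^ (-(1 / 2) : ℝ)) : ℝ) : ℂ) * I2 V u ((k : ℝ) / h) := by
  have hpt : ∀ t : ℝ, ((‖riemannZeta (crit t)‖ ^ 2 * ‖PP f T t‖ ^ 6 : ℝ) : ℂ) =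
      ∑ h ∈ Finset.Icc 1 ⌊T⌋₊, ∑ k ∈ Finset.Icc 1 ⌊T⌋₊,
      (((b3 (fun _ => f) (1 / Real.log T) h * (h : ℝ) ^ (-(1 / 2) : ℝ)) *
        (b3 (fun _ => f) (1 / Real.log T) k * (k : ℝ) ^ (-(1 / 2) : ℝ)) : ℝ) : ℂ) *
          (((‖riemannZeta (crit t)‖ ^ 2 : ℝ) : ℂ) * ch ((k : ℝ) / h) t) := by
    intro t
    have h1 : ((‖PP f T t‖ ^ 6 : ℝ) : ℂ) = PP f T t ^ 3 * conj (PP f T t ^ 3) := by
      rw [Complex.mul_conj, Complex.normSq_eq_norm_sq, norm_pow, ← pow_mul]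
    rw [Complex.ofReal_mul, h1, PP_cube hε hf hT t, map_sum, Finset.sum_mul_sum, Finset.mul_sum]
    refine Finset.sum_congr rfl fun h hh => ?_
    rw [Finset.mul_sum]
    refine Finset.sum_congr rfl fun k hk => ?_
    rw [← c1b_ch (Finset.mem_Icc.1 hh).1 (Finset.mem_Icc.1 hk).1 t, map_mul, Complex.conj_ofReal]
    push_cast
    ring
  unfold C2
  rw [← integral_complex_ofReal]
  simp_rw [hpt]
  rw [integral_finsetSum _ fun q _ => integrable_finsetSum _ fun l _ =>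
    (c1b_int V u _).const_mul _]
  refine Finset.sum_congr rfl fun q _ => ?_
  rw [integral_finsetSum _ fun l _ => (c1b_int V u _).const_mul _]
  refine Finset.sum_congr rfl fun l _ => ?_
  rw [integral_const_mul]
  rfl

/-- one term -/
private theorem c1b_term {ε : ℝ} (hε : 0 < ε) {f : ℝ → ℝ} (hf : AdmF ε f) {T : ℝ} (hT : 2 ≤ T) {V u C : ℝ} (hC : 0 < C)
    (H : ∀ m n : ℕ, 1 ≤ m → 1 ≤ n → Nat.Coprime m n → (m : ℝ) * n ≤ T ^ (1 - 6 * ε) →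
      ‖I2 V u ((m : ℝ) / n) -
          ((((m : ℝ) * n) ^ (-(1 / 2) : ℝ) * (Real.log T - Real.log ((m : ℝ) * n)) : ℝ) : ℂ)‖ ≤
        C * ((m : ℝ) * n) ^ (-(1 / 2) : ℝ) + C * (T ^ (-(1 / 2) : ℝ) * Real.log T ^ 2))
    {h k : ℕ} (hh : 1 ≤ h) (hk : 1 ≤ k) :
    ((((b3 (fun _ => f) (1 / Real.log T) h * (h : ℝ) ^ (-(1 / 2) : ℝ)) *
        (b3 (fun _ => f) (1 / Real.log T) k * (k : ℝ) ^ (-(1 / 2) : ℝ)) : ℝ) : ℂ) * I2 V u ((k : ℝ) / h)).re ≤
      Real.log T * (b3 (fun _ => f) (1 / Real.log T) h * b3 (fun _ => f) (1 / Real.log T) k *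
          ((Nat.gcd h k : ℝ) / ((h : ℝ) * k)) *
          (1 - 1 / Real.log T * (Real.log h + Real.log k - 2 * Real.log (Nat.gcd h k)))) +
        C * (b3 (fun _ => f) (1 / Real.log T) h * b3 (fun _ => f) (1 / Real.log T) k *
          ((Nat.gcd h k : ℝ) / ((h : ℝ) * k))) +
        C * (T ^ (-(1 / 2) : ℝ) * Real.log T ^ 2) *
          ((b3 (fun _ => f) (1 / Real.log T) h * (h : ℝ) ^ (-(1 / 2) : ℝ)) *
            (b3 (fun _ => f) (1 / Real.log T) k * (k : ℝ) ^ (-(1 / 2) : ℝ))) := by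
  obtain ⟨pb, sb⟩ := b3_props hε hf hT h
  obtain ⟨pb', sb'⟩ := b3_props hε hf hT k
  generalize b3 (fun _ => f) (1 / Real.log T) h = x at pb sb
  generalize b3 (fun _ => f) (1 / Real.log T) k = y at pb' sb'
  have hL : 0 < Real.log T := Real.log_pos (by linarith)
  have hT0 : 0 < T := by linarith
  rcases eq_or_ne x 0 with h0 | h0
  · rw [h0]
    simp
  rcases eq_or_ne y 0 with h1 | h1
  · rw [h1]
    simp
  have hh0 : (0 : ℝ) < h := by exact_mod_cast hh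
  have hk0 : (0 : ℝ) < k := by exact_mod_cast hk
  obtain ⟨a, b, ha, hb, hab, e1, e2, e3, e4⟩ := c1b_frac hk le_rfl hh (Nat.coprime_one_right k)
  have hsz : (k : ℝ) * (1 : ℕ) * h ≤ T ^ (1 - 6 * ε) := by
    have s1 := (sb h0).2
    have s2 := (sb' h1).2
    calc (k : ℝ) * (1 : ℕ) * h = k * h := by push_cast; ring
      _ ≤ T ^ (1 / 2 - 3 * ε : ℝ) * T ^ (1 / 2 - 3 * ε : ℝ) := mul_le_mul s2 s1 hh0.le (by positivity)
      _ = T ^ (1 - 6 * ε) := by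
        rw [← Real.rpow_add hT0]
        congr 1
        ring
  have hH := H a b ha hb hab (e2.trans hsz)
  rw [← e1, e3, e4] at hH
  rw [Nat.cast_one, div_one, mul_one, Real.log_one, add_zero] at hH
  have hhl : (h : ℝ) ^ (-(1 / 2) : ℝ) * (h : ℝ) ^ (-(1 / 2) : ℝ) = 1 / h := by
    rw [← Real.rpow_add hh0, show (-(1 / 2) + -(1 / 2) : ℝ) = -1 by norm_num, Real.rpow_neg_one,
      one_div]
  have hkl : (k : ℝ) ^ (-(1 / 2) : ℝ) * (k : ℝ) ^ (-(1 / 2) : ℝ) = 1 / k := by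
    rw [← Real.rpow_add hk0, show (-(1 / 2) + -(1 / 2) : ℝ) = -1 by norm_num, Real.rpow_neg_one,
      one_div]
  have hhr : 0 ≤ (h : ℝ) ^ (-(1 / 2) : ℝ) := by positivity
  have hkr : 0 ≤ (k : ℝ) ^ (-(1 / 2) : ℝ) := by positivity
  generalize (h : ℝ) ^ (-(1 / 2) : ℝ) = rh at hH hhl hhr
  generalize (k : ℝ) ^ (-(1 / 2) : ℝ) = rk at hH hkl hkr
  generalize hW : I2 V u ((k : ℝ) / h) = W at hH
  generalize (Nat.gcd h k : ℝ) = g at hH
  have hre : W.re - g * rk * rh * (Real.log T - (Real.log k + Real.log h - 2 * Real.log g)) ≤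
      C * (g * rk * rh) + C * (T ^ (-(1 / 2) : ℝ) * Real.log T ^ 2) := by
    refine le_trans ?_ hH
    refine le_trans ?_ (Complex.re_le_norm _)
    rw [Complex.sub_re, Complex.ofReal_re]
  rw [Complex.re_ofReal_mul]
  have hc : 0 ≤ x * rh * (y * rk) := by positivity
  have hmain : x * rh * (y * rk) * W.re ≤ x * rh * (y * rk) *
      (g * rk * rh * (Real.log T - (Real.log k + Real.log h - 2 * Real.log g)) + (C * (g * rk * rh) +
        C * (T ^ (-(1 / 2) : ℝ) * Real.log T ^ 2))) := mul_le_mul_of_nonneg_left (by linarith) hc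
  refine hmain.trans (le_of_eq ?_)
  have hLL : Real.log T * (1 - 1 / Real.log T * (Real.log h + Real.log k - 2 * Real.log g)) =
      Real.log T - (Real.log k + Real.log h - 2 * Real.log g) := by
    field_simp
    ring
  have hgg : g / ((h : ℝ) * k) = g * (rh * rh) * (rk * rk) := by
    rw [hhl, hkl]
    field_simp
  rw [hgg]
  calc x * rh * (y * rk) *
      (g * rk * rh * (Real.log T - (Real.log k + Real.log h - 2 * Real.log g)) + (C * (g * rk * rh) +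
        C * (T ^ (-(1 / 2) : ℝ) * Real.log T ^ 2)))
      = x * y * (g * (rh * rh) * (rk * rk)) * (Real.log T - (Real.log k + Real.log h - 2 * Real.log g)) +
        C * (x * y * (g * (rh * rh) * (rk * rk))) +
        C * (T ^ (-(1 / 2) : ℝ) * Real.log T ^ 2) * (x * rh * (y * rk)) := by ring
    _ = x * y * (g * (rh * rh) * (rk * rk)) * (Real.log T * (1 - 1 / Real.log T * (Real.log h + Real.log k - 2 * Real.log g))) +
        C * (x * y * (g * (rh * rh) * (rk * rk))) +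
        C * (T ^ (-(1 / 2) : ℝ) * Real.log T ^ 2) * (x * rh * (y * rk)) := by rw [hLL]
    _ = _ := by ring

private theorem c1b_small {ε : ℝ} (hε : 0 < ε) {C : ℝ} (hC : 0 < C) :
    ∃ T₀ : ℝ, 1 ≤ T₀ ∧ ∀ T : ℝ, T₀ ≤ T →
      C * (T ^ (-(1 / 2) : ℝ) * Real.log T ^ 2) * (T ^ (1 / 12 - ε / 2 : ℝ)) ^ 6 ≤ 1 := by
  refine ⟨max 1 ((C / ε ^ 2) ^ (1 / ε)), le_max_left _ _, fun T hT => ?_⟩
  have hT1 : 1 ≤ T := (le_max_left _ _).trans hT
  have hT0 : 0 < T := by linarith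
  have hT2 : (C / ε ^ 2) ^ (1 / ε) ≤ T := (le_max_right _ _).trans hT
  have h1 : C / ε ^ 2 ≤ T ^ ε := by
    have := Real.rpow_le_rpow (by positivity) hT2 hε.le
    rw [← Real.rpow_mul (by positivity), show 1 / ε * ε = 1 by field_simp, Real.rpow_one] at this
    exact this
  have hlog : Real.log T ≤ T ^ ε / ε := Real.log_le_rpow_div hT0.le hε
  have hlog0 : 0 ≤ Real.log T := Real.log_nonneg hT1
  have hlog2 : Real.log T ^ 2 ≤ T ^ (2 * ε) / ε ^ 2 := by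
    calc Real.log T ^ 2 ≤ (T ^ ε / ε) ^ 2 := pow_le_pow_left₀ hlog0 hlog 2
      _ = T ^ ε * T ^ ε / ε ^ 2 := by ring
      _ = T ^ (2 * ε) / ε ^ 2 := by
          rw [← Real.rpow_add hT0]
          congr 2
          ring
  have hp : T ^ (-(1 / 2) : ℝ) * T ^ (2 * ε) * (T ^ (1 / 12 - ε / 2 : ℝ)) ^ 6 = T ^ (-ε) := by
    rw [← Real.rpow_natCast (T ^ (1 / 12 - ε / 2 : ℝ)) 6, ← Real.rpow_mul hT0.le, ← Real.rpow_add hT0, ← Real.rpow_add hT0]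
    congr 1
    push_cast
    ring
  calc C * (T ^ (-(1 / 2) : ℝ) * Real.log T ^ 2) * (T ^ (1 / 12 - ε / 2 : ℝ)) ^ 6
      ≤ C * (T ^ (-(1 / 2) : ℝ) * (T ^ (2 * ε) / ε ^ 2)) * (T ^ (1 / 12 - ε / 2 : ℝ)) ^ 6 := by gcongr
    _ = C / ε ^ 2 * (T ^ (-(1 / 2) : ℝ) * T ^ (2 * ε) * (T ^ (1 / 12 - ε / 2 : ℝ)) ^ 6) := by ring
    _ = C / ε ^ 2 * T ^ (-ε) := by rw [hp]
    _ ≤ T ^ ε * T ^ (-ε) := mul_le_mul_of_nonneg_right h1 (by positivity)
    _ = 1 := by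
        rw [← Real.rpow_add hT0]
        simp

theorem C2_upper {ε ε₁ δ : ℝ} (hε : 0 < ε) (hε' : ε ≤ 1 / 100) (hε1 : 0 < ε₁) (hδ : 0 < δ) (hδ1 : δ ≤ ε / 16)
    {f : ℝ → ℝ} (hf : AdmF ε f) :
    ∃ C T₀ : ℝ, 0 < C ∧ ∀ T : ℝ, T₀ ≤ T → ∀ u : ℝ, ε₁ * T ≤ u → u ≤ T →
      C2 f T (T ^ (1 - δ)) u ≤
        Real.log T * gsH (fun h => b3 (fun _ => f) (1 / Real.log T) h) (fun h => b3 (fun _ => f) (1 / Real.log T) h) ⌊T⌋₊ (1 / Real.log T) +
        C * gsP (fun h => b3 (fun _ => f) (1 / Real.log T) h) (fun h => b3 (fun _ => f) (1 / Real.log T) h) ⌊T⌋₊ + 1 := by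
  obtain ⟨C1, T1, hC1, H1⟩ := second_fraction (6 * ε) ε₁ δ (by linarith) (by linarith) hε1 hδ
    (by linarith)
  obtain ⟨C3, hC3, H3⟩ := aP_sum hε hε' hf
  obtain ⟨T4, hT4, H4⟩ := c1b_small hε (C := C1 * C3 ^ 6) (by positivity)
  refine ⟨C1, max (max T1 T4) 2, hC1, fun T hT u hu1 hu2 => ?_⟩
  have hTT1 : T1 ≤ T := ((le_max_left _ _).trans (le_max_left _ _)).trans hT
  have hTT4 : T4 ≤ T := ((le_max_right _ _).trans (le_max_left _ _)).trans hT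
  have hT2 : 2 ≤ T := (le_max_right _ _).trans hT
  have hT0 : 0 < T := by linarith
  have hre : C2 f T (T ^ (1 - δ)) u = (((C2 f T (T ^ (1 - δ)) u : ℝ) : ℂ)).re := (Complex.ofReal_re _).symm
  rw [hre, c1b_expand hε hf hT2, Complex.re_sum]
  have hH := H1 T hTT1 u hu1 hu2
  have hb : ∀ h ∈ Finset.Icc 1 ⌊T⌋₊, (∑ k ∈ Finset.Icc 1 ⌊T⌋₊,
      (((b3 (fun _ => f) (1 / Real.log T) h * (h : ℝ) ^ (-(1 / 2) : ℝ)) *
        (b3 (fun _ => f) (1 / Real.log T) k * (k : ℝ) ^ (-(1 / 2) : ℝ)) : ℝ) : ℂ) *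
          I2 (T ^ (1 - δ)) u ((k : ℝ) / h)).re ≤
      ∑ k ∈ Finset.Icc 1 ⌊T⌋₊, (Real.log T * (b3 (fun _ => f) (1 / Real.log T) h * b3 (fun _ => f) (1 / Real.log T) k *
          ((Nat.gcd h k : ℝ) / ((h : ℝ) * k)) *
          (1 - 1 / Real.log T * (Real.log h + Real.log k - 2 * Real.log (Nat.gcd h k)))) +
        C1 * (b3 (fun _ => f) (1 / Real.log T) h * b3 (fun _ => f) (1 / Real.log T) k *
          ((Nat.gcd h k : ℝ) / ((h : ℝ) * k))) +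
        C1 * (T ^ (-(1 / 2) : ℝ) * Real.log T ^ 2) *
          ((b3 (fun _ => f) (1 / Real.log T) h * (h : ℝ) ^ (-(1 / 2) : ℝ)) *
            (b3 (fun _ => f) (1 / Real.log T) k * (k : ℝ) ^ (-(1 / 2) : ℝ)))) := by
    intro h hh
    rw [Complex.re_sum]
    refine Finset.sum_le_sum fun k hk => ?_
    exact c1b_term hε hf hT2 hC1 hH (Finset.mem_Icc.1 hh).1 (Finset.mem_Icc.1 hk).1
  refine (Finset.sum_le_sum hb).trans ?_
  simp only [Finset.sum_add_distrib, ← Finset.mul_sum]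
  have hlast : C1 * (T ^ (-(1 / 2) : ℝ) * Real.log T ^ 2) *
      ∑ h ∈ Finset.Icc 1 ⌊T⌋₊, (b3 (fun _ => f) (1 / Real.log T) h * (h : ℝ) ^ (-(1 / 2) : ℝ)) *
        ∑ k ∈ Finset.Icc 1 ⌊T⌋₊, (b3 (fun _ => f) (1 / Real.log T) k * (k : ℝ) ^ (-(1 / 2) : ℝ)) ≤ 1 := by
    rw [← Finset.sum_mul, b3_sum hε hf hT2]
    have hB := H3 T hT2
    have hB0 : 0 ≤ ∑ l ∈ Finset.Icc 1 ⌊T⌋₊, aP f T l * (l : ℝ) ^ (-(1 / 2) : ℝ) :=
      Finset.sum_nonneg fun l _ => mul_nonneg (aP_nonneg hf T l).1 (by positivity)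
    have hlogT : 0 ≤ Real.log T := Real.log_nonneg (by linarith)
    generalize ∑ l ∈ Finset.Icc 1 ⌊T⌋₊, aP f T l * (l : ℝ) ^ (-(1 / 2) : ℝ) = S at hB hB0
    calc C1 * (T ^ (-(1 / 2) : ℝ) * Real.log T ^ 2) * (S ^ 3 * S ^ 3)
        = C1 * (T ^ (-(1 / 2) : ℝ) * Real.log T ^ 2) * S ^ 6 := by ring
      _ ≤ C1 * (T ^ (-(1 / 2) : ℝ) * Real.log T ^ 2) * (C3 * T ^ (1 / 12 - ε / 2 : ℝ)) ^ 6 := by
        apply mul_le_mul_of_nonneg_left (pow_le_pow_left₀ hB0 hB 6) (by positivity)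
      _ = C1 * C3 ^ 6 * (T ^ (-(1 / 2) : ℝ) * Real.log T ^ 2) * (T ^ (1 / 12 - ε / 2 : ℝ)) ^ 6 := by ring
      _ ≤ 1 := H4 T hTT4
  unfold gsH gsP
  linarith [hlast]

end Pool.Agent.LibFM89
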