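import Pool.Agent.LibFM89.CD
import Pool.Agent.LibM3.L2

/-! # FM89 C2a: unfolding the divisor sums (SHORT/MEDIUM)

PLAN.  Copy of LibM3/L2.lean (`SB_eq`; lemmas `l2_sum`, `l2_inner`, `l2_div_sum`, `l2_MN`) with general coefficients `F, F'` in the place of
`tau (1/2) h * f (δ log h)`; the error is `∑ |F(h)| |F'(k)| (h,k)/(hk) · 1` by `l2_sum` (`c = δ log [h,k] ≤ δ log h + δ log k ≤ 2`). -/

set_option autoImplicit false

namespace Pool.Agent.LibFM89

open MeasureTheory Set Filter Topology Complex ProbabilityTheory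
open scoped NNReal ComplexConjugate
open Pool.Agent.LibZM
open Pool.Agent.LibSM47 (gam ch idx)

private theorem c2a_div_sum {M : ℕ} (F : ℕ → ℝ) (hF : ∀ h, M < h → F h = 0) {q : ℕ} (hq : q ≠ 0) :
    ∑ h ∈ q.divisors, F h = ∑ h ∈ Finset.Icc 1 M, if h ∣ q then F h else 0 := by
  rw [← Finset.sum_filter]
  symm
  apply Finset.sum_subset
  · intro h hh
    rw [Finset.mem_filter] at hh
    exact Nat.mem_divisors.2 ⟨hh.2, hq⟩
  · intro h hh hh'
    rw [Finset.mem_filter, Finset.mem_Icc] at hh'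
    have h1 := (Nat.mem_divisors.1 hh).1
    have h2 : 1 ≤ h := Nat.pos_of_mem_divisors hh
    have h3 : M < h := by
      by_contra hc
      exact hh' ⟨⟨h2, not_lt.1 hc⟩, h1⟩
    exact hF _ h3

theorem SBg_eq {b δ : ℝ} (hb : 3 ≤ b) (hδ : 0 < δ) (hδ1 : δ ≤ 1) (F F' : ℕ → ℝ)
    (hF : ∀ h, LibM3.MN δ < h → F h = 0) (hF' : ∀ h, LibM3.MN δ < h → F' h = 0) :
    |SBg F F' b δ - (1 / δ) * gsB F F' (LibM3.MN δ) b δ| ≤ gsP (fun h => |F h|) (fun h => |F' h|) (LibM3.MN δ) := by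
  set M : ℕ := LibM3.MN δ with hM
  set Q : ℕ := ⌊Real.exp (b / δ)⌋₊ with hQ
  have hMle : (M : ℝ) ≤ Real.exp (1 / δ) := Nat.floor_le (Real.exp_pos _).le
  -- step A
  have hA : SBg F F' b δ = ∑ q ∈ Finset.Icc 1 Q,
      (∑ h ∈ Finset.Icc 1 M, if h ∣ q then F h else 0) *
      (∑ k ∈ Finset.Icc 1 M, if k ∣ q then F' k else 0) *
      (LibM3.omb b (δ * Real.log q) * (q:ℝ)⁻¹) := by
    unfold SBg
    rw [tsum_eq_sum (s := Finset.Icc 1 Q)]
    · apply Finset.sum_congr rfl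
      intro q hq
      rw [Finset.mem_Icc] at hq
      rw [c2a_div_sum F hF (by omega), c2a_div_sum F' hF' (by omega)]
      ring
    · intro q hq
      rcases Nat.eq_zero_or_pos q with rfl | hq0
      · simp
      · have h1 : Q < q := by
          by_contra h
          exact hq (Finset.mem_Icc.2 ⟨hq0, not_lt.1 h⟩)
        have h2 : Real.exp (b / δ) < q := (Nat.floor_lt (Real.exp_pos _).le).1 h1
        have h3 : b / δ ≤ Real.log q := by
          rw [← Real.log_exp (b / δ)]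
          exact Real.log_le_log (Real.exp_pos _) h2.le
        have h4 : b ≤ δ * Real.log q := by
          calc b = δ * (b / δ) := by field_simp
            _ ≤ _ := by gcongr
        have h5 : LibM3.omb b (δ * Real.log q) = 0 := by
          unfold LibM3.omb
          apply max_eq_left
          exact (min_le_right _ _).trans (by linarith)
        rw [h5]; simp
  -- step C
  have hC' : SBg F F' b δ = ∑ h ∈ Finset.Icc 1 M, ∑ k ∈ Finset.Icc 1 M,
      F h * F' k *
        ∑ q ∈ Finset.Icc 1 Q, (if Nat.lcm h k ∣ q then LibM3.omb b (δ * Real.log q) * (q:ℝ)⁻¹ else 0) := by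
    rw [hA]
    have e1 : ∀ q ∈ Finset.Icc 1 Q,
      (∑ h ∈ Finset.Icc 1 M, if h ∣ q then F h else 0) *
      (∑ k ∈ Finset.Icc 1 M, if k ∣ q then F' k else 0) *
      (LibM3.omb b (δ * Real.log q) * (q:ℝ)⁻¹) =
      ∑ h ∈ Finset.Icc 1 M, ∑ k ∈ Finset.Icc 1 M,
        F h * F' k *
        (if Nat.lcm h k ∣ q then LibM3.omb b (δ * Real.log q) * (q:ℝ)⁻¹ else 0) := by
      intro q _
      rw [Finset.sum_mul_sum, Finset.sum_mul]
      apply Finset.sum_congr rfl
      intro h _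
      rw [Finset.sum_mul]
      apply Finset.sum_congr rfl
      intro k _
      by_cases h1 : h ∣ q
      · by_cases h2 : k ∣ q
        · rw [if_pos h1, if_pos h2, if_pos (Nat.lcm_dvd h1 h2)]
        · rw [if_neg h2, if_neg (fun h3 => h2 ((Nat.dvd_lcm_right h k).trans h3))]
          simp
      · rw [if_neg h1, if_neg (fun h3 => h1 ((Nat.dvd_lcm_left h k).trans h3))]
        simp
    rw [Finset.sum_congr rfl e1, Finset.sum_comm]
    apply Finset.sum_congr rfl
    intro h _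
    rw [Finset.sum_comm]
    apply Finset.sum_congr rfl
    intro k _
    rw [Finset.mul_sum]
  -- the estimate
  have hterm : ∀ h ∈ Finset.Icc 1 M, ∀ k ∈ Finset.Icc 1 M,
      |F h * F' k *
        ∑ q ∈ Finset.Icc 1 Q, (if Nat.lcm h k ∣ q then LibM3.omb b (δ * Real.log q) * (q:ℝ)⁻¹ else 0) -
      (1 / δ) * (F h * F' k * ((Nat.gcd h k : ℝ) / ((h : ℝ) * k)) *
        (b - 1 / 2 - δ * (Real.log h + Real.log k - Real.log (Nat.gcd h k))))| ≤
      |F h| * |F' k| * ((Nat.gcd h k : ℝ) / ((h : ℝ) * k)) := by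
    intro h hh k hk
    rw [Finset.mem_Icc] at hh hk
    have hh0 : (0 : ℝ) < h := by exact_mod_cast hh.1
    have hk0 : (0 : ℝ) < k := by exact_mod_cast hk.1
    have hg : 0 < Nat.gcd h k := Nat.gcd_pos_of_pos_left _ hh.1
    have hg0 : (0 : ℝ) < Nat.gcd h k := by exact_mod_cast hg
    have hl : 0 < Nat.lcm h k := Nat.lcm_pos hh.1 hk.1
    have hl0 : (0 : ℝ) < Nat.lcm h k := by exact_mod_cast hl
    have hgl : (Nat.gcd h k : ℝ) * (Nat.lcm h k : ℝ) = h * k := by
      exact_mod_cast Nat.gcd_mul_lcm h k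
    have hlog : Real.log (Nat.lcm h k) = Real.log h + Real.log k - Real.log (Nat.gcd h k) := by
      have := congrArg Real.log hgl
      rw [Real.log_mul hg0.ne' hl0.ne', Real.log_mul hh0.ne' hk0.ne'] at this
      linarith
    have hlogM : ∀ m : ℕ, 1 ≤ m → m ≤ M → 0 ≤ δ * Real.log m ∧ δ * Real.log m ≤ 1 := by
      intro m hm1 hm2
      have h1 : (1 : ℝ) ≤ m := by exact_mod_cast hm1
      refine ⟨mul_nonneg hδ.le (Real.log_nonneg h1), ?_⟩
      have h2 : Real.log m ≤ 1 / δ := by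
        rw [← Real.log_exp (1 / δ)]
        apply Real.log_le_log (by linarith)
        exact le_trans (by exact_mod_cast hm2) hMle
      calc δ * Real.log m ≤ δ * (1 / δ) := by gcongr
        _ = 1 := by field_simp
    have hc2 : δ * Real.log (Nat.lcm h k) ≤ 2 := by
      rw [hlog]
      have h1 := (hlogM h hh.1 hh.2).2
      have h2 := (hlogM k hk.1 hk.2).2
      have h3 : 0 ≤ Real.log (Nat.gcd h k) := Real.log_nonneg (by exact_mod_cast hg)
      nlinarith
    rw [LibM3.l2_inner hδ Q (Nat.lcm h k) hl]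
    have hJ : b ≤ δ * Real.log (((Q / Nat.lcm h k : ℕ) : ℝ) + 1) + δ * Real.log (Nat.lcm h k) := by
      have h1 : Real.exp (b / δ) < (Q:ℝ) + 1 := Nat.lt_floor_add_one _
      have h2 : (Q:ℝ) + 1 ≤ (((Q / Nat.lcm h k : ℕ) : ℝ) + 1) * (Nat.lcm h k : ℝ) := by
        have h3 : Q + 1 ≤ (Q / Nat.lcm h k + 1) * Nat.lcm h k := by
          have := Nat.lt_div_mul_add (a := Q) hl
          rw [add_mul, one_mul]; omega
        exact_mod_cast h3
      have h4 : b / δ ≤ Real.log ((((Q / Nat.lcm h k : ℕ) : ℝ) + 1) * (Nat.lcm h k : ℝ)) := by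
        rw [← Real.log_exp (b / δ)]
        exact Real.log_le_log (Real.exp_pos _) (h1.le.trans h2)
      rw [Real.log_mul (by positivity) hl0.ne'] at h4
      calc b = δ * (b / δ) := by field_simp
        _ ≤ δ * (Real.log (((Q / Nat.lcm h k : ℕ) : ℝ) + 1) + Real.log (Nat.lcm h k)) := by gcongr
        _ = _ := by ring
    have hs := LibM3.l2_sum hδ hb hc2 (Q / Nat.lcm h k) hJ
    have hgk' : (Nat.gcd h k : ℝ) / ((h : ℝ) * k) = (Nat.lcm h k : ℝ)⁻¹ := by
      rw [← hgl]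
      field_simp
    rw [← hlog, hgk']
    set S : ℝ := ∑ j ∈ Finset.Icc 1 (Q / Nat.lcm h k),
      LibM3.omb b (δ * Real.log j + δ * Real.log (Nat.lcm h k)) * (j:ℝ)⁻¹ with hS
    have e2 : F h * F' k * ((Nat.lcm h k : ℝ)⁻¹ * S) -
      (1 / δ) * (F h * F' k * (Nat.lcm h k : ℝ)⁻¹ * (b - 1 / 2 - δ * Real.log (Nat.lcm h k))) =
      F h * F' k * (Nat.lcm h k : ℝ)⁻¹ *
        (S - (1 / δ) * (b - 1/2 - δ * Real.log (Nat.lcm h k))) := by
      ring
    rw [e2, abs_mul, abs_mul, abs_mul, abs_of_nonneg (inv_pos.2 hl0).le]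
    calc |F h| * |F' k| * (Nat.lcm h k : ℝ)⁻¹ *
          |S - (1 / δ) * (b - 1/2 - δ * Real.log (Nat.lcm h k))| ≤ |F h| * |F' k| * (Nat.lcm h k : ℝ)⁻¹ * 1 := by
          gcongr
      _ = _ := by ring
  have e3 : SBg F F' b δ - (1 / δ) * gsB F F' M b δ =
      ∑ h ∈ Finset.Icc 1 M, ∑ k ∈ Finset.Icc 1 M,
      (F h * F' k *
        ∑ q ∈ Finset.Icc 1 Q, (if Nat.lcm h k ∣ q then LibM3.omb b (δ * Real.log q) * (q:ℝ)⁻¹ else 0) -
      (1 / δ) * (F h * F' k * ((Nat.gcd h k : ℝ) / ((h : ℝ) * k)) *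
        (b - 1 / 2 - δ * (Real.log h + Real.log k - Real.log (Nat.gcd h k))))) := by
    unfold gsB
    rw [hC', Finset.mul_sum, ← Finset.sum_sub_distrib]
    apply Finset.sum_congr rfl
    intro h _
    rw [Finset.mul_sum, ← Finset.sum_sub_distrib]
  rw [e3]
  unfold gsP
  refine (Finset.abs_sum_le_sum_abs _ _).trans (Finset.sum_le_sum fun h hh => ?_)
  refine (Finset.abs_sum_le_sum_abs _ _).trans (Finset.sum_le_sum fun k hk => ?_)
  exact hterm h hh k hk

end Pool.Agent.LibFM89
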