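import Pool.Agent.LibFM89.CD
import Pool.Agent.LibM3.L1a

/-! # FM89 C2b: limit of the unfolded sum as a matrix integral (MEDIUM)

PLAN.  Copy of LibM3/L1a.lean (`SB_limit_LG`; lemmas `l1a_F`, `l1a_SG`, `l1a_LG`, `l1a_cfg`, `l1a_tau_one`) with `Fin 4`, `al4` in the place of
`Fin 2`, `al`: `cfg al4 (Fin.cons g0 g) δ = tw 1 (g0 ∘ ..) * b3 g δ` (`Fin.prod_univ_succ`), which at `q` with `δ log q ≤ b` is
`∑_{h ∣ q} b3 g δ h`.  `(∑ al4)² = (5/2)² = 25/4`. -/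

set_option autoImplicit false

namespace Pool.Agent.LibFM89

open MeasureTheory Set Filter Topology Complex ProbabilityTheory
open scoped NNReal ComplexConjugate
open Pool.Agent.LibZM
open Pool.Agent.LibSM47 (gam ch idx)

private theorem c2b_cfg (g0 : ℝ → ℝ) (g : Fin 3 → ℝ → ℝ) (δ : ℝ) :
    cfg al4 (Fin.cons (α := fun _ : Fin 4 => ℝ → ℝ) g0 g) δ = tw 1 (fun n => g0 (δ * Real.log n)) * b3 g δ := by
  unfold cfg b3
  rw [Fin.prod_univ_succ]
  rfl

private theorem c2b_key {g : Fin 3 → ℝ → ℝ} {b δ : ℝ} (hδ : 0 < δ) (g0 : ℝ → ℝ) (hg0 : ∀ x, x ≤ b → g0 x = 1) {q : ℕ} (hq : 0 < q)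
    (h : δ * Real.log q ≤ b) :
    cfg al4 (Fin.cons (α := fun _ : Fin 4 => ℝ → ℝ) g0 g) δ q = ∑ h ∈ q.divisors, b3 g δ h := by
  rw [c2b_cfg, ArithmeticFunction.mul_apply]
  simp only [tw_apply]
  rw [Nat.sum_divisorsAntidiagonal' (fun a c => (tau 1 a * g0 (δ * Real.log a)) * b3 g δ c)]
  refine Finset.sum_congr rfl fun d hd => ?_
  have hd' := Nat.dvd_of_mem_divisors hd
  have hqd : q / d ≠ 0 := (Nat.div_pos (Nat.le_of_dvd hq hd') (Nat.pos_of_dvd_of_pos hd' hq)).ne'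
  rw [LibM3.l1a_tau_one hqd, hg0, one_mul, one_mul]
  refine le_trans ?_ h
  apply mul_le_mul_of_nonneg_left _ hδ.le
  apply Real.log_le_log (by exact_mod_cast Nat.pos_of_ne_zero hqd)
  exact_mod_cast Nat.div_le_self q d

private theorem c2b_SG {g g' : Fin 3 → ℝ → ℝ} {b δ : ℝ} (hδ : 0 < δ) (g0 : ℝ → ℝ) (hg0 : ∀ x, x ≤ b → g0 x = 1) :
    SG al4 (Fin.cons (α := fun _ : Fin 4 => ℝ → ℝ) g0 g) (Fin.cons (α := fun _ : Fin 4 => ℝ → ℝ) g0 g') (LibM3.omb b) δ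
      = SBg (fun h => b3 g δ h) (fun h => b3 g' δ h) b δ := by
  unfold SG SBg
  refine tsum_congr fun q => ?_
  rcases Nat.eq_zero_or_pos q with rfl | hq
  · simp
  · rcases le_total b (δ * Real.log q) with h | h
    · rw [LibM3.l1a_omb_zero h]; ring
    · rw [c2b_key hδ g0 hg0 hq h, c2b_key hδ g0 hg0 hq h]

private theorem c2b_LG {g g' : Fin 3 → ℝ → ℝ} {b : ℝ} (g0 : ℝ → ℝ) (hg0 : ∀ x, x ≤ b → g0 x = 1) :
    LG al4 (Fin.cons (α := fun _ : Fin 4 => ℝ → ℝ) g0 g) (Fin.cons (α := fun _ : Fin 4 => ℝ → ℝ) g0 g') (LibM3.omb b)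
      = LG al4 (Fin.cons (α := fun _ : Fin 4 => ℝ → ℝ) (fun _ => 1) g)
        (Fin.cons (α := fun _ : Fin 4 => ℝ → ℝ) (fun _ => 1) g') (LibM3.omb b) := by
  unfold LG
  refine integral_congr_ae (Eventually.of_forall fun t => ?_)
  simp only
  by_cases hneg : ∀ p, 0 ≤ t p
  · rcases le_total b (totS t) with h | h
    · rw [LibM3.l1a_omb_zero h]; ring
    · have hr : rowS t 0 ≤ b := by
        refine le_trans ?_ h
        unfold rowS totS
        rw [Fintype.sum_prod_type]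
        exact Finset.single_le_sum (f := fun i => ∑ j, t (i, j)) (fun i _ => Finset.sum_nonneg fun j _ => hneg _) (Finset.mem_univ 0)
      have hc : colS t 0 ≤ b := by
        refine le_trans ?_ h
        unfold colS totS
        rw [Fintype.sum_prod_type, Finset.sum_comm]
        exact Finset.single_le_sum (f := fun j => ∑ i, t (i, j)) (fun i _ => Finset.sum_nonneg fun j _ => hneg _) (Finset.mem_univ 0)
      have e : ∀ (G : Fin 3 → ℝ → ℝ) (x : Fin 4 → ℝ), x 0 ≤ b →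
          ∏ i, (Fin.cons (α := fun _ : Fin 4 => ℝ → ℝ) g0 G) i (x i) = ∏ i, (Fin.cons (α := fun _ : Fin 4 => ℝ → ℝ) (fun _ => 1) G) i (x i) := by
        intro G x hx
        refine Finset.prod_congr rfl fun i _ => ?_
        refine Fin.cases ?_ (fun j => ?_) i
        · rw [Fin.cons_zero, Fin.cons_zero, hg0 _ hx]
        · rw [Fin.cons_succ, Fin.cons_succ]
      rw [e g (rowS t) hr, e g' (colS t) hc]
  · push Not at hneg
    obtain ⟨p, hp⟩ := hneg
    have : cellD al4 t = 0 := by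
      unfold cellD
      apply Finset.prod_eq_zero (Finset.mem_univ p)
      unfold cellρ
      apply Set.indicator_of_notMem
      simpa using hp.le
    rw [this, mul_zero, mul_zero]

theorem SBg_limit {g g' : Fin 3 → ℝ → ℝ} (hg : AdmG g) (hg' : AdmG g') {b : ℝ} (hb : 3 ≤ b) :
    Tendsto (fun δ : ℝ => δ ^ (25 / 4 : ℝ) * SBg (fun h => b3 g δ h) (fun h => b3 g' δ h) b δ) (𝓝[>] 0)
      (𝓝 (Aconst (5 / 2) * LG al4 (Fin.cons (α := fun _ : Fin 4 => ℝ → ℝ) (fun _ => 1) g)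
        (Fin.cons (α := fun _ : Fin 4 => ℝ → ℝ) (fun _ => 1) g') (LibM3.omb b))) := by
  have hal : ∀ i, 0 < al4 i := by
    intro i; fin_cases i <;> norm_num [al4]
  have hsum : ∑ i, al4 i = 5/2 := by
    rw [Fin.sum_univ_four]; simp [al4]; norm_num
  set g0 : ℝ → ℝ := ex (LibM3.l1a_F b fun _ => 1) with hg0
  have hg1 : ∀ x, x ≤ b → g0 x = 1 := fun x hx => LibM3.l1a_F_le hx
  have e1 : ∀ G : Fin 3 → ℝ → ℝ, AdmG G →
      (fun i => ex ((Fin.cons (α := fun _ : Fin 4 => ℝ → ℝ) (LibM3.l1a_F b fun _ => 1) (fun i => LibM3.l1a_F (1/6) (G i))) i))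
        = Fin.cons (α := fun _ : Fin 4 => ℝ → ℝ) g0 G := by
    intro G hG
    funext i
    refine Fin.cases ?_ (fun j => ?_) i
    · rfl
    · rw [Fin.cons_succ, Fin.cons_succ]
      exact LibM3.l1a_F_eq (hG j).2.2
  have e0 : ex (LibM3.l1a_F b (LibM3.omb b)) = LibM3.omb b := LibM3.l1a_F_eq fun x hx => LibM3.l1a_omb_zero hx
  have hc : ∀ G : Fin 3 → ℝ → ℝ, AdmG G → ∀ i, Continuous
      ((Fin.cons (α := fun _ : Fin 4 => ℝ → ℝ) (LibM3.l1a_F b fun _ => 1) (fun i => LibM3.l1a_F (1/6) (G i))) i) := by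
    intro G hG i
    refine Fin.cases ?_ (fun j => ?_) i
    · rw [Fin.cons_zero]; exact LibM3.l1a_F_cont continuous_const
    · rw [Fin.cons_succ]; exact LibM3.l1a_F_cont (hG j).1
  have key := tendsto_SG (α := al4) hal (hc g hg) (hc g' hg') (f0 := LibM3.l1a_F b (LibM3.omb b))
    (LibM3.l1a_F_cont (LibM3.l1a_omb_cont b))
  rw [e1 g hg, e1 g' hg', e0, hsum, c2b_LG g0 hg1] at key
  refine key.congr' ?_
  filter_upwards [self_mem_nhdsWithin] with δ hδ
  rw [c2b_SG hδ g0 hg1]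
  norm_num

end Pool.Agent.LibFM89
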