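import Pool.Agent.LibFM89.CD

/-! # FM89 C2c: the matrix integral over sixteen cells (MEDIUM/STRONG, Fubini) -/

set_option autoImplicit false

namespace Pool.Agent.LibFM89

open MeasureTheory Set Filter Topology Complex ProbabilityTheory
open scoped NNReal ComplexConjugate
open Pool.Agent.LibZM
open Pool.Agent.LibSM47 (gam ch idx)

private lemma cc_cell_one {x : ℝ} (hx : 0 < x) : cellρ 1 x = 1 := by
  unfold cellρ
  rw [Set.indicator_of_mem (show x ∈ Set.Ioi (0:ℝ) from hx)]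
  simp

private lemma cc_cell_neg {w x : ℝ} (hx : x ≤ 0) : cellρ w x = 0 := by
  unfold cellρ
  rw [Set.indicator_of_notMem]
  simpa using hx

private lemma cc_omb_nonneg (b x : ℝ) : 0 ≤ LibM3.omb b x := le_max_left _ _

private lemma cc_omb_le_one (b x : ℝ) : LibM3.omb b x ≤ 1 := by
  unfold LibM3.omb
  exact max_le zero_le_one (min_le_left _ _)

private lemma cc_omb_zero {b x : ℝ} (h : b ≤ x) : LibM3.omb b x = 0 := by
  unfold LibM3.omb
  apply max_eq_left
  exact (min_le_right _ _).trans (by linarith)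

private lemma cc_omb_cont (b : ℝ) : Continuous (LibM3.omb b) := by
  unfold LibM3.omb
  fun_prop

private lemma cc_omb_int {b s : ℝ} (_hs : 0 ≤ s) (hsb : s ≤ b - 1) :
    ∫ x, LibM3.omb b (x + s) * cellρ 1 x = b - 1/2 - s := by
  set c := b - s with hc
  have hc1 : 1 ≤ c := by rw [hc]; linarith
  have e : (fun x => LibM3.omb b (x + s) * cellρ 1 x) = (Ioc 0 c).indicator (fun x => min 1 (c - x)) := by
    funext x
    by_cases hx0 : 0 < x
    · rw [cc_cell_one hx0, mul_one]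
      by_cases hxc : x ≤ c
      · rw [indicator_of_mem (show x ∈ Ioc 0 c from ⟨hx0, hxc⟩)]
        unfold LibM3.omb
        have : b - (x + s) = c - x := by rw [hc]; ring
        rw [this]
        apply max_eq_right
        exact le_min zero_le_one (by linarith)
      · rw [indicator_of_notMem (fun h => hxc h.2)]
        apply cc_omb_zero
        push Not at hxc
        rw [hc] at hxc; linarith
    · rw [cc_cell_neg (not_lt.1 hx0), mul_zero, indicator_of_notMem (fun h => hx0 h.1)]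
  rw [e, integral_indicator measurableSet_Ioc, ← intervalIntegral.integral_of_le (by linarith)]
  have hcont : Continuous (fun x : ℝ => min 1 (c - x)) := by fun_prop
  rw [← intervalIntegral.integral_add_adjacent_intervals (hcont.intervalIntegrable 0 (c - 1))
    (hcont.intervalIntegrable (c - 1) c)]
  have h1 : ∫ x in (0:ℝ)..(c - 1), min 1 (c - x) = ∫ x in (0:ℝ)..(c - 1), (1:ℝ) := by
    apply intervalIntegral.integral_congr
    intro x hx
    rw [uIcc_of_le (by linarith)] at hx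
    exact min_eq_left (by linarith [hx.2])
  have h2 : ∫ x in (c - 1)..c, min 1 (c - x) = ∫ x in (c - 1)..c, (c - x) := by
    apply intervalIntegral.integral_congr
    intro x hx
    rw [uIcc_of_le (by linarith)] at hx
    exact min_eq_right (by linarith [hx.1])
  rw [h1, h2, intervalIntegral.integral_sub (by simp) (by simp)]
  simp only [intervalIntegral.integral_const, smul_eq_mul, integral_id]
  rw [hc]
  ring

/-- Truncated densities. -/
private noncomputable def cc_g (w : ℝ) (t : ℝ) : ℝ := (Ioc (0:ℝ) 1).indicator (cellρ w) t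

private noncomputable def cc_h (b : ℝ) (t : ℝ) : ℝ := (Ioc (0:ℝ) b).indicator (fun _ => (1:ℝ)) t

private lemma cc_g_nonneg {w : ℝ} (hw : 0 < w) (t : ℝ) : 0 ≤ cc_g w t :=
  indicator_nonneg (fun t _ => cellρ_nonneg hw t) t

private lemma cc_h_nonneg (b t : ℝ) : 0 ≤ cc_h b t :=
  indicator_nonneg (fun _ _ => zero_le_one) t

private lemma cc_g_integrable {w : ℝ} (hw : 0 < w) : Integrable (cc_g w) := by
  unfold cc_g
  have h : Integrable ((Ioc (0:ℝ) 1).indicator (cellρ w)) := by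
    rw [integrable_indicator_iff measurableSet_Ioc]
    have h1 : IntegrableOn (fun t : ℝ => t ^ (w - 1) / Real.Gamma w) (Ioc 0 1) :=
      ((intervalIntegral.intervalIntegrable_rpow' (a := 0) (b := 1) (r := w - 1) (by linarith)).1).div_const _
    refine h1.congr_fun ?_ measurableSet_Ioc
    intro t ht
    unfold cellρ
    rw [indicator_of_mem (show t ∈ Ioi (0:ℝ) from ht.1)]
  exact h

private lemma cc_h_integrable (b : ℝ) : Integrable (cc_h b) := by
  have h : Integrable ((Ioc (0:ℝ) b).indicator (fun _ => (1:ℝ))) := by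
    rw [integrable_indicator_iff measurableSet_Ioc]
    simp
  exact h

private lemma cc_g_eq {w t : ℝ} (h0 : 0 < t) (h1 : t ≤ 1) : cc_g w t = cellρ w t := by
  unfold cc_g
  rw [indicator_of_mem]
  exact ⟨h0, h1⟩

/-- The truncated product density. -/
private noncomputable def cc_H (z : C15) : ℝ :=
  (∏ i, ∏ j, cc_g (1 / 4) (z.1 i j)) * ((∏ i, cc_g (1 / 2) (z.2.1 i)) * ∏ j, cc_g (1 / 2) (z.2.2 j))

private lemma cc_H_nonneg (z : C15) : 0 ≤ cc_H z := by
  unfold cc_H
  refine mul_nonneg (Finset.prod_nonneg fun i _ => Finset.prod_nonneg fun j _ => cc_g_nonneg (by norm_num) _)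
    (mul_nonneg (Finset.prod_nonneg fun i _ => cc_g_nonneg (by norm_num) _) (Finset.prod_nonneg fun i _ => cc_g_nonneg (by norm_num) _))

private lemma cc_H_int : Integrable cc_H := by
  have h1 : Integrable (fun y : Fin 3 → Fin 3 → ℝ => ∏ i, ∏ j, cc_g (1 / 4) (y i j)) := by
    refine Integrable.fintype_prod (f := fun _ : Fin 3 => fun r : Fin 3 → ℝ => ∏ j, cc_g (1 / 4) (r j)) fun _ => ?_
    exact Integrable.fintype_prod (f := fun _ : Fin 3 => cc_g (1 / 4)) fun _ => cc_g_integrable (by norm_num)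
  have h2 : Integrable (fun y : Fin 3 → ℝ => ∏ i, cc_g (1 / 2) (y i)) :=
    Integrable.fintype_prod (f := fun _ : Fin 3 => cc_g (1 / 2)) fun _ => cc_g_integrable (by norm_num)
  exact h1.mul_prod (h2.mul_prod h2)

/-- All cells positive, all row and column sums below `1/6`. -/
private def cc_ok (z : C15) : Prop :=
  ((∀ i j, 0 < z.1 i j) ∧ (∀ i, 0 < z.2.1 i) ∧ (∀ j, 0 < z.2.2 j)) ∧
    (∀ i, ∑ j, z.1 i j + z.2.1 i < 1 / 6) ∧ (∀ j, ∑ i, z.1 i j + z.2.2 j < 1 / 6)

private lemma cc_zero {g g' : Fin 3 → ℝ → ℝ} (hg : AdmG g) (hg' : AdmG g') {z : C15} (h : ¬ cc_ok z) : pC g g' z * cC z = 0 := by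
  by_cases h1 : ∀ i j, 0 < z.1 i j
  · by_cases h2 : ∀ i, 0 < z.2.1 i
    · by_cases h3 : ∀ j, 0 < z.2.2 j
      · by_cases h4 : ∀ i, ∑ j, z.1 i j + z.2.1 i < 1 / 6
        · by_cases h5 : ∀ j, ∑ i, z.1 i j + z.2.2 j < 1 / 6
          · exact absurd ⟨⟨h1, h2, h3⟩, h4, h5⟩ h
          · push Not at h5
            obtain ⟨j, hj⟩ := h5
            have : ∏ j, g' j (∑ i, z.1 i j + z.2.2 j) = 0 := Finset.prod_eq_zero (Finset.mem_univ j) ((hg' j).2.2 _ hj)
            unfold pC
            rw [this]; ring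
        · push Not at h4
          obtain ⟨i, hi⟩ := h4
          have : ∏ i, g i (∑ j, z.1 i j + z.2.1 i) = 0 := Finset.prod_eq_zero (Finset.mem_univ i) ((hg i).2.2 _ hi)
          unfold pC
          rw [this]; ring
      · push Not at h3
        obtain ⟨j, hj⟩ := h3
        have : ∏ j, cellρ (1 / 2) (z.2.2 j) = 0 := Finset.prod_eq_zero (Finset.mem_univ j) (cc_cell_neg hj)
        unfold cC
        rw [this]; ring
    · push Not at h2
      obtain ⟨j, hj⟩ := h2
      have : ∏ j, cellρ (1 / 2) (z.2.1 j) = 0 := Finset.prod_eq_zero (Finset.mem_univ j) (cc_cell_neg hj)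
      unfold cC
      rw [this]; ring
  · push Not at h1
    obtain ⟨i, j, hij⟩ := h1
    have : ∏ i, ∏ j, cellρ (1 / 4) (z.1 i j) = 0 :=
      Finset.prod_eq_zero (Finset.mem_univ i) (Finset.prod_eq_zero (Finset.mem_univ j) (cc_cell_neg hij))
    unfold cC
    rw [this]; ring

private lemma cc_eq {z : C15} (h : cc_ok z) : cC z = cc_H z := by
  obtain ⟨⟨h1, h2, h3⟩, h4, h5⟩ := h
  have hrow : ∀ i, 0 ≤ ∑ j, z.1 i j := fun i => Finset.sum_nonneg fun j _ => (h1 i j).le
  have hcol : ∀ j, 0 ≤ ∑ i, z.1 i j := fun j => Finset.sum_nonneg fun i _ => (h1 i j).le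
  have e1 : ∀ i j, cc_g (1 / 4) (z.1 i j) = cellρ (1 / 4) (z.1 i j) := by
    intro i j
    refine cc_g_eq (h1 i j) ?_
    have : z.1 i j ≤ ∑ j, z.1 i j := Finset.single_le_sum (f := fun j => z.1 i j) (fun j _ => (h1 i j).le) (Finset.mem_univ j)
    have := h4 i
    have := h2 i
    linarith
  have e2 : ∀ i, cc_g (1 / 2) (z.2.1 i) = cellρ (1 / 2) (z.2.1 i) := by
    intro i
    refine cc_g_eq (h2 i) ?_
    have := h4 i
    have := hrow i
    linarith
  have e3 : ∀ i, cc_g (1 / 2) (z.2.2 i) = cellρ (1 / 2) (z.2.2 i) := by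
    intro i
    refine cc_g_eq (h3 i) ?_
    have := h5 i
    have := hcol i
    linarith
  unfold cc_H cC
  simp_rw [e1, e2, e3]
  ring

private lemma cc_bdd {f : ℝ → ℝ} (hf : Continuous f) :
    ∃ C : ℝ, 0 ≤ C ∧ ∀ x, 0 ≤ x → x ≤ 1 → |f x| ≤ C := by
  obtain ⟨C, hC⟩ := isCompact_Icc.exists_bound_of_continuousOn (hf.continuousOn (s := Icc 0 1))
  exact ⟨max C 0, le_max_right _ _, fun x hx hx1 => (hC x ⟨hx, hx1⟩).trans (le_max_left _ _)⟩

private lemma cc_bdd3 {g : Fin 3 → ℝ → ℝ} (hg : AdmG g) :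
    ∃ C : ℝ, 0 ≤ C ∧ ∀ i x, 0 ≤ x → x ≤ 1 → |g i x| ≤ C := by
  choose C hC0 hC using fun i => cc_bdd (hg i).1
  refine ⟨∑ i, C i, Finset.sum_nonneg fun i _ => hC0 i, fun i x hx hx1 => (hC i x hx hx1).trans ?_⟩
  exact Finset.single_le_sum (f := C) (fun i _ => hC0 i) (Finset.mem_univ i)

private lemma cc_p_bound {g g' : Fin 3 → ℝ → ℝ} (hg : AdmG g) (hg' : AdmG g') :
    ∃ P : ℝ, 0 ≤ P ∧ ∀ z, cc_ok z → |pC g g' z| ≤ P := by
  obtain ⟨C, hC0, hC⟩ := cc_bdd3 hg
  obtain ⟨C', hC0', hC'⟩ := cc_bdd3 hg'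
  refine ⟨C ^ 3 * C' ^ 3, by positivity, fun z hz => ?_⟩
  obtain ⟨⟨h1, h2, h3⟩, h4, h5⟩ := hz
  have hrow : ∀ i, 0 ≤ ∑ j, z.1 i j := fun i => Finset.sum_nonneg fun j _ => (h1 i j).le
  have hcol : ∀ j, 0 ≤ ∑ i, z.1 i j := fun j => Finset.sum_nonneg fun i _ => (h1 i j).le
  unfold pC
  rw [abs_mul, Finset.abs_prod, Finset.abs_prod]
  have a1 : ∏ i, |g i (∑ j, z.1 i j + z.2.1 i)| ≤ C ^ 3 := by
    calc ∏ i, |g i (∑ j, z.1 i j + z.2.1 i)| ≤ ∏ _i : Fin 3, C := by
          refine Finset.prod_le_prod (fun i _ => abs_nonneg _) fun i _ => hC i _ ?_ ?_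
          · linarith [hrow i, h2 i]
          · linarith [h4 i]
      _ = C ^ 3 := by simp
  have a2 : ∏ j, |g' j (∑ i, z.1 i j + z.2.2 j)| ≤ C' ^ 3 := by
    calc ∏ j, |g' j (∑ i, z.1 i j + z.2.2 j)| ≤ ∏ _i : Fin 3, C' := by
          refine Finset.prod_le_prod (fun i _ => abs_nonneg _) fun i _ => hC' i _ ?_ ?_
          · linarith [hcol i, h3 i]
          · linarith [h5 i]
      _ = C' ^ 3 := by simp
  exact mul_le_mul a1 a2 (Finset.prod_nonneg fun i _ => abs_nonneg _) (by positivity)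

private lemma cc_meas_p {g g' : Fin 3 → ℝ → ℝ} (hg : AdmG g) (hg' : AdmG g') : Measurable (pC g g') := by
  unfold pC
  refine Measurable.mul (Finset.measurable_prod _ fun i _ => ?_) (Finset.measurable_prod _ fun i _ => ?_)
  · exact (hg i).1.measurable.comp (by fun_prop)
  · exact (hg' i).1.measurable.comp (by fun_prop)

private lemma cc_meas_c : Measurable cC := by
  unfold cC
  refine Measurable.mul (Measurable.mul (Finset.measurable_prod _ fun i _ => Finset.measurable_prod _ fun j _ => ?_)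
    (Finset.measurable_prod _ fun i _ => ?_)) (Finset.measurable_prod _ fun i _ => ?_)
  · exact (measurable_cellρ _).comp (by fun_prop)
  · exact (measurable_cellρ _).comp (by fun_prop)
  · exact (measurable_cellρ _).comp (by fun_prop)

private lemma cc_meas_s : Measurable sC := by
  unfold sC
  fun_prop

private lemma cc_s_range {z : C15} (h : cc_ok z) : 0 ≤ sC z ∧ sC z ≤ 1 := by
  obtain ⟨⟨h1, h2, h3⟩, h4, h5⟩ := h
  have hrow : ∀ i, 0 ≤ ∑ j, z.1 i j := fun i => Finset.sum_nonneg fun j _ => (h1 i j).le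
  have hcol : ∀ j, 0 ≤ ∑ i, z.1 i j := fun j => Finset.sum_nonneg fun i _ => (h1 i j).le
  unfold sC
  refine ⟨?_, ?_⟩
  · have a1 : 0 ≤ ∑ i, ∑ j, z.1 i j := Finset.sum_nonneg fun i _ => hrow i
    have a2 : 0 ≤ ∑ i, z.2.1 i := Finset.sum_nonneg fun i _ => (h2 i).le
    have a3 : 0 ≤ ∑ i, z.2.2 i := Finset.sum_nonneg fun i _ => (h3 i).le
    linarith
  · have a1 : (∑ i, ∑ j, z.1 i j) + ∑ i, z.2.1 i ≤ 1 / 2 := by
      rw [← Finset.sum_add_distrib]
      calc ∑ i, (∑ j, z.1 i j + z.2.1 i) ≤ ∑ _i : Fin 3, (1 / 6 : ℝ) := Finset.sum_le_sum fun i _ => (h4 i).le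
        _ = 1 / 2 := by simp; norm_num
    have a3 : ∑ j, z.2.2 j ≤ 1 / 2 := by
      calc ∑ j, z.2.2 j ≤ ∑ _j : Fin 3, (1 / 6 : ℝ) := Finset.sum_le_sum fun j _ => by linarith [h5 j, hcol j]
        _ = 1 / 2 := by simp; norm_num
    linarith

private lemma cc_int {g g' : Fin 3 → ℝ → ℝ} (hg : AdmG g) (hg' : AdmG g') {F : C15 → ℝ} (hF : Measurable F) {K : ℝ} (hK : 0 ≤ K)
    (hFK : ∀ z, cc_ok z → |F z| ≤ K) : Integrable (fun z : C15 => F z * (pC g g' z * cC z)) := by
  obtain ⟨P, hP0, hP⟩ := cc_p_bound hg hg'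
  refine Integrable.mono' (cc_H_int.const_mul (K * P)) ((hF.mul ((cc_meas_p hg hg').mul cc_meas_c)).aestronglyMeasurable)
    (Eventually.of_forall fun z => ?_)
  by_cases h : cc_ok z
  · rw [cc_eq h, Real.norm_eq_abs, abs_mul, abs_mul, abs_of_nonneg (cc_H_nonneg z)]
    calc |F z| * (|pC g g' z| * cc_H z) ≤ K * (P * cc_H z) := by
          refine mul_le_mul (hFK z h) (mul_le_mul_of_nonneg_right (hP z h) (cc_H_nonneg z))
            (mul_nonneg (abs_nonneg _) (cc_H_nonneg z)) hK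
      _ = K * P * cc_H z := by ring
  · rw [cc_zero hg hg' h, mul_zero, norm_zero]
    exact mul_nonneg (mul_nonneg hK hP0) (cc_H_nonneg z)

theorem pC_int {g g' : Fin 3 → ℝ → ℝ} (hg : AdmG g) (hg' : AdmG g') :
    Integrable (fun z : C15 => pC g g' z * cC z) ∧ (∀ b : ℝ, Integrable (fun z : C15 => pC g g' z * (b - 1 / 2 - sC z) * cC z)) ∧
      (∀ i, Integrable (fun z : C15 => (∑ j, z.1 i j + z.2.1 i) * (pC g g' z * cC z))) := by
  refine ⟨?_, fun b => ?_, fun i => ?_⟩
  · have h := cc_int hg hg' (F := fun _ => 1) measurable_const zero_le_one (fun z _ => by simp)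
    simpa using h
  · have h := cc_int hg hg' (F := fun z => b - 1 / 2 - sC z) (measurable_const.sub cc_meas_s) (K := |b - 1 / 2| + 1) (by positivity)
      (fun z hz => by
        have := cc_s_range hz
        refine (abs_sub _ _).trans ?_
        rw [abs_of_nonneg this.1]
        linarith [this.2])
    refine h.congr (Eventually.of_forall fun z => ?_)
    simp only
    ring
  · refine cc_int hg hg' (F := fun z => ∑ j, z.1 i j + z.2.1 i) (by fun_prop) zero_le_one fun z hz => ?_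
    have h1 : 0 ≤ ∑ j, z.1 i j := Finset.sum_nonneg fun j _ => (hz.1.1 i j).le
    rw [abs_of_nonneg (by linarith [hz.1.2.1 i])]
    linarith [hz.2.1 i]

/-- Coordinates on the matrices. -/
private noncomputable def cc_Psi (q : C15 × ℝ) : Fin 4 × Fin 4 → ℝ := fun p =>
  (Fin.cons (α := fun _ : Fin 4 => Fin 4 → ℝ) (Fin.cons (α := fun _ : Fin 4 => ℝ) q.2 q.1.2.2)
    (fun i => Fin.cons (α := fun _ : Fin 4 => ℝ) (q.1.2.1 i) (q.1.1 i))) p.1 p.2

private lemma cc_Psi00 (q : C15 × ℝ) : cc_Psi q (0, 0) = q.2 := rfl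
private lemma cc_Psi0s (q : C15 × ℝ) (j : Fin 3) : cc_Psi q (0, j.succ) = q.1.2.2 j := rfl
private lemma cc_Psis0 (q : C15 × ℝ) (i : Fin 3) : cc_Psi q (i.succ, 0) = q.1.2.1 i := rfl
private lemma cc_Psiss (q : C15 × ℝ) (i j : Fin 3) : cc_Psi q (i.succ, j.succ) = q.1.1 i j := rfl

private lemma cc_Psi_meas : Measurable cc_Psi := by
  rw [measurable_pi_iff]
  rintro ⟨i, j⟩
  refine Fin.cases ?_ (fun i => ?_) i
  · refine Fin.cases ?_ (fun j => ?_) j
    · simp_rw [cc_Psi00]; fun_prop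
    · simp_rw [cc_Psi0s]; fun_prop
  · refine Fin.cases ?_ (fun j => ?_) j
    · simp_rw [cc_Psis0]; fun_prop
    · simp_rw [cc_Psiss]; fun_prop

private lemma cc_Psi_map : Measure.map cc_Psi volume = (volume : Measure (Fin 4 × Fin 4 → ℝ)) := by
  rw [volume_pi]
  symm
  apply Measure.pi_eq
  intro s hs
  rw [Measure.map_apply cc_Psi_meas (MeasurableSet.univ_pi hs)]
  have e : cc_Psi ⁻¹' (univ.pi s) = ((univ.pi fun i : Fin 3 => univ.pi fun j : Fin 3 => s (i.succ, j.succ)) ×ˢ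
      ((univ.pi fun i : Fin 3 => s (i.succ, 0)) ×ˢ (univ.pi fun j : Fin 3 => s (0, j.succ)))) ×ˢ s (0, 0) := by
    ext q
    simp only [mem_preimage, Set.mem_pi, mem_univ, true_imp_iff, Prod.forall, mem_prod]
    constructor
    · intro h
      exact ⟨⟨fun i j => h i.succ j.succ, fun i => h i.succ 0, fun j => h 0 j.succ⟩, h 0 0⟩
    · rintro ⟨⟨h1, h2, h3⟩, h4⟩ i j
      refine Fin.cases ?_ (fun i => ?_) i
      · exact Fin.cases h4 (fun j => h3 j) j
      · exact Fin.cases (h2 i) (fun j => h1 i j) j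
  rw [e, Measure.volume_eq_prod, Measure.prod_prod, Measure.volume_eq_prod, Measure.prod_prod,
    Measure.volume_eq_prod, Measure.prod_prod, Fintype.prod_prod_type, volume_pi, Measure.pi_pi]
  simp_rw [volume_pi, Measure.pi_pi, Fin.prod_univ_succ]
  simp only [Finset.univ_eq_empty, Finset.prod_empty]
  ring

private lemma cc_al_succ (i : Fin 3) : al4 i.succ = 1 / 2 := by
  fin_cases i <;> rfl

private lemma cc_al_zero : al4 0 = 1 := rfl

private lemma cc_integrand (g g' : Fin 3 → ℝ → ℝ) (b : ℝ) (q : C15 × ℝ) :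
    (∏ i, (Fin.cons (α := fun _ : Fin 4 => ℝ → ℝ) (fun _ => 1) g : Fin 4 → ℝ → ℝ) i (rowS (cc_Psi q) i)) *
      (∏ j, (Fin.cons (α := fun _ : Fin 4 => ℝ → ℝ) (fun _ => 1) g' : Fin 4 → ℝ → ℝ) j (colS (cc_Psi q) j)) *
      LibM3.omb b (totS (cc_Psi q)) * cellD al4 (cc_Psi q) =
      (pC g g' q.1 * cC q.1) * (LibM3.omb b (q.2 + sC q.1) * cellρ 1 q.2) := by
  have hr : ∀ i : Fin 3, rowS (cc_Psi q) i.succ = ∑ j, q.1.1 i j + q.1.2.1 i := by
    intro i
    unfold rowS
    rw [Fin.sum_univ_succ, add_comm]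
    rfl
  have hc : ∀ j : Fin 3, colS (cc_Psi q) j.succ = ∑ i, q.1.1 i j + q.1.2.2 j := by
    intro j
    unfold colS
    rw [Fin.sum_univ_succ, add_comm]
    rfl
  have ht : totS (cc_Psi q) = q.2 + sC q.1 := by
    unfold totS sC
    rw [Fintype.sum_prod_type, Fin.sum_univ_succ, Fin.sum_univ_succ, cc_Psi00]
    simp_rw [cc_Psi0s, Fin.sum_univ_succ (n := 3), cc_Psis0, cc_Psiss]
    rw [Finset.sum_add_distrib]
    ring
  have hd : cellD al4 (cc_Psi q) = cellρ 1 q.2 * cC q.1 := by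
    unfold cellD cC
    rw [Fintype.prod_prod_type, Fin.prod_univ_succ, Fin.prod_univ_succ]
    simp only [cc_Psi00, cc_Psi0s, Fin.prod_univ_succ (n := 3), cc_Psis0, cc_Psiss, cc_al_zero, cc_al_succ, mul_one, one_mul]
    rw [Finset.prod_mul_distrib]
    have : (1 / 2 : ℝ) * (1 / 2) = 1 / 4 := by norm_num
    rw [this]
    ring
  rw [ht, hd]
  simp only [Fin.prod_univ_succ (n := 3), Fin.cons_zero, Fin.cons_succ, hr, hc, one_mul]
  unfold pC
  ring

private lemma cc_prod_int {g g' : Fin 3 → ℝ → ℝ} (hg : AdmG g) (hg' : AdmG g') (b : ℝ) :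
    Integrable (fun q : C15 × ℝ => (pC g g' q.1 * cC q.1) * (LibM3.omb b (q.2 + sC q.1) * cellρ 1 q.2)) (volume.prod volume) := by
  obtain ⟨P, hP0, hP⟩ := cc_p_bound hg hg'
  have hdom : Integrable (fun q : C15 × ℝ => cc_H q.1 * cc_h b q.2) (volume.prod volume) := cc_H_int.mul_prod (cc_h_integrable b)
  have hmeas : Measurable (fun q : C15 × ℝ => (pC g g' q.1 * cC q.1) * (LibM3.omb b (q.2 + sC q.1) * cellρ 1 q.2)) := by
    refine Measurable.mul (((cc_meas_p hg hg').mul cc_meas_c).comp measurable_fst) (Measurable.mul ?_ ?_)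
    · exact (cc_omb_cont b).measurable.comp (measurable_snd.add (cc_meas_s.comp measurable_fst))
    · exact (measurable_cellρ 1).comp measurable_snd
  refine Integrable.mono' (hdom.const_mul P) hmeas.aestronglyMeasurable (Eventually.of_forall fun q => ?_)
  have hR : 0 ≤ P * (cc_H q.1 * cc_h b q.2) := mul_nonneg hP0 (mul_nonneg (cc_H_nonneg _) (cc_h_nonneg _ _))
  by_cases h : cc_ok q.1
  · by_cases hx : q.2 ≤ 0
    · rw [cc_cell_neg hx, mul_zero, mul_zero, norm_zero]
      exact hR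
    · push Not at hx
      have hs := cc_s_range h
      by_cases hb : b ≤ q.2 + sC q.1
      · rw [cc_omb_zero hb, zero_mul, mul_zero, norm_zero]
        exact hR
      · push Not at hb
        have e4 : cc_h b q.2 = 1 := by
          unfold cc_h
          rw [indicator_of_mem]
          exact ⟨hx, by linarith⟩
        rw [e4, cc_cell_one hx, cc_eq h, Real.norm_eq_abs, abs_mul, abs_mul, abs_of_nonneg (cc_H_nonneg _), mul_one, mul_one,
          abs_of_nonneg (cc_omb_nonneg _ _)]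
        calc |pC g g' q.1| * cc_H q.1 * LibM3.omb b (q.2 + sC q.1) ≤ P * cc_H q.1 * 1 := by
              refine mul_le_mul (mul_le_mul_of_nonneg_right (hP _ h) (cc_H_nonneg _)) (cc_omb_le_one _ _) (cc_omb_nonneg _ _)
                (mul_nonneg hP0 (cc_H_nonneg _))
          _ = P * cc_H q.1 := by ring
          _ = P * (cc_H q.1 * 1) := by ring
          _ ≤ _ := by rw [mul_one]
  · rw [cc_zero hg hg' h, zero_mul, norm_zero]
    exact hR

theorem LG_eq_IBg {g g' : Fin 3 → ℝ → ℝ} (hg : AdmG g) (hg' : AdmG g') {b : ℝ} (hb : 3 ≤ b) :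
    LG al4 (Fin.cons (α := fun _ : Fin 4 => ℝ → ℝ) (fun _ => 1) g)
        (Fin.cons (α := fun _ : Fin 4 => ℝ → ℝ) (fun _ => 1) g') (LibM3.omb b) = IBg g g' b := by
  have hm1 : ∀ {g : Fin 3 → ℝ → ℝ}, AdmG g → ∀ i : Fin 4,
      Measurable ((Fin.cons (α := fun _ : Fin 4 => ℝ → ℝ) (fun _ => 1) g : Fin 4 → ℝ → ℝ) i) := by
    intro g hg i
    refine Fin.cases ?_ (fun i => ?_) i
    · exact measurable_const
    · exact (hg i).1.measurable
  have hL : LG al4 (Fin.cons (α := fun _ : Fin 4 => ℝ → ℝ) (fun _ => 1) g)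
        (Fin.cons (α := fun _ : Fin 4 => ℝ → ℝ) (fun _ => 1) g') (LibM3.omb b) =
      ∫ q : C15 × ℝ, (pC g g' q.1 * cC q.1) * (LibM3.omb b (q.2 + sC q.1) * cellρ 1 q.2) := by
    unfold LG
    rw [← cc_Psi_map, integral_map cc_Psi_meas.aemeasurable]
    · congr 1
      funext q
      exact cc_integrand g g' b q
    · apply Measurable.aestronglyMeasurable
      exact measurable_LG (hm1 hg) (hm1 hg') (cc_omb_cont b).measurable
  rw [hL, Measure.volume_eq_prod, integral_prod _ (cc_prod_int hg hg' b)]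
  unfold IBg
  congr 1
  funext z
  simp only
  rw [integral_const_mul]
  by_cases h : cc_ok z
  · have hs := cc_s_range h
    rw [cc_omb_int hs.1 (by linarith [hs.2])]
    ring
  · rw [cc_zero hg hg' h, zero_mul]
    have := cc_zero hg hg' h
    have e : pC g g' z * (b - 1 / 2 - sC z) * cC z = (pC g g' z * cC z) * (b - 1 / 2 - sC z) := by ring
    rw [e, this, zero_mul]

end Pool.Agent.LibFM89
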