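import Pool.Agent.LibFM89.C2a
import Pool.Agent.LibFM89.C2b
import Pool.Agent.LibFM89.C2c

/-! # FM89 C3: limits of the two arithmetic forms (MEDIUM)

PLAN.  Template LibM3/L3.lean (`l3_key`, `IP_limit`).  `F = b3 g δ ≥ 0`, `F' = b3 g' δ ≥ 0` (`g ≥ 0` on `x ≥ 0`, `δ log l ≥ 0`); `F h ≠ 0` forces
`δ log h ≤ 1/2`, so `F = 0` beyond `MN δ`.  `gsB(b=4) - gsB(b=3) = gsP`; by `SBg_eq`: `(1/δ) gsP ≤ SBg(4) - SBg(3) + 2 gsP`, so for `δ ≤ 1/4`
`gsP ≤ 2δ (SBg(4) - SBg(3)) = O(δ^(1-25/4))`, hence the error in `SBg_eq` is `δ^(25/4) gsP = O(δ) → 0`, and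
`δ^(21/4) gsB = δ^(25/4) SBg + o(1)`.  `IBg(4) - IBg(3) = IPg` (`pC_int`, `integral_sub`). -/

set_option autoImplicit false

namespace Pool.Agent.LibFM89

open MeasureTheory Set Filter Topology Complex ProbabilityTheory
open scoped NNReal ComplexConjugate
open Pool.Agent.LibZM
open Pool.Agent.LibSM47 (gam ch idx)

private lemma c3_mul_nonneg {f g : ArithmeticFunction ℝ} (hf : ∀ n, 0 ≤ f n) (hg : ∀ n, 0 ≤ g n) (n : ℕ) :
    0 ≤ (f * g) n := by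
  rw [ArithmeticFunction.mul_apply]
  exact Finset.sum_nonneg fun x _ => mul_nonneg (hf _) (hg _)

private lemma c3_mul_supp {f g : ArithmeticFunction ℝ} {δ c1 c2 : ℝ}
    (hf : ∀ n, f n ≠ 0 → n ≠ 0 ∧ δ * Real.log n ≤ c1) (hg : ∀ n, g n ≠ 0 → n ≠ 0 ∧ δ * Real.log n ≤ c2) (n : ℕ)
    (h : (f * g) n ≠ 0) : n ≠ 0 ∧ δ * Real.log n ≤ c1 + c2 := by
  rw [ArithmeticFunction.mul_apply] at h
  obtain ⟨x, hx, hx2⟩ := Finset.exists_ne_zero_of_sum_ne_zero h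
  have hx3 := Nat.mem_divisorsAntidiagonal.1 hx
  obtain ⟨a1, a2⟩ := hf x.1 (left_ne_zero_of_mul hx2)
  obtain ⟨b1, b2⟩ := hg x.2 (right_ne_zero_of_mul hx2)
  refine ⟨hx3.2, ?_⟩
  rw [← hx3.1, Nat.cast_mul, Real.log_mul (by exact_mod_cast a1) (by exact_mod_cast b1)]
  linarith

private lemma c3_tw {g : Fin 3 → ℝ → ℝ} (hg : AdmG g) {δ : ℝ} (hδ : 0 < δ) (i : Fin 3) (n : ℕ) :
    0 ≤ tw (1 / 2) (fun n => g i (δ * Real.log n)) n ∧
      (tw (1 / 2) (fun n => g i (δ * Real.log n)) n ≠ 0 → n ≠ 0 ∧ δ * Real.log n ≤ 1 / 6) := by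
  obtain ⟨-, h2, h3⟩ := hg i
  rw [tw_apply]
  refine ⟨mul_nonneg (tau_nonneg (by norm_num) n) (h2 _ (mul_nonneg hδ.le (Real.log_natCast_nonneg n))), fun h => ?_⟩
  refine ⟨?_, ?_⟩
  · rintro rfl
    exact left_ne_zero_of_mul h (by simp)
  · by_contra h5
    exact right_ne_zero_of_mul h (h3 _ (not_le.1 h5).le)

private lemma c3_b3 {g : Fin 3 → ℝ → ℝ} (hg : AdmG g) {δ : ℝ} (hδ : 0 < δ) (n : ℕ) :
    0 ≤ b3 g δ n ∧ (b3 g δ n ≠ 0 → n ≠ 0 ∧ δ * Real.log n ≤ 1 / 2) := by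
  have e : b3 g δ = tw (1 / 2) (fun n => g 0 (δ * Real.log n)) * tw (1 / 2) (fun n => g 1 (δ * Real.log n)) *
      tw (1 / 2) (fun n => g 2 (δ * Real.log n)) := by
    unfold b3 cfg
    rw [Fin.prod_univ_three]
  rw [e]
  refine ⟨c3_mul_nonneg (c3_mul_nonneg (fun n => (c3_tw hg hδ 0 n).1) fun n => (c3_tw hg hδ 1 n).1)
    (fun n => (c3_tw hg hδ 2 n).1) n, fun h => ?_⟩
  have := c3_mul_supp (c3_mul_supp (fun n => (c3_tw hg hδ 0 n).2) fun n => (c3_tw hg hδ 1 n).2)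
    (fun n => (c3_tw hg hδ 2 n).2) n h
  refine ⟨this.1, this.2.trans ?_⟩
  norm_num

private lemma c3_zero {g : Fin 3 → ℝ → ℝ} (hg : AdmG g) {δ : ℝ} (hδ : 0 < δ) (h : ℕ) (hh : LibM3.MN δ < h) :
    b3 g δ h = 0 := by
  by_contra h0
  obtain ⟨a1, a2⟩ := (c3_b3 hg hδ h).2 h0
  have h1 : (0 : ℝ) < h := by exact_mod_cast Nat.pos_of_ne_zero a1
  have h2 : Real.log h ≤ 1 / δ := by
    rw [le_div_iff₀ hδ]
    linarith
  have h3 : (h : ℝ) ≤ Real.exp (1 / δ) := (Real.log_le_iff_le_exp h1).1 h2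
  have h4 : h ≤ LibM3.MN δ := Nat.le_floor h3
  omega

private lemma c3_sub (F F' : ℕ → ℝ) (M : ℕ) (δ : ℝ) : gsB F F' M 4 δ - gsB F F' M 3 δ = gsP F F' M := by
  unfold gsB gsP
  rw [← Finset.sum_sub_distrib]
  refine Finset.sum_congr rfl fun h _ => ?_
  rw [← Finset.sum_sub_distrib]
  refine Finset.sum_congr rfl fun k _ => ?_
  ring

private lemma c3_IBg {g g' : Fin 3 → ℝ → ℝ} (hg : AdmG g) (hg' : AdmG g') : IBg g g' 4 - IBg g g' 3 = IPg g g' := by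
  obtain ⟨-, h2, -⟩ := pC_int hg hg'
  unfold IBg IPg
  rw [← integral_sub (h2 4) (h2 3)]
  refine integral_congr_ae (Eventually.of_forall fun z => ?_)
  simp only
  ring

private lemma c3_ev : ∀ᶠ δ : ℝ in 𝓝[>] 0, 0 < δ ∧ δ ≤ 1 / 4 := by
  filter_upwards [Ioc_mem_nhdsGT (show (0:ℝ) < 1 / 4 by norm_num)] with δ hδ using hδ

private lemma c3_abs {g g' : Fin 3 → ℝ → ℝ} (hg : AdmG g) (hg' : AdmG g') {δ b : ℝ} (hb : 3 ≤ b) (h0 : 0 < δ)
    (h1 : δ ≤ 1) :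
    |SBg (fun h => b3 g δ h) (fun h => b3 g' δ h) b δ -
      (1 / δ) * gsB (fun h => b3 g δ h) (fun h => b3 g' δ h) (LibM3.MN δ) b δ| ≤
        gsP (fun h => b3 g δ h) (fun h => b3 g' δ h) (LibM3.MN δ) := by
  have h := SBg_eq hb h0 h1 (fun h => b3 g δ h) (fun h => b3 g' δ h) (fun h hh => c3_zero hg h0 h hh)
    (fun h hh => c3_zero hg' h0 h hh)
  have e1 : (fun h : ℕ => |b3 g δ h|) = fun h : ℕ => b3 g δ h := funext fun h => abs_of_nonneg (c3_b3 hg h0 h).1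
  have e2 : (fun h : ℕ => |b3 g' δ h|) = fun h : ℕ => b3 g' δ h := funext fun h => abs_of_nonneg (c3_b3 hg' h0 h).1
  rw [e1, e2] at h
  exact h

private lemma c3_gsP_nonneg {g g' : Fin 3 → ℝ → ℝ} (hg : AdmG g) (hg' : AdmG g') {δ : ℝ} (h0 : 0 < δ) (M : ℕ) :
    0 ≤ gsP (fun h => b3 g δ h) (fun h => b3 g' δ h) M := by
  unfold gsP
  refine Finset.sum_nonneg fun h _ => Finset.sum_nonneg fun k _ => ?_
  have := (c3_b3 hg h0 h).1
  have := (c3_b3 hg' h0 k).1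
  positivity

theorem gs_limit {g g' : Fin 3 → ℝ → ℝ} (hg : AdmG g) (hg' : AdmG g') :
    (∀ b : ℝ, 3 ≤ b → Tendsto (fun δ : ℝ => δ ^ (21 / 4 : ℝ) * gsB (fun h => b3 g δ h) (fun h => b3 g' δ h) (LibM3.MN δ) b δ) (𝓝[>] 0)
      (𝓝 (Aconst (5 / 2) * IBg g g' b))) ∧
    Tendsto (fun δ : ℝ => δ ^ (21 / 4 : ℝ) * gsP (fun h => b3 g δ h) (fun h => b3 g' δ h) (LibM3.MN δ)) (𝓝[>] 0)
      (𝓝 (Aconst (5 / 2) * IPg g g')) := by
  have hL : ∀ b : ℝ, 3 ≤ b → Tendsto (fun δ : ℝ => δ ^ (25 / 4 : ℝ) * SBg (fun h => b3 g δ h) (fun h => b3 g' δ h) b δ)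
      (𝓝[>] 0) (𝓝 (Aconst (5 / 2) * IBg g g' b)) := by
    intro b hb
    have := SBg_limit hg hg' hb
    rwa [LG_eq_IBg hg hg' hb] at this
  have hid : Tendsto (fun δ : ℝ => 2 * δ) (𝓝[>] 0) (𝓝 0) := by
    have : Tendsto (fun δ : ℝ => 2 * δ) (𝓝 0) (𝓝 (2 * 0)) := tendsto_const_nhds.mul tendsto_id
    rw [mul_zero] at this
    exact this.mono_left nhdsWithin_le_nhds
  have hP : Tendsto (fun δ : ℝ => δ ^ (25 / 4 : ℝ) * gsP (fun h => b3 g δ h) (fun h => b3 g' δ h) (LibM3.MN δ))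
      (𝓝[>] 0) (𝓝 0) := by
    have h1 := hid.mul ((hL 4 (by norm_num)).sub (hL 3 le_rfl))
    rw [zero_mul] at h1
    refine squeeze_zero' ?_ ?_ h1
    · filter_upwards [c3_ev] with δ hδ
      exact mul_nonneg (Real.rpow_nonneg hδ.1.le _) (c3_gsP_nonneg hg hg' hδ.1 _)
    · filter_upwards [c3_ev] with δ hδ
      obtain ⟨h0, h2⟩ := hδ
      have a4 := c3_abs hg hg' (b := 4) (by norm_num) h0 (by linarith)
      have a3 := c3_abs hg hg' (b := 3) le_rfl h0 (by linarith)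
      have e := c3_sub (fun h => b3 g δ h) (fun h => b3 g' δ h) (LibM3.MN δ) δ
      have hn := c3_gsP_nonneg hg hg' h0 (LibM3.MN δ)
      set S4 := SBg (fun h => b3 g δ h) (fun h => b3 g' δ h) 4 δ
      set S3 := SBg (fun h => b3 g δ h) (fun h => b3 g' δ h) 3 δ
      set B4 := gsB (fun h => b3 g δ h) (fun h => b3 g' δ h) (LibM3.MN δ) 4 δ
      set B3 := gsB (fun h => b3 g δ h) (fun h => b3 g' δ h) (LibM3.MN δ) 3 δ
      set P := gsP (fun h => b3 g δ h) (fun h => b3 g' δ h) (LibM3.MN δ)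
      have b4 := (abs_le.1 a4).1
      have b3' := (abs_le.1 a3).2
      have k1 : (1 / δ) * P ≤ S4 - S3 + 2 * P := by
        rw [← e]
        have : (1 / δ) * (B4 - B3) = (1 / δ) * B4 - (1 / δ) * B3 := by ring
        rw [this, e]
        linarith
      have k2 : P ≤ δ * (S4 - S3) + 2 * δ * P := by
        have := mul_le_mul_of_nonneg_left k1 h0.le
        have e5 : δ * (1 / δ * P) = P := by
          field_simp
        rw [e5] at this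
        linarith
      have k3 : 2 * δ * P ≤ P / 2 := by nlinarith
      have k4 : P ≤ 2 * δ * (S4 - S3) := by linarith
      calc δ ^ (25 / 4 : ℝ) * P ≤ δ ^ (25 / 4 : ℝ) * (2 * δ * (S4 - S3)) :=
            mul_le_mul_of_nonneg_left k4 (Real.rpow_nonneg h0.le _)
        _ = 2 * δ * (δ ^ (25 / 4 : ℝ) * S4 - δ ^ (25 / 4 : ℝ) * S3) := by ring
  have key : ∀ b : ℝ, 3 ≤ b → Tendsto (fun δ : ℝ => δ ^ (21 / 4 : ℝ) *
      gsB (fun h => b3 g δ h) (fun h => b3 g' δ h) (LibM3.MN δ) b δ) (𝓝[>] 0) (𝓝 (Aconst (5 / 2) * IBg g g' b)) := by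
    intro b hb
    have hd : Tendsto (fun δ : ℝ => δ ^ (25 / 4 : ℝ) * SBg (fun h => b3 g δ h) (fun h => b3 g' δ h) b δ -
        δ ^ (21 / 4 : ℝ) * gsB (fun h => b3 g δ h) (fun h => b3 g' δ h) (LibM3.MN δ) b δ) (𝓝[>] 0) (𝓝 0) := by
      refine squeeze_zero_norm' ?_ hP
      filter_upwards [c3_ev] with δ hδ
      obtain ⟨h0, h2⟩ := hδ
      have a := c3_abs hg hg' hb h0 (by linarith)
      have e : δ ^ (25 / 4 : ℝ) * SBg (fun h => b3 g δ h) (fun h => b3 g' δ h) b δ -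
          δ ^ (21 / 4 : ℝ) * gsB (fun h => b3 g δ h) (fun h => b3 g' δ h) (LibM3.MN δ) b δ =
          δ ^ (25 / 4 : ℝ) * (SBg (fun h => b3 g δ h) (fun h => b3 g' δ h) b δ -
            (1 / δ) * gsB (fun h => b3 g δ h) (fun h => b3 g' δ h) (LibM3.MN δ) b δ) := by
        have e2 : δ ^ (25 / 4 : ℝ) = δ ^ (21 / 4 : ℝ) * δ := by
          rw [← Real.rpow_add_one h0.ne']
          norm_num
        rw [mul_sub, e2]
        field_simp
      rw [e, Real.norm_eq_abs, abs_mul, abs_of_nonneg (Real.rpow_nonneg h0.le _)]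
      exact mul_le_mul_of_nonneg_left a (Real.rpow_nonneg h0.le _)
    have := (hL b hb).sub hd
    rw [sub_zero] at this
    refine this.congr fun δ => ?_
    ring
  refine ⟨key, ?_⟩
  have h := (key 4 (by norm_num)).sub (key 3 le_rfl)
  rw [← mul_sub, c3_IBg hg hg'] at h
  refine h.congr fun δ => ?_
  rw [← mul_sub, c3_sub]

end Pool.Agent.LibFM89
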