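import Pool.Agent.LibFM89.C3

/-! # FM89 C3b: the weighted form (MEDIUM)

PLAN.  `g = g' = (f,f,f)`, `B = b3 g δ`.  `1 - l_h - l_k + 2 l_g = 2 (b - 1/2 - λ) + (2 - 2b) + l_h + l_k`, `λ = l_h + l_k - l_g`; with `b = 3` and the symmetry
`h ↔ k` of the sums: `gsH B B = 2 gsB B B (b=3) - 4 gsP B B + 2 gsP (h ↦ δ log h · B h) B`, and `δ log h · b3 g δ h = ∑_i b3 (gx g i) δ h` (Leibniz rule for
a product of three arithmetic functions: `log (l₁l₂l₃) = ∑ log l_i`; `cfg`, `Fin.prod_univ_three`, `ArithmeticFunction.mul_apply`).  `AdmG (gx g i)`.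
Limits by `gs_limit`; `2 IBg g g 3 - 4 IPg g g + 2 ∑_i IPg (gx g i) g = CC f`: the integrands are `pC g g z cC z` times
`2(5/2 - sC) - 4 + 2 ∑_i R_i = 1 - 2 ∑_j c_j`, `R_i = ∑_j y_ij + r_i` (`pC (gx g i) g z = R_i pC g g z`; integrability `pC_int`).
Second statement: `T → ∞`, `δ = 1/log T`, `MN δ = ⌊T⌋₊`. -/

set_option autoImplicit false

namespace Pool.Agent.LibFM89

open MeasureTheory Set Filter Topology Complex ProbabilityTheory
open scoped NNReal ComplexConjugate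
open Pool.Agent.LibZM
open Pool.Agent.LibSM47 (gam ch idx)

/-! ## The Leibniz rule -/

private noncomputable def c3bL (δ : ℝ) (F : ArithmeticFunction ℝ) : ArithmeticFunction ℝ :=
  ⟨fun n => δ * Real.log n * F n, by simp⟩

private theorem c3bL_apply (δ : ℝ) (F : ArithmeticFunction ℝ) (n : ℕ) :
    c3bL δ F n = δ * Real.log n * F n := rfl

private theorem c3bL_mul (δ : ℝ) (F G : ArithmeticFunction ℝ) :
    c3bL δ (F * G) = c3bL δ F * G + F * c3bL δ G := by
  ext n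
  rw [ArithmeticFunction.add_apply, c3bL_apply, ArithmeticFunction.mul_apply,
    ArithmeticFunction.mul_apply, ArithmeticFunction.mul_apply, Finset.mul_sum,
    ← Finset.sum_add_distrib]
  refine Finset.sum_congr rfl fun x hx => ?_
  obtain ⟨h1, h2⟩ := Nat.mem_divisorsAntidiagonal.mp hx
  have hx1 : (x.1 : ℝ) ≠ 0 := by
    intro h
    have h' : x.1 = 0 := by exact_mod_cast h
    rw [h', zero_mul] at h1
    exact h2 h1.symm
  have hx2 : (x.2 : ℝ) ≠ 0 := by
    intro h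
    have h' : x.2 = 0 := by exact_mod_cast h
    rw [h', mul_zero] at h1
    exact h2 h1.symm
  have h3 : Real.log n = Real.log x.1 + Real.log x.2 := by
    rw [← Real.log_mul hx1 hx2, ← h1]
    push_cast
    rfl
  rw [h3, c3bL_apply, c3bL_apply]
  ring

private theorem c3bL_tw (g : Fin 3 → ℝ → ℝ) (δ : ℝ) (i : Fin 3) :
    tw (1 / 2) (fun n => gx g i i (δ * Real.log n)) =
      c3bL δ (tw (1 / 2) (fun n => g i (δ * Real.log n))) := by
  ext n
  rw [c3bL_apply]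
  unfold gx
  rw [Function.update_self]
  show tau (1 / 2) n * (δ * Real.log n * g i (δ * Real.log n)) =
    δ * Real.log n * (tau (1 / 2) n * g i (δ * Real.log n))
  ring

private theorem c3b_b3 (g : Fin 3 → ℝ → ℝ) (δ : ℝ) :
    b3 g δ = tw (1 / 2) (fun n => g 0 (δ * Real.log n)) * tw (1 / 2) (fun n => g 1 (δ * Real.log n)) *
      tw (1 / 2) (fun n => g 2 (δ * Real.log n)) := by
  unfold b3 cfg
  rw [Fin.prod_univ_three]

private theorem c3b_gx_ne (g : Fin 3 → ℝ → ℝ) {i j : Fin 3} (h : j ≠ i) : gx g i j = g j := by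
  unfold gx
  rw [Function.update_of_ne h]

private theorem b3_leib (g : Fin 3 → ℝ → ℝ) (δ : ℝ) (h : ℕ) :
    δ * Real.log h * b3 g δ h = ∑ i, b3 (gx g i) δ h := by
  rw [← c3bL_apply, Fin.sum_univ_three, c3b_b3 g, c3b_b3 (gx g 0), c3b_b3 (gx g 1), c3b_b3 (gx g 2),
    c3bL_mul, c3bL_mul, ← c3bL_tw g δ 0, ← c3bL_tw g δ 1, ← c3bL_tw g δ 2,
    c3b_gx_ne g (show (1 : Fin 3) ≠ 0 by decide), c3b_gx_ne g (show (2 : Fin 3) ≠ 0 by decide),
    c3b_gx_ne g (show (0 : Fin 3) ≠ 1 by decide), c3b_gx_ne g (show (2 : Fin 3) ≠ 1 by decide),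
    c3b_gx_ne g (show (0 : Fin 3) ≠ 2 by decide), c3b_gx_ne g (show (1 : Fin 3) ≠ 2 by decide),
    add_mul, ArithmeticFunction.add_apply, ArithmeticFunction.add_apply]

/-! ## The identity of the sums -/

private theorem gsH_eq (F : ℕ → ℝ) (M : ℕ) (δ : ℝ) :
    gsH F F M δ = 2 * gsB F F M 3 δ - 4 * gsP F F M + 2 * gsP (fun h => δ * Real.log h * F h) F M := by
  have hsym : gsP (fun h => δ * Real.log h * F h) F M =
      ∑ h ∈ Finset.Icc 1 M, ∑ k ∈ Finset.Icc 1 M,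
        F h * F k * ((Nat.gcd h k : ℝ) / ((h : ℝ) * k)) * (δ * Real.log k) := by
    unfold gsP
    rw [Finset.sum_comm]
    refine Finset.sum_congr rfl fun k _ => Finset.sum_congr rfl fun h _ => ?_
    rw [Nat.gcd_comm h k, mul_comm (h : ℝ) (k : ℝ)]
    ring
  have h2 : 2 * gsP (fun h => δ * Real.log h * F h) F M =
      (∑ h ∈ Finset.Icc 1 M, ∑ k ∈ Finset.Icc 1 M,
        F h * F k * ((Nat.gcd h k : ℝ) / ((h : ℝ) * k)) * (δ * Real.log h)) +
      ∑ h ∈ Finset.Icc 1 M, ∑ k ∈ Finset.Icc 1 M,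
        F h * F k * ((Nat.gcd h k : ℝ) / ((h : ℝ) * k)) * (δ * Real.log k) := by
    rw [two_mul]
    congr 1
    unfold gsP
    refine Finset.sum_congr rfl fun h _ => Finset.sum_congr rfl fun k _ => ?_
    ring
  rw [h2]
  unfold gsH gsB gsP
  rw [Finset.mul_sum, Finset.mul_sum, ← Finset.sum_sub_distrib, ← Finset.sum_add_distrib,
    ← Finset.sum_add_distrib]
  refine Finset.sum_congr rfl fun h _ => ?_
  rw [Finset.mul_sum, Finset.mul_sum, ← Finset.sum_sub_distrib, ← Finset.sum_add_distrib,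
    ← Finset.sum_add_distrib]
  refine Finset.sum_congr rfl fun k _ => ?_
  ring

private theorem gsP_sum (G : Fin 3 → ℕ → ℝ) (F : ℕ → ℝ) (M : ℕ) :
    gsP (fun h => ∑ i, G i h) F M = ∑ i, gsP (G i) F M := by
  unfold gsP
  simp_rw [Finset.sum_mul]
  exact (Finset.sum_congr rfl fun h _ => Finset.sum_comm).trans Finset.sum_comm

private theorem gsH_b3 (g : Fin 3 → ℝ → ℝ) (M : ℕ) (δ : ℝ) :
    gsH (fun h => b3 g δ h) (fun h => b3 g δ h) M δ =
      2 * gsB (fun h => b3 g δ h) (fun h => b3 g δ h) M 3 δ -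
        4 * gsP (fun h => b3 g δ h) (fun h => b3 g δ h) M +
        2 * ∑ i, gsP (fun h => b3 (gx g i) δ h) (fun h => b3 g δ h) M := by
  rw [gsH_eq, ← gsP_sum]
  simp only [b3_leib]

/-! ## The integrals -/

private theorem admG_gx {g : Fin 3 → ℝ → ℝ} (hg : AdmG g) (i : Fin 3) : AdmG (gx g i) := by
  intro j
  obtain ⟨h1, h2, h3⟩ := hg j
  by_cases hj : j = i
  · subst hj
    have e : gx g j j = fun x => x * g j x := by
      unfold gx
      rw [Function.update_self]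
    rw [e]
    refine ⟨continuous_id.mul h1, fun x hx => mul_nonneg hx (h2 x hx), fun x hx => ?_⟩
    show x * g j x = 0
    rw [h3 x hx, mul_zero]
  · rw [c3b_gx_ne g hj]
    exact ⟨h1, h2, h3⟩

private theorem pC_gx (g g' : Fin 3 → ℝ → ℝ) (i : Fin 3) (z : C15) :
    pC (gx g i) g' z = (∑ j, z.1 i j + z.2.1 i) * pC g g' z := by
  unfold pC
  have h : ∏ l, gx g i l (∑ j, z.1 l j + z.2.1 l) =
      (∑ j, z.1 i j + z.2.1 i) * ∏ l, g l (∑ j, z.1 l j + z.2.1 l) := by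
    rw [← Finset.mul_prod_erase Finset.univ _ (Finset.mem_univ i),
      ← Finset.mul_prod_erase Finset.univ (fun l => g l (∑ j, z.1 l j + z.2.1 l)) (Finset.mem_univ i)]
    have h1 : gx g i i (∑ j, z.1 i j + z.2.1 i) =
        (∑ j, z.1 i j + z.2.1 i) * g i (∑ j, z.1 i j + z.2.1 i) := by
      unfold gx
      rw [Function.update_self]
    have h2 : ∏ l ∈ Finset.univ.erase i, gx g i l (∑ j, z.1 l j + z.2.1 l) =
        ∏ l ∈ Finset.univ.erase i, g l (∑ j, z.1 l j + z.2.1 l) := by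
      refine Finset.prod_congr rfl fun l hl => ?_
      rw [c3b_gx_ne g (Finset.ne_of_mem_erase hl)]
    rw [h1, h2]
    ring
  rw [h]
  ring

private theorem CC_eq {f : ℝ → ℝ} (hf : AdmG (fun _ => f)) :
    2 * IBg (fun _ => f) (fun _ => f) 3 - 4 * IPg (fun _ => f) (fun _ => f) +
      2 * ∑ i, IPg (gx (fun _ => f) i) (fun _ => f) = CC f := by
  obtain ⟨i1, i2, i3⟩ := pC_int hf hf
  have e3 : ∀ i, IPg (gx (fun _ => f) i) (fun _ => f) =
      ∫ z : C15, (∑ j, z.1 i j + z.2.1 i) * (pC (fun _ => f) (fun _ => f) z * cC z) := by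
    intro i
    unfold IPg
    refine integral_congr_ae (Eventually.of_forall fun z => ?_)
    show pC (gx (fun _ => f) i) (fun _ => f) z * cC z =
      (∑ j, z.1 i j + z.2.1 i) * (pC (fun _ => f) (fun _ => f) z * cC z)
    rw [pC_gx]
    ring
  simp_rw [e3]
  rw [← integral_finsetSum _ fun i _ => i3 i]
  have j1 : Integrable (fun z : C15 =>
      2 * (pC (fun _ => f) (fun _ => f) z * (3 - 1 / 2 - sC z) * cC z) -
        4 * (pC (fun _ => f) (fun _ => f) z * cC z)) :=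
    ((i2 3).const_mul 2).sub (i1.const_mul 4)
  have j2 : Integrable (fun z : C15 =>
      2 * ∑ i, (∑ j, z.1 i j + z.2.1 i) * (pC (fun _ => f) (fun _ => f) z * cC z)) :=
    (integrable_finsetSum _ fun i _ => i3 i).const_mul 2
  unfold IBg IPg
  rw [← integral_const_mul, ← integral_const_mul, ← integral_const_mul,
    ← integral_sub ((i2 3).const_mul 2) (i1.const_mul 4), ← integral_add j1 j2]
  unfold CC
  refine integral_congr_ae (Eventually.of_forall fun z => ?_)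
  show 2 * (pC (fun _ => f) (fun _ => f) z * (3 - 1 / 2 - sC z) * cC z) -
      4 * (pC (fun _ => f) (fun _ => f) z * cC z) +
      2 * ∑ i, (∑ j, z.1 i j + z.2.1 i) * (pC (fun _ => f) (fun _ => f) z * cC z) =
    (∏ i, f (∑ j, z.1 i j + z.2.1 i)) * (∏ j, f (∑ i, z.1 i j + z.2.2 j)) *
      (1 - 2 * ∑ j, z.2.2 j) * cC z
  rw [← Finset.sum_mul, Finset.sum_add_distrib]
  unfold pC sC
  ring

theorem gsH_limit {f : ℝ → ℝ} (hf : AdmG (fun _ => f)) :
    Tendsto (fun δ : ℝ => δ ^ (21 / 4 : ℝ) * gsH (fun h => b3 (fun _ => f) δ h) (fun h => b3 (fun _ => f) δ h) (LibM3.MN δ) δ) (𝓝[>] 0)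
      (𝓝 (Aconst (5 / 2) * CC f)) := by
  obtain ⟨h1, h2⟩ := gs_limit hf hf
  have h3 : ∀ i : Fin 3, Tendsto (fun δ : ℝ => δ ^ (21 / 4 : ℝ) *
      gsP (fun h => b3 (gx (fun _ => f) i) δ h) (fun h => b3 (fun _ => f) δ h) (LibM3.MN δ)) (𝓝[>] 0)
      (𝓝 (Aconst (5 / 2) * IPg (gx (fun _ => f) i) (fun _ => f))) :=
    fun i => (gs_limit (admG_gx hf i) hf).2
  have h4 : Tendsto (fun δ : ℝ => 2 * (δ ^ (21 / 4 : ℝ) *
        gsB (fun h => b3 (fun _ => f) δ h) (fun h => b3 (fun _ => f) δ h) (LibM3.MN δ) 3 δ) -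
      4 * (δ ^ (21 / 4 : ℝ) *
        gsP (fun h => b3 (fun _ => f) δ h) (fun h => b3 (fun _ => f) δ h) (LibM3.MN δ)) +
      2 * ∑ i : Fin 3, δ ^ (21 / 4 : ℝ) *
        gsP (fun h => b3 (gx (fun _ => f) i) δ h) (fun h => b3 (fun _ => f) δ h) (LibM3.MN δ)) (𝓝[>] 0)
      (𝓝 (2 * (Aconst (5 / 2) * IBg (fun _ => f) (fun _ => f) 3) -
        4 * (Aconst (5 / 2) * IPg (fun _ => f) (fun _ => f)) +
        2 * ∑ i : Fin 3, Aconst (5 / 2) * IPg (gx (fun _ => f) i) (fun _ => f))) :=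
    (((h1 3 le_rfl).const_mul 2).sub (h2.const_mul 4)).add
      ((tendsto_finsetSum _ fun i _ => h3 i).const_mul 2)
  have e : 2 * (Aconst (5 / 2) * IBg (fun _ => f) (fun _ => f) 3) -
        4 * (Aconst (5 / 2) * IPg (fun _ => f) (fun _ => f)) +
        2 * ∑ i : Fin 3, Aconst (5 / 2) * IPg (gx (fun _ => f) i) (fun _ => f) =
      Aconst (5 / 2) * CC f := by
    rw [← CC_eq hf, ← Finset.mul_sum]
    ring
  rw [e] at h4
  refine h4.congr fun δ => ?_
  rw [gsH_b3, ← Finset.mul_sum]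
  ring

theorem gs_limit_T {f : ℝ → ℝ} (hf : AdmG (fun _ => f)) :
    Tendsto (fun T : ℝ => gsH (fun h => b3 (fun _ => f) (1 / Real.log T) h) (fun h => b3 (fun _ => f) (1 / Real.log T) h) ⌊T⌋₊
      (1 / Real.log T) / (Real.log T) ^ (21 / 4 : ℝ)) atTop (𝓝 (Aconst (5 / 2) * CC f)) ∧
    Tendsto (fun T : ℝ => gsP (fun h => b3 (fun _ => f) (1 / Real.log T) h) (fun h => b3 (fun _ => f) (1 / Real.log T) h) ⌊T⌋₊ /
      (Real.log T) ^ (21 / 4 : ℝ)) atTop (𝓝 (Aconst (5 / 2) * IPg (fun _ => f) (fun _ => f))) := by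
  have hlim : Tendsto (fun T : ℝ => 1 / Real.log T) atTop (𝓝[>] 0) := by
    have h1 : Tendsto (fun T : ℝ => (Real.log T)⁻¹) atTop (𝓝[>] 0) :=
      tendsto_inv_atTop_nhdsGT_zero.comp Real.tendsto_log_atTop
    refine h1.congr fun T => ?_
    rw [one_div]
  have hMN : ∀ T : ℝ, 1 < T → LibM3.MN (1 / Real.log T) = ⌊T⌋₊ := by
    intro T hT
    unfold LibM3.MN
    rw [one_div_one_div, Real.exp_log (by linarith)]
  have hpow : ∀ T : ℝ, 1 < T → ∀ X : ℝ,
      (1 / Real.log T) ^ (21 / 4 : ℝ) * X = X / (Real.log T) ^ (21 / 4 : ℝ) := by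
    intro T hT X
    rw [Real.div_rpow zero_le_one (Real.log_pos hT).le, Real.one_rpow]
    ring
  refine ⟨?_, ?_⟩
  · refine ((gsH_limit hf).comp hlim).congr' ?_
    filter_upwards [eventually_gt_atTop (1 : ℝ)] with T hT
    show (1 / Real.log T) ^ (21 / 4 : ℝ) * gsH _ _ (LibM3.MN (1 / Real.log T)) (1 / Real.log T) = _
    rw [hMN T hT, hpow T hT]
  · refine ((gs_limit hf hf).2.comp hlim).congr' ?_
    filter_upwards [eventually_gt_atTop (1 : ℝ)] with T hT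
    show (1 / Real.log T) ^ (21 / 4 : ℝ) * gsP _ _ (LibM3.MN (1 / Real.log T)) = _
    rw [hMN T hT, hpow T hT]

end Pool.Agent.LibFM89
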