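import Pool.Agent.LibFM89.CD

/-! # FM89 C4a: from the cutoff to the box, scaling (MEDIUM)

PLAN.  On the support of the integrand of `CC f` all cells are `> 0` and all row and column sums are `≤ 1/6`, so `∑_j c_j ≤ 1/2`,
`0 ≤ 1 - 2∑c ≤ 1`, and `f ≤ boxI (1/6)`: `CC f ≤ ∫ ∏ boxI (1/6) (R_i) ∏ boxI (1/6) (C_j) (1 - 2∑c) cC`.  Integrability of the right side:
`boxI (1/6) (R_i) ≤ exp(1/6) exp(-R_i)` for nonnegative argument... e.g. `≤ exp(1) ∏ exp(-cells)·cellρ`, `integrable_cell`,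
`Integrable.prod_mul`/`Integrable.fintype_prod` on the product space.  Scaling `z ↦ (1/6) z` (`Measure.integral_comp_smul` on the
15-dimensional space `C15`: `Module.finrank`, or coordinatewise; `cellρ_scale`: `cellρ w (l t) = l^(w-1) cellρ w t`):
total exponent `9/4 + 3/2 + 3/2 = 21/4`.  Template LibZM/MK6.lean `LG_box_scale`. -/

set_option autoImplicit false

namespace Pool.Agent.LibFM89

open MeasureTheory Set Filter Topology Complex ProbabilityTheory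
open scoped NNReal ComplexConjugate
open Pool.Agent.LibZM
open Pool.Agent.LibSM47 (gam ch idx)

/-- The box integral after scaling. -/
noncomputable def CB : ℝ :=
  ∫ z : C15, (∏ i, boxI 1 (∑ j, z.1 i j + z.2.1 i)) * (∏ j, boxI 1 (∑ i, z.1 i j + z.2.2 j)) *
    (1 - 1 / 3 * ∑ j, z.2.2 j) * cC z

/-! ### Auxiliary lemmas -/

private noncomputable def c4_box (θ : ℝ) (z : C15) : ℝ :=
  (∏ i, boxI θ (∑ j, z.1 i j + z.2.1 i)) * (∏ j, boxI θ (∑ i, z.1 i j + z.2.2 j))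

private lemma c4_cell_pos {w x : ℝ} (h : cellρ w x ≠ 0) : 0 < x := by
  by_contra hx
  apply h
  unfold cellρ
  exact indicator_of_notMem (by exact hx : x ∉ Ioi 0) _

private lemma c4_cC_nonneg (z : C15) : 0 ≤ cC z := by
  unfold cC
  exact mul_nonneg (mul_nonneg (Finset.prod_nonneg fun i _ => Finset.prod_nonneg fun j _ => cellρ_nonneg (by norm_num) _)
    (Finset.prod_nonneg fun i _ => cellρ_nonneg (by norm_num) _)) (Finset.prod_nonneg fun i _ => cellρ_nonneg (by norm_num) _)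

private lemma c4_pos {z : C15} (h : cC z ≠ 0) : (∀ i j, 0 < z.1 i j) ∧ (∀ i, 0 < z.2.1 i) ∧ ∀ j, 0 < z.2.2 j := by
  unfold cC at h
  have h1 := left_ne_zero_of_mul h
  have h2 := right_ne_zero_of_mul h
  have h3 := left_ne_zero_of_mul h1
  have h4 := right_ne_zero_of_mul h1
  refine ⟨fun i j => ?_, fun i => ?_, fun j => ?_⟩
  · exact c4_cell_pos (Finset.prod_ne_zero_iff.mp (Finset.prod_ne_zero_iff.mp h3 i (Finset.mem_univ i)) j (Finset.mem_univ j))
  · exact c4_cell_pos (Finset.prod_ne_zero_iff.mp h4 i (Finset.mem_univ i))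
  · exact c4_cell_pos (Finset.prod_ne_zero_iff.mp h2 j (Finset.mem_univ j))

private lemma c4_box_nonneg (θ : ℝ) (z : C15) : 0 ≤ c4_box θ z := by
  unfold c4_box
  exact mul_nonneg (Finset.prod_nonneg fun i _ => boxI_nonneg _ _) (Finset.prod_nonneg fun i _ => boxI_nonneg _ _)

private lemma c4_box_ne {θ : ℝ} {z : C15} (h : c4_box θ z ≠ 0) :
    (∀ i, ∑ j, z.1 i j + z.2.1 i ≤ θ) ∧ ∀ j, ∑ i, z.1 i j + z.2.2 j ≤ θ := by
  unfold c4_box at h
  have h1 := left_ne_zero_of_mul h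
  have h2 := right_ne_zero_of_mul h
  have key : ∀ x, boxI θ x ≠ 0 → x ≤ θ := by
    intro x hx
    by_contra hc
    apply hx
    unfold boxI
    rw [if_neg hc]
  exact ⟨fun i => key _ (Finset.prod_ne_zero_iff.mp h1 i (Finset.mem_univ i)),
    fun j => key _ (Finset.prod_ne_zero_iff.mp h2 j (Finset.mem_univ j))⟩

private lemma c4_box_one {θ : ℝ} {z : C15} (h1 : ∀ i, ∑ j, z.1 i j + z.2.1 i ≤ θ) (h2 : ∀ j, ∑ i, z.1 i j + z.2.2 j ≤ θ) :
    c4_box θ z = 1 := by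
  unfold c4_box boxI
  rw [Finset.prod_eq_one fun i _ => if_pos (h1 i), Finset.prod_eq_one fun j _ => if_pos (h2 j), mul_one]

private lemma c4_c_le {θ : ℝ} {z : C15} (hz : ∀ i j, 0 < z.1 i j) (h2 : ∀ j, ∑ i, z.1 i j + z.2.2 j ≤ θ) (j : Fin 3) :
    z.2.2 j ≤ θ := by
  have h3 : 0 ≤ ∑ i, z.1 i j := Finset.sum_nonneg fun i _ => (hz i j).le
  linarith [h2 j]

private noncomputable def c4_E (z : C15) : ℝ :=
  (∏ i, ∏ j, (Real.exp (-(1 * z.1 i j)) * cellρ (1 / 4) (z.1 i j))) *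
    ((∏ i, (Real.exp (-(1 * z.2.1 i)) * cellρ (1 / 2) (z.2.1 i))) *
      ∏ j, (Real.exp (-(1 * z.2.2 j)) * cellρ (1 / 2) (z.2.2 j)))

private lemma c4_E_int : Integrable c4_E := by
  have h1 : Integrable (fun y : Fin 3 → Fin 3 → ℝ => ∏ i, ∏ j, (Real.exp (-(1 * y i j)) * cellρ (1 / 4) (y i j))) :=
    Integrable.fintype_prod (f := fun (_ : Fin 3) (v : Fin 3 → ℝ) => ∏ j, (Real.exp (-(1 * v j)) * cellρ (1 / 4) (v j)))
      fun _ => Integrable.fintype_prod (f := fun (_ : Fin 3) (t : ℝ) => Real.exp (-(1 * t)) * cellρ (1 / 4) t)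
        fun _ => integrable_cell (by norm_num) one_pos
  have h2 : Integrable (fun v : Fin 3 → ℝ => ∏ i, (Real.exp (-(1 * v i)) * cellρ (1 / 2) (v i))) :=
    Integrable.fintype_prod (f := fun (_ : Fin 3) (t : ℝ) => Real.exp (-(1 * t)) * cellρ (1 / 2) t)
      fun _ => integrable_cell (by norm_num) one_pos
  exact h1.mul_prod (h2.mul_prod h2)

private lemma c4_E_eq (z : C15) : c4_E z = Real.exp (-(∑ i, ∑ j, z.1 i j + (∑ i, z.2.1 i + ∑ j, z.2.2 j))) * cC z := by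
  unfold c4_E cC
  simp only [one_mul, Finset.prod_mul_distrib]
  rw [show (∏ i, ∏ j, Real.exp (-(z.1 i j))) = Real.exp (-(∑ i, ∑ j, z.1 i j)) by
      rw [← Finset.sum_neg_distrib, Real.exp_sum]
      refine Finset.prod_congr rfl fun i _ => ?_
      rw [← Finset.sum_neg_distrib, Real.exp_sum],
    show (∏ i, Real.exp (-(z.2.1 i))) = Real.exp (-(∑ i, z.2.1 i)) by
      rw [← Finset.sum_neg_distrib, Real.exp_sum],
    show (∏ i, Real.exp (-(z.2.2 i))) = Real.exp (-(∑ i, z.2.2 i)) by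
      rw [← Finset.sum_neg_distrib, Real.exp_sum], neg_add, neg_add, Real.exp_add, Real.exp_add]
  ring

private lemma c4_bound (z : C15) : c4_box 1 z * cC z ≤ Real.exp 6 * c4_E z := by
  rw [c4_E_eq]
  by_cases hc : cC z = 0
  · rw [hc]
    simp
  by_cases hb : c4_box 1 z = 0
  · rw [hb, zero_mul]
    have := c4_cC_nonneg z
    positivity
  obtain ⟨p1, p2, p3⟩ := c4_pos hc
  obtain ⟨b1, b2⟩ := c4_box_ne hb
  rw [c4_box_one b1 b2, ← mul_assoc, ← Real.exp_add]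
  apply mul_le_mul_of_nonneg_right _ (c4_cC_nonneg z)
  apply Real.one_le_exp
  have s1 : ∑ i, (∑ j, z.1 i j + z.2.1 i) ≤ ∑ i : Fin 3, (1 : ℝ) := Finset.sum_le_sum fun i _ => b1 i
  have s2 : ∑ j, z.2.2 j ≤ ∑ j : Fin 3, (1 : ℝ) := Finset.sum_le_sum fun j _ => c4_c_le p1 b2 j
  rw [Finset.sum_add_distrib] at s1
  simp only [Finset.sum_const, Finset.card_univ, Fintype.card_fin, nsmul_eq_mul, mul_one] at s1 s2
  push_cast at s1 s2
  linarith

private lemma c4_m1 (i j : Fin 3) : Measurable fun z : C15 => z.1 i j :=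
  (measurable_pi_apply j).comp ((measurable_pi_apply i).comp measurable_fst)
private lemma c4_m2 (i : Fin 3) : Measurable fun z : C15 => z.2.1 i :=
  (measurable_pi_apply i).comp (measurable_fst.comp measurable_snd)
private lemma c4_m3 (i : Fin 3) : Measurable fun z : C15 => z.2.2 i :=
  (measurable_pi_apply i).comp (measurable_snd.comp measurable_snd)

private lemma c4_mR (i : Fin 3) : Measurable fun z : C15 => ∑ j, z.1 i j + z.2.1 i :=
  (Finset.measurable_sum _ fun j _ => c4_m1 i j).add (c4_m2 i)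
private lemma c4_mC (j : Fin 3) : Measurable fun z : C15 => ∑ i, z.1 i j + z.2.2 j :=
  (Finset.measurable_sum _ fun i _ => c4_m1 i j).add (c4_m3 j)

private lemma c4_mcC : Measurable cC := by
  unfold cC
  refine Measurable.mul (Measurable.mul ?_ ?_) ?_
  · exact Finset.measurable_prod _ fun i _ => Finset.measurable_prod _ fun j _ => (measurable_cellρ _).comp (c4_m1 i j)
  · exact Finset.measurable_prod _ fun i _ => (measurable_cellρ _).comp (c4_m2 i)
  · exact Finset.measurable_prod _ fun i _ => (measurable_cellρ _).comp (c4_m3 i)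

private lemma c4_mbox (θ : ℝ) : Measurable (c4_box θ) := by
  unfold c4_box
  refine Measurable.mul ?_ ?_
  · exact Finset.measurable_prod _ fun i _ => (measurable_boxI θ).comp (c4_mR i)
  · exact Finset.measurable_prod _ fun j _ => (measurable_boxI θ).comp (c4_mC j)

private lemma c4_msum : Measurable fun z : C15 => ∑ j, z.2.2 j := Finset.measurable_sum _ fun j _ => c4_m3 j

private lemma c4_int {F : C15 → ℝ} (hF : Measurable F) (h : ∀ z, |F z| ≤ c4_box 1 z * cC z) : Integrable F := by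
  refine Integrable.mono' (c4_E_int.const_mul (Real.exp 6)) hF.aestronglyMeasurable (Eventually.of_forall fun z => ?_)
  rw [Real.norm_eq_abs]
  exact (h z).trans (c4_bound z)

/-- the weighted box integrand -/
private noncomputable def c4_G (θ κ : ℝ) (z : C15) : ℝ := c4_box θ z * (1 - κ * ∑ j, z.2.2 j) * cC z

private lemma c4_G_bound {θ κ : ℝ} (hθ : θ ≤ 1) (hκ : 0 ≤ κ) (hκθ : κ * (3 * θ) ≤ 1) (z : C15) :
    0 ≤ c4_G θ κ z ∧ |c4_G θ κ z| ≤ c4_box 1 z * cC z := by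
  have hc0 := c4_cC_nonneg z
  have hb0 := c4_box_nonneg 1 z
  unfold c4_G
  by_cases hc : cC z = 0
  · rw [hc]
    simp
  by_cases hb : c4_box θ z = 0
  · rw [hb, zero_mul, zero_mul, abs_zero]
    exact ⟨le_rfl, mul_nonneg hb0 hc0⟩
  obtain ⟨p1, p2, p3⟩ := c4_pos hc
  obtain ⟨b1, b2⟩ := c4_box_ne hb
  have s2 : ∑ j, z.2.2 j ≤ ∑ j : Fin 3, θ := Finset.sum_le_sum fun j _ => c4_c_le p1 b2 j
  simp only [Finset.sum_const, Finset.card_univ, Fintype.card_fin, nsmul_eq_mul] at s2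
  push_cast at s2
  have s3 : 0 ≤ ∑ j, z.2.2 j := Finset.sum_nonneg fun j _ => (p3 j).le
  have h1 : 0 ≤ 1 - κ * ∑ j, z.2.2 j := by
    have : κ * ∑ j, z.2.2 j ≤ κ * (3 * θ) := mul_le_mul_of_nonneg_left s2 hκ
    linarith
  have h2 : 1 - κ * ∑ j, z.2.2 j ≤ 1 := by
    have := mul_nonneg hκ s3
    linarith
  rw [c4_box_one b1 b2, c4_box_one (fun i => (b1 i).trans hθ) (fun j => (b2 j).trans hθ), one_mul, one_mul]
  have h3 : 0 ≤ (1 - κ * ∑ j, z.2.2 j) * cC z := mul_nonneg h1 hc0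
  refine ⟨h3, ?_⟩
  rw [abs_of_nonneg h3]
  calc (1 - κ * ∑ j, z.2.2 j) * cC z ≤ 1 * cC z := mul_le_mul_of_nonneg_right h2 hc0
    _ = cC z := one_mul _

private lemma c4_G_meas (θ κ : ℝ) : Measurable (c4_G θ κ) :=
  ((c4_mbox θ).mul (measurable_const.sub (c4_msum.const_mul κ))).mul c4_mcC

private lemma c4_G_int {θ κ : ℝ} (hθ : θ ≤ 1) (hκ : 0 ≤ κ) (hκθ : κ * (3 * θ) ≤ 1) : Integrable (c4_G θ κ) :=
  c4_int (c4_G_meas θ κ) fun z => (c4_G_bound hθ hκ hκθ z).2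

private theorem c4_haar1 : (volume : Measure (Fin 3 → Fin 3 → ℝ)).IsAddHaarMeasure :=
  Measure.pi.isAddHaarMeasure (fun _ : Fin 3 => (volume : Measure (Fin 3 → ℝ)))

private theorem c4_haar2 : (volume : Measure ((Fin 3 → ℝ) × (Fin 3 → ℝ))).IsAddHaarMeasure :=
  Measure.prod.instIsAddHaarMeasure (volume : Measure (Fin 3 → ℝ)) (volume : Measure (Fin 3 → ℝ))

private theorem c4_haar : (volume : Measure C15).IsAddHaarMeasure := by
  have h1 := c4_haar1
  have h2 := c4_haar2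
  exact Measure.prod.instIsAddHaarMeasure (volume : Measure (Fin 3 → Fin 3 → ℝ)) (volume : Measure ((Fin 3 → ℝ) × (Fin 3 → ℝ)))

private lemma c4_cC_scale {l : ℝ} (hl : 0 < l) (z : C15) :
    cC (l • z) = l ^ (21 / 4 : ℝ) * (l ^ 15)⁻¹ * cC z := by
  have e1 : ∀ i j, (l • z).1 i j = l * z.1 i j := fun i j => rfl
  have e2 : ∀ i, (l • z).2.1 i = l * z.2.1 i := fun i => rfl
  have e3 : ∀ i, (l • z).2.2 i = l * z.2.2 i := fun i => rfl
  unfold cC
  simp only [e1, e2, e3, cellρ_scale hl, Finset.prod_mul_distrib, Finset.prod_const, Finset.card_univ, Fintype.card_fin]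
  have e4 : ((l ^ ((1 : ℝ) / 4 - 1)) ^ 3) ^ 3 * (l ^ ((1 : ℝ) / 2 - 1)) ^ 3 * (l ^ ((1 : ℝ) / 2 - 1)) ^ 3 =
      l ^ (21 / 4 : ℝ) * (l ^ 15)⁻¹ := by
    rw [← Real.rpow_natCast, ← Real.rpow_natCast, ← Real.rpow_natCast, ← Real.rpow_natCast, ← Real.rpow_mul hl.le,
      ← Real.rpow_mul hl.le, ← Real.rpow_mul hl.le, ← Real.rpow_add hl, ← Real.rpow_add hl, ← Real.rpow_neg hl.le,
      ← Real.rpow_add hl]
    norm_num
  rw [← e4]
  ring

private lemma c4_box_scale {l : ℝ} (hl : 0 < l) (z : C15) : c4_box l (l • z) = c4_box 1 z := by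
  have key : ∀ x, boxI l (l * x) = boxI 1 x := by
    intro x
    have := boxI_scale hl 1 x
    rw [mul_one] at this
    exact this
  unfold c4_box
  have e1 : ∀ i, ∑ j, (l • z).1 i j + (l • z).2.1 i = l * (∑ j, z.1 i j + z.2.1 i) := by
    intro i
    rw [mul_add, Finset.mul_sum]
    rfl
  have e2 : ∀ j, ∑ i, (l • z).1 i j + (l • z).2.2 j = l * (∑ i, z.1 i j + z.2.2 j) := by
    intro j
    rw [mul_add, Finset.mul_sum]
    rfl
  simp only [e1, e2, key]

private lemma c4_scale {l : ℝ} (hl : 0 < l) (κ : ℝ) :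
    ∫ z, c4_G l κ z = l ^ (21 / 4 : ℝ) * ∫ z, c4_G 1 (κ * l) z := by
  have hh := c4_haar
  have h := Measure.integral_comp_smul (volume : Measure C15) (c4_G l κ) l
  have hdim : Module.finrank ℝ C15 = 15 := by simp [Module.finrank_prod, Module.finrank_pi_fintype]
  rw [hdim] at h
  have hpos : 0 < l ^ 15 := by positivity
  rw [abs_of_pos (inv_pos.mpr hpos), smul_eq_mul] at h
  have h2 : ∀ z : C15, c4_G l κ (l • z) = (l ^ 15)⁻¹ * (l ^ (21 / 4 : ℝ) * c4_G 1 (κ * l) z) := by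
    intro z
    unfold c4_G
    rw [c4_cC_scale hl, c4_box_scale hl]
    have e3 : ∑ j, (l • z).2.2 j = l * ∑ j, z.2.2 j := by
      rw [Finset.mul_sum]
      rfl
    rw [e3]
    ring
  simp_rw [h2] at h
  rw [integral_const_mul, integral_const_mul] at h
  exact (mul_left_cancel₀ (inv_pos.mpr hpos).ne' h).symm

theorem CC_le_CB {f : ℝ → ℝ} (hf : Continuous f) (h01 : ∀ x, 0 ≤ f x ∧ f x ≤ 1) (h6 : ∀ x, f x ≠ 0 → x ≤ 1 / 6) :
    CC f ≤ (1 / 6) ^ (21 / 4 : ℝ) * CB := by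
  have hG := c4_scale (l := 1 / 6) (by norm_num) 2
  have hCB : CB = ∫ z, c4_G 1 (2 * (1 / 6)) z := by
    unfold CB c4_G c4_box
    norm_num
  rw [hCB, ← hG]
  have hint : Integrable (c4_G (1 / 6) 2) := c4_G_int (by norm_num) (by norm_num) (by norm_num)
  have key : ∀ z : C15, 0 ≤ (∏ i, f (∑ j, z.1 i j + z.2.1 i)) * (∏ j, f (∑ i, z.1 i j + z.2.2 j)) *
      (1 - 2 * ∑ j, z.2.2 j) * cC z ∧
      (∏ i, f (∑ j, z.1 i j + z.2.1 i)) * (∏ j, f (∑ i, z.1 i j + z.2.2 j)) *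
      (1 - 2 * ∑ j, z.2.2 j) * cC z ≤ c4_G (1 / 6) 2 z := by
    intro z
    have hG0 := (c4_G_bound (θ := 1 / 6) (κ := 2) (by norm_num) (by norm_num) (by norm_num) z).1
    have hc0 := c4_cC_nonneg z
    by_cases hb : (∀ i, ∑ j, z.1 i j + z.2.1 i ≤ 1 / 6) ∧ ∀ j, ∑ i, z.1 i j + z.2.2 j ≤ 1 / 6
    · unfold c4_G at hG0 ⊢
      rw [c4_box_one hb.1 hb.2, one_mul] at hG0 ⊢
      have f1 : 0 ≤ ∏ i, f (∑ j, z.1 i j + z.2.1 i) := Finset.prod_nonneg fun i _ => (h01 _).1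
      have f2 : ∏ i, f (∑ j, z.1 i j + z.2.1 i) ≤ 1 := Finset.prod_le_one (fun i _ => (h01 _).1) fun i _ => (h01 _).2
      have f3 : 0 ≤ ∏ j, f (∑ i, z.1 i j + z.2.2 j) := Finset.prod_nonneg fun i _ => (h01 _).1
      have f4 : ∏ j, f (∑ i, z.1 i j + z.2.2 j) ≤ 1 := Finset.prod_le_one (fun i _ => (h01 _).1) fun i _ => (h01 _).2
      have f5 : 0 ≤ (∏ i, f (∑ j, z.1 i j + z.2.1 i)) * (∏ j, f (∑ i, z.1 i j + z.2.2 j)) := mul_nonneg f1 f3
      have f6 : (∏ i, f (∑ j, z.1 i j + z.2.1 i)) * (∏ j, f (∑ i, z.1 i j + z.2.2 j)) ≤ 1 := by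
        calc _ ≤ (1 : ℝ) * 1 := mul_le_mul f2 f4 f3 zero_le_one
          _ = 1 := one_mul 1
      rw [mul_assoc]
      refine ⟨mul_nonneg f5 hG0, ?_⟩
      calc _ ≤ 1 * ((1 - 2 * ∑ j, z.2.2 j) * cC z) := mul_le_mul_of_nonneg_right f6 hG0
        _ = _ := one_mul _
    · have hz : (∏ i, f (∑ j, z.1 i j + z.2.1 i)) * (∏ j, f (∑ i, z.1 i j + z.2.2 j)) = 0 := by
        have hf0 : ∀ x, ¬ x ≤ 1 / 6 → f x = 0 := by
          intro x hx
          by_contra hc
          exact hx (h6 x hc)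
        by_cases hb1 : ∀ i, ∑ j, z.1 i j + z.2.1 i ≤ 1 / 6
        · have hb2 : ¬ ∀ j, ∑ i, z.1 i j + z.2.2 j ≤ 1 / 6 := fun h => hb ⟨hb1, h⟩
          obtain ⟨j, hj⟩ := not_forall.1 hb2
          rw [Finset.prod_eq_zero (s := Finset.univ) (f := fun j => f (∑ i, z.1 i j + z.2.2 j)) (Finset.mem_univ j)
            (hf0 _ hj), mul_zero]
        · obtain ⟨i, hi⟩ := not_forall.1 hb1
          rw [Finset.prod_eq_zero (s := Finset.univ) (f := fun i => f (∑ j, z.1 i j + z.2.1 i)) (Finset.mem_univ i)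
            (hf0 _ hi), zero_mul]
      rw [hz, zero_mul, zero_mul]
      exact ⟨le_rfl, hG0⟩
  unfold CC
  exact integral_mono_of_nonneg (Eventually.of_forall fun z => (key z).1) hint (Eventually.of_forall fun z => (key z).2)

/-- Integrability of the box integrands. -/
theorem CB_int : Integrable (fun z : C15 => (∏ i, boxI 1 (∑ j, z.1 i j + z.2.1 i)) * (∏ j, boxI 1 (∑ i, z.1 i j + z.2.2 j)) * cC z) ∧
    Integrable (fun z : C15 => (∏ i, boxI 1 (∑ j, z.1 i j + z.2.1 i)) * (∏ j, boxI 1 (∑ i, z.1 i j + z.2.2 j)) *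
      (1 - 1 / 3 * ∑ j, z.2.2 j) * cC z) := by
  constructor
  · have h : Integrable (fun z : C15 => c4_box 1 z * cC z) :=
      c4_int ((c4_mbox 1).mul c4_mcC) fun z => by
        rw [abs_of_nonneg (mul_nonneg (c4_box_nonneg 1 z) (c4_cC_nonneg z))]
    exact h
  · exact c4_G_int (θ := 1) (κ := 1 / 3) le_rfl (by norm_num) (by norm_num)

end Pool.Agent.LibFM89
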