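import Pool.Agent.LibFM89.C1b
import Pool.Agent.LibFM89.C3b
import Pool.Agent.LibFM89.A5

/-! # FM89 C5: upper bound for C2 (SHORT/MEDIUM)

PLAN.  `C2_upper`, `gs_limit_T` (`AdmF ε f` gives `AdmG (fun _ => f)` because `f x ≠ 0 → x ≤ 1/6 - ε < 1/6`), `CC_le`, `Aconst (5/2) > 0`
(`LibZM.Aconst_pos`). -/

set_option autoImplicit false

namespace Pool.Agent.LibFM89

open MeasureTheory Set Filter Topology Complex ProbabilityTheory
open scoped NNReal ComplexConjugate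
open Pool.Agent.LibZM
open Pool.Agent.LibSM47 (gam ch idx)

theorem C2_le {ε ε₁ δ : ℝ} (hε : 0 < ε) (hε' : ε ≤ 1 / 100) (hε1 : 0 < ε₁) (hδ : 0 < δ) (hδ1 : δ ≤ ε / 16)
    {f : ℝ → ℝ} (hf : AdmF ε f) (θ : ℝ) (hθ : 0 < θ) :
    ∃ T₀ : ℝ, ∀ T : ℝ, T₀ ≤ T → ∀ u : ℝ, ε₁ * T ≤ u → u ≤ T →
      C2 f T (T ^ (1 - δ)) u ≤ (Aconst (5 / 2) * cval + θ) * (Real.log T) ^ (25 / 4 : ℝ) := by
  have hG : AdmG (fun _ => f) := by
    intro i
    refine ⟨hf.1, fun x _ => (hf.2.1 x).1, fun x hx => ?_⟩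
    by_contra h
    have := hf.2.2 x h
    linarith
  obtain ⟨C, T₁, hC, h1⟩ := C2_upper hε hε' hε1 hδ hδ1 hf
  obtain ⟨hA, hB⟩ := gs_limit_T hG
  have hCC : CC f ≤ cval := CC_le hf.1 hf.2.1 (fun x hx => by
    have := hf.2.2 x hx
    linarith)
  have hA0 : 0 < Aconst (5 / 2) := Aconst_pos (by norm_num)
  set K : ℝ := Aconst (5 / 2) * IPg (fun _ => f) (fun _ => f) with hK
  have hlog : Tendsto Real.log atTop atTop := Real.tendsto_log_atTop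
  have e1 := hA.eventually (gt_mem_nhds (show Aconst (5 / 2) * CC f < Aconst (5 / 2) * CC f + θ / 2 by linarith))
  have e2 := hB.eventually (gt_mem_nhds (show K < K + 1 by linarith))
  have e3 := hlog.eventually (eventually_ge_atTop (max 1 (4 / θ * (C * (|K| + 1) + 1))))
  have e4 := eventually_ge_atTop T₁
  obtain ⟨T₀, hT₀⟩ := Filter.eventually_atTop.1 (((e1.and e2).and e3).and e4)
  refine ⟨T₀, fun T hT u hu1 hu2 => ?_⟩
  obtain ⟨⟨⟨f1, f2⟩, f3⟩, f4⟩ := hT₀ T hT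
  have hL1 : (1 : ℝ) ≤ Real.log T := (le_max_left _ _).trans f3
  have hL2 : 4 / θ * (C * (|K| + 1) + 1) ≤ Real.log T := (le_max_right _ _).trans f3
  set L := Real.log T with hL
  have hL0 : 0 < L := by linarith
  have hP : 0 < L ^ (21 / 4 : ℝ) := Real.rpow_pos_of_pos hL0 _
  have hP1 : 1 ≤ L ^ (21 / 4 : ℝ) := Real.one_le_rpow hL1 (by norm_num)
  have hPP : L ^ (25 / 4 : ℝ) = L * L ^ (21 / 4 : ℝ) := by
    rw [show (25 / 4 : ℝ) = 1 + 21 / 4 by norm_num, Real.rpow_add hL0, Real.rpow_one]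
  have g1 : gsH (fun h => b3 (fun _ => f) (1 / L) h) (fun h => b3 (fun _ => f) (1 / L) h) ⌊T⌋₊ (1 / L) ≤
      (Aconst (5 / 2) * CC f + θ / 2) * L ^ (21 / 4 : ℝ) := ((div_lt_iff₀ hP).1 f1).le
  have g2 : gsP (fun h => b3 (fun _ => f) (1 / L) h) (fun h => b3 (fun _ => f) (1 / L) h) ⌊T⌋₊ ≤
      (K + 1) * L ^ (21 / 4 : ℝ) := ((div_lt_iff₀ hP).1 f2).le
  have g3 : (K + 1) * L ^ (21 / 4 : ℝ) ≤ (|K| + 1) * L ^ (21 / 4 : ℝ) :=
    mul_le_mul_of_nonneg_right (by linarith [le_abs_self K]) hP.le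
  have hK0 : 0 ≤ |K| := abs_nonneg K
  have g4 : C * ((|K| + 1) * L ^ (21 / 4 : ℝ)) + 1 ≤ (C * (|K| + 1) + 1) * L ^ (21 / 4 : ℝ) := by
    nlinarith
  have g5 : (C * (|K| + 1) + 1) ≤ θ / 4 * L := by
    have h5 : 4 / θ * (C * (|K| + 1) + 1) * (θ / 4) ≤ L * (θ / 4) :=
      mul_le_mul_of_nonneg_right hL2 (by positivity)
    have h6 : 4 / θ * (C * (|K| + 1) + 1) * (θ / 4) = C * (|K| + 1) + 1 := by
      field_simp
    rw [h6] at h5
    linarith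
  have g6 : (C * (|K| + 1) + 1) * L ^ (21 / 4 : ℝ) ≤ θ / 4 * L * L ^ (21 / 4 : ℝ) :=
    mul_le_mul_of_nonneg_right g5 hP.le
  have g7 : Aconst (5 / 2) * CC f ≤ Aconst (5 / 2) * cval := mul_le_mul_of_nonneg_left hCC hA0.le
  have hLP : 0 < L * L ^ (21 / 4 : ℝ) := mul_pos hL0 hP
  calc C2 f T (T ^ (1 - δ)) u
      ≤ L * gsH (fun h => b3 (fun _ => f) (1 / L) h) (fun h => b3 (fun _ => f) (1 / L) h) ⌊T⌋₊ (1 / L) +
        C * gsP (fun h => b3 (fun _ => f) (1 / L) h) (fun h => b3 (fun _ => f) (1 / L) h) ⌊T⌋₊ + 1 :=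
        h1 T f4 u hu1 hu2
    _ ≤ L * ((Aconst (5 / 2) * CC f + θ / 2) * L ^ (21 / 4 : ℝ)) +
        C * ((|K| + 1) * L ^ (21 / 4 : ℝ)) + 1 := by
        have a1 := mul_le_mul_of_nonneg_left g1 hL0.le
        have a2 := mul_le_mul_of_nonneg_left (g2.trans g3) hC.le
        linarith
    _ ≤ L * ((Aconst (5 / 2) * CC f + θ / 2) * L ^ (21 / 4 : ℝ)) + θ / 4 * L * L ^ (21 / 4 : ℝ) := by
        linarith
    _ = (Aconst (5 / 2) * CC f + 3 * θ / 4) * (L * L ^ (21 / 4 : ℝ)) := by ring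
    _ ≤ (Aconst (5 / 2) * cval + θ) * (L * L ^ (21 / 4 : ℝ)) :=
        mul_le_mul_of_nonneg_right (by linarith) hLP.le
    _ = (Aconst (5 / 2) * cval + θ) * L ^ (25 / 4 : ℝ) := by rw [hPP]

end Pool.Agent.LibFM89
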