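import Pool.Agent.LibFM89.Defs
import Pool.Agent.LibM3.LDefs

/-! # FM89: definitions for the upper bound of `∫ |ζ|²|P|⁶` (blocks C, A) -/

set_option autoImplicit false

namespace Pool.Agent.LibFM89

open MeasureTheory Set Filter Topology Complex ProbabilityTheory
open scoped NNReal ComplexConjugate
open Pool.Agent.LibZM
open Pool.Agent.LibSM47 (gam ch idx)

/-- `b(h) = ∑_{l₁l₂l₃ = h} ∏ d_{1/2}(l_i) g_i(δ log l_i)`. -/
noncomputable def b3 (g : Fin 3 → ℝ → ℝ) (δ : ℝ) : ArithmeticFunction ℝ := cfg (fun _ : Fin 3 => (1 / 2 : ℝ)) g δ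

/-- `g_i` replaced by `x g_i(x)`. -/
noncomputable def gx (g : Fin 3 → ℝ → ℝ) (i : Fin 3) : Fin 3 → ℝ → ℝ := Function.update g i (fun x => x * g i x)

/-- The plain form `∑ F(h) F'(k) (h,k)/(hk)`. -/
noncomputable def gsP (F F' : ℕ → ℝ) (M : ℕ) : ℝ :=
  ∑ h ∈ Finset.Icc 1 M, ∑ k ∈ Finset.Icc 1 M, F h * F' k * ((Nat.gcd h k : ℝ) / ((h : ℝ) * k))

/-- The same with weight `b - 1/2 - δ log [h,k]`. -/
noncomputable def gsB (F F' : ℕ → ℝ) (M : ℕ) (b δ : ℝ) : ℝ :=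
  ∑ h ∈ Finset.Icc 1 M, ∑ k ∈ Finset.Icc 1 M, F h * F' k * ((Nat.gcd h k : ℝ) / ((h : ℝ) * k)) *
    (b - 1 / 2 - δ * (Real.log h + Real.log k - Real.log (Nat.gcd h k)))

/-- The same with weight `1 - δ log (hk/(h,k)²)`. -/
noncomputable def gsH (F F' : ℕ → ℝ) (M : ℕ) (δ : ℝ) : ℝ :=
  ∑ h ∈ Finset.Icc 1 M, ∑ k ∈ Finset.Icc 1 M, F h * F' k * ((Nat.gcd h k : ℝ) / ((h : ℝ) * k)) *
    (1 - δ * (Real.log h + Real.log k - 2 * Real.log (Nat.gcd h k)))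

/-- The unfolded sum. -/
noncomputable def SBg (F F' : ℕ → ℝ) (b δ : ℝ) : ℝ :=
  ∑' q : ℕ, (∑ h ∈ q.divisors, F h) * (∑ k ∈ q.divisors, F' k) * LibM3.omb b (δ * Real.log q) * (q : ℝ)⁻¹

/-- Exponents. -/
noncomputable def al4 : Fin 4 → ℝ := ![1, 1 / 2, 1 / 2, 1 / 2]

/-- Product of the cutoffs over the fifteen cells. -/
noncomputable def pC (g g' : Fin 3 → ℝ → ℝ) (z : C15) : ℝ :=
  (∏ i, g i (∑ j, z.1 i j + z.2.1 i)) * ∏ j, g' j (∑ i, z.1 i j + z.2.2 j)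

/-- Sum of the fifteen cells. -/
noncomputable def sC (z : C15) : ℝ := (∑ i, ∑ j, z.1 i j) + ∑ i, z.2.1 i + ∑ j, z.2.2 j

/-- Limit of the weighted form. -/
noncomputable def IBg (g g' : Fin 3 → ℝ → ℝ) (b : ℝ) : ℝ := ∫ z : C15, pC g g' z * (b - 1 / 2 - sC z) * cC z

/-- Limit of the plain form. -/
noncomputable def IPg (g g' : Fin 3 → ℝ → ℝ) : ℝ := ∫ z : C15, pC g g' z * cC z

/-- Admissible weights. -/
def AdmG (g : Fin 3 → ℝ → ℝ) : Prop := ∀ i, Continuous (g i) ∧ (∀ x, 0 ≤ x → 0 ≤ g i x) ∧ ∀ x, 1 / 6 ≤ x → g i x = 0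

/-! ## The negative association bound -/

/-- Density of one row of the matrix: `(1-∑y)^(1/2)/Γ(3/2) ∏ y_j^(-3/4)/Γ(1/4)`. -/
noncomputable def aF (y : Fin 3 → ℝ) : ℝ := cellρ (3 / 2) (1 - ∑ j, y j) * ∏ j, cellρ (1 / 4) (y j)

/-- The function of a column sum: `(1-S)^(1/2)/Γ(3/2) (1 + S/6)`. -/
noncomputable def gC (S : ℝ) : ℝ := cellρ (3 / 2) (1 - max S 0) * (1 + max S 0 / 6)

/-- Density of one entry. -/
noncomputable def aphi (z : ℝ) : ℝ := cellρ (1 / 4) z * max (1 - z) 0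

/-- Density of the two other entries of the row after scaling. -/
noncomputable def ag (w : Fin 2 → ℝ) : ℝ := cellρ (3 / 2) (1 - ∑ l, w l) * ∏ l, cellρ (1 / 4) (w l)

noncomputable def anu : Measure ℝ := volume.withDensity fun z => ENNReal.ofReal (aphi z)

noncomputable def asig : Measure (Fin 2 → ℝ) := volume.withDensity fun w => ENNReal.ofReal (ag w)

noncomputable def arho : Measure (Fin 3 → ℝ) := volume.withDensity fun y => ENNReal.ofReal (aF y)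

/-- The parametrisation of one row. -/
noncomputable def aT (j : Fin 3) (p : ℝ × (Fin 2 → ℝ)) : Fin 3 → ℝ := j.insertNth (α := fun _ => ℝ) p.1 ((1 - p.1) • p.2)

/-- The integral to be bounded: `∫ ∏_l gC(∑_i y_{il})`. -/
noncomputable def W3 : ℝ := ∫ y : Fin 3 → Fin 3 → ℝ, (∏ i, aF (y i)) * ∏ l, gC (∑ i, y i l)

/-- `∫ gC(z₀+z₁+z₂) dν³`. -/
noncomputable def aN : ℝ := ∫ z : Fin 3 → ℝ, gC (∑ i, z i) ∂(Measure.pi fun _ => anu)

end Pool.Agent.LibFM89
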