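import Mathlib
import Pool.Agent.LibSM47.Defs
import Pool.Agent.LibZM.MK6

/-! # Fifth moment of zeta, lower bound: definitions (board FM89, page notes_MP_91b7ff_FM89.md) -/

set_option autoImplicit false

namespace Pool.Agent.LibFM89

open MeasureTheory Set Filter Topology Complex ProbabilityTheory
open scoped NNReal ComplexConjugate
open Pool.Agent.LibZM
open Pool.Agent.LibSM47 (gam ch idx)

/-- Admissible cutoffs of the short polynomial `P`. -/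
def AdmF (ε : ℝ) (f : ℝ → ℝ) : Prop :=
  Continuous f ∧ (∀ x, 0 ≤ f x ∧ f x ≤ 1) ∧ ∀ x, f x ≠ 0 → x ≤ 1 / 6 - ε

/-- Admissible cutoffs of the projection `D`. -/
def AdmX (ε : ℝ) (χ : ℝ → ℝ) : Prop :=
  Continuous χ ∧ (∀ x, 0 ≤ χ x ∧ χ x ≤ 1) ∧ ∀ x, χ x ≠ 0 → x ≤ 5 / 6 - ε

/-- Coefficients of `P`: `d_{1/2}(l) f(log l/log T)`. -/
noncomputable def aP (f : ℝ → ℝ) (T : ℝ) (l : ℕ) : ℝ := tau (1 / 2) l * f (Real.log l / Real.log T)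

/-- The short polynomial `P(t) = ∑ d_{1/2}(l) f(log l/log T) l^(-1/2-it)`. -/
noncomputable def PP (f : ℝ → ℝ) (T t : ℝ) : ℂ :=
  ∑ l ∈ Finset.Icc 1 ⌊T⌋₊, ((aP f T l * (l : ℝ) ^ (-(1 / 2) : ℝ) : ℝ) : ℂ) * ch l (-t)

/-- The twisted second moment `∫ |ζ|² r^(it) dγ`. -/
noncomputable def I2 (V u r : ℝ) : ℂ := ∫ t, ((‖riemannZeta (crit t)‖ ^ 2 : ℝ) : ℂ) * ch r t ∂(gam V u)

/-- `1 - log(mnl/(l,m)²)/log T`. -/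
noncomputable def wl (T : ℝ) (m n l : ℕ) : ℝ :=
  1 - (Real.log m + Real.log n + Real.log l - 2 * Real.log (Nat.gcd l m)) / Real.log T

/-- `V₀(m) = ∑_l d_{1/2}(l) f (l,m)/l`. -/
noncomputable def V0 (f : ℝ → ℝ) (T : ℝ) (m : ℕ) : ℝ :=
  ∑ l ∈ Finset.Icc 1 ⌊T⌋₊, aP f T l * ((Nat.gcd l m : ℝ) / l)

/-- `V₁(m,n) = ∑_l d_{1/2}(l) f (l,m)/l (1 - log(mnl/(l,m)²)/log T)`. -/
noncomputable def V1 (f : ℝ → ℝ) (T : ℝ) (m n : ℕ) : ℝ :=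
  ∑ l ∈ Finset.Icc 1 ⌊T⌋₊, aP f T l * ((Nat.gcd l m : ℝ) / l) * wl T m n l

/-- The cutoff of `D` at the fraction `m/n`. -/
noncomputable def xq (χ : ℝ → ℝ) (T : ℝ) (q : ℕ × ℕ) : ℝ := χ ((Real.log q.1 + Real.log q.2) / Real.log T)

/-- The coefficients of `D`. -/
noncomputable def cD (f χ : ℝ → ℝ) (T : ℝ) (q : ℕ × ℕ) : ℝ :=
  ((q.1 : ℝ) * q.2) ^ (-(1 / 2) : ℝ) * xq χ T q * V1 f T q.1 q.2

/-- The projection `D(t) = ∑_{(m,n)=1} c(m,n) (m/n)^(-it)`. -/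
noncomputable def DD (f χ : ℝ → ℝ) (T t : ℝ) : ℂ :=
  ∑ q ∈ idx T, (cD f χ T q : ℂ) * ch ((q.1 : ℝ) / q.2) (-t)

/-- `S = ∑_{(m,n)=1} χ V₁²/(mn)`. -/
noncomputable def SS (f χ : ℝ → ℝ) (T : ℝ) : ℝ :=
  ∑ q ∈ idx T, ((q.1 : ℝ) * q.2)⁻¹ * xq χ T q * V1 f T q.1 q.2 ^ 2

/-- The Gaussian fifth moment. -/
noncomputable def M5 (V u : ℝ) : ℝ := ∫ t, ‖riemannZeta (crit t)‖ ^ 5 ∂(gam V u)

/-- `∫ |ζ|⁴|P|² dγ`. -/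
noncomputable def B4 (f : ℝ → ℝ) (T V u : ℝ) : ℝ :=
  ∫ t, ‖riemannZeta (crit t)‖ ^ 4 * ‖PP f T t‖ ^ 2 ∂(gam V u)

/-- `∫ |ζ|²|P|⁶ dγ`. -/
noncomputable def C2 (f : ℝ → ℝ) (T V u : ℝ) : ℝ :=
  ∫ t, ‖riemannZeta (crit t)‖ ^ 2 * ‖PP f T t‖ ^ 6 ∂(gam V u)

/-! ## Limits -/

/-- Exponents of the six cells `a, b, c, e, u, v`. -/
noncomputable def wB : Fin 6 → ℝ := ![1 / 4, 1 / 2, 1 / 2, 2, 1 / 2, 1 / 2]

/-- The six cells: product of the densities `x^(w-1)/Γ(w)`. -/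
noncomputable def cB (x : Fin 6 → ℝ) : ℝ := ∏ i, cellρ (wB i) (x i)

/-- `s = a+b+c+e`. -/
def sB (x : Fin 6 → ℝ) : ℝ := x 0 + x 1 + x 2 + x 3
/-- `λ₁ = a+b+u`. -/
def l1 (x : Fin 6 → ℝ) : ℝ := x 0 + x 1 + x 4
/-- `λ₂ = a+c+v`. -/
def l2 (x : Fin 6 → ℝ) : ℝ := x 0 + x 2 + x 5
/-- `γ₁ = a+b`. -/
def g1 (x : Fin 6 → ℝ) : ℝ := x 0 + x 1
/-- `γ₂ = a+c`. -/
def g2 (x : Fin 6 → ℝ) : ℝ := x 0 + x 2

/-- `(1-c-e-u)(1-b-e-v)`. -/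
def WB (x : Fin 6 → ℝ) : ℝ := (1 - x 2 - x 3 - x 4) * (1 - x 1 - x 3 - x 5)

/-- Limit of `S/L^(17/4)`. -/
noncomputable def BB (f χ : ℝ → ℝ) : ℝ :=
  ∫ x : Fin 6 → ℝ, χ (sB x) * f (l1 x) * f (l2 x) * WB x * cB x

/-- The same integral for the indicator functions. -/
noncomputable def BI : ℝ :=
  ∫ x : Fin 6 → ℝ, boxI (5 / 6) (sB x) * boxI (1 / 6) (l1 x) * boxI (1 / 6) (l2 x) * WB x * cB x

/-- Its value. -/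
noncomputable def bval : ℝ := 220433 / 1879605 * (1 / 6) ^ (9 / 4 : ℝ) / Real.Gamma (13 / 4)

/-- Points of the fifteen cells: matrix, row remainders, column remainders. -/
abbrev C15 : Type := (Fin 3 → Fin 3 → ℝ) × (Fin 3 → ℝ) × (Fin 3 → ℝ)

/-- Density of the fifteen cells. -/
noncomputable def cC (z : C15) : ℝ :=
  (∏ i, ∏ j, cellρ (1 / 4) (z.1 i j)) * (∏ i, cellρ (1 / 2) (z.2.1 i)) * ∏ j, cellρ (1 / 2) (z.2.2 j)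

/-- Limit of `∫ |ζ|²|P|⁶ / L^(25/4)`. -/
noncomputable def CC (f : ℝ → ℝ) : ℝ :=
  ∫ z : C15, (∏ i, f (∑ j, z.1 i j + z.2.1 i)) * (∏ j, f (∑ i, z.1 i j + z.2.2 j)) * (1 - 2 * ∑ j, z.2.2 j) * cC z

/-- Its upper bound. -/
noncomputable def cval : ℝ :=
  (1 / 6) ^ (21 / 4 : ℝ) * (2 / 3 * (30080 / 41769) ^ 3 * Real.Gamma (9 / 4) ^ 3)

/-- The constant of the fifth moment. -/
noncomputable def c5 : ℝ := bval ^ (3 / 2 : ℝ) / √cval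

end Pool.Agent.LibFM89
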