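import Pool.Agent.LibFM89.Defs

/-! # FM89 K1: choice of the cutoffs (SHORT/MEDIUM)

PLAN.  `f_n(x) = max 0 (min 1 ((1/6 - ε - x)/ε))`, `χ_n(x) = max 0 (min 1 ((5/6 - ε - x)/ε))`, `ε = ε_n → 0+`: continuous, values in `[0,1]`,
`0` for `x ≥ 1/6-ε`, `1` for `x ≤ 1/6 - 2ε`; pointwise limit `boxI (1/6) x` except at `x = 1/6` (a null set of `x` for the linear forms
`l1, l2, sB`: or note the limit there is `0 ≤` and use `ae`; `{x | l1 x = 1/6}` has volume zero: a hyperplane, e.g. `Measure.addHaar_affineSubspace`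
or Fubini).  Dominated convergence: on the support all cells are positive, `a, b, c, u, v ≤ 1/6`, `e ≤ 5/6`, `0 ≤ WB ≤ 1` there; dominating
function `boxI (5/6) (sB) boxI (1/6) (l1) boxI (1/6) (l2) cB ≤ e² exp(-∑ x_i) cB` (integrable: `integrable_cell`, `Integrable.fintype_prod`).
`WB ≥ 0` on the support: `c + e + u ≤ (5/6) + (1/6) = 1` since `c + e ≤ sB`, `u ≤ l1`. -/

set_option autoImplicit false

namespace Pool.Agent.LibFM89

open MeasureTheory Set Filter Topology Complex ProbabilityTheory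
open scoped NNReal ComplexConjugate
open Pool.Agent.LibZM
open Pool.Agent.LibSM47 (gam ch idx)

/-- The dominating function. -/
private noncomputable def dom (x : Fin 6 → ℝ) : ℝ := Real.exp 2 * ∏ i, (Real.exp (-(1 * x i)) * cellρ (wB i) (x i))

private theorem wB_pos (i : Fin 6) : 0 < wB i := by
  fin_cases i <;> simp [wB]

private theorem dom_int : Integrable dom := by
  unfold dom
  apply Integrable.const_mul
  exact Integrable.fintype_prod (f := fun i t => Real.exp (-(1 * t)) * cellρ (wB i) t)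
    fun i => integrable_cell (wB_pos i) one_pos

private theorem cB_nonneg (x : Fin 6 → ℝ) : 0 ≤ cB x := by
  unfold cB
  exact Finset.prod_nonneg fun i _ => cellρ_nonneg (wB_pos i) _

/-- The general integrand. -/
private noncomputable def gi (χ f : ℝ → ℝ) (x : Fin 6 → ℝ) : ℝ := χ (sB x) * f (l1 x) * f (l2 x) * WB x * cB x

private theorem cB_pos_of {x : Fin 6 → ℝ} (h : cB x ≠ 0) : ∀ i, 0 < x i := by
  intro i
  by_contra hi
  apply h
  unfold cB
  apply Finset.prod_eq_zero (Finset.mem_univ i)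
  unfold cellρ
  exact Set.indicator_of_notMem (by simpa using hi) _

private theorem gi_bound {χ f : ℝ → ℝ} (hχ0 : ∀ x, 0 ≤ χ x) (hχ1 : ∀ x, χ x ≤ boxI (5 / 6) x)
    (hf0 : ∀ x, 0 ≤ f x) (hf1 : ∀ x, f x ≤ boxI (1 / 6) x) (x : Fin 6 → ℝ) : ‖gi χ f x‖ ≤ dom x := by
  have hd : 0 ≤ dom x := by
    unfold dom
    exact mul_nonneg (Real.exp_pos _).le (Finset.prod_nonneg fun i _ =>
      mul_nonneg (Real.exp_pos _).le (cellρ_nonneg (wB_pos i) _))
  by_cases hc : cB x = 0
  · unfold gi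
    rw [hc, mul_zero, norm_zero]
    exact hd
  by_cases hs : χ (sB x) = 0
  · unfold gi
    simp [hs, hd]
  by_cases h1 : f (l1 x) = 0
  · unfold gi
    simp [h1, hd]
  by_cases h2 : f (l2 x) = 0
  · unfold gi
    simp [h2, hd]
  have hp := cB_pos_of hc
  have box : ∀ {θ y : ℝ} {g : ℝ → ℝ}, (∀ x, 0 ≤ g x) → (∀ x, g x ≤ boxI θ x) → g y ≠ 0 → y ≤ θ ∧ g y ≤ 1 := by
    intro θ y g g0 g1 gy
    refine ⟨?_, (g1 y).trans (boxI_le_one _ _)⟩
    by_contra hy
    apply gy
    have h3 := g1 y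
    unfold boxI at h3
    rw [if_neg hy] at h3
    exact le_antisymm h3 (g0 y)
  obtain ⟨s1, s2⟩ := box hχ0 hχ1 hs
  obtain ⟨a1, a2⟩ := box hf0 hf1 h1
  obtain ⟨b1, b2⟩ := box hf0 hf1 h2
  have p0 := hp 0
  have p1 := hp 1
  have p2 := hp 2
  have p3 := hp 3
  have p4 := hp 4
  have p5 := hp 5
  have u1 : 0 ≤ 1 - x 2 - x 3 - x 4 := by
    unfold sB at s1
    unfold l1 at a1
    linarith
  have u2 : 0 ≤ 1 - x 1 - x 3 - x 5 := by
    unfold sB at s1
    unfold l2 at b1
    linarith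
  have w0 : 0 ≤ WB x := mul_nonneg u1 u2
  have w1 : WB x ≤ 1 := by
    unfold WB
    exact mul_le_one₀ (by linarith) u2 (by linarith)
  have hcB := cB_nonneg x
  have c1 : gi χ f x ≤ cB x := by
    unfold gi
    have e1 : χ (sB x) * f (l1 x) ≤ 1 := mul_le_one₀ s2 (hf0 _) a2
    have e2 : χ (sB x) * f (l1 x) * f (l2 x) ≤ 1 := mul_le_one₀ e1 (hf0 _) b2
    have e3 : χ (sB x) * f (l1 x) * f (l2 x) * WB x ≤ 1 := mul_le_one₀ e2 w0 w1
    exact mul_le_of_le_one_left hcB e3
  have c0 : 0 ≤ gi χ f x := by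
    unfold gi
    exact mul_nonneg (mul_nonneg (mul_nonneg (mul_nonneg (hχ0 _) (hf0 _)) (hf0 _)) w0) hcB
  rw [Real.norm_of_nonneg c0]
  refine c1.trans ?_
  unfold dom
  rw [Finset.prod_mul_distrib, ← Real.exp_sum, ← mul_assoc, ← Real.exp_add]
  unfold cB
  apply le_mul_of_one_le_left
  · exact Finset.prod_nonneg fun i _ => cellρ_nonneg (wB_pos i) _
  · apply Real.one_le_exp
    simp only [Fin.sum_univ_six]
    unfold sB at s1
    unfold l1 at a1
    unfold l2 at b1
    linarith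

private theorem meas_cell (w : ℝ) : Measurable (cellρ w) := by
  unfold cellρ
  exact Measurable.indicator (by fun_prop) measurableSet_Ioi

private theorem gi_meas {χ f : ℝ → ℝ} (hχ : Measurable χ) (hf : Measurable f) : Measurable (gi χ f) := by
  have m1 : Measurable sB := by unfold sB; fun_prop
  have m2 : Measurable l1 := by unfold l1; fun_prop
  have m3 : Measurable l2 := by unfold l2; fun_prop
  have m4 : Measurable WB := by unfold WB; fun_prop
  have m5 : Measurable cB := by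
    unfold cB
    exact Finset.measurable_prod _ fun i _ => (meas_cell _).comp (measurable_pi_apply i)
  exact ((((hχ.comp m1).mul (hf.comp m2)).mul (hf.comp m3)).mul m4).mul m5

theorem BI_int : Integrable (fun x : Fin 6 → ℝ => boxI (5 / 6) (sB x) * boxI (1 / 6) (l1 x) * boxI (1 / 6) (l2 x) * WB x * cB x) :=
  dom_int.mono' (gi_meas (measurable_boxI _) (measurable_boxI _)).aestronglyMeasurable
    (Eventually.of_forall fun x => gi_bound (boxI_nonneg _) (fun _ => le_rfl) (boxI_nonneg _) (fun _ => le_rfl) x)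

/-- The ramp. -/
private noncomputable def ramp (θ ε x : ℝ) : ℝ := max 0 (min 1 ((θ - ε - x) / ε))

private theorem ramp_cont (θ ε : ℝ) : Continuous (ramp θ ε) := by
  unfold ramp
  fun_prop

private theorem ramp_mem (θ ε x : ℝ) : 0 ≤ ramp θ ε x ∧ ramp θ ε x ≤ 1 :=
  ⟨le_max_left _ _, max_le zero_le_one (min_le_left _ _)⟩

private theorem ramp_supp {θ ε x : ℝ} (hε : 0 < ε) (h : ramp θ ε x ≠ 0) : x ≤ θ - ε := by
  by_contra hx
  apply h
  unfold ramp
  apply max_eq_left
  refine (min_le_right _ _).trans ?_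
  exact div_nonpos_of_nonpos_of_nonneg (by linarith) hε.le

private theorem ramp_le {θ ε : ℝ} (hε : 0 < ε) (x : ℝ) : ramp θ ε x ≤ boxI θ x := by
  by_cases h : ramp θ ε x = 0
  · rw [h]
    exact boxI_nonneg _ _
  · have := ramp_supp hε h
    unfold boxI
    rw [if_pos (by linarith)]
    exact (ramp_mem _ _ _).2

private theorem ramp_tendsto {θ x : ℝ} (hx : x ≠ θ) : Tendsto (fun n : ℕ => ramp θ (1 / ((n : ℝ) + 100)) x) atTop (𝓝 (boxI θ x)) := by
  rcases lt_or_gt_of_ne hx with h | h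
  · have hb : boxI θ x = 1 := by unfold boxI; rw [if_pos h.le]
    rw [hb]
    apply tendsto_const_nhds.congr'
    obtain ⟨N, hN⟩ := exists_nat_gt (2 / (θ - x))
    filter_upwards [eventually_ge_atTop N] with n hn
    have hd : 0 < θ - x := by linarith
    have hn' : (N : ℝ) ≤ n := by exact_mod_cast hn
    have hpos : (0 : ℝ) < (n : ℝ) + 100 := by positivity
    have h1 : 2 / (θ - x) < (n : ℝ) + 100 := by linarith
    rw [div_lt_iff₀ hd] at h1
    unfold ramp
    have h2 : 1 ≤ (θ - 1 / ((n : ℝ) + 100) - x) / (1 / ((n : ℝ) + 100)) := by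
      rw [le_div_iff₀ (by positivity), one_mul]
      have h3 : 2 * (1 / ((n : ℝ) + 100)) ≤ θ - x := by
        rw [mul_one_div, div_le_iff₀ hpos]
        linarith
      linarith
    rw [min_eq_left h2, max_eq_right zero_le_one]
  · have hb : boxI θ x = 0 := by unfold boxI; rw [if_neg (by linarith)]
    rw [hb]
    apply tendsto_const_nhds.congr'
    filter_upwards with n
    by_contra h0
    have := ramp_supp (by positivity : (0 : ℝ) < 1 / ((n : ℝ) + 100)) (fun h' => h0 h'.symm)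
    have : (0 : ℝ) < 1 / ((n : ℝ) + 100) := by positivity
    linarith

/-- A linear form is almost everywhere different from a constant. -/
private theorem ae_ne (L : (Fin 6 → ℝ) →ₗ[ℝ] ℝ) (hL : Function.Surjective L) (c : ℝ) :
    ∀ᵐ x : Fin 6 → ℝ, L x ≠ c := by
  have h := (ae_comp_linearMap_mem_iff L (volume : Measure (Fin 6 → ℝ)) (volume : Measure ℝ) hL
    (s := {c}ᶜ) (measurableSet_singleton c).compl).2
  refine h ?_
  rw [ae_iff]
  simp

private def pj (i : Fin 6) : (Fin 6 → ℝ) →ₗ[ℝ] ℝ := LinearMap.proj i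

theorem choose_cutoffs (θ : ℝ) (hθ : 0 < θ) :
    ∃ ε : ℝ, 0 < ε ∧ ε ≤ 1 / 100 ∧ ∃ f χ : ℝ → ℝ, AdmF ε f ∧ AdmX ε χ ∧ BI - θ ≤ BB f χ := by
  have hlim : Tendsto (fun n : ℕ => ∫ x, gi (ramp (5 / 6) (1 / ((n : ℝ) + 100))) (ramp (1 / 6) (1 / ((n : ℝ) + 100))) x) atTop
      (𝓝 (∫ x, gi (boxI (5 / 6)) (boxI (1 / 6)) x)) := by
    apply tendsto_integral_of_dominated_convergence dom
    · intro n
      exact (gi_meas (ramp_cont _ _).measurable (ramp_cont _ _).measurable).aestronglyMeasurable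
    · exact dom_int
    · intro n
      have hn : (0 : ℝ) < 1 / ((n : ℝ) + 100) := by positivity
      exact Eventually.of_forall fun x => gi_bound (fun y => (ramp_mem _ _ y).1) (ramp_le hn) (fun y => (ramp_mem _ _ y).1)
        (ramp_le hn) x
    · have s1 : Function.Surjective (pj 0 + pj 1 + pj 2 + pj 3) := by
        intro y
        refine ⟨Pi.single 0 y, ?_⟩
        simp [pj]
      have s2 : Function.Surjective (pj 0 + pj 1 + pj 4) := by
        intro y
        refine ⟨Pi.single 0 y, ?_⟩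
        simp [pj]
      have s3 : Function.Surjective (pj 0 + pj 2 + pj 5) := by
        intro y
        refine ⟨Pi.single 0 y, ?_⟩
        simp [pj]
      have a1 := ae_ne _ s1 (5 / 6)
      have a2 := ae_ne _ s2 (1 / 6)
      have a3 := ae_ne _ s3 (1 / 6)
      filter_upwards [a1, a2, a3] with x h1 h2 h3
      unfold gi
      exact ((((ramp_tendsto (x := sB x) h1).mul (ramp_tendsto (x := l1 x) h2)).mul (ramp_tendsto (x := l2 x) h3)).mul_const _).mul_const _
  have hev := hlim.eventually (lt_mem_nhds (a := BI - θ) (show BI - θ < BI by linarith))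
  obtain ⟨n, hn⟩ := hev.exists
  have hpos : (0 : ℝ) < 1 / ((n : ℝ) + 100) := by positivity
  refine ⟨1 / ((n : ℝ) + 100), hpos, ?_, ramp (1 / 6) (1 / ((n : ℝ) + 100)), ramp (5 / 6) (1 / ((n : ℝ) + 100)),
    ⟨ramp_cont _ _, ramp_mem _ _, fun x hx => ramp_supp hpos hx⟩, ⟨ramp_cont _ _, ramp_mem _ _, fun x hx => ramp_supp hpos hx⟩, hn.le⟩
  apply one_div_le_one_div_of_le (by norm_num)
  have : (0 : ℝ) ≤ n := Nat.cast_nonneg n
  linarith

end Pool.Agent.LibFM89
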