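import Pool.Agent.LibFM89.KD
import Pool.Agent.LibFM89.K1
import Pool.Agent.LibFM89.A0

/-! # FM89 K2a: integration of e, u, v (MEDIUM, Fubini)

PLAN.  Coordinates `x = (a,b,c,e,u,v)`, `BI_int` gives integrability.  Split `Fin 6 → ℝ` by `volume_preserving_piFinSuccAbove` (or a product
`ℝ × ℝ × ...`) and integrate in the order `e`, then `u`, `v`.  With `R = 5/6-a-b-c`, `cellρ 2 e = e` for `e > 0`:
* `∫ boxI (5/6) (a+b+c+e) (A - e)(A' - e) cellρ 2 e de = A A' R²/2 - (A+A') R³/3 + R⁴/4` if `R ≥ 0`, `A = 1-c-u`, `A' = 1-b-v`;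
* the result is affine in `u` and in `v`; `∫ boxI (1/6) (a+b+u) cellρ (1/2) u du = cellρ (3/2) (1/6-a-b)` and
  `∫ u boxI (1/6) (a+b+u) cellρ (1/2) u du = (1/6-a-b)/3 · cellρ (3/2) (1/6-a-b)` (`dirichlet` with `n = 1`, `β = 1`, and `cell_pow`; or
  directly; `Γ(5/2) = (3/2)Γ(3/2)`), so `u` is replaced by `(1/6-a-b)/3 = (t-b)/3`, `t = 1/6-a`, and `v` by `(t-c)/3`.
Where `cellρ (3/2) (1/6-a-b) ≠ 0 ≠ cellρ (3/2)(1/6-a-c)` and `a, b, c > 0`: `R = 2/3+t-b-c > 0`. -/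

set_option autoImplicit false

namespace Pool.Agent.LibFM89

open MeasureTheory Set Filter Topology Complex ProbabilityTheory
open scoped NNReal ComplexConjugate
open Pool.Agent.LibZM
open Pool.Agent.LibSM47 (gam ch idx)

private theorem k2a_split {n : ℕ} {f : (Fin (n + 1) → ℝ) → ℝ} (hf : Integrable f) :
    (∀ᵐ a : ℝ, Integrable (fun y : Fin n → ℝ => f (Fin.cons a y : Fin (n + 1) → ℝ))) ∧
      ∫ x, f x = ∫ a : ℝ, ∫ y : Fin n → ℝ, f (Fin.cons a y : Fin (n + 1) → ℝ) := by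
  have h := (volume_preserving_piFinSuccAbove (fun _ : Fin (n + 1) => ℝ) 0).symm
  have h1 : ∀ p : ℝ × (Fin n → ℝ), (MeasurableEquiv.piFinSuccAbove (fun _ : Fin (n + 1) => ℝ) 0).symm p =
      (Fin.cons p.1 p.2 : Fin (n + 1) → ℝ) := by
    intro p
    exact Fin.insertNth_zero' p.1 p.2
  have h2 : Integrable (fun p : ℝ × (Fin n → ℝ) => f (Fin.cons p.1 p.2 : Fin (n + 1) → ℝ)) (volume.prod volume) := by
    have h3 := (h.integrable_comp_emb (MeasurableEquiv.measurableEmbedding _)).2 hf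
    have h4 : (f ∘ (MeasurableEquiv.piFinSuccAbove (fun _ : Fin (n + 1) => ℝ) 0).symm) =
        fun p : ℝ × (Fin n → ℝ) => f (Fin.cons p.1 p.2 : Fin (n + 1) → ℝ) := by
      funext p
      rw [Function.comp_apply, h1]
    rw [h4] at h3
    exact h3
  refine ⟨h2.prod_right_ae, ?_⟩
  rw [← h.integral_comp']
  simp only [h1]
  exact integral_prod _ h2

private theorem k2a_T {w : ℝ} (hw : 0 < w) (k : ℕ) (θ s : ℝ) :
    Integrable (fun t : ℝ => boxI θ (s + t) * (t ^ k * cellρ w t)) ∧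
      ∫ t : ℝ, boxI θ (s + t) * (t ^ k * cellρ w t) =
        if 0 < θ - s then (θ - s) ^ (w + k) / ((w + k) * Real.Gamma w) else 0 := by
  have e : (fun t : ℝ => boxI θ (s + t) * (t ^ k * cellρ w t)) =
      (Ioc 0 (θ - s)).indicator (fun t => t ^ (w - 1 + k) * (Real.Gamma w)⁻¹) := by
    funext t
    unfold cellρ boxI
    by_cases h0 : 0 < t
    · rw [indicator_of_mem (show t ∈ Ioi (0:ℝ) from h0)]
      by_cases h1 : s + t ≤ θ
      · rw [if_pos h1, indicator_of_mem (show t ∈ Ioc 0 (θ - s) from ⟨h0, by linarith⟩),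
          Real.rpow_add_natCast h0.ne']
        ring
      · rw [if_neg h1, indicator_of_notMem (show t ∉ Ioc 0 (θ - s) from fun h => h1 (by linarith [h.2]))]
        ring
    · rw [indicator_of_notMem (show t ∉ Ioi (0:ℝ) from h0),
        indicator_of_notMem (show t ∉ Ioc 0 (θ - s) from fun h => h0 h.1)]
      ring
  have hk0 : (0 : ℝ) ≤ k := by positivity
  have hG := Real.Gamma_pos_of_pos hw
  rw [e]
  by_cases hR : 0 < θ - s
  · have hi : IntervalIntegrable (fun t : ℝ => t ^ (w - 1 + k)) volume 0 (θ - s) :=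
      intervalIntegral.intervalIntegrable_rpow' (by linarith)
    have hi2 : IntegrableOn (fun t : ℝ => t ^ (w - 1 + k) * (Real.Gamma w)⁻¹) (Ioc 0 (θ - s)) := hi.1.mul_const _
    refine ⟨(integrable_indicator_iff measurableSet_Ioc).2 hi2, ?_⟩
    rw [if_pos hR, integral_indicator measurableSet_Ioc, integral_mul_const, ← intervalIntegral.integral_of_le hR.le,
      integral_rpow (Or.inl (by linarith)), Real.zero_rpow (by linarith)]
    have e2 : w - 1 + (k : ℝ) + 1 = w + k := by ring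
    rw [e2, sub_zero]
    have : w + (k : ℝ) ≠ 0 := by linarith
    field_simp
  · rw [Ioc_eq_empty hR, indicator_empty, if_neg hR]
    exact ⟨integrable_zero _ _ _, by simp⟩

private theorem k2a_prod3 {f g h : ℝ → ℝ} (hf : Integrable f) (hg : Integrable g) (hh : Integrable h) :
    Integrable (fun y : Fin 3 → ℝ => f (y 0) * g (y 1) * h (y 2)) ∧
      ∫ y : Fin 3 → ℝ, f (y 0) * g (y 1) * h (y 2) = (∫ t, f t) * (∫ t, g t) * ∫ t, h t := by
  have e : (fun y : Fin 3 → ℝ => f (y 0) * g (y 1) * h (y 2)) =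
      fun y => ∏ j, ((![f, g, h] : Fin 3 → ℝ → ℝ) j) (y j) := by
    funext y
    rw [Fin.prod_univ_three]
    rfl
  rw [e]
  constructor
  · apply Integrable.fintype_prod_dep (f := fun j => (![f, g, h] : Fin 3 → ℝ → ℝ) j)
    intro j
    fin_cases j
    · exact hf
    · exact hg
    · exact hh
  · rw [integral_fintype_prod_volume_eq_prod (fun j => (![f, g, h] : Fin 3 → ℝ → ℝ) j), Fin.prod_univ_three]
    rfl

private theorem k2a_lin4 {g1 g2 g3 g4 : (Fin 3 → ℝ) → ℝ} (h1 : Integrable g1) (h2 : Integrable g2) (h3 : Integrable g3)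
    (h4 : Integrable g4) (P : ℝ) :
    ∫ y, (P * g1 y - P * g2 y - P * g3 y + P * g4 y) = P * (∫ y, g1 y) - P * (∫ y, g2 y) - P * (∫ y, g3 y) + P * ∫ y, g4 y := by
  have k1 : Integrable (fun y => P * g1 y) := h1.const_mul P
  have k2 : Integrable (fun y => P * g2 y) := h2.const_mul P
  have k3 : Integrable (fun y => P * g3 y) := h3.const_mul P
  have k4 : Integrable (fun y => P * g4 y) := h4.const_mul P
  have k5 : Integrable (fun y => P * g1 y - P * g2 y) := k1.sub k2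
  have k6 : Integrable (fun y => P * g1 y - P * g2 y - P * g3 y) := k5.sub k3
  rw [integral_add k6 k4, integral_sub k5 k3, integral_sub k1 k2, integral_const_mul, integral_const_mul,
    integral_const_mul, integral_const_mul]

private theorem k2a_lin3 {f0 f1 f2 : ℝ → ℝ} (h0 : Integrable f0) (h1 : Integrable f1) (h2 : Integrable f2) (α β : ℝ) :
    Integrable (fun t => α * f0 t - β * f1 t + f2 t) ∧
      ∫ t, (α * f0 t - β * f1 t + f2 t) = α * (∫ t, f0 t) - β * (∫ t, f1 t) + ∫ t, f2 t := by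
  have k0 : Integrable (fun t => α * f0 t) := h0.const_mul α
  have k1 : Integrable (fun t => β * f1 t) := h1.const_mul β
  have k2 : Integrable (fun t => α * f0 t - β * f1 t) := k0.sub k1
  refine ⟨k2.add h2, ?_⟩
  rw [integral_add k2 h2, integral_sub k0 k1, integral_const_mul, integral_const_mul]

private theorem k2a_lin2 {f0 f1 : ℝ → ℝ} (h0 : Integrable f0) (h1 : Integrable f1) (α : ℝ) :
    Integrable (fun t => α * f0 t - f1 t) ∧ ∫ t, (α * f0 t - f1 t) = α * (∫ t, f0 t) - ∫ t, f1 t := by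
  have k0 : Integrable (fun t => α * f0 t) := h0.const_mul α
  refine ⟨k0.sub h1, ?_⟩
  rw [integral_sub k0 h1, integral_const_mul]

private theorem k2a_G32 : Real.Gamma (3 / 2) = 1 / 2 * Real.Gamma (1 / 2) := by
  have h := Real.Gamma_add_one (s := 1 / 2) (by norm_num)
  rw [← h]
  norm_num

private theorem k2a_U0 (s : ℝ) : ∫ t : ℝ, boxI (1 / 6) (s + t) * (t ^ 0 * cellρ (1 / 2) t) = cellρ (3 / 2) (1 / 6 - s) := by
  rw [(k2a_T (by norm_num) 0 (1 / 6) s).2]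
  unfold cellρ
  by_cases h : 0 < 1 / 6 - s
  · rw [if_pos h, indicator_of_mem (show (1 / 6 - s) ∈ Ioi (0:ℝ) from h), k2a_G32]
    have e1 : (1 / 2 : ℝ) + ((0 : ℕ) : ℝ) = 1 / 2 := by norm_num
    have e2 : (3 / 2 : ℝ) - 1 = 1 / 2 := by norm_num
    rw [e1, e2]
  · rw [if_neg h, indicator_of_notMem (show (1 / 6 - s) ∉ Ioi (0:ℝ) from h)]

private theorem k2a_U1 (s : ℝ) : ∫ t : ℝ, boxI (1 / 6) (s + t) * (t ^ 1 * cellρ (1 / 2) t) =
    (1 / 6 - s) / 3 * cellρ (3 / 2) (1 / 6 - s) := by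
  rw [(k2a_T (by norm_num) 1 (1 / 6) s).2]
  unfold cellρ
  by_cases h : 0 < 1 / 6 - s
  · rw [if_pos h, indicator_of_mem (show (1 / 6 - s) ∈ Ioi (0:ℝ) from h), k2a_G32]
    have e1 : (1 / 2 : ℝ) + ((1 : ℕ) : ℝ) = 1 / 2 + 1 := by norm_num
    have e2 : (3 / 2 : ℝ) - 1 = 1 / 2 := by norm_num
    have hG := (Real.Gamma_pos_of_pos (show (0 : ℝ) < 1 / 2 by norm_num)).ne'
    rw [e1, e2, Real.rpow_add_one h.ne']
    field_simp
    ring
  · rw [if_neg h, indicator_of_notMem (show (1 / 6 - s) ∉ Ioi (0:ℝ) from h), mul_zero]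

private theorem k2a_E (s : ℝ) (hR : 0 < 5 / 6 - s) (k : ℕ) :
    ∫ t : ℝ, boxI (5 / 6) (s + t) * (t ^ k * cellρ 2 t) = (5 / 6 - s) ^ (2 + k) / (2 + k) := by
  rw [(k2a_T (by norm_num) k (5 / 6) s).2, if_pos hR, Real.Gamma_two, mul_one]
  have e1 : (2 : ℝ) + (k : ℝ) = ((2 + k : ℕ) : ℝ) := by push_cast; ring
  congr 1
  rw [e1, Real.rpow_natCast]

private theorem k2a_inner (a b c : ℝ) : ∫ y : Fin 3 → ℝ, (fun x : Fin 6 → ℝ =>
      boxI (5 / 6) (sB x) * boxI (1 / 6) (l1 x) * boxI (1 / 6) (l2 x) * WB x * cB x)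
        (Fin.cons a (Fin.cons b (Fin.cons c y : Fin 4 → ℝ) : Fin 5 → ℝ) : Fin 6 → ℝ) =
    cellρ (1 / 4) a * (cellρ (1 / 2) b * cellρ (3 / 2) (1 / 6 - a - b)) *
      (cellρ (1 / 2) c * cellρ (3 / 2) (1 / 6 - a - c)) * Q3 (1 / 6 - a) b c := by
  obtain ⟨s, hs⟩ : ∃ s, s = a + b + c := ⟨_, rfl⟩
  obtain ⟨P, hP⟩ : ∃ P, P = cellρ (1 / 4) a * cellρ (1 / 2) b * cellρ (1 / 2) c := ⟨_, rfl⟩
  have hf := fun k => (k2a_T (w := 2) (by norm_num) k (5 / 6) s).1
  have hu := fun k => (k2a_T (w := 1 / 2) (by norm_num) k (1 / 6) (a + b)).1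
  have hv := fun k => (k2a_T (w := 1 / 2) (by norm_num) k (1 / 6) (a + c)).1
  obtain ⟨f, hfd⟩ : ∃ f : ℕ → ℝ → ℝ, f = fun k t => boxI (5 / 6) (s + t) * (t ^ k * cellρ 2 t) := ⟨_, rfl⟩
  obtain ⟨u, hud⟩ : ∃ u : ℕ → ℝ → ℝ, u = fun k t => boxI (1 / 6) (a + b + t) * (t ^ k * cellρ (1 / 2) t) := ⟨_, rfl⟩
  obtain ⟨v, hvd⟩ : ∃ v : ℕ → ℝ → ℝ, v = fun k t => boxI (1 / 6) (a + c + t) * (t ^ k * cellρ (1 / 2) t) := ⟨_, rfl⟩
  have hf' : ∀ k, Integrable (f k) := by rw [hfd]; exact hf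
  have hu' : ∀ k, Integrable (u k) := by rw [hud]; exact hu
  have hv' : ∀ k, Integrable (v k) := by rw [hvd]; exact hv
  have hpt : ∀ y : Fin 3 → ℝ, (fun x : Fin 6 → ℝ =>
      boxI (5 / 6) (sB x) * boxI (1 / 6) (l1 x) * boxI (1 / 6) (l2 x) * WB x * cB x)
        (Fin.cons a (Fin.cons b (Fin.cons c y : Fin 4 → ℝ) : Fin 5 → ℝ) : Fin 6 → ℝ) =
      P * (((1 - c) * (1 - b) * f 0 (y 0) - (2 - b - c) * f 1 (y 0) + f 2 (y 0)) * u 0 (y 1) * v 0 (y 2)) -
      P * (((1 - b) * f 0 (y 0) - f 1 (y 0)) * u 1 (y 1) * v 0 (y 2)) -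
      P * (((1 - c) * f 0 (y 0) - f 1 (y 0)) * u 0 (y 1) * v 1 (y 2)) +
      P * (f 0 (y 0) * u 1 (y 1) * v 1 (y 2)) := by
    intro y
    have c1 : sB (Fin.cons a (Fin.cons b (Fin.cons c y : Fin 4 → ℝ) : Fin 5 → ℝ) : Fin 6 → ℝ) = s + y 0 := by
      rw [hs]; rfl
    have c2 : l1 (Fin.cons a (Fin.cons b (Fin.cons c y : Fin 4 → ℝ) : Fin 5 → ℝ) : Fin 6 → ℝ) = a + b + y 1 := rfl
    have c3 : l2 (Fin.cons a (Fin.cons b (Fin.cons c y : Fin 4 → ℝ) : Fin 5 → ℝ) : Fin 6 → ℝ) = a + c + y 2 := rfl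
    have c4 : WB (Fin.cons a (Fin.cons b (Fin.cons c y : Fin 4 → ℝ) : Fin 5 → ℝ) : Fin 6 → ℝ) =
      (1 - c - y 0 - y 1) * (1 - b - y 0 - y 2) := rfl
    have c5 : cB (Fin.cons a (Fin.cons b (Fin.cons c y : Fin 4 → ℝ) : Fin 5 → ℝ) : Fin 6 → ℝ) =
        cellρ (1 / 4) a * cellρ (1 / 2) b * cellρ (1 / 2) c * cellρ 2 (y 0) * cellρ (1 / 2) (y 1) * cellρ (1 / 2) (y 2) := by
      unfold cB
      rw [Fin.prod_univ_six]
      rfl
    show boxI (5 / 6) (sB _) * boxI (1 / 6) (l1 _) * boxI (1 / 6) (l2 _) * WB _ * cB _ = _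
    rw [c1, c2, c3, c4, c5, hP, hfd, hud, hvd]
    ring
  simp only [hpt]
  obtain ⟨m1, n1⟩ := k2a_lin3 (hf' 0) (hf' 1) (hf' 2) ((1 - c) * (1 - b)) (2 - b - c)
  obtain ⟨m2, n2⟩ := k2a_lin2 (hf' 0) (hf' 1) (1 - b)
  obtain ⟨m3, n3⟩ := k2a_lin2 (hf' 0) (hf' 1) (1 - c)
  obtain ⟨i1, j1⟩ := k2a_prod3 m1 (hu' 0) (hv' 0)
  obtain ⟨i2, j2⟩ := k2a_prod3 m2 (hu' 1) (hv' 0)
  obtain ⟨i3, j3⟩ := k2a_prod3 m3 (hu' 0) (hv' 1)
  obtain ⟨i4, j4⟩ := k2a_prod3 (hf' 0) (hu' 1) (hv' 1)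
  rw [k2a_lin4 i1 i2 i3 i4, j1, j2, j3, j4, n1, n2, n3]
  have hU0 : ∫ t, u 0 t = cellρ (3 / 2) (1 / 6 - a - b) := by
    rw [hud]
    have := k2a_U0 (a + b)
    rw [show 1 / 6 - (a + b) = 1 / 6 - a - b by ring] at this
    exact this
  have hU1 : ∫ t, u 1 t = (1 / 6 - a - b) / 3 * cellρ (3 / 2) (1 / 6 - a - b) := by
    rw [hud]
    have := k2a_U1 (a + b)
    rw [show 1 / 6 - (a + b) = 1 / 6 - a - b by ring] at this
    exact this
  have hV0 : ∫ t, v 0 t = cellρ (3 / 2) (1 / 6 - a - c) := by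
    rw [hvd]
    have := k2a_U0 (a + c)
    rw [show 1 / 6 - (a + c) = 1 / 6 - a - c by ring] at this
    exact this
  have hV1 : ∫ t, v 1 t = (1 / 6 - a - c) / 3 * cellρ (3 / 2) (1 / 6 - a - c) := by
    rw [hvd]
    have := k2a_U1 (a + c)
    rw [show 1 / 6 - (a + c) = 1 / 6 - a - c by ring] at this
    exact this
  rw [hU0, hU1, hV0, hV1, hP]
  have hz : ∀ {w x : ℝ}, x ≤ 0 → cellρ w x = 0 := by
    intro w x hx
    unfold cellρ
    rw [indicator_of_notMem]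
    exact not_lt.mpr hx
  by_cases ha : 0 < a
  · by_cases hb : 0 < b
    · by_cases hc : 0 < c
      · by_cases h1 : 0 < 1 / 6 - a - b
        · by_cases h2 : 0 < 1 / 6 - a - c
          · have hR : 0 < 5 / 6 - s := by rw [hs]; linarith
            have hE : ∀ k, ∫ t, f k t = (5 / 6 - s) ^ (2 + k) / (2 + k) := by
              rw [hfd]
              exact k2a_E s hR
            rw [hE, hE, hE]
            unfold Q3
            have hRR : 5 / 6 - s = 2 / 3 + (1 / 6 - a) - b - c := by rw [hs]; ring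
            rw [hRR]
            push_cast
            ring
          · rw [hz (not_lt.mp h2)]
            ring
        · rw [hz (not_lt.mp h1)]
          ring
      · rw [hz (w := 1 / 2) (not_lt.mp hc)]
        ring
    · rw [hz (w := 1 / 2) (not_lt.mp hb)]
      ring
  · rw [hz (w := 1 / 4) (not_lt.mp ha)]
    ring

theorem BI_eq_BI3 : BI = BI3 := by
  have h := k2a_split BI_int
  unfold BI BI3
  rw [h.2]
  apply integral_congr_ae
  filter_upwards [h.1] with a ha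
  have h2 := k2a_split ha
  rw [h2.2]
  apply integral_congr_ae
  filter_upwards [h2.1] with b hb
  have h3 := k2a_split hb
  rw [h3.2]
  apply integral_congr_ae
  refine Eventually.of_forall fun c => ?_
  exact k2a_inner a b c

end Pool.Agent.LibFM89
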