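import Pool.Agent.LibFM89.KD
import Pool.Agent.LibFM89.A0

/-! # FM89 K2b: integration of b and c (MEDIUM)

PLAN.  For fixed `a`, `t = 1/6-a`: `∫ b^i cellρ (1/2) b cellρ (3/2) (t-b) db = (1/2)_i cellρ (2+i) t` (`cell_pow`, `dirichlet` with `n = 1`), which for
`t > 0` is `(1/2)_i t^(1+i)/(1+i)!`: `i = 0,1,2,3,4`: `t, t²/4, t³/8, 5t⁴/64, 7t⁵/128`.  For `t ≤ 0` everything vanishes.  For `t > 0` expand
`Q3 t b c = ∑_{i,k ≤ 4} q_ik(t) b^i c^k` (two-variable polynomial, 15 monomials; e.g. define the inner functional on functions of `c` first: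
`∫ cellρ (1/2) c cellρ (3/2) (t-c) Q3 t b c dc` is a polynomial in `b`), and the double integral is `Phi t` (ring).  All integrands are
integrable by `dirichlet`. -/

set_option autoImplicit false

namespace Pool.Agent.LibFM89

open MeasureTheory Set Filter Topology Complex ProbabilityTheory
open scoped NNReal ComplexConjugate
open Pool.Agent.LibZM
open Pool.Agent.LibSM47 (gam ch idx)

private theorem k2b_cell_pos {w x : ℝ} (hx : 0 < x) : cellρ w x = x ^ (w - 1) / Real.Gamma w := by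
  unfold cellρ
  rw [Set.indicator_of_mem (show x ∈ Set.Ioi (0 : ℝ) from hx)]

private theorem k2b_cell_neg {w x : ℝ} (hx : x ≤ 0) : cellρ w x = 0 := by
  unfold cellρ
  rw [Set.indicator_of_notMem (show x ∉ Set.Ioi (0 : ℝ) from not_lt.2 hx)]

private theorem k2b_mom (t : ℝ) (ht : 0 < t) (i : ℕ) :
    Integrable (fun b : ℝ => b ^ i * (cellρ (1 / 2) b * cellρ (3 / 2) (t - b))) ∧
    (∫ b : ℝ, b ^ i * (cellρ (1 / 2) b * cellρ (3 / 2) (t - b))) =
      (∏ k ∈ Finset.range i, ((1 / 2 : ℝ) + k)) * (t ^ (i + 1) / ((i + 1).factorial : ℝ)) := by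
  obtain ⟨D1, D2⟩ := dirichlet 1 (3 / 2) (by norm_num) (fun _ => 1 / 2 + (i : ℝ))
    (fun _ => by positivity) t
  have hphi : (fun y : Fin 1 → ℝ => cellρ (3 / 2) (t - ∑ j, y j) *
      ∏ j, cellρ (1 / 2 + (i : ℝ)) (y j)) =
      fun y => (fun b : ℝ => cellρ (3 / 2) (t - b) * cellρ (1 / 2 + (i : ℝ)) b)
        (MeasurableEquiv.funUnique (Fin 1) ℝ y) := by
    funext y
    have e0 : MeasurableEquiv.funUnique (Fin 1) ℝ y = y 0 := rfl
    rw [e0, Fin.sum_univ_one, Fin.prod_univ_one]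
  have hmp := MeasureTheory.volume_preserving_funUnique (Fin 1) ℝ
  rw [hphi] at D1 D2
  have D1' : Integrable (fun b : ℝ => cellρ (3 / 2) (t - b) * cellρ (1 / 2 + (i : ℝ)) b) :=
    (hmp.integrable_comp_emb (MeasurableEquiv.funUnique (Fin 1) ℝ).measurableEmbedding).1 D1
  have D2' : ∫ b : ℝ, cellρ (3 / 2) (t - b) * cellρ (1 / 2 + (i : ℝ)) b =
      t ^ (i + 1) / ((i + 1).factorial : ℝ) := by
    rw [← hmp.integral_comp (MeasurableEquiv.funUnique (Fin 1) ℝ).measurableEmbedding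
      (fun b : ℝ => cellρ (3 / 2) (t - b) * cellρ (1 / 2 + (i : ℝ)) b)]
    refine D2.trans ?_
    rw [Fin.sum_univ_one, k2b_cell_pos ht]
    have e1 : (3 / 2 : ℝ) + (1 / 2 + (i : ℝ)) - 1 = ((i + 1 : ℕ) : ℝ) := by
      push_cast
      ring
    have e2 : (3 / 2 : ℝ) + (1 / 2 + (i : ℝ)) = ((i + 1 : ℕ) : ℝ) + 1 := by
      push_cast
      ring
    rw [e1, e2, Real.rpow_natCast, Real.Gamma_nat_eq_factorial]
  have e : (fun b : ℝ => b ^ i * (cellρ (1 / 2) b * cellρ (3 / 2) (t - b))) =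
      fun b => (∏ k ∈ Finset.range i, ((1 / 2 : ℝ) + k)) *
        (cellρ (3 / 2) (t - b) * cellρ (1 / 2 + (i : ℝ)) b) := by
    funext b
    have h := cell_pow (1 / 2) (by norm_num) i b
    rw [← mul_assoc, h]
    ring
  rw [e]
  refine ⟨D1'.const_mul _, ?_⟩
  rw [integral_const_mul, D2']

/-- The moments. -/
theorem bmom (t : ℝ) (ht : 0 < t) :
    (∀ i : ℕ, Integrable (fun b : ℝ => b ^ i * (cellρ (1 / 2) b * cellρ (3 / 2) (t - b)))) ∧
    (∫ b : ℝ, b ^ 0 * (cellρ (1 / 2) b * cellρ (3 / 2) (t - b))) = t ∧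
    (∫ b : ℝ, b ^ 1 * (cellρ (1 / 2) b * cellρ (3 / 2) (t - b))) = t ^ 2 / 4 ∧
    (∫ b : ℝ, b ^ 2 * (cellρ (1 / 2) b * cellρ (3 / 2) (t - b))) = t ^ 3 / 8 ∧
    (∫ b : ℝ, b ^ 3 * (cellρ (1 / 2) b * cellρ (3 / 2) (t - b))) = 5 * t ^ 4 / 64 ∧
    (∫ b : ℝ, b ^ 4 * (cellρ (1 / 2) b * cellρ (3 / 2) (t - b))) = 7 * t ^ 5 / 128 := by
  refine ⟨fun i => (k2b_mom t ht i).1, ?_, ?_, ?_, ?_, ?_⟩
  · rw [(k2b_mom t ht 0).2]
    norm_num
  · rw [(k2b_mom t ht 1).2]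
    norm_num [Finset.prod_range_succ, Nat.factorial]
    ring
  · rw [(k2b_mom t ht 2).2]
    norm_num [Finset.prod_range_succ, Nat.factorial]
    ring
  · rw [(k2b_mom t ht 3).2]
    norm_num [Finset.prod_range_succ, Nat.factorial]
    ring
  · rw [(k2b_mom t ht 4).2]
    norm_num [Finset.prod_range_succ, Nat.factorial]
    ring

private theorem k2b_lin (t : ℝ) (ht : 0 < t) (q0 q1 q2 q3 q4 : ℝ) :
    ∫ c : ℝ, cellρ (1 / 2) c * cellρ (3 / 2) (t - c) *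
      (q0 + q1 * c + q2 * c ^ 2 + q3 * c ^ 3 + q4 * c ^ 4) =
      q0 * t + q1 * (t ^ 2 / 4) + q2 * (t ^ 3 / 8) + q3 * (5 * t ^ 4 / 64) +
        q4 * (7 * t ^ 5 / 128) := by
  obtain ⟨hi, m0, m1, m2, m3, m4⟩ := bmom t ht
  have e : (fun c : ℝ => cellρ (1 / 2) c * cellρ (3 / 2) (t - c) *
      (q0 + q1 * c + q2 * c ^ 2 + q3 * c ^ 3 + q4 * c ^ 4)) =
      fun c => ∑ k : Fin 5, (![q0, q1, q2, q3, q4] k) *
        (c ^ (k : ℕ) * (cellρ (1 / 2) c * cellρ (3 / 2) (t - c))) := by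
    funext c
    rw [Fin.sum_univ_five]
    simp
    ring
  have hi' : ∀ k ∈ (Finset.univ : Finset (Fin 5)), Integrable (fun c : ℝ =>
      (![q0, q1, q2, q3, q4] k) * (c ^ (k : ℕ) * (cellρ (1 / 2) c * cellρ (3 / 2) (t - c)))) :=
    fun k _ => (hi (k : ℕ)).const_mul _
  rw [e, integral_finsetSum _ hi', Fin.sum_univ_five]
  simp only [integral_const_mul]
  have f0 : ((0 : Fin 5) : ℕ) = 0 := rfl
  have f1 : ((1 : Fin 5) : ℕ) = 1 := rfl
  have f2 : ((2 : Fin 5) : ℕ) = 2 := rfl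
  have f3 : ((3 : Fin 5) : ℕ) = 3 := rfl
  have f4 : ((4 : Fin 5) : ℕ) = 4 := rfl
  rw [f0, f1, f2, f3, f4, m0, m1, m2, m3, m4]
  simp

theorem BI3_eq : BI3 = ∫ a : ℝ, cellρ (1 / 4) a * (boxI (1 / 6) a * Phi (1 / 6 - a)) := by
  unfold BI3
  congr 1
  funext a
  obtain ⟨t, ht⟩ : ∃ t : ℝ, t = 1 / 6 - a := ⟨_, rfl⟩
  rw [← ht]
  rcases le_or_gt t 0 with h0 | h0
  · have hw : ∀ x : ℝ, cellρ (1 / 2) x * cellρ (3 / 2) (t - x) = 0 := by
      intro x
      rcases le_or_gt x 0 with hx | hx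
      · rw [k2b_cell_neg hx, zero_mul]
      · rw [k2b_cell_neg (show t - x ≤ 0 by linarith), mul_zero]
    have hz : boxI (1 / 6) a * Phi t = 0 := by
      unfold boxI
      split_ifs with ha
      · have ht0 : t = 0 := le_antisymm h0 (by rw [ht]; linarith)
        rw [ht0]
        unfold Phi
        norm_num
      · rw [zero_mul]
    simp only [hw, mul_zero, zero_mul, integral_zero, hz]
  · have hbox : boxI (1 / 6) a = 1 := by
      unfold boxI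
      rw [if_pos (by linarith)]
    rw [hbox, one_mul]
    have hc : ∀ b : ℝ, ∫ c : ℝ, cellρ (1 / 4) a * (cellρ (1 / 2) b * cellρ (3 / 2) (t - b)) *
        (cellρ (1 / 2) c * cellρ (3 / 2) (t - c)) * Q3 t b c =
        cellρ (1 / 4) a * (cellρ (1 / 2) b * cellρ (3 / 2) (t - b) *
          (((2/27) * t + (-23/486) * t ^ 2 + (-89/432) * t ^ 3 + (245/1728) * t ^ 4 + (455/1536) * t ^ 5) + ((-38/243) * t + (47/108) * t ^ 2 + (-1/216) * t ^ 3 + (-505/576) * t ^ 4) * b + ((-5/54) * t + (-19/36) * t ^ 2 + (109/144) * t ^ 3) * b ^ 2 + ((1/3) * t + (-1/36) * t ^ 2) * b ^ 3 + ((-5/36) * t) * b ^ 4)) := by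
      intro b
      have e : (fun c : ℝ => cellρ (1 / 4) a * (cellρ (1 / 2) b * cellρ (3 / 2) (t - b)) *
          (cellρ (1 / 2) c * cellρ (3 / 2) (t - c)) * Q3 t b c) =
          fun c => (cellρ (1 / 4) a * (cellρ (1 / 2) b * cellρ (3 / 2) (t - b))) *
            (cellρ (1 / 2) c * cellρ (3 / 2) (t - c) *
              (((2/27) + (-38/243) * b + (-5/54) * b ^ 2 + (1/3) * b ^ 3 + (-5/36) * b ^ 4 + (-2/243) * t + (31/81) * t * b + (-13/27) * t * b ^ 2 + (-1/9) * t * b ^ 3 + (-47/162) * t ^ 2 + (-1/27) * t ^ 2 * b + (7/6) * t ^ 2 * b ^ 2 + (5/27) * t ^ 3 + (-13/9) * t ^ 3 * b + (19/36) * t ^ 4) + ((-38/243) + (17/81) * b + (-5/27) * b ^ 2 + (1/3) * b ^ 3 + (31/81) * t + (2/9) * t * b + (-19/9) * t * b ^ 2 + (-1/27) * t ^ 2 + (29/9) * t ^ 2 * b + (-13/9) * t ^ 3) * c + ((-5/54) + (-5/27) * b + (17/18) * b ^ 2 + (-13/27) * t + (-19/9) * t * b + (7/6) * t ^ 2) * c ^ 2 + ((1/3) + (1/3) * b + (-1/9)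 * t) * c ^ 3 + ((-5/36)) * c ^ 4)) := by
        funext c
        unfold Q3
        ring
      rw [e, integral_const_mul, k2b_lin t h0]
      ring
    simp only [hc]
    rw [integral_const_mul, k2b_lin t h0]
    congr 1
    unfold Phi
    ring

end Pool.Agent.LibFM89
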