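import Pool.Agent.LibFM89.KD
import Pool.Agent.LibFM89.A0

/-! # FM89 K2c: the value (SHORT/MEDIUM)

PLAN.  `∫ cellρ (1/4) a boxI (1/6) a (1/6-a)^k da = k! cellρ (5/4+k) (1/6) = k! (1/6)^(k+1/4)/Γ(k+5/4)` (`dirichlet` with `n = 1`, `β = k+1`,
`s = 1/6`: `cellρ (k+1) x = x^k/k!` for `x > 0`; the point `a = 1/6` is null for `k = 0`, here `k ≥ 2`).
`Γ(k+5/4) = (13/4)_(k-2) Γ(13/4)`; `(1/6)^(k+1/4) = (1/6)^(9/4) (1/6)^(k-2)`; the sum
`(2/27) 2! + (-7/81) 3!/6/(13/4) + (-47/432) 4!/36/((13/4)(17/4)) + (29/288) 5!/216/((13/4)(17/4)(21/4)) + (373/2304) 6!/1296/((13/4)(17/4)(21/4)(25/4))`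
`= 220433/1879605`. -/

set_option autoImplicit false

namespace Pool.Agent.LibFM89

open MeasureTheory Set Filter Topology Complex ProbabilityTheory
open scoped NNReal ComplexConjugate
open Pool.Agent.LibZM
open Pool.Agent.LibSM47 (gam ch idx)

private theorem k2c_dir {α β : ℝ} (hα : 0 < α) (hβ : 0 < β) (s : ℝ) :
    Integrable (fun a : ℝ => cellρ β (s - a) * cellρ α a) ∧
      ∫ a : ℝ, cellρ β (s - a) * cellρ α a = cellρ (β + α) s := by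
  obtain ⟨h1, h2⟩ := dirichlet 1 β hβ (fun _ => α) (fun _ => hα) s
  simp only [Finset.univ_unique, Finset.sum_singleton, Finset.prod_singleton] at h1 h2
  have hmp := volume_preserving_funUnique (Fin 1) ℝ
  constructor
  · exact (hmp.integrable_comp_emb (MeasurableEquiv.funUnique (Fin 1) ℝ).measurableEmbedding).1 h1
  · rw [← h2]
    exact (hmp.integral_comp' (fun a : ℝ => cellρ β (s - a) * cellρ α a)).symm

private theorem k2c_cell {w x : ℝ} (hx : 0 < x) : cellρ w x = x ^ (w - 1) / Real.Gamma w := by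
  unfold cellρ
  rw [Set.indicator_of_mem (show x ∈ Set.Ioi (0:ℝ) from hx)]

private theorem k2c_cell0 {w x : ℝ} (hx : x ≤ 0) : cellρ w x = 0 := by
  unfold cellρ
  rw [Set.indicator_of_notMem (fun h : x ∈ Set.Ioi (0:ℝ) => absurd hx (not_le.2 h))]

private theorem k2c_pt (k : ℕ) (hk : 1 ≤ k) (a : ℝ) :
    boxI (1 / 6) a * (1 / 6 - a) ^ k = (k.factorial : ℝ) * cellρ ((k:ℝ) + 1) (1 / 6 - a) := by
  have hk0 : k ≠ 0 := by omega
  unfold boxI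
  rcases lt_trichotomy a (1 / 6) with h | h | h
  · rw [if_pos h.le, k2c_cell (by linarith), Real.Gamma_nat_eq_factorial, add_sub_cancel_right,
      Real.rpow_natCast]
    have : (k.factorial : ℝ) ≠ 0 := by exact_mod_cast k.factorial_ne_zero
    field_simp
  · rw [h, k2c_cell0 (by norm_num)]
    simp [hk0]
  · rw [if_neg (by linarith), k2c_cell0 (by linarith)]
    simp

private theorem k2c_mom (k : ℕ) (hk : 1 ≤ k) :
    Integrable (fun a : ℝ => cellρ (1 / 4) a * (boxI (1 / 6) a * (1 / 6 - a) ^ k)) ∧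
    ∫ a : ℝ, cellρ (1 / 4) a * (boxI (1 / 6) a * (1 / 6 - a) ^ k) =
      (k.factorial : ℝ) * ((1 / 6) ^ ((k:ℝ) + 1 / 4) / Real.Gamma ((k:ℝ) + 5 / 4)) := by
  have e : (fun a : ℝ => cellρ (1 / 4) a * (boxI (1 / 6) a * (1 / 6 - a) ^ k)) =
      fun a => (k.factorial : ℝ) * (cellρ ((k:ℝ) + 1) (1 / 6 - a) * cellρ (1 / 4) a) := by
    funext a
    rw [k2c_pt k hk a]
    ring
  have hβ : (0:ℝ) < (k:ℝ) + 1 := by positivity
  obtain ⟨h1, h2⟩ := k2c_dir (α := 1 / 4) (β := (k:ℝ) + 1) (by norm_num) hβ (1 / 6)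
  rw [e]
  refine ⟨h1.const_mul _, ?_⟩
  rw [integral_const_mul, h2, k2c_cell (by norm_num)]
  have e1 : (k:ℝ) + 1 + 1 / 4 - 1 = (k:ℝ) + 1 / 4 := by ring
  have e2 : (k:ℝ) + 1 + 1 / 4 = (k:ℝ) + 5 / 4 := by ring
  rw [e1, e2]

private theorem k2c_pow (x : ℝ) : ((1:ℝ) / 6) ^ (x + 1) = (1 / 6) ^ x * (1 / 6) := by
  rw [Real.rpow_add (by norm_num), Real.rpow_one]

private theorem k2c_lin {F2 F3 F4 F5 F6 : ℝ → ℝ} (h2 : Integrable F2) (h3 : Integrable F3)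
    (h4 : Integrable F4) (h5 : Integrable F5) (h6 : Integrable F6) (c2 c3 c4 c5 c6 : ℝ) :
    ∫ a : ℝ, (c2 * F2 a + c3 * F3 a + c4 * F4 a + c5 * F5 a + c6 * F6 a) =
      c2 * (∫ a : ℝ, F2 a) + c3 * (∫ a : ℝ, F3 a) + c4 * (∫ a : ℝ, F4 a) + c5 * (∫ a : ℝ, F5 a) +
        c6 * (∫ a : ℝ, F6 a) := by
  have j2 : Integrable (fun a => c2 * F2 a) := h2.const_mul c2
  have j3 : Integrable (fun a => c3 * F3 a) := h3.const_mul c3
  have j4 : Integrable (fun a => c4 * F4 a) := h4.const_mul c4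
  have j5 : Integrable (fun a => c5 * F5 a) := h5.const_mul c5
  have j6 : Integrable (fun a => c6 * F6 a) := h6.const_mul c6
  have k3 : Integrable (fun a => c2 * F2 a + c3 * F3 a) := j2.add j3
  have k4 : Integrable (fun a => c2 * F2 a + c3 * F3 a + c4 * F4 a) := k3.add j4
  have k5 : Integrable (fun a => c2 * F2 a + c3 * F3 a + c4 * F4 a + c5 * F5 a) := k4.add j5
  rw [integral_add k5 j6, integral_add k4 j5, integral_add k3 j4, integral_add j2 j3,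
    integral_const_mul, integral_const_mul, integral_const_mul, integral_const_mul, integral_const_mul]

theorem Phi_integral : (∫ a : ℝ, cellρ (1 / 4) a * (boxI (1 / 6) a * Phi (1 / 6 - a))) = bval := by
  obtain ⟨i2, v2⟩ := k2c_mom 2 (by norm_num)
  obtain ⟨i3, v3⟩ := k2c_mom 3 (by norm_num)
  obtain ⟨i4, v4⟩ := k2c_mom 4 (by norm_num)
  obtain ⟨i5, v5⟩ := k2c_mom 5 (by norm_num)
  obtain ⟨i6, v6⟩ := k2c_mom 6 (by norm_num)
  have e : (fun a : ℝ => cellρ (1 / 4) a * (boxI (1 / 6) a * Phi (1 / 6 - a))) = fun a =>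
      2 / 27 * (cellρ (1 / 4) a * (boxI (1 / 6) a * (1 / 6 - a) ^ 2)) +
      (-7 / 81) * (cellρ (1 / 4) a * (boxI (1 / 6) a * (1 / 6 - a) ^ 3)) +
      (-47 / 432) * (cellρ (1 / 4) a * (boxI (1 / 6) a * (1 / 6 - a) ^ 4)) +
      29 / 288 * (cellρ (1 / 4) a * (boxI (1 / 6) a * (1 / 6 - a) ^ 5)) +
      373 / 2304 * (cellρ (1 / 4) a * (boxI (1 / 6) a * (1 / 6 - a) ^ 6)) := by
    funext a
    unfold Phi
    ring
  rw [e, k2c_lin i2 i3 i4 i5 i6,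
    v2, v3, v4, v5, v6]
  have p2 : ((1:ℝ) / 6) ^ (((2:ℕ):ℝ) + 1 / 4) = (1 / 6) ^ (9 / 4 : ℝ) := by norm_num
  have p3 : ((1:ℝ) / 6) ^ (((3:ℕ):ℝ) + 1 / 4) = (1 / 6) ^ (9 / 4 : ℝ) * (1 / 6) := by
    rw [← k2c_pow]; norm_num
  have p4 : ((1:ℝ) / 6) ^ (((4:ℕ):ℝ) + 1 / 4) = (1 / 6) ^ (9 / 4 : ℝ) * (1 / 6) * (1 / 6) := by
    rw [← k2c_pow, ← k2c_pow]; norm_num
  have p5 : ((1:ℝ) / 6) ^ (((5:ℕ):ℝ) + 1 / 4) = (1 / 6) ^ (9 / 4 : ℝ) * (1 / 6) * (1 / 6) * (1 / 6) := by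
    rw [← k2c_pow, ← k2c_pow, ← k2c_pow]; norm_num
  have p6 : ((1:ℝ) / 6) ^ (((6:ℕ):ℝ) + 1 / 4) =
      (1 / 6) ^ (9 / 4 : ℝ) * (1 / 6) * (1 / 6) * (1 / 6) * (1 / 6) := by
    rw [← k2c_pow, ← k2c_pow, ← k2c_pow, ← k2c_pow]; norm_num
  have g2 : Real.Gamma (((2:ℕ):ℝ) + 5 / 4) = Real.Gamma (13 / 4) := by norm_num
  have g3 : Real.Gamma (((3:ℕ):ℝ) + 5 / 4) = 13 / 4 * Real.Gamma (13 / 4) := by
    rw [← Real.Gamma_add_one (by norm_num)]; norm_num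
  have g4 : Real.Gamma (((4:ℕ):ℝ) + 5 / 4) = 17 / 4 * (13 / 4 * Real.Gamma (13 / 4)) := by
    rw [← Real.Gamma_add_one (by norm_num), show (13:ℝ) / 4 + 1 = 17 / 4 by norm_num,
      ← Real.Gamma_add_one (by norm_num)]
    norm_num
  have g5 : Real.Gamma (((5:ℕ):ℝ) + 5 / 4) = 21 / 4 * (17 / 4 * (13 / 4 * Real.Gamma (13 / 4))) := by
    rw [← Real.Gamma_add_one (by norm_num), show (13:ℝ) / 4 + 1 = 17 / 4 by norm_num,
      ← Real.Gamma_add_one (by norm_num), show (17:ℝ) / 4 + 1 = 21 / 4 by norm_num,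
      ← Real.Gamma_add_one (by norm_num)]
    norm_num
  have g6 : Real.Gamma (((6:ℕ):ℝ) + 5 / 4) =
      25 / 4 * (21 / 4 * (17 / 4 * (13 / 4 * Real.Gamma (13 / 4)))) := by
    rw [← Real.Gamma_add_one (by norm_num), show (13:ℝ) / 4 + 1 = 17 / 4 by norm_num,
      ← Real.Gamma_add_one (by norm_num), show (17:ℝ) / 4 + 1 = 21 / 4 by norm_num,
      ← Real.Gamma_add_one (by norm_num), show (21:ℝ) / 4 + 1 = 25 / 4 by norm_num,
      ← Real.Gamma_add_one (by norm_num)]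
    norm_num
  rw [p2, p3, p4, p5, p6, g2, g3, g4, g5, g6]
  unfold bval
  have hG : Real.Gamma (13 / 4) ≠ 0 := (Real.Gamma_pos_of_pos (by norm_num)).ne'
  have f2 : ((Nat.factorial 2 : ℕ) : ℝ) = 2 := by norm_num [Nat.factorial]
  have f3 : ((Nat.factorial 3 : ℕ) : ℝ) = 6 := by norm_num [Nat.factorial]
  have f4 : ((Nat.factorial 4 : ℕ) : ℝ) = 24 := by norm_num [Nat.factorial]
  have f5 : ((Nat.factorial 5 : ℕ) : ℝ) = 120 := by norm_num [Nat.factorial]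
  have f6 : ((Nat.factorial 6 : ℕ) : ℝ) = 720 := by norm_num [Nat.factorial]
  rw [f2, f3, f4, f5, f6]
  generalize ((1:ℝ) / 6) ^ (9 / 4 : ℝ) = g
  field_simp
  ring

end Pool.Agent.LibFM89
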