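import Mathlib

/-! # FM89 K3a: upper bound for Γ(1/4) (SHORT/MEDIUM, ONLY MATHLIB)

PLAN.  `Γ(1/4) = 3.625609908..`.  Log-convexity (`Real.convexOn_log_Gamma` or `Real.Gamma_mul_add_mul_le_rpow_Gamma_mul_rpow_Gamma` with `a = b = 1/2`,
`s = n`, `t = n + 1/2`): `Γ(n+1/4)² ≤ Γ(n) Γ(n+1/2)`, `Γ(n+1/4) = ∏_{k<n}(k+1/4) Γ(1/4)`, `Γ(n) = (n-1)!`, `Γ(n+1/2) = ∏_{k<n}(k+1/2) √π`.
With `n = 100`: `Γ(1/4)² ≤ 99! ∏(k+1/2) √π / (∏(k+1/4))² < 3.6268²` (relative error of `Γ(1/4)`: `1/(32 n) = .0003`), `√π < 1.7724539`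
(`Real.pi_lt_d6`).  Rational arithmetic by `norm_num [Finset.prod_range_succ]` or `decide`/`Nat` computation (multiply out by `4^n`).
Template: LibM3/G7.lean `g7_Gamma_quarter` (weaker constant 3.62902). -/

set_option autoImplicit false

namespace Pool.Agent.LibFM89

private theorem K3a_add (x : ℝ) (hx : 0 < x) (n : ℕ) :
    Real.Gamma (x + n) = (∏ k ∈ Finset.range n, ((k:ℝ) + x)) * Real.Gamma x := by
  induction n with
  | zero => simp
  | succ n ih =>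
    have h1 : (0:ℝ) < x + n := by positivity
    have h2 := Real.Gamma_add_one h1.ne'
    rw [show x + ((n + 1 : ℕ) : ℝ) = x + n + 1 by push_cast; ring, h2, ih, Finset.prod_range_succ]
    ring

theorem Gamma_quarter_le : Real.Gamma (1 / 4) ≤ 3627 / 1000 := by
  have h1 := Real.Gamma_mul_add_mul_le_rpow_Gamma_mul_rpow_Gamma (s := 100) (t := 1 / 2 + (100:ℕ))
    (a := 1 / 2) (b := 1 / 2) (by norm_num) (by norm_num) (by norm_num) (by norm_num) (by norm_num)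
  have h2 : (1 / 2 : ℝ) * 100 + 1 / 2 * (1 / 2 + (100:ℕ)) = 1 / 4 + (100:ℕ) := by norm_num
  rw [h2, K3a_add (1 / 4) (by norm_num) 100, K3a_add (1 / 2) (by norm_num) 100,
    Real.Gamma_one_half_eq] at h1
  have h100 : Real.Gamma (100:ℝ) = ((Nat.factorial 99 : ℕ) : ℝ) := by
    have := Real.Gamma_nat_eq_factorial 99
    have h2 : ((99:ℕ):ℝ) + 1 = (100:ℝ) := by norm_num
    rw [h2] at this
    exact this
  rw [h100, ← Real.sqrt_eq_rpow, ← Real.sqrt_eq_rpow] at h1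
  set P := ∏ k ∈ Finset.range 100, ((k:ℝ) + 1 / 4) with hP
  set Q := ∏ k ∈ Finset.range 100, ((k:ℝ) + 1 / 2) with hQ
  have hP0 : 0 < P := Finset.prod_pos fun k _ => by positivity
  have hQ0 : 0 < Q := Finset.prod_pos fun k _ => by positivity
  have hG0 : 0 < Real.Gamma (1 / 4) := Real.Gamma_pos_of_pos (by norm_num)
  have hpi : Real.sqrt Real.pi ≤ 1772454 / 1000000 := by
    rw [Real.sqrt_le_left (by norm_num)]
    have := Real.pi_lt_d6
    linarith
  have hf0 : (0:ℝ) < ((Nat.factorial 99 : ℕ) : ℝ) := by positivity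
  have h3 : (P * Real.Gamma (1 / 4)) ^ 2 ≤ ((Nat.factorial 99 : ℕ) : ℝ) * (Q * Real.sqrt Real.pi) := by
    calc (P * Real.Gamma (1 / 4)) ^ 2 ≤
          (Real.sqrt ((Nat.factorial 99 : ℕ) : ℝ) * Real.sqrt (Q * Real.sqrt Real.pi)) ^ 2 :=
          pow_le_pow_left₀ (by positivity) h1 2
      _ = _ := by
          rw [mul_pow, Real.sq_sqrt hf0.le, Real.sq_sqrt (by positivity)]
  have h4 : ((Nat.factorial 99 : ℕ) : ℝ) * (Q * (1772454 / 1000000)) ≤ (P * (3627 / 1000)) ^ 2 := by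
    rw [hP, hQ]
    norm_num [Finset.prod_range_succ, Nat.factorial]
  have h5 : (P * Real.Gamma (1 / 4)) ^ 2 ≤ (P * (3627 / 1000)) ^ 2 := by
    refine h3.trans (le_trans ?_ h4)
    exact mul_le_mul_of_nonneg_left (mul_le_mul_of_nonneg_left hpi hQ0.le) hf0.le
  have h6 := (pow_le_pow_iff_left₀ (by positivity) (by positivity) two_ne_zero).mp h5
  exact le_of_mul_le_mul_left h6 hP0

end Pool.Agent.LibFM89
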