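import Pool.Agent.LibFM89.Defs
import Pool.Agent.LibFM89.K3a

/-! # FM89 K3b: numerical value of c5 (SHORT/MEDIUM)

PLAN.  `c5² = bval³/cval = β³ (1/6)^(27/4) / Γ(13/4)³ / ((1/6)^(21/4) (2/3) ν³ Γ(9/4)³) = β³ (1/6)^(3/2) (3/2) / (ν³ (9/4)³ Γ(9/4)^6)`, `β = 220433/1879605`,
`ν = 30080/41769`, `Γ(13/4) = (9/4)Γ(9/4)`, `Γ(9/4) = (5/16) Γ(1/4) ≤ (5/16) 3.627`, `(1/6)^(3/2) = 1/(6√6)`, `√6 < 2.4494898`.
Numerically `c5 = .0042770`, with the bound for `Γ(1/4)`: `.0042721 > .00427`. -/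

set_option autoImplicit false

namespace Pool.Agent.LibFM89

open MeasureTheory Set Filter Topology Complex ProbabilityTheory
open scoped NNReal ComplexConjugate
open Pool.Agent.LibZM
open Pool.Agent.LibSM47 (gam ch idx)

private lemma k3b_G94 : Real.Gamma (9 / 4) = 5 / 16 * Real.Gamma (1 / 4) := by
  have h1 : Real.Gamma (9 / 4) = 5 / 4 * Real.Gamma (5 / 4) := by
    rw [← Real.Gamma_add_one (by norm_num : (5 / 4 : ℝ) ≠ 0)]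
    norm_num
  have h2 : Real.Gamma (5 / 4) = 1 / 4 * Real.Gamma (1 / 4) := by
    rw [← Real.Gamma_add_one (by norm_num : (1 / 4 : ℝ) ≠ 0)]
    norm_num
  rw [h1, h2]
  ring

private lemma k3b_G134 : Real.Gamma (13 / 4) = 9 / 4 * Real.Gamma (9 / 4) := by
  rw [← Real.Gamma_add_one (by norm_num : (9 / 4 : ℝ) ≠ 0)]
  norm_num

theorem cval_pos : 0 < bval ∧ 0 < cval := by
  have h1 : 0 < Real.Gamma (9 / 4) := Real.Gamma_pos_of_pos (by norm_num)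
  have h2 : 0 < Real.Gamma (13 / 4) := Real.Gamma_pos_of_pos (by norm_num)
  unfold bval cval
  exact ⟨by positivity, by positivity⟩

theorem c5_gt : 427 / 100000 < c5 := by
  obtain ⟨hb, hc⟩ := cval_pos
  have hG : 0 < Real.Gamma (9 / 4) := Real.Gamma_pos_of_pos (by norm_num)
  have hG2 : Real.Gamma (9 / 4) ≤ 5 / 16 * (3627 / 1000) := by
    rw [k3b_G94]
    exact mul_le_mul_of_nonneg_left Gamma_quarter_le (by norm_num)
  set G := Real.Gamma (9 / 4) with hGdef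
  have hs : (0:ℝ) < √cval := Real.sqrt_pos.mpr hc
  unfold c5
  rw [lt_div_iff₀ hs]
  have hl : 427 / 100000 * √cval = √((427 / 100000) ^ 2 * cval) := by
    rw [Real.sqrt_mul (by positivity), Real.sqrt_sq (by norm_num)]
  have hr : bval ^ (3 / 2 : ℝ) = √(bval ^ 3) := by
    rw [Real.sqrt_eq_rpow, ← Real.rpow_natCast bval 3, ← Real.rpow_mul hb.le]
    norm_num
  rw [hl, hr]
  apply Real.sqrt_lt_sqrt (by positivity)
  have hq : ((1 / 6 : ℝ) ^ (9 / 4 : ℝ)) ^ 3 = (1 / 6 : ℝ) ^ (21 / 4 : ℝ) * (1 / 6 : ℝ) ^ (3 / 2 : ℝ) := by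
    rw [← Real.rpow_natCast ((1 / 6 : ℝ) ^ (9 / 4 : ℝ)) 3, ← Real.rpow_mul (by norm_num),
      ← Real.rpow_add (by norm_num)]
    norm_num
  have h32 : 408248 / 6000000 < (1 / 6 : ℝ) ^ (3 / 2 : ℝ) := by
    have h : (1 / 6 : ℝ) ^ (3 / 2 : ℝ) = 1 / 6 * √(1 / 6) := by
      rw [Real.sqrt_eq_rpow, show (3 / 2 : ℝ) = 1 + 1 / 2 by norm_num, Real.rpow_add (by norm_num), Real.rpow_one]
    rw [h]
    have h2 : (408248 / 1000000 : ℝ) < √(1 / 6) := by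
      apply Real.lt_sqrt_of_sq_lt
      norm_num
    linarith
  have hb3 : bval ^ 3 = (220433 / 1879605) ^ 3 * ((1 / 6 : ℝ) ^ (21 / 4 : ℝ) * (1 / 6 : ℝ) ^ (3 / 2 : ℝ)) /
      (9 / 4 * G) ^ 3 := by
    unfold bval
    rw [k3b_G134, ← hGdef, div_pow, mul_pow, hq]
  rw [hb3]
  unfold cval
  rw [← hGdef, lt_div_iff₀ (by positivity)]
  have h6 : (0:ℝ) < (1 / 6 : ℝ) ^ (21 / 4 : ℝ) := by positivity
  have hG6 : G ^ 6 ≤ (5 / 16 * (3627 / 1000)) ^ 6 := pow_le_pow_left₀ hG.le hG2 6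
  have key : (427 / 100000) ^ 2 * (2 / 3 * (30080 / 41769) ^ 3) * (9 / 4) ^ 3 * G ^ 6 <
      (220433 / 1879605) ^ 3 * (1 / 6 : ℝ) ^ (3 / 2 : ℝ) := by
    calc (427 / 100000) ^ 2 * (2 / 3 * (30080 / 41769) ^ 3) * (9 / 4) ^ 3 * G ^ 6
        ≤ (427 / 100000) ^ 2 * (2 / 3 * (30080 / 41769) ^ 3) * (9 / 4) ^ 3 * (5 / 16 * (3627 / 1000)) ^ 6 :=
          mul_le_mul_of_nonneg_left hG6 (by norm_num)
      _ < (220433 / 1879605) ^ 3 * (408248 / 6000000) := by norm_num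
      _ ≤ (220433 / 1879605) ^ 3 * (1 / 6 : ℝ) ^ (3 / 2 : ℝ) :=
          mul_le_mul_of_nonneg_left h32.le (by norm_num)
  calc (427 / 100000) ^ 2 * ((1 / 6 : ℝ) ^ (21 / 4 : ℝ) * (2 / 3 * (30080 / 41769) ^ 3 * G ^ 3)) * (9 / 4 * G) ^ 3
      = (1 / 6 : ℝ) ^ (21 / 4 : ℝ) * ((427 / 100000) ^ 2 * (2 / 3 * (30080 / 41769) ^ 3) * (9 / 4) ^ 3 * G ^ 6) := by
        ring
    _ < (1 / 6 : ℝ) ^ (21 / 4 : ℝ) * ((220433 / 1879605) ^ 3 * (1 / 6 : ℝ) ^ (3 / 2 : ℝ)) :=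
        mul_lt_mul_of_pos_left key h6
    _ = (220433 / 1879605) ^ 3 * ((1 / 6 : ℝ) ^ (21 / 4 : ℝ) * (1 / 6 : ℝ) ^ (3 / 2 : ℝ)) := by ring

end Pool.Agent.LibFM89
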