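import Pool.Agent.LibFM89.Defs

/-! # FM89: definitions for the closed form of BI (block K) -/

set_option autoImplicit false

namespace Pool.Agent.LibFM89

open MeasureTheory Set Filter Topology Complex ProbabilityTheory
open scoped NNReal ComplexConjugate
open Pool.Agent.LibZM
open Pool.Agent.LibSM47 (gam ch idx)

/-- Weight after the integration of `e, u, v`: `A1 A2 R²/2 - (A1+A2) R³/3 + R⁴/4` with `A1 = 1-c-(t-b)/3`, `A2 = 1-b-(t-c)/3`,
`R = 2/3+t-b-c`. -/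
noncomputable def Q3 (t b c : ℝ) : ℝ :=
  (1 - c - (t - b) / 3) * (1 - b - (t - c) / 3) * (2 / 3 + t - b - c) ^ 2 / 2 -
    ((1 - c - (t - b) / 3) + (1 - b - (t - c) / 3)) * (2 / 3 + t - b - c) ^ 3 / 3 + (2 / 3 + t - b - c) ^ 4 / 4

/-- The polynomial after the integration of `b, c`. -/
noncomputable def Phi (t : ℝ) : ℝ :=
  2 / 27 * t ^ 2 - 7 / 81 * t ^ 3 - 47 / 432 * t ^ 4 + 29 / 288 * t ^ 5 + 373 / 2304 * t ^ 6

/-- The three dimensional integral. -/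
noncomputable def BI3 : ℝ :=
  ∫ a : ℝ, ∫ b : ℝ, ∫ c : ℝ, cellρ (1 / 4) a * (cellρ (1 / 2) b * cellρ (3 / 2) (1 / 6 - a - b)) *
    (cellρ (1 / 2) c * cellρ (3 / 2) (1 / 6 - a - c)) * Q3 (1 / 6 - a) b c

end Pool.Agent.LibFM89
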