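import Pool.Agent.LibFM89.Defs

/-! # FM89 N0: elementary bounds for the coefficients (SHORT/MEDIUM)

PLAN.  `L = log T > 0`, `q ∈ idx T` means `1 ≤ m, n ≤ T`, coprime.  `0 ≤ tau (1/2) l ≤ 1` (`tau_nonneg`, `LibM3.q4_tau_le_one`), `0 ≤ f ≤ 1`.
(1) If `xq χ T q ≠ 0` then `log m + log n ≤ (5/6-ε) L`; if `aP f T l ≠ 0` then `log l ≤ (1/6-ε) L`; so `wl ≥ 1 - (5/6-ε) - (1/6-ε) = 2ε` (as
`log gcd ≥ 0`); and `gcd ∣ l`, `gcd ∣ m` give `2 log gcd ≤ log l + log m`, so `wl ≤ 1`.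
(2) sums: `2ε V0 ≤ V1 ≤ V0`.
(3) `V0 ≤ ∑_{l ≤ T} (l,m)/l ≤ ∑_{g ∣ m} ∑_{l' ≤ T} 1/l' ≤ d(m) (1 + log T)` (write `l = g l'`, `g = (l,m)`). -/

set_option autoImplicit false

namespace Pool.Agent.LibFM89

open MeasureTheory Set Filter Topology Complex ProbabilityTheory
open scoped NNReal ComplexConjugate
open Pool.Agent.LibZM
open Pool.Agent.LibSM47 (gam ch idx)

private theorem N0_tau_le_one (n : ℕ) : tau (1/2) n ≤ 1 := by
  rcases eq_or_ne n 0 with rfl | hn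
  · simp
  · exact (tau_mono (by norm_num) (by norm_num) n).trans (tau_one_apply hn).le

theorem aP_nonneg {ε : ℝ} {f : ℝ → ℝ} (hf : AdmF ε f) (T : ℝ) (l : ℕ) : 0 ≤ aP f T l ∧ aP f T l ≤ 1 := by
  have h0 : 0 ≤ tau (1/2) l := tau_nonneg (by norm_num) l
  have h1 : tau (1/2) l ≤ 1 := N0_tau_le_one l
  have h2 := hf.2.1 (Real.log l / Real.log T)
  unfold aP
  exact ⟨mul_nonneg h0 h2.1, mul_le_one₀ h1 h2.1 h2.2⟩

theorem wl_bounds {ε : ℝ} {f χ : ℝ → ℝ} (hf : AdmF ε f) (hχ : AdmX ε χ) {T : ℝ} (hT : 2 ≤ T) {q : ℕ × ℕ} (hq : q ∈ idx T)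
    (hx : xq χ T q ≠ 0) {l : ℕ} (hl : 1 ≤ l) (ha : aP f T l ≠ 0) :
    2 * ε ≤ wl T q.1 q.2 l ∧ wl T q.1 q.2 l ≤ 1 := by
  have hL : 0 < Real.log T := Real.log_pos (by linarith)
  have hfl : f (Real.log l / Real.log T) ≠ 0 := by
    intro h
    apply ha
    unfold aP
    rw [h, mul_zero]
  have h1 := hf.2.2 _ hfl
  have h2 := hχ.2.2 _ hx
  have hq' := hq
  unfold Pool.Agent.LibSM47.idx at hq'
  rw [Finset.mem_filter, Finset.mem_product, Finset.mem_Icc, Finset.mem_Icc] at hq'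
  obtain ⟨⟨⟨hm1, _⟩, ⟨hn1, _⟩⟩, _⟩ := hq'
  have hg1 : 1 ≤ Nat.gcd l q.1 := Nat.gcd_pos_of_pos_left _ hl
  have hgl : Nat.gcd l q.1 ≤ l := Nat.gcd_le_left _ hl
  have hgm : Nat.gcd l q.1 ≤ q.1 := Nat.gcd_le_right _ hm1
  have hg1' : (1:ℝ) ≤ (Nat.gcd l q.1 : ℝ) := by exact_mod_cast hg1
  have hlg0 : 0 ≤ Real.log (Nat.gcd l q.1 : ℝ) := Real.log_nonneg hg1'
  have hlgl : Real.log (Nat.gcd l q.1 : ℝ) ≤ Real.log l :=
    Real.log_le_log (by linarith) (by exact_mod_cast hgl)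
  have hlgm : Real.log (Nat.gcd l q.1 : ℝ) ≤ Real.log q.1 :=
    Real.log_le_log (by linarith) (by exact_mod_cast hgm)
  have hn0 : 0 ≤ Real.log (q.2 : ℝ) := Real.log_nonneg (by exact_mod_cast hn1)
  rw [div_le_iff₀ hL] at h1 h2
  unfold wl
  constructor
  · have : (Real.log q.1 + Real.log q.2 + Real.log l - 2 * Real.log (Nat.gcd l q.1)) / Real.log T ≤ 1 - 2 * ε := by
      rw [div_le_iff₀ hL]
      nlinarith
    linarith
  · have : 0 ≤ (Real.log q.1 + Real.log q.2 + Real.log l - 2 * Real.log (Nat.gcd l q.1)) / Real.log T := by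
      apply div_nonneg _ hL.le
      linarith
    linarith

private theorem N0_inner (N g : ℕ) (hg : 1 ≤ g) :
    ∑ l ∈ (Finset.Icc 1 N).filter (fun l => g ∣ l), ((g : ℝ) / l) ≤ 1 + Real.log N := by
  have hinj : Set.InjOn (fun l : ℕ => l / g) ((Finset.Icc 1 N).filter (fun l => g ∣ l)) := by
    intro a ha b hb hab
    have ha' := (Finset.mem_filter.mp ha).2
    have hb' := (Finset.mem_filter.mp hb).2
    simp only at hab
    rw [← Nat.div_mul_cancel ha', ← Nat.div_mul_cancel hb', hab]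
  have h1 : ∑ l ∈ (Finset.Icc 1 N).filter (fun l => g ∣ l), ((g : ℝ) / l)
      = ∑ k ∈ ((Finset.Icc 1 N).filter (fun l => g ∣ l)).image (fun l => l / g), ((k : ℝ))⁻¹ := by
    rw [Finset.sum_image hinj]
    apply Finset.sum_congr rfl
    intro l hl
    have hd := (Finset.mem_filter.mp hl).2
    have hl1 := (Finset.mem_Icc.mp (Finset.mem_filter.mp hl).1).1
    have hg' : (g : ℝ) ≠ 0 := by positivity
    rw [Nat.cast_div hd hg', inv_div]
  rw [h1]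
  have hsub : ((Finset.Icc 1 N).filter (fun l => g ∣ l)).image (fun l => l / g) ⊆ Finset.Icc 1 N := by
    intro k hk
    rw [Finset.mem_image] at hk
    obtain ⟨l, hl, rfl⟩ := hk
    rw [Finset.mem_filter, Finset.mem_Icc] at hl
    rw [Finset.mem_Icc]
    refine ⟨?_, (Nat.div_le_self l g).trans hl.1.2⟩
    exact (Nat.one_le_div_iff (by omega)).mpr (Nat.le_of_dvd (by omega) hl.2)
  refine (Finset.sum_le_sum_of_subset_of_nonneg hsub (fun i _ _ => by positivity)).trans ?_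
  have h2 := harmonic_le_one_add_log N
  rw [harmonic_eq_sum_Icc] at h2
  push_cast at h2
  exact h2

private theorem N0_sum (N m : ℕ) (hm : 1 ≤ m) :
    ∑ l ∈ Finset.Icc 1 N, ((Nat.gcd l m : ℝ) / l) ≤ (m.divisors.card : ℝ) * (1 + Real.log N) := by
  have h1 : ∀ l ∈ Finset.Icc 1 N, ((Nat.gcd l m : ℝ) / l) ≤ ∑ g ∈ m.divisors, (if g ∣ l then ((g : ℝ) / l) else 0) := by
    intro l hl
    have hmem : Nat.gcd l m ∈ m.divisors := Nat.mem_divisors.mpr ⟨Nat.gcd_dvd_right l m, by omega⟩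
    have := Finset.single_le_sum (f := fun g : ℕ => (if g ∣ l then ((g : ℝ) / l) else 0))
      (fun i _ => by split_ifs <;> positivity) hmem
    simp only [Nat.gcd_dvd_left, if_true] at this
    exact this
  refine (Finset.sum_le_sum h1).trans ?_
  rw [Finset.sum_comm]
  have h2 : ∀ g ∈ m.divisors, ∑ l ∈ Finset.Icc 1 N, (if g ∣ l then ((g : ℝ) / l) else 0) ≤ 1 + Real.log N := by
    intro g hg
    rw [← Finset.sum_filter]
    exact N0_inner N g (Nat.pos_of_mem_divisors hg)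
  refine (Finset.sum_le_card_nsmul _ _ _ h2).trans ?_
  rw [nsmul_eq_mul]

theorem V_bounds {ε : ℝ} (hε : 0 < ε) {f χ : ℝ → ℝ} (hf : AdmF ε f) (hχ : AdmX ε χ) {T : ℝ} (hT : 2 ≤ T) {q : ℕ × ℕ}
    (hq : q ∈ idx T) (hx : xq χ T q ≠ 0) :
    0 ≤ V0 f T q.1 ∧ 2 * ε * V0 f T q.1 ≤ V1 f T q.1 q.2 ∧ V1 f T q.1 q.2 ≤ V0 f T q.1 ∧
      V0 f T q.1 ≤ (q.1.divisors.card : ℝ) * (1 + Real.log T) := by
  have hq' := hq
  unfold Pool.Agent.LibSM47.idx at hq'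
  rw [Finset.mem_filter, Finset.mem_product, Finset.mem_Icc, Finset.mem_Icc] at hq'
  obtain ⟨⟨⟨hm1, _⟩, ⟨hn1, _⟩⟩, _⟩ := hq'
  have hterm : ∀ l : ℕ, 0 ≤ aP f T l * ((Nat.gcd l q.1 : ℝ) / l) := fun l =>
    mul_nonneg (aP_nonneg hf T l).1 (by positivity)
  refine ⟨?_, ?_, ?_, ?_⟩
  · unfold V0
    exact Finset.sum_nonneg fun l _ => hterm l
  · unfold V0 V1
    rw [Finset.mul_sum]
    apply Finset.sum_le_sum
    intro l hl
    by_cases ha : aP f T l = 0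
    · rw [ha]; simp
    · have := (wl_bounds hf hχ hT hq hx (Finset.mem_Icc.mp hl).1 ha).1
      rw [mul_comm (2 * ε)]
      exact mul_le_mul_of_nonneg_left this (hterm l)
  · unfold V0 V1
    apply Finset.sum_le_sum
    intro l hl
    by_cases ha : aP f T l = 0
    · rw [ha]; simp
    · have := (wl_bounds hf hχ hT hq hx (Finset.mem_Icc.mp hl).1 ha).2
      exact mul_le_of_le_one_right (hterm l) this
  · unfold V0
    have h1 : ∑ l ∈ Finset.Icc 1 ⌊T⌋₊, aP f T l * ((Nat.gcd l q.1 : ℝ) / l)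
        ≤ ∑ l ∈ Finset.Icc 1 ⌊T⌋₊, ((Nat.gcd l q.1 : ℝ) / l) := by
      apply Finset.sum_le_sum
      intro l _
      exact mul_le_of_le_one_left (by positivity) (aP_nonneg hf T l).2
    refine h1.trans ((N0_sum ⌊T⌋₊ q.1 hm1).trans ?_)
    apply mul_le_mul_of_nonneg_left _ (by positivity)
    have hfl : (1:ℝ) ≤ (⌊T⌋₊ : ℝ) := by
      have : 1 ≤ ⌊T⌋₊ := Nat.le_floor (by push_cast; linarith)
      exact_mod_cast this
    have : Real.log (⌊T⌋₊ : ℝ) ≤ Real.log T :=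
      Real.log_le_log (by linarith) (Nat.floor_le (by linarith))
    linarith

theorem cD_nonneg {ε : ℝ} (hε : 0 < ε) {f χ : ℝ → ℝ} (hf : AdmF ε f) (hχ : AdmX ε χ) {T : ℝ} (hT : 2 ≤ T) {q : ℕ × ℕ}
    (hq : q ∈ idx T) : 0 ≤ cD f χ T q := by
  unfold cD
  by_cases hx : xq χ T q = 0
  · rw [hx]; simp
  · obtain ⟨h0, h1, _, _⟩ := V_bounds hε hf hχ hT hq hx
    have hV1 : 0 ≤ V1 f T q.1 q.2 := le_trans (by positivity) h1
    have hx0 : 0 ≤ xq χ T q := (hχ.2.1 _).1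
    exact mul_nonneg (mul_nonneg (by positivity) hx0) hV1

end Pool.Agent.LibFM89
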