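import Pool.Agent.LibFM89.N1
import Pool.Agent.LibFM89.N2
import Pool.Agent.LibFM89.T5

/-! # FM89 N3: the numerator (MEDIUM)

PLAN.  In `N_expand` (N2) the fraction `(m/n)/l` is `a/b` with `g = (l,m)`, `a = m/g`, `b = n (l/g)`, coprime (because `(m,n) = 1` and
`(m/g, l/g) = 1`), `a b = m n l/g²`, and for nonzero terms `ab ≤ mnl ≤ T^(1-2ε)`.  `second_fraction` (T5) with `ε' = 2ε`, `δ ≤ ε/8`:
`I2 = (ab)^(-1/2) (log T - log ab) + O((ab)^(-1/2)) + O(T^(-1/2) log² T)`, `(ab)^(-1/2) = g (mnl)^(-1/2)`, `log T - log ab = log T · wl T m n l`.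
Sum over `l`: `(mn)^(-1/2) (log T · V1 + O(V0)) + O(T^(-1/2) log² T · C T^(1/12-ε/2))` (N1), and `V0 ≤ V1/(2ε)` (N0, V_bounds).
Sum over `q`: `cD (mn)^(-1/2) V1 = (mn)^(-1) xq V1²`: total `log T · SS + O(SS) + O(T^(-1/2) log² T T^(1/12-ε/2) T^(5/12-ε/4))`, the last
is `≤ 1` for large `T`. -/

set_option autoImplicit false

namespace Pool.Agent.LibFM89

open MeasureTheory Set Filter Topology Complex ProbabilityTheory
open scoped NNReal ComplexConjugate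
open Pool.Agent.LibZM
open Pool.Agent.LibSM47 (gam ch idx)

private theorem n3_frac {m n l : ℕ} (hm : 1 ≤ m) (hn : 1 ≤ n) (hl : 1 ≤ l) (hc : Nat.Coprime m n) :
    ∃ a b : ℕ, 1 ≤ a ∧ 1 ≤ b ∧ Nat.Coprime a b ∧ (m : ℝ) / n / l = (a : ℝ) / b ∧
      (a : ℝ) * b ≤ (m : ℝ) * n * l ∧
      ((a : ℝ) * b) ^ (-(1 / 2) : ℝ) =
        (Nat.gcd l m : ℝ) * ((m : ℝ) * n) ^ (-(1 / 2) : ℝ) * (l : ℝ) ^ (-(1 / 2) : ℝ) ∧
      Real.log ((a : ℝ) * b) =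
        Real.log m + Real.log n + Real.log l - 2 * Real.log (Nat.gcd l m) := by
  have hg : 0 < Nat.gcd l m := Nat.gcd_pos_of_pos_left _ (by omega)
  have hcop := Nat.coprime_div_gcd_div_gcd hg
  obtain ⟨l', hl'⟩ := Nat.gcd_dvd_left l m
  obtain ⟨a, ha⟩ := Nat.gcd_dvd_right l m
  have e1 : l / Nat.gcd l m = l' := Nat.div_eq_of_eq_mul_right hg hl'
  have e2 : m / Nat.gcd l m = a := Nat.div_eq_of_eq_mul_right hg ha
  rw [e1, e2] at hcop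
  have ha1 : 1 ≤ a := by
    rcases Nat.eq_zero_or_pos a with h | h
    · rw [h, mul_zero] at ha
      omega
    · exact h
  have hl1 : 1 ≤ l' := by
    rcases Nat.eq_zero_or_pos l' with h | h
    · rw [h, mul_zero] at hl'
      omega
    · exact h
  have hgR : (1 : ℝ) ≤ (Nat.gcd l m : ℝ) := by exact_mod_cast hg
  have hmR : (m : ℝ) = (Nat.gcd l m : ℝ) * a := by exact_mod_cast ha
  have hlR : (l : ℝ) = (Nat.gcd l m : ℝ) * l' := by exact_mod_cast hl'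
  have haR : (1 : ℝ) ≤ a := by exact_mod_cast ha1
  have hlR1 : (1 : ℝ) ≤ l' := by exact_mod_cast hl1
  have hnR : (1 : ℝ) ≤ n := by exact_mod_cast hn
  generalize (Nat.gcd l m : ℝ) = G at hgR hmR hlR
  have hG0 : 0 < G := by linarith
  have ha0 : (0 : ℝ) < a := by linarith
  have hn0 : (0 : ℝ) < n := by linarith
  have hl0 : (0 : ℝ) < l' := by linarith
  refine ⟨a, n * l', ha1, Nat.mul_pos (by omega) hl1, ?_, ?_, ?_, ?_, ?_⟩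
  · exact Nat.Coprime.mul_right (Nat.Coprime.coprime_dvd_left ⟨_, by rw [mul_comm]; exact ha⟩ hc) hcop.symm
  · rw [hmR, hlR]
    push_cast
    field_simp
  · rw [hmR, hlR]
    push_cast
    have h1 : (a : ℝ) * (n * l') * 1 ≤ (a : ℝ) * (n * l') * (G * G) :=
      mul_le_mul_of_nonneg_left (by nlinarith) (by positivity)
    calc (a : ℝ) * (n * l') = (a : ℝ) * (n * l') * 1 := (mul_one _).symm
      _ ≤ (a : ℝ) * (n * l') * (G * G) := h1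
      _ = G * a * n * (G * l') := by ring
  · have h1 : ((m : ℝ) * n) ^ (-(1 / 2) : ℝ) * (l : ℝ) ^ (-(1 / 2) : ℝ) =
        G⁻¹ * ((a : ℝ) * (n * l')) ^ (-(1 / 2) : ℝ) := by
      rw [hmR, hlR, ← Real.mul_rpow (by positivity) (by positivity),
        show G * (a : ℝ) * n * (G * l') = G ^ 2 * (a * (n * l')) by ring,
        Real.mul_rpow (by positivity) (by positivity), ← Real.rpow_natCast G 2,
        ← Real.rpow_mul hG0.le, show ((2 : ℕ) : ℝ) * (-(1 / 2)) = -1 by norm_num,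
        Real.rpow_neg_one]
    push_cast
    rw [mul_assoc, h1, ← mul_assoc G, mul_inv_cancel₀ hG0.ne', one_mul]
  · rw [hmR, hlR, Real.log_mul hG0.ne' ha0.ne', Real.log_mul hG0.ne' hl0.ne']
    push_cast
    rw [Real.log_mul ha0.ne' (by positivity), Real.log_mul hn0.ne' hl0.ne']
    ring

private theorem n3_size {ε : ℝ} {f χ : ℝ → ℝ} (hf : AdmF ε f) (hχ : AdmX ε χ) {T : ℝ} (hT : 2 ≤ T)
    {q : ℕ × ℕ} (hq1 : 1 ≤ q.1) (hq2 : 1 ≤ q.2) (hx : xq χ T q ≠ 0) {l : ℕ} (hl : 1 ≤ l)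
    (ha : aP f T l ≠ 0) : (q.1 : ℝ) * q.2 * l ≤ T ^ (1 - 2 * ε) := by
  have hL : 0 < Real.log T := Real.log_pos (by linarith)
  have h1 : (Real.log q.1 + Real.log q.2) / Real.log T ≤ 5 / 6 - ε := hχ.2.2 _ hx
  have h2 : Real.log l / Real.log T ≤ 1 / 6 - ε := hf.2.2 _ (right_ne_zero_of_mul ha)
  rw [div_le_iff₀ hL] at h1 h2
  have hm0 : (0 : ℝ) < q.1 := by exact_mod_cast hq1
  have hn0 : (0 : ℝ) < q.2 := by exact_mod_cast hq2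
  have hl0 : (0 : ℝ) < l := by exact_mod_cast hl
  rw [Real.le_rpow_iff_log_le (by positivity) (by linarith), Real.log_mul (by positivity) hl0.ne',
    Real.log_mul hm0.ne' hn0.ne']
  nlinarith

private theorem n3_term {ε : ℝ} (hε : 0 < ε) {f χ : ℝ → ℝ} (hf : AdmF ε f)
    (hχ : AdmX ε χ) {T : ℝ} (hT : 2 ≤ T) {V u C : ℝ} (hC : 0 < C)
    (H : ∀ m n : ℕ, 1 ≤ m → 1 ≤ n → Nat.Coprime m n → (m : ℝ) * n ≤ T ^ (1 - 2 * ε) →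
      ‖I2 V u ((m : ℝ) / n) -
          ((((m : ℝ) * n) ^ (-(1 / 2) : ℝ) * (Real.log T - Real.log ((m : ℝ) * n)) : ℝ) : ℂ)‖ ≤
        C * ((m : ℝ) * n) ^ (-(1 / 2) : ℝ) + C * (T ^ (-(1 / 2) : ℝ) * Real.log T ^ 2))
    {q : ℕ × ℕ} (hq : q ∈ idx T) {l : ℕ} (hl : 1 ≤ l) :
    ‖(cD f χ T q : ℂ) * (((aP f T l * (l : ℝ) ^ (-(1 / 2) : ℝ) : ℝ) : ℂ) *
        I2 V u ((q.1 : ℝ) / q.2 / l)) -
        ((cD f χ T q * ((q.1 : ℝ) * q.2) ^ (-(1 / 2) : ℝ) *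
          (aP f T l * ((Nat.gcd l q.1 : ℝ) / l) * wl T q.1 q.2 l) * Real.log T : ℝ) : ℂ)‖ ≤
      C * (cD f χ T q * ((q.1 : ℝ) * q.2) ^ (-(1 / 2) : ℝ) *
          (aP f T l * ((Nat.gcd l q.1 : ℝ) / l))) +
        C * (T ^ (-(1 / 2) : ℝ) * Real.log T ^ 2) *
          (cD f χ T q * (aP f T l * (l : ℝ) ^ (-(1 / 2) : ℝ))) := by
  have hL : 0 < Real.log T := Real.log_pos (by linarith)
  have hT0 : 0 < T := by linarith
  have hq' := hq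
  unfold LibSM47.idx at hq'
  rw [Finset.mem_filter, Finset.mem_product, Finset.mem_Icc, Finset.mem_Icc] at hq'
  obtain ⟨⟨⟨hm, -⟩, ⟨hn, -⟩⟩, hco⟩ := hq'
  have hcD := cD_nonneg hε hf hχ hT hq
  have haP := (aP_nonneg hf T l).1
  have hl0 : (0 : ℝ) < l := by exact_mod_cast hl
  have hm0 : (0 : ℝ) < q.1 := by exact_mod_cast hm
  have hn0 : (0 : ℝ) < q.2 := by exact_mod_cast hn
  have hlr : 0 ≤ (l : ℝ) ^ (-(1 / 2) : ℝ) := by positivity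
  have hmn : 0 ≤ ((q.1 : ℝ) * q.2) ^ (-(1 / 2) : ℝ) := by positivity
  have hgl : 0 ≤ (Nat.gcd l q.1 : ℝ) / l := by positivity
  have hE : 0 ≤ C * (T ^ (-(1 / 2) : ℝ) * Real.log T ^ 2) := by positivity
  have hR : 0 ≤ C * (cD f χ T q * ((q.1 : ℝ) * q.2) ^ (-(1 / 2) : ℝ) *
          (aP f T l * ((Nat.gcd l q.1 : ℝ) / l))) +
        C * (T ^ (-(1 / 2) : ℝ) * Real.log T ^ 2) *
          (cD f χ T q * (aP f T l * (l : ℝ) ^ (-(1 / 2) : ℝ))) := by positivity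
  rcases eq_or_ne (cD f χ T q) 0 with h0 | h0
  · rw [h0] at hR ⊢
    simp only [Complex.ofReal_zero, zero_mul, sub_zero, norm_zero, mul_zero, add_zero, le_refl]
  rcases eq_or_ne (aP f T l) 0 with h1 | h1
  · rw [h1] at hR ⊢
    simp only [Complex.ofReal_zero, zero_mul, sub_zero, norm_zero, mul_zero, add_zero, le_refl]
  have hx : xq χ T q ≠ 0 := by
    intro h
    apply h0
    unfold cD
    rw [h]
    ring
  obtain ⟨a, b, ha, hb, hab, e1, e2, e3, e4⟩ := n3_frac hm hn hl hco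
  have hsz := n3_size hf hχ hT hm hn hx hl h1
  have hH := H a b ha hb hab (e2.trans hsz)
  rw [← e1, e3, e4] at hH
  have hll : (l : ℝ) ^ (-(1 / 2) : ℝ) * (l : ℝ) ^ (-(1 / 2) : ℝ) = 1 / l := by
    rw [← Real.rpow_add hl0, show (-(1 / 2) + -(1 / 2) : ℝ) = -1 by norm_num, Real.rpow_neg_one,
      one_div]
  have hwl : Real.log T * wl T q.1 q.2 l = Real.log T -
      (Real.log q.1 + Real.log q.2 + Real.log l - 2 * Real.log (Nat.gcd l q.1)) := by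
    unfold wl
    field_simp
  have hmain : cD f χ T q * ((q.1 : ℝ) * q.2) ^ (-(1 / 2) : ℝ) *
          (aP f T l * ((Nat.gcd l q.1 : ℝ) / l) * wl T q.1 q.2 l) * Real.log T =
      cD f χ T q * (aP f T l * (l : ℝ) ^ (-(1 / 2) : ℝ)) *
        ((Nat.gcd l q.1 : ℝ) * ((q.1 : ℝ) * q.2) ^ (-(1 / 2) : ℝ) * (l : ℝ) ^ (-(1 / 2) : ℝ) *
          (Real.log T - (Real.log q.1 + Real.log q.2 + Real.log l -
            2 * Real.log (Nat.gcd l q.1)))) := by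
    rw [← hwl]
    calc cD f χ T q * ((q.1 : ℝ) * q.2) ^ (-(1 / 2) : ℝ) *
          (aP f T l * ((Nat.gcd l q.1 : ℝ) / l) * wl T q.1 q.2 l) * Real.log T
        = cD f χ T q * aP f T l * (Nat.gcd l q.1 : ℝ) * ((q.1 : ℝ) * q.2) ^ (-(1 / 2) : ℝ) *
          (Real.log T * wl T q.1 q.2 l) * (1 / l) := by ring
      _ = cD f χ T q * aP f T l * (Nat.gcd l q.1 : ℝ) * ((q.1 : ℝ) * q.2) ^ (-(1 / 2) : ℝ) *
          (Real.log T * wl T q.1 q.2 l) *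
            ((l : ℝ) ^ (-(1 / 2) : ℝ) * (l : ℝ) ^ (-(1 / 2) : ℝ)) := by rw [hll]
      _ = _ := by ring
  rw [hmain]
  have hfac : (cD f χ T q : ℂ) * (((aP f T l * (l : ℝ) ^ (-(1 / 2) : ℝ) : ℝ) : ℂ) *
        I2 V u ((q.1 : ℝ) / q.2 / l)) -
      ((cD f χ T q * (aP f T l * (l : ℝ) ^ (-(1 / 2) : ℝ)) *
        ((Nat.gcd l q.1 : ℝ) * ((q.1 : ℝ) * q.2) ^ (-(1 / 2) : ℝ) * (l : ℝ) ^ (-(1 / 2) : ℝ) *
          (Real.log T - (Real.log q.1 + Real.log q.2 + Real.log l -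
            2 * Real.log (Nat.gcd l q.1)))) : ℝ) : ℂ) =
      ((cD f χ T q * (aP f T l * (l : ℝ) ^ (-(1 / 2) : ℝ)) : ℝ) : ℂ) *
        (I2 V u ((q.1 : ℝ) / q.2 / l) -
          (((Nat.gcd l q.1 : ℝ) * ((q.1 : ℝ) * q.2) ^ (-(1 / 2) : ℝ) * (l : ℝ) ^ (-(1 / 2) : ℝ) *
          (Real.log T - (Real.log q.1 + Real.log q.2 + Real.log l -
            2 * Real.log (Nat.gcd l q.1))) : ℝ) : ℂ)) := by
    rw [Complex.ofReal_mul (cD f χ T q * (aP f T l * (l : ℝ) ^ (-(1 / 2) : ℝ))),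
      Complex.ofReal_mul (cD f χ T q)]
    ring
  rw [hfac, norm_mul, Complex.norm_real, Real.norm_of_nonneg (by positivity)]
  calc cD f χ T q * (aP f T l * (l : ℝ) ^ (-(1 / 2) : ℝ)) *
        ‖I2 V u ((q.1 : ℝ) / q.2 / l) -
          (((Nat.gcd l q.1 : ℝ) * ((q.1 : ℝ) * q.2) ^ (-(1 / 2) : ℝ) * (l : ℝ) ^ (-(1 / 2) : ℝ) *
          (Real.log T - (Real.log q.1 + Real.log q.2 + Real.log l -
            2 * Real.log (Nat.gcd l q.1))) : ℝ) : ℂ)‖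
      ≤ cD f χ T q * (aP f T l * (l : ℝ) ^ (-(1 / 2) : ℝ)) *
        (C * ((Nat.gcd l q.1 : ℝ) * ((q.1 : ℝ) * q.2) ^ (-(1 / 2) : ℝ) *
          (l : ℝ) ^ (-(1 / 2) : ℝ)) + C * (T ^ (-(1 / 2) : ℝ) * Real.log T ^ 2)) :=
        mul_le_mul_of_nonneg_left hH (by positivity)
    _ = C * (cD f χ T q * ((q.1 : ℝ) * q.2) ^ (-(1 / 2) : ℝ) *
          (aP f T l * (Nat.gcd l q.1 : ℝ) * ((l : ℝ) ^ (-(1 / 2) : ℝ) * (l : ℝ) ^ (-(1 / 2) : ℝ)))) +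
        C * (T ^ (-(1 / 2) : ℝ) * Real.log T ^ 2) *
          (cD f χ T q * (aP f T l * (l : ℝ) ^ (-(1 / 2) : ℝ))) := by ring
    _ = C * (cD f χ T q * ((q.1 : ℝ) * q.2) ^ (-(1 / 2) : ℝ) *
          (aP f T l * ((Nat.gcd l q.1 : ℝ) / l))) +
        C * (T ^ (-(1 / 2) : ℝ) * Real.log T ^ 2) *
          (cD f χ T q * (aP f T l * (l : ℝ) ^ (-(1 / 2) : ℝ))) := by
        rw [hll]
        ring

private theorem n3_cD (f χ : ℝ → ℝ) (T : ℝ) {q : ℕ × ℕ} (hm : 1 ≤ q.1) (hn : 1 ≤ q.2) :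
    cD f χ T q * ((q.1 : ℝ) * q.2) ^ (-(1 / 2) : ℝ) =
      ((q.1 : ℝ) * q.2)⁻¹ * xq χ T q * V1 f T q.1 q.2 := by
  have hm0 : (0 : ℝ) < q.1 := by exact_mod_cast hm
  have hn0 : (0 : ℝ) < q.2 := by exact_mod_cast hn
  have h : ((q.1 : ℝ) * q.2) ^ (-(1 / 2) : ℝ) * ((q.1 : ℝ) * q.2) ^ (-(1 / 2) : ℝ) =
      ((q.1 : ℝ) * q.2)⁻¹ := by
    rw [← Real.rpow_add (by positivity), show (-(1 / 2) + -(1 / 2) : ℝ) = -1 by norm_num,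
      Real.rpow_neg_one]
  unfold cD
  calc ((q.1 : ℝ) * q.2) ^ (-(1 / 2) : ℝ) * xq χ T q * V1 f T q.1 q.2 *
        ((q.1 : ℝ) * q.2) ^ (-(1 / 2) : ℝ)
      = (((q.1 : ℝ) * q.2) ^ (-(1 / 2) : ℝ) * ((q.1 : ℝ) * q.2) ^ (-(1 / 2) : ℝ)) *
        xq χ T q * V1 f T q.1 q.2 := by ring
    _ = _ := by rw [h]

private theorem n3_V1SS {ε : ℝ} (hε : 0 < ε) {f χ : ℝ → ℝ} (hf : AdmF ε f) (hχ : AdmX ε χ) {T : ℝ}
    (hT : 2 ≤ T) :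
    ∑ q ∈ idx T, ((q.1 : ℝ) * q.2)⁻¹ * xq χ T q * V1 f T q.1 q.2 * V0 f T q.1 ≤
      (1 / (2 * ε)) * SS f χ T := by
  unfold SS
  rw [Finset.mul_sum]
  refine Finset.sum_le_sum fun q hq => ?_
  rcases eq_or_ne (xq χ T q) 0 with h | h
  · rw [h]
    simp
  have hx0 : 0 ≤ xq χ T q := (hχ.2.1 _).1
  obtain ⟨h0, h1, -, -⟩ := V_bounds hε hf hχ hT hq h
  have hV1 : 0 ≤ V1 f T q.1 q.2 := le_trans (by positivity) h1
  have h2 : V0 f T q.1 ≤ (1 / (2 * ε)) * V1 f T q.1 q.2 := by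
    rw [one_div, inv_mul_eq_div, le_div_iff₀ (by positivity)]
    linarith
  calc ((q.1 : ℝ) * q.2)⁻¹ * xq χ T q * V1 f T q.1 q.2 * V0 f T q.1
      ≤ ((q.1 : ℝ) * q.2)⁻¹ * xq χ T q * V1 f T q.1 q.2 * ((1 / (2 * ε)) * V1 f T q.1 q.2) :=
        mul_le_mul_of_nonneg_left h2 (by positivity)
    _ = (1 / (2 * ε)) * (((q.1 : ℝ) * q.2)⁻¹ * xq χ T q * V1 f T q.1 q.2 ^ 2) := by ring

private theorem n3_small {ε : ℝ} (hε : 0 < ε) {C : ℝ} (hC : 0 < C) :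
    ∃ T₀ : ℝ, 1 ≤ T₀ ∧ ∀ T : ℝ, T₀ ≤ T →
      C * (T ^ (-(1 / 2) : ℝ) * Real.log T ^ 2) * (T ^ (5 / 12 - ε / 4 : ℝ) * T ^ (1 / 12 - ε / 2 : ℝ))
        ≤ 1 := by
  refine ⟨max 1 ((C * (16 / ε ^ 2)) ^ (4 / ε)), le_max_left _ _, fun T hT => ?_⟩
  have hT1 : 1 ≤ T := (le_max_left _ _).trans hT
  have hT0 : 0 < T := by linarith
  have hT2 : (C * (16 / ε ^ 2)) ^ (4 / ε) ≤ T := (le_max_right _ _).trans hT
  have hK : 0 < C * (16 / ε ^ 2) := by positivity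
  have h1 : C * (16 / ε ^ 2) ≤ T ^ (ε / 4) := by
    have := Real.rpow_le_rpow (by positivity) hT2 (show 0 ≤ ε / 4 by positivity)
    rw [← Real.rpow_mul hK.le, show 4 / ε * (ε / 4) = 1 by field_simp, Real.rpow_one] at this
    exact this
  have hlog : Real.log T ≤ T ^ (ε / 4) / (ε / 4) := Real.log_le_rpow_div hT0.le (by positivity)
  have hlog0 : 0 ≤ Real.log T := Real.log_nonneg hT1
  have hlog2 : Real.log T ^ 2 ≤ (16 / ε ^ 2) * T ^ (ε / 2) := by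
    calc Real.log T ^ 2 ≤ (T ^ (ε / 4) / (ε / 4)) ^ 2 := pow_le_pow_left₀ hlog0 hlog 2
      _ = (16 / ε ^ 2) * (T ^ (ε / 4) * T ^ (ε / 4)) := by
          field_simp
          ring
      _ = (16 / ε ^ 2) * T ^ (ε / 2) := by
          rw [← Real.rpow_add hT0]
          congr 2
          ring
  have hp : T ^ (-(1 / 2) : ℝ) * T ^ (ε / 2) * (T ^ (5 / 12 - ε / 4 : ℝ) * T ^ (1 / 12 - ε / 2 : ℝ)) =
      T ^ (-(ε / 4)) := by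
    rw [← Real.rpow_add hT0, ← Real.rpow_add hT0, ← Real.rpow_add hT0]
    congr 1
    ring
  calc C * (T ^ (-(1 / 2) : ℝ) * Real.log T ^ 2) * (T ^ (5 / 12 - ε / 4 : ℝ) * T ^ (1 / 12 - ε / 2 : ℝ))
      ≤ C * (T ^ (-(1 / 2) : ℝ) * ((16 / ε ^ 2) * T ^ (ε / 2))) *
        (T ^ (5 / 12 - ε / 4 : ℝ) * T ^ (1 / 12 - ε / 2 : ℝ)) := by gcongr
    _ = C * (16 / ε ^ 2) * (T ^ (-(1 / 2) : ℝ) * T ^ (ε / 2) *
        (T ^ (5 / 12 - ε / 4 : ℝ) * T ^ (1 / 12 - ε / 2 : ℝ))) := by ring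
    _ = C * (16 / ε ^ 2) * T ^ (-(ε / 4)) := by rw [hp]
    _ ≤ T ^ (ε / 4) * T ^ (-(ε / 4)) := mul_le_mul_of_nonneg_right h1 (by positivity)
    _ = 1 := by
        rw [← Real.rpow_add hT0]
        simp

theorem N_main {ε ε₁ δ : ℝ} (hε : 0 < ε) (hε' : ε ≤ 1 / 100) (hε1 : 0 < ε₁) (hδ : 0 < δ) (hδ1 : δ ≤ ε / 16)
    {f χ : ℝ → ℝ} (hf : AdmF ε f) (hχ : AdmX ε χ) :
    ∃ C T₀ : ℝ, 0 < C ∧ ∀ T : ℝ, T₀ ≤ T → ∀ u : ℝ, ε₁ * T ≤ u → u ≤ T →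
      ‖(∫ t, ((‖riemannZeta (crit t)‖ ^ 2 : ℝ) : ℂ) * (PP f T t * conj (DD f χ T t)) ∂(gam (T ^ (1 - δ)) u)) -
        ((Real.log T * SS f χ T : ℝ) : ℂ)‖ ≤ C * SS f χ T + 1 := by
  obtain ⟨C1, T1, hC1, H1⟩ := second_fraction (2 * ε) ε₁ δ (by linarith) (by linarith) hε1 hδ
    (by linarith)
  obtain ⟨C2, hC2, H2⟩ := cD_sum hε hε' hf hχ
  obtain ⟨C3, hC3, H3⟩ := aP_sum hε hε' hf
  obtain ⟨T4, hT4, H4⟩ := n3_small hε (C := C1 * (C2 * C3)) (by positivity)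
  refine ⟨C1 * (1 / (2 * ε)), max (max T1 T4) 2, by positivity, fun T hT u hu1 hu2 => ?_⟩
  have hTT1 : T1 ≤ T := ((le_max_left _ _).trans (le_max_left _ _)).trans hT
  have hTT4 : T4 ≤ T := ((le_max_right _ _).trans (le_max_left _ _)).trans hT
  have hT2 : 2 ≤ T := (le_max_right _ _).trans hT
  have hT0 : 0 < T := by linarith
  rw [N_expand]
  have hSS : ((Real.log T * SS f χ T : ℝ) : ℂ) = ∑ q ∈ idx T, ∑ l ∈ Finset.Icc 1 ⌊T⌋₊,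
      ((cD f χ T q * ((q.1 : ℝ) * q.2) ^ (-(1 / 2) : ℝ) *
          (aP f T l * ((Nat.gcd l q.1 : ℝ) / l) * wl T q.1 q.2 l) * Real.log T : ℝ) : ℂ) := by
    have h1 : Real.log T * SS f χ T = ∑ q ∈ idx T, ∑ l ∈ Finset.Icc 1 ⌊T⌋₊,
        (cD f χ T q * ((q.1 : ℝ) * q.2) ^ (-(1 / 2) : ℝ) *
          (aP f T l * ((Nat.gcd l q.1 : ℝ) / l) * wl T q.1 q.2 l) * Real.log T) := by
      unfold SS
      rw [Finset.mul_sum]
      refine Finset.sum_congr rfl fun q hq => ?_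
      unfold LibSM47.idx at hq
      rw [Finset.mem_filter, Finset.mem_product, Finset.mem_Icc, Finset.mem_Icc] at hq
      rw [← Finset.sum_mul, ← Finset.mul_sum]
      change _ = cD f χ T q * ((q.1 : ℝ) * q.2) ^ (-(1 / 2) : ℝ) * V1 f T q.1 q.2 * Real.log T
      rw [n3_cD f χ T hq.1.1.1 hq.1.2.1]
      ring
    rw [h1]
    push_cast
    rfl
  rw [hSS]
  have hexp : ∑ q ∈ idx T, (cD f χ T q : ℂ) * ∑ l ∈ Finset.Icc 1 ⌊T⌋₊,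
        ((aP f T l * (l : ℝ) ^ (-(1 / 2) : ℝ) : ℝ) : ℂ) *
          I2 (T ^ (1 - δ)) u ((q.1 : ℝ) / q.2 / l) =
      ∑ q ∈ idx T, ∑ l ∈ Finset.Icc 1 ⌊T⌋₊, (cD f χ T q : ℂ) *
        (((aP f T l * (l : ℝ) ^ (-(1 / 2) : ℝ) : ℝ) : ℂ) *
          I2 (T ^ (1 - δ)) u ((q.1 : ℝ) / q.2 / l)) :=
    Finset.sum_congr rfl fun q _ => Finset.mul_sum _ _ _
  rw [hexp, ← Finset.sum_sub_distrib]
  have hH := H1 T hTT1 u hu1 hu2
  have hb1 : ∀ q ∈ idx T,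
      ‖(∑ l ∈ Finset.Icc 1 ⌊T⌋₊, (cD f χ T q : ℂ) *
        (((aP f T l * (l : ℝ) ^ (-(1 / 2) : ℝ) : ℝ) : ℂ) *
          I2 (T ^ (1 - δ)) u ((q.1 : ℝ) / q.2 / l))) -
        ∑ l ∈ Finset.Icc 1 ⌊T⌋₊, ((cD f χ T q * ((q.1 : ℝ) * q.2) ^ (-(1 / 2) : ℝ) *
          (aP f T l * ((Nat.gcd l q.1 : ℝ) / l) * wl T q.1 q.2 l) * Real.log T : ℝ) : ℂ)‖ ≤
      ∑ l ∈ Finset.Icc 1 ⌊T⌋₊, (C1 * (cD f χ T q * ((q.1 : ℝ) * q.2) ^ (-(1 / 2) : ℝ) *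
          (aP f T l * ((Nat.gcd l q.1 : ℝ) / l))) +
        C1 * (T ^ (-(1 / 2) : ℝ) * Real.log T ^ 2) *
          (cD f χ T q * (aP f T l * (l : ℝ) ^ (-(1 / 2) : ℝ)))) := by
    intro q hq
    rw [← Finset.sum_sub_distrib]
    refine (norm_sum_le _ _).trans (Finset.sum_le_sum fun l hl => ?_)
    exact n3_term hε hf hχ hT2 hC1 hH hq (Finset.mem_Icc.1 hl).1
  refine (norm_sum_le _ _).trans ((Finset.sum_le_sum hb1).trans ?_)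
  have hsum : ∀ q ∈ idx T,
      ∑ l ∈ Finset.Icc 1 ⌊T⌋₊, (C1 * (cD f χ T q * ((q.1 : ℝ) * q.2) ^ (-(1 / 2) : ℝ) *
          (aP f T l * ((Nat.gcd l q.1 : ℝ) / l))) +
        C1 * (T ^ (-(1 / 2) : ℝ) * Real.log T ^ 2) *
          (cD f χ T q * (aP f T l * (l : ℝ) ^ (-(1 / 2) : ℝ)))) =
      C1 * (((q.1 : ℝ) * q.2)⁻¹ * xq χ T q * V1 f T q.1 q.2 * V0 f T q.1) +
        C1 * (T ^ (-(1 / 2) : ℝ) * Real.log T ^ 2) *
          (cD f χ T q * ∑ l ∈ Finset.Icc 1 ⌊T⌋₊, aP f T l * (l : ℝ) ^ (-(1 / 2) : ℝ)) := by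
    intro q hq
    unfold LibSM47.idx at hq
    rw [Finset.mem_filter, Finset.mem_product, Finset.mem_Icc, Finset.mem_Icc] at hq
    rw [Finset.sum_add_distrib, ← Finset.mul_sum, ← Finset.mul_sum, ← Finset.mul_sum,
      ← Finset.mul_sum, ← n3_cD f χ T hq.1.1.1 hq.1.2.1]
    rfl
  rw [Finset.sum_congr rfl hsum, Finset.sum_add_distrib, ← Finset.mul_sum, ← Finset.mul_sum,
    ← Finset.sum_mul]
  have hS1 := n3_V1SS hε hf hχ hT2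
  have hA := H2 T hT2
  have hB := H3 T hT2
  have hA0 : 0 ≤ ∑ q ∈ idx T, cD f χ T q :=
    Finset.sum_nonneg fun q hq => cD_nonneg hε hf hχ hT2 hq
  have hB0 : 0 ≤ ∑ l ∈ Finset.Icc 1 ⌊T⌋₊, aP f T l * (l : ℝ) ^ (-(1 / 2) : ℝ) :=
    Finset.sum_nonneg fun l _ => mul_nonneg (aP_nonneg hf T l).1 (by positivity)
  have hlogT : 0 ≤ Real.log T := Real.log_nonneg (by linarith)
  have hAB : (∑ q ∈ idx T, cD f χ T q) *
      ∑ l ∈ Finset.Icc 1 ⌊T⌋₊, aP f T l * (l : ℝ) ^ (-(1 / 2) : ℝ) ≤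
      (C2 * T ^ (5 / 12 - ε / 4 : ℝ)) * (C3 * T ^ (1 / 12 - ε / 2 : ℝ)) :=
    mul_le_mul hA hB hB0 (by positivity)
  have hfin : C1 * (T ^ (-(1 / 2) : ℝ) * Real.log T ^ 2) *
      ((∑ q ∈ idx T, cD f χ T q) *
        ∑ l ∈ Finset.Icc 1 ⌊T⌋₊, aP f T l * (l : ℝ) ^ (-(1 / 2) : ℝ)) ≤ 1 := by
    calc C1 * (T ^ (-(1 / 2) : ℝ) * Real.log T ^ 2) *
      ((∑ q ∈ idx T, cD f χ T q) *
        ∑ l ∈ Finset.Icc 1 ⌊T⌋₊, aP f T l * (l : ℝ) ^ (-(1 / 2) : ℝ))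
        ≤ C1 * (T ^ (-(1 / 2) : ℝ) * Real.log T ^ 2) *
          ((C2 * T ^ (5 / 12 - ε / 4 : ℝ)) * (C3 * T ^ (1 / 12 - ε / 2 : ℝ))) :=
          mul_le_mul_of_nonneg_left hAB (by positivity)
      _ = C1 * (C2 * C3) * (T ^ (-(1 / 2) : ℝ) * Real.log T ^ 2) *
          (T ^ (5 / 12 - ε / 4 : ℝ) * T ^ (1 / 12 - ε / 2 : ℝ)) := by ring
      _ ≤ 1 := H4 T hTT4
  have hfin2 : C1 * ∑ q ∈ idx T, ((q.1 : ℝ) * q.2)⁻¹ * xq χ T q * V1 f T q.1 q.2 * V0 f T q.1 ≤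
      C1 * (1 / (2 * ε)) * SS f χ T := by
    rw [mul_assoc]
    exact mul_le_mul_of_nonneg_left hS1 hC1.le
  exact add_le_add hfin2 hfin

end Pool.Agent.LibFM89
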