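import Pool.Agent.LibFM89.Defs
import Pool.Agent.LibSM47.M_A1c
import Pool.Agent.LibSM47.M_A2b

/-! (add the import of the template: `import Pool.Agent.LibSM47.M_A2b`)
# FM89 O1: orthogonality for a finite sum over reduced fractions (MEDIUM)

PLAN.  Template: `LibSM47/M_A2d.lean` (`D_sq`).  Expand `|D|² = ∑_{q,q'} c(q) c(q') ch((q'.1/q'.2)/(q.1/q.2)) t`; the diagonal gives `∑ c²`.
For `q ≠ q'` (reduced) put `A = q'.1 q.2`, `B = q'.2 q.1`, `A ≠ B`, `A B = (q.1 q.2)(q'.1 q'.2) ≤ Y²`, `Y = T^(1-ε)`; `LibSM47.log_gap_prod`: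
`|log(A/B)| ≥ 1/(2Y)`, and `LibSM47.ch_int`: the integral is `≤ exp(-V² log²/2) ≤ exp(-T^(2ε-2δ)/8)`.  The number of pairs is `≤ T^4` and
`|c| ≤ T^A`, so the off-diagonal part is `≤ T^(4+2A) exp(-T^ε/8) ≤ 1`. -/

set_option autoImplicit false

namespace Pool.Agent.LibFM89

open MeasureTheory Set Filter Topology Complex ProbabilityTheory
open scoped NNReal ComplexConjugate
open Pool.Agent.LibZM
open Pool.Agent.LibSM47 (gam ch idx)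
open Pool.Agent.LibSM47 (conj_ch cont_ch norm_ch ch_int log_gap_prod)

private theorem o1_mem {T : ℝ} {q : ℕ × ℕ} (hT : 0 ≤ T) (hq : q ∈ idx T) :
    1 ≤ q.1 ∧ 1 ≤ q.2 ∧ (q.1 : ℝ) ≤ T ∧ (q.2 : ℝ) ≤ T ∧ Nat.Coprime q.1 q.2 := by
  unfold idx at hq
  rw [Finset.mem_filter, Finset.mem_product, Finset.mem_Icc, Finset.mem_Icc] at hq
  obtain ⟨⟨⟨h1, h2⟩, h3, h4⟩, h5⟩ := hq
  exact ⟨h1, h3, (Nat.le_floor_iff hT).1 h2, (Nat.le_floor_iff hT).1 h4, h5⟩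

private theorem o1_card {T : ℝ} (hT : 0 ≤ T) : ((idx T).card : ℝ) ≤ T ^ 2 := by
  have h1 : (idx T).card ≤ ⌊T⌋₊ * ⌊T⌋₊ := by
    unfold idx
    refine (Finset.card_filter_le _ _).trans ?_
    rw [Finset.card_product, Nat.card_Icc]
    simp
  have h2 : (⌊T⌋₊ : ℝ) ≤ T := Nat.floor_le hT
  have h3 : (0 : ℝ) ≤ (⌊T⌋₊ : ℝ) := Nat.cast_nonneg _
  calc ((idx T).card : ℝ) ≤ ((⌊T⌋₊ * ⌊T⌋₊ : ℕ) : ℝ) := by exact_mod_cast h1
    _ = (⌊T⌋₊ : ℝ) * ⌊T⌋₊ := by push_cast; ring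
    _ ≤ T * T := mul_le_mul h2 h2 h3 hT
    _ = T ^ 2 := by ring

private theorem o1_mul {r r' : ℝ} (hr : 0 < r) (hr' : 0 < r') (t : ℝ) :
    ch r (-t) * conj (ch r' (-t)) = ch (r' / r) t := by
  rw [conj_ch]
  unfold ch
  rw [← Complex.exp_add, Real.log_div hr'.ne' hr.ne']
  congr 1
  push_cast
  ring

private theorem o1_int (r V u : ℝ) : Integrable (fun t => ch r t) (gam V u) :=
  Integrable.of_bound (cont_ch r).aestronglyMeasurable 1 (ae_of_all _ fun t => (norm_ch r t).le)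

private theorem o1_sum (c : ℕ × ℕ → ℝ) {T : ℝ} (hT : 0 ≤ T) (V u : ℝ) :
    ((∫ t, ‖∑ q ∈ idx T, (c q : ℂ) * ch ((q.1 : ℝ) / q.2) (-t)‖ ^ 2 ∂(gam V u) : ℝ) : ℂ) =
      ∑ q ∈ idx T, ∑ q' ∈ idx T, ((c q * c q' : ℝ) : ℂ) *
        ∫ t, ch (((q'.1 : ℝ) / q'.2) / ((q.1 : ℝ) / q.2)) t ∂(gam V u) := by
  have h1 : ∀ t, ((‖∑ q ∈ idx T, (c q : ℂ) * ch ((q.1 : ℝ) / q.2) (-t)‖ ^ 2 : ℝ) : ℂ) = ∑ q ∈ idx T, ∑ q' ∈ idx T,
      ((c q * c q' : ℝ) : ℂ) * ch (((q'.1 : ℝ) / q'.2) / ((q.1 : ℝ) / q.2)) t := by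
    intro t
    have h2 : ((‖∑ q ∈ idx T, (c q : ℂ) * ch ((q.1 : ℝ) / q.2) (-t)‖ ^ 2 : ℝ) : ℂ) = (∑ q ∈ idx T, (c q : ℂ) * ch ((q.1 : ℝ) / q.2) (-t)) *
        conj (∑ q ∈ idx T, (c q : ℂ) * ch ((q.1 : ℝ) / q.2) (-t)) := by
      rw [Complex.mul_conj, Complex.normSq_eq_norm_sq]
    rw [h2]
    rw [map_sum, Finset.sum_mul_sum]
    refine Finset.sum_congr rfl fun q hq => Finset.sum_congr rfl fun q' hq' => ?_
    obtain ⟨a1, a2, -⟩ := o1_mem hT hq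
    obtain ⟨b1, b2, -⟩ := o1_mem hT hq'
    have a1' : (0 : ℝ) < q.1 := by exact_mod_cast a1
    have a2' : (0 : ℝ) < q.2 := by exact_mod_cast a2
    have b1' : (0 : ℝ) < q'.1 := by exact_mod_cast b1
    have b2' : (0 : ℝ) < q'.2 := by exact_mod_cast b2
    rw [map_mul, Complex.conj_ofReal, mul_mul_mul_comm, o1_mul (by positivity) (by positivity)]
    push_cast
    ring
  rw [← integral_complex_ofReal]
  simp_rw [h1]
  rw [integral_finsetSum]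
  · refine Finset.sum_congr rfl fun q _ => ?_
    rw [integral_finsetSum]
    · refine Finset.sum_congr rfl fun q' _ => ?_
      rw [integral_const_mul]
    · intro q' _
      exact (o1_int _ V u).const_mul _
  · intro q _
    refine integrable_finsetSum _ fun q' _ => ?_
    exact (o1_int _ V u).const_mul _

private theorem o1_ne {q q' : ℕ × ℕ} (h1 : Nat.Coprime q.1 q.2) (h2 : Nat.Coprime q'.1 q'.2)
    (hq1 : 1 ≤ q.1) (hne : q ≠ q') : q'.1 * q.2 ≠ q'.2 * q.1 := by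
  intro h
  have h3 : q'.1 ∣ q.1 := by
    have : q'.1 ∣ q'.2 * q.1 := ⟨q.2, h.symm⟩
    exact h2.dvd_of_dvd_mul_left this
  have h4 : q.1 ∣ q'.1 := by
    have : q.1 ∣ q'.1 * q.2 := ⟨q'.2, by rw [h, mul_comm]⟩
    exact h1.dvd_of_dvd_mul_right this
  have h5 : q.1 = q'.1 := Nat.dvd_antisymm h4 h3
  have h6 : q.2 = q'.2 := by
    rw [← h5, mul_comm q'.2] at h
    exact Nat.eq_of_mul_eq_mul_left hq1 h
  exact hne (Prod.ext h5 h6)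

private theorem o1_exp {ε δ T L : ℝ} (hT : 0 < T) (hL : 1 / (2 * T ^ (1 - ε)) ≤ |L|) :
    Real.exp (-((T ^ (1 - δ)) ^ 2 * L ^ 2 / 2)) ≤ Real.exp (-(1 / 8) * T ^ (2 * ε - 2 * δ)) := by
  refine Real.exp_le_exp.2 ?_
  have hY : 0 < T ^ (1 - ε) := Real.rpow_pos_of_pos hT _
  have hW : 0 < T ^ (ε - δ) := Real.rpow_pos_of_pos hT _
  have h1 : T ^ (1 - δ) = T ^ (1 - ε) * T ^ (ε - δ) := by
    rw [← Real.rpow_add hT]
    congr 1
    ring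
  have h2 : T ^ (2 * ε - 2 * δ) = (T ^ (ε - δ)) ^ 2 := by
    rw [sq, ← Real.rpow_add hT]
    congr 1
    ring
  rw [h1, h2]
  have h3 : 1 / 2 ≤ T ^ (1 - ε) * |L| := by
    have h4 := mul_le_mul_of_nonneg_left hL hY.le
    have h5 : T ^ (1 - ε) * (1 / (2 * T ^ (1 - ε))) = 1 / 2 := by
      field_simp
    rw [h5] at h4
    exact h4
  have h4 : (1 / 2) ^ 2 ≤ (T ^ (1 - ε) * |L|) ^ 2 :=
    pow_le_pow_left₀ (by norm_num) h3 2
  rw [mul_pow, sq_abs] at h4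
  have h5 := mul_le_mul_of_nonneg_right h4 (sq_nonneg (T ^ (ε - δ)))
  have h6 : (T ^ (1 - ε) * T ^ (ε - δ)) ^ 2 * L ^ 2 / 2 =
      ((T ^ (1 - ε)) ^ 2 * L ^ 2 * (T ^ (ε - δ)) ^ 2) / 2 := by ring
  rw [h6]
  linarith

theorem orth (ε δ A : ℝ) (hε : 0 < ε) (hε1 : ε ≤ 1) (hδ : 0 < δ) (hδ1 : δ ≤ ε / 2) (hA : 0 ≤ A) :
    ∃ T₀ : ℝ, ∀ T : ℝ, T₀ ≤ T → ∀ u : ℝ, ∀ c : ℕ × ℕ → ℝ,
      (∀ q ∈ idx T, |c q| ≤ T ^ A) → (∀ q ∈ idx T, c q ≠ 0 → (q.1 : ℝ) * q.2 ≤ T ^ (1 - ε)) →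
      |(∫ t, ‖∑ q ∈ idx T, (c q : ℂ) * ch ((q.1 : ℝ) / q.2) (-t)‖ ^ 2 ∂(gam (T ^ (1 - δ)) u)) -
        ∑ q ∈ idx T, c q ^ 2| ≤ 1 := by
  have ha0 : 0 < 2 * ε - 2 * δ := by linarith
  have hlim : Tendsto (fun T : ℝ => ((T ^ (2 * ε - 2 * δ)) ^ ((4 + 2 * A) / (2 * ε - 2 * δ)) *
      Real.exp (-(1 / 8) * T ^ (2 * ε - 2 * δ)))) atTop (𝓝 0) :=
    (tendsto_rpow_mul_exp_neg_mul_atTop_nhds_zero ((4 + 2 * A) / (2 * ε - 2 * δ)) (1 / 8)
      (by norm_num)).comp (tendsto_rpow_atTop ha0)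
  obtain ⟨T₁, hT₁⟩ := eventually_atTop.1 (hlim.eventually_le_const zero_lt_one)
  refine ⟨max T₁ 2, fun T hT u c hc hcz => ?_⟩
  have hT2 : 2 ≤ T := (le_max_right _ _).trans hT
  have hT0 : 0 < T := by linarith
  have hfin := hT₁ T ((le_max_left _ _).trans hT)
  have h6 : (T ^ (2 * ε - 2 * δ)) ^ ((4 + 2 * A) / (2 * ε - 2 * δ)) = T ^ (4 + 2 * A) := by
    rw [← Real.rpow_mul hT0.le, mul_div_cancel₀ _ ha0.ne']
  rw [h6] at hfin
  set E : ℝ := Real.exp (-(1 / 8) * T ^ (2 * ε - 2 * δ)) with hE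
  have hE0 : 0 ≤ E := (Real.exp_pos _).le
  have hTA : 0 ≤ T ^ A := (Real.rpow_pos_of_pos hT0 _).le
  have hS : ∑ q ∈ idx T, |c q| ≤ T ^ (2 + A) := by
    calc ∑ q ∈ idx T, |c q| ≤ ∑ q ∈ idx T, T ^ A := Finset.sum_le_sum hc
      _ = (idx T).card * T ^ A := by rw [Finset.sum_const, nsmul_eq_mul]
      _ ≤ T ^ 2 * T ^ A := mul_le_mul_of_nonneg_right (o1_card hT0.le) hTA
      _ = T ^ (2 + A) := by
        rw [Real.rpow_add hT0]
        congr 1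
        exact_mod_cast (Real.rpow_natCast T 2).symm
  have hS0 : 0 ≤ ∑ q ∈ idx T, |c q| := Finset.sum_nonneg fun _ _ => abs_nonneg _
  have hterm : ∀ q ∈ idx T, ∀ q' ∈ idx T,
      ‖((c q * c q' : ℝ) : ℂ) *
        (∫ t, ch (((q'.1 : ℝ) / q'.2) / ((q.1 : ℝ) / q.2)) t ∂(gam (T ^ (1 - δ)) u)) -
        (if q' = q then ((c q ^ 2 : ℝ) : ℂ) else 0)‖ ≤ |c q| * |c q'| * E := by
    intro q hq q' hq'
    obtain ⟨a1, a2, a3, a4, a5⟩ := o1_mem hT0.le hq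
    obtain ⟨b1, b2, b3, b4, b5⟩ := o1_mem hT0.le hq'
    have a1' : (0 : ℝ) < q.1 := by exact_mod_cast a1
    have a2' : (0 : ℝ) < q.2 := by exact_mod_cast a2
    have b1' : (0 : ℝ) < q'.1 := by exact_mod_cast b1
    have b2' : (0 : ℝ) < q'.2 := by exact_mod_cast b2
    have hnn : 0 ≤ |c q| * |c q'| * E := by positivity
    by_cases hqq : q' = q
    · subst hqq
      have h1 : ((q'.1 : ℝ) / q'.2) / ((q'.1 : ℝ) / q'.2) = 1 := by
        field_simp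
      have h2 : ∀ t, ch 1 t = 1 := by
        intro t
        unfold ch
        simp
      rw [h1, if_pos rfl]
      simp_rw [h2]
      rw [integral_const]
      simp only [probReal_univ, one_smul, mul_one]
      rw [sq, sub_self, norm_zero]
      exact hnn
    · rw [if_neg hqq, sub_zero, norm_mul, Complex.norm_real, Real.norm_eq_abs, abs_mul]
      by_cases hz : c q = 0
      · rw [hz]
        simp
      by_cases hz' : c q' = 0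
      · rw [hz']
        simp
      refine mul_le_mul_of_nonneg_left ?_ (by positivity)
      have h1 := hcz q hq hz
      have h2 := hcz q' hq' hz'
      have h3 : ((q'.1 : ℝ) / q'.2) / ((q.1 : ℝ) / q.2) =
          ((q'.1 * q.2 : ℕ) : ℝ) / ((q'.2 * q.1 : ℕ) : ℝ) := by
        push_cast
        field_simp
      have hY : 0 < T ^ (1 - ε) := Real.rpow_pos_of_pos hT0 _
      rw [ch_int, h3]
      refine o1_exp hT0 ?_
      refine log_gap_prod (Nat.mul_pos b1 a2) (Nat.mul_pos b2 a1)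
        (o1_ne a5 b5 a1 (fun h => hqq h.symm)) ?_ ?_
      · exact Real.one_le_rpow (by linarith) (by linarith)
      · push_cast
        calc (q'.1 : ℝ) * q.2 * (q'.2 * q.1) = (q'.1 * q'.2) * (q.1 * q.2) := by ring
          _ ≤ T ^ (1 - ε) * T ^ (1 - ε) := mul_le_mul h2 h1 (by positivity) hY.le
          _ = (T ^ (1 - ε)) ^ 2 := by ring
  have hmain : (((∫ t, ‖∑ q ∈ idx T, (c q : ℂ) * ch ((q.1 : ℝ) / q.2) (-t)‖ ^ 2 ∂(gam (T ^ (1 - δ)) u)) - ∑ q ∈ idx T, c q ^ 2 : ℝ) : ℂ) =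
      ∑ q ∈ idx T, ∑ q' ∈ idx T, (((c q * c q' : ℝ) : ℂ) *
        (∫ t, ch (((q'.1 : ℝ) / q'.2) / ((q.1 : ℝ) / q.2)) t ∂(gam (T ^ (1 - δ)) u)) -
        (if q' = q then ((c q ^ 2 : ℝ) : ℂ) else 0)) := by
    rw [Complex.ofReal_sub, o1_sum c hT0.le, Complex.ofReal_sum, ← Finset.sum_sub_distrib]
    refine Finset.sum_congr rfl fun q hq => ?_
    rw [Finset.sum_sub_distrib, Finset.sum_ite_eq' (idx T) q, if_pos hq]
  calc |(∫ t, ‖∑ q ∈ idx T, (c q : ℂ) * ch ((q.1 : ℝ) / q.2) (-t)‖ ^ 2 ∂(gam (T ^ (1 - δ)) u)) - ∑ q ∈ idx T, c q ^ 2|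
      = ‖(((∫ t, ‖∑ q ∈ idx T, (c q : ℂ) * ch ((q.1 : ℝ) / q.2) (-t)‖ ^ 2 ∂(gam (T ^ (1 - δ)) u)) - ∑ q ∈ idx T, c q ^ 2 : ℝ) : ℂ)‖ := by
        rw [Complex.norm_real, Real.norm_eq_abs]
    _ ≤ ∑ q ∈ idx T, ∑ q' ∈ idx T, |c q| * |c q'| * E := by
        rw [hmain]
        refine (norm_sum_le _ _).trans (Finset.sum_le_sum fun q hq => ?_)
        exact (norm_sum_le _ _).trans (Finset.sum_le_sum fun q' hq' => hterm q hq q' hq')
    _ = (∑ q ∈ idx T, |c q|) * (∑ q ∈ idx T, |c q|) * E := by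
        rw [Finset.sum_mul_sum, Finset.sum_mul]
        refine Finset.sum_congr rfl fun q _ => ?_
        rw [Finset.sum_mul]
    _ ≤ T ^ (2 + A) * T ^ (2 + A) * E := by
        refine mul_le_mul_of_nonneg_right ?_ hE0
        exact mul_le_mul hS hS hS0 (by positivity)
    _ = T ^ (4 + 2 * A) * E := by
        rw [← Real.rpow_add hT0]
        congr 2
        ring
    _ ≤ 1 := hfin

end Pool.Agent.LibFM89
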