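import Pool.Agent.LibFM89.N3
import Pool.Agent.LibFM89.O1

/-! # FM89 N4: the twisted fourth moment from below (SHORT/MEDIUM)

PLAN.  `‖∫ |ζ|² P conj D‖ ≥ (log T - C) SS - 1` (N3), `≤ (B4 · ∫|D|²)^(1/2)` (N_cs), `∫ |D|² ≤ ∑ cD² + 1` (`orth` of O1 with `ε' = 1/6`,
`A = 2`, `δ ≤ 1/12`; `cD ≤ T²` from N0, `card divisors ≤ m`; `cD ≠ 0` gives `mn ≤ T^(5/6)`), and
`cD² = (mn)^(-1) xq² V1² ≤ (mn)^(-1) xq V1²` because `0 ≤ xq ≤ 1`, so `∑ cD² ≤ SS`. -/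

set_option autoImplicit false

namespace Pool.Agent.LibFM89

open MeasureTheory Set Filter Topology Complex ProbabilityTheory
open scoped NNReal ComplexConjugate
open Pool.Agent.LibZM
open Pool.Agent.LibSM47 (gam ch idx)

private lemma n4_idx {T : ℝ} (hT : 0 ≤ T) {q : ℕ × ℕ} (hq : q ∈ idx T) :
    (1 : ℝ) ≤ q.1 ∧ (1 : ℝ) ≤ q.2 ∧ (q.1 : ℝ) ≤ T := by
  unfold idx at hq
  rw [Finset.mem_filter, Finset.mem_product, Finset.mem_Icc, Finset.mem_Icc] at hq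
  obtain ⟨⟨⟨h1, h2⟩, h3, _⟩, _⟩ := hq
  refine ⟨by exact_mod_cast h1, by exact_mod_cast h3, ?_⟩
  exact le_trans (by exact_mod_cast h2) (Nat.floor_le hT)

private lemma n4_bound {ε : ℝ} (hε : 0 < ε) {f χ : ℝ → ℝ} (hf : AdmF ε f) (hχ : AdmX ε χ) {T : ℝ} (hT : 2 ≤ T)
    {q : ℕ × ℕ} (hq : q ∈ idx T) : |cD f χ T q| ≤ T ^ (2 : ℝ) := by
  obtain ⟨h1, h2, h3⟩ := n4_idx (by linarith) hq
  have hmn : (1 : ℝ) ≤ (q.1 : ℝ) * q.2 := by nlinarith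
  rw [abs_of_nonneg (cD_nonneg hε hf hχ hT hq)]
  by_cases hx : xq χ T q = 0
  · unfold cD
    rw [hx, mul_zero, zero_mul]
    positivity
  · obtain ⟨v0, v1, v2, v3⟩ := V_bounds hε hf hχ hT hq hx
    have hx0 : 0 ≤ xq χ T q := (hχ.2.1 _).1
    have hx1 : xq χ T q ≤ 1 := (hχ.2.1 _).2
    have hp : ((q.1 : ℝ) * q.2) ^ (-(1 / 2) : ℝ) ≤ 1 := Real.rpow_le_one_of_one_le_of_nonpos hmn (by norm_num)
    have hp0 : 0 ≤ ((q.1 : ℝ) * q.2) ^ (-(1 / 2) : ℝ) := by positivity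
    have hV1 : 0 ≤ V1 f T q.1 q.2 := le_trans (by positivity) v1
    have hd : (q.1.divisors.card : ℝ) ≤ q.1 := by exact_mod_cast Nat.card_divisors_le_self q.1
    have hl : 1 + Real.log T ≤ T := by
      have := Real.log_le_sub_one_of_pos (show 0 < T by linarith)
      linarith
    have hl0 : 0 ≤ 1 + Real.log T := by
      have := Real.log_nonneg (show 1 ≤ T by linarith)
      linarith
    have hV2 : V1 f T q.1 q.2 ≤ T * T := by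
      calc V1 f T q.1 q.2 ≤ (q.1.divisors.card : ℝ) * (1 + Real.log T) := v2.trans v3
        _ ≤ T * T := mul_le_mul (hd.trans h3) hl hl0 (by linarith)
    have e : T ^ (2 : ℝ) = T * T := by
      rw [show (2 : ℝ) = ((2 : ℕ) : ℝ) by norm_num, Real.rpow_natCast]; ring
    unfold cD
    rw [e]
    calc ((q.1 : ℝ) * q.2) ^ (-(1 / 2) : ℝ) * xq χ T q * V1 f T q.1 q.2
        ≤ 1 * 1 * (T * T) := mul_le_mul (mul_le_mul hp hx1 hx0 zero_le_one) hV2 hV1 (by norm_num)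
      _ = T * T := by ring

private lemma n4_supp {ε : ℝ} (hε : 0 < ε) {f χ : ℝ → ℝ} (hχ : AdmX ε χ) {T : ℝ} (hT : 2 ≤ T)
    {q : ℕ × ℕ} (hq : q ∈ idx T) (hc : cD f χ T q ≠ 0) : (q.1 : ℝ) * q.2 ≤ T ^ (1 - 1 / 6 : ℝ) := by
  obtain ⟨h1, h2, h3⟩ := n4_idx (by linarith) hq
  have hx : xq χ T q ≠ 0 := by
    intro h
    apply hc
    unfold cD
    rw [h, mul_zero, zero_mul]
  have hL : 0 < Real.log T := Real.log_pos (by linarith)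
  have h4 := hχ.2.2 _ hx
  rw [div_le_iff₀ hL] at h4
  rw [← Real.log_le_log_iff (by positivity) (by positivity), Real.log_mul (by positivity) (by positivity),
    Real.log_rpow (by linarith)]
  nlinarith

private lemma n4_sq {f χ : ℝ → ℝ} {ε : ℝ} (hχ : AdmX ε χ) {T : ℝ} (hT : 2 ≤ T) :
    ∑ q ∈ idx T, cD f χ T q ^ 2 ≤ SS f χ T := by
  unfold SS
  refine Finset.sum_le_sum fun q hq => ?_
  obtain ⟨h1, h2, h3⟩ := n4_idx (by linarith) hq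
  have hx0 : 0 ≤ xq χ T q := (hχ.2.1 _).1
  have hx1 : xq χ T q ≤ 1 := (hχ.2.1 _).2
  have hmn : (0 : ℝ) < (q.1 : ℝ) * q.2 := by positivity
  have e : (((q.1 : ℝ) * q.2) ^ (-(1 / 2) : ℝ)) ^ 2 = ((q.1 : ℝ) * q.2)⁻¹ := by
    rw [← Real.rpow_natCast, ← Real.rpow_mul hmn.le, ← Real.rpow_neg_one]
    norm_num
  unfold cD
  rw [mul_pow, mul_pow, e]
  have h5 : xq χ T q ^ 2 ≤ xq χ T q := by nlinarith
  have h6 : 0 ≤ ((q.1 : ℝ) * q.2)⁻¹ := by positivity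
  have h7 : 0 ≤ V1 f T q.1 q.2 ^ 2 := sq_nonneg _
  exact mul_le_mul_of_nonneg_right (mul_le_mul_of_nonneg_left h5 h6) h7

theorem B4_lower {ε ε₁ δ : ℝ} (hε : 0 < ε) (hε' : ε ≤ 1 / 100) (hε1 : 0 < ε₁) (hδ : 0 < δ) (hδ1 : δ ≤ ε / 16)
    {f χ : ℝ → ℝ} (hf : AdmF ε f) (hχ : AdmX ε χ) :
    ∃ C T₀ : ℝ, 0 < C ∧ ∀ T : ℝ, T₀ ≤ T → ∀ u : ℝ, ε₁ * T ≤ u → u ≤ T →
      1 ≤ (Real.log T - C) * SS f χ T →
      ((Real.log T - C) * SS f χ T - 1) ^ 2 ≤ B4 f T (T ^ (1 - δ)) u * (SS f χ T + 1) := by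
  obtain ⟨C, T₁, hC, hN⟩ := N_main hε hε' hε1 hδ hδ1 hf hχ
  obtain ⟨T₂, hO⟩ := orth (1 / 6) δ 2 (by norm_num) (by norm_num) hδ (by linarith) (by norm_num)
  refine ⟨C, max (max T₁ T₂) 2, hC, fun T hT u hu1 hu2 hS => ?_⟩
  have hT1 : T₁ ≤ T := le_trans (le_trans (le_max_left _ _) (le_max_left _ _)) hT
  have hT2 : T₂ ≤ T := le_trans (le_trans (le_max_right _ _) (le_max_left _ _)) hT
  have hT3 : 2 ≤ T := le_trans (le_max_right _ _) hT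
  have hN1 := hN T hT1 u hu1 hu2
  have hcs := N_cs f χ T (T ^ (1 - δ)) u
  set N := ∫ t, ((‖riemannZeta (crit t)‖ ^ 2 : ℝ) : ℂ) * (PP f T t * conj (DD f χ T t)) ∂(gam (T ^ (1 - δ)) u) with hNdef
  have hO1 := hO T hT2 u (cD f χ T) (fun q hq => n4_bound hε hf hχ hT3 hq) (fun q hq hc => n4_supp hε hχ hT3 hq hc)
  have hD : ∫ t, ‖DD f χ T t‖ ^ 2 ∂(gam (T ^ (1 - δ)) u) ≤ SS f χ T + 1 := by
    have h1 := (abs_le.1 hO1).2
    have h2 := n4_sq (f := f) hχ hT3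
    have h3 : ∫ t, ‖DD f χ T t‖ ^ 2 ∂(gam (T ^ (1 - δ)) u) =
        ∫ t, ‖∑ q ∈ idx T, (cD f χ T q : ℂ) * ch ((q.1 : ℝ) / q.2) (-t)‖ ^ 2 ∂(gam (T ^ (1 - δ)) u) := rfl
    rw [h3]
    linarith
  have hB : 0 ≤ B4 f T (T ^ (1 - δ)) u := by
    unfold B4
    exact integral_nonneg fun t => by positivity
  have hlow : (Real.log T - C) * SS f χ T - 1 ≤ ‖N‖ := by
    have h1 := norm_sub_norm_le ((Real.log T * SS f χ T : ℝ) : ℂ) N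
    rw [norm_sub_rev] at h1
    have h2 : Real.log T * SS f χ T ≤ ‖((Real.log T * SS f χ T : ℝ) : ℂ)‖ := by
      rw [Complex.norm_real]
      exact le_abs_self _
    nlinarith [h1, h2, hN1]
  calc ((Real.log T - C) * SS f χ T - 1) ^ 2 ≤ ‖N‖ ^ 2 := by
        apply pow_le_pow_left₀ (by linarith) hlow
    _ ≤ B4 f T (T ^ (1 - δ)) u * ∫ t, ‖DD f χ T t‖ ^ 2 ∂(gam (T ^ (1 - δ)) u) := hcs
    _ ≤ B4 f T (T ^ (1 - δ)) u * (SS f χ T + 1) := mul_le_mul_of_nonneg_left hD hB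

end Pool.Agent.LibFM89
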