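import Pool.Agent.LibFM89.Defs
import Pool.Agent.LibM3.Defs
import Pool.Agent.LibM3.Q1

/-! (add the import of the template: `import Pool.Agent.LibM3.Q1`)
# FM89 T1: oscillating integrals over the window, width `T^(1-δ)` (SHORT/MEDIUM)

PLAN.  This is `LibM3.q1_main` (LibM3/Q1.lean) with `H = V = T^(1-δ)` in the place of `Hw T`; copy the proof of `LibM3.osc`.
* `LibM3.q3_PhR` or the lemma used in `osc` gives `hPh : |PhR l| ≤ C0 min 1 (exp (4 l))`, `exp 21 ≤ C0`.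
* `κ = 2/ε₁`: for `t ≥ u/2 ≥ ε₁ T/2` one has `1/t ≤ 2/(ε₁ T) ≤ κ/H` as `H = T^(1-δ) ≤ T`.
* `hg`: `u²/(8H²) ≥ ε₁² T^(2δ)/8 ≥ log T` for large `T`.
* `gam V u = gaussianReal u ⟨V^2, _⟩` and `Real.toNNReal (V^2) = ⟨V^2, _⟩` (`Real.toNNReal_of_nonneg`).
The right side of `q1_main` is already of the form wanted. -/

set_option autoImplicit false

namespace Pool.Agent.LibFM89

open MeasureTheory Set Filter Topology Complex ProbabilityTheory
open scoped NNReal ComplexConjugate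
open Pool.Agent.LibZM
open Pool.Agent.LibSM47 (gam ch idx)

theorem osc2 (ε₁ δ : ℝ) (hε1 : 0 < ε₁) (hδ : 0 < δ) (hδ1 : δ ≤ 1 / 10) :
    ∃ C T₀ : ℝ, 0 < C ∧ ∀ T : ℝ, T₀ ≤ T → ∀ u : ℝ, ε₁ * T ≤ u → u ≤ T → ∀ x : ℝ, 1 ≤ x → ∀ l : ℝ, l ≠ 0 →
      ‖∫ t in LibM3.win u, LibM3.Ph 0 (Real.log (t / (2 * Real.pi)) - Real.log x) *
          cexp (-(((l * t : ℝ) : ℂ) * I)) ∂(gam (T ^ (1 - δ)) u)‖ ≤
        C * min 1 ((T / x) ^ 4) * (((T ^ (1 - δ))⁻¹) ^ 2 * (1 + (l ^ 2)⁻¹)) := by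
  obtain ⟨C1, hC1, hPh1⟩ := LibM3.Ph_le 0 (A := 4) (by norm_num)
  set C0 : ℝ := max C1 (Real.exp 21) with hC0
  have hC00 : 0 < C0 := hC1.trans_le (le_max_left _ _)
  have hPh : ∀ l, |LibM3.PhR l| ≤ C0 * min 1 (Real.exp (4 * l)) := by
    intro l
    have h1 := hPh1 l
    rw [LibM3.Ph_zero, Complex.norm_real, Real.norm_eq_abs] at h1
    refine h1.trans (mul_le_mul_of_nonneg_right (le_max_left _ _) ?_)
    exact le_min zero_le_one (Real.exp_pos _).le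
  set κ : ℝ := 2 / ε₁ with hκ
  have hκ0 : 0 ≤ κ := by positivity
  set K : ℝ := κ ^ 2 + 4 * κ + 5 with hK
  have hK1 : 1 ≤ K := by rw [hK]; nlinarith [sq_nonneg κ]
  have hL2 : ∀ᶠ T : ℝ in atTop, Real.log T ≤ ε₁ ^ 2 / 8 * T ^ (2 * δ) := by
    have := (isLittleO_log_rpow_atTop (show (0:ℝ) < 2 * δ by positivity)).bound
      (show (0:ℝ) < ε₁ ^ 2 / 8 by positivity)
    filter_upwards [this, eventually_ge_atTop 1] with T hT hT1
    rw [Real.norm_of_nonneg (by positivity : (0:ℝ) ≤ T ^ (2 * δ))] at hT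
    exact le_trans (le_abs_self _) hT
  obtain ⟨T₀, hT₀⟩ := eventually_atTop.1 (hL2.and (eventually_ge_atTop (1:ℝ)))
  refine ⟨C0 * K, T₀, by positivity, ?_⟩
  intro T hTT u hu1 hu2 x hx l hl
  obtain ⟨h2, hT⟩ := hT₀ T hTT
  have hT0 : 0 < T := by linarith
  set H : ℝ := T ^ (1 - δ) with hH
  have hH0 : 0 < H := by positivity
  have hHT : H ≤ T := by
    calc H ≤ T ^ (1:ℝ) := Real.rpow_le_rpow_of_exponent_le hT (by linarith)
      _ = T := Real.rpow_one T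
  have hH1 : 1 ≤ H := Real.one_le_rpow hT (by linarith)
  have hHδ : H * T ^ δ = T := by
    rw [hH, ← Real.rpow_add hT0, show 1 - δ + δ = 1 by ring, Real.rpow_one]
  have hu0 : 0 < u := lt_of_lt_of_le (by positivity) hu1
  have hκu : ∀ t, u / 2 ≤ t → 1 / t ≤ κ / H := by
    intro t ht
    have ht0 : 0 < t := by linarith
    rw [div_le_div_iff₀ ht0 hH0, one_mul, hκ]
    have h3 : ε₁ * T / 2 ≤ t := by linarith
    calc H ≤ T := hHT
      _ = 2 / ε₁ * (ε₁ * T / 2) := by field_simp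
      _ ≤ 2 / ε₁ * t := by gcongr
  have hg : Real.exp (-(u ^ 2 / (8 * H ^ 2))) ≤ 1 / T := by
    have h3 : (1 : ℝ) / T = Real.exp (-Real.log T) := by
      rw [Real.exp_neg, Real.exp_log hT0, one_div]
    rw [h3]
    apply Real.exp_le_exp.2
    apply neg_le_neg
    have h4 : ε₁ * T ^ δ ≤ u / H := by
      rw [le_div_iff₀ hH0]
      calc ε₁ * T ^ δ * H = ε₁ * (H * T ^ δ) := by ring
        _ = ε₁ * T := by rw [hHδ]
        _ ≤ u := hu1
    have h5 : u ^ 2 / (8 * H ^ 2) = (u / H) ^ 2 / 8 := by field_simp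
    rw [h5]
    have h6 : (ε₁ * T ^ δ) ^ 2 ≤ (u / H) ^ 2 := by gcongr
    have h7 : (T ^ δ) ^ 2 = T ^ (2 * δ) := by
      rw [← Real.rpow_natCast, ← Real.rpow_mul hT0.le]
      congr 1
      push_cast
      ring
    calc Real.log T ≤ ε₁ ^ 2 / 8 * T ^ (2 * δ) := h2
      _ = (ε₁ * T ^ δ) ^ 2 / 8 := by rw [mul_pow, h7]; ring
      _ ≤ (u / H) ^ 2 / 8 := by gcongr
  have hx0 : 0 < x := by linarith
  have hm := LibM3.q1_main hPh (le_max_right _ _) hκ0 hT hu0 hu2 hH1 hHT hκu hx0 hl hg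
  have hgam : gam H u = gaussianReal u (Real.toNNReal (H ^ 2)) := by
    unfold gam
    rw [Real.toNNReal_of_nonneg (sq_nonneg H)]
    rfl
  rw [hgam]
  exact hm

end Pool.Agent.LibFM89
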