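import Pool.Agent.LibFM89.N2
import Pool.Agent.LibSM47.M_A1c

/-! # FM89 W1: the inequality of Hoelder (SHORT/MEDIUM)

PLAN.  `|ζ|⁴|P|² = (|ζ|⁵)^(2/3) (|ζ|²|P|⁶)^(1/3)`; `integral_mul_le_Lp_mul_Lq_of_nonneg` with `p = 3/2`, `q = 3` (`Real.HolderConjugate`), functions
`|ζ|^(10/3)` and `|ζ|^(2/3)|P|²`; then cube.  Integrability: `LibSM47.int_pow` (powers of `|ζ|` against `gam V u`), `cont_PP` (bounded),
continuity of `|ζ(crit t)|` (`continuous_zeta_crit`).  (add `import Pool.Agent.LibSM47.M_A1c`) -/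

set_option autoImplicit false

namespace Pool.Agent.LibFM89

open MeasureTheory Set Filter Topology Complex ProbabilityTheory
open scoped NNReal ComplexConjugate
open Pool.Agent.LibZM
open Pool.Agent.LibSM47 (gam ch idx)

theorem holder (f : ℝ → ℝ) (T V u : ℝ) : B4 f T V u ^ 3 ≤ M5 V u ^ 2 * C2 f T V u := by
  obtain ⟨hPc, B, hB⟩ := cont_PP f T
  have hz : ∀ t : ℝ, 0 ≤ ‖riemannZeta (crit t)‖ := fun t => norm_nonneg _
  have hp : ∀ t : ℝ, 0 ≤ ‖PP f T t‖ := fun t => norm_nonneg _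
  have hzc : Continuous fun t : ℝ => ‖riemannZeta (crit t)‖ := continuous_zeta_crit.norm
  have hpc : Continuous fun t : ℝ => ‖PP f T t‖ := hPc.norm
  have hq : (3 / 2 : ℝ).HolderConjugate 3 := by
    rw [Real.holderConjugate_iff]
    norm_num
  have i5 : Integrable (fun t => ‖riemannZeta (crit t)‖ ^ 5) (gam V u) := LibSM47.int_pow V u 5
  have i2 : Integrable (fun t => ‖riemannZeta (crit t)‖ ^ 2 * ‖PP f T t‖ ^ 6) (gam V u) := by
    refine ((LibSM47.int_pow V u 2).mul_const (B ^ 6)).mono' ((hzc.pow 2).mul (hpc.pow 6)).aestronglyMeasurable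
      (Eventually.of_forall fun t => ?_)
    rw [Real.norm_eq_abs, abs_of_nonneg (by positivity)]
    exact mul_le_mul_of_nonneg_left (pow_le_pow_left₀ (hp t) (hB t) 6) (by positivity)
  have eF : ∀ t : ℝ, (‖riemannZeta (crit t)‖ ^ (10 / 3 : ℝ)) ^ (3 / 2 : ℝ) = ‖riemannZeta (crit t)‖ ^ 5 := by
    intro t
    rw [← Real.rpow_mul (hz t), ← Real.rpow_natCast]
    norm_num
  have eG : ∀ t : ℝ, (‖riemannZeta (crit t)‖ ^ (2 / 3 : ℝ) * ‖PP f T t‖ ^ 2) ^ (3 : ℝ) =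
      ‖riemannZeta (crit t)‖ ^ 2 * ‖PP f T t‖ ^ 6 := by
    intro t
    rw [Real.mul_rpow (Real.rpow_nonneg (hz t) _) (by positivity), ← Real.rpow_mul (hz t)]
    have e1 : (‖PP f T t‖ ^ 2) ^ (3 : ℝ) = ‖PP f T t‖ ^ 6 := by
      rw [show (3 : ℝ) = ((3 : ℕ) : ℝ) by norm_num, Real.rpow_natCast, ← pow_mul]
    have e2 : ‖riemannZeta (crit t)‖ ^ (2 / 3 * 3 : ℝ) = ‖riemannZeta (crit t)‖ ^ 2 := by
      rw [← Real.rpow_natCast]
      norm_num
    rw [e1, e2]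
  have eFG : ∀ t : ℝ, ‖riemannZeta (crit t)‖ ^ (10 / 3 : ℝ) * (‖riemannZeta (crit t)‖ ^ (2 / 3 : ℝ) * ‖PP f T t‖ ^ 2) =
      ‖riemannZeta (crit t)‖ ^ 4 * ‖PP f T t‖ ^ 2 := by
    intro t
    rw [← mul_assoc, ← Real.rpow_add_of_nonneg (hz t) (by norm_num) (by norm_num)]
    congr 1
    rw [← Real.rpow_natCast]
    norm_num
  have hF : Continuous fun t : ℝ => ‖riemannZeta (crit t)‖ ^ (10 / 3 : ℝ) :=
    hzc.rpow_const fun t => Or.inr (by norm_num)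
  have hG : Continuous fun t : ℝ => ‖riemannZeta (crit t)‖ ^ (2 / 3 : ℝ) * ‖PP f T t‖ ^ 2 :=
    (hzc.rpow_const fun t => Or.inr (by norm_num)).mul (hpc.pow 2)
  have hF0 : ∀ t : ℝ, 0 ≤ ‖riemannZeta (crit t)‖ ^ (10 / 3 : ℝ) := fun t => Real.rpow_nonneg (hz t) _
  have hG0 : ∀ t : ℝ, 0 ≤ ‖riemannZeta (crit t)‖ ^ (2 / 3 : ℝ) * ‖PP f T t‖ ^ 2 :=
    fun t => mul_nonneg (Real.rpow_nonneg (hz t) _) (by positivity)
  have mF : MemLp (fun t : ℝ => ‖riemannZeta (crit t)‖ ^ (10 / 3 : ℝ)) (ENNReal.ofReal (3 / 2)) (gam V u) := by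
    rw [← integrable_norm_rpow_iff hF.aestronglyMeasurable (by norm_num) ENNReal.ofReal_ne_top,
      ENNReal.toReal_ofReal (by norm_num)]
    refine i5.congr (Eventually.of_forall fun t => ?_)
    simp only
    rw [Real.norm_of_nonneg (hF0 t), eF]
  have mG : MemLp (fun t : ℝ => ‖riemannZeta (crit t)‖ ^ (2 / 3 : ℝ) * ‖PP f T t‖ ^ 2) (ENNReal.ofReal 3) (gam V u) := by
    rw [← integrable_norm_rpow_iff hG.aestronglyMeasurable (by norm_num) ENNReal.ofReal_ne_top,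
      ENNReal.toReal_ofReal (by norm_num)]
    refine i2.congr (Eventually.of_forall fun t => ?_)
    simp only
    rw [Real.norm_of_nonneg (hG0 t), eG]
  have h := integral_mul_le_Lp_mul_Lq_of_nonneg hq (Eventually.of_forall hF0) (Eventually.of_forall hG0) mF mG
  simp only [eF, eG, eFG] at h
  have hB4 : 0 ≤ B4 f T V u := integral_nonneg fun t => by positivity
  have hM5 : 0 ≤ M5 V u := integral_nonneg fun t => by positivity
  have hC2 : 0 ≤ C2 f T V u := integral_nonneg fun t => by positivity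
  have h' : B4 f T V u ≤ M5 V u ^ (1 / (3 / 2) : ℝ) * C2 f T V u ^ (1 / 3 : ℝ) := h
  calc B4 f T V u ^ 3 ≤ (M5 V u ^ (1 / (3 / 2) : ℝ) * C2 f T V u ^ (1 / 3 : ℝ)) ^ 3 := pow_le_pow_left₀ hB4 h' 3
    _ = M5 V u ^ 2 * C2 f T V u := by
        rw [mul_pow, ← Real.rpow_natCast (M5 V u ^ (1 / (3 / 2) : ℝ)), ← Real.rpow_mul hM5,
          ← Real.rpow_natCast (C2 f T V u ^ (1 / 3 : ℝ)), ← Real.rpow_mul hC2]
        norm_num

end Pool.Agent.LibFM89
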