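import Pool.Agent.LibFM89.W1
import Pool.Agent.LibFM89.N4
import Pool.Agent.LibFM89.B9
import Pool.Agent.LibFM89.C5
import Pool.Agent.LibFM89.K1
import Pool.Agent.LibFM89.K2a
import Pool.Agent.LibFM89.K2b
import Pool.Agent.LibFM89.K2c
import Pool.Agent.LibFM89.K3b

/-! # FM89 W2: the window theorem (MEDIUM)

PLAN.  Template LibSM47/M_W1.lean.  `BI = bval` (`BI_eq_BI3`, `BI3_eq`, `Phi_integral`).  `A = Aconst (5/2) > 0` (`LibZM.Aconst_pos`), `b = bval`, `c = cval`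
`> 0` (`cval_pos`), `A c5 = A b^(3/2)/c^(1/2) = ((A b)³/(A c))^(1/2)`.  By continuity of `t ↦ ((A b - t)³/(A c + t))^(1/2)` at `0` choose `t > 0` with value
`≥ A c5 - θ`.  `choose_cutoffs` with `θ' = t/(2A)`-like gives `ε, f, χ`; `δ = ε/1600`-like (`≤ ε/16`, `≤ 1/1000`).  `SS_limit`: `SS = (A BB + o(1)) L^(17/4)`,
`BB ≥ b - θ' > 0`; `B4_lower`: `B4 ≥ ((L-C) SS - 1)²/(SS+1) ≥ (A b - t) L^(25/4)` for large `T`; `C2_le`: `C2 ≤ (A c + t) L^(25/4)`; `holder`: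
`M5² ≥ B4³/C2 ≥ (A b - t)³/(A c + t) L^(25/2)`, square root (`M5 ≥ 0`, `L^(25/2) = (L^(25/4))²`).  If `A c5 - θ ≤ 0` the claim is trivial. -/

set_option autoImplicit false

namespace Pool.Agent.LibFM89

open MeasureTheory Set Filter Topology Complex ProbabilityTheory
open scoped NNReal ComplexConjugate
open Pool.Agent.LibZM
open Pool.Agent.LibSM47 (gam ch idx)

theorem BI_eq : BI = bval := by
  rw [BI_eq_BI3, BI3_eq, Phi_integral]

/-- The elementary inequality behind the window theorem. -/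
private theorem low_bound {s t C L S B Λ : ℝ} (hs : 0 < s) (ht : 0 < t) (hC : 0 < C) (hts : t / 2 ≤ s)
    (hL : (C + 1) * (1 + 2 * s) * 2 ≤ t * L) (hΛ1 : 1 ≤ Λ) (hΛ : 1 + 2 * s ≤ (t / 2) * Λ) (hS : s * Λ ≤ S)
    (hS1 : 1 ≤ S) (hB : ((L - C) * S - 1) ^ 2 ≤ B * (S + 1)) : (s - t / 2) * (L ^ 2 * Λ) ≤ B := by
  have h0 : 0 < 1 + 2 * s := by linarith
  obtain ⟨η, hη⟩ : ∃ η, η = (t / 2) / (1 + 2 * s) := ⟨_, rfl⟩
  have hη0 : 0 < η := by rw [hη]; positivity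
  have hη1 : η * (1 + 2 * s) = t / 2 := by rw [hη]; field_simp
  have hL0 : 0 < L := by
    have : 0 < t * L := by nlinarith
    exact (mul_pos_iff_of_pos_left ht).1 this
  -- C + 1 ≤ η L
  have a1 : C + 1 ≤ η * L := by
    have h1 : (C + 1) * (1 + 2 * s) ≤ η * L * (1 + 2 * s) := by
      have : η * L * (1 + 2 * s) = t / 2 * L := by
        calc η * L * (1 + 2 * s) = η * (1 + 2 * s) * L := by ring
          _ = t / 2 * L := by rw [hη1]
      rw [this]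
      linarith
    exact le_of_mul_le_mul_right h1 h0
  have a2 : 1 ≤ η * Λ := by
    have h1 : 1 * (1 + 2 * s) ≤ η * Λ * (1 + 2 * s) := by
      have : η * Λ * (1 + 2 * s) = t / 2 * Λ := by
        calc η * Λ * (1 + 2 * s) = η * (1 + 2 * s) * Λ := by ring
          _ = t / 2 * Λ := by rw [hη1]
      rw [this]
      linarith
    exact le_of_mul_le_mul_right h1 h0
  have hηs : η ≤ s := by
    have : η * 1 ≤ η * (1 + 2 * s) := mul_le_mul_of_nonneg_left (by linarith) hη0.le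
    linarith
  have hη2 : η ≤ 1 := by
    have : η * (1 + 2 * s) ≤ 1 * (1 + 2 * s) := by rw [hη1]; linarith
    exact le_of_mul_le_mul_right this h0
  have a3 : (1 - η) * L ≤ L - C - 1 := by linarith
  have a4 : 0 ≤ (1 - η) * L := mul_nonneg (by linarith) hL0.le
  have a5 : (s - η) * Λ ≤ S - 1 := by linarith
  have a6 : 0 ≤ (s - η) * Λ := mul_nonneg (by linarith) (by linarith)
  have a7 : 0 ≤ L - C - 1 := a4.trans a3
  have b1 : (L - C - 1) * S ≤ (L - C) * S - 1 := by linarith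
  have b2 : ((L - C - 1) * S) ^ 2 ≤ ((L - C) * S - 1) ^ 2 :=
    pow_le_pow_left₀ (mul_nonneg a7 (by linarith)) b1 2
  have b3 : (L - C - 1) ^ 2 * (S - 1) * (S + 1) ≤ B * (S + 1) := by
    refine le_trans ?_ (b2.trans hB)
    have : ((L - C - 1) * S) ^ 2 - (L - C - 1) ^ 2 * (S - 1) * (S + 1) = (L - C - 1) ^ 2 := by ring
    have h2 : 0 ≤ (L - C - 1) ^ 2 := sq_nonneg _
    linarith
  have b4 : (L - C - 1) ^ 2 * (S - 1) ≤ B := le_of_mul_le_mul_right b3 (by linarith)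
  have b5 : ((1 - η) * L) ^ 2 * ((s - η) * Λ) ≤ (L - C - 1) ^ 2 * (S - 1) :=
    mul_le_mul (pow_le_pow_left₀ a4 a3 2) a5 a6 (sq_nonneg _)
  have b6 : (s - t / 2) ≤ (1 - η) ^ 2 * (s - η) := by
    have h1 : (1 - η) ^ 2 * (s - η) - (s - t / 2) = η ^ 2 * (s - η) + 2 * η ^ 2 - (η * (1 + 2 * s) - t / 2) := by ring
    have h2 : 0 ≤ η ^ 2 * (s - η) := mul_nonneg (sq_nonneg _) (by linarith)
    have h3 : 0 ≤ 2 * η ^ 2 := by positivity
    linarith
  have b7 : (s - t / 2) * (L ^ 2 * Λ) ≤ (1 - η) ^ 2 * (s - η) * (L ^ 2 * Λ) :=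
    mul_le_mul_of_nonneg_right b6 (by positivity)
  calc (s - t / 2) * (L ^ 2 * Λ) ≤ (1 - η) ^ 2 * (s - η) * (L ^ 2 * Λ) := b7
    _ = ((1 - η) * L) ^ 2 * ((s - η) * Λ) := by ring
    _ ≤ B := b5.trans b4

theorem window5 (θ ε₁ : ℝ) (hθ : 0 < θ) (hε1 : 0 < ε₁) :
    ∃ δ T₀ : ℝ, 0 < δ ∧ δ ≤ 1 / 1000 ∧ ∀ T : ℝ, T₀ ≤ T → ∀ u : ℝ, ε₁ * T ≤ u → u ≤ T →
      (Aconst (5 / 2) * c5 - θ) * (Real.log T) ^ (25 / 4 : ℝ) ≤ M5 (T ^ (1 - δ)) u := by
  have hM0 : ∀ V u : ℝ, 0 ≤ M5 V u := fun V u => by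
    unfold M5
    exact integral_nonneg fun t => by positivity
  obtain ⟨A, hA⟩ : ∃ A : ℝ, A = Aconst (5 / 2) := ⟨_, rfl⟩
  have hA0 : 0 < A := by rw [hA]; exact Aconst_pos (by norm_num)
  obtain ⟨b, hb⟩ : ∃ b : ℝ, b = bval := ⟨_, rfl⟩
  obtain ⟨c, hc⟩ : ∃ c : ℝ, c = cval := ⟨_, rfl⟩
  have hb0 : 0 < b := by rw [hb]; exact cval_pos.1
  have hc0 : 0 < c := by rw [hc]; exact cval_pos.2
  rw [← hA]
  obtain ⟨g, hg⟩ : ∃ g : ℝ, g = A * c5 - θ := ⟨_, rfl⟩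
  rw [← hg]
  rcases le_or_gt g 0 with hg0 | hg0
  · refine ⟨1 / 1000, 1, by norm_num, le_refl _, fun T hT u _ _ => ?_⟩
    have h1 : 0 ≤ (Real.log T) ^ (25 / 4 : ℝ) := Real.rpow_nonneg (Real.log_nonneg hT) _
    exact (mul_nonpos_of_nonpos_of_nonneg hg0 h1).trans (hM0 _ _)
  -- g² (A c) < (A b)³
  have hGsq : (A * c5) ^ 2 * (A * c) = (A * b) ^ 3 := by
    have h1 : (b ^ (3 / 2 : ℝ)) ^ 2 = b ^ 3 := by
      rw [← Real.rpow_natCast (b ^ (3 / 2 : ℝ)) 2, ← Real.rpow_mul hb0.le, ← Real.rpow_natCast b 3]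
      norm_num
    have h2 : c5 ^ 2 = b ^ 3 / c := by
      unfold c5
      rw [← hb, ← hc, div_pow, h1, Real.sq_sqrt hc0.le]
    rw [mul_pow, h2]
    field_simp
  have hlt : g ^ 2 * (A * c) < (A * b) ^ 3 := by
    rw [← hGsq]
    refine mul_lt_mul_of_pos_right ?_ (by positivity)
    exact pow_lt_pow_left₀ (by linarith) hg0.le (by norm_num)
  have hcont : Continuous fun t : ℝ => (A * b - t) ^ 3 - g ^ 2 * (A * c + t) := by fun_prop
  have hev : ∀ᶠ t in 𝓝 (0:ℝ), 0 < (A * b - t) ^ 3 - g ^ 2 * (A * c + t) := by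
    refine hcont.continuousAt.eventually (lt_mem_nhds ?_)
    simp only [sub_zero, add_zero]
    linarith
  obtain ⟨r, hr0, hr⟩ := Metric.eventually_nhds_iff.1 hev
  obtain ⟨t, ht⟩ : ∃ t : ℝ, t = min (r / 2) (A * b / 2) := ⟨_, rfl⟩
  have ht0 : 0 < t := by rw [ht]; exact lt_min (by positivity) (by positivity)
  have ht1 : t ≤ r / 2 := by rw [ht]; exact min_le_left _ _
  have ht2 : t ≤ A * b / 2 := by rw [ht]; exact min_le_right _ _
  have ht3 : g ^ 2 * (A * c + t) ≤ (A * b - t) ^ 3 := by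
    have h1 : dist t 0 < r := by
      rw [Real.dist_eq, sub_zero, abs_of_pos ht0]
      linarith
    have := hr h1
    linarith
  have hAb : 0 < A * b := by positivity
  obtain ⟨ε, hε, hε', f, χ, hf, hχ, hBB⟩ := choose_cutoffs (t / (4 * A)) (by positivity)
  rw [BI_eq, ← hb] at hBB
  have hABB : A * b - t / 4 ≤ A * BB f χ := by
    have h1 := mul_le_mul_of_nonneg_left hBB hA0.le
    have h2 : A * (b - t / (4 * A)) = A * b - t / 4 := by field_simp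
    linarith
  have hSlim := SS_limit hε hf hχ
  rw [← hA] at hSlim
  have hSev : ∀ᶠ T : ℝ in atTop, A * b - t / 2 < SS f χ T / (Real.log T) ^ (17 / 4 : ℝ) :=
    hSlim.eventually (lt_mem_nhds (by linarith))
  obtain ⟨C, T1, hC0, hT1⟩ := B4_lower (ε := ε) (ε₁ := ε₁) (δ := ε / 16) hε hε' hε1 (by positivity) le_rfl hf hχ
  obtain ⟨T2, hT2⟩ := C2_le (ε := ε) (ε₁ := ε₁) (δ := ε / 16) hε hε' hε1 (by positivity) le_rfl hf t ht0
  rw [← hA, ← hc] at hT2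
  obtain ⟨s, hs⟩ : ∃ s : ℝ, s = A * b - t / 2 := ⟨_, rfl⟩
  have hs0 : 0 < s := by linarith
  have hlog : ∀ᶠ T : ℝ in atTop, max (max 1 (1 / s)) (max (C + 1) (max ((C + 1) * (1 + 2 * s) * 2 / t) ((1 + 2 * s) / (t / 2)))) ≤
      Real.log T := Real.tendsto_log_atTop.eventually_ge_atTop _
  obtain ⟨T3, hT3⟩ := (hSev.and hlog).exists_forall_of_atTop
  refine ⟨ε / 16, max T1 (max T2 T3), by positivity, by linarith, fun T hT u hu1 hu2 => ?_⟩
  have g1 : T1 ≤ T := (le_max_left _ _).trans hT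
  have g2 : T2 ≤ T := (le_max_left _ _).trans ((le_max_right _ _).trans hT)
  have g3 : T3 ≤ T := (le_max_right _ _).trans ((le_max_right _ _).trans hT)
  obtain ⟨g6, g7⟩ := hT3 T g3
  obtain ⟨L, hL⟩ : ∃ L : ℝ, L = Real.log T := ⟨_, rfl⟩
  rw [← hL] at g6 g7
  have l1 : 1 ≤ L := (le_max_left _ _).trans ((le_max_left _ _).trans g7)
  have l2 : 1 / s ≤ L := (le_max_right _ _).trans ((le_max_left _ _).trans g7)
  have l3 : C + 1 ≤ L := (le_max_left _ _).trans ((le_max_right _ _).trans g7)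
  have l4 : (C + 1) * (1 + 2 * s) * 2 / t ≤ L :=
    (le_max_left _ _).trans ((le_max_right _ _).trans ((le_max_right _ _).trans g7))
  have l5 : (1 + 2 * s) / (t / 2) ≤ L :=
    (le_max_right _ _).trans ((le_max_right _ _).trans ((le_max_right _ _).trans g7))
  have hL0 : 0 < L := by linarith
  obtain ⟨Λ, hΛ⟩ : ∃ Λ : ℝ, Λ = L ^ (17 / 4 : ℝ) := ⟨_, rfl⟩
  have hΛL : L ≤ Λ := by
    rw [hΛ]
    calc L = L ^ (1 : ℝ) := (Real.rpow_one L).symm
      _ ≤ L ^ (17 / 4 : ℝ) := Real.rpow_le_rpow_of_exponent_le l1 (by norm_num)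
  have hΛ0 : 0 < Λ := by linarith
  have hpow : L ^ (25 / 4 : ℝ) = L ^ 2 * Λ := by
    rw [hΛ, ← Real.rpow_natCast L 2, ← Real.rpow_add hL0]
    norm_num
  have hS : s * Λ ≤ SS f χ T := by
    rw [← hΛ, ← hs] at g6
    exact ((lt_div_iff₀ hΛ0).1 g6).le
  have hsL : 1 ≤ s * L := by
    have := (div_le_iff₀ hs0).1 l2
    linarith
  have hS1 : 1 ≤ SS f χ T := by
    have h1 : s * L ≤ s * Λ := mul_le_mul_of_nonneg_left hΛL hs0.le
    linarith
  have hLS : 1 ≤ (Real.log T - C) * SS f χ T := by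
    rw [← hL]
    have h1 : 1 * 1 ≤ (L - C) * SS f χ T := mul_le_mul (by linarith) hS1 (by norm_num) (by linarith)
    linarith
  have k1 := hT1 T g1 u hu1 hu2 hLS
  have k2 := hT2 T g2 u hu1 hu2
  have k3 := holder f T (T ^ (1 - ε / 16)) u
  rw [← hL] at k1 k2 ⊢
  obtain ⟨B, hB⟩ : ∃ B : ℝ, B = B4 f T (T ^ (1 - ε / 16)) u := ⟨_, rfl⟩
  obtain ⟨M, hM⟩ : ∃ M : ℝ, M = M5 (T ^ (1 - ε / 16)) u := ⟨_, rfl⟩
  have hMn : 0 ≤ M := by rw [hM]; exact hM0 _ _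
  rw [← hB] at k1 k3
  rw [← hM] at k3 ⊢
  have k4 : (s - t / 2) * (L ^ 2 * Λ) ≤ B := by
    refine low_bound hs0 ht0 hC0 (by linarith) ?_ (by linarith) ?_ hS hS1 k1
    · have := (div_le_iff₀ ht0).1 l4
      linarith
    · have h1 := (div_le_iff₀ (by positivity : (0:ℝ) < t / 2)).1 l5
      have h2 : t / 2 * L ≤ t / 2 * Λ := mul_le_mul_of_nonneg_left hΛL (by positivity)
      linarith
  rw [← hpow] at k4
  obtain ⟨W, hW⟩ : ∃ W : ℝ, W = L ^ (25 / 4 : ℝ) := ⟨_, rfl⟩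
  rw [← hW] at k4 k2 ⊢
  have hW0 : 0 < W := by rw [hW]; positivity
  have hst : s - t / 2 = A * b - t := by rw [hs]; ring
  rw [hst] at k4
  have hAbt : 0 < A * b - t := by linarith
  have hAct : 0 < A * c + t := by positivity
  have k5 : ((A * b - t) * W) ^ 3 ≤ M ^ 2 * ((A * c + t) * W) :=
    (pow_le_pow_left₀ (by positivity) k4 3).trans (k3.trans (mul_le_mul_of_nonneg_left k2 (sq_nonneg _)))
  have k6 : (g * W) ^ 2 * ((A * c + t) * W) ≤ M ^ 2 * ((A * c + t) * W) := by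
    refine le_trans ?_ k5
    calc (g * W) ^ 2 * ((A * c + t) * W) = (g ^ 2 * (A * c + t)) * W ^ 3 := by ring
      _ ≤ (A * b - t) ^ 3 * W ^ 3 := mul_le_mul_of_nonneg_right ht3 (by positivity)
      _ = ((A * b - t) * W) ^ 3 := by ring
  have k7 : (g * W) ^ 2 ≤ M ^ 2 := le_of_mul_le_mul_right k6 (by positivity)
  exact (pow_le_pow_iff_left₀ (by positivity) hMn (by norm_num)).1 k7

end Pool.Agent.LibFM89
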