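import Pool.Agent.LibFM89.Defs
import Pool.Agent.LibSM47.M_A1c

/-! # FM89 W3: tails of the fifth moment (SHORT/MEDIUM)

PLAN.  Copy of LibSM47/M_W4.lean (`tail_le`) with `6 → 5` (`W4_map`, `W4_pt` are private there: copy), `M6 → M5`
(`‖ζ‖^5 ≤ 1 + ‖ζ‖^6` also works).  (add `import Pool.Agent.LibSM47.M_A1c` or `M_A1c`) -/

set_option autoImplicit false

namespace Pool.Agent.LibFM89

open MeasureTheory Set Filter Topology Complex ProbabilityTheory
open scoped NNReal ComplexConjugate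
open Pool.Agent.LibZM
open Pool.Agent.LibSM47 (gam ch idx)

private theorem W3_map (V u : ℝ) : gam V u = (gam 1 0).map (fun x => V * x + u) := by
  have h1 : gam 1 0 = gaussianReal 0 1 := by
    rw [gam]
    congr 1
    apply NNReal.coe_injective
    show (1 : ℝ) ^ 2 = 1
    norm_num
  have h2 : (fun x : ℝ => V * x + u) = (fun x => x + u) ∘ fun x => V * x := rfl
  rw [h1, h2, ← Measure.map_map (by fun_prop) (by fun_prop), gaussianReal_map_const_mul,
    gaussianReal_map_add_const, gam]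
  congr 1
  · ring
  · rw [mul_one]
    rfl

private theorem W3_pt {δ T V R u x : ℝ} (hδ : 0 < δ) (hδ1 : δ ≤ 1 / 10) (hT : 1 ≤ T)
    (hV : V = T ^ (1 - δ)) (hR : R = T ^ (1 - δ / 2)) (hu : 0 ≤ u) (huT : u ≤ T) (hx : R ≤ V * |x|)
    (k : ℕ) (hk : 5 ≤ k * δ) :
    ‖riemannZeta (crit (V * x + u))‖ ^ 5 ≤ 2 ^ 4 * (6 ^ 5 * |x| ^ (2 * k) + 2 ^ 5 * |x| ^ (2 * k + 5)) := by
  have hT0 : 0 < T := by linarith
  have hV0 : 0 < V := by
    rw [hV]
    positivity
  have hVT : V ≤ T := by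
    rw [hV]
    calc T ^ (1 - δ) ≤ T ^ (1 : ℝ) := Real.rpow_le_rpow_of_exponent_le hT (by linarith)
      _ = T := Real.rpow_one T
  have h1 : T ^ (δ / 2) ≤ |x| := by
    have h2 : V * T ^ (δ / 2) = R := by
      rw [hV, hR, ← Real.rpow_add hT0]
      congr 1
      ring
    rw [← h2] at hx
    exact le_of_mul_le_mul_left hx hV0
  have h3 : T ^ 5 ≤ |x| ^ (2 * k) := by
    calc T ^ 5 = T ^ (5 : ℝ) := by
          rw [← Real.rpow_natCast]
          norm_num
      _ ≤ T ^ ((δ / 2) * ((2 * k : ℕ) : ℝ)) := by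
          apply Real.rpow_le_rpow_of_exponent_le hT
          push_cast
          linarith
      _ = (T ^ (δ / 2)) ^ (2 * k) := by
          rw [Real.rpow_mul hT0.le, Real.rpow_natCast]
      _ ≤ |x| ^ (2 * k) := pow_le_pow_left₀ (by positivity) h1 _
  have h4 : |V * x + u| ≤ T * |x| + T := by
    calc |V * x + u| ≤ |V * x| + |u| := abs_add_le _ _
      _ = V * |x| + u := by rw [abs_mul, abs_of_pos hV0, abs_of_nonneg hu]
      _ ≤ T * |x| + T := by
          have := mul_le_mul_of_nonneg_right hVT (abs_nonneg x)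
          linarith
  have h5 : ‖riemannZeta (crit (V * x + u))‖ ≤ T * (6 + 2 * |x|) := by
    refine (norm_zeta_crit_le _).trans ?_
    nlinarith
  have h6 : (6 + 2 * |x|) ^ 5 ≤ 2 ^ 4 * (6 ^ 5 + (2 * |x|) ^ 5) :=
    add_pow_le (by norm_num) (by positivity) 5
  calc ‖riemannZeta (crit (V * x + u))‖ ^ 5 ≤ (T * (6 + 2 * |x|)) ^ 5 :=
        pow_le_pow_left₀ (norm_nonneg _) h5 5
    _ = T ^ 5 * (6 + 2 * |x|) ^ 5 := by rw [mul_pow]
    _ ≤ |x| ^ (2 * k) * (2 ^ 4 * (6 ^ 5 + (2 * |x|) ^ 5)) :=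
        mul_le_mul h3 h6 (by positivity) (by positivity)
    _ = _ := by ring

theorem tail5 (δ : ℝ) (hδ : 0 < δ) (hδ1 : δ ≤ 1 / 10) :
    ∃ C : ℝ, 0 ≤ C ∧ ∀ T : ℝ, 1 ≤ T → ∀ u a b : ℝ, 0 ≤ a → b ≤ T → a + T ^ (1 - δ / 2) ≤ u → u ≤ b - T ^ (1 - δ / 2) →
      M5 (T ^ (1 - δ)) u ≤ (∫ t in Icc a b, ‖riemannZeta (crit t)‖ ^ 5 ∂(gam (T ^ (1 - δ)) u)) + C := by
  obtain ⟨k, hk⟩ := exists_nat_ge (5 / δ)
  have hkδ : 5 ≤ k * δ := by rwa [div_le_iff₀ hδ] at hk
  set G : ℝ → ℝ := fun x => 2 ^ 4 * (6 ^ 5 * |x| ^ (2 * k) + 2 ^ 5 * |x| ^ (2 * k + 5)) with hG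
  have hGint : Integrable G (gam 1 0) := by
    apply Integrable.const_mul
    exact ((Pool.Agent.LibSM47.int_abs_pow 1 0 (2 * k)).const_mul _).add ((Pool.Agent.LibSM47.int_abs_pow 1 0 (2 * k + 5)).const_mul _)
  have hG0 : ∀ x, 0 ≤ G x := by
    intro x
    positivity
  have hGI : 0 ≤ ∫ x, G x ∂(gam 1 0) := integral_nonneg hG0
  refine ⟨(∫ x, G x ∂(gam 1 0)) + 1, by linarith, ?_⟩
  intro T hT u a b ha0 hbT ha hb'
  have hRn : (0:ℝ) ≤ T ^ (1 - δ / 2) := Real.rpow_nonneg (by linarith) _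
  have hu : 0 ≤ u := by linarith
  have huT : u ≤ T := by linarith
  have hb : u + T ^ (1 - δ / 2) ≤ b := by linarith
  set V := T ^ (1 - δ) with hV
  set R := T ^ (1 - δ / 2) with hR
  have hT0 : 0 < T := by linarith
  have hV0 : 0 < V := by
    rw [hV]
    positivity
  have hfint : Integrable (fun t => ‖riemannZeta (crit t)‖ ^ 5) (gam V u) := Pool.Agent.LibSM47.int_pow V u 5
  rw [M5, ← integral_add_compl (measurableSet_Icc (a := a) (b := b)) hfint]
  suffices h : ∫ t in (Icc a b)ᶜ, ‖riemannZeta (crit t)‖ ^ 5 ∂(gam V u) ≤ ∫ x, G x ∂(gam 1 0) by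
    linarith
  have hcz : Continuous (fun t : ℝ => ‖riemannZeta (crit t)‖ ^ 5) := continuous_zeta_crit.norm.pow 5
  have hae : AEStronglyMeasurable ((Icc a b)ᶜ.indicator (fun t : ℝ => ‖riemannZeta (crit t)‖ ^ 5))
      ((gam 1 0).map (fun x => V * x + u)) :=
    (hcz.stronglyMeasurable.indicator measurableSet_Icc.compl).aestronglyMeasurable
  rw [← integral_indicator measurableSet_Icc.compl, W3_map V u, integral_map (by fun_prop) hae]
  apply integral_mono_of_nonneg
  · exact Eventually.of_forall fun x => indicator_nonneg (fun t _ => by positivity) _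
  · exact hGint
  · refine Eventually.of_forall fun x => ?_
    by_cases hmem : V * x + u ∈ (Icc a b)ᶜ
    · simp only [indicator_of_mem hmem]
      apply W3_pt hδ hδ1 hT hV hR hu huT _ k hkδ
      have h7 : V * x + u < a ∨ b < V * x + u := by
        by_contra hcon
        push Not at hcon
        exact hmem ⟨hcon.1, hcon.2⟩
      have h8 : V * |x| = |V * x| := by rw [abs_mul, abs_of_pos hV0]
      rw [h8]
      rcases h7 with h7 | h7
      · have := neg_le_abs (V * x)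
        linarith
      · have := le_abs_self (V * x)
        linarith
    · simp only [indicator_of_notMem hmem]
      exact hG0 x


end Pool.Agent.LibFM89
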