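import Pool.Agent.LibFM89.W2
import Pool.Agent.LibFM89.W3
import Pool.Agent.LibSM47.M_W5

/-! # FM89 W4: intervals (MEDIUM)

PLAN.  Copies of LibSM47/M_W6.lean (`interval_bound`; uses `moment_ge_Icc` of LibSM47/M_W5.lean, which is for a general continuous function) and
LibSM47/M_W8.lean (`interval_all`) with `(log T)^9 → (log T)^(25/4)` (`rpow`), `‖ζ‖^6 → ‖ζ‖^5`, constant `Aconst (5/2) * c5` (`> 0`: `c5_gt`,
`Aconst_pos`), `window_main' → window5`, `tail_le → tail5`.  In `interval_all`: `(1-δ)^(25/4) ≥ (1-δ)^9 ≥ 1 - 9δ ≥ 1 - r`. -/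

set_option autoImplicit false

namespace Pool.Agent.LibFM89

open MeasureTheory Set Filter Topology Complex ProbabilityTheory
open scoped NNReal ComplexConjugate
open Pool.Agent.LibZM
open Pool.Agent.LibSM47 (gam ch idx)

theorem interval5 (θ ε₁ : ℝ) (hθ : 0 < θ) (hε1 : 0 < ε₁) :
    ∃ δ T₀ : ℝ, 0 < δ ∧ δ ≤ 1 / 1000 ∧ ∀ T : ℝ, T₀ ≤ T → ∀ a b : ℝ, ε₁ * T ≤ a → b ≤ T → T ^ (1 - δ) ≤ b - a →
      (Aconst (5 / 2) * c5 - θ) * (b - a) * (Real.log T) ^ (25 / 4 : ℝ) ≤ ∫ t in a..b, ‖riemannZeta (crit t)‖ ^ 5 := by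
  obtain ⟨δ₀, T₁, hδ0, hδ1, hwin⟩ := window5 (θ / 2) ε₁ (by positivity) hε1
  obtain ⟨C, hC, htail⟩ := tail5 δ₀ hδ0 (by linarith)
  set A : ℝ := Aconst (5 / 2) * c5 with hA
  have hA0 : 0 < A := by
    have h1 := LibZM.Aconst_pos (κ := 5 / 2) (by norm_num)
    have h2 : 0 < c5 := lt_trans (by norm_num) c5_gt
    rw [hA]; positivity
  have e1 : ∀ᶠ T : ℝ in atTop, T ^ (-(δ₀ / 6)) < min (1 / 4) (θ / (16 * A)) :=
    (tendsto_rpow_neg_atTop (by positivity : 0 < δ₀ / 6)).eventually_lt_const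
      (lt_min (by norm_num) (by positivity))
  have e2 : ∀ᶠ T : ℝ in atTop, 8 * C / θ ≤ (Real.log T) ^ (25 / 4 : ℝ) :=
    ((tendsto_rpow_atTop (by norm_num : (0 : ℝ) < 25 / 4)).comp Real.tendsto_log_atTop).eventually_ge_atTop _
  obtain ⟨T₂, h2⟩ := (e1.and e2).exists_forall_of_atTop
  refine ⟨δ₀ / 3, max (max T₁ T₂) 1, by positivity, by linarith, ?_⟩
  intro T hT a b ha hb hab
  have hT1 : T₁ ≤ T := le_trans (le_trans (le_max_left _ _) (le_max_left _ _)) hT
  have hT2 : T₂ ≤ T := le_trans (le_trans (le_max_right _ _) (le_max_left _ _)) hT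
  have hT3 : 1 ≤ T := le_trans (le_max_right _ _) hT
  have hT0 : 0 < T := by linarith
  obtain ⟨hs, hL⟩ := h2 T hT2
  set s : ℝ := T ^ (-(δ₀ / 6)) with hsdef
  have hs0 : 0 < s := Real.rpow_pos_of_pos hT0 _
  have hs1 : s < 1 / 4 := lt_of_lt_of_le hs (min_le_left _ _)
  have hs2 : s < θ / (16 * A) := lt_of_lt_of_le hs (min_le_right _ _)
  have hL0 : 0 ≤ (Real.log T) ^ (25 / 4 : ℝ) := Real.rpow_nonneg (Real.log_nonneg hT3) _
  set L9 : ℝ := (Real.log T) ^ (25 / 4 : ℝ) with hL9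
  have hpow0 : 0 < T ^ (1 - δ₀ / 3) := Real.rpow_pos_of_pos hT0 _
  have hD : 0 < b - a := lt_of_lt_of_le hpow0 hab
  set R : ℝ := T ^ (1 - δ₀ / 2) with hR
  have hR0 : 0 < R := Real.rpow_pos_of_pos hT0 _
  have hRs : R ≤ s * (b - a) := by
    have : R = s * T ^ (1 - δ₀ / 3) := by
      rw [hR, hsdef, ← Real.rpow_add hT0]
      congr 1; ring
    rw [this]
    exact mul_le_mul_of_nonneg_left hab hs0.le
  have ha0 : 0 ≤ a := le_trans (by positivity) ha
  have h2R : a + R ≤ b - R := by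
    have e : s * (b - a) ≤ 1 / 4 * (b - a) := mul_le_mul_of_nonneg_right hs1.le hD.le
    linarith
  have hc : Continuous (fun t : ℝ => ‖riemannZeta (crit t)‖ ^ 5) := continuous_zeta_crit.norm.pow 5
  have hmom := LibSM47.moment_ge_Icc (V := T ^ (1 - δ₀)) (Real.rpow_pos_of_pos hT0 _) hc
    (fun t => by positivity) (a := a) (b := b) (R := R) (c := (A - θ / 2) * L9 - C) h2R (by
      intro u hu1 hu2
      have h3 := hwin T hT1 u (by linarith) (by linarith)
      have h4 := htail T hT3 u a b (by linarith) (by linarith) hu1 (by linarith)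
      linarith)
  have hint : ∫ t in a..b, ‖riemannZeta (crit t)‖ ^ 5 = ∫ t in Icc a b, ‖riemannZeta (crit t)‖ ^ 5 := by
    rw [intervalIntegral.integral_of_le (by linarith), integral_Icc_eq_integral_Ioc]
  rw [hint]
  rcases le_or_gt (A - θ) 0 with h5 | h5
  · refine le_trans ?_ (integral_nonneg fun t => by positivity)
    have : 0 ≤ (b - a) * L9 := by positivity
    nlinarith
  · refine le_trans ?_ hmom
    have hCL : C ≤ θ / 8 * L9 := by
      rw [div_le_iff₀ hθ] at hL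
      linarith
    have hc1 : (A - 5 * θ / 8) * L9 ≤ (A - θ / 2) * L9 - C := by nlinarith
    have hsA : 2 * s * A ≤ θ / 8 := by
      rw [lt_div_iff₀ (by positivity)] at hs2
      nlinarith
    have h6 : (A - θ) ≤ (1 - 2 * s) * (A - 5 * θ / 8) := by
      have e : (1 - 2 * s) * (A - 5 * θ / 8) = A - 5 * θ / 8 - 2 * s * A + 2 * s * (5 * θ / 8) := by ring
      have e' : 0 ≤ 2 * s * (5 * θ / 8) := by positivity
      rw [e]; linarith
    have h7 : (1 - 2 * s) * (b - a) ≤ b - a - 2 * R := by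
      have e : (1 - 2 * s) * (b - a) = b - a - 2 * (s * (b - a)) := by ring
      rw [e]; linarith
    have h8 : 0 ≤ (A - 5 * θ / 8) * L9 := by
      apply mul_nonneg _ hL0
      linarith
    calc (A - θ) * (b - a) * L9 ≤ ((1 - 2 * s) * (A - 5 * θ / 8)) * (b - a) * L9 := by
          apply mul_le_mul_of_nonneg_right _ hL0
          exact mul_le_mul_of_nonneg_right h6 hD.le
      _ = ((1 - 2 * s) * (b - a)) * ((A - 5 * θ / 8) * L9) := by ring
      _ ≤ (b - a - 2 * R) * ((A - 5 * θ / 8) * L9) := mul_le_mul_of_nonneg_right h7 h8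
      _ ≤ (b - a - 2 * R) * ((A - θ / 2) * L9 - C) := by
          apply mul_le_mul_of_nonneg_left hc1
          linarith

private lemma w4_int (a b : ℝ) : IntervalIntegrable (fun t => ‖riemannZeta (crit t)‖ ^ 5) volume a b :=
  (continuous_zeta_crit.norm.pow 5).intervalIntegrable a b

theorem interval5_all (θ : ℝ) (hθ : 0 < θ) :
    ∃ δ T₀ : ℝ, 0 < δ ∧ ∀ T : ℝ, T₀ ≤ T → ∀ a b : ℝ, 0 ≤ a → b ≤ T → T ^ (1 - δ) ≤ b - a →
      (Aconst (5 / 2) * c5 - θ) * (b - a) * (Real.log T) ^ (25 / 4 : ℝ) ≤ ∫ t in a..b, ‖riemannZeta (crit t)‖ ^ 5 := by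
  set c : ℝ := Aconst (5 / 2) * c5 with hc
  have hc0 : 0 < c := by
    have h1 := LibZM.Aconst_pos (κ := 5 / 2) (by norm_num)
    have h2 : 0 < c5 := lt_trans (by norm_num) c5_gt
    rw [hc]; positivity
  by_cases hcθ : c ≤ θ
  · refine ⟨1, 1, one_pos, fun T hT a b ha hb hab => ?_⟩
    have h1 : 0 ≤ b - a := le_trans (Real.rpow_nonneg (by linarith) _) hab
    have h2 : 0 ≤ ∫ t in a..b, ‖riemannZeta (crit t)‖ ^ 5 :=
      intervalIntegral.integral_nonneg (by linarith) fun t _ => by positivity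
    have h3 : 0 ≤ (Real.log T) ^ (25 / 4 : ℝ) := Real.rpow_nonneg (Real.log_nonneg hT) _
    have h4 : (c - θ) * (b - a) * (Real.log T) ^ (25 / 4 : ℝ) ≤ 0 := by
      have : (c - θ) * (b - a) ≤ 0 := mul_nonpos_of_nonpos_of_nonneg (by linarith) h1
      exact mul_nonpos_of_nonpos_of_nonneg this h3
    linarith
  push Not at hcθ
  obtain ⟨r, hr⟩ : ∃ r : ℝ, r = θ / (8 * c) := ⟨_, rfl⟩
  have hr0 : 0 < r := by rw [hr]; positivity
  have hr1 : r < 1 / 8 := by
    rw [hr, div_lt_iff₀ (by positivity)]; linarith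
  have hrc : r * c = θ / 8 := by rw [hr]; field_simp
  obtain ⟨δ₀, T₁, hδ0, hδ1, h⟩ := interval5 (θ / 4) r (by positivity) hr0
  set δ : ℝ := min (δ₀ / 2) (r / 9) with hδ
  have hδpos : 0 < δ := lt_min (by positivity) (by positivity)
  have hδa : δ ≤ δ₀ / 2 := min_le_left _ _
  have hδb : δ ≤ r / 9 := min_le_right _ _
  have hδ2 : δ ≤ 1 / 2 := by linarith
  have e1 : ∀ᶠ T : ℝ in atTop, T₁ ≤ T ^ (1 - δ) :=
    (tendsto_rpow_atTop (by linarith : (0:ℝ) < 1 - δ)).eventually_ge_atTop T₁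
  have e2 : ∀ᶠ T : ℝ in atTop, (2:ℝ) ≤ T ^ (δ₀ - δ) :=
    (tendsto_rpow_atTop (by linarith : (0:ℝ) < δ₀ - δ)).eventually_ge_atTop 2
  obtain ⟨T₀, hT₀⟩ := eventually_atTop.1 ((e1.and e2).and (eventually_ge_atTop (3:ℝ)))
  refine ⟨δ, T₀, hδpos, fun T hT a b ha hb hab => ?_⟩
  obtain ⟨⟨hA, hB⟩, hT3⟩ := hT₀ T hT
  have hTpos : 0 < T := by linarith
  have hpow : 0 < T ^ (1 - δ) := Real.rpow_pos_of_pos hTpos _
  have hab0 : 0 < b - a := lt_of_lt_of_le hpow hab
  have hbT : T ^ (1 - δ) ≤ b := by linarith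
  have hb0 : 0 < b := by linarith
  set a' : ℝ := max a (r * b) with ha'
  have hb1 : a' ≤ b := max_le (by linarith) (by nlinarith)
  have hlen : (1 - r) * (b - a) ≤ b - a' := by
    rcases le_total a (r * b) with h1 | h1
    · rw [ha', max_eq_right h1]
      nlinarith
    · rw [ha', max_eq_left h1]
      nlinarith
  have h1 : b ^ (1 - δ₀) ≤ b - a' := by
    have h2 : b ^ (1 - δ₀) ≤ T ^ (1 - δ₀) := Real.rpow_le_rpow hb0.le hb (by linarith)
    have h3 : T ^ (1 - δ) = T ^ (1 - δ₀) * T ^ (δ₀ - δ) := by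
      rw [← Real.rpow_add hTpos]; congr 1; ring
    have h4 : 0 < T ^ (1 - δ₀) := Real.rpow_pos_of_pos hTpos _
    have h5 : T ^ (1 - δ₀) * 2 ≤ T ^ (1 - δ) := by
      rw [h3]; exact mul_le_mul_of_nonneg_left hB h4.le
    nlinarith
  have h2 := h b (hA.trans hbT) a' b (le_max_right _ _) le_rfl h1
  have h3 : ∫ t in a'..b, ‖riemannZeta (crit t)‖ ^ 5 ≤ ∫ t in a..b, ‖riemannZeta (crit t)‖ ^ 5 := by
    have h4 := intervalIntegral.integral_add_adjacent_intervals (w4_int a a') (w4_int a' b)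
    have h5 : 0 ≤ ∫ t in a..a', ‖riemannZeta (crit t)‖ ^ 5 :=
      intervalIntegral.integral_nonneg (le_max_left _ _) fun t _ => by positivity
    linarith
  refine le_trans ?_ (h2.trans h3)
  have hlog : (1 - δ) * Real.log T ≤ Real.log b := by
    rw [← Real.log_rpow hTpos]
    exact Real.log_le_log hpow hbT
  have hLT : 0 < Real.log T := Real.log_pos (by linarith)
  have hδ1' : 0 < 1 - δ := by linarith
  have hl0 : 0 ≤ (1 - δ) * Real.log T := by
    apply mul_nonneg _ hLT.le; linarith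
  have hLTp : 0 ≤ (Real.log T) ^ (25 / 4 : ℝ) := Real.rpow_nonneg hLT.le _
  have hlog9 : (1 - r) * (Real.log T) ^ (25 / 4 : ℝ) ≤ (Real.log b) ^ (25 / 4 : ℝ) := by
    calc (1 - r) * (Real.log T) ^ (25 / 4 : ℝ) ≤ (1 - δ) ^ (25 / 4 : ℝ) * (Real.log T) ^ (25 / 4 : ℝ) := by
          apply mul_le_mul_of_nonneg_right _ hLTp
          have h6 : (1 : ℝ) + ((9 : ℕ) : ℝ) * (-δ) ≤ (1 + -δ) ^ 9 := one_add_mul_le_pow (a := -δ) (by linarith) 9
          have h7 : (1 + -δ) = 1 - δ := by ring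
          rw [h7] at h6
          push_cast at h6
          have h8 : (1 - δ) ^ (9 : ℝ) ≤ (1 - δ) ^ (25 / 4 : ℝ) :=
            Real.rpow_le_rpow_of_exponent_ge hδ1' (by linarith) (by norm_num)
          have h9 : (1 - δ) ^ (9 : ℝ) = (1 - δ) ^ 9 := by
            rw [← Real.rpow_natCast]
            norm_num
          have h10 : 1 - r ≤ (1 - δ) ^ 9 := by linarith
          exact h10.trans (h9.symm.le.trans h8)
      _ = ((1 - δ) * Real.log T) ^ (25 / 4 : ℝ) := (Real.mul_rpow hδ1'.le hLT.le).symm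
      _ ≤ _ := Real.rpow_le_rpow hl0 hlog (by norm_num)
  have hcc : 0 < c - θ / 4 := by linarith
  have hkey : c - θ ≤ (c - θ / 4) * (1 - r) * (1 - r) := by
    have h8 : (1 - 2 * r) ≤ (1 - r) * (1 - r) := by nlinarith
    have h9 : (c - θ / 4) * (1 - 2 * r) ≤ (c - θ / 4) * ((1 - r) * (1 - r)) :=
      mul_le_mul_of_nonneg_left h8 hcc.le
    have h10 : c - θ ≤ (c - θ / 4) * (1 - 2 * r) := by nlinarith
    linarith [mul_assoc (c - θ / 4) (1 - r) (1 - r)]
  calc (c - θ) * (b - a) * (Real.log T) ^ (25 / 4 : ℝ)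
      ≤ ((c - θ / 4) * (1 - r) * (1 - r)) * (b - a) * (Real.log T) ^ (25 / 4 : ℝ) := by
        apply mul_le_mul_of_nonneg_right _ hLTp
        exact mul_le_mul_of_nonneg_right hkey hab0.le
    _ = (c - θ / 4) * ((1 - r) * (b - a)) * ((1 - r) * (Real.log T) ^ (25 / 4 : ℝ)) := by ring
    _ ≤ (c - θ / 4) * (b - a') * (Real.log b) ^ (25 / 4 : ℝ) := by
        apply mul_le_mul _ hlog9
        · apply mul_nonneg _ hLTp
          linarith
        · apply mul_nonneg hcc.le; linarith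
        · exact mul_le_mul_of_nonneg_left hlen hcc.le

end Pool.Agent.LibFM89
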